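import Mathlib
import Pool.Agent.W522.M.Defs

/-!
# Sources for the strata of a projective reduction

`D` is the cohomology of the strata of the special fibre of a strictly semistable formal model of
dimension `n` whose special fibre is projective; `D.V a w` is `H^(w-a)(Y^(a+1))`.
-/

set_option autoImplicit false

namespace Pool.Agent.W552.Wl

open Pool.Agent.W522.M

variable {E : Type} [Field E]

/-- The `E_1`-terms of the weight spectral sequence of a strictly semistable formal scheme of
relative dimension `n` with projective special fibre (or of a projective log scheme with simple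
normal crossings over a log point): the restriction and Gysin maps form a complex, the strata
`Y^(a+1)` are empty for `a > n` and have cohomology in degrees `0` to `2 (n - a)`, hard Lefschetz
and Poincaré duality hold for them. Nothing is assumed about the generic fibre. -/
structure IsReduction (D : Strata E) (n : ℕ) : Prop where
  complex : D.IsComplex
  bounded : D.IsBounded n
  top : ∀ a w (x : D.V a w), 2 * n < w + a → Vanishes x
  lefschetz : D.IsLefschetz n
  duality : D.IsDuality n

/-- linear operators `Λ : V a (w + 2) → V a w` and `* : V a w → V a v` (used for `w + v = 2 n`) -/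
structure Stars (D : Strata E) where
  /-- the operator `Λ` -/
  low : ∀ a w, D.Hom a (w + 2) a w
  /-- the operator `*` -/
  star : ∀ a w v, D.Hom a w a v

variable {D : Strata E}

/-- `Λ x` -/
def Stars.lo (S : Stars D) {a w : ℕ} (x : D.V a (w + 2)) : D.V a w := S.low a w x

/-- `* x`, in `V a v` -/
def Stars.st (S : Stars D) (v : ℕ) {a w : ℕ} (x : D.V a w) : D.V a v := S.star a w v x

/-- multiplication by a scalar -/
def scal (c : E) {a w : ℕ} (x : D.V a w) : D.V a w := c • x

variable (E) in
/-- the sign `(-1)^(i (i + 1) / 2)` for classes of degree `i = w - a` -/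
def sgn (a w : ℕ) : E := (-1) ^ ((w - a) * (w - a + 1) / 2)

/-- `Λ` is the inverse Lefschetz operator of the representation theory of `sl_2`, and `*` the Hodge
star operator of the hard Lefschetz theorem: `* L^j x = (-1)^(i(i+1)/2) j!/(r-j)! L^(r-j) x` for a
primitive class `x` of degree `i = dim - r`. -/
structure Stars.IsStar (S : Stars D) (n : ℕ) : Prop where
  /-- `Λ L - L Λ` is the multiplication by `n - w` on `V a w` -/
  bot : ∀ a w (x : D.V a w), w < 2 → S.lo (lam x) = scal ((n : E) - w) x
  comm : ∀ a w (x : D.V a (w + 2)), S.lo (lam x) = lam (S.lo x) + scal ((n : E) - (w + 2)) x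
  /-- `Λ` is its own transpose -/
  adj : ∀ a w v (x : D.V a (w + 2)) (y : D.V a (v + 2)), w + v + 2 = 2 * n →
    ip (S.lo x) y = ip x (S.lo y)
  /-- `*` is an involution -/
  invol : ∀ a w v (x : D.V a w), w + v = 2 * n → S.st w (S.st v x) = x
  /-- `* L = Λ *` -/
  lef : ∀ a w v (x : D.V a w), w + 2 + v = 2 * n → S.st v (lam x) = S.lo (S.st (v + 2) x)
  /-- `r! * x = (-1)^(i(i+1)/2) L^r x` for primitive classes -/
  prim : ∀ a w r (x : D.V a w), w + r = n → Vanishes (pow (r + 1) x) →
    scal (r.factorial : E) (S.st (w + 2 * r) x) = scal (sgn E a w) (pow r x)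

/-- A source: a summand `T` of the cohomology `H^k(S)` of a smooth projective variety `S` over the
residue field, with the form `(x, y) ↦ ⟨x, * y⟩` and the `ℚ`-spaces `C a w` of maps from `T` to
`V a w` that are induced by algebraic correspondences with rational coefficients. (`T = H^0` of a
point: `C a w` is the space of classes of algebraic cycles.) -/
structure Src (D : Strata E) where
  /-- the summand of the cohomology of `S` -/
  T : Type
  [grp : AddCommGroup T]
  [mod : Module E T]
  [fin : FiniteDimensional E T]
  /-- the form `⟨x, * y⟩` -/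
  form : T →ₗ[E] T →ₗ[E] E
  /-- correspondences from `S` to `Y^(a+1)` -/
  C : ∀ a w, AddSubgroup (T →ₗ[E] D.V a w)

attribute [instance] Src.grp Src.mod Src.fin

/-- linear maps from `T` to `T` -/
abbrev Src.Endo (X : Src D) := X.T →ₗ[E] X.T

/-- linear maps from `T` to `V a w` -/
abbrev Src.Map (X : Src D) (a w : ℕ) := X.T →ₗ[E] D.V a w

/-- `f` is induced by a correspondence from `S` to `Y^(a+1)`. -/
def Src.IsC (X : Src D) {a w : ℕ} (f : X.Map a w) : Prop := f ∈ X.C a w

/-- the value of the form on `T` -/
def Src.num (X : Src D) (x y : X.T) : E := X.form x y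

/-- the value of a map -/
def Src.val (X : Src D) {a w : ℕ} (f : X.Map a w) (x : X.T) : D.V a w := f x

/-- multiplication by a rational number -/
def Src.rsmul (X : Src D) (c : ℚ) {a w : ℕ} (f : X.Map a w) : X.Map a w := (c : E) • f

/-- the composition with the (alternating sum of the) restriction maps -/
def Src.restr (X : Src D) {a w : ℕ} (f : X.Map a w) : X.Map (a + 1) (w + 1) :=
  (D.res a w).comp f

/-- the composition with the (alternating sum of the) Gysin maps -/
def Src.gysin (X : Src D) {a w : ℕ} (f : X.Map (a + 1) w) : X.Map a (w + 1) := (D.gys a w).comp f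

/-- the composition with `Λ` -/
def Src.lower (X : Src D) (S : Stars D) {a w : ℕ} (f : X.Map a (w + 2)) : X.Map a w :=
  (S.low a w).comp f

/-- the trace -/
noncomputable def Src.tr (X : Src D) (r : X.Endo) : E := LinearMap.trace E X.T r

/-- `r` is the composition of `g` with the transpose of `f` for the forms `⟨x, * y⟩`. -/
def Src.IsProduct (X : Src D) (S : Stars D) (v : ℕ) {a w : ℕ} (f g : X.Map a w) (r : X.Endo) :
    Prop :=
  ∀ x y, X.num x (r y) = ip (X.val f x) (S.st v (X.val g y))

/-- The known properties of correspondences; `lower` says that the operators `Λ` of the strata are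
algebraic (on the part of the cohomology that is considered). -/
structure Src.IsGeometric (X : Src D) (S : Stars D) : Prop where
  nondeg : ∀ y, (∀ x, X.num x y = 0) → y = 0
  smul : ∀ c a w (f : X.Map a w), X.IsC f → X.IsC (X.rsmul c f)
  res : ∀ a w (f : X.Map a w), X.IsC f → X.IsC (X.restr f)
  gys : ∀ a w (f : X.Map (a + 1) w), X.IsC f → X.IsC (X.gysin f)
  lower : ∀ a w (f : X.Map a (w + 2)), X.IsC f → X.IsC (X.lower S f)

/-- `x` is a rational number. -/
def IsRat (x : E) : Prop := ∃ c : ℚ, x = (c : E)

/-- `x` is a positive rational number. -/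
def IsPos (x : E) : Prop := ∃ c : ℚ, 0 < c ∧ x = (c : E)

/-- Positivity: the traces of the products `f^* g` are rational, and those of `f^* f` are positive:
the standard conjecture of Hodge type for the correspondences `C a w` between `S` and the strata. -/
structure Src.IsPositive (X : Src D) (S : Stars D) (n : ℕ) : Prop where
  rational : ∀ a w v (f g : X.Map a w) r, w + v = 2 * n → X.IsC f → X.IsC g →
    X.IsProduct S v f g r → IsRat (X.tr r)
  positive : ∀ a w v (f : X.Map a w) r, w + v = 2 * n → X.IsC f → f ≠ 0 →
    X.IsProduct S v f f r → IsPos (X.tr r)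

/-- the subspace of `V a w` spanned by the images of the sources `X j` -/
def imageOf {J : Type} (X : J → Src D) (a w : ℕ) : Submodule E (D.V a w) :=
  Submodule.span E {v | ∃ j f x, (X j).IsC f ∧ v = (X j).val f x}

/-- subspaces `N a w` of the `V a w` -/
abbrev Subs (D : Strata E) := ∀ a w, Submodule E (D.V a w)

/-- Subspaces `N a w` of inert classes: they are killed by the restriction and Gysin maps and stable
under `*` (for instance the transcendental classes in `H^2` of the double surfaces when `H^2` of the
threefolds `Y^(1)` is spanned by divisors). -/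
structure IsInert (S : Stars D) (n : ℕ) (N : Subs D) : Prop where
  res : ∀ a w (x : D.V a w), x ∈ N a w → Vanishes (rho x)
  gys : ∀ a w (x : D.V (a + 1) w), x ∈ N (a + 1) w → Vanishes (gam x)
  star : ∀ a w v (x : D.V a w), w + v = 2 * n → x ∈ N a w → S.st v x ∈ N a v

/-- The cohomology of the strata `Y^(a+1)` is generated by the sources and by inert classes. -/
def GeneratedAt {J : Type} (X : J → Src D) (N : Subs D) (a : ℕ) : Prop :=
  ∀ w, imageOf X a w ⊔ N a w = ⊤

end Pool.Agent.W552.Wl
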