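import Mathlib
import Pool.Agent.W552.WlDefs

/-!
# Strata with cohomology generated by divisors
-/

set_option autoImplicit false

namespace Pool.Agent.W552.Wd

open Pool.Agent.W522.M Pool.Agent.W552.Wl

variable {E : Type} [Field E] {D : Strata E}

/-- the classes `L^j x`, `x` the class of a cycle of codimension `0` or `1` with rational
coefficients -/
inductive Lef (A : D.Cycles) {a : ℕ} : ∀ {w : ℕ}, D.V a w → Prop
  | comp (x : D.V a a) : A.Alg x → Lef A x
  | div (x : D.V a (a + 2)) : A.Alg x → Lef A x
  | lam (w : ℕ) (x : D.V a w) : Lef A x → Lef A (lam x)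

/-- the subspace of `V a w` spanned by the classes `L^j x`, `x` of codimension `0` or `1` -/
def lefSpan (A : D.Cycles) (a w : ℕ) : Submodule E (D.V a w) :=
  Submodule.span E {x | Lef A x}

/-- The classes in `N a w` are orthogonal to the classes `L^j x`, `x` of codimension `0` or `1`. -/
def Transcendental (A : D.Cycles) (n : ℕ) (N : Subs D) : Prop :=
  ∀ a w v (x : D.V a w) (y : D.V a v), w + v = 2 * n → x ∈ N a w → Lef A y → ip x y = 0

/-- All cohomology of the strata is spanned by the classes `L^j x`, `x` of codimension `0` or `1`,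
and by the classes in `N`. -/
def GeneratedByDivisors (A : D.Cycles) (N : Subs D) : Prop := ∀ a w, lefSpan A a w ⊔ N a w = ⊤

end Pool.Agent.W552.Wd
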