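import Mathlib
import Pool.Agent.W552.WlDefs
import Pool.Agent.W522.M.M3

/-!
# The Laplacian of the weight spectral sequence
-/

set_option autoImplicit false

namespace Pool.Agent.W552.Wl

open Module Pool.Agent.W522.M

variable {E : Type} [Field E] {D : Strata E}

/-- `[Λ, ρ]` -/
def rr (S : Stars D) (a : ℕ) : ∀ w, D.V a (w + 1) →ₗ[E] D.V (a + 1) w
  | 0 => (S.low (a + 1) 0).comp (D.res a 1)
  | w + 1 => (S.low (a + 1) (w + 1)).comp (D.res a (w + 2)) - (D.res a w).comp (S.low a w)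

/-- `[Λ, γ]` -/
def gg (S : Stars D) (a : ℕ) : ∀ w, D.V (a + 1) (w + 1) →ₗ[E] D.V a w
  | 0 => (S.low a 0).comp (D.gys a 1)
  | w + 1 => (S.low a (w + 1)).comp (D.gys a (w + 2)) - (D.gys a w).comp (S.low (a + 1) w)

lemma rr_res (S : Stars D) (hc : D.IsComplex) (a w : ℕ) (x : D.V a (w + 1)) :
    D.res (a + 1) w (rr S a w x) + rr S (a + 1) (w + 1) (D.res a (w + 1) x) = 0 := by
  have h0 : ∀ a w (x : D.V a w), D.res (a + 1) (w + 1) (D.res a w x) = 0 := hc.res_res
  cases w with
  | zero =>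
    change D.res (a + 1) 0 (S.low (a + 1) 0 (D.res a 1 x)) +
      (S.low (a + 2) 1 (D.res (a + 1) 2 (D.res a 1 x)) -
        D.res (a + 1) 0 (S.low (a + 1) 0 (D.res a 1 x))) = 0
    rw [h0, map_zero]
    abel
  | succ w =>
    change D.res (a + 1) (w + 1) (S.low (a + 1) (w + 1) (D.res a (w + 2) x) -
        D.res a w (S.low a w x)) +
      (S.low (a + 2) (w + 2) (D.res (a + 1) (w + 3) (D.res a (w + 2) x)) -
        D.res (a + 1) (w + 1) (S.low (a + 1) (w + 1) (D.res a (w + 2) x))) = 0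
    rw [h0, map_zero, map_sub, h0]
    abel

lemma gg_gys (S : Stars D) (hc : D.IsComplex) (a w : ℕ) (x : D.V (a + 2) (w + 1)) :
    D.gys a w (gg S (a + 1) w x) + gg S a (w + 1) (D.gys (a + 1) (w + 1) x) = 0 := by
  have h0 : ∀ a w (x : D.V (a + 2) w), D.gys a (w + 1) (D.gys (a + 1) w x) = 0 := hc.gys_gys
  cases w with
  | zero =>
    change D.gys a 0 (S.low (a + 1) 0 (D.gys (a + 1) 1 x)) +
      (S.low a 1 (D.gys a 2 (D.gys (a + 1) 1 x)) -
        D.gys a 0 (S.low (a + 1) 0 (D.gys (a + 1) 1 x))) = 0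
    rw [h0, map_zero]
    abel
  | succ w =>
    change D.gys a (w + 1) (S.low (a + 1) (w + 1) (D.gys (a + 1) (w + 2) x) -
        D.gys (a + 1) w (S.low (a + 2) w x)) +
      (S.low a (w + 2) (D.gys a (w + 3) (D.gys (a + 1) (w + 2) x)) -
        D.gys a (w + 1) (S.low (a + 1) (w + 1) (D.gys (a + 1) (w + 2) x))) = 0
    rw [h0, map_zero, map_sub, h0]
    abel

lemma mixed (S : Stars D) (hc : D.IsComplex) (a w : ℕ) (x : D.V (a + 1) (w + 1)) :
    D.gys (a + 1) w (rr S (a + 1) w x) + D.res a w (gg S a w x) +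
      gg S (a + 1) (w + 1) (D.res (a + 1) (w + 1) x) +
      rr S a (w + 1) (D.gys a (w + 1) x) = 0 := by
  have h0 : ∀ a w (x : D.V (a + 1) w),
      D.gys (a + 1) (w + 1) (D.res (a + 1) w x) = - D.res a (w + 1) (D.gys a w x) :=
    fun a w x => eq_neg_of_add_eq_zero_left (hc.gys_res a w x)
  cases w with
  | zero =>
    change D.gys (a + 1) 0 (S.low (a + 2) 0 (D.res (a + 1) 1 x)) +
      D.res a 0 (S.low a 0 (D.gys a 1 x)) +
      (S.low (a + 1) 1 (D.gys (a + 1) 2 (D.res (a + 1) 1 x)) -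
        D.gys (a + 1) 0 (S.low (a + 2) 0 (D.res (a + 1) 1 x))) +
      (S.low (a + 1) 1 (D.res a 2 (D.gys a 1 x)) - D.res a 0 (S.low a 0 (D.gys a 1 x))) = 0
    rw [h0, map_neg]
    abel
  | succ w =>
    change D.gys (a + 1) (w + 1) (S.low (a + 2) (w + 1) (D.res (a + 1) (w + 2) x) -
        D.res (a + 1) w (S.low (a + 1) w x)) +
      D.res a (w + 1) (S.low a (w + 1) (D.gys a (w + 2) x) - D.gys a w (S.low (a + 1) w x)) +
      (S.low (a + 1) (w + 2) (D.gys (a + 1) (w + 3) (D.res (a + 1) (w + 2) x)) -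
        D.gys (a + 1) (w + 1) (S.low (a + 2) (w + 1) (D.res (a + 1) (w + 2) x))) +
      (S.low (a + 1) (w + 2) (D.res a (w + 3) (D.gys a (w + 2) x)) -
        D.res a (w + 1) (S.low a (w + 1) (D.gys a (w + 2) x))) = 0
    rw [map_sub, map_sub, h0, h0, map_neg]
    abel

/-- the values of the operator `δ` -/
noncomputable def delf (S : Stars D) (p : ℤ) {w : ℕ} (x : D.Ch (w + 1)) : D.Ch w
  | 0 => (((p : E) + 1) / 2) • gg S 0 w (x 1)
  | b + 1 => (-(((b : E) - p + 2) / 2)) • rr S b w (x b) +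
      (((b : E) + p + 2) / 2) • gg S (b + 1) w (x (b + 2))

/-- the operator `δ` -/
noncomputable def del (S : Stars D) (p : ℤ) (w : ℕ) : D.Ch (w + 1) →ₗ[E] D.Ch w where
  toFun := delf S p
  map_add' x y := by
    funext a
    cases a with
    | zero =>
      simp only [delf, Pi.add_apply, map_add, smul_add]
    | succ b =>
      simp only [delf, Pi.add_apply, map_add, smul_add]
      abel
  map_smul' c x := by
    funext a
    cases a with
    | zero =>
      simp only [delf, Pi.smul_apply, map_smul, RingHom.id_apply]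
      rw [smul_comm]
    | succ b =>
      simp only [delf, Pi.smul_apply, map_smul, RingHom.id_apply, smul_add]
      rw [smul_comm _ c, smul_comm _ c]

lemma del_zero (S : Stars D) (p : ℤ) {w : ℕ} (x : D.Ch (w + 1)) :
    del S p w x 0 = (((p : E) + 1) / 2) • gg S 0 w (x 1) := rfl

lemma del_succ (S : Stars D) (p : ℤ) {w : ℕ} (x : D.Ch (w + 1)) (b : ℕ) :
    del S p w x (b + 1) = (-(((b : E) - p + 2) / 2)) • rr S b w (x b) +
      (((b : E) + p + 2) / 2) • gg S (b + 1) w (x (b + 2)) := rfl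

/-- the Laplacian on `V (b + 1) (w + 1)` -/
noncomputable def lap (S : Stars D) (b w : ℕ) : D.V (b + 1) (w + 1) →ₗ[E] D.V (b + 1) (w + 1) :=
  - (D.gys (b + 1) w).comp (rr S (b + 1) w) + ((b : E) + 1) • (D.res b w).comp (gg S b w) +
    ((b : E) + 2) • (gg S (b + 1) (w + 1)).comp (D.res (b + 1) (w + 1))

variable [CharZero E]

lemma del_mem (S : Stars D) (p : ℤ) {w : ℕ} (x : D.Ch (w + 1)) (hx : x ∈ D.E1 p (w + 1)) :
    del S p w x ∈ D.E1 (p - 1) w := by
  intro a ha
  cases a with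
  | zero =>
    rw [del_zero]
    by_cases h1 : InCol p 1
    · obtain ⟨h1, h2⟩ := h1
      have hp : p = 1 ∨ p = 0 ∨ p = -1 := by omega
      rcases hp with rfl | rfl | rfl
      · exact absurd ⟨by simp, by simp⟩ ha
      · exact absurd h2 (by decide)
      · norm_num
    · rw [hx 1 h1, map_zero, smul_zero]
  | succ b =>
    rw [del_succ]
    have h1 : x b = 0 := by
      apply hx
      rintro ⟨h1, h2⟩
      apply ha
      refine ⟨by omega, ?_⟩
      obtain ⟨c, hc⟩ := h2
      exact ⟨c + 1, by push_cast; omega⟩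
    rw [h1, map_zero, smul_zero, zero_add]
    by_cases h2 : InCol p (b + 2)
    · obtain ⟨h2, c, hc⟩ := h2
      have hp : p = -(b + 2 : ℤ) := by
        by_contra hne
        apply ha
        refine ⟨by omega, c, ?_⟩
        push_cast at hc ⊢
        omega
      have : ((b : E) + p + 2) / 2 = 0 := by
        rw [hp]
        push_cast
        ring
      rw [this, zero_smul]
    · rw [hx _ h2, map_zero, smul_zero]

/-- **The Laplacian does not depend on the column.** -/
theorem lap_eq (S : Stars D) (hc : D.IsComplex) {p : ℤ} {w : ℕ} (x : D.Ch (w + 1))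
    (hx : x ∈ D.E1 p (w + 1)) (b : ℕ) (hb : InCol p (b + 1)) :
    (D.d (p - 1) w (del S p w x) + del S (p + 1) (w + 1) (D.d p (w + 1) x)) (b + 1) =
      lap S b w (x (b + 1)) := by
  have e0 : p - 1 + 1 = p := by ring
  rw [Pi.add_apply, diff_pos _ (by rwa [e0]), del_succ]
  have hb2 : InCol (p + 1) (b + 2) := by
    obtain ⟨h1, c, hc⟩ := hb
    refine ⟨by omega, c, ?_⟩
    push_cast at hc ⊢
    omega
  rw [diff_pos x hb2]
  have hm := mixed S hc b w (x (b + 1))
  have hL : lap S b w (x (b + 1)) = - D.gys (b + 1) w (rr S (b + 1) w (x (b + 1))) +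
      ((b : E) + 1) • D.res b w (gg S b w (x (b + 1))) +
      ((b : E) + 2) • gg S (b + 1) (w + 1) (D.res (b + 1) (w + 1) (x (b + 1))) := rfl
  rw [hL]
  have t2 : tot x (b + 2) = D.res (b + 1) (w + 1) (x (b + 1)) +
      D.gys (b + 2) (w + 1) (x (b + 3)) := rfl
  rw [t2, map_add]
  have h3 := gg_gys S hc (b + 1) w (x (b + 3))
  cases b with
  | zero =>
    have t1 : tot (del S p w x) (0 + 1) = D.res 0 w (del S p w x 0) +
      D.gys 1 w (del S p w x (1 + 1)) := rfl
    rw [t1, del_zero, del_succ, map_add, map_smul, map_smul, map_smul]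
    have hp : p = 1 ∨ p = -1 := by
      obtain ⟨h1, c, hc⟩ := hb
      push_cast at hc
      omega
    have hd0 : ((((0 : ℕ) : E) - ((p + 1 : ℤ) : E) + 2) / 2) • rr S 0 (w + 1) (D.d p (w + 1) x 0) =
        ((((0 : ℕ) : E) - ((p + 1 : ℤ) : E) + 2) / 2) •
          rr S 0 (w + 1) (D.gys 0 (w + 1) (x 1)) := by
      rcases hp with rfl | rfl
      · norm_num
      · have : InCol (-1 + 1) 0 := ⟨by simp, by simp⟩
        rw [diff_pos x this]
        rfl
    rw [neg_smul _ (rr S 0 (w + 1) (D.d p (w + 1) x 0)), hd0]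
    push_cast at hm h3 ⊢
    linear_combination (norm := skip) (-(((1 : E) - p) / 2)) • hm + (((0 : E) + 3 + p) / 2) • h3
    module
  | succ c =>
    have t1 : tot (del S p w x) (c + 1 + 1) = D.res (c + 1) w (del S p w x (c + 1)) +
      D.gys (c + 2) w (del S p w x (c + 2 + 1)) := rfl
    rw [t1, del_succ, del_succ, map_add, map_add, map_smul, map_smul, map_smul, map_smul]
    have h1 := rr_res S hc c w (x c)
    have hd0 : ((((c + 1 : ℕ) : E) - ((p + 1 : ℤ) : E) + 2) / 2) •
          rr S (c + 1) (w + 1) (D.d p (w + 1) x (c + 1)) =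
        ((((c + 1 : ℕ) : E) - ((p + 1 : ℤ) : E) + 2) / 2) • (rr S (c + 1) (w + 1)
          (D.res c (w + 1) (x c)) + rr S (c + 1) (w + 1) (D.gys (c + 1) (w + 1) (x (c + 2)))) := by
      by_cases h : InCol (p + 1) (c + 1)
      · rw [diff_pos x h, ← map_add]
        rfl
      · have hp : p = c + 2 := by
          by_contra hne
          apply h
          obtain ⟨h4, e, he⟩ := hb
          push_cast at he
          refine ⟨by omega, e - 1, ?_⟩
          push_cast
          omega
        have : ((((c + 1 : ℕ) : E) - ((p + 1 : ℤ) : E) + 2) / 2) = 0 := by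
          rw [hp]
          push_cast
          ring
        rw [this, zero_smul, zero_smul]
    rw [neg_smul _ (rr S (c + 1) (w + 1) (D.d p (w + 1) x (c + 1))), hd0]
    push_cast at hm h3 ⊢
    linear_combination (norm := skip) (-((((c : E) + 1) + 1 - p) / 2)) • hm +
      ((((c : E) + 1) + 3 + p) / 2) • h3 - ((((c : E) + 1) + 1 - p) / 2) • h1
    module

/-- the Laplacian on `V 0 (w + 1)` -/
noncomputable def lap0 (S : Stars D) (w : ℕ) : D.V 0 (w + 1) →ₗ[E] D.V 0 (w + 1) :=
  - (D.gys 0 w).comp (rr S 0 w) + (gg S 0 (w + 1)).comp (D.res 0 (w + 1))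

/-- the Laplacian on `V a (w + 1)` -/
noncomputable def lapA (S : Stars D) (w : ℕ) : ∀ a, D.V a (w + 1) →ₗ[E] D.V a (w + 1)
  | 0 => lap0 S w
  | b + 1 => lap S b w

lemma lap0_eq (S : Stars D) (hc : D.IsComplex) {w : ℕ} (x : D.Ch (w + 1)) :
    (D.d (0 - 1) w (del S 0 w x) + del S (0 + 1) (w + 1) (D.d 0 (w + 1) x)) 0 =
      lap0 S w (x 0) := by
  have hb0 : InCol (0 - 1 + 1) 0 := ⟨by simp, by simp⟩
  have hb1 : InCol (0 + 1) 1 := ⟨by simp, by simp⟩
  rw [Pi.add_apply, diff_pos _ hb0, del_zero, diff_pos x hb1]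
  have t1 : tot (del S 0 w x) 0 = D.gys 0 w (del S 0 w x (0 + 1)) := rfl
  have t2 : tot x 1 = D.res 0 (w + 1) (x 0) + D.gys 1 (w + 1) (x 2) := rfl
  have hL : lap0 S w (x 0) = - D.gys 0 w (rr S 0 w (x 0)) +
    gg S 0 (w + 1) (D.res 0 (w + 1) (x 0)) := rfl
  rw [t1, t2, del_succ, map_add, map_smul, map_smul, map_add, hL]
  have h3 := gg_gys S hc 0 w (x 2)
  have e1 : (((0 : ℤ) + 1 : ℤ) : E) = 1 := by norm_num
  rw [e1]
  push_cast
  linear_combination (norm := skip) (1 : E) • h3
  module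

/-- `d d = 0` -/
theorem dd_zero (hc : D.IsComplex) {p : ℤ} {w : ℕ} (x : D.Ch w) (hx : x ∈ D.E1 p w) :
    D.d (p + 1) (w + 1) (D.d p w x) = 0 := by
  have h0 : ∀ a w (x : D.V a w), D.res (a + 1) (w + 1) (D.res a w x) = 0 := hc.res_res
  have h1 : ∀ a w (x : D.V (a + 2) w), D.gys a (w + 1) (D.gys (a + 1) w x) = 0 := hc.gys_gys
  have h2 : ∀ a w (x : D.V (a + 1) w),
      D.gys (a + 1) (w + 1) (D.res (a + 1) w x) + D.res a (w + 1) (D.gys a w x) = 0 := hc.gys_res
  funext b
  by_cases hb : InCol (p + 1 + 1) b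
  · rw [diff_pos _ hb]
    have hb1 : InCol (p + 1) (b + 1) := by
      obtain ⟨h3, c, h4⟩ := hb
      refine ⟨by omega, c + 1, ?_⟩
      push_cast
      omega
    cases b with
    | zero =>
      have t1 : tot (D.d p w x) 0 = D.gys 0 (w + 1) (D.d p w x 1) := rfl
      rw [t1, diff_pos x hb1]
      have t2 : tot x 1 = D.res 0 w (x 0) + D.gys 1 w (x 2) := rfl
      have hx0 : x 0 = 0 := by
        apply hx
        rintro ⟨h3, -⟩
        have := hb.1
        omega
      have t2' : tot x 1 = D.gys 1 w (x 2) := by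
        rw [t2, hx0, map_zero]
        exact zero_add _
      rw [t2']
      exact h1 0 w (x 2)
    | succ c =>
      have t1 : tot (D.d p w x) (c + 1) = D.res c (w + 1) (D.d p w x c) +
        D.gys (c + 1) (w + 1) (D.d p w x (c + 2)) := rfl
      have t2 : tot x (c + 2) = D.res (c + 1) w (x (c + 1)) + D.gys (c + 2) w (x (c + 3)) := rfl
      rw [t1, diff_pos x hb1, t2, map_add, h1, add_zero]
      by_cases hcc : InCol (p + 1) c
      · rw [diff_pos x hcc]
        cases c with
        | zero =>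
          have t3 : tot x 0 = D.gys 0 w (x 1) := rfl
          rw [t3]
          exact (add_comm _ _).trans (h2 0 w (x 1))
        | succ e =>
          have t3 : tot x (e + 1) = D.res e w (x e) + D.gys (e + 1) w (x (e + 2)) := rfl
          rw [t3, map_add, h0]
          have h6 := h2 (e + 1) w (x (e + 2))
          have h7 : D.res (e + 1) (w + 1) (D.gys (e + 1) w (x (e + 2))) +
              D.gys (e + 2) (w + 1) (D.res (e + 2) w (x (e + 2))) = 0 :=
            (add_comm _ _).trans h6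
          exact (congrArg₂ (· + ·) (zero_add _) rfl).trans h7
      · have hxc : x (c + 1) = 0 := by
          apply hx
          rintro ⟨h3, -⟩
          apply hcc
          obtain ⟨h4, e, h5⟩ := hb
          push_cast at h5
          refine ⟨by omega, e, ?_⟩
          omega
        rw [diff_neg x hcc, map_zero, zero_add, hxc, map_zero, map_zero]
        rfl
  · rw [diff_neg _ hb]
    rfl

end Pool.Agent.W552.Wl
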