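import Mathlib
import Pool.Agent.W552.WlLap

/-!
# The positive form and the adjoint of the differential
-/

set_option autoImplicit false

namespace Pool.Agent.W552.Wl

open Module Pool.Agent.W522.M

variable {E : Type} [Field E] {D : Strata E}

/-- the adjoints of restriction and Gysin maps for the forms `⟨x, * y⟩` -/
structure Adj (S : Stars D) (n : ℕ) : Prop where
  a1 : ∀ a w v (x : D.V a w) (y : D.V (a + 1) (w + 1)), w + 1 + v = 2 * n →
    D.pair (a + 1) (w + 1) v (D.res a w x) (S.star (a + 1) (w + 1) v y) =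
      D.pair a w (v + 1) x (S.star a w (v + 1) (gg S a w y))
  a2 : ∀ a w v (x : D.V (a + 1) w) (y : D.V a (w + 1)), w + 1 + v = 2 * n →
    D.pair a (w + 1) v (D.gys a w x) (S.star a (w + 1) v y) =
      - D.pair (a + 1) w (v + 1) x (S.star (a + 1) w (v + 1) (rr S a w y))
  a3 : ∀ a w v (x : D.V (a + 1) (w + 1)) (y : D.V a w), w + 1 + v = 2 * n →
    D.pair a w (v + 1) (gg S a w x) (S.star a w (v + 1) y) =
      D.pair (a + 1) (w + 1) v x (S.star (a + 1) (w + 1) v (D.res a w y))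
  a4 : ∀ a w v (x : D.V a (w + 1)) (y : D.V (a + 1) w), w + 1 + v = 2 * n →
    D.pair (a + 1) w (v + 1) (rr S a w x) (S.star (a + 1) w (v + 1) y) =
      - D.pair a (w + 1) v x (S.star a (w + 1) v (D.gys a w y))

/-! ### The weights -/

/-- the weight `((a+p)/2)! / ((a-p)/2)!` -/
def kap (p : ℤ) (a : ℕ) : ℚ :=
  ((((a : ℤ) + p) / 2).toNat.factorial : ℚ) / ((((a : ℤ) - p) / 2).toNat.factorial : ℚ)

lemma kap_eq (u v : ℕ) : kap ((u : ℤ) - v) (u + v) = (u.factorial : ℚ) / v.factorial := by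
  unfold kap
  have e1 : (((u + v : ℕ) : ℤ) + ((u : ℤ) - v)) / 2 = u := by push_cast; omega
  have e2 : (((u + v : ℕ) : ℤ) - ((u : ℤ) - v)) / 2 = v := by push_cast; omega
  rw [e1, e2, Int.toNat_natCast, Int.toNat_natCast]

lemma kap_pos (p : ℤ) (a : ℕ) : 0 < kap p a := by
  unfold kap
  positivity

lemma inCol_iff {p : ℤ} {a : ℕ} : InCol p a ↔ ∃ u v : ℕ, a = u + v ∧ p = (u : ℤ) - v := by
  constructor
  · rintro ⟨h1, c, hc⟩
    refine ⟨a - c.toNat, c.toNat, ?_, ?_⟩ <;> omega
  · rintro ⟨u, v, rfl, rfl⟩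
    refine ⟨by omega, v, by push_cast; ring⟩

lemma kap_up {p : ℤ} {a : ℕ} (h : InCol (p - 1) a) :
    kap p (a + 1) = kap (p - 1) a * (((a : ℚ) + p + 1) / 2) := by
  obtain ⟨u, v, rfl, hp⟩ := inCol_iff.1 h
  obtain rfl : p = ((u + 1 : ℕ) : ℤ) - v := by push_cast; omega
  have e1 : u + v + 1 = (u + 1) + v := by ring
  have e2 : (((u + 1 : ℕ) : ℤ) - v - 1) = (u : ℤ) - v := by push_cast; ring
  rw [e1, e2, kap_eq, kap_eq, Nat.factorial_succ]
  push_cast
  ring

lemma kap_down {p : ℤ} {a : ℕ} (h : InCol p a) :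
    kap p a = kap (p - 1) (a + 1) * (((a : ℚ) - p + 2) / 2) := by
  obtain ⟨u, v, rfl, rfl⟩ := inCol_iff.1 h
  have e1 : u + v + 1 = u + (v + 1) := by ring
  have e2 : ((u : ℤ) - v - 1) = (u : ℤ) - ((v + 1 : ℕ) : ℤ) := by push_cast; ring
  rw [e1, e2, kap_eq, kap_eq, Nat.factorial_succ]
  have h1 : (v.factorial : ℚ) ≠ 0 := by positivity
  have h2 : ((v : ℚ) + 1) ≠ 0 := by positivity
  push_cast
  field_simp
  ring

/-! ### The form on families -/

section form

variable [CharZero E]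

/-- the form on families -/
noncomputable def hh (S : Stars D) (n : ℕ) (p : ℤ) (w v : ℕ) : D.Ch w →ₗ[E] D.Ch w →ₗ[E] E :=
  ∑ a ∈ Finset.range (n + 1), (kap p a : E) •
    (D.pair a w v).compl₁₂ (LinearMap.proj a) ((S.star a w v).comp (LinearMap.proj a))

lemma hh_apply (S : Stars D) (n : ℕ) (p : ℤ) {w v : ℕ} (x y : D.Ch w) :
    hh S n p w v x y = ∑ a ∈ Finset.range (n + 1),
      (kap p a : E) * D.pair a w v (x a) (S.star a w v (y a)) := by
  unfold hh
  rw [LinearMap.sum_apply, LinearMap.sum_apply]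
  rfl

lemma sum_tot {n : ℕ} (hb : D.IsBounded n) {w v : ℕ} (x : D.Ch w) (z : D.Ch v) :
    ∑ a ∈ Finset.range (n + 1), D.pair a (w + 1) v (tot x a) (z a) =
      ∑ a ∈ Finset.range n, D.pair a (w + 1) v (D.gys a w (x (a + 1))) (z a) +
        ∑ a ∈ Finset.range n, D.pair (a + 1) (w + 1) v (D.res a w (x a)) (z (a + 1)) := by
  rw [Finset.sum_range_succ']
  have h0 : D.pair 0 (w + 1) v (tot x 0) (z 0) = D.pair 0 (w + 1) v (D.gys 0 w (x 1)) (z 0) := rfl
  have h1 : ∀ a, D.pair (a + 1) (w + 1) v (tot x (a + 1)) (z (a + 1)) =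
      D.pair (a + 1) (w + 1) v (D.res a w (x a)) (z (a + 1)) +
      D.pair (a + 1) (w + 1) v (D.gys (a + 1) w (x (a + 2))) (z (a + 1)) := by
    intro a
    change D.pair _ _ _ (D.res a w (x a) + D.gys (a + 1) w (x (a + 2))) (z (a + 1)) = _
    rw [map_add, LinearMap.add_apply]
  rw [Finset.sum_congr rfl (fun a _ => h1 a), Finset.sum_add_distrib, h0]
  have h2 : ∑ a ∈ Finset.range n, D.pair (a + 1) (w + 1) v (D.gys (a + 1) w (x (a + 2)))
      (z (a + 1)) + D.pair 0 (w + 1) v (D.gys 0 w (x 1)) (z 0) =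
      ∑ a ∈ Finset.range (n + 1), D.pair a (w + 1) v (D.gys a w (x (a + 1))) (z a) :=
    (Finset.sum_range_succ' (fun a => D.pair a (w + 1) v (D.gys a w (x (a + 1))) (z a)) n).symm
  have h3 : D.pair n (w + 1) v (D.gys n w (x (n + 1))) (z n) = 0 := by
    have : x (n + 1) = 0 := hb.empty _ _ _ (Nat.lt_succ_self n)
    rw [this, map_zero, map_zero, LinearMap.zero_apply]
  rw [Finset.sum_range_succ, h3, add_zero] at h2
  rw [add_assoc, h2, add_comm]

lemma sum_tot' {n : ℕ} (hb : D.IsBounded n) {w v : ℕ} (z : D.Ch v) (x : D.Ch w)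
    (f : ∀ a, D.V a v →ₗ[E] D.V a (w + 1) →ₗ[E] E) :
    ∑ a ∈ Finset.range (n + 1), f a (z a) (tot x a) =
      ∑ a ∈ Finset.range n, f a (z a) (D.gys a w (x (a + 1))) +
        ∑ a ∈ Finset.range n, f (a + 1) (z (a + 1)) (D.res a w (x a)) := by
  rw [Finset.sum_range_succ']
  have h0 : f 0 (z 0) (tot x 0) = f 0 (z 0) (D.gys 0 w (x 1)) := rfl
  have h1 : ∀ a, f (a + 1) (z (a + 1)) (tot x (a + 1)) =
      f (a + 1) (z (a + 1)) (D.res a w (x a)) +
      f (a + 1) (z (a + 1)) (D.gys (a + 1) w (x (a + 2))) := by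
    intro a
    change f (a + 1) (z (a + 1)) (D.res a w (x a) + D.gys (a + 1) w (x (a + 2))) = _
    rw [map_add]
  rw [Finset.sum_congr rfl (fun a _ => h1 a), Finset.sum_add_distrib, h0]
  have h2 : ∑ a ∈ Finset.range n, f (a + 1) (z (a + 1)) (D.gys (a + 1) w (x (a + 2))) +
      f 0 (z 0) (D.gys 0 w (x 1)) =
      ∑ a ∈ Finset.range (n + 1), f a (z a) (D.gys a w (x (a + 1))) :=
    (Finset.sum_range_succ' (fun a => f a (z a) (D.gys a w (x (a + 1)))) n).symm
  have h3 : f n (z n) (D.gys n w (x (n + 1))) = 0 := by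
    have : x (n + 1) = 0 := hb.empty _ _ _ (Nat.lt_succ_self n)
    rw [this, map_zero, map_zero]
  rw [Finset.sum_range_succ, h3, add_zero] at h2
  rw [add_assoc, h2, add_comm]

/-- sums with `δ` -/
lemma sum_del (S : Stars D) {n : ℕ} (hb : D.IsBounded n) {p : ℤ} {w : ℕ} (y : D.Ch (w + 1))
    (f : ∀ a, D.V a w →ₗ[E] E) :
    ∑ a ∈ Finset.range (n + 1), f a (del S p w y a) =
      ∑ a ∈ Finset.range n, (((a : E) + p + 1) / 2) * f a (gg S a w (y (a + 1))) +
        ∑ a ∈ Finset.range n, (-(((a : E) - p + 2) / 2)) * f (a + 1) (rr S a w (y a)) := by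
  rw [Finset.sum_range_succ']
  have h0 : f 0 (del S p w y 0) = (((0 : ℕ) : E) + p + 1) / 2 * f 0 (gg S 0 w (y 1)) := by
    rw [del_zero, map_smul, smul_eq_mul]
    push_cast
    ring
  have h1 : ∀ a, f (a + 1) (del S p w y (a + 1)) =
      (-(((a : E) - p + 2) / 2)) * f (a + 1) (rr S a w (y a)) +
      ((((a + 1 : ℕ) : E) + p + 1) / 2) * f (a + 1) (gg S (a + 1) w (y (a + 2))) := by
    intro a
    rw [del_succ, map_add, map_smul, map_smul, smul_eq_mul, smul_eq_mul]
    push_cast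
    ring
  rw [Finset.sum_congr rfl (fun a _ => h1 a), Finset.sum_add_distrib, h0]
  have h2 : ∑ a ∈ Finset.range n, ((((a + 1 : ℕ) : E) + p + 1) / 2) *
      f (a + 1) (gg S (a + 1) w (y (a + 2))) +
      (((0 : ℕ) : E) + p + 1) / 2 * f 0 (gg S 0 w (y 1)) =
      ∑ a ∈ Finset.range (n + 1), (((a : E) + p + 1) / 2) * f a (gg S a w (y (a + 1))) :=
    (Finset.sum_range_succ' (fun a => (((a : E) + p + 1) / 2) * f a (gg S a w (y (a + 1)))) n).symm
  have h3 : (((n : E) + p + 1) / 2) * f n (gg S n w (y (n + 1))) = 0 := by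
    have : y (n + 1) = 0 := hb.empty _ _ _ (Nat.lt_succ_self n)
    rw [this, map_zero, map_zero, mul_zero]
  rw [Finset.sum_range_succ, h3, add_zero] at h2
  rw [add_assoc, h2, add_comm]

lemma kap_up' {p : ℤ} {a : ℕ} (h : InCol (p - 1) a) :
    (kap p (a + 1) : E) = kap (p - 1) a * (((a : E) + p + 1) / 2) := by
  rw [kap_up h]; push_cast; ring

lemma kap_down' {p : ℤ} {a : ℕ} (h : InCol p a) :
    (kap p a : E) = kap (p - 1) (a + 1) * (((a : E) - p + 2) / 2) := by
  rw [kap_down h]; push_cast; ring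

/-- `δ` is the right adjoint of `d`. -/
theorem adjA {S : Stars D} {n : ℕ} (hA : Adj S n) (hb : D.IsBounded n) {p : ℤ} {w v : ℕ}
    (hwv : w + 1 + v = 2 * n) (x : D.Ch w) (hx : x ∈ D.E1 (p - 1) w) (y : D.Ch (w + 1))
    (hy : y ∈ D.E1 p (w + 1)) :
    hh S n p (w + 1) v (D.d (p - 1) w x) y = hh S n (p - 1) w (v + 1) x (del S p w y) := by
  rw [hh_apply, hh_apply]
  have e1 : ∀ a ∈ Finset.range (n + 1), (kap p a : E) *
      D.pair a (w + 1) v (D.d (p - 1) w x a) (S.star a (w + 1) v (y a)) =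
      D.pair a (w + 1) v (tot x a) ((kap p a : E) • S.star a (w + 1) v (y a)) := by
    intro a _
    rw [map_smul, smul_eq_mul]
    by_cases ha : InCol p a
    · have ha' : InCol (p - 1 + 1) a := by rwa [sub_add_cancel]
      rw [diff_pos x ha']
    · rw [hy a ha, map_zero, map_zero, map_zero]
  rw [Finset.sum_congr rfl e1,
    sum_tot hb x (fun a => (kap p a : E) • S.star a (w + 1) v (y a))]
  have e2 := sum_del S hb (p := p) y (fun a => (kap (p - 1) a : E) •
    (D.pair a w (v + 1) (x a)).comp (S.star a w (v + 1)))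
  have e3 : ∀ a, ((kap (p - 1) a : E) • (D.pair a w (v + 1) (x a)).comp (S.star a w (v + 1)))
      (del S p w y a) = (kap (p - 1) a : E) * D.pair a w (v + 1) (x a)
        (S.star a w (v + 1) (del S p w y a)) := fun a => rfl
  rw [Finset.sum_congr rfl (fun a _ => e3 a)] at e2
  rw [e2, add_comm]
  congr 1
  · apply Finset.sum_congr rfl
    intro a _
    have e4 : ((kap (p - 1) a : E) • (D.pair a w (v + 1) (x a)).comp (S.star a w (v + 1)))
        (gg S a w (y (a + 1))) = (kap (p - 1) a : E) *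
          D.pair a w (v + 1) (x a) (S.star a w (v + 1) (gg S a w (y (a + 1)))) := rfl
    rw [map_smul, smul_eq_mul, hA.a1 a w v _ _ hwv, e4]
    by_cases ha : InCol (p - 1) a
    · rw [kap_up' ha]
      ring
    · rw [hx a ha, map_zero, LinearMap.zero_apply]
      ring
  · apply Finset.sum_congr rfl
    intro a _
    have e4 : ((kap (p - 1) (a + 1) : E) • (D.pair (a + 1) w (v + 1) (x (a + 1))).comp
        (S.star (a + 1) w (v + 1))) (rr S a w (y a)) = (kap (p - 1) (a + 1) : E) *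
          D.pair (a + 1) w (v + 1) (x (a + 1)) (S.star (a + 1) w (v + 1) (rr S a w (y a))) := rfl
    rw [map_smul, smul_eq_mul, hA.a2 a w v _ _ hwv, e4]
    by_cases ha : InCol p a
    · rw [kap_down' ha]
      ring
    · rw [hy a ha, map_zero, map_zero, map_zero]
      ring

/-- `δ` is the left adjoint of `d`. -/
theorem adjB {S : Stars D} {n : ℕ} (hA : Adj S n) (hb : D.IsBounded n) {p : ℤ} {w v : ℕ}
    (hwv : w + 1 + v = 2 * n) (x : D.Ch w) (hx : x ∈ D.E1 (p - 1) w) (y : D.Ch (w + 1))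
    (hy : y ∈ D.E1 p (w + 1)) :
    hh S n (p - 1) w (v + 1) (del S p w y) x = hh S n p (w + 1) v y (D.d (p - 1) w x) := by
  rw [hh_apply, hh_apply]
  have e1 : ∀ a ∈ Finset.range (n + 1), (kap p a : E) *
      D.pair a (w + 1) v (y a) (S.star a (w + 1) v (D.d (p - 1) w x a)) =
      ((kap p a : E) • (D.pair a (w + 1) v).compl₂ (S.star a (w + 1) v)) (y a) (tot x a) := by
    intro a _
    change _ = (kap p a : E) * D.pair a (w + 1) v (y a) (S.star a (w + 1) v (tot x a))
    by_cases ha : InCol p a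
    · have ha' : InCol (p - 1 + 1) a := by rwa [sub_add_cancel]
      rw [diff_pos x ha']
    · rw [hy a ha, map_zero, LinearMap.zero_apply, LinearMap.zero_apply]
  rw [Finset.sum_congr rfl e1,
    sum_tot' hb y x (fun a => (kap p a : E) • (D.pair a (w + 1) v).compl₂ (S.star a (w + 1) v))]
  have e2 := sum_del S hb (p := p) y (fun a => (kap (p - 1) a : E) •
    (D.pair a w (v + 1)).flip (S.star a w (v + 1) (x a)))
  have e3 : ∀ a, ((kap (p - 1) a : E) • (D.pair a w (v + 1)).flip (S.star a w (v + 1) (x a)))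
      (del S p w y a) = (kap (p - 1) a : E) * D.pair a w (v + 1) (del S p w y a)
        (S.star a w (v + 1) (x a)) := fun a => rfl
  rw [Finset.sum_congr rfl (fun a _ => e3 a)] at e2
  rw [e2, add_comm]
  congr 1
  · apply Finset.sum_congr rfl
    intro a _
    change _ * ((kap (p - 1) (a + 1) : E) * D.pair (a + 1) w (v + 1) (rr S a w (y a))
      (S.star (a + 1) w (v + 1) (x (a + 1)))) = (kap p a : E) * D.pair a (w + 1) v (y a)
        (S.star a (w + 1) v (D.gys a w (x (a + 1))))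
    rw [hA.a4 a w v _ _ hwv]
    by_cases ha : InCol p a
    · rw [kap_down' ha]
      ring
    · rw [hy a ha, map_zero, LinearMap.zero_apply]
      ring
  · apply Finset.sum_congr rfl
    intro a _
    change _ * ((kap (p - 1) a : E) * D.pair a w (v + 1) (gg S a w (y (a + 1)))
      (S.star a w (v + 1) (x a))) = (kap p (a + 1) : E) * D.pair (a + 1) (w + 1) v (y (a + 1))
        (S.star (a + 1) (w + 1) v (D.res a w (x a)))
    rw [hA.a3 a w v _ _ hwv]
    by_cases ha : InCol (p - 1) a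
    · rw [kap_up' ha]
      ring
    · rw [hx a ha, map_zero, map_zero, map_zero]
      ring

/-- the form is nondegenerate -/
theorem hh_nondeg {S : Stars D} {n : ℕ} (hb : D.IsBounded n) (hd : D.IsDuality n) {w v : ℕ}
    (hwv : w + v = 2 * n) (hs : ∀ a (z : D.V a v), ∃ y : D.V a w, S.star a w v y = z)
    {p : ℤ} (x : D.Ch w) (hx : x ∈ D.E1 p w) (h : ∀ y ∈ D.E1 p w, hh S n p w v x y = 0) :
    x = 0 := by
  classical
  funext a
  by_cases ha : InCol p a
  · by_cases han : a ≤ n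
    · apply hd.nondeg a w v hwv (x a)
      intro t
      obtain ⟨s, rfl⟩ := hs a t
      have h1 := h (Pi.single a s) (fun b hb => by
        have : b ≠ a := by rintro rfl; exact hb ha
        rw [Pi.single_eq_of_ne this])
      rw [hh_apply, Finset.sum_eq_single a] at h1
      · rw [Pi.single_eq_same, mul_eq_zero] at h1
        rcases h1 with h1 | h1
        · exact absurd h1 (by exact_mod_cast (kap_pos p a).ne')
        · exact h1
      · intro b _ hb
        rw [Pi.single_eq_of_ne hb, map_zero, map_zero, mul_zero]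
      · intro h2
        exact absurd (Finset.mem_range.2 (by omega)) h2
    · exact hb.empty a w (x a) (by omega)
  · exact hx a ha

end form

end Pool.Agent.W552.Wl
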