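import Mathlib
import Pool.Agent.W522.M.M2

/-!
# Rational positivity and harmonic elements
-/

set_option autoImplicit false

namespace Pool.Agent.W552.Wl

open Module Pool.Agent.W522.M

section

variable {E : Type*} [Field E] [CharZero E]

/-- A rational space with a rational anisotropic form is finite-dimensional. -/
theorem fin_of_rat {W : Type*} [AddCommGroup W] [Module E W] [Module ℚ W] [FiniteDimensional E W]
    (t : W →ₗ[E] W →ₗ[E] E) (C : Submodule ℚ W)
    (hrat : ∀ x ∈ C, ∀ y ∈ C, ∃ r : ℚ, t x y = r) (hpos : ∀ x ∈ C, t x x = 0 → x = 0) :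
    FiniteDimensional ℚ C := by
  obtain ⟨ρ, hρ⟩ := exists_retr E
  have hfg : (Submodule.span E (C : Set W)).FG := IsNoetherian.noetherian _
  obtain ⟨s, hs, hspan⟩ := (Submodule.fg_span_iff_fg_span_finset_subset _).1 hfg
  let f : C →ₗ[ℚ] (s → ℚ) :=
    { toFun := fun x c => ρ (t x c)
      map_add' := fun x y => by
        funext c
        change ρ (t (x + y : W) c) = ρ (t x c) + ρ (t y c)
        rw [map_add, LinearMap.add_apply, map_add]
      map_smul' := fun r x => by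
        funext c
        have h1 : ((r • x : C) : W) = (r : E) • (x : W) := (Rat.cast_smul_eq_qsmul E r (x : W)).symm
        change ρ (t ((r • x : C) : W) c) = r • ρ (t x c)
        rw [h1, map_smul, LinearMap.smul_apply, Rat.cast_smul_eq_qsmul, map_smul] }
  apply FiniteDimensional.of_injective f
  rw [← LinearMap.ker_eq_bot, LinearMap.ker_eq_bot']
  intro x hx
  apply Subtype.ext
  apply hpos _ x.2
  have h1 : (C : Set W) ⊆ (LinearMap.ker (t x) : Set W) := by
    have h2 : Submodule.span E (s : Set W) ≤ LinearMap.ker (t x) := by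
      rw [Submodule.span_le]
      intro c hc
      obtain ⟨r, hr⟩ := hrat x x.2 c (hs hc)
      have h3 : ρ (t x c) = 0 := congrFun hx ⟨c, hc⟩
      rw [hr, hρ] at h3
      change t x c = 0
      rw [hr, h3, Rat.cast_zero]
    intro c hc
    apply h2
    rw [← hspan]
    exact Submodule.subset_span hc
  exact h1 x.2

/-- **Harmonic decomposition of rational elements.** -/
theorem harm {WK WA WB : Type*} [AddCommGroup WK] [Module E WK] [Module ℚ WK]
    [FiniteDimensional E WK] [AddCommGroup WA] [Module E WA] [AddCommGroup WB] [Module E WB]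
    (τK : WK →ₗ[E] WK →ₗ[E] E) (qA : WA → E) (qB : WB → E)
    (CK : Submodule ℚ WK) (CA : Set WA) (CB : Set WB) (e0 : WK →ₗ[E] WA) (d1 : WK →ₗ[E] WB)
    (L : WK →ₗ[E] WK) (h1 : ∀ F ∈ CK, e0 F ∈ CA) (h2 : ∀ F ∈ CK, d1 F ∈ CB)
    (h3 : ∀ F ∈ CK, L F ∈ CK) (hrat : ∀ F ∈ CK, ∀ G ∈ CK, ∃ r : ℚ, τK F G = r)
    (hK : ∀ F ∈ CK, τK F F = 0 → F = 0)
    (hA : ∀ F ∈ CA, ∃ r : ℚ, 0 ≤ r ∧ qA F = r ∧ (r = 0 → F = 0))
    (hB : ∀ F ∈ CB, ∃ r : ℚ, 0 ≤ r ∧ qB F = r ∧ (r = 0 → F = 0))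
    (hadj : ∀ F ∈ CK, τK (L F) F = qA (e0 F) + qB (d1 F)) :
    (∀ F ∈ CK, τK (L F) F = 0 → e0 F = 0 ∧ d1 F = 0) ∧
    ∀ F ∈ CK, ∃ F0 ∈ CK, ∃ G ∈ CK, F = F0 + L G ∧ e0 F0 = 0 ∧ d1 F0 = 0 := by
  have hz : ∀ F ∈ CK, τK (L F) F = 0 → e0 F = 0 ∧ d1 F = 0 := by
    intro F hF h0
    rw [hadj F hF] at h0
    obtain ⟨r, hr, hr1, hr2⟩ := hA _ (h1 F hF)
    obtain ⟨r', hr', hr1', hr2'⟩ := hB _ (h2 F hF)
    rw [hr1, hr1'] at h0
    have h4 : r + r' = 0 := by exact_mod_cast h0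
    exact ⟨hr2 (by linarith), hr2' (by linarith)⟩
  refine ⟨hz, fun F hF => ?_⟩
  have := fin_of_rat τK CK hrat hK
  let U : Submodule ℚ WK :=
    { carrier := {t | ∃ G ∈ CK, L G = t}
      zero_mem' := ⟨0, CK.zero_mem, map_zero L⟩
      add_mem' := by
        rintro _ _ ⟨y, hy, rfl⟩ ⟨y', hy', rfl⟩
        exact ⟨y + y', CK.add_mem hy hy', map_add L _ _⟩
      smul_mem' := by
        rintro r _ ⟨y, hy, rfl⟩
        refine ⟨r • y, CK.smul_mem r hy, ?_⟩
        rw [← Rat.cast_smul_eq_qsmul E r y, map_smul, Rat.cast_smul_eq_qsmul] }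
  obtain ⟨_, ⟨G, hG, rfl⟩, h⟩ := proj_of_pos τK LinearMap.id CK
    (fun x hx y hy => hrat x hx y hy) (fun x hx h0 => hK x hx h0) U
    (by rintro _ ⟨y, hy, rfl⟩; exact h3 y hy) F hF
  have hF0 : F - L G ∈ CK := CK.sub_mem hF (h3 G hG)
  have h5 := hz _ hF0 (h _ ⟨F - L G, hF0, rfl⟩)
  exact ⟨F - L G, hF0, G, hG, by abel, h5.1, h5.2⟩

end

/-! ### The trace form -/

section trace

variable {E T : Type*} [Field E] [AddCommGroup T] [Module E T] [FiniteDimensional E T]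

/-- the isomorphism of `T` with its dual -/
noncomputable def dualEquiv (t : T →ₗ[E] T →ₗ[E] E) (hn : ∀ y, (∀ x, t x y = 0) → y = 0) :
    T ≃ₗ[E] (T →ₗ[E] E) :=
  LinearEquiv.ofInjectiveOfFinrankEq t.flip
    (by
      rw [← LinearMap.ker_eq_bot, LinearMap.ker_eq_bot']
      intro y hy
      exact hn y fun x => congrArg (fun g : T →ₗ[E] E => g x) hy)
    (Subspace.dual_finrank_eq).symm

/-- the operator `r` with `t x (r y) = Φ x y` -/
noncomputable def tauOp (t : T →ₗ[E] T →ₗ[E] E) (hn : ∀ y, (∀ x, t x y = 0) → y = 0)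
    (Φ : T →ₗ[E] T →ₗ[E] E) : T →ₗ[E] T :=
  (dualEquiv t hn).symm.toLinearMap ∘ₗ Φ.flip

lemma tauOp_spec (t : T →ₗ[E] T →ₗ[E] E) (hn : ∀ y, (∀ x, t x y = 0) → y = 0)
    (Φ : T →ₗ[E] T →ₗ[E] E) (x y : T) : t x (tauOp t hn Φ y) = Φ x y := by
  have h1 : dualEquiv t hn (tauOp t hn Φ y) = Φ.flip y := (dualEquiv t hn).apply_symm_apply _
  exact congrArg (fun g : T →ₗ[E] E => g x) h1

/-- the trace of the operator `r` with `t x (r y) = Φ x y` -/
noncomputable def tauOf (t : T →ₗ[E] T →ₗ[E] E) (hn : ∀ y, (∀ x, t x y = 0) → y = 0) :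
    (T →ₗ[E] T →ₗ[E] E) →ₗ[E] E where
  toFun Φ := LinearMap.trace E T (tauOp t hn Φ)
  map_add' Φ Ψ := by
    have h : tauOp t hn (Φ + Ψ) = tauOp t hn Φ + tauOp t hn Ψ := by
      apply LinearMap.ext
      intro y
      exact map_add (dualEquiv t hn).symm (Φ.flip y) (Ψ.flip y)
    rw [h, map_add]
  map_smul' c Φ := by
    have h : tauOp t hn (c • Φ) = c • tauOp t hn Φ := by
      apply LinearMap.ext
      intro y
      exact map_smul (dualEquiv t hn).symm c (Φ.flip y)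
    rw [h, map_smul, RingHom.id_apply]

/-- the form on maps to a space with a form -/
noncomputable def tauMap {K : Type*} [AddCommGroup K] [Module E K] (t : T →ₗ[E] T →ₗ[E] E)
    (hn : ∀ y, (∀ x, t x y = 0) → y = 0) (h : K →ₗ[E] K →ₗ[E] E) :
    (T →ₗ[E] K) →ₗ[E] (T →ₗ[E] K) →ₗ[E] E :=
  LinearMap.mk₂ E (fun F G => tauOf t hn (h.compl₁₂ F G))
    (fun F F' G => by
      rw [← map_add]
      congr 1
      apply LinearMap.ext₂
      intro x y
      change h (F x + F' x) (G y) = h (F x) (G y) + h (F' x) (G y)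
      rw [map_add, LinearMap.add_apply])
    (fun c F G => by
      rw [← map_smul]
      congr 1
      apply LinearMap.ext₂
      intro x y
      change h (c • F x) (G y) = c • h (F x) (G y)
      rw [map_smul, LinearMap.smul_apply])
    (fun F G G' => by
      rw [← map_add]
      congr 1
      apply LinearMap.ext₂
      intro x y
      change h (F x) (G y + G' y) = h (F x) (G y) + h (F x) (G' y)
      rw [map_add])
    (fun c F G => by
      rw [← map_smul]
      congr 1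
      apply LinearMap.ext₂
      intro x y
      change h (F x) (c • G y) = c • h (F x) (G y)
      rw [map_smul])

lemma tauMap_apply {K : Type*} [AddCommGroup K] [Module E K] (t : T →ₗ[E] T →ₗ[E] E)
    (hn : ∀ y, (∀ x, t x y = 0) → y = 0) (h : K →ₗ[E] K →ₗ[E] E) (F G : T →ₗ[E] K) :
    tauMap t hn h F G = tauOf t hn (h.compl₁₂ F G) := rfl

lemma tauOf_congr (t : T →ₗ[E] T →ₗ[E] E) (hn : ∀ y, (∀ x, t x y = 0) → y = 0)
    {Φ Ψ : T →ₗ[E] T →ₗ[E] E} (h : ∀ x y, Φ x y = Ψ x y) : tauOf t hn Φ = tauOf t hn Ψ := by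
  rw [LinearMap.ext₂ h]

end trace

end Pool.Agent.W552.Wl
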