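import Mathlib
import Pool.Agent.W552.WlAdj
import Pool.Agent.W552.WlRat

/-!
# Harmonic families of correspondences
-/

set_option autoImplicit false

namespace Pool.Agent.W552.Wl

open Module Pool.Agent.W522.M

variable {E : Type} [Field E] {D : Strata E}

lemma fin_Ch {n : ℕ} (hb : D.IsBounded n) (w : ℕ) : FiniteDimensional E (D.Ch w) := by
  let f : D.Ch w →ₗ[E] (∀ a : Fin (n + 1), D.V a w) :=
    LinearMap.pi fun a : Fin (n + 1) => LinearMap.proj (a : ℕ)
  apply FiniteDimensional.of_injective f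
  rw [← LinearMap.ker_eq_bot, LinearMap.ker_eq_bot']
  intro x hx
  funext a
  by_cases ha : a ≤ n
  · exact congrArg (fun g : (∀ a : Fin (n + 1), D.V a w) => g ⟨a, by omega⟩) hx
  · exact hb.empty a w _ (by omega)

lemma d_mem (p : ℤ) {w : ℕ} (x : D.Ch w) : D.d p w x ∈ D.E1 (p + 1) (w + 1) := by
  intro a ha
  change diff p x a = 0
  unfold diff
  rw [if_neg ha]

lemma inCol_neg (p : ℤ) (a : ℕ) : InCol (-p) a ↔ InCol p a := by
  unfold InCol
  rw [Int.natAbs_neg]
  have e : (a : ℤ) - -p = ((a : ℤ) - p) + 2 * p := by ring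
  rw [e, Int.even_add]
  simp

/-- the component of a map to families -/
def cmp (X : Src D) {w : ℕ} (a : ℕ) (F : X.T →ₗ[E] D.Ch w) : X.Map a w :=
  (LinearMap.proj a).comp F

/-- families of correspondences in the column `p` -/
def IsFam (X : Src D) (p : ℤ) {w : ℕ} (F : X.T →ₗ[E] D.Ch w) : Prop :=
  (∀ a, X.IsC (cmp X a F)) ∧ ∀ a, ¬ InCol p a → cmp X a F = 0

variable {X : Src D} {S : Stars D}

lemma IsFam.mem {p : ℤ} {w : ℕ} {F : X.T →ₗ[E] D.Ch w} (h : IsFam X p F) (x : X.T) :
    F x ∈ D.E1 p w := fun a ha => LinearMap.congr_fun (h.2 a ha) x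

lemma IsFam.neg {p : ℤ} {w : ℕ} {F : X.T →ₗ[E] D.Ch w} (h : IsFam X p F) : IsFam X (-p) F :=
  ⟨h.1, fun a ha => h.2 a fun h' => ha ((inCol_neg p a).2 h')⟩

lemma rr_mem (hG : X.IsGeometric S) (a w : ℕ) (f : X.Map a (w + 1)) (hf : X.IsC f) :
    X.IsC (a := a + 1) (w := w) ((rr S a w).comp f) := by
  cases w with
  | zero => exact hG.lower _ _ _ (hG.res _ _ f hf)
  | succ w =>
    have h1 : X.IsC (a := a + 1) (w := w + 1) (X.lower S (X.restr f)) :=
      hG.lower _ _ _ (hG.res _ _ f hf)
    have h2 : X.IsC (X.restr (X.lower S f)) := hG.res _ _ _ (hG.lower _ _ f hf)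
    exact (X.C (a + 1) (w + 1)).sub_mem h1 h2

lemma gg_mem (hG : X.IsGeometric S) (a w : ℕ) (f : X.Map (a + 1) (w + 1)) (hf : X.IsC f) :
    X.IsC (a := a) (w := w) ((gg S a w).comp f) := by
  cases w with
  | zero => exact hG.lower _ _ _ (hG.gys _ _ f hf)
  | succ w =>
    have h1 : X.IsC (a := a) (w := w + 1) (X.lower S (X.gysin f)) :=
      hG.lower _ _ _ (hG.gys _ _ f hf)
    have h2 : X.IsC (X.gysin (X.lower S f)) := hG.gys _ _ _ (hG.lower _ _ f hf)
    exact (X.C a (w + 1)).sub_mem h1 h2

lemma IsFam.d (hG : X.IsGeometric S) {p : ℤ} {w : ℕ} {F : X.T →ₗ[E] D.Ch w} (h : IsFam X p F) :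
    IsFam X (p + 1) ((D.d p w).comp F) := by
  have hz : ∀ a, ¬ InCol (p + 1) a → cmp X a ((D.d p w).comp F) = 0 := by
    intro a ha
    apply LinearMap.ext
    intro x
    exact diff_neg (F x) ha
  refine ⟨fun a => ?_, hz⟩
  by_cases ha : InCol (p + 1) a
  · cases a with
    | zero =>
      have : cmp X 0 ((D.d p w).comp F) = X.gysin (cmp X 1 F) := by
        apply LinearMap.ext
        intro x
        exact diff_pos (F x) ha
      rw [this]
      exact hG.gys _ _ _ (h.1 1)
    | succ b =>
      have : cmp X (b + 1) ((D.d p w).comp F) = X.restr (cmp X b F) +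
          X.gysin (cmp X (b + 2) F) := by
        apply LinearMap.ext
        intro x
        exact diff_pos (F x) ha
      rw [this]
      exact (X.C _ _).add_mem (hG.res _ _ _ (h.1 b)) (hG.gys _ _ _ (h.1 (b + 2)))
  · rw [hz a ha]
    exact (X.C _ _).zero_mem

variable [CharZero E]

lemma IsFam.del (hG : X.IsGeometric S) {p : ℤ} {w : ℕ} {F : X.T →ₗ[E] D.Ch (w + 1)}
    (h : IsFam X p F) : IsFam X (p - 1) ((del S p w).comp F) := by
  refine ⟨fun a => ?_, fun a ha => ?_⟩
  · cases a with
    | zero =>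
      have : cmp X 0 ((Wl.del S p w).comp F) = X.rsmul (((p : ℚ) + 1) / 2)
          ((gg S 0 w).comp (cmp X 1 F)) := by
        apply LinearMap.ext
        intro x
        change (((p : E) + 1) / 2) • gg S 0 w (F x 1) =
          ((((p : ℚ) + 1) / 2 : ℚ) : E) • gg S 0 w (F x 1)
        push_cast
        rfl
      rw [this]
      exact hG.smul _ _ _ _ (gg_mem hG 0 w _ (h.1 1))
    | succ b =>
      have : cmp X (b + 1) ((Wl.del S p w).comp F) =
          X.rsmul (-(((b : ℚ) - p + 2) / 2)) ((rr S b w).comp (cmp X b F)) +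
          X.rsmul (((b : ℚ) + p + 2) / 2) ((gg S (b + 1) w).comp (cmp X (b + 2) F)) := by
        apply LinearMap.ext
        intro x
        change (-(((b : E) - p + 2) / 2)) • rr S b w (F x b) +
          (((b : E) + p + 2) / 2) • gg S (b + 1) w (F x (b + 2)) =
          ((-(((b : ℚ) - p + 2) / 2) : ℚ) : E) • rr S b w (F x b) +
          ((((b : ℚ) + p + 2) / 2 : ℚ) : E) • gg S (b + 1) w (F x (b + 2))
        push_cast
        rfl
      rw [this]
      exact (X.C _ _).add_mem (hG.smul _ _ _ _ (rr_mem hG b w _ (h.1 b)))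
        (hG.smul _ _ _ _ (gg_mem hG (b + 1) w _ (h.1 (b + 2))))
  · apply LinearMap.ext
    intro x
    exact del_mem S p (F x) (h.mem x) a ha

/-! ### The trace forms -/

/-- the form on maps from `T` to families -/
noncomputable def tf (X : Src D) (S : Stars D) (hn : ∀ y, (∀ x, X.num x y = 0) → y = 0) (n : ℕ)
    (p : ℤ) (w v : ℕ) :
    (X.T →ₗ[E] D.Ch w) →ₗ[E] (X.T →ₗ[E] D.Ch w) →ₗ[E] E :=
  tauMap X.form hn (hh S n p w v)

/-- the form on the component `a` -/
noncomputable def t1 (X : Src D) (S : Stars D) (hn : ∀ y, (∀ x, X.num x y = 0) → y = 0)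
    (v : ℕ) {a w : ℕ} (f g : X.Map a w) : E :=
  tauOf X.form hn ((D.pair a w v).compl₁₂ f ((S.star a w v).comp g))

lemma tf_apply (hn : ∀ y, (∀ x, X.num x y = 0) → y = 0) (n : ℕ) (p : ℤ) {w v : ℕ}
    (F G : X.T →ₗ[E] D.Ch w) :
    tf X S hn n p w v F G = ∑ a ∈ Finset.range (n + 1),
      (kap p a : E) * t1 X S hn v (cmp X a F) (cmp X a G) := by
  have h1 : tf X S hn n p w v F G = tauOf X.form hn (∑ a ∈ Finset.range (n + 1), (kap p a : E) •
      ((D.pair a w v).compl₁₂ (cmp X a F) ((S.star a w v).comp (cmp X a G)))) := by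
    apply tauOf_congr
    intro x y
    rw [LinearMap.sum_apply, LinearMap.sum_apply]
    exact hh_apply S n p (F x) (G y)
  rw [h1, map_sum]
  apply Finset.sum_congr rfl
  intro a _
  rw [map_smul, smul_eq_mul]
  rfl

lemma t1_rat {n : ℕ} (hn : ∀ y, (∀ x, X.num x y = 0) → y = 0) (hP : X.IsPositive S n)
    {a w v : ℕ} (hwv : w + v = 2 * n) (f g : X.Map a w) (hf : X.IsC f) (hg : X.IsC g) :
    ∃ r : ℚ, t1 X S hn v f g = r :=
  hP.rational a w v f g
    (tauOp X.form hn ((D.pair a w v).compl₁₂ f ((S.star a w v).comp g))) hwv hf hg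
    fun x y => tauOp_spec X.form hn _ x y

lemma t1_pos {n : ℕ} (hn : ∀ y, (∀ x, X.num x y = 0) → y = 0) (hP : X.IsPositive S n)
    {a w v : ℕ} (hwv : w + v = 2 * n) (f : X.Map a w) (hf : X.IsC f) :
    ∃ r : ℚ, 0 ≤ r ∧ t1 X S hn v f f = r ∧ (r = 0 → f = 0) := by
  by_cases h0 : f = 0
  · subst h0
    refine ⟨0, le_rfl, ?_, fun _ => rfl⟩
    have : (D.pair a w v).compl₁₂ (0 : X.Map a w) ((S.star a w v).comp (0 : X.Map a w)) = 0 := by
      apply LinearMap.ext₂
      intro x y
      change D.pair a w v 0 _ = 0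
      rw [map_zero, LinearMap.zero_apply]
    unfold t1
    rw [this, map_zero, Rat.cast_zero]
  · obtain ⟨r, hr, h⟩ := hP.positive a w v f
      (tauOp X.form hn ((D.pair a w v).compl₁₂ f ((S.star a w v).comp f))) hwv hf h0
      fun x y => tauOp_spec X.form hn _ x y
    exact ⟨r, hr.le, h, fun h' => absurd h' hr.ne'⟩

lemma tf_rat {n : ℕ} (hn : ∀ y, (∀ x, X.num x y = 0) → y = 0) (hP : X.IsPositive S n) {p : ℤ}
    {w v : ℕ} (hwv : w + v = 2 * n) {F G : X.T →ₗ[E] D.Ch w} (hF : IsFam X p F)
    (hG : IsFam X p G) (p' : ℤ) : ∃ r : ℚ, tf X S hn n p' w v F G = r := by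
  choose r hr using fun a => t1_rat hn hP hwv _ _ (hF.1 a) (hG.1 a)
  refine ⟨∑ a ∈ Finset.range (n + 1), kap p' a * r a, ?_⟩
  rw [tf_apply]
  push_cast
  exact Finset.sum_congr rfl fun a _ => by rw [hr]

lemma tf_pos {n : ℕ} (hb : D.IsBounded n) (hn : ∀ y, (∀ x, X.num x y = 0) → y = 0)
    (hP : X.IsPositive S n) {p : ℤ} {w v : ℕ} (hwv : w + v = 2 * n) {F : X.T →ₗ[E] D.Ch w}
    (hF : IsFam X p F) (p' : ℤ) :
    ∃ r : ℚ, 0 ≤ r ∧ tf X S hn n p' w v F F = r ∧ (r = 0 → F = 0) := by
  choose r hr hr1 hr2 using fun a => t1_pos hn hP hwv _ (hF.1 a)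
  refine ⟨∑ a ∈ Finset.range (n + 1), kap p' a * r a, ?_, ?_, ?_⟩
  · exact Finset.sum_nonneg fun a _ => mul_nonneg (kap_pos p' a).le (hr a)
  · rw [tf_apply]
    push_cast
    exact Finset.sum_congr rfl fun a _ => by rw [hr1]
  · intro h0
    rw [Finset.sum_eq_zero_iff_of_nonneg
      (fun a _ => mul_nonneg (kap_pos p' a).le (hr a))] at h0
    apply LinearMap.ext
    intro x
    funext a
    by_cases ha : a ≤ n
    · have h1 := h0 a (Finset.mem_range.2 (by omega))
      have h2 : r a = 0 := by
        rcases mul_eq_zero.1 h1 with h | h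
        · exact absurd h (kap_pos p' a).ne'
        · exact h
      exact LinearMap.congr_fun (hr2 a h2) x
    · exact hb.empty a w _ (by omega)

/-- the Laplacian on families -/
noncomputable def Lp (S : Stars D) (p : ℤ) (w : ℕ) : D.Ch (w + 1) →ₗ[E] D.Ch (w + 1) :=
  (D.d (p - 1) w).comp (del S p w) + (del S (p + 1) (w + 1)).comp (D.d p (w + 1))

lemma Lp_mem (S : Stars D) (p : ℤ) (w : ℕ) (x : D.Ch (w + 1)) :
    Lp S p w x ∈ D.E1 p (w + 1) := by
  have h1 := d_mem (p - 1) (del S p w x)
  have h2 := del_mem S (p + 1) (D.d p (w + 1) x) (d_mem p x)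
  rw [sub_add_cancel] at h1
  rw [add_sub_cancel_right] at h2
  exact (D.E1 p (w + 1)).add_mem h1 h2

/-- the composition with a linear map -/
def post {T K K' : Type} [AddCommGroup T] [Module E T] [AddCommGroup K] [Module E K]
    [AddCommGroup K'] [Module E K'] (g : K →ₗ[E] K') : (T →ₗ[E] K) →ₗ[E] (T →ₗ[E] K') where
  toFun F := g.comp F
  map_add' F G := LinearMap.comp_add _ _ _
  map_smul' c F := LinearMap.comp_smul _ _ _

lemma Lp_col (S : Stars D) (hc : D.IsComplex) {q : ℤ} {w : ℕ} (x : D.Ch (w + 1))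
    (hx : x ∈ D.E1 q (w + 1)) (a : ℕ) (ha : InCol q a) : Lp S q w x a = lapA S w a (x a) := by
  cases a with
  | zero =>
    obtain rfl : q = 0 := by
      have := ha.1
      omega
    exact lap0_eq S hc x
  | succ b => exact lap_eq S hc x hx b ha

/-- the family with one component -/
def one (X : Src D) {w : ℕ} (a : ℕ) (f : X.Map a w) : X.T →ₗ[E] D.Ch w :=
  (LinearMap.single E (fun a => D.V a w) a).comp f

lemma one_self {w : ℕ} (a : ℕ) (f : X.Map a w) (t : X.T) : one X a f t a = f t :=
  Pi.single_eq_same _ _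

lemma one_ne {w : ℕ} (a : ℕ) (f : X.Map a w) (t : X.T) {b : ℕ} (hb : b ≠ a) :
    one X a f t b = 0 := Pi.single_eq_of_ne hb _

lemma one_fam {w : ℕ} (a : ℕ) (f : X.Map a w) (hf : X.IsC f) {p : ℤ} (ha : InCol p a) :
    IsFam X p (one X a f) := by
  have h4 : ∀ c, c ≠ a → cmp X c (one X a f) = 0 := by
    intro c hca
    apply LinearMap.ext
    intro t
    exact Pi.single_eq_of_ne hca _
  refine ⟨fun c => ?_, fun c hc' => ?_⟩
  · by_cases hca : c = a
    · subst hca
      have : cmp X c (one X c f) = f := by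
        apply LinearMap.ext
        intro t
        exact Pi.single_eq_same _ _
      rw [this]
      exact hf
    · rw [h4 c hca]
      exact (X.C _ _).zero_mem
  · apply h4
    rintro rfl
    exact hc' ha

/-- harmonic elements of `V a (w + 1)` -/
structure Harm (S : Stars D) (a w : ℕ) (x : D.V a (w + 1)) : Prop where
  res : D.res a (w + 1) x = 0
  rr : rr S a w x = 0

/-- harmonic elements of `V (b + 1) (w + 1)` -/
structure Harm' (S : Stars D) (b w : ℕ) (x : D.V (b + 1) (w + 1)) : Prop where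
  gys : D.gys b (w + 1) x = 0
  gg : gg S b w x = 0

/-- **Decomposition of families of correspondences.** -/
theorem dec {n : ℕ} (hc : D.IsComplex) (hb : D.IsBounded n) (hA : Adj S n)
    (hG : X.IsGeometric S) (hP : X.IsPositive S n) {p : ℤ} {w v : ℕ}
    (hwv : w + 2 + v = 2 * n) (F : X.T →ₗ[E] D.Ch (w + 1)) (hF : IsFam X p F) :
    ∃ F0 G : X.T →ₗ[E] D.Ch (w + 1), IsFam X p F0 ∧ IsFam X p G ∧
      F = F0 + (Lp S p w).comp G ∧ (∀ a t, Harm S a w (F0 t a)) ∧
      ∀ b t, Harm' S b w (F0 t (b + 1)) := by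
  have := fin_Ch hb (w + 1)
  letI : Module ℚ (X.T →ₗ[E] D.Ch (w + 1)) := Module.compHom _ (algebraMap ℚ E)
  have hn := hG.nondeg
  have hadd : ∀ (q : ℤ) {u : ℕ} {F G : X.T →ₗ[E] D.Ch u}, IsFam X q F → IsFam X q G →
      IsFam X q (F + G) := by
    intro q u F G hF hG
    refine ⟨fun a => (X.C _ _).add_mem (hF.1 a) (hG.1 a), fun a ha => ?_⟩
    have h1 := hF.2 a ha
    have h2 := hG.2 a ha
    change cmp X a F + cmp X a G = 0
    rw [h1, h2, add_zero]
  let CK : Submodule ℚ (X.T →ₗ[E] D.Ch (w + 1)) :=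
    { carrier := {F | IsFam X p F}
      zero_mem' := ⟨fun a => (X.C _ _).zero_mem, fun a _ => rfl⟩
      add_mem' := fun {F G} hF hG => hadd p hF hG
      smul_mem' := fun r F hF => ⟨fun a => hG.smul r _ _ _ (hF.1 a), fun a ha => by
        have h1 := hF.2 a ha
        change (r : E) • cmp X a F = 0
        rw [h1, smul_zero]⟩ }
  have key : ∀ q : ℤ, (q = p ∨ q = -p) →
      (∀ F ∈ CK, tf X S hn n q (w + 1) (v + 1) ((Lp S q w).comp F) F = 0 →
        (del S q w).comp F = 0 ∧ (D.d q (w + 1)).comp F = 0) ∧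
      ∀ F ∈ CK, ∃ F0 ∈ CK, ∃ G ∈ CK, F = F0 + (Lp S q w).comp G ∧ (del S q w).comp F0 = 0 ∧
        (D.d q (w + 1)).comp F0 = 0 := by
    intro q hq
    have hCq : ∀ {F : X.T →ₗ[E] D.Ch (w + 1)}, IsFam X p F ↔ IsFam X q F := by
      intro F
      rcases hq with rfl | rfl
      · exact Iff.rfl
      · refine ⟨fun h => h.neg, fun h => ?_⟩
        have := h.neg
        rwa [neg_neg] at this
    refine harm (tf X S hn n q (w + 1) (v + 1)) (fun F => tf X S hn n (q - 1) w (v + 2) F F)
      (fun F => tf X S hn n (q + 1) (w + 2) v F F) CK {F | IsFam X (q - 1) F}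
      {F | IsFam X (q + 1) F} (post (del S q w)) (post (D.d q (w + 1))) (post (Lp S q w))
      ?_ ?_ ?_ ?_ ?_ ?_ ?_ ?_
    · intro F hF
      exact IsFam.del hG (hCq.1 hF)
    · intro F hF
      exact IsFam.d hG (hCq.1 hF)
    · intro F hF
      apply hCq.2
      have h1 := IsFam.d hG (IsFam.del hG (hCq.1 hF))
      have h2 := IsFam.del hG (IsFam.d hG (hCq.1 hF))
      rw [sub_add_cancel] at h1
      rw [add_sub_cancel_right] at h2
      exact hadd q h1 h2
    · intro F hF G hG
      exact tf_rat hn hP (by omega) hF hG q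
    · intro F hF h0
      obtain ⟨r, hr, hr1, hr2⟩ := tf_pos hb hn hP (by omega : w + 1 + (v + 1) = 2 * n) hF q
      apply hr2
      rw [hr1] at h0
      exact_mod_cast h0
    · intro F hF
      exact tf_pos hb hn hP (by omega : w + (v + 2) = 2 * n) hF (q - 1)
    · intro F hF
      exact tf_pos hb hn hP (by omega : w + 2 + v = 2 * n) hF (q + 1)
    · intro F hF
      have hFq := hCq.1 hF
      change tauOf X.form hn _ = tauOf X.form hn _ + tauOf X.form hn _
      rw [← map_add]
      apply tauOf_congr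
      intro x y
      change hh S n q (w + 1) (v + 1) (D.d (q - 1) w (del S q w (F x)) +
          del S (q + 1) (w + 1) (D.d q (w + 1) (F x))) (F y) =
        hh S n (q - 1) w (v + 2) (del S q w (F x)) (del S q w (F y)) +
          hh S n (q + 1) (w + 2) v (D.d q (w + 1) (F x)) (D.d q (w + 1) (F y))
      rw [map_add, LinearMap.add_apply,
        adjA hA hb (by omega : w + 1 + (v + 1) = 2 * n) _ (del_mem S q _ (hFq.mem x)) _
          (hFq.mem y)]
      congr 1
      have h3 := adjB hA hb (p := q + 1) (by omega : w + 1 + 1 + v = 2 * n) (F y)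
        (by rw [add_sub_cancel_right]; exact hFq.mem y) (D.d q (w + 1) (F x)) (d_mem q _)
      rw [add_sub_cancel_right] at h3
      exact h3
  obtain ⟨F0, hF0, G, hG', h1, h2, h3⟩ := (key p (Or.inl rfl)).2 F hF
  have hLz : ∀ x, Lp S p w (F0 x) = 0 := by
    intro x
    change D.d (p - 1) w (del S p w (F0 x)) + del S (p + 1) (w + 1) (D.d p (w + 1) (F0 x)) = 0
    have h4 : del S p w (F0 x) = 0 := LinearMap.congr_fun h2 x
    have h5 : D.d p (w + 1) (F0 x) = 0 := LinearMap.congr_fun h3 x
    rw [h4, h5, map_zero, map_zero, add_zero]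
  have hlap : ∀ a, InCol p a → ∀ x, lapA S w a (F0 x a) = 0 := by
    intro a ha x
    rw [← Lp_col S hc (F0 x) (IsFam.mem hF0 x) a ha, hLz x]
    rfl
  -- the components
  have hone : ∀ a, InCol p a → ∀ q : ℤ, (q = p ∨ q = -p) →
      (del S q w).comp (one X a (cmp X a F0)) = 0 ∧
        (D.d q (w + 1)).comp (one X a (cmp X a F0)) = 0 := by
    intro a ha q hq
    have hcol : ∀ b, InCol q b ↔ InCol p b := by
      intro b
      rcases hq with rfl | rfl
      · exact Iff.rfl
      · exact inCol_neg p b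
    have hfam : IsFam X q (one X a (cmp X a F0)) := one_fam a _ (hF0.1 a) ((hcol a).2 ha)
    have hz : (Lp S q w).comp (one X a (cmp X a F0)) = 0 := by
      apply LinearMap.ext
      intro x
      funext b
      change Lp S q w (one X a (cmp X a F0) x) b = 0
      by_cases hb' : InCol q b
      · rw [Lp_col S hc _ (hfam.mem x) b hb']
        by_cases hba : b = a
        · subst hba
          rw [one_self]
          exact hlap b ha x
        · rw [one_ne a _ x hba, map_zero]
      · exact Lp_mem S q w _ b hb'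
    exact (key q hq).1 _ (one_fam a _ (hF0.1 a) ha) (by rw [hz, map_zero, LinearMap.zero_apply])
  refine ⟨F0, G, hF0, hG', h1, fun a t => ?_, fun b t => ?_⟩
  · by_cases ha : InCol p a
    · have h4 := (hone a ha p (Or.inl rfl))
      have h5 : ∀ b, del S p w (one X a (cmp X a F0) t) b = 0 := fun b =>
        congrFun (LinearMap.congr_fun h4.1 t) b
      have h6 : ∀ b, D.d p (w + 1) (one X a (cmp X a F0) t) b = 0 := fun b =>
        congrFun (LinearMap.congr_fun h4.2 t) b
      have ha1 : InCol (p + 1) (a + 1) := by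
        obtain ⟨h7, c, h8⟩ := ha
        refine ⟨by omega, c, ?_⟩
        push_cast
        omega
      refine ⟨?_, ?_⟩
      · have h7 := h6 (a + 1)
        rw [diff_pos _ ha1] at h7
        have h8 : tot (one X a (cmp X a F0) t) (a + 1) =
          D.res a (w + 1) (one X a (cmp X a F0) t a) +
            D.gys (a + 1) (w + 1) (one X a (cmp X a F0) t (a + 2)) := rfl
        rw [h8, one_self, one_ne a _ t (by omega : a + 2 ≠ a), map_zero, add_zero] at h7
        exact h7
      · have h7 := h5 (a + 1)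
        rw [del_succ, one_self, one_ne a _ t (by omega : a + 2 ≠ a), map_zero, smul_zero,
          add_zero] at h7
        rcases smul_eq_zero.1 h7 with h8 | h8
        · exfalso
          have h9 : ((((a : ℤ) - p + 2 : ℤ)) : E) = 0 := by
            push_cast
            linear_combination (-2 : E) * h8
          have h10 : (a : ℤ) - p + 2 = 0 := by exact_mod_cast h9
          have := ha.1
          omega
        · exact h8
    · have : F0 t a = 0 := (IsFam.mem hF0 t) a ha
      rw [this]
      exact ⟨map_zero _, map_zero _⟩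
  · by_cases ha : InCol p (b + 1)
    · -- choose the sign of the column
      obtain ⟨q, hq, hq1⟩ : ∃ q : ℤ, (q = p ∨ q = -p) ∧ q ≤ 0 := by
        rcases le_total p 0 with h | h
        · exact ⟨p, Or.inl rfl, h⟩
        · exact ⟨-p, Or.inr rfl, by omega⟩
      have h4 := (hone (b + 1) ha q hq)
      have h4' := (hone (b + 1) ha (-q) (by
        rcases hq with rfl | rfl
        · exact Or.inr rfl
        · left; ring))
      have hqc : InCol q (b + 1) := by
        rcases hq with rfl | rfl
        · exact ha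
        · exact (inCol_neg p _).2 ha
      refine ⟨?_, ?_⟩
      · have h6 : D.d q (w + 1) (one X (b + 1) (cmp X (b + 1) F0) t) b = 0 :=
          congrFun (LinearMap.congr_fun h4.2 t) b
        have hb1 : InCol (q + 1) b := by
          obtain ⟨h7, c, h8⟩ := hqc
          push_cast at h8
          refine ⟨by omega, c - 1, ?_⟩
          omega
        rw [diff_pos _ hb1] at h6
        cases b with
        | zero =>
          have h8 : tot (one X 1 (cmp X 1 F0) t) 0 =
            D.gys 0 (w + 1) (one X 1 (cmp X 1 F0) t 1) := rfl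
          rw [h8, one_self] at h6
          exact h6
        | succ c =>
          have h8 : tot (one X (c + 1 + 1) (cmp X (c + 1 + 1) F0) t) (c + 1) =
            D.res c (w + 1) (one X (c + 1 + 1) (cmp X (c + 1 + 1) F0) t c) +
            D.gys (c + 1) (w + 1) (one X (c + 1 + 1) (cmp X (c + 1 + 1) F0) t (c + 2)) := rfl
          rw [h8, one_ne (c + 1 + 1) _ t (by omega : c ≠ c + 1 + 1), map_zero, zero_add] at h6
          rw [one_self] at h6
          exact h6
      · have h6 : del S (-q) w (one X (b + 1) (cmp X (b + 1) F0) t) b = 0 :=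
          congrFun (LinearMap.congr_fun h4'.1 t) b
        have hco : ((((b : ℤ) + -q + 2 : ℤ)) : E) ≠ 0 := by
          intro h9
          have h10 : (b : ℤ) + -q + 2 = 0 := by exact_mod_cast h9
          omega
        cases b with
        | zero =>
          rw [del_zero, one_self] at h6
          rcases smul_eq_zero.1 h6 with h8 | h8
          · exfalso
            have h9 : (((1 : ℤ) + -q : ℤ) : E) = 0 := by
              push_cast at h8 ⊢
              linear_combination (2 : E) * h8
            have h10 : (1 : ℤ) + -q = 0 := by exact_mod_cast h9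
            omega
          · exact h8
        | succ c =>
          rw [del_succ, one_ne (c + 1 + 1) _ t (by omega : c ≠ c + 1 + 1), map_zero, smul_zero,
            zero_add] at h6
          rw [one_self] at h6
          rcases smul_eq_zero.1 h6 with h8 | h8
          · exfalso
            have h9 : (((c : ℤ) + -q + 2 : ℤ) : E) = 0 := by
              push_cast at h8 ⊢
              linear_combination (2 : E) * h8
            have h10 : (c : ℤ) + -q + 2 = 0 := by exact_mod_cast h9
            omega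
          · exact h8
    · have : F0 t (b + 1) = 0 := (IsFam.mem hF0 t) _ ha
      rw [this]
      exact ⟨map_zero _, map_zero _⟩

end Pool.Agent.W552.Wl
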