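import Mathlib
import Pool.Agent.W552.WlCor

/-!
# Weight-monodromy in all degrees from positivity
-/

set_option autoImplicit false

namespace Pool.Agent.W552.Wl

open Module Pool.Agent.W522.M

variable {E : Type} [Field E] [CharZero E] {D : Strata E} {S : Stars D}

/-- harmonic elements of the column `p`: all components are harmonic -/
def Hm (S : Stars D) (p : ℤ) (w : ℕ) : Submodule E (D.Ch (w + 1)) where
  carrier := {x | x ∈ D.E1 p (w + 1) ∧ (∀ a, Harm S a w (x a)) ∧ ∀ b, Harm' S b w (x (b + 1))}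
  zero_mem' := ⟨(D.E1 p (w + 1)).zero_mem, fun _ => ⟨map_zero _, map_zero _⟩,
    fun _ => ⟨map_zero _, map_zero _⟩⟩
  add_mem' := fun {x y} hx hy => ⟨(D.E1 p (w + 1)).add_mem hx.1 hy.1,
    fun a => ⟨by rw [Pi.add_apply, map_add, (hx.2.1 a).res, (hy.2.1 a).res, add_zero],
      by rw [Pi.add_apply, map_add, (hx.2.1 a).rr, (hy.2.1 a).rr, add_zero]⟩,
    fun b => ⟨by rw [Pi.add_apply, map_add, (hx.2.2 b).gys, (hy.2.2 b).gys, add_zero],
      by rw [Pi.add_apply, map_add, (hx.2.2 b).gg, (hy.2.2 b).gg, add_zero]⟩⟩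
  smul_mem' := fun c x hx => ⟨(D.E1 p (w + 1)).smul_mem c hx.1,
    fun a => ⟨by rw [Pi.smul_apply, map_smul, (hx.2.1 a).res, smul_zero],
      by rw [Pi.smul_apply, map_smul, (hx.2.1 a).rr, smul_zero]⟩,
    fun b => ⟨by rw [Pi.smul_apply, map_smul, (hx.2.2 b).gys, smul_zero],
      by rw [Pi.smul_apply, map_smul, (hx.2.2 b).gg, smul_zero]⟩⟩

lemma Hm_d {p : ℤ} {w : ℕ} {x : D.Ch (w + 1)} (hx : x ∈ Hm S p w) (q : ℤ) :
    D.d q (w + 1) x = 0 := by
  funext a
  change diff q x a = 0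
  unfold diff
  split_ifs with h
  · cases a with
    | zero => exact (hx.2.2 0).gys
    | succ b =>
      change D.res b (w + 1) (x b) + D.gys (b + 1) (w + 1) (x (b + 2)) = 0
      rw [(hx.2.1 b).res, (hx.2.2 (b + 1)).gys, add_zero]
  · rfl

lemma Hm_del {p : ℤ} {w : ℕ} {x : D.Ch (w + 1)} (hx : x ∈ Hm S p w) (q : ℤ) :
    del S q w x = 0 := by
  funext a
  cases a with
  | zero =>
    rw [del_zero, (hx.2.2 0).gg, smul_zero]
    rfl
  | succ b =>
    rw [del_succ, (hx.2.1 b).rr, (hx.2.2 (b + 1)).gg, smul_zero, smul_zero, add_zero]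
    rfl

/-- harmonic elements, and the images of `d` and `δ` -/
noncomputable def Kp (S : Stars D) (p : ℤ) (w : ℕ) : Submodule E (D.Ch (w + 1)) :=
  Hm S p w ⊔ (D.E1 (p - 1) w).map (D.d (p - 1) w) ⊔
    (D.E1 (p + 1) (w + 2)).map (del S (p + 1) (w + 1))

theorem le_Kp {J : Type} {n : ℕ} (hc : D.IsComplex) (hb : D.IsBounded n) (hA : Adj S n)
    (X : J → Src D) (hG : ∀ j, (X j).IsGeometric S) (hP : ∀ j, (X j).IsPositive S n)
    (N : Subs D) {w v : ℕ}
    (hN1 : ∀ a (x : D.V a (w + 1)), x ∈ N a (w + 1) → Harm S a w x)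
    (hN2 : ∀ b (x : D.V (b + 1) (w + 1)), x ∈ N (b + 1) (w + 1) → Harm' S b w x)
    {p : ℤ} (hgen : ∀ a, InCol p a → GeneratedAt X N a) (hwv : w + 2 + v = 2 * n) :
    D.E1 p (w + 1) ≤ Kp S p w := by
  classical
  have key : ∀ (j : J) (F : (X j).T →ₗ[E] D.Ch (w + 1)), IsFam (X j) p F → ∀ t,
      F t ∈ Kp S p w := by
    intro j F hF t
    obtain ⟨F0, G, h1, h2, rfl, h3, h4⟩ := dec hc hb hA (hG j) (hP j) hwv F hF
    change F0 t + (D.d (p - 1) w (del S p w (G t)) +
      del S (p + 1) (w + 1) (D.d p (w + 1) (G t))) ∈ _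
    rw [← add_assoc]
    refine Submodule.add_mem_sup (Submodule.add_mem_sup ?_ ?_) ?_
    · exact ⟨h1.mem t, fun a => h3 a t, fun b => h4 b t⟩
    · exact ⟨_, del_mem S p _ (h2.mem t), rfl⟩
    · exact ⟨_, d_mem p _, rfl⟩
  intro x hx
  have hx1 : x = ∑ a ∈ Finset.range (n + 1), Pi.single a (x a) := by
    funext b
    rw [Finset.sum_apply]
    by_cases hb1 : b ≤ n
    · rw [Finset.sum_eq_single b, Pi.single_eq_same]
      · intro a _ hab
        exact Pi.single_eq_of_ne (Ne.symm hab) _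
      · intro h
        exact absurd (Finset.mem_range.2 (by omega)) h
    · have h0 : x b = 0 := hb.empty b _ (x b) (by omega)
      rw [h0]
      symm
      apply Finset.sum_eq_zero
      intro a ha
      apply Pi.single_eq_of_ne
      rintro rfl
      have := Finset.mem_range.1 ha
      omega
  rw [hx1]
  apply Submodule.sum_mem
  intro a _
  by_cases ha : InCol p a
  · have h1 : x a ∈ imageOf X a (w + 1) ⊔ N a (w + 1) := by
      rw [hgen a ha (w + 1)]
      exact Submodule.mem_top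
    have h2 : imageOf X a (w + 1) ⊔ N a (w + 1) ≤
        (Kp S p w).comap (LinearMap.single E (fun a => D.V a (w + 1)) a) := by
      refine sup_le ?_ ?_
      · unfold imageOf
        rw [Submodule.span_le]
        rintro _ ⟨j, f, t, hf, rfl⟩
        exact key j _ (one_fam a f hf ha) t
      · intro y hy
        change Pi.single a y ∈ Kp S p w
        refine Submodule.mem_sup_left (Submodule.mem_sup_left ⟨?_, ?_, ?_⟩)
        · intro c hc'
          apply Pi.single_eq_of_ne
          rintro rfl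
          exact hc' ha
        · intro c
          by_cases hca : c = a
          · subst hca
            rw [Pi.single_eq_same]
            exact hN1 _ _ hy
          · rw [Pi.single_eq_of_ne hca]
            exact ⟨map_zero _, map_zero _⟩
        · intro c
          by_cases hca : c + 1 = a
          · subst hca
            rw [Pi.single_eq_same]
            exact hN2 _ _ hy
          · rw [Pi.single_eq_of_ne hca]
            exact ⟨map_zero _, map_zero _⟩
    exact h2 h1
  · rw [hx a ha, Pi.single_zero]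
    exact Submodule.zero_mem _

section

variable {n : ℕ} {p : ℤ} {w v : ℕ}

lemma exact_harm (hc : D.IsComplex) (hb : D.IsBounded n) (hd : D.IsDuality n) (hA : Adj S n)
    (hs : ∀ a (z : D.V a (v + 1)), ∃ y : D.V a (w + 1), S.star a (w + 1) (v + 1) y = z)
    (hwv : w + 2 + v = 2 * n) (hK : D.E1 p (w + 1) ≤ Kp S p w) (y : D.Ch w)
    (hy : y ∈ D.E1 (p - 1) w) (h0 : del S p w (D.d (p - 1) w y) = 0) :
    D.d (p - 1) w y = 0 := by
  have hv : D.d (p - 1) w y ∈ D.E1 p (w + 1) := by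
    have := d_mem (p - 1) y
    rwa [sub_add_cancel] at this
  have hdd : D.d p (w + 1) (D.d (p - 1) w y) = 0 := by
    have := dd_zero hc y hy
    rwa [sub_add_cancel] at this
  apply hh_nondeg hb hd (by omega : w + 1 + (v + 1) = 2 * n) hs _ hv
  intro k hk
  obtain ⟨k1, hk1, _, ⟨z, hz, rfl⟩, rfl⟩ := Submodule.mem_sup.1 (hK hk)
  obtain ⟨x0, hx0, _, ⟨α, hα, rfl⟩, rfl⟩ := Submodule.mem_sup.1 hk1
  rw [map_add, map_add]
  have e1 : hh S n p (w + 1) (v + 1) (D.d (p - 1) w y) x0 = 0 := by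
    rw [adjA hA hb (by omega : w + 1 + (v + 1) = 2 * n) y hy x0 hx0.1, Hm_del hx0,
      map_zero]
  have e2 : hh S n p (w + 1) (v + 1) (D.d (p - 1) w y) (D.d (p - 1) w α) = 0 := by
    rw [← adjB hA hb (by omega : w + 1 + (v + 1) = 2 * n) α hα _ hv, h0, map_zero,
      LinearMap.zero_apply]
  have e3 : hh S n p (w + 1) (v + 1) (D.d (p - 1) w y) (del S (p + 1) (w + 1) z) = 0 := by
    have := adjA hA hb (p := p + 1) (by omega : w + 1 + 1 + v = 2 * n) (D.d (p - 1) w y)
      (by rw [add_sub_cancel_right]; exact hv) z hz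
    rw [add_sub_cancel_right] at this
    rw [← this, hdd, map_zero, LinearMap.zero_apply]
  rw [e1, e2, e3, add_zero, add_zero]

lemma coexact_closed (hc : D.IsComplex) (hb : D.IsBounded n) (hd : D.IsDuality n) (hA : Adj S n)
    (hs : ∀ a (z : D.V a (v + 1)), ∃ y : D.V a (w + 1), S.star a (w + 1) (v + 1) y = z)
    (hwv : w + 2 + v = 2 * n) (hK : D.E1 p (w + 1) ≤ Kp S p w) (z : D.Ch (w + 2))
    (hz : z ∈ D.E1 (p + 1) (w + 2)) (h0 : D.d p (w + 1) (del S (p + 1) (w + 1) z) = 0) :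
    del S (p + 1) (w + 1) z = 0 := by
  have hv : del S (p + 1) (w + 1) z ∈ D.E1 p (w + 1) := by
    have := del_mem S (p + 1) z hz
    rwa [add_sub_cancel_right] at this
  have hB : ∀ x ∈ D.E1 p (w + 1), hh S n p (w + 1) (v + 1) (del S (p + 1) (w + 1) z) x =
      hh S n (p + 1) (w + 2) v z (D.d p (w + 1) x) := by
    intro x hx
    have := adjB hA hb (p := p + 1) (by omega : w + 1 + 1 + v = 2 * n) x
      (by rw [add_sub_cancel_right]; exact hx) z hz
    rw [add_sub_cancel_right] at this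
    exact this
  apply hh_nondeg hb hd (by omega : w + 1 + (v + 1) = 2 * n) hs _ hv
  intro k hk
  obtain ⟨k1, hk1, _, ⟨z', hz', rfl⟩, rfl⟩ := Submodule.mem_sup.1 (hK hk)
  obtain ⟨x0, hx0, _, ⟨α, hα, rfl⟩, rfl⟩ := Submodule.mem_sup.1 hk1
  rw [map_add, map_add]
  have e1 : hh S n p (w + 1) (v + 1) (del S (p + 1) (w + 1) z) x0 = 0 := by
    rw [hB x0 hx0.1, Hm_d hx0, map_zero]
  have e2 : hh S n p (w + 1) (v + 1) (del S (p + 1) (w + 1) z) (D.d (p - 1) w α) = 0 := by
    have h1 : D.d (p - 1) w α ∈ D.E1 p (w + 1) := by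
      have := d_mem (p - 1) α
      rwa [sub_add_cancel] at this
    have h2 : D.d p (w + 1) (D.d (p - 1) w α) = 0 := by
      have := dd_zero hc α hα
      rwa [sub_add_cancel] at this
    rw [hB _ h1, h2, map_zero]
  have e3 : hh S n p (w + 1) (v + 1) (del S (p + 1) (w + 1) z) (del S (p + 1) (w + 1) z') = 0 := by
    have := adjA hA hb (p := p + 1) (by omega : w + 1 + 1 + v = 2 * n)
      (del S (p + 1) (w + 1) z) (by rw [add_sub_cancel_right]; exact hv) z' hz'
    rw [add_sub_cancel_right] at this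
    rw [← this, h0, map_zero, LinearMap.zero_apply]
  rw [e1, e2, e3, add_zero, add_zero]

/-- cocycles are sums of harmonic elements and coboundaries -/
lemma cocycle (hc : D.IsComplex) (hb : D.IsBounded n) (hd : D.IsDuality n) (hA : Adj S n)
    (hs : ∀ a (z : D.V a (v + 1)), ∃ y : D.V a (w + 1), S.star a (w + 1) (v + 1) y = z)
    (hwv : w + 2 + v = 2 * n) (hK : D.E1 p (w + 1) ≤ Kp S p w) (x : D.Ch (w + 1))
    (hx : x ∈ D.Z p (w + 1)) : ∃ x0 ∈ Hm S p w, x - x0 ∈ D.B p (w + 1) := by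
  obtain ⟨k1, hk1, _, ⟨z, hz, rfl⟩, rfl⟩ := Submodule.mem_sup.1 (hK hx.1)
  obtain ⟨x0, hx0, _, ⟨α, hα, rfl⟩, rfl⟩ := Submodule.mem_sup.1 hk1
  have h1 : D.d p (w + 1) x0 = 0 := Hm_d hx0 p
  have h2 : D.d p (w + 1) (D.d (p - 1) w α) = 0 := by
    have := dd_zero hc α hα
    rwa [sub_add_cancel] at this
  have h3 : D.d p (w + 1) (x0 + D.d (p - 1) w α + del S (p + 1) (w + 1) z) = 0 := hx.2
  rw [map_add, map_add, h1, h2, zero_add, zero_add] at h3
  have h4 := coexact_closed hc hb hd hA hs hwv hK z hz h3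
  refine ⟨x0, hx0, ?_⟩
  rw [h4, add_zero, add_sub_cancel_left]
  exact ⟨α, hα, rfl⟩

lemma Hm_neg (x : D.Ch (w + 1)) (hx : x ∈ Hm S p w) : x ∈ Hm S (-p) w :=
  ⟨fun a ha => hx.1 a fun h => ha ((inCol_neg p a).2 h), hx.2⟩

end

/-- no strata -/
theorem mw_zero {w r : ℕ} (h : ∀ a (x : D.V a w), r ≤ a → x = 0) : D.MonodromyWeight w r := by
  have h0 : ∀ (p : ℤ) (x : D.Ch w), p.natAbs = r → (∀ a, ¬ InCol p a → x a = 0) → x = 0 := by
    intro p x hp hx
    funext a
    by_cases ha : InCol p a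
    · exact h a (x a) (by have := ha.1; omega)
    · exact hx a ha
  have hz : ∀ (p : ℤ) (x : D.Ch w), p.natAbs = r → x ∈ D.Z p w → x = 0 := by
    intro p x hp hx
    exact h0 p x hp ((mem_Z x).1 hx).1
  refine ⟨fun x hx => ?_, fun x hx => ?_, fun x hx _ => ?_, fun y hy => ?_⟩
  · rw [hz _ x (by simp) hx]; exact Submodule.zero_mem _
  · have hx0 : x = 0 := by
      cases w with
      | zero => exact (Submodule.mem_bot E).1 hx
      | succ w =>
        obtain ⟨y, -, -, h2⟩ := (mem_B x).1 hx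
        exact h0 _ x (by simp) h2
    rw [hx0]; exact Submodule.zero_mem _
  · rw [hz _ x (by simp) hx]; exact Submodule.zero_mem _
  · rw [hz _ y (by simp) hy]
    refine ⟨0, Submodule.zero_mem _, ?_⟩
    change (0 : D.Ch w) - 0 ∈ D.B r w
    rw [sub_zero]
    exact Submodule.zero_mem _

/-- **Weight-monodromy in all degrees.** -/
theorem mw_all {J : Type} {n : ℕ} (hD : IsReduction D n) (hA : Adj S n)
    (hs : ∀ a w v, w + v = 2 * n → ∀ z : D.V a v, ∃ y : D.V a w, S.star a w v y = z)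
    (X : J → Src D) (hG : ∀ j, (X j).IsGeometric S) (hP : ∀ j, (X j).IsPositive S n)
    (N : Subs D)
    (hN1 : ∀ a w (x : D.V a (w + 1)), w + 2 ≤ 2 * n → x ∈ N a (w + 1) → Harm S a w x)
    (hN2 : ∀ b w (x : D.V (b + 1) (w + 1)), w + 2 ≤ 2 * n → x ∈ N (b + 1) (w + 1) →
      Harm' S b w x)
    (hgen : ∀ a, GeneratedAt X N (a + 1)) (w r : ℕ) (hr : 1 ≤ r) : D.MonodromyWeight w r := by
  cases w with
  | zero => exact mw_zero fun a x ha => hD.bounded.neg a 0 x (by omega)
  | succ w =>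
    by_cases hw : w + 2 ≤ 2 * n
    · obtain ⟨v, hv⟩ : ∃ v, w + 2 + v = 2 * n := ⟨2 * n - (w + 2), by omega⟩
      have hs' := fun a => hs a (w + 1) (v + 1) (by omega)
      have hge : ∀ p : ℤ, p ≠ 0 → ∀ a, InCol p a → GeneratedAt X N a := by
        intro p hp a ha
        obtain ⟨b, rfl⟩ : ∃ b, a = b + 1 := ⟨a - 1, by have := ha.1; omega⟩
        exact hgen b
      have hKp := le_Kp hD.complex hD.bounded hA X hG hP N (fun a x => hN1 a w x hw)
        (fun a x => hN2 a w x hw) (hge (r : ℤ) (by omega)) hv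
      have hKm := le_Kp hD.complex hD.bounded hA X hG hP N (fun a x => hN1 a w x hw)
        (fun a x => hN2 a w x hw) (hge (-(r : ℤ)) (by omega)) hv
      refine ⟨fun x hx => Z_le r _ hx, fun x hx => B_le r _ hr hx, ?_, ?_⟩
      · intro x hx hx'
        obtain ⟨x0, hx0, h1⟩ := cocycle hD.complex hD.bounded hD.duality hA hs' hv hKm x hx
        have hx0' := Hm_neg x0 hx0
        rw [neg_neg] at hx0'
        have h2 : x0 ∈ D.B r (w + 1) := by
          have h3 : x0 = x - (x - x0) := by abel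
          rw [h3]
          exact Submodule.sub_mem _ hx' (B_le r _ hr h1)
        obtain ⟨y, hy, hy2⟩ := h2
        have h4 : x0 = 0 := by
          rw [← hy2]
          apply exact_harm hD.complex hD.bounded hD.duality hA hs' hv hKp y hy
          rw [hy2]
          exact Hm_del hx0' _
        rw [h4, sub_zero] at h1
        exact h1
      · intro y hy
        obtain ⟨y0, hy0, h1⟩ := cocycle hD.complex hD.bounded hD.duality hA hs' hv hKp y hy
        have hy0' := Hm_neg y0 hy0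
        exact ⟨y0, ⟨hy0'.1, Hm_d hy0' _⟩, h1⟩
    · refine mw_zero fun a x ha => ?_
      exact hD.top a (w + 1) x (by omega)

end Pool.Agent.W552.Wl
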