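import Mathlib

/-!
# Hard Lefschetz: an operator of degree one and the star operators
-/

set_option autoImplicit false

namespace Pool.Agent.W552.Wl

section

variable {E : Type*} [Field E] [CharZero E]

/-- graded module with `L`, `Λ` and the hard Lefschetz property -/
structure HL {W : Type*} [AddCommGroup W] [Module E W] (G : ℕ → Submodule E W) (n : ℕ)
    (l m : W →ₗ[E] W) : Prop where
  lG : ∀ w x, x ∈ G w → l x ∈ G (w + 2)
  mG : ∀ w x, x ∈ G (w + 2) → m x ∈ G w
  m0 : ∀ w x, w < 2 → x ∈ G w → m x = 0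
  rel : ∀ w x, x ∈ G w → m (l x) = l (m x) + ((n : E) - w) • x
  top : ∀ w x, 2 * n < w → x ∈ G w → x = 0
  inj : ∀ w r x, w + r = n → x ∈ G w → (l ^ r) x = 0 → x = 0
  surj : ∀ w r y, w + r = n → y ∈ G (w + 2 * r) → ∃ x ∈ G w, (l ^ r) x = y

variable {W : Type*} [AddCommGroup W] [Module E W] {G : ℕ → Submodule E W} {n : ℕ}
  {l m : W →ₗ[E] W}

lemma HL.pG (h : HL G n l m) {w : ℕ} {x : W} (hx : x ∈ G w) (j : ℕ) : (l ^ j) x ∈ G (w + 2 * j) := by
  induction j with
  | zero => exact hx
  | succ j ih =>
    rw [pow_succ', Module.End.mul_apply]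
    exact h.lG _ _ ih

lemma HL.comm (h : HL G n l m) {w : ℕ} {x : W} (hx : x ∈ G w) (j : ℕ) :
    m ((l ^ (j + 1)) x) = (l ^ (j + 1)) (m x) + (((j : E) + 1) * ((n : E) - w - j)) • (l ^ j) x := by
  induction j with
  | zero =>
    rw [zero_add, pow_one, pow_zero, h.rel w x hx]
    congr 1
    push_cast
    rw [zero_add, one_mul, sub_zero]
    rfl
  | succ j ih =>
    have h1 : (l ^ (j + 1 + 1)) x = l ((l ^ (j + 1)) x) := by
      rw [pow_succ' l (j + 1), Module.End.mul_apply]
    have h2 : (l ^ (j + 1 + 1)) (m x) = l ((l ^ (j + 1)) (m x)) := by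
      rw [pow_succ' l (j + 1), Module.End.mul_apply]
    have h3 : (l ^ (j + 1)) x = l ((l ^ j) x) := by
      rw [pow_succ' l j, Module.End.mul_apply]
    rw [h1, h.rel _ _ (h.pG hx (j + 1)), ih, map_add, map_smul, h2, ← h3]
    push_cast
    module

lemma HL.comm0 (h : HL G n l m) {w : ℕ} {x : W} (hx : x ∈ G w) (h0 : m x = 0) (j : ℕ) :
    m ((l ^ (j + 1)) x) = (((j : E) + 1) * ((n : E) - w - j)) • (l ^ j) x := by
  rw [h.comm hx, h0, map_zero, zero_add]

/-- there are no primitive classes above the middle -/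
lemma HL.neg (h : HL G n l m) {w : ℕ} {x : W} (hx : x ∈ G w) (h0 : m x = 0) (hw : n < w) :
    x = 0 := by
  have key : ∀ N, (l ^ N) x = 0 → x = 0 := by
    intro N
    induction N with
    | zero => exact fun h => h
    | succ N ih =>
      intro h1
      apply ih
      have h2 := h.comm0 hx h0 N
      rw [h1, map_zero] at h2
      rcases smul_eq_zero.1 h2.symm with h3 | h3
      · exfalso
        have h4 : ((N : E) + 1) ≠ 0 := by exact_mod_cast Nat.succ_ne_zero N
        have h5 : (n : E) - w - N = 0 := by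
          rcases mul_eq_zero.1 h3 with h | h
          · exact absurd h h4
          · exact h
        have h6 : (n : E) = ((w + N : ℕ) : E) := by
          push_cast
          linear_combination h5
        have := Nat.cast_injective h6
        omega
      · exact h3
  exact key n (h.top _ _ (by omega) (h.pG hx n))

lemma HL.prim (h : HL G n l m) {w r : ℕ} (hwr : w + r = n) {x : W} (hx : x ∈ G w)
    (h0 : m x = 0) : (l ^ (r + 1)) x = 0 := by
  apply h.neg (h.pG hx (r + 1)) _ (by omega)
  rw [h.comm0 hx h0]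
  have : (n : E) - w - r = 0 := by rw [← hwr]; push_cast; ring
  rw [this, mul_zero, zero_smul]

lemma HL.prim' (h : HL G n l m) {w r : ℕ} (hwr : w + r = n) {x : W} (hx : x ∈ G w)
    (h0 : (l ^ (r + 1)) x = 0) : m x = 0 := by
  by_cases hw : w < 2
  · exact h.m0 w x hw hx
  · obtain ⟨u, rfl⟩ : ∃ u, w = u + 2 := ⟨w - 2, by omega⟩
    apply h.inj u (r + 2) _ (by omega) (h.mG _ _ hx)
    have h1 := h.comm hx (r + 1)
    have h2 : (l ^ (r + 1 + 1)) x = 0 := by
      rw [pow_succ' l (r + 1), Module.End.mul_apply, h0, map_zero]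
    rw [h2, map_zero, h0, smul_zero, add_zero] at h1
    exact h1.symm

/-- **Induction on the primitive decomposition.** -/
theorem HL.ind (h : HL G n l m) {N : Type*} [AddCommGroup N] [Module E N] (X : W →ₗ[E] N)
    (hp : ∀ w x, w ≤ n → x ∈ G w → m x = 0 → X x = 0)
    (hs : ∀ w x, x ∈ G w → X x = 0 → X (l x) = 0) : ∀ w x, x ∈ G w → X x = 0 := by
  intro w
  induction w using Nat.strong_induction_on with
  | _ w ih =>
    intro x hx
    by_cases hw : w ≤ n
    · obtain ⟨r, hr⟩ : ∃ r, w + r = n := ⟨n - w, by omega⟩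
      by_cases hw2 : w < 2
      · exact hp w x hw hx (h.m0 w x hw2 hx)
      · obtain ⟨u, rfl⟩ : ∃ u, w = u + 2 := ⟨w - 2, by omega⟩
        have h1 := h.pG hx (r + 1)
        have e : u + 2 + 2 * (r + 1) = u + 2 * (r + 2) := by ring
        rw [e] at h1
        obtain ⟨y, hy, hyx⟩ := h.surj u (r + 2) _ (by omega) h1
        have h2 : x - l y ∈ G (u + 2) := (G _).sub_mem hx (h.lG _ _ hy)
        have h3 : (l ^ (r + 1)) (x - l y) = 0 := by
          rw [map_sub, ← hyx]
          have : (l ^ (r + 1)) (l y) = (l ^ (r + 2)) y := by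
            rw [← Module.End.mul_apply, ← pow_succ]
          rw [this, sub_self]
        have h4 := hp _ _ hw h2 (h.prim' hr h2 h3)
        rw [map_sub, hs u y hy (ih u (by omega) y hy), sub_zero] at h4
        exact h4
    · by_cases hw2 : 2 * n < w
      · rw [h.top w x hw2 hx, map_zero]
      · obtain ⟨r, hr⟩ : ∃ r, w = n + (r + 1) := ⟨w - n - 1, by omega⟩
        obtain ⟨u, hu⟩ : ∃ u, u + (r + 1) = n := ⟨n - (r + 1), by omega⟩
        obtain rfl : w = u + 2 * (r + 1) := by omega
        obtain ⟨y, hy, rfl⟩ := h.surj u (r + 1) x hu hx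
        rw [pow_succ', Module.End.mul_apply]
        exact hs _ _ (h.pG hy r) (ih _ (by omega) _ (h.pG hy r))

end

section star

variable {E : Type*} [Field E] [CharZero E]
variable {W W' : Type*} [AddCommGroup W] [Module E W] [AddCommGroup W'] [Module E W']
  {G : ℕ → Submodule E W} {G' : ℕ → Submodule E W'} {n : ℕ} {l m : W →ₗ[E] W}
  {l' m' : W' →ₗ[E] W'} {T : W →ₗ[E] W'}

/-- `[Λ, [Λ, T]] = 0` -/
theorem ad_ad (h : HL G n l m) (h' : HL G' n l' m') (hT : ∀ w x, x ∈ G w → T x ∈ G' (w + 1))
    (hTl : ∀ x, T (l x) = l' (T x)) : ∀ w x, x ∈ G w →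
      m' (m' (T x)) + T (m (m x)) = (2 : E) • m' (T (m x)) := by
  -- membership up to degree zero
  have hmT : ∀ w x, x ∈ G w → 1 ≤ w → m' (T x) ∈ G' (w - 1) := by
    intro w x hx hw
    obtain ⟨u, rfl⟩ : ∃ u, w = u + 1 := ⟨w - 1, by omega⟩
    exact h'.mG _ _ (hT _ x hx)
  have hmT0 : ∀ w x, x ∈ G w → w < 1 → m' (T x) = 0 := by
    intro w x hx hw
    exact h'.m0 _ _ (by omega) (hT _ x hx)
  -- commutation with `L`
  have key : ∀ w x, x ∈ G w → m' (m' (T (l x))) + T (m (m (l x))) - (2 : E) • m' (T (m (l x))) =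
      l' (m' (m' (T x)) + T (m (m x)) - (2 : E) • m' (T (m x))) := by
    intro w x hx
    have e1 : m' (T (l x)) = l' (m' (T x)) + ((n : E) - w - 1) • T x := by
      rw [hTl, h'.rel _ _ (hT w x hx)]
      push_cast
      congr 2
      ring
    have e2 : m' (l' (m' (T x))) = l' (m' (m' (T x))) + ((n : E) - w + 1) • m' (T x) := by
      by_cases hw : 1 ≤ w
      · rw [h'.rel _ _ (hmT w x hx hw)]
        have : ((w - 1 : ℕ) : E) = (w : E) - 1 := by push_cast [Nat.cast_sub hw]; ring
        rw [this]
        congr 2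
        ring
      · rw [hmT0 w x hx (by omega)]
        simp
    have e3 : m (l x) = l (m x) + ((n : E) - w) • x := h.rel w x hx
    have e4 : m (l (m x)) = l (m (m x)) + ((n : E) - w + 2) • m x := by
      by_cases hw : w < 2
      · rw [h.m0 w x hw hx]
        simp
      · obtain ⟨u, rfl⟩ : ∃ u, w = u + 2 := ⟨w - 2, by omega⟩
        rw [h.rel _ _ (h.mG _ _ hx)]
        push_cast
        congr 2
        ring
    have e5 : m' (l' (T (m x))) = l' (m' (T (m x))) + ((n : E) - w + 1) • T (m x) := by
      by_cases hw : w < 2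
      · rw [h.m0 w x hw hx]
        simp
      · obtain ⟨u, rfl⟩ : ∃ u, w = u + 2 := ⟨w - 2, by omega⟩
        rw [h'.rel _ _ (hT _ _ (h.mG _ _ hx))]
        push_cast
        congr 2
        ring
    rw [e1, e3]
    simp only [map_add, map_smul, map_sub, hTl, e2, e4, e5]
    module
  have hX := h.ind ((m'.comp (m'.comp T)) + (T.comp (m.comp m)) - (2 : E) • (m'.comp (T.comp m)))
    (fun w x hw hx h0 => by
      change m' (m' (T x)) + T (m (m x)) - (2 : E) • m' (T (m x)) = 0
      obtain ⟨r, hr⟩ : ∃ r, w + r = n := ⟨n - w, by omega⟩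
      have h1 : ∀ j, m' (m' (T ((l ^ j) x))) + T (m (m ((l ^ j) x))) -
          (2 : E) • m' (T (m ((l ^ j) x))) =
          (l' ^ j) (m' (m' (T x)) + T (m (m x)) - (2 : E) • m' (T (m x))) := by
        intro j
        induction j with
        | zero => rfl
        | succ j ih =>
          rw [pow_succ' l, Module.End.mul_apply, key _ _ (h.pG hx j), ih, pow_succ' l',
            Module.End.mul_apply]
      have h2 := h1 (r + 1)
      rw [h.prim hr hx h0] at h2
      simp only [map_zero, smul_zero, add_zero, sub_zero] at h2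
      rw [h0] at h2 ⊢
      simp only [map_zero, smul_zero, add_zero, sub_zero] at h2 ⊢
      by_cases hw3 : w < 3
      · by_cases hw1 : 1 ≤ w
        · exact h'.m0 _ _ (by omega) (hmT w x hx hw1)
        · rw [hmT0 w x hx (by omega), map_zero]
      · obtain ⟨u, rfl⟩ : ∃ u, w = u + 3 := ⟨w - 3, by omega⟩
        have h3 : m' (m' (T x)) ∈ G' u := h'.mG _ _ (h'.mG _ _ (hT _ x hx))
        apply h'.inj u (r + 3) _ (by omega) h3
        have e : r + 3 = 2 + (r + 1) := by ring
        rw [e, pow_add, Module.End.mul_apply, ← h2, map_zero])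
    (fun w x hx h0 => by
      change m' (m' (T (l x))) + T (m (m (l x))) - (2 : E) • m' (T (m (l x))) = 0
      rw [key w x hx]
      have h0' : m' (m' (T x)) + T (m (m x)) - (2 : E) • m' (T (m x)) = 0 := h0
      rw [h0', map_zero])
  intro w x hx
  have := hX w x hx
  exact sub_eq_zero.1 this

/-- **The star operator and an operator of degree one.** -/
theorem star_T (h : HL G n l m) (h' : HL G' n l' m') (hT : ∀ w x, x ∈ G w → T x ∈ G' (w + 1))
    (hTl : ∀ x, T (l x) = l' (T x)) (s : W →ₗ[E] W) (s' : W' →ₗ[E] W')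
    (hsG : ∀ w v x, w + v = 2 * n → x ∈ G w → s x ∈ G v) (hsl : ∀ x, s (l x) = m (s x))
    (hsl' : ∀ x, s' (l' x) = m' (s' x)) (e e' : ℕ → E)
    (hsp : ∀ w r x, w + r = n → x ∈ G w → (l ^ (r + 1)) x = 0 →
      (r.factorial : E) • s x = e w • (l ^ r) x)
    (hsp' : ∀ w r x, w + r = n → x ∈ G' w → (l' ^ (r + 1)) x = 0 →
      (r.factorial : E) • s' x = e' w • (l' ^ r) x) (σ : E)
    (sg1 : ∀ w x, x ∈ G w → x ≠ 0 → e' (w + 1) = σ * e w)
    (sg2 : ∀ w y, y ∈ G' w → y ≠ 0 → e' w = - (σ * e (w + 1))) :
    ∀ w x, x ∈ G w → s' (T x) = - (σ • (m' (T (s x)) - T (m (s x)))) := by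
  have haa := ad_ad h h' hT hTl
  have hTlp : ∀ j x, T ((l ^ j) x) = (l' ^ j) (T x) := by
    intro j
    induction j with
    | zero => exact fun x => rfl
    | succ j ih =>
      intro x
      rw [pow_succ, pow_succ, Module.End.mul_apply, Module.End.mul_apply, ih, hTl]
  have hX := h.ind (s'.comp T + σ • (m'.comp (T.comp s) - T.comp (m.comp s)))
    (fun w x hw hx h0 => by
      change s' (T x) + σ • (m' (T (s x)) - T (m (s x))) = 0
      by_cases hx0 : x = 0
      · rw [hx0]; simp
      obtain ⟨r, hr⟩ : ∃ r, w + r = n := ⟨n - w, by omega⟩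
      have hr1 : ((r : E) + 1) ≠ 0 := by exact_mod_cast Nat.succ_ne_zero r
      have hrf : ((r.factorial : ℕ) : E) ≠ 0 := by exact_mod_cast r.factorial_ne_zero
      have hnw : (n : E) - w = r := by rw [← hr]; push_cast; ring
      have hy := hT w x hx
      have hmm : m' (m' (T x)) = 0 := by
        have := haa w x hx
        simpa [h0] using this
      obtain ⟨y1, hy1, hty, hsy, hpy, hlG⟩ : ∃ y1 : W', m' y1 = 0 ∧ ((r : E) + 1) • y1 = m' (T x) ∧
          (r.factorial : E) • m' (s' y1) = -(σ * e w) • (l' ^ r) y1 ∧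
          m' ((l' ^ (r + 1)) y1) = ((r : E) + 1) • (l' ^ r) y1 ∧
          (m' (l' y1) = ((r : E) + 1) • y1 ∧ l' y1 ∈ G' (w + 1)) := by
        by_cases hw1 : 1 ≤ w
        · obtain ⟨u, rfl⟩ : ∃ u, w = u + 1 := ⟨w - 1, by omega⟩
          have hm1 : m' (T x) ∈ G' u := h'.mG _ _ hy
          have hc1 : m' (((r : E) + 1)⁻¹ • m' (T x)) = 0 := by rw [map_smul, hmm, smul_zero]
          have hg1 : ((r : E) + 1)⁻¹ • m' (T x) ∈ G' u := (G' u).smul_mem _ hm1
          have hnu : (n : E) - u - r = 1 := by rw [← hr]; push_cast; ring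
          have hp1 : m' ((l' ^ (r + 1)) (((r : E) + 1)⁻¹ • m' (T x))) =
              ((r : E) + 1) • (l' ^ r) (((r : E) + 1)⁻¹ • m' (T x)) := by
            rw [h'.comm0 hg1 hc1, hnu, mul_one]
          refine ⟨((r : E) + 1)⁻¹ • m' (T x), hc1, smul_inv_smul₀ hr1 _, ?_, hp1, ?_, ?_⟩
          · have h1 := hsp' u (r + 1) _ (by omega) hg1 (h'.prim (by omega) hg1 hc1)
            have h2 : (((r + 1).factorial : ℕ) : E) • m' (s' (((r : E) + 1)⁻¹ • m' (T x))) =
                e' u • (((r : E) + 1) • (l' ^ r) (((r : E) + 1)⁻¹ • m' (T x))) := by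
              rw [← map_smul m', h1, map_smul, hp1]
            by_cases hz : (((r : E) + 1)⁻¹ • m' (T x)) = 0
            · rw [hz]; simp
            · rw [sg2 u _ hg1 hz] at h2
              apply smul_right_injective W' hr1
              change ((r : E) + 1) • ((r.factorial : E) • _) = ((r : E) + 1) • _
              rw [smul_smul, smul_comm ((r : E) + 1), ← h2, Nat.factorial_succ]
              push_cast
              rfl
          · have := h'.rel u _ hg1
            rw [hc1, map_zero, zero_add] at this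
            rw [this]
            congr 1
            linear_combination hnu
          · exact h'.lG _ _ hg1
        · obtain rfl : w = 0 := by omega
          refine ⟨0, map_zero _, ?_, by simp, by simp, by simp, by simp⟩
          rw [smul_zero, h'.m0 _ _ (by omega) hy]
      obtain ⟨hly, hlG⟩ := hlG
      -- the primitive part
      obtain ⟨y0, hy0⟩ : ∃ y0, y0 = T x - l' y1 := ⟨_, rfl⟩
      have hTx : T x = y0 + l' y1 := by rw [hy0]; abel
      have hy0G : y0 ∈ G' (w + 1) := by rw [hy0]; exact (G' _).sub_mem hy hlG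
      have hy0m : m' y0 = 0 := by rw [hy0, map_sub, hly, hty, sub_self]
      have hsx := hsp w r x hr hx (h.prim hr hx h0)
      have hgoal : (r.factorial : E) • (s' (T x) + σ • (m' (T (s x)) - T (m (s x)))) = 0 := by
        have g1 : (r.factorial : E) • (s' (T x) + σ • (m' (T (s x)) - T (m (s x)))) =
            (r.factorial : E) • s' (T x) + σ • (m' (T ((r.factorial : E) • s x)) -
              T (m ((r.factorial : E) • s x))) := by
          simp only [map_smul]
          module
        rw [g1, hsx]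
        simp only [map_smul]
        rw [hTlp, hTx]
        cases r with
        | zero =>
          have hz : y0 = 0 := h'.neg hy0G hy0m (by omega)
          rw [hz, zero_add, pow_zero, pow_zero, hsl']
          rw [pow_zero] at hsy
          change _ • m' (s' y1) + σ • (e w • m' (l' y1) - e w • T (m x)) = 0
          rw [hsy, hly, h0, map_zero]
          change (-(σ * e w)) • y1 + _ = 0
          push_cast
          module
        | succ k =>
          have hz : (l' ^ (k + 1)) y0 = 0 := h'.prim (by omega) hy0G hy0m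
          have h1 := hsp' (w + 1) k y0 (by omega) hy0G hz
          rw [sg1 w x hx hx0] at h1
          have h2 : (((k + 1).factorial : ℕ) : E) • s' y0 =
              ((k : E) + 1) • ((σ * e w) • (l' ^ k) y0) := by
            rw [← h1, smul_smul, Nat.factorial_succ]
            push_cast
            rfl
          have h3 : (l' ^ (k + 1)) (l' y1) = (l' ^ (k + 1 + 1)) y1 := by
            rw [← Module.End.mul_apply, ← pow_succ]
          have h4 : (l' ^ k) (l' y1) = (l' ^ (k + 1)) y1 := by
            rw [← Module.End.mul_apply, ← pow_succ]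
          have h5 : m ((l ^ (k + 1)) x) = ((k : E) + 1) • (l ^ k) x := by
            rw [h.comm0 hx h0, hnw]
            push_cast
            congr 1
            ring
          have h6 : (l' ^ (k + 1)) (y0 + l' y1) = (l' ^ (k + 1 + 1)) y1 := by
            rw [map_add, hz, zero_add, h3]
          have h7 : T (m ((l ^ (k + 1)) x)) =
              ((k : E) + 1) • ((l' ^ k) y0 + (l' ^ (k + 1)) y1) := by
            rw [h5, map_smul, hTlp, hTx, map_add, h4]
          rw [h6, h7, hpy, map_add, hsl', smul_add, h2, hsy]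
          push_cast
          module
      exact (smul_eq_zero.1 hgoal).resolve_left hrf)
    (fun w x hx h0 => by
      have h0' : s' (T x) + σ • (m' (T (s x)) - T (m (s x))) = 0 := h0
      change s' (T (l x)) + σ • (m' (T (s (l x))) - T (m (s (l x)))) = 0
      by_cases hw : w ≤ 2 * n
      · have hsx := hsG w (2 * n - w) x (by omega) hx
        have h1 := haa _ _ hsx
        have h2 : s' (T x) = - (σ • (m' (T (s x)) - T (m (s x)))) := eq_neg_of_add_eq_zero_left h0'
        rw [hTl, hsl', hsl, h2]
        simp only [map_neg, map_smul, map_sub]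
        linear_combination (norm := skip) (-σ) • h1
        module
      · rw [h.top w x (by omega) hx]
        simp)
  intro w x hx
  have := hX w x hx
  exact eq_neg_of_add_eq_zero_left this

end star

end Pool.Agent.W552.Wl
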