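import Mathlib
import Pool.Agent.W552.WlMain
import Pool.Agent.W552.WlSl2

/-!
# The star operators and the adjoints of restriction and Gysin maps
-/

set_option autoImplicit false

namespace Pool.Agent.W552.Wl

open Module Pool.Agent.W522.M

variable {E : Type} [Field E] {D : Strata E} {S : Stars D}

/-- the total space of `V a` -/
abbrev Tt (D : Strata E) (a : ℕ) := ∀ w, D.V a w

/-- homogeneous elements -/
def Gr (D : Strata E) (a w : ℕ) : Submodule E (Tt D a) where
  carrier := {x | ∀ v, v ≠ w → x v = 0}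
  zero_mem' := fun _ _ => rfl
  add_mem' := fun {x y} hx hy v hv => by rw [Pi.add_apply, hx v hv, hy v hv, add_zero]
  smul_mem' := fun c x hx v hv => by rw [Pi.smul_apply, hx v hv, smul_zero]

/-- `L` -/
def lT (D : Strata E) (a : ℕ) : Tt D a →ₗ[E] Tt D a where
  toFun x := fun w => match w with
    | 0 => 0
    | 1 => 0
    | w + 2 => D.lef a w (x w)
  map_add' x y := by
    funext w
    match w with
    | 0 => exact (add_zero _).symm
    | 1 => exact (add_zero _).symm
    | w + 2 => exact map_add _ _ _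
  map_smul' c x := by
    funext w
    match w with
    | 0 => exact (smul_zero c).symm
    | 1 => exact (smul_zero c).symm
    | w + 2 => exact map_smul _ _ _

/-- `Λ` -/
def mT (S : Stars D) (a : ℕ) : Tt D a →ₗ[E] Tt D a where
  toFun x := fun w => S.low a w (x (w + 2))
  map_add' x y := by funext w; exact map_add _ _ _
  map_smul' c x := by funext w; exact map_smul _ _ _

/-- `*` -/
def sT (S : Stars D) (n a : ℕ) : Tt D a →ₗ[E] Tt D a where
  toFun x := fun v => S.star a (2 * n - v) v (x (2 * n - v))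
  map_add' x y := by funext w; exact map_add _ _ _
  map_smul' c x := by funext w; exact map_smul _ _ _

/-- restriction -/
def rT (D : Strata E) (a : ℕ) : Tt D a →ₗ[E] Tt D (a + 1) where
  toFun x := fun w => match w with
    | 0 => 0
    | w + 1 => D.res a w (x w)
  map_add' x y := by
    funext w
    match w with
    | 0 => exact (add_zero _).symm
    | w + 1 => exact map_add _ _ _
  map_smul' c x := by
    funext w
    match w with
    | 0 => exact (smul_zero c).symm
    | w + 1 => exact map_smul _ _ _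

/-- Gysin map -/
def gT (D : Strata E) (a : ℕ) : Tt D (a + 1) →ₗ[E] Tt D a where
  toFun x := fun w => match w with
    | 0 => 0
    | w + 1 => D.gys a w (x w)
  map_add' x y := by
    funext w
    match w with
    | 0 => exact (add_zero _).symm
    | w + 1 => exact map_add _ _ _
  map_smul' c x := by
    funext w
    match w with
    | 0 => exact (smul_zero c).symm
    | w + 1 => exact map_smul _ _ _

lemma lT_pow (a w : ℕ) (x : Tt D a) (r : ℕ) : (lT D a ^ r) x (w + 2 * r) = D.lp a w r (x w) := by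
  induction r with
  | zero => rfl
  | succ r ih =>
    have h1 : (lT D a ^ (r + 1)) x (w + 2 * (r + 1)) = D.lef a (w + 2 * r)
        ((lT D a ^ r) x (w + 2 * r)) := by
      rw [pow_succ', Module.End.mul_apply]
      rfl
    rw [h1, ih]
    rfl

lemma lT_mem {a w : ℕ} {x : Tt D a} (hx : x ∈ Gr D a w) : lT D a x ∈ Gr D a (w + 2) := by
  intro v hv
  match v with
  | 0 => rfl
  | 1 => rfl
  | u + 2 =>
    have h1 : x u = 0 := hx u (by omega)
    change D.lef a u (x u) = 0
    rw [h1, map_zero]

lemma lT_pow_mem {a w : ℕ} {x : Tt D a} (hx : x ∈ Gr D a w) (r : ℕ) :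
    (lT D a ^ r) x ∈ Gr D a (w + 2 * r) := by
  induction r with
  | zero => exact hx
  | succ r ih =>
    rw [pow_succ', Module.End.mul_apply]
    exact lT_mem ih

variable {n : ℕ}

lemma eq_zero_of_top (hD : IsReduction D n) {a w : ℕ} (hw : 2 * n < w) (x : D.V a w) : x = 0 :=
  hD.top a w x (by omega)

theorem hl (hD : IsReduction D n) (hS : S.IsStar n) (a : ℕ) :
    HL (Gr D a) n (lT D a) (mT S a) where
  lG w x hx := lT_mem hx
  mG w x hx v hv := by
    have h1 : x (v + 2) = 0 := hx _ (by omega)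
    change S.low a v (x (v + 2)) = 0
    rw [h1, map_zero]
  m0 w x hw hx := by
    funext v
    have h1 : x (v + 2) = 0 := hx _ (by omega)
    change S.low a v (x (v + 2)) = 0
    rw [h1, map_zero]
  rel w x hx := by
    funext v
    have h0 : v ≠ w → x v = 0 := hx v
    have h1 : S.low a v (D.lef a v (x v)) = (lT D a (mT S a x)) v + ((n : E) - v) • x v := by
      match v with
      | 0 =>
        have := hS.bot a 0 (x 0) (by norm_num)
        exact this.trans (zero_add _).symm
      | 1 =>
        have := hS.bot a 1 (x 1) (by norm_num)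
        exact this.trans (zero_add _).symm
      | u + 2 =>
        have h2 : S.low a (u + 2) (D.lef a (u + 2) (x (u + 2))) = D.lef a u (S.low a u (x (u + 2))) +
          ((n : E) - (u + 2)) • x (u + 2) := hS.comm a u (x (u + 2))
        rw [h2]
        push_cast
        rfl
    change S.low a v (D.lef a v (x v)) = (lT D a (mT S a x)) v + ((n : E) - w) • x v
    rw [h1]
    by_cases hv : v = w
    · rw [hv]
    · rw [h0 hv, smul_zero, smul_zero]
  top w x hw hx := by
    funext v
    by_cases hv : v = w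
    · rw [hv]
      exact eq_zero_of_top hD hw _
    · exact hx v hv
  inj w r x hr hx h0 := by
    funext v
    by_cases hv : v = w
    · subst hv
      apply (hD.lefschetz.bij a v r hr).1
      have h1 := lT_pow a v x r
      rw [h0] at h1
      change D.lp a v r (x v) = D.lp a v r 0
      rw [map_zero]
      exact h1.symm
    · exact hx v hv
  surj w r y hr hy := by
    obtain ⟨x0, hx0⟩ := (hD.lefschetz.bij a w r hr).2 (y (w + 2 * r))
    have hx : Pi.single w x0 ∈ Gr D a w := fun v hv => Pi.single_eq_of_ne hv _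
    refine ⟨Pi.single w x0, hx, ?_⟩
    funext v
    by_cases hv : v = w + 2 * r
    · subst hv
      rw [lT_pow, Pi.single_eq_same]
      exact hx0
    · rw [lT_pow_mem hx r v hv, hy v hv]

lemma sT_mem (hD : IsReduction D n) (a w v : ℕ) (x : Tt D a) (hwv : w + v = 2 * n)
    (hx : x ∈ Gr D a w) : sT S n a x ∈ Gr D a v := by
  intro u hu
  by_cases hun : u ≤ 2 * n
  · have h1 : x (2 * n - u) = 0 := hx _ (by omega)
    change S.star a _ u (x (2 * n - u)) = 0
    rw [h1, map_zero]
  · exact eq_zero_of_top hD (by omega) _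

lemma sT_l (hD : IsReduction D n) (hS : S.IsStar n) (a : ℕ) (x : Tt D a) :
    sT S n a (lT D a x) = mT S a (sT S n a x) := by
  funext v
  by_cases hv : v + 2 ≤ 2 * n
  · obtain ⟨w, hw⟩ : ∃ w, w = 2 * n - (v + 2) := ⟨_, rfl⟩
    have h1 : ∀ u, u = w + 2 → S.star a u v (lT D a x u) =
        S.low a v (S.star a w (v + 2) (x w)) := by
      rintro _ rfl
      exact hS.lef a w v (x w) (by omega)
    change S.star a (2 * n - v) v (lT D a x (2 * n - v)) =
      S.low a v (S.star a (2 * n - (v + 2)) (v + 2) (x (2 * n - (v + 2))))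
    rw [h1 _ (by omega), hw]
  · have h1 : ∀ u, u < 2 → lT D a x u = 0 := by
      intro u hu
      match u with
      | 0 => rfl
      | 1 => rfl
      | u + 2 => omega
    have h2 : sT S n a x (v + 2) = 0 := eq_zero_of_top hD (by omega) _
    change S.star a (2 * n - v) v (lT D a x (2 * n - v)) = S.low a v (sT S n a x (v + 2))
    rw [h2, h1 _ (by omega), map_zero, map_zero]

lemma sT_prim (hD : IsReduction D n) (hS : S.IsStar n) (a w r : ℕ) (x : Tt D a) (hr : w + r = n)
    (hx : x ∈ Gr D a w) (h0 : (lT D a ^ (r + 1)) x = 0) :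
    (r.factorial : E) • sT S n a x = sgn E a w • (lT D a ^ r) x := by
  funext v
  by_cases hv : v = w + 2 * r
  · subst hv
    have h1 : ∀ u, u = w → S.star a u (w + 2 * r) (x u) = S.star a w (w + 2 * r) (x w) := by
      rintro _ rfl; rfl
    have h2 : (r.factorial : E) • S.star a w (w + 2 * r) (x w) = sgn E a w • D.lp a w r (x w) := by
      refine hS.prim a w r (x w) hr ?_
      change D.lp a w (r + 1) (x w) = 0
      rw [← lT_pow, h0]
      rfl
    change (r.factorial : E) • S.star a (2 * n - (w + 2 * r)) (w + 2 * r)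
      (x (2 * n - (w + 2 * r))) = sgn E a w • (lT D a ^ r) x (w + 2 * r)
    rw [h1 _ (by omega), h2, lT_pow]
  · change (r.factorial : E) • sT S n a x v = sgn E a w • (lT D a ^ r) x v
    rw [sT_mem hD a w (w + 2 * r) x (by omega) hx v hv, lT_pow_mem hx r v hv, smul_zero, smul_zero]

lemma rT_mem (a w : ℕ) (x : Tt D a) (hx : x ∈ Gr D a w) : rT D a x ∈ Gr D (a + 1) (w + 1) := by
  intro v hv
  match v with
  | 0 => rfl
  | u + 1 =>
    have h1 : x u = 0 := hx u (by omega)
    change D.res a u (x u) = 0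
    rw [h1, map_zero]

lemma gT_mem (a w : ℕ) (x : Tt D (a + 1)) (hx : x ∈ Gr D (a + 1) w) :
    gT D a x ∈ Gr D a (w + 1) := by
  intro v hv
  match v with
  | 0 => rfl
  | u + 1 =>
    have h1 : x u = 0 := hx u (by omega)
    change D.gys a u (x u) = 0
    rw [h1, map_zero]

lemma rT_l (hD : IsReduction D n) (a : ℕ) (x : Tt D a) :
    rT D a (lT D a x) = lT D (a + 1) (rT D a x) := by
  funext v
  match v with
  | 0 => rfl
  | 1 => exact map_zero (D.res a 0)
  | 2 =>
    change D.res a 1 0 = D.lef (a + 1) 0 0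
    rw [map_zero, map_zero]
  | w + 3 => exact (hD.lefschetz.lef_res a w (x w)).symm

lemma gT_l (hD : IsReduction D n) (a : ℕ) (x : Tt D (a + 1)) :
    gT D a (lT D (a + 1) x) = lT D a (gT D a x) := by
  funext v
  match v with
  | 0 => rfl
  | 1 => exact map_zero (D.gys a 0)
  | 2 =>
    change D.gys a 1 0 = D.lef a 0 0
    rw [map_zero, map_zero]
  | w + 3 => exact (hD.lefschetz.lef_gys a w (x w)).symm

lemma tri (i : ℕ) : ((-1 : E)) ^ ((i + 2) * (i + 2 + 1) / 2) = - (-1) ^ (i * (i + 1) / 2) := by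
  have h1 : (i + 2) * (i + 2 + 1) / 2 = i * (i + 1) / 2 + (2 * i + 3) := by
    have : (i + 2) * (i + 2 + 1) = i * (i + 1) + (2 * i + 3) * 2 := by ring
    rw [this, Nat.add_mul_div_right _ _ (by norm_num)]
  have h2 : 2 * i + 3 = 2 * (i + 1) + 1 := by ring
  rw [h1, pow_add, h2, pow_succ, pow_mul]
  norm_num

lemma sgn_succ (a w : ℕ) (h : a + 1 ≤ w) : sgn E a (w + 1) = - sgn E (a + 1) w := by
  obtain ⟨i, rfl⟩ : ∃ i, w = a + 1 + i := ⟨w - (a + 1), by omega⟩
  unfold sgn
  have e1 : a + 1 + i + 1 - a = i + 2 := by omega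
  have e2 : a + 1 + i - (a + 1) = i := by omega
  rw [e1, e2, tri]

lemma sgn_diag (a w : ℕ) : sgn E (a + 1) (w + 1) = sgn E a w := by
  unfold sgn
  rw [Nat.add_sub_add_right]

lemma le_of_ne (hD : IsReduction D n) {a w : ℕ} {x : Tt D a} (hx : x ∈ Gr D a w) (h0 : x ≠ 0) :
    a ≤ w := by
  by_contra hw
  apply h0
  funext v
  by_cases hv : v = w
  · rw [hv]
    exact hD.bounded.neg a w _ (by omega)
  · exact hx v hv

variable [CharZero E]

/-- the star operator and restriction -/
theorem star_res (hD : IsReduction D n) (hS : S.IsStar n) (a w v : ℕ) (x : D.V a w)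
    (hwv : w + 1 + v = 2 * n) :
    S.star (a + 1) (w + 1) v (D.res a w x) = - rr S a v (S.star a w (v + 1) x) := by
  have key := star_T (hl hD hS a) (hl hD hS (a + 1)) (T := rT D a) (rT_mem a) (rT_l hD a)
    (sT S n a) (sT S n (a + 1)) (sT_mem hD a) (sT_l hD hS a) (sT_l hD hS (a + 1))
    (sgn E a) (sgn E (a + 1)) (sT_prim hD hS a) (sT_prim hD hS (a + 1)) 1
    (fun u y _ _ => by rw [one_mul, sgn_diag])
    (fun u y hy h0 => by
      rw [one_mul, sgn_succ a u (le_of_ne hD hy h0), neg_neg])
    w (Pi.single w x) (fun v hv => Pi.single_eq_of_ne hv _)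
  have h1 := congrFun key v
  have e1 : ∀ u, u = w + 1 → S.star (a + 1) u v (rT D a (Pi.single w x) u) =
      S.star (a + 1) (w + 1) v (D.res a w x) := by
    rintro _ rfl
    change S.star (a + 1) (w + 1) v (D.res a w ((Pi.single w x : Tt D a) w)) = _
    rw [Pi.single_eq_same]
  have e2 : ∀ u, u = w → S.star a u (v + 1) ((Pi.single w x : Tt D a) u) =
      S.star a w (v + 1) x := by
    rintro _ rfl
    rw [Pi.single_eq_same]
  have e3 : sT S n a (Pi.single w x) (v + 1) = S.star a w (v + 1) x := by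
    change S.star a (2 * n - (v + 1)) (v + 1) ((Pi.single w x : Tt D a) (2 * n - (v + 1))) = _
    exact e2 _ (by omega)
  have e4 : sT S n (a + 1) (rT D a (Pi.single w x)) v = S.star (a + 1) (w + 1) v (D.res a w x) := by
    change S.star (a + 1) (2 * n - v) v (rT D a (Pi.single w x) (2 * n - v)) = _
    exact e1 _ (by omega)
  rw [e4] at h1
  rw [h1, one_smul]
  change - (S.low (a + 1) v (D.res a (v + 1) (sT S n a (Pi.single w x) (v + 1))) -
    rT D a (mT S a (sT S n a (Pi.single w x))) v) = _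
  congr 1
  cases v with
  | zero =>
    rw [e3]
    exact sub_zero _
  | succ v =>
    change S.low (a + 1) (v + 1) (D.res a (v + 1 + 1) (sT S n a (Pi.single w x) (v + 1 + 1))) -
      D.res a v (S.low a v (sT S n a (Pi.single w x) (v + 2))) = _
    rw [e3]
    rfl

/-- the star operator and Gysin maps -/
theorem star_gys (hD : IsReduction D n) (hS : S.IsStar n) (a w v : ℕ) (x : D.V (a + 1) w)
    (hwv : w + 1 + v = 2 * n) :
    S.star a (w + 1) v (D.gys a w x) = gg S a v (S.star (a + 1) w (v + 1) x) := by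
  have key := star_T (hl hD hS (a + 1)) (hl hD hS a) (T := gT D a) (gT_mem a) (gT_l hD a)
    (sT S n (a + 1)) (sT S n a) (sT_mem hD (a + 1)) (sT_l hD hS (a + 1)) (sT_l hD hS a)
    (sgn E (a + 1)) (sgn E a) (sT_prim hD hS (a + 1)) (sT_prim hD hS a) (-1)
    (fun u y hy h0 => by
      rw [sgn_succ a u (le_of_ne hD hy h0), neg_one_mul])
    (fun u y _ _ => by rw [neg_one_mul, neg_neg, sgn_diag])
    w (Pi.single w x) (fun v hv => Pi.single_eq_of_ne hv _)
  have h1 := congrFun key v
  have e1 : ∀ u, u = w + 1 → S.star a u v (gT D a (Pi.single w x) u) =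
      S.star a (w + 1) v (D.gys a w x) := by
    rintro _ rfl
    change S.star a (w + 1) v (D.gys a w ((Pi.single w x : Tt D (a + 1)) w)) = _
    rw [Pi.single_eq_same]
  have e2 : ∀ u, u = w → S.star (a + 1) u (v + 1) ((Pi.single w x : Tt D (a + 1)) u) =
      S.star (a + 1) w (v + 1) x := by
    rintro _ rfl
    rw [Pi.single_eq_same]
  have e3 : sT S n (a + 1) (Pi.single w x) (v + 1) = S.star (a + 1) w (v + 1) x := by
    change S.star (a + 1) (2 * n - (v + 1)) (v + 1)
      ((Pi.single w x : Tt D (a + 1)) (2 * n - (v + 1))) = _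
    exact e2 _ (by omega)
  have e4 : sT S n a (gT D a (Pi.single w x)) v = S.star a (w + 1) v (D.gys a w x) := by
    change S.star a (2 * n - v) v (gT D a (Pi.single w x) (2 * n - v)) = _
    exact e1 _ (by omega)
  rw [e4] at h1
  rw [h1, neg_smul, one_smul, neg_neg]
  change S.low a v (D.gys a (v + 1) (sT S n (a + 1) (Pi.single w x) (v + 1))) -
    gT D a (mT S (a + 1) (sT S n (a + 1) (Pi.single w x))) v = _
  cases v with
  | zero =>
    rw [e3]
    exact sub_zero _
  | succ v =>
    change S.low a (v + 1) (D.gys a (v + 1 + 1) (sT S n (a + 1) (Pi.single w x) (v + 1 + 1))) -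
      D.gys a v (S.low (a + 1) v (sT S n (a + 1) (Pi.single w x) (v + 2))) = _
    rw [e3]
    rfl

lemma adj2 (hd : D.IsDuality n) {a w v : ℕ} (hwv : w + 1 + v = 2 * n) (x : D.V (a + 1) w)
    (y : D.V a v) : D.pair a (w + 1) v (D.gys a w x) y =
      D.pair (a + 1) w (v + 1) x (D.res a v y) := by
  have h1 : D.pair a (w + 1) v (D.gys a w x) y =
      (-1) ^ (w + 1 + a) * D.pair a v (w + 1) y (D.gys a w x) :=
    hd.symm a (w + 1) v (gam x) y
  have h2 : D.pair (a + 1) (v + 1) w (D.res a v y) x = D.pair a v (w + 1) y (D.gys a w x) :=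
    hd.adj a v w y x
  have h3 : D.pair (a + 1) (v + 1) w (D.res a v y) x =
      (-1) ^ (v + 1 + (a + 1)) * D.pair (a + 1) w (v + 1) x (D.res a v y) :=
    hd.symm (a + 1) (v + 1) w (rho y) x
  rw [h1, ← h2, h3, ← mul_assoc, ← pow_add]
  have e : w + 1 + a + (v + 1 + (a + 1)) = 2 * (n + a + 1) := by omega
  rw [e, pow_mul]
  norm_num

/-- the transpose of `[Λ, γ]` -/
lemma gg_adj (hD : IsReduction D n) (hS : S.IsStar n) (a w v : ℕ) (x : D.V (a + 1) (w + 1))
    (z : D.V a (v + 1)) (hwv : w + 1 + v = 2 * n) :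
    D.pair a w (v + 1) (gg S a w x) z = - D.pair (a + 1) (w + 1) v x (rr S a v z) := by
  have t1 : D.pair a w (v + 1) (S.low a w (D.gys a (w + 1) x)) z =
      (match v, z with
        | 0, _ => 0
        | v + 1, z => D.pair (a + 1) (w + 1) (v + 1) x (D.res a v (S.low a v z))) := by
    match v, z with
    | 0, z =>
      have : D.gys a (w + 1) x = 0 := eq_zero_of_top hD (by omega) _
      rw [this, map_zero, map_zero, LinearMap.zero_apply]
    | v + 1, z =>
      have h1 : D.pair a w (v + 2) (S.low a w (D.gys a (w + 1) x)) z =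
        D.pair a (w + 2) v (D.gys a (w + 1) x) (S.low a v z) :=
          hS.adj a w v (gam x) z (by omega)
      exact h1.trans (adj2 hD.duality (by omega) x (S.low a v z))
  have t2 : D.pair (a + 1) (w + 1) v x (S.low (a + 1) v (D.res a (v + 1) z)) =
      (match w, x with
        | 0, _ => 0
        | w + 1, x => D.pair a (w + 1) (v + 1) (D.gys a w (S.low (a + 1) w x)) z) := by
    match w, x with
    | 0, x =>
      have : D.res a (v + 1) z = 0 := eq_zero_of_top hD (by omega) _
      rw [this, map_zero, map_zero]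
    | w + 1, x =>
      have h1 : D.pair (a + 1) w (v + 2) (S.low (a + 1) w x) (D.res a (v + 1) z) =
        D.pair (a + 1) (w + 2) v x (S.low (a + 1) v (D.res a (v + 1) z)) :=
          hS.adj (a + 1) w v x (rho z) (by omega)
      exact h1.symm.trans (adj2 hD.duality (by omega) (S.low (a + 1) w x) z).symm
  match w, v, x, z with
  | 0, 0, x, z =>
    change D.pair a 0 1 (S.low a 0 (D.gys a 1 x)) z =
      - D.pair (a + 1) 1 0 x (S.low (a + 1) 0 (D.res a 1 z))
    rw [t1, t2]
    exact neg_zero.symm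
  | 0, v + 1, x, z =>
    change D.pair a 0 (v + 2) (S.low a 0 (D.gys a 1 x)) z =
      - D.pair (a + 1) 1 (v + 1) x (S.low (a + 1) (v + 1) (D.res a (v + 2) z) -
        D.res a v (S.low a v z))
    rw [t1, map_sub, t2]
    change D.pair (a + 1) 1 (v + 1) x (D.res a v (S.low a v z)) = -(0 - _)
    ring
  | w + 1, 0, x, z =>
    change D.pair a (w + 1) 1 (S.low a (w + 1) (D.gys a (w + 2) x) -
        D.gys a w (S.low (a + 1) w x)) z =
      - D.pair (a + 1) (w + 2) 0 x (S.low (a + 1) 0 (D.res a 1 z))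
    rw [map_sub, LinearMap.sub_apply, t1, t2]
    exact zero_sub _
  | w + 1, v + 1, x, z =>
    change D.pair a (w + 1) (v + 2) (S.low a (w + 1) (D.gys a (w + 2) x) -
        D.gys a w (S.low (a + 1) w x)) z =
      - D.pair (a + 1) (w + 2) (v + 1) x (S.low (a + 1) (v + 1) (D.res a (v + 2) z) -
        D.res a v (S.low a v z))
    rw [map_sub, LinearMap.sub_apply, t1, map_sub, t2]
    change D.pair (a + 1) (w + 2) (v + 1) x (D.res a v (S.low a v z)) - _ = -(_ - _)
    ring

/-- the transpose of `[Λ, ρ]` -/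
lemma rr_adj (hD : IsReduction D n) (hS : S.IsStar n) (a w v : ℕ) (x : D.V a (w + 1))
    (z : D.V (a + 1) (v + 1)) (hwv : w + 1 + v = 2 * n) :
    D.pair (a + 1) w (v + 1) (rr S a w x) z = - D.pair a (w + 1) v x (gg S a v z) := by
  have h1 : D.pair (a + 1) w (v + 1) (rr S a w x) z =
      (-1) ^ (w + (a + 1)) * D.pair (a + 1) (v + 1) w z (rr S a w x) :=
    hD.duality.symm (a + 1) w (v + 1) _ _
  have h2 := gg_adj hD hS a v w z x (by omega)
  have h3 : D.pair a v (w + 1) (gg S a v z) x =
      (-1) ^ (v + a) * D.pair a (w + 1) v x (gg S a v z) := hD.duality.symm a v (w + 1) _ _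
  have h4 : D.pair (a + 1) (v + 1) w z (rr S a w x) =
      - ((-1) ^ (v + a) * D.pair a (w + 1) v x (gg S a v z)) := by
    rw [← h3, h2, neg_neg]
  rw [h1, h4]
  have e : (-1 : E) ^ (w + (a + 1)) * (-1) ^ (v + a) = 1 := by
    rw [← pow_add]
    have : w + (a + 1) + (v + a) = 2 * (n + a) := by omega
    rw [this, pow_mul]
    norm_num
  linear_combination (-D.pair a (w + 1) v x (gg S a v z)) * e

/-- **The adjoints of restriction and Gysin maps.** -/
theorem adj_of_star (hD : IsReduction D n) (hS : S.IsStar n) : Adj S n where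
  a1 a w v x y hwv := by
    have h1 : D.pair (a + 1) (w + 1) v (D.res a w x) (S.star (a + 1) (w + 1) v y) =
      D.pair a w (v + 1) x (D.gys a v (S.star (a + 1) (w + 1) v y)) :=
        hD.duality.adj a w v x _
    rw [h1]
    congr 1
    have h2 := star_gys hD hS a v w (S.star (a + 1) (w + 1) v y) (by omega)
    have h3 : S.star (a + 1) v (w + 1) (S.star (a + 1) (w + 1) v y) = y :=
      hS.invol (a + 1) (w + 1) v y (by omega)
    rw [h3] at h2
    rw [← h2]
    exact (hS.invol a (v + 1) w _ (by omega)).symm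
  a2 a w v x y hwv := by
    rw [adj2 hD.duality hwv x, ← map_neg]
    congr 1
    have h2 := star_res hD hS a v w (S.star a (w + 1) v y) (by omega)
    have h3 : S.star a v (w + 1) (S.star a (w + 1) v y) = y := hS.invol a (w + 1) v y (by omega)
    rw [h3] at h2
    have h4 : S.star (a + 1) w (v + 1) (S.star (a + 1) (v + 1) w
        (D.res a v (S.star a (w + 1) v y))) = D.res a v (S.star a (w + 1) v y) :=
      hS.invol (a + 1) (v + 1) w _ (by omega)
    rw [← h4, h2, map_neg]
  a3 a w v x y hwv := by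
    rw [star_res hD hS a w v y hwv, gg_adj hD hS a w v x _ hwv, map_neg]
  a4 a w v x y hwv := by
    rw [star_gys hD hS a w v y hwv, rr_adj hD hS a w v x _ hwv]

/-- `[Λ, ρ]` kills `x` if `ρ` kills `* x` -/
lemma rr_of_star (hD : IsReduction D n) (hS : S.IsStar n) {a w v : ℕ} (x : D.V a (w + 1))
    (hwv : w + 1 + v = 2 * n) (h0 : D.res a v (S.star a (w + 1) v x) = 0) : rr S a w x = 0 := by
  have h1 := star_res hD hS a v w (S.star a (w + 1) v x) (by omega)
  have h2 : S.star a v (w + 1) (S.star a (w + 1) v x) = x := hS.invol a (w + 1) v x hwv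
  rw [h0, map_zero, h2] at h1
  exact neg_eq_zero.1 h1.symm

/-- `[Λ, γ]` kills `x` if `γ` kills `* x` -/
lemma gg_of_star (hD : IsReduction D n) (hS : S.IsStar n) {a w v : ℕ} (x : D.V (a + 1) (w + 1))
    (hwv : w + 1 + v = 2 * n) (h0 : D.gys a v (S.star (a + 1) (w + 1) v x) = 0) :
    gg S a w x = 0 := by
  have h1 := star_gys hD hS a v w (S.star (a + 1) (w + 1) v x) (by omega)
  have h2 : S.star (a + 1) v (w + 1) (S.star (a + 1) (w + 1) v x) = x :=
    hS.invol (a + 1) (w + 1) v x hwv
  rw [h0, map_zero, h2] at h1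
  exact h1.symm

lemma inert1 (hD : IsReduction D n) (hS : S.IsStar n) {N : Subs D}
    (hN : IsInert S n N) (a w : ℕ) (x : D.V a (w + 1)) (hw : w + 2 ≤ 2 * n)
    (hx : x ∈ N a (w + 1)) : Harm S a w x := by
  obtain ⟨v, hv⟩ : ∃ v, w + 1 + v = 2 * n := ⟨2 * n - (w + 1), by omega⟩
  exact ⟨hN.res _ _ x hx, rr_of_star hD hS x hv (hN.res _ _ _ (hN.star _ _ v x hv hx))⟩

lemma inert2 (hD : IsReduction D n) (hS : S.IsStar n) {N : Subs D}
    (hN : IsInert S n N) (b w : ℕ) (x : D.V (b + 1) (w + 1)) (hw : w + 2 ≤ 2 * n)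
    (hx : x ∈ N (b + 1) (w + 1)) : Harm' S b w x := by
  obtain ⟨v, hv⟩ : ∃ v, w + 1 + v = 2 * n := ⟨2 * n - (w + 1), by omega⟩
  exact ⟨hN.gys _ _ x hx, gg_of_star hD hS x hv (hN.gys _ _ _ (hN.star _ _ v x hv hx))⟩

/-- **Weight-monodromy in all degrees, from positivity.** -/
theorem main {J : Type} (hD : IsReduction D n) (hS : S.IsStar n)
    (X : J → Src D) (hG : ∀ j, (X j).IsGeometric S) (hP : ∀ j, (X j).IsPositive S n)
    (N : Subs D) (hN : IsInert S n N)
    (hgen : ∀ a, GeneratedAt X N (a + 1)) (w r : ℕ) (hr : 1 ≤ r) : D.MonodromyWeight w r :=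
  mw_all hD (adj_of_star hD hS)
    (fun a w v hwv z => ⟨S.star a v w z, hS.invol a v w z (by omega)⟩) X hG hP N
    (inert1 hD hS hN) (inert2 hD hS hN) hgen w r hr

end Pool.Agent.W552.Wl
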