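import Mathlib
import Pool.Agent.W552.WlStar

/-!
# Hard Lefschetz for the generic fibre from positivity
-/

set_option autoImplicit false

namespace Pool.Agent.W552.Wl

open Module Pool.Agent.W522.M

variable {E : Type} [Field E] {D : Strata E} {S : Stars D} {n : ℕ}

/-- the kernel of the Gysin map -/
def kg (D : Strata E) : ∀ a u, Submodule E (D.V a u)
  | 0, _ => ⊤
  | b + 1, u => LinearMap.ker (D.gys b u)

/-- the kernel of the restriction and Gysin maps -/
def kr (D : Strata E) (a u : ℕ) : Submodule E (D.V a u) := LinearMap.ker (D.res a u) ⊓ kg D a u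

/-- harmonic elements of `V a u`, `u + v = 2 n` -/
def HU (S : Stars D) (a u v : ℕ) : Submodule E (D.V a u) := kr D a u ⊓ (kr D a v).comap (S.star a u v)

/-- `L` on families -/
def lamCh {w : ℕ} (x : D.Ch w) : D.Ch (w + 2) := fun a => lam (x a)

lemma tot_lam (hD : IsReduction D n) {w : ℕ} (x : D.Ch w) (a : ℕ) :
    tot (lamCh x) a = lam (tot x a) := by
  cases a with
  | zero => exact (hD.lefschetz.lef_gys 0 w (x 1)).symm
  | succ b =>
    change rho (lam (x b)) + gam (lam (x (b + 2))) = D.lef (b + 1) (w + 1) (rho (x b) + gam (x (b + 2)))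
    rw [map_add, ← hD.lefschetz.lef_res, ← hD.lefschetz.lef_gys]
    rfl

lemma lam_zero {a w : ℕ} : lam (0 : D.V a w) = 0 := map_zero _

lemma Z_lam (hD : IsReduction D n) {p : ℤ} {w : ℕ} (x : D.Ch w) (hx : x ∈ D.Z p w) :
    lamCh x ∈ D.Z p (w + 2) := by
  rw [mem_Z] at hx ⊢
  refine ⟨fun a ha => ?_, fun a ha => ?_⟩
  · change lam (x a) = 0
    rw [hx.1 a ha, lam_zero]
  · rw [tot_lam hD, hx.2 a ha, lam_zero]

lemma B_lam (hD : IsReduction D n) {p : ℤ} {w : ℕ} (x : D.Ch w) (hx : x ∈ D.B p w) :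
    lamCh x ∈ D.B p (w + 2) := by
  cases w with
  | zero =>
    have h0 : x = 0 := (Submodule.mem_bot E).1 hx
    have : lamCh x = 0 := by
      rw [h0]
      funext a
      exact lam_zero
    rw [this]
    exact Submodule.zero_mem _
  | succ w =>
    rw [mem_B] at hx ⊢
    obtain ⟨y, h0, h1, h2⟩ := hx
    refine ⟨lamCh y, fun a ha => ?_, fun a ha => ?_, fun a ha => ?_⟩
    · change lam (y a) = 0
      rw [h0 a ha, lam_zero]
    · rw [tot_lam hD]
      change lam (x a) = _
      rw [h1 a ha]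
    · change lam (x a) = 0
      rw [h2 a ha, lam_zero]

lemma Z_pow (hD : IsReduction D n) {p : ℤ} {w : ℕ} (x : D.Ch w) (hx : x ∈ D.Z p w) (r : ℕ) :
    powCh r x ∈ D.Z p (w + 2 * r) := by
  induction r with
  | zero => exact hx
  | succ r ih => exact Z_lam hD _ ih

lemma B_pow (hD : IsReduction D n) {p : ℤ} {w : ℕ} (x : D.Ch w) (hx : x ∈ D.B p w) (r : ℕ) :
    powCh r x ∈ D.B p (w + 2 * r) := by
  induction r with
  | zero => exact hx
  | succ r ih => exact B_lam hD _ ih

lemma kg_lam (hD : IsReduction D n) {a u : ℕ} (x : D.V a u) (hx : x ∈ kg D a u) :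
    D.lef a u x ∈ kg D a (u + 2) := by
  cases a with
  | zero => exact Submodule.mem_top
  | succ b =>
    have h1 : D.gys b u x = 0 := hx
    have h2 : D.lef b (u + 1) (D.gys b u x) = D.gys b (u + 2) (D.lef (b + 1) u x) :=
      hD.lefschetz.lef_gys b u x
    change D.gys b (u + 2) (D.lef (b + 1) u x) = 0
    rw [← h2, h1, map_zero]

lemma kr_lam (hD : IsReduction D n) {a u : ℕ} (x : D.V a u) (hx : x ∈ kr D a u) :
    D.lef a u x ∈ kr D a (u + 2) := by
  refine ⟨?_, kg_lam hD x hx.2⟩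
  have h1 : D.res a u x = 0 := hx.1
  have h2 : D.lef (a + 1) (u + 1) (D.res a u x) = D.res a (u + 2) (D.lef a u x) :=
    hD.lefschetz.lef_res a u x
  change D.res a (u + 2) (D.lef a u x) = 0
  rw [← h2, h1, map_zero]

variable [CharZero E]

lemma HU_lam (hD : IsReduction D n) (hS : S.IsStar n) {a u v : ℕ} (huv : u + 2 + v = 2 * n)
    (x : D.V a u) (hx : x ∈ HU S a u (v + 2)) : D.lef a u x ∈ HU S a (u + 2) v := by
  refine ⟨kr_lam hD x hx.1, ?_⟩
  have h0 : S.star a (u + 2) v (D.lef a u x) = S.low a v (S.star a u (v + 2) x) :=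
    hS.lef a u v x huv
  have hy : S.star a u (v + 2) x ∈ kr D a (v + 2) := hx.2
  have hx1 : D.res a u x = 0 := hx.1.1
  have h1 := star_res hD hS a u (v + 1) x (by omega)
  rw [hx1, map_zero] at h1
  have h2 : rr S a (v + 1) (S.star a u (v + 2) x) = 0 := neg_eq_zero.1 h1.symm
  have h3 : S.low (a + 1) (v + 1) (D.res a (v + 2) (S.star a u (v + 2) x)) -
      D.res a v (S.low a v (S.star a u (v + 2) x)) = 0 := h2
  have hy1 : D.res a (v + 2) (S.star a u (v + 2) x) = 0 := hy.1
  rw [hy1, map_zero, zero_sub, neg_eq_zero] at h3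
  change S.star a (u + 2) v (D.lef a u x) ∈ kr D a v
  rw [h0]
  refine ⟨h3, ?_⟩
  cases a with
  | zero => exact Submodule.mem_top
  | succ b =>
    have hx2 : D.gys b u x = 0 := hx.1.2
    have g1 := star_gys hD hS b u (v + 1) x (by omega)
    rw [hx2, map_zero] at g1
    have g3 : S.low b (v + 1) (D.gys b (v + 2) (S.star (b + 1) u (v + 2) x)) -
      D.gys b v (S.low (b + 1) v (S.star (b + 1) u (v + 2) x)) = 0 := g1.symm
    have hy2 : D.gys b (v + 2) (S.star (b + 1) u (v + 2) x) = 0 := hy.2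
    rw [hy2, map_zero, zero_sub, neg_eq_zero] at g3
    exact g3

lemma HU_pow (hD : IsReduction D n) (hS : S.IsStar n) {a u : ℕ} (r : ℕ) : ∀ v v', v' = v + 2 * r →
    u + v' = 2 * n → ∀ x : D.V a u, x ∈ HU S a u v' → D.lp a u r x ∈ HU S a (u + 2 * r) v := by
  induction r with
  | zero =>
    rintro v _ rfl _ x hx
    exact hx
  | succ r ih =>
    intro v v' hv' huv x hx
    have h1 := ih (v + 2) v' (by omega) huv x hx
    exact HU_lam hD hS (u := u + 2 * r) (by omega) _ h1

lemma HU_star (hS : S.IsStar n) {a u v : ℕ} (huv : u + v = 2 * n) (x : D.V a u)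
    (hx : x ∈ HU S a u v) : S.star a u v x ∈ HU S a v u := by
  refine ⟨hx.2, ?_⟩
  have h1 : S.star a v u (S.star a u v x) = x := hS.invol a u v x huv
  change S.star a v u (S.star a u v x) ∈ kr D a u
  rw [h1]
  exact hx.1

lemma HU_surj (hD : IsReduction D n) (hS : S.IsStar n) {a u r : ℕ} (hur : u + r = n)
    (y : D.V a (u + 2 * r)) (hy : y ∈ HU S a (u + 2 * r) u) :
    ∃ x, x ∈ HU S a u (u + 2 * r) ∧ D.lp a u r x = y := by
  have hT : ∀ x ∈ HU S a u (u + 2 * r),
      ((S.star a (u + 2 * r) u).comp (D.lp a u r)) x ∈ HU S a u (u + 2 * r) := by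
    intro x hx
    exact HU_star hS (by omega) _ (HU_pow hD hS r u (u + 2 * r) rfl (by omega) x hx)
  have hinj : Function.Injective (((S.star a (u + 2 * r) u).comp (D.lp a u r)).restrict hT) := by
    rw [← LinearMap.ker_eq_bot, LinearMap.ker_eq_bot']
    rintro ⟨x, hx⟩ h0
    have h1 : S.star a (u + 2 * r) u (D.lp a u r x) = 0 := congrArg Subtype.val h0
    have h2 : S.star a u (u + 2 * r) (S.star a (u + 2 * r) u (D.lp a u r x)) = D.lp a u r x :=
      hS.invol a (u + 2 * r) u _ (by omega)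
    rw [h1, map_zero] at h2
    have h3 : x = 0 := (hD.lefschetz.bij a u r hur).1 (h2.symm.trans (map_zero _).symm)
    exact Subtype.ext h3
  obtain ⟨⟨x, hx⟩, h⟩ := LinearMap.surjective_of_injective hinj
    ⟨S.star a (u + 2 * r) u y, HU_star hS (by omega) y hy⟩
  have h1 : S.star a (u + 2 * r) u (D.lp a u r x) = S.star a (u + 2 * r) u y :=
    congrArg Subtype.val h
  refine ⟨x, hx, ?_⟩
  have h2 : S.star a u (u + 2 * r) (S.star a (u + 2 * r) u (D.lp a u r x)) = D.lp a u r x :=
    hS.invol a (u + 2 * r) u _ (by omega)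
  have h3 : S.star a u (u + 2 * r) (S.star a (u + 2 * r) u y) = y :=
    hS.invol a (u + 2 * r) u _ (by omega)
  rw [← h2, h1, h3]

/-- harmonic families in degree `u` -/
def HmU (S : Stars D) (p : ℤ) (u v : ℕ) (x : D.Ch u) : Prop :=
  x ∈ D.E1 p u ∧ ∀ a, x a ∈ HU S a u v

lemma HmU_iff (hD : IsReduction D n) (hS : S.IsStar n) {p : ℤ} {w v : ℕ} (hwv : w + 1 + v = 2 * n)
    (x : D.Ch (w + 1)) : HmU S p (w + 1) v x ↔ x ∈ Hm S p w := by
  constructor
  · rintro ⟨h1, h2⟩
    refine ⟨h1, fun a => ⟨(h2 a).1.1, rr_of_star hD hS _ hwv (h2 a).2.1⟩, fun b =>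
      ⟨(h2 (b + 1)).1.2, gg_of_star hD hS _ hwv (h2 (b + 1)).2.2⟩⟩
  · rintro ⟨h1, h2, h3⟩
    have hr : ∀ a, D.res a v (S.star a (w + 1) v (x a)) = 0 := by
      intro a
      have e := star_res hD hS a v w (S.star a (w + 1) v (x a)) (by omega)
      have e2 : S.star a v (w + 1) (S.star a (w + 1) v (x a)) = x a := hS.invol a (w + 1) v _ hwv
      rw [e2, (h2 a).rr, neg_zero] at e
      have e3 : S.star (a + 1) w (v + 1) (S.star (a + 1) (v + 1) w
        (D.res a v (S.star a (w + 1) v (x a)))) = D.res a v (S.star a (w + 1) v (x a)) :=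
          hS.invol (a + 1) (v + 1) w _ (by omega)
      rw [← e3, e, map_zero]
    have hg : ∀ b, D.gys b v (S.star (b + 1) (w + 1) v (x (b + 1))) = 0 := by
      intro b
      have e := star_gys hD hS b v w (S.star (b + 1) (w + 1) v (x (b + 1))) (by omega)
      have e2 : S.star (b + 1) v (w + 1) (S.star (b + 1) (w + 1) v (x (b + 1))) = x (b + 1) :=
        hS.invol (b + 1) (w + 1) v _ hwv
      rw [e2, (h3 b).gg] at e
      have e3 : S.star b w (v + 1) (S.star b (v + 1) w
        (D.gys b v (S.star (b + 1) (w + 1) v (x (b + 1))))) =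
          D.gys b v (S.star (b + 1) (w + 1) v (x (b + 1))) :=
          hS.invol b (v + 1) w _ (by omega)
      rw [← e3, e, map_zero]
    refine ⟨h1, fun a => ⟨⟨(h2 a).res, ?_⟩, hr a, ?_⟩⟩
    · cases a with
      | zero => exact Submodule.mem_top
      | succ b => exact (h3 b).gys
    · cases a with
      | zero => exact Submodule.mem_top
      | succ b => exact hg b

/-- harmonic theory in all degrees -/
structure IsHarmonic (S : Stars D) (n : ℕ) : Prop where
  sub : ∀ (p : ℤ) w v, w + 2 + v = 2 * n → D.E1 p (w + 1) ≤ Kp S p w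

section

variable (hD : IsReduction D n) (hS : S.IsStar n) (hH : IsHarmonic S n)

include hD hS

lemma surj_star (a w v : ℕ) (hwv : w + v = 2 * n) (z : D.V a v) :
    ∃ y : D.V a w, S.star a w v y = z := ⟨S.star a v w z, hS.invol a v w z (by omega)⟩

include hH

lemma cocycleU {p : ℤ} {u v : ℕ} (hu : 1 ≤ u) (hv : 1 ≤ v) (huv : u + v = 2 * n) (x : D.Ch u)
    (hx : x ∈ D.Z p u) : ∃ x0, HmU S p u v x0 ∧ x - x0 ∈ D.B p u := by
  obtain ⟨w, rfl⟩ : ∃ w, u = w + 1 := ⟨u - 1, by omega⟩
  obtain ⟨v, rfl⟩ : ∃ v', v = v' + 1 := ⟨v - 1, by omega⟩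
  obtain ⟨x0, h1, h2⟩ := cocycle hD.complex hD.bounded hD.duality (adj_of_star hD hS)
    (fun a => surj_star hD hS a (w + 1) (v + 1) huv) (by omega) (hH.sub p w v (by omega)) x hx
  exact ⟨x0, (HmU_iff hD hS huv x0).2 h1, h2⟩

lemma exactU {p : ℤ} {u v : ℕ} (hu : 1 ≤ u) (hv : 1 ≤ v) (huv : u + v = 2 * n) (x : D.Ch u)
    (hx : x ∈ D.B p u) (h0 : HmU S p u v x) : x = 0 := by
  obtain ⟨w, rfl⟩ : ∃ w, u = w + 1 := ⟨u - 1, by omega⟩
  obtain ⟨v, rfl⟩ : ∃ v', v = v' + 1 := ⟨v - 1, by omega⟩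
  obtain ⟨y, hy, rfl⟩ := hx
  exact exact_harm hD.complex hD.bounded hD.duality (adj_of_star hD hS)
    (fun a => surj_star hD hS a (w + 1) (v + 1) huv) (by omega) (hH.sub p w v (by omega)) y hy
    (Hm_del ((HmU_iff hD hS huv _).1 h0) _)

omit hH in
lemma closedU {p : ℤ} {u v : ℕ} (x : D.Ch u) (h0 : HmU S p u v x) : x ∈ D.Z p u := by
  rw [mem_Z]
  refine ⟨h0.1, fun a _ => ?_⟩
  cases a with
  | zero => exact (h0.2 1).1.2
  | succ b =>
    have h1 : D.res b u (x b) = 0 := (h0.2 b).1.1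
    have h2 : D.gys (b + 1) u (x (b + 2)) = 0 := (h0.2 (b + 2)).1.2
    change D.res b u (x b) + D.gys (b + 1) u (x (b + 2)) = 0
    rw [h1, h2, add_zero]

lemma bijE2 (p : ℤ) (u r : ℕ) (hu : 1 ≤ u) (hur : u + r = n) :
    D.BijectiveOnE2 p u p (u + 2 * r) (powCh r) := by
  have huv : u + (u + 2 * r) = 2 * n := by omega
  have huv' : u + 2 * r + u = 2 * n := by omega
  have hsub : ∀ x y : D.Ch u, powCh r (x - y) = powCh r x - powCh r y := by
    intro x y
    funext a
    exact map_sub (D.lp a u r) _ _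
  refine ⟨fun x hx => Z_pow hD x hx r, fun x hx => B_pow hD x hx r, ?_, ?_⟩
  · intro x hx hx'
    obtain ⟨x0, h1, h2⟩ := cocycleU hD hS hH hu (by omega) huv x hx
    have h3 : HmU S p (u + 2 * r) u (powCh r x0) := by
      refine ⟨fun a ha => ?_, fun a => HU_pow hD hS r u (u + 2 * r) rfl (by omega) _ (h1.2 a)⟩
      change D.lp a u r (x0 a) = 0
      rw [h1.1 a ha, map_zero]
    have h4 : powCh r x0 ∈ D.B p (u + 2 * r) := by
      have e : powCh r x0 = powCh r x - powCh r (x - x0) := by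
        rw [hsub, sub_sub_cancel]
      rw [e]
      exact Submodule.sub_mem _ hx' (B_pow hD _ h2 r)
    have h5 := exactU hD hS hH (by omega) (by omega) huv' _ h4 h3
    have h6 : x0 = 0 := by
      funext a
      apply (hD.lefschetz.bij a u r hur).1
      exact (congrFun h5 a).trans (map_zero (D.lp a u r)).symm
    rw [h6, sub_zero] at h2
    exact h2
  · intro y hy
    obtain ⟨y0, h1, h2⟩ := cocycleU hD hS hH (by omega) (by omega) huv' y hy
    choose x hx hx' using fun a => HU_surj hD hS hur (y0 a) (h1.2 a)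
    have hy0 : powCh r x = y0 := by
      funext a
      exact hx' a
    have hxm : HmU S p u (u + 2 * r) x := by
      refine ⟨fun a ha => ?_, hx⟩
      apply (hD.lefschetz.bij a u r hur).1
      have e : D.lp a u r (x a) = 0 := by rw [hx' a, h1.1 a ha]
      exact e.trans (map_zero (D.lp a u r)).symm
    refine ⟨x, closedU hD hS x hxm, ?_⟩
    rw [hy0]
    exact h2

end

/-! ### Degree zero -/

/-- decomposition of correspondences in degree zero -/
lemma dec0 {X : Src D} (hD : IsReduction D n) (hS : S.IsStar n) (hG : X.IsGeometric S)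
    (hP : X.IsPositive S n) (hn : 1 ≤ n) (f : X.T →ₗ[E] D.V 0 0) (hf : X.IsC f) :
    ∃ f0 g : X.T →ₗ[E] D.V 0 0, f = f0 + ((gg S 0 0).comp (D.res 0 0)).comp g ∧
      (D.res 0 0).comp f0 = 0 := by
  let _ : Module ℚ (X.T →ₗ[E] D.V 0 0) := Module.compHom _ (algebraMap ℚ E)
  let CK : Submodule ℚ (X.T →ₗ[E] D.V 0 0) :=
    { carrier := {f | X.IsC f}
      zero_mem' := (X.C 0 0).zero_mem
      add_mem' := fun hf hg => (X.C 0 0).add_mem hf hg
      smul_mem' := fun r f hf => hG.smul r _ _ _ hf }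
  have hA := adj_of_star hD hS
  obtain ⟨v, hv⟩ : ∃ v, 0 + 1 + v = 2 * n := ⟨2 * n - 1, by omega⟩
  have hnd := hG.nondeg
  have e1 : ∀ F G : X.T →ₗ[E] D.V 0 0, tauMap X.form hnd
      ((D.pair 0 0 (v + 1)).compl₂ (S.star 0 0 (v + 1))) F G = t1 X S hnd (v + 1) F G :=
    fun F G => tauOf_congr _ _ fun x y => rfl
  obtain ⟨f0, -, g, -, h1, -, h2⟩ := (harm (tauMap X.form hnd
    ((D.pair 0 0 (v + 1)).compl₂ (S.star 0 0 (v + 1))))
    (fun _ : X.T →ₗ[E] D.V 0 0 => (0 : E)) (fun f : X.T →ₗ[E] D.V 1 1 => t1 X S hnd v f f) CK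
    {0} {f | X.IsC f} 0 (post (D.res 0 0)) (post ((gg S 0 0).comp (D.res 0 0)))
    (fun F _ => rfl) (fun F hF => hG.res _ _ F hF)
    (fun F hF => gg_mem hG 0 0 _ (hG.res _ _ F hF))
    (fun F hF G hG' => by
      rw [e1]
      exact t1_rat hnd hP (by omega) F G hF hG')
    (fun F hF h0 => by
      rw [e1] at h0
      obtain ⟨r, -, h1, h2⟩ := t1_pos hnd hP (by omega : 0 + (v + 1) = 2 * n) F hF
      apply h2
      rw [h1] at h0
      exact_mod_cast h0)
    (fun F hF => ⟨0, le_rfl, Rat.cast_zero.symm, fun _ => hF⟩)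
    (fun F hF => t1_pos hnd hP (by omega : 1 + v = 2 * n) F hF)
    (fun F hF => by
      refine (e1 _ _).trans (Eq.trans ?_ (zero_add _).symm)
      apply tauOf_congr
      intro x y
      exact hA.a3 0 0 v (D.res 0 0 (F x)) (F y) (by omega))).2 f hf
  exact ⟨f0, g, h1, h2⟩

lemma dec0' {J : Type} (hD : IsReduction D n) (hS : S.IsStar n)
    (X : J → Src D) (hG : ∀ j, (X j).IsGeometric S) (hP : ∀ j, (X j).IsPositive S n)
    (N : Subs D) (hN : IsInert S n N)
    (hgen : GeneratedAt X N 0) (hn : 1 ≤ n) (x : D.V 0 0) :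
    ∃ x0 z, D.res 0 0 x0 = 0 ∧ x = x0 + gg S 0 0 z := by
  have h1 : imageOf X 0 0 ⊔ N 0 0 ≤ LinearMap.ker (D.res 0 0) ⊔ LinearMap.range (gg S 0 0) := by
    refine sup_le ?_ ?_
    · unfold imageOf
      rw [Submodule.span_le]
      rintro _ ⟨j, f, t, hf, rfl⟩
      obtain ⟨f0, g, h1, h2⟩ := dec0 hD hS (hG j) (hP j) hn f hf
      have h3 : (X j).val f t = f0 t + gg S 0 0 (D.res 0 0 (g t)) := LinearMap.congr_fun h1 t
      rw [SetLike.mem_coe, h3]
      exact Submodule.add_mem_sup (LinearMap.congr_fun h2 t) ⟨_, rfl⟩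
    · intro y hy
      exact Submodule.mem_sup_left (hN.res 0 0 y hy)
  have h2 : x ∈ LinearMap.ker (D.res 0 0) ⊔ LinearMap.range (gg S 0 0) := by
    apply h1
    rw [hgen 0]
    exact Submodule.mem_top
  obtain ⟨x0, hx0, _, ⟨z, rfl⟩, rfl⟩ := Submodule.mem_sup.1 h2
  exact ⟨x0, z, hx0, rfl⟩

/-- the star operator on degree zero -/
lemma star_zero (hD : IsReduction D n) (hS : S.IsStar n) (x : D.V 0 0) :
    (n.factorial : E) • S.star 0 0 (0 + 2 * n) x = D.lp 0 0 n x := by
  have h1 : (n.factorial : E) • S.star 0 0 (0 + 2 * n) x = sgn E 0 0 • D.lp 0 0 n x :=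
    hS.prim 0 0 n x (by omega) (hD.top 0 _ _ (by omega))
  rw [h1]
  have : sgn E 0 0 = 1 := by
    unfold sgn
    norm_num
  rw [this, one_smul]

lemma zero_inter (hD : IsReduction D n) (hS : S.IsStar n) (hn : 1 ≤ n)
    (h : ∀ x : D.V 0 0, ∃ x0 z, D.res 0 0 x0 = 0 ∧ x = x0 + gg S 0 0 z) (z' : D.V 1 1)
    (h0 : D.res 0 0 (gg S 0 0 z') = 0) : gg S 0 0 z' = 0 := by
  have hA := adj_of_star hD hS
  obtain ⟨v, hv⟩ : ∃ v, 0 + 1 + v = 2 * n := ⟨2 * n - 1, by omega⟩
  apply hD.duality.nondeg 0 0 (v + 1) (by omega)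
  intro y
  obtain ⟨x0, z, hx0, hx⟩ := h (S.star 0 (v + 1) 0 y)
  have hy : S.star 0 0 (v + 1) (S.star 0 (v + 1) 0 y) = y := hS.invol 0 (v + 1) 0 y (by omega)
  change D.pair 0 0 (v + 1) (gg S 0 0 z') y = 0
  rw [← hy, hx, map_add, map_add]
  have e1 := hA.a3 0 0 v z' x0 (by omega)
  rw [hx0, map_zero, map_zero] at e1
  have e2 := hA.a1 0 0 v (gg S 0 0 z') z (by omega)
  rw [h0, map_zero, LinearMap.zero_apply] at e2
  rw [e1, ← e2, add_zero]

/-- degree zero -/
lemma bijE2_zero (hD : IsReduction D n) (hS : S.IsStar n) (hn : 1 ≤ n)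
    (h : ∀ x : D.V 0 0, ∃ x0 z, D.res 0 0 x0 = 0 ∧ x = x0 + gg S 0 0 z) (p : ℤ) :
    D.BijectiveOnE2 p 0 p (0 + 2 * n) (powCh n) := by
  obtain ⟨v, hv⟩ : ∃ v, 0 + 2 * n = v + 1 := ⟨2 * n - 1, by omega⟩
  have hpos : ∀ a (x : D.V a 0), 1 ≤ a → x = 0 := fun a x ha => hD.bounded.neg a 0 x (by omega)
  have hpos' : ∀ a (x : D.V a (0 + 2 * n)), 1 ≤ a → x = 0 :=
    fun a x ha => hD.top a _ x (by omega)
  have hfac : (n.factorial : E) ≠ 0 := by exact_mod_cast n.factorial_ne_zero
  -- the star operator of `[Λ, γ] z`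
  have hst : ∀ z : D.V 1 1, D.lp 0 0 n (gg S 0 0 z) =
      (n.factorial : E) • S.star 0 0 (0 + 2 * n) (gg S 0 0 z) := fun z => (star_zero hD hS _).symm
  have hgam : ∀ z : D.V 1 1, ∀ v, 0 + 1 + v = 2 * n → S.star 0 0 (v + 1) (gg S 0 0 z) =
      D.gys 0 v (S.star 1 1 v z) := by
    intro z v hv
    have e1 := star_gys hD hS 0 v 0 (S.star 1 1 v z) (by omega)
    have e2 : S.star 1 v 1 (S.star 1 1 v z) = z := hS.invol 1 1 v z (by omega)
    rw [e2] at e1
    rw [← e1]
    exact hS.invol 0 (v + 1) 0 _ (by omega)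
  have hgam' : ∀ v (y : D.V 1 v), 0 + 1 + v = 2 * n →
      D.gys 0 v y = S.star 0 0 (v + 1) (gg S 0 0 (S.star 1 v 1 y)) := by
    intro v y hv
    rw [hgam _ v hv]
    have e2 : S.star 1 1 v (S.star 1 v 1 y) = y := hS.invol 1 v 1 y (by omega)
    rw [e2]
  refine ⟨fun x hx => Z_pow hD x hx n, fun x hx => B_pow hD x hx n, ?_, ?_⟩
  · intro x hx hx'
    have hx0 : x = 0 := by
      rw [SetLike.mem_coe, mem_Z] at hx
      funext a
      by_cases ha : 1 ≤ a
      · exact hpos a _ ha
      · obtain rfl : a = 0 := by omega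
        by_cases hp : InCol p 0
        · obtain rfl : p = 0 := by
            have := hp.1
            omega
          have h1 : D.res 0 0 (x 0) = 0 := by
            have h2 := hx.2 1 ⟨by norm_num, 0, by norm_num⟩
            have h3 : x 2 = 0 := hpos 2 _ (by norm_num)
            change D.res 0 0 (x 0) + D.gys 1 0 (x 2) = 0 at h2
            rw [h3, map_zero, add_zero] at h2
            exact h2
          -- membership in the coboundaries
          have h5 : ∀ m, m = v + 1 → ∀ c : D.Ch m, c ∈ D.B 0 m → ∃ y : D.V 1 v,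
              ∀ s : D.V 0 0, (n.factorial : E) • S.star 0 0 m s = c 0 →
              (n.factorial : E) • S.star 0 0 (v + 1) s = D.gys 0 v y := by
            rintro _ rfl c hc
            rw [mem_B] at hc
            obtain ⟨y, -, h6, -⟩ := hc
            refine ⟨y 1, fun s hs => ?_⟩
            rw [hs, h6 0 ⟨by norm_num, 0, by norm_num⟩]
            rfl
          obtain ⟨y, hy⟩ := h5 _ hv _ hx'
          have h6 := hy (x 0) (star_zero hD hS (x 0))
          rw [hgam' v y (by omega), ← map_smul] at h6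
          have h7 : (n.factorial : E) • x 0 = gg S 0 0 (S.star 1 v 1 y) := by
            have i1 : S.star 0 (v + 1) 0 (S.star 0 0 (v + 1) ((n.factorial : E) • x 0)) =
              (n.factorial : E) • x 0 := hS.invol 0 0 (v + 1) _ (by omega)
            have i2 : S.star 0 (v + 1) 0 (S.star 0 0 (v + 1) (gg S 0 0 (S.star 1 v 1 y))) =
              gg S 0 0 (S.star 1 v 1 y) := hS.invol 0 0 (v + 1) _ (by omega)
            rw [← i1, h6, i2]
          have h8 : gg S 0 0 (S.star 1 v 1 y) = 0 := by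
            apply zero_inter hD hS hn h
            rw [← h7, map_smul, h1, smul_zero]
          rw [h8] at h7
          exact (smul_eq_zero.1 h7).resolve_left hfac
        · exact hx.1 0 hp
    rw [hx0]
    exact Submodule.zero_mem _
  · intro y hy
    by_cases hp : InCol p 0
    · obtain rfl : p = 0 := by
        have := hp.1
        omega
      obtain ⟨t, ht⟩ := (hD.lefschetz.bij 0 0 n (by omega)).2 (y 0)
      obtain ⟨x0, z, hx0, hx⟩ := h t
      refine ⟨Pi.single 0 x0, ?_, ?_⟩
      · rw [SetLike.mem_coe, mem_Z]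
        refine ⟨fun a ha => ?_, fun a ha => ?_⟩
        · apply Pi.single_eq_of_ne
          rintro rfl
          exact ha hp
        · cases a with
          | zero =>
            have e : (Pi.single 0 x0 : D.Ch 0) 1 = 0 := hpos 1 _ le_rfl
            change D.gys 0 0 ((Pi.single 0 x0 : D.Ch 0) 1) = 0
            rw [e, map_zero]
          | succ b =>
            change D.res b 0 ((Pi.single 0 x0 : D.Ch 0) b) +
              D.gys (b + 1) 0 ((Pi.single 0 x0 : D.Ch 0) (b + 2)) = 0
            have e : (Pi.single 0 x0 : D.Ch 0) (b + 2) = 0 := hpos (b + 2) _ (by omega)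
            rw [e, map_zero, add_zero]
            by_cases hb : b = 0
            · subst hb
              rw [Pi.single_eq_same]
              exact hx0
            · have e' : (Pi.single 0 x0 : D.Ch 0) b = 0 := hpos b _ (by omega)
              rw [e', map_zero]
      · have h5 : ∀ m, m = v + 1 → ∀ c : D.Ch m, (∀ a, 1 ≤ a → c a = 0) →
            c 0 = (n.factorial : E) • S.star 0 0 m (gg S 0 0 z) → c ∈ D.B 0 m := by
          rintro _ rfl c hc hc0
          rw [mem_B]
          rw [hgam z v (by omega)] at hc0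
          refine ⟨Pi.single 1 ((n.factorial : E) • S.star 1 1 v z), fun a ha => ?_, fun a ha => ?_,
            fun a ha => ?_⟩
          · apply Pi.single_eq_of_ne
            rintro rfl
            exact ha ⟨by norm_num, 1, by norm_num⟩
          · cases a with
            | zero =>
              change c 0 = D.gys 0 v ((Pi.single 1 ((n.factorial : E) • S.star 1 1 v z) : D.Ch v) 1)
              rw [Pi.single_eq_same, hc0, map_smul]
            | succ b =>
              rw [hc (b + 1) (by omega)]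
              symm
              have : ∀ x : D.V (b + 1) (v + 1), x = 0 := fun x => hD.top _ _ x (by omega)
              exact this _
          · by_cases ha1 : 1 ≤ a
            · exact hc a ha1
            · obtain rfl : a = 0 := by omega
              exact absurd hp ha
        refine h5 _ hv _ (fun a ha => hpos' a _ ha) ?_
        have h6 : y 0 = D.lp 0 0 n x0 + D.lp 0 0 n (gg S 0 0 z) := by
          rw [← map_add, ← hx]
          exact ht.symm
        change y 0 - D.lp 0 0 n ((Pi.single 0 x0 : D.Ch 0) 0) = _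
        rw [Pi.single_eq_same, h6, add_sub_cancel_left, hst]
    · have hy0 : y = 0 := by
        rw [SetLike.mem_coe, mem_Z] at hy
        funext a
        by_cases ha : 1 ≤ a
        · exact hpos' a _ ha
        · obtain rfl : a = 0 := by omega
          exact hy.1 0 hp
      refine ⟨0, Submodule.zero_mem _, ?_⟩
      have : powCh n (0 : D.Ch 0) = 0 := by
        funext a
        exact map_zero (D.lp a 0 n)
      rw [hy0, this, sub_zero]
      exact Submodule.zero_mem _

/-- **Hard Lefschetz for the generic fibre, from positivity.** -/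
theorem main2 {J : Type} (hD : IsReduction D n) (hS : S.IsStar n)
    (X : J → Src D) (hG : ∀ j, (X j).IsGeometric S) (hP : ∀ j, (X j).IsPositive S n)
    (N : Subs D) (hN : IsInert S n N)
    (hgen : ∀ a, GeneratedAt X N a) : D.GenericLefschetz n := by
  have hH : IsHarmonic S n := by
    refine ⟨fun p w v hv => ?_⟩
    exact le_Kp hD.complex hD.bounded (adj_of_star hD hS) X hG hP N
      (fun a x => inert1 hD hS hN a w x (by omega)) (fun a x => inert2 hD hS hN a w x (by omega))
      (fun a _ => hgen a) hv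
  intro p w r hwr
  by_cases hw : 1 ≤ w
  · exact bijE2 hD hS hH p w r hw hwr
  · obtain rfl : w = 0 := by omega
    obtain rfl : r = n := by omega
    by_cases hr : 1 ≤ r
    · exact bijE2_zero hD hS hr (fun x => dec0' hD hS X hG hP N hN (hgen 0) hr x) p
    · obtain rfl : r = 0 := by omega
      exact ⟨fun x hx => hx, fun x hx => hx, fun x _ hx => hx, fun y hy => ⟨y, hy, by
        change y - y ∈ _
        rw [sub_self]
        exact Submodule.zero_mem _⟩⟩

end Pool.Agent.W552.Wl
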