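import Mathlib
import Pool.Agent.W552.WdDefs
import Pool.Agent.W552.WlHl

/-!
# Classes generated by divisors
-/

set_option autoImplicit false

namespace Pool.Agent.W552.Wd

open Module Pool.Agent.W522.M Pool.Agent.W552.Wl

variable {E : Type} [Field E] [CharZero E] {D : Strata E} {S : Stars D} {n : ℕ} {A : D.Cycles}

/-- primitive algebraic classes -/
def Pr (S : Stars D) (A : D.Cycles) (a u : ℕ) : AddSubgroup (Tt D a) where
  carrier := {x | x ∈ Gr D a u ∧ A.Alg (x u) ∧ mT S a x = 0}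
  zero_mem' := ⟨Submodule.zero_mem _, (A.C a u).zero_mem, map_zero _⟩
  add_mem' := fun {x y} hx hy => ⟨Submodule.add_mem _ hx.1 hy.1, (A.C a u).add_mem hx.2.1 hy.2.1,
    by rw [map_add, hx.2.2, hy.2.2, add_zero]⟩
  neg_mem' := fun {x} hx => ⟨Submodule.neg_mem _ hx.1, (A.C a u).neg_mem hx.2.1,
    by rw [map_neg, hx.2.2, neg_zero]⟩

lemma Pr_smul {a u : ℕ} {x : Tt D a} (hx : x ∈ Pr S A a u) (q : ℚ) : (q : E) • x ∈ Pr S A a u :=
  ⟨Submodule.smul_mem _ _ hx.1, A.smul a u q _ hx.2.1, by rw [map_smul, hx.2.2, smul_zero]⟩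

/-- `L^(j-1)`, and `0` for `j = 0` -/
def lq (D : Strata E) (a : ℕ) : ℕ → Tt D a →ₗ[E] Tt D a
  | 0 => 0
  | j + 1 => lT D a ^ j

/-- the classes `L^j c + L^(j-1) d` -/
def Rj (S : Stars D) (A : D.Cycles) (a j : ℕ) : AddSubgroup (Tt D a) where
  carrier := {x | ∃ c ∈ Pr S A a a, ∃ d ∈ Pr S A a (a + 2), x = (lT D a ^ j) c + lq D a j d}
  zero_mem' := ⟨0, (Pr S A a a).zero_mem, 0, (Pr S A a (a + 2)).zero_mem, by
    rw [map_zero, map_zero, add_zero]⟩
  add_mem' := by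
    rintro _ _ ⟨c, hc, d, hd, rfl⟩ ⟨c', hc', d', hd', rfl⟩
    refine ⟨c + c', (Pr S A a a).add_mem hc hc', d + d', (Pr S A a (a + 2)).add_mem hd hd', ?_⟩
    rw [map_add, map_add]
    abel
  neg_mem' := by
    rintro _ ⟨c, hc, d, hd, rfl⟩
    refine ⟨-c, (Pr S A a a).neg_mem hc, -d, (Pr S A a (a + 2)).neg_mem hd, ?_⟩
    rw [map_neg, map_neg]
    abel

lemma Rj_smul {a j : ℕ} {x : Tt D a} (hx : x ∈ Rj S A a j) (q : ℚ) : (q : E) • x ∈ Rj S A a j := by
  obtain ⟨c, hc, d, hd, rfl⟩ := hx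
  exact ⟨_, Pr_smul hc q, _, Pr_smul hd q, by rw [map_smul, map_smul, smul_add]⟩

lemma Rj_l {a j : ℕ} {x : Tt D a} (hx : x ∈ Rj S A a j) : lT D a x ∈ Rj S A a (j + 1) := by
  obtain ⟨c, hc, d, hd, rfl⟩ := hx
  cases j with
  | zero =>
    refine ⟨c, hc, 0, (Pr S A a (a + 2)).zero_mem, ?_⟩
    change lT D a (c + 0) = _
    rw [add_zero, map_zero, add_zero, zero_add, pow_one]
  | succ j =>
    refine ⟨c, hc, d, hd, ?_⟩
    change lT D a ((lT D a ^ (j + 1)) c + (lT D a ^ j) d) = (lT D a ^ (j + 1 + 1)) c +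
      (lT D a ^ (j + 1)) d
    rw [map_add, pow_succ' (lT D a) (j + 1), pow_succ' (lT D a) j]
    rfl

lemma alg_pow (hA : A.IsGeometric n) {a w : ℕ} {x : Tt D a} (hx : A.Alg (x w)) (j : ℕ) :
    ∀ v, v = w + 2 * j → A.Alg ((lT D a ^ j) x v) := by
  rintro _ rfl
  rw [lT_pow]
  induction j with
  | zero => exact hx
  | succ j ih => exact hA.stable.lef _ _ _ ih

lemma Rj_gr {a j : ℕ} {x : Tt D a} (hx : x ∈ Rj S A a j) : x ∈ Gr D a (a + 2 * j) := by
  obtain ⟨c, hc, d, hd, rfl⟩ := hx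
  refine Submodule.add_mem _ (lT_pow_mem hc.1 j) ?_
  cases j with
  | zero => exact Submodule.zero_mem _
  | succ j =>
    have h1 := lT_pow_mem hd.1 j
    have e : a + 2 + 2 * j = a + 2 * (j + 1) := by ring
    rw [e] at h1
    exact h1

lemma Rj_alg (hA : A.IsGeometric n) {a j : ℕ} {x : Tt D a} (hx : x ∈ Rj S A a j) :
    A.Alg (x (a + 2 * j)) := by
  obtain ⟨c, hc, d, hd, rfl⟩ := hx
  refine (A.C _ _).add_mem (alg_pow hA hc.2.1 j _ rfl) ?_
  cases j with
  | zero => exact (A.C _ _).zero_mem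
  | succ j => exact alg_pow hA hd.2.1 j _ (by ring)

/-- `Λ L^(k+1) p` -/
lemma m_pow (hD : IsReduction D n) (hS : S.IsStar n) {a u : ℕ} {x : Tt D a}
    (hx : x ∈ Pr S A a u) (k : ℕ) : mT S a ((lT D a ^ (k + 1)) x) =
      ((((k : ℚ) + 1) * ((n : ℚ) - u - k) : ℚ) : E) • (lT D a ^ k) x := by
  rw [(hl hD hS a).comm0 hx.1 hx.2.2 k]
  push_cast
  rfl

lemma Rj_m (hD : IsReduction D n) (hS : S.IsStar n) {a j : ℕ} {x : Tt D a}
    (hx : x ∈ Rj S A a (j + 1)) : mT S a x ∈ Rj S A a j := by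
  obtain ⟨c, hc, d, hd, rfl⟩ := hx
  obtain ⟨q, hq⟩ : ∃ q : ℚ, mT S a ((lT D a ^ (j + 1)) c) = (q : E) • (lT D a ^ j) c :=
    ⟨_, m_pow hD hS hc j⟩
  rw [map_add, hq]
  cases j with
  | zero =>
    refine ⟨(q : E) • c, Pr_smul hc q, 0, (Pr S A a (a + 2)).zero_mem, ?_⟩
    change _ + mT S a d = _ + (0 : Tt D a)
    rw [hd.2.2, map_smul]
  | succ j =>
    obtain ⟨q', hq'⟩ : ∃ q : ℚ, mT S a ((lT D a ^ (j + 1)) d) = (q : E) • (lT D a ^ j) d :=
      ⟨_, m_pow hD hS hd j⟩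
    refine ⟨(q : E) • c, Pr_smul hc q, (q' : E) • d, Pr_smul hd q', ?_⟩
    change _ + mT S a ((lT D a ^ (j + 1)) d) = _ + (lT D a ^ j) ((q' : E) • d)
    rw [hq', map_smul, map_smul]

lemma Rj_m0 {a : ℕ} {x : Tt D a} (hx : x ∈ Rj S A a 0) : mT S a x = 0 := by
  obtain ⟨c, hc, d, hd, rfl⟩ := hx
  change mT S a (c + 0) = 0
  rw [add_zero, hc.2.2]

/-- `* L^j p` -/
lemma s_pow (hD : IsReduction D n) (hS : S.IsStar n) {a u r : ℕ} {x : Tt D a}
    (hx : x ∈ Pr S A a u) (hr : u + r = n) (j : ℕ) : ∀ i, j + i = r → ∃ q : ℚ, 0 < q ∧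
      sT S n a ((lT D a ^ j) x) = (sgn E a u * (q : E)) • (lT D a ^ i) x := by
  induction j with
  | zero =>
    intro i hi
    obtain rfl : i = r := by omega
    have hf : ((i.factorial : ℕ) : E) ≠ 0 := by exact_mod_cast i.factorial_ne_zero
    refine ⟨(i.factorial : ℚ)⁻¹, by positivity, ?_⟩
    have h1 := sT_prim hD hS a u i x hr hx.1 ((hl hD hS a).prim hr hx.1 hx.2.2)
    change sT S n a x = _
    have h2 : sT S n a x = ((i.factorial : E))⁻¹ • ((i.factorial : E) • sT S n a x) := by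
      rw [smul_smul, inv_mul_cancel₀ hf, one_smul]
    rw [h2, h1, smul_smul]
    push_cast
    rw [mul_comm]
  | succ j ih =>
    intro i hi
    obtain ⟨q, hq, h⟩ := ih (i + 1) (by omega)
    refine ⟨q * (((i : ℚ) + 1) * ((n : ℚ) - u - i)), ?_, ?_⟩
    · have h1 : (n : ℚ) - u - i = (j : ℚ) + 1 := by
        have : (n : ℚ) = u + (j + 1 + i) := by
          have h2 : n = u + (j + 1 + i) := by omega
          exact_mod_cast h2
        rw [this]
        ring
      rw [h1]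
      positivity
    · have h1 : (lT D a ^ (j + 1)) x = lT D a ((lT D a ^ j) x) := by
        rw [pow_succ', Module.End.mul_apply]
      rw [h1, sT_l hD hS, h, map_smul, m_pow hD hS hx i, smul_smul]
      congr 1
      push_cast
      ring

/-- primitive classes above the middle vanish -/
lemma Pr_top (hD : IsReduction D n) (hS : S.IsStar n) {a u : ℕ} {x : Tt D a}
    (hx : x ∈ Pr S A a u) (hu : n < u) : x = 0 := (hl hD hS a).neg hx.1 hx.2.2 hu

lemma pow_zero_of (hD : IsReduction D n) (hS : S.IsStar n) {a u r : ℕ} {x : Tt D a}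
    (hx : x ∈ Pr S A a u) (hr : u + r = n) {j : ℕ} (hj : r < j) : (lT D a ^ j) x = 0 := by
  obtain ⟨k, rfl⟩ : ∃ k, j = k + (r + 1) := ⟨j - (r + 1), by omega⟩
  rw [pow_add, Module.End.mul_apply, (hl hD hS a).prim hr hx.1 hx.2.2, map_zero]

/-- `*` preserves the classes `L^j c + L^(j-1) d` -/
lemma Rj_s (hD : IsReduction D n) (hS : S.IsStar n) {a j i : ℕ} {x : Tt D a}
    (hx : x ∈ Rj S A a j) (hij : a + j + i = n) : sT S n a x ∈ Rj S A a i := by
  obtain ⟨c, hc, d, hd, rfl⟩ := hx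
  obtain ⟨q, -, hq⟩ := s_pow hD hS hc (r := j + i) (by omega) j i rfl
  have s1 : sgn E a a = 1 := by unfold sgn; simp
  rw [s1, one_mul] at hq
  have s2 : sgn E a (a + 2) = -1 := by
    unfold sgn
    rw [Nat.add_sub_cancel_left]
    norm_num
  have key : ∃ d' ∈ Pr S A a (a + 2), sT S n a (lq D a j d) = lq D a i d' := by
    cases j with
    | zero =>
      refine ⟨0, (Pr S A a (a + 2)).zero_mem, ?_⟩
      change sT S n a 0 = _
      rw [map_zero, map_zero]
    | succ j =>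
      by_cases h2 : n < a + 2
      · refine ⟨0, (Pr S A a (a + 2)).zero_mem, ?_⟩
        rw [Pr_top hD hS hd h2, map_zero, map_zero, map_zero]
      · obtain ⟨r, hr⟩ : ∃ r, a + 2 + r = n := ⟨n - (a + 2), by omega⟩
        cases i with
        | zero =>
          refine ⟨0, (Pr S A a (a + 2)).zero_mem, ?_⟩
          change sT S n a ((lT D a ^ j) d) = 0
          rw [pow_zero_of hD hS hd hr (by omega), map_zero]
        | succ i =>
          obtain ⟨q', -, hq'⟩ := s_pow hD hS hd hr j i (by omega)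
          refine ⟨((-q' : ℚ) : E) • d, Pr_smul hd _, ?_⟩
          change sT S n a ((lT D a ^ j) d) = (lT D a ^ i) _
          rw [hq', s2, map_smul]
          congr 1
          push_cast
          ring
  obtain ⟨d', hd', hdd⟩ := key
  exact ⟨_, Pr_smul hc q, d', hd', by rw [map_add, hq, hdd, map_smul]⟩

end Pool.Agent.W552.Wd
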