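import Mathlib
import Pool.Agent.W552.WdCore

/-!
# Positivity for classes generated by divisors
-/

set_option autoImplicit false

namespace Pool.Agent.W552.Wd

open Module Pool.Agent.W522.M Pool.Agent.W552.Wl

variable {E : Type} [Field E] [CharZero E] {D : Strata E} {S : Stars D} {n : ℕ} {A : D.Cycles}

/-- the pairing on total spaces -/
def Bp (D : Strata E) (a w v : ℕ) (x y : Tt D a) : E := D.pair a w v (x w) (y v)

lemma Bp_add_left (a w v : ℕ) (x x' y : Tt D a) :
    Bp D a w v (x + x') y = Bp D a w v x y + Bp D a w v x' y := by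
  unfold Bp
  rw [Pi.add_apply, map_add, LinearMap.add_apply]

lemma Bp_add_right (a w v : ℕ) (x y y' : Tt D a) :
    Bp D a w v x (y + y') = Bp D a w v x y + Bp D a w v x y' := by
  unfold Bp
  rw [Pi.add_apply, map_add]

lemma Bp_smul_right (a w v : ℕ) (c : E) (x y : Tt D a) :
    Bp D a w v x (c • y) = c * Bp D a w v x y := by
  unfold Bp
  rw [Pi.smul_apply, map_smul, smul_eq_mul]

lemma Bp_zero_left (a w v : ℕ) (y : Tt D a) : Bp D a w v 0 y = 0 := by
  unfold Bp
  rw [Pi.zero_apply, map_zero, LinearMap.zero_apply]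

lemma Bp_zero_right (a w v : ℕ) (x : Tt D a) : Bp D a w v x 0 = 0 := by
  unfold Bp
  rw [Pi.zero_apply, map_zero]

lemma Bp_move (hD : IsReduction D n) {a : ℕ} (j : ℕ) : ∀ (w v w' v' : ℕ) (x y : Tt D a),
    w' = w + 2 * j → v' = v + 2 * j →
      Bp D a w' v ((lT D a ^ j) x) y = Bp D a w v' x ((lT D a ^ j) y) := by
  induction j with
  | zero =>
    rintro w v _ _ x y rfl rfl
    rfl
  | succ j ih =>
    intro w v w' v' x y hw hv
    obtain rfl : w' = w + 2 * j + 2 := by omega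
    have h1 : (lT D a ^ (j + 1)) x = lT D a ((lT D a ^ j) x) := by
      rw [pow_succ', Module.End.mul_apply]
    have h2 : (lT D a ^ (j + 1)) y = (lT D a ^ j) (lT D a y) := by
      rw [pow_succ, Module.End.mul_apply]
    rw [h1, h2, ← ih w (v + 2) (w + 2 * j) v' x (lT D a y) rfl (by omega)]
    exact hD.duality.lef_adj a (w + 2 * j) v ((lT D a ^ j) x (w + 2 * j)) (y v)

lemma gr_zero {a u : ℕ} {x : Tt D a} (hx : x ∈ Gr D a u) (h0 : x u = 0) : x = 0 := by
  funext v
  by_cases hv : v = u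
  · rw [hv, h0]; rfl
  · exact hx v hv

lemma posC (hA : A.IsGeometric n) {a i : ℕ} {c : Tt D a} (hc : c ∈ Pr S A a a) (hi : a + i = n) :
    ∃ r : ℚ, 0 ≤ r ∧ Bp D a a (a + 2 * i) c ((lT D a ^ i) c) = r ∧ (r = 0 → c = 0) := by
  obtain rfl : i = n - a := by omega
  have e : Bp D a a (a + 2 * (n - a)) c ((lT D a ^ (n - a)) c) = ip (c a) (pow (n - a) (c a)) := by
    unfold Bp
    rw [lT_pow]
    rfl
  rw [e]
  by_cases h0 : c a = 0
  · refine ⟨0, le_rfl, ?_, fun _ => gr_zero hc.1 h0⟩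
    rw [h0]
    change D.pair a a _ 0 _ = _
    rw [map_zero, LinearMap.zero_apply, Rat.cast_zero]
  · obtain ⟨r, hr, h⟩ := hA.components.pos a (by omega) (c a) hc.2.1 h0
    exact ⟨r, hr.le, h, fun h' => absurd h' hr.ne'⟩

lemma negD (hD : IsReduction D n) (hS : S.IsStar n) (hA : A.IsGeometric n) {a r : ℕ} {d : Tt D a}
    (hd : d ∈ Pr S A a (a + 2)) (hr : a + 2 + r = n) :
    ∃ q : ℚ, q ≤ 0 ∧ Bp D a (a + 2) (a + 2 + 2 * r) d ((lT D a ^ r) d) = q ∧ (q = 0 → d = 0) := by
  obtain rfl : r = n - a - 2 := by omega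
  have e : Bp D a (a + 2) (a + 2 + 2 * (n - a - 2)) d ((lT D a ^ (n - a - 2)) d) =
      ip (d (a + 2)) (pow (n - a - 2) (d (a + 2))) := by
    unfold Bp
    rw [lT_pow]
    rfl
  rw [e]
  by_cases h0 : d (a + 2) = 0
  · refine ⟨0, le_rfl, ?_, fun _ => gr_zero hd.1 h0⟩
    rw [h0]
    change D.pair a (a + 2) _ 0 _ = _
    rw [map_zero, LinearMap.zero_apply, Rat.cast_zero]
  · have h1 : Vanishes (pow (n - a - 1) (d (a + 2))) := by
      have h2 := lT_pow a (a + 2) d (n - a - 1)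
      have h3 : (lT D a ^ (n - a - 1)) d = 0 := by
        have e3 : n - a - 1 = n - a - 2 + 1 := by omega
        rw [e3]
        exact (hl hD hS a).prim hr hd.1 hd.2.2
      rw [h3] at h2
      exact h2.symm
    obtain ⟨q, hq, h⟩ := hA.hodge a (by omega) (d (a + 2)) hd.2.1 h1 h0
    exact ⟨q, hq.le, h, fun h' => absurd h' hq.ne⟩

/-- **Positivity.** -/
theorem Rj_pos (hD : IsReduction D n) (hS : S.IsStar n) (hA : A.IsGeometric n) {a j i : ℕ}
    {x : Tt D a} (hx : x ∈ Rj S A a j) (hij : a + j + i = n) :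
    ∃ r : ℚ, 0 ≤ r ∧ Bp D a (a + 2 * j) (a + 2 * i) x (sT S n a x) = r ∧ (r = 0 → x = 0) := by
  obtain ⟨c, hc, d, hd, rfl⟩ := hx
  obtain ⟨q, hq0, hq⟩ := s_pow hD hS hc (r := j + i) (by omega) j i rfl
  have s1 : sgn E a a = 1 := by unfold sgn; simp
  rw [s1, one_mul] at hq
  have s2 : sgn E a (a + 2) = -1 := by
    unfold sgn
    rw [Nat.add_sub_cancel_left]
    norm_num
  obtain ⟨rc, hrc, hrc1, hrc2⟩ := posC hA hc (i := j + i) (by omega)
  have hcc : Bp D a (a + 2 * j) (a + 2 * i) ((lT D a ^ j) c) ((lT D a ^ i) c) = rc := by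
    rw [Bp_move hD j a (a + 2 * i) (a + 2 * j) (a + 2 * (j + i)) c _ rfl (by omega),
      ← Module.End.mul_apply, ← pow_add, hrc1]
  -- the case `L^(j-1) d = 0`
  have easy : lq D a j d = 0 → ∃ r : ℚ, 0 ≤ r ∧ Bp D a (a + 2 * j) (a + 2 * i)
      ((lT D a ^ j) c + lq D a j d) (sT S n a ((lT D a ^ j) c + lq D a j d)) = r ∧
        (r = 0 → (lT D a ^ j) c + lq D a j d = 0) := by
    intro h0
    rw [h0, add_zero, hq, Bp_smul_right, hcc]
    refine ⟨q * rc, mul_nonneg hq0.le hrc, by push_cast; rfl, fun h => ?_⟩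
    rcases mul_eq_zero.1 h with h | h
    · exact absurd h hq0.ne'
    · rw [hrc2 h, map_zero]
  cases j with
  | zero => exact easy rfl
  | succ k =>
    by_cases h2 : n < a + 2
    · apply easy
      rw [Pr_top hD hS hd h2, map_zero]
    · obtain ⟨r, hr⟩ : ∃ r, a + 2 + r = n := ⟨n - (a + 2), by omega⟩
      cases i with
      | zero => exact easy (pow_zero_of hD hS hd hr (by omega))
      | succ i =>
        obtain ⟨q', hq0', hq'⟩ := s_pow hD hS hd hr k i (by omega)
        rw [s2] at hq'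
        obtain ⟨rd, hrd, hrd1, hrd2⟩ := negD hD hS hA hd hr
        have hdd : Bp D a (a + 2 * (k + 1)) (a + 2 * (i + 1)) ((lT D a ^ k) d)
            ((lT D a ^ i) d) = rd := by
          have e : r = k + i := by omega
          rw [Bp_move hD k (a + 2) (a + 2 * (i + 1)) (a + 2 * (k + 1)) (a + 2 + 2 * r) d _
            (by ring) (by omega), ← Module.End.mul_apply, ← pow_add, ← e, hrd1]
        have hcd : Bp D a (a + 2 * (k + 1)) (a + 2 * (i + 1)) ((lT D a ^ (k + 1)) c)
            ((lT D a ^ i) d) = 0 := by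
          rw [Bp_move hD (k + 1) a (a + 2 * (i + 1)) (a + 2 * (k + 1))
            (a + 2 * (i + 1) + 2 * (k + 1)) c _ rfl rfl, ← Module.End.mul_apply, ← pow_add,
            pow_zero_of hD hS hd hr (by omega), Bp_zero_right]
        have hdc : Bp D a (a + 2 * (k + 1)) (a + 2 * (i + 1)) ((lT D a ^ k) d)
            ((lT D a ^ (i + 1)) c) = 0 := by
          rw [← Bp_move hD (i + 1) (a + 2 * (k + 1)) a (a + 2 * (k + 1) + 2 * (i + 1))
            (a + 2 * (i + 1)) _ c rfl rfl, ← Module.End.mul_apply, ← pow_add,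
            pow_zero_of hD hS hd hr (by omega), Bp_zero_left]
        change ∃ r : ℚ, 0 ≤ r ∧ Bp D a (a + 2 * (k + 1)) (a + 2 * (i + 1))
          ((lT D a ^ (k + 1)) c + (lT D a ^ k) d) (sT S n a ((lT D a ^ (k + 1)) c +
          (lT D a ^ k) d)) = r ∧ (r = 0 → (lT D a ^ (k + 1)) c + (lT D a ^ k) d = 0)
        rw [map_add, hq, hq', Bp_add_left, Bp_add_right, Bp_add_right, Bp_smul_right,
          Bp_smul_right, Bp_smul_right, Bp_smul_right, hcc, hcd, hdc, hdd]
        refine ⟨q * rc + -(q' * rd), ?_, by push_cast; ring, fun h => ?_⟩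
        · have h1 := mul_nonneg hq0.le hrc
          have h3 := mul_nonneg hq0'.le (neg_nonneg.2 hrd)
          linarith
        · have h1 := mul_nonneg hq0.le hrc
          have h3 := mul_nonneg hq0'.le (neg_nonneg.2 hrd)
          have h4 : q * rc = 0 := by linarith
          have h5 : q' * rd = 0 := by linarith
          rw [hrc2 ((mul_eq_zero.1 h4).resolve_left hq0.ne'),
            hrd2 ((mul_eq_zero.1 h5).resolve_left hq0'.ne'), map_zero, map_zero, add_zero]

end Pool.Agent.W552.Wd
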