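import Mathlib
import Pool.Agent.W552.WdPos

/-!
# Classes generated by divisors in `V a w`
-/

set_option autoImplicit false

namespace Pool.Agent.W552.Wd

open Module Pool.Agent.W522.M Pool.Agent.W552.Wl

/-- rational functionals are given by classes -/
theorem riesz' {E V W : Type*} [Field E] [CharZero E] [AddCommGroup V] [Module E V]
    [FiniteDimensional E V] [AddCommGroup W] [Module E W] (p : V →ₗ[E] W →ₗ[E] E)
    (L : V →ₗ[E] W) (C : AddSubgroup V) (hsm : ∀ q : ℚ, ∀ x ∈ C, (q : E) • x ∈ C)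
    (hrat : ∀ x ∈ C, ∀ y ∈ C, ∃ r : ℚ, p x (L y) = r) (hpos : ∀ x ∈ C, p x (L x) = 0 → x = 0)
    (y : W) (hy : ∀ x ∈ C, ∃ r : ℚ, p x y = r) : ∃ t ∈ C, ∀ x ∈ C, p x y = p x (L t) := by
  let _ : Module ℚ V := Module.compHom V (algebraMap ℚ E)
  let C' : Submodule ℚ V :=
    { carrier := {x | x ∈ C}
      zero_mem' := C.zero_mem
      add_mem' := fun hx hy => C.add_mem hx hy
      smul_mem' := fun q x hx => hsm q x hx }
  have := fin_of_rat (p.compl₂ L) C' hrat hpos
  exact riesz_of_pos p L C' hrat hpos y hy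

variable {E : Type} [Field E] [CharZero E] {D : Strata E} {S : Stars D} {n : ℕ} {A : D.Cycles}

/-- the classes generated by divisors, in total spaces -/
def RW (S : Stars D) (A : D.Cycles) (a w : ℕ) : AddSubgroup (Tt D a) where
  carrier := {x | x = 0 ∨ ∃ j, w = a + 2 * j ∧ x ∈ Rj S A a j}
  zero_mem' := Or.inl rfl
  add_mem' := by
    rintro x y (rfl | ⟨j, h1, h2⟩) hy
    · rwa [zero_add]
    · rcases hy with rfl | ⟨j', h1', h2'⟩
      · rw [add_zero]; exact Or.inr ⟨j, h1, h2⟩
      · obtain rfl : j' = j := by omega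
        exact Or.inr ⟨j', h1, (Rj S A a j').add_mem h2 h2'⟩
  neg_mem' := by
    rintro x (rfl | ⟨j, h1, h2⟩)
    · rw [neg_zero]; exact Or.inl rfl
    · exact Or.inr ⟨j, h1, (Rj S A a j).neg_mem h2⟩

lemma RW_smul {a w : ℕ} {x : Tt D a} (hx : x ∈ RW S A a w) (q : ℚ) :
    (q : E) • x ∈ RW S A a w := by
  rcases hx with rfl | ⟨j, h1, h2⟩
  · rw [smul_zero]; exact Or.inl rfl
  · exact Or.inr ⟨j, h1, Rj_smul h2 q⟩

lemma RW_l {a w : ℕ} {x : Tt D a} (hx : x ∈ RW S A a w) : lT D a x ∈ RW S A a (w + 2) := by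
  rcases hx with rfl | ⟨j, h1, h2⟩
  · rw [map_zero]; exact Or.inl rfl
  · exact Or.inr ⟨j + 1, by omega, Rj_l h2⟩

lemma RW_pow {a w : ℕ} {x : Tt D a} (hx : x ∈ RW S A a w) (j : ℕ) :
    ∀ v, v = w + 2 * j → (lT D a ^ j) x ∈ RW S A a v := by
  induction j with
  | zero => rintro _ rfl; exact hx
  | succ j ih =>
    rintro _ rfl
    rw [pow_succ', Module.End.mul_apply]
    exact RW_l (ih _ rfl)

lemma RW_m (hD : IsReduction D n) (hS : S.IsStar n) {a w : ℕ} {x : Tt D a}
    (hx : x ∈ RW S A a (w + 2)) : mT S a x ∈ RW S A a w := by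
  rcases hx with rfl | ⟨j, h1, h2⟩
  · rw [map_zero]; exact Or.inl rfl
  · cases j with
    | zero => rw [Rj_m0 h2]; exact Or.inl rfl
    | succ j => exact Or.inr ⟨j, by omega, Rj_m hD hS h2⟩

lemma RW_gr {a w : ℕ} {x : Tt D a} (hx : x ∈ RW S A a w) : x ∈ Gr D a w := by
  rcases hx with rfl | ⟨j, rfl, h2⟩
  · exact Submodule.zero_mem _
  · exact Rj_gr h2

lemma RW_alg (hA : A.IsGeometric n) {a w : ℕ} {x : Tt D a} (hx : x ∈ RW S A a w) :
    A.Alg (x w) := by
  rcases hx with rfl | ⟨j, rfl, h2⟩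
  · exact (A.C _ _).zero_mem
  · exact Rj_alg hA h2

lemma RW_top (hD : IsReduction D n) {a w : ℕ} {x : Tt D a} (hx : x ∈ RW S A a w)
    (h : 2 * n < w + a) : x = 0 := gr_zero (RW_gr hx) (hD.top a w _ h)

lemma RW_s (hD : IsReduction D n) (hS : S.IsStar n) {a w v : ℕ} {x : Tt D a}
    (hx : x ∈ RW S A a w) (hwv : w + v = 2 * n) : sT S n a x ∈ RW S A a v := by
  by_cases h : 2 * n < w + a
  · rw [RW_top hD hx h, map_zero]; exact Or.inl rfl
  · rcases hx with rfl | ⟨j, rfl, h2⟩
    · rw [map_zero]; exact Or.inl rfl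
    · exact Or.inr ⟨n - a - j, by omega, Rj_s hD hS h2 (by omega)⟩

lemma RW_pos (hD : IsReduction D n) (hS : S.IsStar n) (hA : A.IsGeometric n) {a w v : ℕ}
    {x : Tt D a} (hx : x ∈ RW S A a w) (hwv : w + v = 2 * n) :
    ∃ r : ℚ, 0 ≤ r ∧ Bp D a w v x (sT S n a x) = r ∧ (r = 0 → x = 0) := by
  by_cases h : 2 * n < w + a
  · rw [RW_top hD hx h]
    exact ⟨0, le_rfl, by rw [Bp_zero_left, Rat.cast_zero], fun _ => rfl⟩
  · rcases hx with rfl | ⟨j, rfl, h2⟩
    · exact ⟨0, le_rfl, by rw [Bp_zero_left, Rat.cast_zero], fun _ => rfl⟩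
    · obtain ⟨i, hi⟩ : ∃ i, a + j + i = n := ⟨n - a - j, by omega⟩
      obtain rfl : v = a + 2 * i := by omega
      exact Rj_pos hD hS hA h2 hi

/-! ### Elements of `V a w` -/

lemma single_gr {a w : ℕ} (y : D.V a w) : (Pi.single w y : Tt D a) ∈ Gr D a w :=
  fun _ hv => Pi.single_eq_of_ne hv _

lemma s_single (hD : IsReduction D n) {a w v : ℕ} (hwv : w + v = 2 * n) (y : D.V a w) :
    sT S n a (Pi.single w y) = Pi.single v (S.star a w v y) := by
  funext u
  by_cases hu : u = v
  · subst hu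
    rw [Pi.single_eq_same]
    have e2 : ∀ t, t = w → S.star a t u ((Pi.single w y : Tt D a) t) = S.star a w u y := by
      rintro _ rfl
      rw [Pi.single_eq_same]
    exact e2 _ (by omega)
  · rw [sT_mem hD a w v _ hwv (single_gr y) u hu, Pi.single_eq_of_ne hu]

lemma m_single {a w : ℕ} (y : D.V a (w + 2)) :
    mT S a (Pi.single (w + 2) y) = Pi.single w (S.low a w y) := by
  funext u
  by_cases hu : u = w
  · subst hu
    rw [Pi.single_eq_same]
    change S.low a u ((Pi.single (u + 2) y : Tt D a) (u + 2)) = _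
    rw [Pi.single_eq_same]
  · rw [Pi.single_eq_of_ne hu]
    change S.low a u ((Pi.single (w + 2) y : Tt D a) (u + 2)) = 0
    rw [Pi.single_eq_of_ne (by omega), map_zero]

lemma l_single {a w : ℕ} (y : D.V a w) :
    lT D a (Pi.single w y) = Pi.single (w + 2) (D.lef a w y) := by
  funext u
  match u with
  | 0 => rw [Pi.single_eq_of_ne (by omega)]; rfl
  | 1 => rw [Pi.single_eq_of_ne (by omega)]; rfl
  | u + 2 =>
    by_cases hu : u = w
    · subst hu
      rw [Pi.single_eq_same]
      change D.lef a u ((Pi.single u y : Tt D a) u) = _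
      rw [Pi.single_eq_same]
    · rw [Pi.single_eq_of_ne (by omega)]
      change D.lef a u ((Pi.single w y : Tt D a) u) = 0
      rw [Pi.single_eq_of_ne hu, map_zero]

lemma r_single {a w : ℕ} (y : D.V a w) :
    rT D a (Pi.single w y) = Pi.single (w + 1) (D.res a w y) := by
  funext u
  match u with
  | 0 => rw [Pi.single_eq_of_ne (by omega)]; rfl
  | u + 1 =>
    by_cases hu : u = w
    · subst hu
      rw [Pi.single_eq_same]
      change D.res a u ((Pi.single u y : Tt D a) u) = _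
      rw [Pi.single_eq_same]
    · rw [Pi.single_eq_of_ne (by omega)]
      change D.res a u ((Pi.single w y : Tt D a) u) = 0
      rw [Pi.single_eq_of_ne hu, map_zero]

lemma g_single {a w : ℕ} (y : D.V (a + 1) w) :
    gT D a (Pi.single w y) = Pi.single (w + 1) (D.gys a w y) := by
  funext u
  match u with
  | 0 => rw [Pi.single_eq_of_ne (by omega)]; rfl
  | u + 1 =>
    by_cases hu : u = w
    · subst hu
      rw [Pi.single_eq_same]
      change D.gys a u ((Pi.single u y : Tt D (a + 1)) u) = _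
      rw [Pi.single_eq_same]
    · rw [Pi.single_eq_of_ne (by omega)]
      change D.gys a u ((Pi.single w y : Tt D (a + 1)) u) = 0
      rw [Pi.single_eq_of_ne hu, map_zero]

lemma gr_single {a w : ℕ} {x : Tt D a} (hx : x ∈ Gr D a w) : x = Pi.single w (x w) := by
  funext u
  by_cases hu : u = w
  · subst hu
    rw [Pi.single_eq_same]
  · rw [Pi.single_eq_of_ne hu, hx u hu]

/-- classes generated by divisors in `V a w` -/
def RV (S : Stars D) (A : D.Cycles) (a w : ℕ) : AddSubgroup (D.V a w) where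
  carrier := {y | (Pi.single w y : Tt D a) ∈ RW S A a w}
  zero_mem' := by
    change (Pi.single w 0 : Tt D a) ∈ RW S A a w
    rw [Pi.single_zero]
    exact (RW S A a w).zero_mem
  add_mem' := fun {x y} hx hy => by
    change (Pi.single w (x + y) : Tt D a) ∈ RW S A a w
    rw [Pi.single_add]
    exact (RW S A a w).add_mem hx hy
  neg_mem' := fun {x} hx => by
    change (Pi.single w (-x) : Tt D a) ∈ RW S A a w
    rw [Pi.single_neg]
    exact (RW S A a w).neg_mem hx

lemma RV_smul {a w : ℕ} {y : D.V a w} (hy : y ∈ RV S A a w) (q : ℚ) :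
    (q : E) • y ∈ RV S A a w := by
  change (Pi.single w ((q : E) • y) : Tt D a) ∈ RW S A a w
  rw [Pi.single_smul]
  exact RW_smul hy q

lemma RV_alg (hA : A.IsGeometric n) {a w : ℕ} {y : D.V a w} (hy : y ∈ RV S A a w) :
    A.Alg y := by
  have h1 := RW_alg hA hy
  rwa [Pi.single_eq_same] at h1

lemma RV_lef {a w : ℕ} {y : D.V a w} (hy : y ∈ RV S A a w) : D.lef a w y ∈ RV S A a (w + 2) := by
  change (Pi.single (w + 2) (D.lef a w y) : Tt D a) ∈ RW S A a (w + 2)
  rw [← l_single]
  exact RW_l hy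

lemma RV_low (hD : IsReduction D n) (hS : S.IsStar n) {a w : ℕ} {y : D.V a (w + 2)}
    (hy : y ∈ RV S A a (w + 2)) : S.low a w y ∈ RV S A a w := by
  change (Pi.single w (S.low a w y) : Tt D a) ∈ RW S A a w
  rw [← m_single]
  exact RW_m hD hS hy

lemma RV_star (hD : IsReduction D n) (hS : S.IsStar n) {a w v : ℕ} {y : D.V a w}
    (hy : y ∈ RV S A a w) (hwv : w + v = 2 * n) : S.star a w v y ∈ RV S A a v := by
  change (Pi.single v (S.star a w v y) : Tt D a) ∈ RW S A a v
  rw [← s_single hD hwv]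
  exact RW_s hD hS hy hwv

lemma RV_pos (hD : IsReduction D n) (hS : S.IsStar n) (hA : A.IsGeometric n) {a w v : ℕ}
    {y : D.V a w} (hy : y ∈ RV S A a w) (hwv : w + v = 2 * n) :
    ∃ r : ℚ, 0 ≤ r ∧ D.pair a w v y (S.star a w v y) = r ∧ (r = 0 → y = 0) := by
  obtain ⟨r, h1, h2, h3⟩ := RW_pos hD hS hA hy hwv
  refine ⟨r, h1, ?_, fun h => ?_⟩
  · rw [s_single hD hwv] at h2
    unfold Bp at h2
    rwa [Pi.single_eq_same, Pi.single_eq_same] at h2
  · have h4 := congrFun (h3 h) w
    rwa [Pi.single_eq_same] at h4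

/-! ### Codimension zero and one -/

lemma m_bot (hD : IsReduction D n) {a : ℕ} {x : Tt D a} (hx : x ∈ Gr D a a) : mT S a x = 0 := by
  funext v
  change S.low a v (x (v + 2)) = 0
  by_cases hv : v + 2 = a
  · exact hD.bounded.neg a v _ (by omega)
  · rw [hx _ hv, map_zero]

lemma Pr_comp (hD : IsReduction D n) {a : ℕ} {x : Tt D a} (hx : x ∈ Gr D a a)
    (h : A.Alg (x a)) : x ∈ Pr S A a a := ⟨hx, h, m_bot hD hx⟩

lemma RW_comp (hD : IsReduction D n) {a : ℕ} {x : Tt D a} (hx : x ∈ Gr D a a)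
    (h : A.Alg (x a)) : x ∈ RW S A a a :=
  Or.inr ⟨0, by omega, x, Pr_comp hD hx h, 0, (Pr S A a (a + 2)).zero_mem, by
    change x = x + 0
    rw [add_zero]⟩

lemma pair_zero_of (hD : IsReduction D n) {a w v : ℕ} (hwv : w + v = 2 * n) (y : D.V a v)
    (h : ∀ x : D.V a w, D.pair a w v x y = 0) : y = 0 := by
  apply hD.duality.nondeg a v w (by omega)
  intro x
  rw [hD.duality.symm]
  have : ip x y = 0 := h x
  rw [this, mul_zero]

lemma RW_div (hD : IsReduction D n) (hS : S.IsStar n) (hA : A.IsGeometric n) {a : ℕ}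
    {x : Tt D a} (hx : x ∈ Gr D a (a + 2)) (h : A.Alg (x (a + 2))) : x ∈ RW S A a (a + 2) := by
  by_cases ha : n < a + 1
  · have : x = 0 := gr_zero hx (hD.top a _ _ (by omega))
    rw [this]
    exact Or.inl rfl
  · obtain ⟨k, hk⟩ : ∃ k, a + (k + 1) = n := ⟨n - a - 1, by omega⟩
    obtain ⟨y, hy⟩ : ∃ y, y = ((lT D a ^ k) x) (a + 2 * (k + 1)) := ⟨_, rfl⟩
    have hyA : A.Alg y := by
      rw [hy]
      exact alg_pow hA h k _ (by ring)
    have hpos : ∀ c ∈ A.C a a, D.pair a a (a + 2 * (k + 1)) c (D.lp a a (k + 1) c) = 0 → c = 0 := by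
      intro c hc h0
      obtain ⟨r, -, h1, h2⟩ := posC (S := S) hA (Pr_comp hD (single_gr c) (by
        rw [Pi.single_eq_same]
        exact hc)) (i := k + 1) hk
      have h3 : Bp D a a (a + 2 * (k + 1)) (Pi.single a c) ((lT D a ^ (k + 1)) (Pi.single a c)) =
          D.pair a a (a + 2 * (k + 1)) c (D.lp a a (k + 1) c) := by
        unfold Bp
        rw [lT_pow, Pi.single_eq_same]
      rw [h3, h0] at h1
      have h4 := congrFun (h2 (by exact_mod_cast h1.symm)) a
      rwa [Pi.single_eq_same] at h4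
    have hpw : ∀ c ∈ A.C a a, A.Alg (D.lp a a (k + 1) c) := by
      intro c hc
      have h1 := alg_pow hA (a := a) (w := a) (x := Pi.single a c) (by
        rw [Pi.single_eq_same]
        exact hc) (k + 1) _ rfl
      rwa [lT_pow, Pi.single_eq_same] at h1
    obtain ⟨t, ht, h1⟩ := riesz' (D.pair a a (a + 2 * (k + 1))) (D.lp a a (k + 1)) (A.C a a)
      (fun q x hx => A.smul a a q x hx)
      (fun c hc c' hc' => hA.rational a a _ (by omega) c _ hc (hpw c' hc')) hpos y
      (fun c hc => hA.rational a a _ (by omega) c y hc hyA)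
    have h2 : y = D.lp a a (k + 1) t := by
      rw [← sub_eq_zero]
      apply pair_zero_of hD (by omega : a + (a + 2 * (k + 1)) = 2 * n)
      intro c
      have hc : c ∈ A.span a a := by
        rw [hA.components.span a]
        exact Submodule.mem_top
      have h3 : A.span a a ≤ LinearMap.ker ((D.pair a a (a + 2 * (k + 1))).flip
          (y - D.lp a a (k + 1) t)) := by
        unfold Strata.Cycles.span
        rw [Submodule.span_le]
        intro c hc
        change D.pair a a _ c (y - D.lp a a (k + 1) t) = 0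
        rw [map_sub, h1 c hc, sub_self]
      exact h3 hc
    have htP : (Pi.single a t : Tt D a) ∈ Pr S A a a := Pr_comp hD (single_gr t) (by
      rw [Pi.single_eq_same]
      exact ht)
    have hlt : lT D a (Pi.single a t) ∈ Gr D a (a + 2) := lT_mem htP.1
    have hdG : x - lT D a (Pi.single a t) ∈ Gr D a (a + 2) := Submodule.sub_mem _ hx hlt
    have hlk : (lT D a ^ k) (x - lT D a (Pi.single a t)) = 0 := by
      have h4 := lT_pow_mem hdG k
      have e : a + 2 + 2 * k = a + 2 * (k + 1) := by ring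
      rw [e] at h4
      apply gr_zero h4
      rw [map_sub, ← Module.End.mul_apply, ← pow_succ, Pi.sub_apply, ← hy, lT_pow,
        Pi.single_eq_same, h2, sub_self]
    have hmd : mT S a (x - lT D a (Pi.single a t)) = 0 := by
      cases k with
      | zero =>
        have : x - lT D a (Pi.single a t) = 0 := hlk
        rw [this, map_zero]
      | succ k => exact (hl hD hS a).prim' (by omega) hdG hlk
    refine Or.inr ⟨1, by omega, Pi.single a t, htP, x - lT D a (Pi.single a t), ⟨hdG, ?_, hmd⟩, ?_⟩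
    · refine (A.C _ _).sub_mem h ?_
      have h5 := alg_pow hA (a := a) (w := a) (x := Pi.single a t) (by
        rw [Pi.single_eq_same]
        exact ht) 1 (a + 2) rfl
      rwa [pow_one] at h5
    · change x = (lT D a ^ 1) _ + (x - lT D a (Pi.single a t))
      rw [pow_one, add_sub_cancel]

end Pool.Agent.W552.Wd
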