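import Mathlib
import Pool.Agent.W552.WdVal

/-!
# Strata generated by divisors: weight-monodromy and hard Lefschetz
-/

set_option autoImplicit false

namespace Pool.Agent.W552.Wd

open Module Pool.Agent.W522.M Pool.Agent.W552.Wl

variable {E : Type} [Field E] [CharZero E] {D : Strata E} {S : Stars D} {n : ℕ} {A : D.Cycles}
  {N : Subs D}

lemma RV_comp (hD : IsReduction D n) {a : ℕ} {x : D.V a a} (h : A.Alg x) : x ∈ RV S A a a :=
  RW_comp hD (single_gr x) (by rw [Pi.single_eq_same]; exact h)

lemma RV_div (hD : IsReduction D n) (hS : S.IsStar n) (hA : A.IsGeometric n) {a : ℕ}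
    {x : D.V a (a + 2)} (h : A.Alg x) : x ∈ RV S A a (a + 2) :=
  RW_div hD hS hA (single_gr x) (by rw [Pi.single_eq_same]; exact h)

lemma RV_of_Lef (hD : IsReduction D n) (hS : S.IsStar n) (hA : A.IsGeometric n) {a w : ℕ}
    {x : D.V a w} (h : Lef A x) : x ∈ RV S A a w := by
  induction h with
  | comp x h => exact RV_comp hD h
  | div x h => exact RV_div hD hS hA h
  | lam w x _ ih => exact RV_lef ih

lemma lefSpan_le (hD : IsReduction D n) (hS : S.IsStar n) (hA : A.IsGeometric n) (a w : ℕ) :
    lefSpan A a w ≤ Submodule.span E (RV S A a w : Set (D.V a w)) := by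
  unfold lefSpan
  apply Submodule.span_mono
  intro x hx
  exact RV_of_Lef hD hS hA hx

lemma Lef_pow {a w : ℕ} {x : Tt D a} (hx : Lef A (x w)) (j : ℕ) :
    ∀ v, v = w + 2 * j → Lef A ((lT D a ^ j) x v) := by
  rintro _ rfl
  rw [lT_pow]
  induction j with
  | zero => exact hx
  | succ j ih => exact Lef.lam _ _ ih

lemma RV_le (a w : ℕ) {y : D.V a w} (hy : y ∈ RV S A a w) : y ∈ lefSpan A a w := by
  rcases hy with h0 | ⟨j, rfl, c, hc, d, hd, h0⟩
  · have h1 := congrFun h0 w
    rw [Pi.single_eq_same] at h1
    rw [h1]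
    exact Submodule.zero_mem _
  · have h1 := congrFun h0 (a + 2 * j)
    rw [Pi.single_eq_same] at h1
    rw [h1]
    refine Submodule.add_mem _ (Submodule.subset_span (Lef_pow (Lef.comp _ hc.2.1) j _ rfl)) ?_
    cases j with
    | zero => exact Submodule.zero_mem _
    | succ k => exact Submodule.subset_span (Lef_pow (Lef.div _ hd.2.1) k _ (by ring))

lemma RV_perp (hT : Transcendental A n N) {a w v : ℕ} (hwv : w + v = 2 * n) {x : D.V a w}
    (hx : x ∈ N a w) {y : D.V a v} (hy : y ∈ RV S A a v) : D.pair a w v x y = 0 := by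
  have h1 : lefSpan A a v ≤ LinearMap.ker (D.pair a w v x) := by
    unfold lefSpan
    rw [Submodule.span_le]
    intro z hz
    exact hT a w v x z hwv hx hz
  exact h1 (RV_le a v hy)

/-- algebraic classes orthogonal to inert classes are generated by divisors -/
theorem RV_of (hD : IsReduction D n) (hS : S.IsStar n) (hA : A.IsGeometric n)
    (hT : Transcendental A n N) (hgen : GeneratedByDivisors A N) {a w v : ℕ} (hwv : w + v = 2 * n)
    (y : D.V a w) (hy : A.Alg y) (h : ∀ z ∈ N a v, D.pair a v w z y = 0) : y ∈ RV S A a w := by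
  have hvw : v + w = 2 * n := by omega
  obtain ⟨t, ht, h1⟩ := riesz' (D.pair a v w) (S.star a v w) (RV S A a v)
    (fun q x hx => RV_smul hx q)
    (fun x hx x' hx' => hA.rational a v w hvw x _ (RV_alg hA hx)
      (RV_alg hA (RV_star hD hS hx' hvw)))
    (fun x hx h0 => by
      obtain ⟨r, -, h2, h3⟩ := RV_pos hD hS hA hx hvw
      apply h3
      rw [h2] at h0
      exact_mod_cast h0) y
    (fun x hx => hA.rational a v w hvw x y (RV_alg hA hx) hy)
  have hst := RV_star hD hS ht hvw
  have h2 : y = S.star a v w t := by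
    rw [← sub_eq_zero]
    apply pair_zero_of hD hvw
    intro x
    have hx : x ∈ lefSpan A a v ⊔ N a v := by
      rw [hgen a v]
      exact Submodule.mem_top
    have h3 : lefSpan A a v ⊔ N a v ≤ LinearMap.ker ((D.pair a v w).flip (y - S.star a v w t)) := by
      refine sup_le ((lefSpan_le hD hS hA a v).trans ?_) ?_
      · rw [Submodule.span_le]
        intro z hz
        change D.pair a v w z (y - S.star a v w t) = 0
        rw [map_sub, h1 z hz, sub_self]
      · intro z hz
        change D.pair a v w z (y - S.star a v w t) = 0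
        have h4 : D.pair a v w z (S.star a v w t) = 0 := RV_perp hT hvw hz hst
        rw [map_sub, h z hz, h4, sub_zero]
    exact h3 hx
  rw [h2]
  exact hst

lemma rT_pow (hD : IsReduction D n) {a : ℕ} (x : Tt D a) (j : ℕ) :
    rT D a ((lT D a ^ j) x) = (lT D (a + 1) ^ j) (rT D a x) := by
  induction j with
  | zero => rfl
  | succ j ih => rw [pow_succ', Module.End.mul_apply, rT_l hD, ih, pow_succ', Module.End.mul_apply]

lemma gT_pow (hD : IsReduction D n) {a : ℕ} (x : Tt D (a + 1)) (j : ℕ) :
    gT D a ((lT D (a + 1) ^ j) x) = (lT D a ^ j) (gT D a x) := by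
  induction j with
  | zero => rfl
  | succ j ih => rw [pow_succ', Module.End.mul_apply, gT_l hD, ih, pow_succ', Module.End.mul_apply]

lemma RV_res (hD : IsReduction D n) (hS : S.IsStar n) (hA : A.IsGeometric n) {a w : ℕ}
    {y : D.V a w} (hy : y ∈ RV S A a w) : D.res a w y ∈ RV S A (a + 1) (w + 1) := by
  change (Pi.single (w + 1) (D.res a w y) : Tt D (a + 1)) ∈ RW S A (a + 1) (w + 1)
  rw [← r_single]
  rcases hy with h0 | ⟨j, rfl, c, hc, d, hd, h0⟩
  · rw [h0, map_zero]
    exact (RW S A _ _).zero_mem
  · rw [h0, map_add, rT_pow hD]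
    refine (RW S A _ _).add_mem ?_ ?_
    · have h1 : rT D a c ∈ RW S A (a + 1) (a + 1) :=
        RW_comp hD (rT_mem a a c hc.1) (hA.stable.res _ _ _ hc.2.1)
      exact RW_pow h1 j _ (by omega)
    · cases j with
      | zero =>
        change rT D a 0 ∈ _
        rw [map_zero]
        exact (RW S A _ _).zero_mem
      | succ k =>
        change rT D a ((lT D a ^ k) d) ∈ _
        rw [rT_pow hD]
        have h1 : rT D a d ∈ RW S A (a + 1) (a + 1 + 2) :=
          RW_div hD hS hA (rT_mem a (a + 2) d hd.1) (hA.stable.res _ _ _ hd.2.1)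
        exact RW_pow h1 k _ (by omega)

lemma RV_gys (hD : IsReduction D n) (hS : S.IsStar n) (hA : A.IsGeometric n)
    (hN : IsInert S n N) (hT : Transcendental A n N) (hgen : GeneratedByDivisors A N) {a w : ℕ}
    {y : D.V (a + 1) w} (hy : y ∈ RV S A (a + 1) w) : D.gys a w y ∈ RV S A a (w + 1) := by
  change (Pi.single (w + 1) (D.gys a w y) : Tt D a) ∈ RW S A a (w + 1)
  rw [← g_single]
  rcases hy with h0 | ⟨j, rfl, c, hc, d, hd, h0⟩
  · rw [h0, map_zero]
    exact (RW S A _ _).zero_mem
  · rw [h0, map_add, gT_pow hD]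
    refine (RW S A _ _).add_mem ?_ ?_
    · have h1 : gT D a c ∈ RW S A a (a + 2) :=
        RW_div hD hS hA (gT_mem a (a + 1) c hc.1) (hA.stable.gys _ _ _ hc.2.1)
      exact RW_pow h1 j _ (by omega)
    · cases j with
      | zero =>
        change gT D a 0 ∈ _
        rw [map_zero]
        exact (RW S A _ _).zero_mem
      | succ k =>
        change gT D a ((lT D (a + 1) ^ k) d) ∈ _
        rw [gT_pow hD]
        have h2 : gT D a d ∈ Gr D a (a + 4) := gT_mem a (a + 1 + 2) d hd.1
        have h1 : gT D a d ∈ RW S A a (a + 4) := by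
          by_cases h4 : 2 * n < a + 4
          · have : gT D a d = 0 := gr_zero h2 (hD.top a _ _ (by omega))
            rw [this]
            exact (RW S A _ _).zero_mem
          · have h3 : gT D a d (a + 4) ∈ RV S A a (a + 4) := by
              apply RV_of hD hS hA hT hgen (v := 2 * n - (a + 4)) (by omega) _
                (hA.stable.gys a (a + 3) _ hd.2.1)
              intro z hz
              have h5 : D.res a (2 * n - (a + 4)) z = 0 := hN.res _ _ z hz
              have h6 : D.pair (a + 1) (2 * n - (a + 4) + 1) (a + 3)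
                  (D.res a (2 * n - (a + 4)) z) (d (a + 3)) =
                  D.pair a (2 * n - (a + 4)) (a + 4) z (D.gys a (a + 3) (d (a + 3))) :=
                hD.duality.adj a (2 * n - (a + 4)) (a + 3) z (d (a + 3))
              rw [h5, map_zero, LinearMap.zero_apply] at h6
              exact h6.symm
            rw [gr_single h2]
            exact h3
        exact RW_pow h1 k _ (by omega)

/-- the source given by a point -/
def pt (S : Stars D) (A : D.Cycles) : Src D where
  T := E
  form := LinearMap.mul E E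
  C a w :=
    { carrier := {f | f 1 ∈ RV S A a w}
      zero_mem' := (RV S A a w).zero_mem
      add_mem' := fun hf hg => (RV S A a w).add_mem hf hg
      neg_mem' := fun hf => (RV S A a w).neg_mem hf }

omit [CharZero E] in
lemma nondeg_E (y : E) (h : ∀ x : E, LinearMap.mul E E x y = 0) : y = 0 := by
  simpa using h 1

lemma pt_geom (hD : IsReduction D n) (hS : S.IsStar n) (hA : A.IsGeometric n)
    (hN : IsInert S n N) (hT : Transcendental A n N) (hgen : GeneratedByDivisors A N) :
    (pt S A).IsGeometric S where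
  nondeg y h := nondeg_E (E := E) y h
  smul c a w f hf := RV_smul hf c
  res a w f hf := RV_res hD hS hA hf
  gys a w f hf := RV_gys hD hS hA hN hT hgen hf
  lower a w f hf := RV_low hD hS hf

omit [CharZero E] in
lemma tr_one (r : E →ₗ[E] E) : LinearMap.trace E E r = r 1 := by
  have h : r = (r 1) • LinearMap.id := by
    apply LinearMap.ext_ring
    simp
  have h2 : LinearMap.trace E E ((r 1) • LinearMap.id) = r 1 := by
    rw [map_smul, LinearMap.trace_id]
    simp
  rw [← h] at h2
  exact h2

omit [CharZero E] in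
lemma tr_key {a w v : ℕ} (f g : E →ₗ[E] D.V a w) (r : E →ₗ[E] E)
    (hr : ∀ x y : E, LinearMap.mul E E x (r y) = D.pair a w v (f x) (S.star a w v (g y))) :
    LinearMap.trace E E r = D.pair a w v (f 1) (S.star a w v (g 1)) := by
  rw [tr_one, ← hr 1 1]
  simp

lemma pt_pos (hD : IsReduction D n) (hS : S.IsStar n) (hA : A.IsGeometric n) :
    (pt S A).IsPositive S n where
  rational a w v f g r hwv hf hg hr := by
    have h1 := tr_key (S := S) (v := v) f g r hr
    change ∃ c : ℚ, LinearMap.trace E E r = c
    rw [h1]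
    exact hA.rational a w v hwv _ _ (RV_alg hA hf) (RV_alg hA (RV_star hD hS hg hwv))
  positive a w v f r hwv hf h0 hr := by
    have h1 := tr_key (S := S) (v := v) f f r hr
    change ∃ c : ℚ, 0 < c ∧ LinearMap.trace E E r = c
    rw [h1]
    obtain ⟨q, hq, h3, h4⟩ := RV_pos hD hS hA hf hwv
    refine ⟨q, lt_of_le_of_ne hq fun h => h0 ?_, h3⟩
    apply LinearMap.ext_ring
    exact h4 h.symm

theorem pt_gen (hD : IsReduction D n) (hS : S.IsStar n) (hA : A.IsGeometric n)
    (hgen : GeneratedByDivisors A N) (a : ℕ) : GeneratedAt (fun _ : Unit => pt S A) N a := by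
  intro w
  rw [← top_le_iff, ← hgen a w]
  refine sup_le_sup_right ?_ _
  unfold lefSpan imageOf
  apply Submodule.span_mono
  intro x hx
  refine ⟨(), LinearMap.toSpanSingleton E (D.V a w) x, (1 : E), ?_, ?_⟩
  · change LinearMap.toSpanSingleton E (D.V a w) x (1 : E) ∈ RV S A a w
    rw [LinearMap.toSpanSingleton_apply, one_smul]
    exact RV_of_Lef hD hS hA hx
  · change x = LinearMap.toSpanSingleton E (D.V a w) x (1 : E)
    rw [LinearMap.toSpanSingleton_apply, one_smul]

/-- **Strata generated by divisors.** -/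
theorem divisors (hD : IsReduction D n) (hS : S.IsStar n) (hA : A.IsGeometric n)
    (hN : IsInert S n N) (hT : Transcendental A n N) (hgen : GeneratedByDivisors A N) :
    (∀ w r, 1 ≤ r → D.MonodromyWeight w r) ∧ D.GenericLefschetz n :=
  ⟨fun w r hr => main hD hS (fun _ : Unit => pt S A)
      (fun _ => pt_geom hD hS hA hN hT hgen) (fun _ => pt_pos hD hS hA) N hN
      (fun a => pt_gen hD hS hA hgen (a + 1)) w r hr,
    main2 hD hS (fun _ : Unit => pt S A) (fun _ => pt_geom hD hS hA hN hT hgen)
      (fun _ => pt_pos hD hS hA) N hN (pt_gen hD hS hA hgen)⟩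

end Pool.Agent.W552.Wd
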