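import Mathlib
import Pool.Agent.W552.WlDefs

/-!
# Numerical cycle groups of the strata of a semistable fibre

`D.V a (a + 2 c)` is the group of cycles of codimension `c` with rational coefficients modulo
numerical equivalence on the stratum `Y^(a+1)` of a projective strictly semistable fibre of relative
dimension `n` of a regular model, and `D.V a w = 0` for odd `w - a`.
-/

set_option autoImplicit false

namespace Pool.Agent.W552.Wb

open Pool.Agent.W522.M Pool.Agent.W552.Wl

variable {D : Strata ℚ}

/-- The known properties of the numerical cycle groups of the strata: complex, Poincaré duality,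
hard Lefschetz (`reduction`), vanishing in odd degrees, positive degrees in codimension `0`, and the
Hodge index theorem for divisors. -/
structure IsNumerical (D : Strata ℚ) (n : ℕ) : Prop where
  reduction : IsReduction D n
  even : ∀ a w (x : D.V a w), Odd (w + a) → Vanishes x
  degree : ∀ a, a ≤ n → ∀ t : D.V a a, t ≠ 0 → 0 < ip t (pow (n - a) t)
  hodge : ∀ a, a + 2 ≤ n → ∀ x : D.V a (a + 2), Vanishes (pow (n - a - 1) x) → x ≠ 0 →
    ip x (pow (n - a - 2) x) < 0

/-- On the strata there are no primitive classes of codimension at least `2` (below the middle
codimension, all classes of codimension `c ≥ 2` are multiples of the hyperplane class). For `n ≤ 3`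
there is no condition. -/
def NoHigherPrimitive (D : Strata ℚ) (n : ℕ) : Prop :=
  ∀ a w (x : D.V a (w + 2)), a + 2 ≤ w → w + 2 ≤ n → ∃ y : D.V a w, x = lam y

/-- `c` is orthogonal to all classes `z 0` where `z` is a cocycle in the column `0` of the weight
spectral sequence. -/
def OrthogonalToCocycles (n : ℕ) {w : ℕ} (c : D.V 0 w) : Prop :=
  ∀ v (z : D.Ch v), w + v = 2 * n → z ∈ D.Z 0 v → ip c (z 0) = 0

/-- The intersection number on the model of the fibral cycles given by cycles `z` and `z'` on the
components: minus the intersection number of their (alternating) restrictions to the double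
intersections. -/
def fibral {w v : ℕ} (z : D.V 0 w) (z' : D.V 0 v) : ℚ := - ip (rho z) (rho z')

end Pool.Agent.W552.Wb
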