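import Mathlib
import Pool.Agent.W552.WbDefs
import Pool.Agent.W552.WdMain

/-!
# Orthogonal lifts of cohomologically trivial cycles
-/

set_option autoImplicit false

namespace Pool.Agent.W552.Wb

open Module Pool.Agent.W522.M Pool.Agent.W552.Wl Pool.Agent.W552.Wd

section duality

variable {E : Type} [Field E] [CharZero E] {D : Strata E} {n : ℕ}

/-- functionals are given by pairings -/
lemma exists_rep (hD : IsReduction D n) {a w v : ℕ} (hwv : w + v = 2 * n)
    (φ : D.V a w →ₗ[E] E) : ∃ z : D.V a v, ∀ y, D.pair a w v y z = φ y := by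
  have i1 : Function.Injective (D.pair a w v) := by
    rw [← LinearMap.ker_eq_bot, LinearMap.ker_eq_bot']
    intro x hx
    exact hD.duality.nondeg a w v hwv x fun y => LinearMap.congr_fun hx y
  have i2 : Function.Injective (D.pair a w v).flip := by
    rw [← LinearMap.ker_eq_bot, LinearMap.ker_eq_bot']
    intro x hx
    apply hD.duality.nondeg a v w (by omega)
    intro y
    have h1 : ip y x = 0 := LinearMap.congr_fun hx y
    rw [hD.duality.symm, h1, mul_zero]
  have f1 := LinearMap.finrank_le_finrank_of_injective i1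
  have f2 := LinearMap.finrank_le_finrank_of_injective i2
  rw [Subspace.dual_finrank_eq] at f1 f2
  have e : finrank E (D.V a v) = finrank E (Dual E (D.V a w)) := by
    rw [Subspace.dual_finrank_eq]
    omega
  obtain ⟨z, hz⟩ := (LinearMap.injective_iff_surjective_of_finrank_eq_finrank e).1 i2 φ
  exact ⟨z, fun y => LinearMap.congr_fun hz y⟩

lemma tot_single {c w : ℕ} (y : D.V (c + 1) w) (a : ℕ) :
    tot (Pi.single (c + 1) y : D.Ch w) a = (Pi.single c (gam y) : D.Ch (w + 1)) a +
      (Pi.single (c + 2) (rho y) : D.Ch (w + 1)) a := by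
  match a with
  | 0 =>
    change D.gys 0 w ((Pi.single (c + 1) y : D.Ch w) 1) = _
    rw [Pi.single_eq_of_ne (by omega : (0 : ℕ) ≠ c + 2), add_zero]
    by_cases hc : c = 0
    · subst hc
      rw [Pi.single_eq_same, Pi.single_eq_same]
      rfl
    · rw [Pi.single_eq_of_ne (by omega : (1 : ℕ) ≠ c + 1), Pi.single_eq_of_ne (by omega), map_zero]
  | a + 1 =>
    change D.res a w ((Pi.single (c + 1) y : D.Ch w) a) +
      D.gys (a + 1) w ((Pi.single (c + 1) y : D.Ch w) (a + 2)) = _
    by_cases h1 : a = c + 1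
    · subst h1
      rw [Pi.single_eq_same, Pi.single_eq_same, Pi.single_eq_of_ne (by omega), map_zero, add_zero,
        Pi.single_eq_of_ne (by omega), zero_add]
      rfl
    · rw [Pi.single_eq_of_ne h1, map_zero, zero_add,
        Pi.single_eq_of_ne (by omega : a + 1 ≠ c + 2), add_zero]
      by_cases h2 : a + 1 = c
      · subst h2
        rw [Pi.single_eq_same, Pi.single_eq_same]
        rfl
      · rw [Pi.single_eq_of_ne (by omega), Pi.single_eq_of_ne h2, map_zero]

/-- a cochain orthogonal to all cocycles is a coboundary -/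
theorem B_of_perp (hD : IsReduction D n) {w v : ℕ} (hwv : w + 1 + v = 2 * n) (x : D.Ch (w + 1))
    (hx : x ∈ D.E1 0 (w + 1))
    (h : ∀ z ∈ D.Z 0 v, ∑ a ∈ Finset.range (n + 1), D.pair a (w + 1) v (x a) (z a) = 0) :
    x ∈ D.B 0 (w + 1) := by
  classical
  by_contra hxB
  obtain ⟨φ, hφx, hφB⟩ := Submodule.exists_le_ker_of_notMem hxB
  choose z hz using fun a => exists_rep hD (a := a) hwv
    (φ.comp (LinearMap.single E (fun a => D.V a (w + 1)) a))
  have hz' : ∀ a y, D.pair a (w + 1) v y (z a) = φ (Pi.single a y) := hz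
  have hZ : (fun a => if InCol 0 a then z a else 0 : D.Ch v) ∈ D.Z 0 v := by
    rw [mem_Z]
    refine ⟨fun a ha => if_neg ha, fun b hb => ?_⟩
    obtain ⟨c, rfl⟩ : ∃ c, b = c + 1 := ⟨b - 1, by have := hb.1; omega⟩
    have hc : InCol 0 c := by
      obtain ⟨-, k, hk⟩ := hb
      push_cast at hk
      exact ⟨by simp, k, by omega⟩
    have hc2 : InCol 0 (c + 2) := by
      obtain ⟨-, k, hk⟩ := hb
      push_cast at hk
      exact ⟨by simp, k + 1, by push_cast; omega⟩
    have e1 : tot (fun a => if InCol 0 a then z a else 0 : D.Ch v) (c + 1) =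
        D.res c v (z c) + D.gys (c + 1) v (z (c + 2)) := by
      change D.res c v (if InCol 0 c then z c else 0) +
        D.gys (c + 1) v (if InCol 0 (c + 2) then z (c + 2) else 0) = _
      rw [if_pos hc, if_pos hc2]
    rw [e1]
    apply hD.duality.nondeg (c + 1) (v + 1) w (by omega)
    intro y
    change D.pair (c + 1) (v + 1) w (D.res c v (z c) + D.gys (c + 1) v (z (c + 2))) y = 0
    rw [map_add, LinearMap.add_apply]
    have s1 : D.pair (c + 1) (v + 1) w (D.res c v (z c)) y =
        (-1) ^ (v + c) * φ (Pi.single c (gam y) : D.Ch (w + 1)) := by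
      have h1 : D.pair (c + 1) (v + 1) w (D.res c v (z c)) y =
        D.pair c v (w + 1) (z c) (D.gys c w y) := hD.duality.adj c v w (z c) y
      have h2 : D.pair c v (w + 1) (z c) (D.gys c w y) =
        (-1) ^ (v + c) * D.pair c (w + 1) v (D.gys c w y) (z c) :=
          hD.duality.symm c v (w + 1) (z c) _
      rw [h1, h2, hz']
      rfl
    have s2 : D.pair (c + 1) (v + 1) w (D.gys (c + 1) v (z (c + 2))) y =
        (-1) ^ (v + c) * φ (Pi.single (c + 2) (rho y) : D.Ch (w + 1)) := by
      have h1 := adj2 hD.duality (a := c + 1) (w := v) (v := w) (by omega) (z (c + 2)) y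
      have h2 : D.pair (c + 2) v (w + 1) (z (c + 2)) (D.res (c + 1) w y) =
        (-1) ^ (v + (c + 2)) * D.pair (c + 2) (w + 1) v (D.res (c + 1) w y) (z (c + 2)) :=
          hD.duality.symm (c + 2) v (w + 1) (z (c + 2)) _
      have h3 : (-1 : E) ^ (v + (c + 2)) = (-1) ^ (v + c) := by
        rw [← add_assoc, pow_add, neg_one_sq, mul_one]
      rw [h1]
      refine h2.trans ?_
      rw [hz', h3]
      rfl
    rw [s1, s2, ← mul_add, ← map_add]
    have hB : (Pi.single c (gam y) : D.Ch (w + 1)) + (Pi.single (c + 2) (rho y) : D.Ch (w + 1)) ∈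
        D.B 0 (w + 1) := by
      rw [mem_B]
      refine ⟨Pi.single (c + 1) y, fun a ha => ?_, fun a _ => (tot_single y a).symm, fun a ha => ?_⟩
      · apply Pi.single_eq_of_ne
        rintro rfl
        apply ha
        obtain ⟨-, k, hk⟩ := hb
        push_cast at hk
        exact ⟨by simp, k + 1, by push_cast; omega⟩
      · change (Pi.single c (gam y) : D.Ch (w + 1)) a +
          (Pi.single (c + 2) (rho y) : D.Ch (w + 1)) a = 0
        rw [Pi.single_eq_of_ne, Pi.single_eq_of_ne, add_zero]
        · rintro rfl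
          exact ha hc2
        · rintro rfl
          exact ha hc
    have h4 : φ ((Pi.single c (gam y) : D.Ch (w + 1)) +
        (Pi.single (c + 2) (rho y) : D.Ch (w + 1))) = 0 := hφB hB
    rw [h4, mul_zero]
  apply hφx
  have h1 := h _ hZ
  have h2 : φ x = ∑ a ∈ Finset.range (n + 1), D.pair a (w + 1) v (x a)
      ((fun a => if InCol 0 a then z a else 0 : D.Ch v) a) := by
    have h3 : x = ∑ a ∈ Finset.range (n + 1), Pi.single a (x a) := by
      funext b
      rw [Finset.sum_apply]
      by_cases hb1 : b ≤ n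
      · rw [Finset.sum_eq_single b, Pi.single_eq_same]
        · intro a _ hab
          exact Pi.single_eq_of_ne (Ne.symm hab) _
        · intro h
          exact absurd (Finset.mem_range.2 (by omega)) h
      · have h0 : x b = 0 := hD.bounded.empty b _ (x b) (by omega)
        rw [h0]
        symm
        apply Finset.sum_eq_zero
        intro a ha
        apply Pi.single_eq_of_ne
        rintro rfl
        have := Finset.mem_range.1 ha
        omega
    have h4 : φ x = ∑ a ∈ Finset.range (n + 1), φ (Pi.single a (x a)) := by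
      rw [← map_sum, ← h3]
    rw [h4]
    apply Finset.sum_congr rfl
    intro a _
    by_cases ha : InCol 0 a
    · change _ = D.pair a (w + 1) v (x a) (if InCol 0 a then z a else 0)
      rw [if_pos ha, hz']
    · rw [hx a ha, Pi.single_zero, map_zero, map_zero, LinearMap.zero_apply]
  rw [h2, h1]

end duality

/-- from monodromy-weight to `c = γ (ρ z)` -/
theorem gam_rho {E : Type} [Field E] {D : Strata E} {n : ℕ} (hD : IsReduction D n) {w : ℕ}
    (hM : D.MonodromyWeight (w + 1) 1) (c : D.V 0 (w + 2))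
    (hc : (Pi.single 0 c : D.Ch (w + 2)) ∈ D.B 0 (w + 2)) : ∃ z : D.V 0 w, c = gam (rho z) := by
  rw [mem_B] at hc
  obtain ⟨u, hu0, hu1, -⟩ := hc
  have hneg : ∀ a, InCol (0 - 1) a ↔ InCol ((1 : ℕ) : ℤ) a := by
    intro a
    have := inCol_neg ((1 : ℕ) : ℤ) a
    have e : (0 - 1 : ℤ) = -((1 : ℕ) : ℤ) := by norm_num
    rw [e]
    exact this
  have huZ : u ∈ D.Z ((1 : ℕ) : ℤ) (w + 1) := by
    rw [mem_Z]
    refine ⟨fun a ha => hu0 a fun h => ha ((hneg a).1 h), fun a ha => ?_⟩
    obtain ⟨h1, k, hk⟩ := ha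
    have ha0 : a ≠ 0 := by
      rintro rfl
      norm_num at h1
    rw [← hu1 a ⟨by simp, k + 1, by push_cast at hk; omega⟩]
    exact Pi.single_eq_of_ne ha0 _
  obtain ⟨x, hx, hux⟩ := hM.2.2.2 u huZ
  change u - x ∈ D.B ((1 : ℕ) : ℤ) (w + 1) at hux
  rw [mem_B] at hux
  obtain ⟨z, -, hz1, -⟩ := hux
  rw [SetLike.mem_coe, mem_Z] at hx
  have h1 : c = D.gys 0 (w + 1) (u 1) := by
    have := hu1 0 ⟨by simp, 0, by norm_num⟩
    rw [Pi.single_eq_same] at this
    exact this
  have h2 : u 1 - x 1 = D.res 0 w (z 0) + D.gys 1 w (z 2) := by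
    have := hz1 1 ⟨by norm_num, 0, by norm_num⟩
    exact this
  have h3 : D.gys 0 (w + 1) (x 1) = 0 := by
    have := hx.2 0 ⟨by norm_num, 0, by norm_num⟩
    exact this
  have h4 : D.gys 0 (w + 1) (D.gys 1 w (z 2)) = 0 := hD.complex.gys_gys 0 w (z 2)
  refine ⟨z 0, ?_⟩
  have h5 : u 1 = x 1 + (D.res 0 w (z 0) + D.gys 1 w (z 2)) := by
    rw [← h2, add_sub_cancel]
  rw [h1, h5, map_add, map_add, h3, h4, add_zero, zero_add]
  rfl

/-! ### Numerical cycle groups -/

section numerical

variable {D : Strata ℚ} {n : ℕ} {S : Stars D}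

/-- all classes -/
def all (D : Strata ℚ) : D.Cycles where
  C _ _ := ⊤
  smul _ _ _ _ _ := AddSubgroup.mem_top _

lemma all_alg {a w : ℕ} (x : D.V a w) : (all D).Alg x := AddSubgroup.mem_top _

lemma all_geom (h : IsNumerical D n) : (all D).IsGeometric n where
  stable := ⟨fun _ _ _ _ => all_alg _, fun _ _ _ _ => all_alg _, fun _ _ _ _ => all_alg _⟩
  components :=
    { span := fun a => by
        rw [← top_le_iff]
        intro x _
        exact Submodule.subset_span (all_alg x)
      finite := fun a => by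
        obtain ⟨s, hs⟩ := Module.Finite.fg_top (R := ℚ) (M := D.V a a)
        refine ⟨s, fun x _ => ?_⟩
        have hx : x ∈ Submodule.span ℚ (s : Set (D.V a a)) := by
          rw [hs]
          exact Submodule.mem_top
        obtain ⟨f, -, hf⟩ := Submodule.mem_span_finset.1 hx
        refine ⟨f, ?_⟩
        rw [← hf]
        apply Finset.sum_congr rfl
        intro y _
        rfl
      pos := fun a ha t _ ht => ⟨_, h.degree a ha t ht, (Rat.cast_id _).symm⟩ }
  rational := fun a w v _ x y _ _ => ⟨_, (Rat.cast_id _).symm⟩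
  hodge := fun a ha x _ h1 h0 => ⟨_, h.hodge a ha x h1 h0, (Rat.cast_id _).symm⟩

lemma lefSpan_lam {a w : ℕ} {x : D.V a w} (hx : x ∈ lefSpan (all D) a w) :
    lam x ∈ lefSpan (all D) a (w + 2) := by
  have h1 : lefSpan (all D) a w ≤ (lefSpan (all D) a (w + 2)).comap (D.lef a w) := by
    conv_lhs => unfold lefSpan
    rw [Submodule.span_le]
    intro z hz
    exact Submodule.subset_span (Lef.lam _ _ hz)
  exact h1 hx

theorem all_gen (h : IsNumerical D n) (hp : NoHigherPrimitive D n) (a w : ℕ) (x : D.V a w) :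
    x ∈ lefSpan (all D) a w := by
  have low : ∀ w, w ≤ n → ∀ x : D.V a w, x ∈ lefSpan (all D) a w := by
    intro w
    induction w using Nat.strong_induction_on with
    | _ w ih =>
      intro hw x
      by_cases h1 : Odd (w + a)
      · have : x = 0 := h.even a w x h1
        rw [this]
        exact Submodule.zero_mem _
      by_cases h2 : w < a
      · have : x = 0 := h.reduction.bounded.neg a w x h2
        rw [this]
        exact Submodule.zero_mem _
      rw [Nat.not_odd_iff_even] at h1
      by_cases h3 : w = a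
      · subst h3
        exact Submodule.subset_span (Lef.comp x (all_alg x))
      obtain ⟨u, rfl⟩ : ∃ u, w = u + 2 := ⟨w - 2, by rw [Nat.even_iff] at h1; omega⟩
      by_cases h4 : u = a
      · subst h4
        exact Submodule.subset_span (Lef.div x (all_alg x))
      obtain ⟨y, rfl⟩ := hp a u x (by rw [Nat.even_iff] at h1; omega) hw
      exact lefSpan_lam (ih u (by omega) (by omega) y)
  by_cases hw : w ≤ n
  · exact low w hw x
  by_cases ht : 2 * n < w + a
  · have : x = 0 := h.reduction.top a w x ht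
    rw [this]
    exact Submodule.zero_mem _
  obtain ⟨u, r, hu, hur⟩ : ∃ u r, u + r = n ∧ w = u + 2 * r := ⟨2 * n - w, w - n, by omega, by omega⟩
  subst hur
  obtain ⟨y, rfl⟩ := (h.reduction.lefschetz.bij a u r hu).2 x
  have h1 : ∀ j, D.lp a u j y ∈ lefSpan (all D) a (u + 2 * j) := by
    intro j
    induction j with
    | zero => exact low u (by omega) y
    | succ j ih => exact lefSpan_lam ih
  exact h1 r

theorem all_mw (h : IsNumerical D n) (hS : S.IsStar n) (hp : NoHigherPrimitive D n) (w r : ℕ)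
    (hr : 1 ≤ r) : D.MonodromyWeight w r := by
  have hN : IsInert S n (fun _ _ => ⊥ : Subs D) := by
    refine ⟨fun a w x hx => ?_, fun a w x hx => ?_, fun a w v x _ hx => ?_⟩
    · have h0 : x = 0 := (Submodule.mem_bot ℚ).1 hx
      rw [h0]
      exact map_zero _
    · have h0 : x = 0 := (Submodule.mem_bot ℚ).1 hx
      rw [h0]
      exact map_zero _
    · have h0 : x = 0 := (Submodule.mem_bot ℚ).1 hx
      rw [h0]
      exact (Submodule.mem_bot ℚ).2 (map_zero _)
  have hT : Transcendental (all D) n (fun _ _ => ⊥ : Subs D) := by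
    intro a w v x y _ hx _
    have h0 : x = 0 := (Submodule.mem_bot ℚ).1 hx
    rw [h0]
    change D.pair a w v 0 y = 0
    rw [map_zero, LinearMap.zero_apply]
  have hg : GeneratedByDivisors (all D) (fun _ _ => ⊥ : Subs D) := by
    intro a w
    rw [← top_le_iff]
    intro x _
    exact Submodule.mem_sup_left (all_gen h hp a w x)
  exact (divisors h.reduction hS (all_geom h) hN hT hg).1 w r hr

/-- **Orthogonal lifts.** -/
theorem lift (h : IsNumerical D n) (hS : S.IsStar n) (hp : NoHigherPrimitive D n) {w v : ℕ}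
    (hwv : w + 2 + v = 2 * n) (c : D.V 0 (w + 2)) (hc : OrthogonalToCocycles n c) :
    ∃ z : D.V 0 w, ∀ z' : D.V 0 v, ip c z' + fibral z z' = 0 := by
  have hB : (Pi.single 0 c : D.Ch (w + 2)) ∈ D.B 0 (w + 2) := by
    apply B_of_perp h.reduction (v := v) (by omega)
    · intro a ha
      apply Pi.single_eq_of_ne
      rintro rfl
      exact ha ⟨by simp, 0, by norm_num⟩
    · intro z hz
      rw [Finset.sum_eq_single 0]
      · rw [Pi.single_eq_same]
        exact hc v z hwv hz
      · intro a _ ha
        rw [Pi.single_eq_of_ne ha, map_zero, LinearMap.zero_apply]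
      · intro h0
        exact absurd (Finset.mem_range.2 (by omega)) h0
  obtain ⟨z, rfl⟩ := gam_rho h.reduction (all_mw h hS hp (w + 1) 1 le_rfl) c hB
  refine ⟨z, fun z' => ?_⟩
  have h1 := adj2 h.reduction.duality (a := 0) (w := w + 1) (v := v) (by omega) (D.res 0 w z) z'
  change D.pair 0 (w + 2) v (D.gys 0 (w + 1) (D.res 0 w z)) z' +
    - D.pair 1 (w + 1) (v + 1) (D.res 0 w z) (D.res 0 v z') = 0
  rw [h1, add_neg_cancel]

end numerical

end Pool.Agent.W552.Wb
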