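import Mathlib
import Pool.Agent.W552.WdVal

/-!
# Existence of the operator `Λ`
-/

set_option autoImplicit false

namespace Pool.Agent.W552.Ws

open Module Pool.Agent.W522.M Pool.Agent.W552.Wl Pool.Agent.W552.Wd

variable {E : Type} [Field E] [CharZero E] {D : Strata E} {n : ℕ}

open Classical in
/-- the inverse of `L^(n-u)`, with values in degree `u ≤ n` -/
noncomputable def Iu (hD : IsReduction D n) (a u : ℕ) : Tt D a →ₗ[E] Tt D a :=
  if h : u ≤ n then
    (LinearMap.single E (fun w => D.V a w) u).comp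
      (((LinearEquiv.ofBijective (D.lp a u (n - u))
        (hD.lefschetz.bij a u (n - u) (by omega))).symm.toLinearMap).comp
          (LinearMap.proj (u + 2 * (n - u))))
  else 0

lemma Iu_mem (hD : IsReduction D n) (a u : ℕ) (x : Tt D a) : Iu hD a u x ∈ Gr D a u := by
  unfold Iu
  split_ifs with h
  · exact single_gr _
  · exact Submodule.zero_mem _

lemma Iu_val (hD : IsReduction D n) {a u r : ℕ} (h : u + r = n) (x : Tt D a) :
    D.lp a u r (Iu hD a u x u) = x (u + 2 * r) := by
  obtain rfl : r = n - u := by omega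
  unfold Iu
  rw [dif_pos (by omega)]
  change D.lp a u (n - u) ((Pi.single u ((LinearEquiv.ofBijective (D.lp a u (n - u))
    (hD.lefschetz.bij a u (n - u) (by omega))).symm (x (u + 2 * (n - u)))) : Tt D a) u) = _
  rw [Pi.single_eq_same]
  exact (LinearEquiv.ofBijective (D.lp a u (n - u))
    (hD.lefschetz.bij a u (n - u) (by omega))).apply_symm_apply _

lemma Iu_l (hD : IsReduction D n) {a u r : ℕ} (h : u + r = n) (x : Tt D a)
    (hx : x ∈ Gr D a (u + 2 * r)) : (lT D a ^ r) (Iu hD a u x) = x := by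
  have h1 := lT_pow_mem (Iu_mem hD a u x) r
  rw [gr_single h1, gr_single hx]
  congr 1
  rw [lT_pow, Iu_val hD h, Pi.single_eq_same]

lemma l_Iu (hD : IsReduction D n) {a u r : ℕ} (h : u + r = n) (x : Tt D a)
    (hx : x ∈ Gr D a u) : Iu hD a u ((lT D a ^ r) x) = x := by
  have h1 := Iu_mem hD a u ((lT D a ^ r) x)
  have h2 : Iu hD a u ((lT D a ^ r) x) u = x u := by
    apply (hD.lefschetz.bij a u r h).1
    change D.lp a u r _ = D.lp a u r _
    rw [Iu_val hD h, lT_pow]
  rw [gr_single h1, h2, ← gr_single hx]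

/-- `x ↦ y`, where `x - L y` is primitive -/
noncomputable def Yu (hD : IsReduction D n) (a u : ℕ) : Tt D a →ₗ[E] Tt D a :=
  (Iu hD a u).comp (lT D a ^ (n - (u + 2) + 1))

lemma Yu_mem (hD : IsReduction D n) (a u : ℕ) (x : Tt D a) : Yu hD a u x ∈ Gr D a u :=
  Iu_mem hD a u _

lemma Yu_l (hD : IsReduction D n) {a u : ℕ} (h : u + 2 ≤ n) (x : Tt D a) (hx : x ∈ Gr D a u) :
    Yu hD a u (lT D a x) = x := by
  have e : (lT D a ^ (n - (u + 2) + 1)) (lT D a x) = (lT D a ^ (n - (u + 2) + 1 + 1)) x := by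
    rw [pow_succ _ (n - (u + 2) + 1), Module.End.mul_apply]
  change Iu hD a u ((lT D a ^ (n - (u + 2) + 1)) (lT D a x)) = x
  rw [e]
  exact l_Iu hD (by omega) x hx

lemma l_Yu (hD : IsReduction D n) {a u r : ℕ} (h : u + 2 + r = n) (x : Tt D a)
    (hx : x ∈ Gr D a (u + 2)) : (lT D a ^ (r + 2)) (Yu hD a u x) = (lT D a ^ (r + 1)) x := by
  have h1 : (lT D a ^ (r + 1)) x ∈ Gr D a (u + 2 * (r + 2)) := by
    have := lT_pow_mem hx (r + 1)
    have e : u + 2 + 2 * (r + 1) = u + 2 * (r + 2) := by ring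
    rwa [e] at this
  have h2 : Yu hD a u x = Iu hD a u ((lT D a ^ (r + 1)) x) := by
    change Iu hD a u ((lT D a ^ (n - (u + 2) + 1)) x) = _
    have e : n - (u + 2) + 1 = r + 1 := by omega
    rw [e]
  rw [h2]
  exact Iu_l hD (by omega) _ h1

/-- `Λ` in degrees at most `n` -/
noncomputable def Ml (hD : IsReduction D n) (a : ℕ) : ℕ → Tt D a →ₗ[E] Tt D a
  | 0 => 0
  | 1 => 0
  | w + 2 => (lT D a).comp ((Ml hD a w).comp (Yu hD a w)) + ((n : E) - w) • Yu hD a w

lemma Ml_apply (hD : IsReduction D n) (a w : ℕ) (x : Tt D a) :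
    Ml hD a (w + 2) x = lT D a (Ml hD a w (Yu hD a w x)) + ((n : E) - w) • Yu hD a w x := rfl

lemma Ml_mem (hD : IsReduction D n) (a : ℕ) : ∀ w x, Ml hD a (w + 2) x ∈ Gr D a w := by
  intro w
  induction w using Nat.strong_induction_on with
  | _ w ih =>
    intro x
    rw [Ml_apply]
    refine Submodule.add_mem _ ?_ (Submodule.smul_mem _ _ (Yu_mem hD a w x))
    match w with
    | 0 =>
      change lT D a 0 ∈ _
      rw [map_zero]
      exact Submodule.zero_mem _
    | 1 =>
      change lT D a 0 ∈ _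
      rw [map_zero]
      exact Submodule.zero_mem _
    | w + 2 => exact lT_mem (ih w (by omega) _)

open Classical in
/-- `Λ` in degree `w` -/
noncomputable def Mu (hD : IsReduction D n) (a w : ℕ) : Tt D a →ₗ[E] Tt D a :=
  if w ≤ n then Ml hD a w else
    (lT D a ^ (w - n)).comp ((Ml hD a (2 * n - w)).comp (Iu hD a (2 * n - w))) +
      ((w : E) - n) • (lT D a ^ (w - n - 1)).comp (Iu hD a (2 * n - w))

lemma Mu_low (hD : IsReduction D n) {a w : ℕ} (h : w ≤ n) (x : Tt D a) :
    Mu hD a w x = Ml hD a w x := by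
  unfold Mu
  rw [if_pos h]

lemma Mu_high (hD : IsReduction D n) {a u s : ℕ} (h : u + (s + 1) = n) (x : Tt D a) :
    Mu hD a (u + 2 * (s + 1)) x = (lT D a ^ (s + 1)) (Ml hD a u (Iu hD a u x)) +
      ((s : E) + 1) • (lT D a ^ s) (Iu hD a u x) := by
  unfold Mu
  rw [if_neg (by omega)]
  have e1 : u + 2 * (s + 1) - n = s + 1 := by omega
  have e2 : 2 * n - (u + 2 * (s + 1)) = u := by omega
  have e3 : ((u + 2 * (s + 1) : ℕ) : E) - n = (s : E) + 1 := by
    rw [← h]
    push_cast
    ring
  rw [e1, e2, e3]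
  rfl

lemma Mu_mem (hD : IsReduction D n) (a w : ℕ) (x : Tt D a) (hx : x ∈ Gr D a (w + 2)) :
    Mu hD a (w + 2) x ∈ Gr D a w := by
  by_cases h1 : w + 2 ≤ n
  · rw [Mu_low hD h1]
    exact Ml_mem hD a w x
  · by_cases h2 : 2 * n < w + 2
    · have : x = 0 := gr_zero hx (hD.top a _ _ (by omega))
      rw [this, map_zero]
      exact Submodule.zero_mem _
    · obtain ⟨u, s, hu, hus⟩ : ∃ u s, u + (s + 1) = n ∧ w + 2 = u + 2 * (s + 1) :=
        ⟨2 * n - (w + 2), w + 1 - n, by omega, by omega⟩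
      rw [hus, Mu_high hD hu]
      have e : w = u + 2 * s := by omega
      refine Submodule.add_mem _ ?_ (Submodule.smul_mem _ _ ?_)
      · match u with
        | 0 =>
          change (lT D a ^ (s + 1)) 0 ∈ _
          rw [map_zero]
          exact Submodule.zero_mem _
        | 1 =>
          change (lT D a ^ (s + 1)) 0 ∈ _
          rw [map_zero]
          exact Submodule.zero_mem _
        | u + 2 =>
          have h3 := lT_pow_mem (Ml_mem hD a u (Iu hD a (u + 2) x)) (s + 1)
          have e' : u + 2 * (s + 1) = w := by omega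
          rwa [e'] at h3
      · rw [e]
        exact lT_pow_mem (Iu_mem hD a u x) s

/-- the relation between `Λ` and `L` -/
theorem Mu_rel (hD : IsReduction D n) {a w : ℕ} (x : Tt D a) (hx : x ∈ Gr D a w) :
    Mu hD a (w + 2) (lT D a x) = lT D a (Mu hD a w x) + ((n : E) - w) • x := by
  by_cases h1 : w + 2 ≤ n
  · rw [Mu_low hD h1, Mu_low hD (by omega), Ml_apply, Yu_l hD h1 x hx]
  by_cases h0 : 2 * n < w
  · have : x = 0 := gr_zero hx (hD.top a _ _ (by omega))
    rw [this]
    simp
  by_cases hw : w ≤ n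
  · rw [Mu_low hD hw]
    by_cases h2 : w + 1 = n
    · -- `w = n - 1`
      have h3 : w + 2 = w + 2 * (0 + 1) := by ring
      have h4 : Iu hD a w (lT D a x) = x := by
        have := l_Iu hD (r := 1) h2 x hx
        rwa [pow_one] at this
      rw [h3, Mu_high hD (by omega), h4, zero_add, pow_one, pow_zero]
      have e : (n : E) - w = 1 := by
        rw [← h2]
        push_cast
        ring
      rw [e]
      simp
    · obtain rfl : w = n := by omega
      by_cases h3 : 2 ≤ w
      · obtain ⟨u, rfl⟩ : ∃ u, w = u + 2 := ⟨w - 2, by omega⟩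
        have h4 : u + 2 + 2 = u + 2 * (1 + 1) := by ring
        have h5 : Yu hD a u x = Iu hD a u (lT D a x) := by
          change Iu hD a u ((lT D a ^ (u + 2 - (u + 2) + 1)) x) = _
          rw [Nat.sub_self, zero_add, pow_one]
        rw [h4, Mu_high hD (by omega), Ml_apply, h5, map_add, map_smul]
        have e : ((1 : ℕ) : E) + 1 = (((u + 2 : ℕ) : E) - u) := by
          push_cast
          ring
        rw [e, pow_succ, pow_one, Module.End.mul_apply, sub_self, zero_smul, add_zero]
      · have h5 : lT D a x = 0 := gr_zero (lT_mem hx) (hD.top a _ _ (by omega))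
        rw [h5, map_zero, sub_self, zero_smul, add_zero]
        interval_cases w
        · change 0 = lT D a 0
          rw [map_zero]
        · change 0 = lT D a 0
          rw [map_zero]
  · obtain ⟨u, s, hu, rfl⟩ : ∃ u s, u + (s + 1) = n ∧ w = u + 2 * (s + 1) :=
      ⟨2 * n - w, w - n - 1, by omega, by omega⟩
    have hz : (lT D a ^ (s + 1)) (Iu hD a u x) = x := Iu_l hD hu x hx
    have e0 : (n : E) - ((u + 2 * (s + 1) : ℕ) : E) = - ((s : E) + 1) := by
      rw [← hu]
      push_cast
      ring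
    have hR : lT D a (Mu hD a (u + 2 * (s + 1)) x) + ((n : E) - (u + 2 * (s + 1) : ℕ)) • x =
        (lT D a ^ (s + 2)) (Ml hD a u (Iu hD a u x)) := by
      rw [Mu_high hD hu, e0, map_add, map_smul, ← Module.End.mul_apply (lT D a) (lT D a ^ (s + 1)),
        ← pow_succ', ← Module.End.mul_apply (lT D a) (lT D a ^ s), ← pow_succ', hz, neg_smul,
        add_neg_cancel_right]
    rw [hR]
    by_cases h2 : 2 ≤ u
    · obtain ⟨v, rfl⟩ : ∃ v, u = v + 2 := ⟨u - 2, by omega⟩
      have h4 : v + 2 + 2 * (s + 1) + 2 = v + 2 * ((s + 2) + 1) := by ring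
      have h5 : Yu hD a v (Iu hD a (v + 2) x) = Iu hD a v (lT D a x) := by
        change Iu hD a v ((lT D a ^ (n - (v + 2) + 1)) (Iu hD a (v + 2) x)) = _
        have e : n - (v + 2) + 1 = s + 1 + 1 := by omega
        rw [e, pow_succ', Module.End.mul_apply, hz]
      rw [h4, Mu_high hD (by omega), Ml_apply, h5, map_add, map_smul]
      have e : (((s + 2 : ℕ) : E) + 1) = (n : E) - v := by
        rw [← hu]
        push_cast
        ring
      rw [e, ← Module.End.mul_apply (lT D a ^ (s + 2)) (lT D a), ← pow_succ]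
    · have h5 : lT D a x = 0 := gr_zero (lT_mem hx) (hD.top a _ _ (by omega))
      rw [h5, map_zero]
      interval_cases u
      · change 0 = (lT D a ^ (s + 2)) 0
        rw [map_zero]
      · change 0 = (lT D a ^ (s + 2)) 0
        rw [map_zero]

end Pool.Agent.W552.Ws
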