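import Mathlib
import Pool.Agent.W552.WsLow

/-!
# Existence of the star operator
-/

set_option autoImplicit false

namespace Pool.Agent.W552.Ws

open Module Pool.Agent.W522.M Pool.Agent.W552.Wl Pool.Agent.W552.Wd

variable {E : Type} [Field E] [CharZero E] {D : Strata E} {n : ℕ}

/-- the operator `Λ` -/
noncomputable def lowOp (hD : IsReduction D n) (a w : ℕ) : D.Hom a (w + 2) a w :=
  (LinearMap.proj w).comp ((Mu hD a (w + 2)).comp
    (LinearMap.single E (fun w => D.V a w) (w + 2)))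

/-- `Λ` as data, with an arbitrary star operator -/
noncomputable def S0 (hD : IsReduction D n) : Stars D where
  low := lowOp hD
  star _ _ _ := 0

lemma m_eq (hD : IsReduction D n) {a w : ℕ} (x : Tt D a) (hx : x ∈ Gr D a w) :
    mT (S0 hD) a x = Mu hD a w x := by
  by_cases h2 : 2 ≤ w
  · obtain ⟨w, rfl⟩ : ∃ v, w = v + 2 := ⟨w - 2, by omega⟩
    rw [gr_single hx, m_single]
    have h1 := Mu_mem hD a w (Pi.single (w + 2) (x (w + 2))) (single_gr _)
    rw [gr_single h1]
    rfl
  · have h1 : mT (S0 hD) a x = 0 := by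
      funext v
      have h3 : x (v + 2) = 0 := hx _ (by omega)
      change (S0 hD).low a v (x (v + 2)) = 0
      rw [h3, map_zero]
    rw [h1]
    by_cases h3 : w ≤ n
    · rw [Mu_low hD h3]
      interval_cases w <;> rfl
    · have : x = 0 := gr_zero hx (hD.top a _ _ (by omega))
      rw [this, map_zero]

/-- the Lefschetz structure -/
theorem hl0 (hD : IsReduction D n) (a : ℕ) : HL (Gr D a) n (lT D a) (mT (S0 hD) a) where
  lG w x hx := lT_mem hx
  mG w x hx := by
    rw [m_eq hD x hx]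
    exact Mu_mem hD a w x hx
  m0 w x hw hx := by
    funext v
    have h1 : x (v + 2) = 0 := hx _ (by omega)
    change (S0 hD).low a v (x (v + 2)) = 0
    rw [h1, map_zero]
  rel w x hx := by
    rw [m_eq hD x hx, m_eq hD _ (lT_mem hx)]
    exact Mu_rel hD x hx
  top w x hw hx := gr_zero hx (hD.top a _ _ (by omega))
  inj w r x hr hx h0 := by
    rw [← l_Iu hD hr x hx, h0, map_zero]
  surj w r y hr hy := ⟨Iu hD a w y, Iu_mem hD a w y, Iu_l hD hr y hy⟩

/-- the constant `(-1)^(i(i+1)/2) / r!` -/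
noncomputable def cs (E : Type) [Field E] (n a w : ℕ) : E :=
  sgn E a w * (((n - w).factorial : ℕ) : E)⁻¹

/-- the star operator in degrees at most `n` -/
noncomputable def Sl (hD : IsReduction D n) (a : ℕ) : ℕ → Tt D a →ₗ[E] Tt D a
  | 0 => cs E n a 0 • (lT D a ^ n)
  | 1 => cs E n a 1 • (lT D a ^ (n - 1))
  | w + 2 => cs E n a (w + 2) • (lT D a ^ (n - (w + 2))).comp
      (LinearMap.id - (lT D a).comp (Yu hD a w)) +
        (mT (S0 hD) a).comp ((Sl hD a w).comp (Yu hD a w))

lemma Sl_apply (hD : IsReduction D n) (a w : ℕ) (x : Tt D a) :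
    Sl hD a (w + 2) x = cs E n a (w + 2) • (lT D a ^ (n - (w + 2))) (x - lT D a (Yu hD a w x)) +
      mT (S0 hD) a (Sl hD a w (Yu hD a w x)) := rfl

/-- primitive classes -/
lemma Sl_prim (hD : IsReduction D n) {a w r : ℕ} (h : w + r = n) (x : Tt D a)
    (hx : x ∈ Gr D a w) (h0 : (lT D a ^ (r + 1)) x = 0) :
    Sl hD a w x = cs E n a w • (lT D a ^ r) x := by
  obtain rfl : r = n - w := by omega
  match w with
  | 0 => rfl
  | 1 => rfl
  | w + 2 =>
    have h1 : Yu hD a w x = 0 := by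
      change Iu hD a w ((lT D a ^ (n - (w + 2) + 1)) x) = 0
      rw [h0, map_zero]
    rw [Sl_apply, h1, map_zero, sub_zero, map_zero, map_zero, add_zero]

lemma Sl_mem (hD : IsReduction D n) (a : ℕ) : ∀ w, w ≤ n → ∀ x ∈ Gr D a w,
    Sl hD a w x ∈ Gr D a (2 * n - w) := by
  intro w
  induction w using Nat.strong_induction_on with
  | _ w ih =>
    intro hw x hx
    match w, ih, hw, hx with
    | 0, _, hw, hx =>
      have h1 := lT_pow_mem hx n
      have e : 0 + 2 * n = 2 * n - 0 := by omega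
      rw [e] at h1
      exact Submodule.smul_mem _ _ h1
    | 1, _, hw, hx =>
      have h1 := lT_pow_mem hx (n - 1)
      have e : 1 + 2 * (n - 1) = 2 * n - 1 := by omega
      rw [e] at h1
      exact Submodule.smul_mem _ _ h1
    | w + 2, ih, hw, hx =>
      rw [Sl_apply]
      refine Submodule.add_mem _ (Submodule.smul_mem _ _ ?_) ?_
      · have h1 : x - lT D a (Yu hD a w x) ∈ Gr D a (w + 2) :=
          Submodule.sub_mem _ hx (lT_mem (Yu_mem hD a w x))
        have h2 := lT_pow_mem h1 (n - (w + 2))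
        have e : w + 2 + 2 * (n - (w + 2)) = 2 * n - (w + 2) := by omega
        rwa [e] at h2
      · have h1 := ih w (by omega) (by omega) _ (Yu_mem hD a w x)
        have e : 2 * n - w = 2 * n - (w + 2) + 2 := by omega
        rw [e] at h1
        exact (hl0 hD a).mG _ _ h1

open Classical in
/-- the star operator in degree `w` -/
noncomputable def Su (hD : IsReduction D n) (a w : ℕ) : Tt D a →ₗ[E] Tt D a :=
  if w ≤ n then Sl hD a w else
    (mT (S0 hD) a ^ (w - n)).comp ((Sl hD a (2 * n - w)).comp (Iu hD a (2 * n - w)))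

lemma Su_low (hD : IsReduction D n) {a w : ℕ} (h : w ≤ n) (x : Tt D a) :
    Su hD a w x = Sl hD a w x := by
  unfold Su
  rw [if_pos h]

lemma Su_high (hD : IsReduction D n) {a u s : ℕ} (h : u + (s + 1) = n) (x : Tt D a) :
    Su hD a (u + 2 * (s + 1)) x = (mT (S0 hD) a ^ (s + 1)) (Sl hD a u (Iu hD a u x)) := by
  unfold Su
  rw [if_neg (by omega)]
  have e1 : u + 2 * (s + 1) - n = s + 1 := by omega
  have e2 : 2 * n - (u + 2 * (s + 1)) = u := by omega
  rw [e1, e2]
  rfl

lemma m_pow_mem (hD : IsReduction D n) {a : ℕ} (j : ℕ) : ∀ (w : ℕ) (x : Tt D a),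
    x ∈ Gr D a (w + 2 * j) → (mT (S0 hD) a ^ j) x ∈ Gr D a w := by
  induction j with
  | zero => exact fun w x hx => hx
  | succ j ih =>
    intro w x hx
    rw [pow_succ, Module.End.mul_apply]
    exact ih w _ ((hl0 hD a).mG _ _ hx)

lemma Su_mem (hD : IsReduction D n) {a w v : ℕ} (hwv : w + v = 2 * n) (x : Tt D a)
    (hx : x ∈ Gr D a w) : Su hD a w x ∈ Gr D a v := by
  by_cases hw : w ≤ n
  · rw [Su_low hD hw]
    have := Sl_mem hD a w hw x hx
    have e : 2 * n - w = v := by omega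
    rwa [e] at this
  · obtain ⟨u, s, hu, rfl⟩ : ∃ u s, u + (s + 1) = n ∧ w = u + 2 * (s + 1) :=
      ⟨2 * n - w, w - n - 1, by omega, by omega⟩
    rw [Su_high hD hu]
    apply m_pow_mem hD
    have := Sl_mem hD a u (by omega) _ (Iu_mem hD a u x)
    have e : 2 * n - u = v + 2 * (s + 1) := by omega
    rwa [e] at this

/-- `Λ^(j+1) L^j p = 0` for primitive `p` -/
lemma m_pow_l_pow (hD : IsReduction D n) {a u : ℕ} {p : Tt D a} (hp : p ∈ Gr D a u)
    (h0 : mT (S0 hD) a p = 0) (j : ℕ) : (mT (S0 hD) a ^ (j + 1)) ((lT D a ^ j) p) = 0 := by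
  induction j with
  | zero =>
    rw [pow_zero, zero_add, pow_one]
    exact h0
  | succ j ih =>
    rw [pow_succ, Module.End.mul_apply, (hl0 hD a).comm0 hp h0 j, map_smul, ih, smul_zero]

/-- `* L = Λ *` -/
theorem Su_l (hD : IsReduction D n) {a w : ℕ} (x : Tt D a) (hx : x ∈ Gr D a w)
    (hw2 : w + 2 ≤ 2 * n) : Su hD a (w + 2) (lT D a x) = mT (S0 hD) a (Su hD a w x) := by
  by_cases h1 : w + 2 ≤ n
  · rw [Su_low hD h1, Su_low hD (by omega), Sl_apply, Yu_l hD h1 x hx, sub_self, map_zero,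
      smul_zero, zero_add]
  by_cases hw : w ≤ n
  · rw [Su_low hD hw]
    by_cases h2 : w + 1 = n
    · have h3 : w + 2 = w + 2 * (0 + 1) := by ring
      have h4 : Iu hD a w (lT D a x) = x := by
        have := l_Iu hD (r := 1) h2 x hx
        rwa [pow_one] at this
      rw [h3, Su_high hD (by omega), h4, zero_add, pow_one]
    · obtain rfl : w = n := by omega
      obtain ⟨u, rfl⟩ : ∃ u, w = u + 2 := ⟨w - 2, by omega⟩
      have h4 : u + 2 + 2 = u + 2 * (1 + 1) := by ring
      have h5 : Yu hD a u x = Iu hD a u (lT D a x) := by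
        change Iu hD a u ((lT D a ^ (u + 2 - (u + 2) + 1)) x) = _
        rw [Nat.sub_self, zero_add, pow_one]
      have h6 : x - lT D a (Yu hD a u x) ∈ Gr D a (u + 2) :=
        Submodule.sub_mem _ hx (lT_mem (Yu_mem hD a u x))
      have h7 : mT (S0 hD) a (x - lT D a (Yu hD a u x)) = 0 := by
        apply (hl0 hD a).prim' (r := 0) (by omega) h6
        have := l_Yu hD (r := 0) (by omega) x hx
        rw [map_sub, ← this, ← Module.End.mul_apply (lT D a ^ (0 + 1)) (lT D a), ← pow_succ,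
          sub_self]
      rw [h4, Su_high hD (by omega), Sl_apply, map_add, map_smul, Nat.sub_self, pow_zero]
      change _ = cs E (u + 2) a (u + 2) • mT (S0 hD) a (x - lT D a (Yu hD a u x)) + _
      rw [h7, smul_zero, zero_add, h5, pow_succ, pow_one, Module.End.mul_apply]
  · obtain ⟨u, s, hu, rfl⟩ : ∃ u s, u + (s + 1) = n ∧ w = u + 2 * (s + 1) :=
      ⟨2 * n - w, w - n - 1, by omega, by omega⟩
    have hz : (lT D a ^ (s + 1)) (Iu hD a u x) = x := Iu_l hD hu x hx
    obtain ⟨v, rfl⟩ : ∃ v, u = v + 2 := ⟨u - 2, by omega⟩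
    have h4 : v + 2 + 2 * (s + 1) + 2 = v + 2 * ((s + 2) + 1) := by ring
    have h5 : Yu hD a v (Iu hD a (v + 2) x) = Iu hD a v (lT D a x) := by
      change Iu hD a v ((lT D a ^ (n - (v + 2) + 1)) (Iu hD a (v + 2) x)) = _
      have e : n - (v + 2) + 1 = s + 1 + 1 := by omega
      rw [e, pow_succ', Module.End.mul_apply, hz]
    have h6 : Iu hD a (v + 2) x - lT D a (Yu hD a v (Iu hD a (v + 2) x)) ∈ Gr D a (v + 2) :=
      Submodule.sub_mem _ (Iu_mem hD a _ x) (lT_mem (Yu_mem hD a v _))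
    have h7 : mT (S0 hD) a (Iu hD a (v + 2) x - lT D a (Yu hD a v (Iu hD a (v + 2) x))) = 0 := by
      apply (hl0 hD a).prim' (r := s + 1) hu h6
      have := l_Yu hD (r := s + 1) hu (Iu hD a (v + 2) x) (Iu_mem hD a _ x)
      rw [map_sub, ← this, ← Module.End.mul_apply (lT D a ^ (s + 1 + 1)) (lT D a), ← pow_succ,
        sub_self]
    have e : n - (v + 2) = s + 1 := by omega
    rw [h4, Su_high hD (by omega), Su_high hD hu, Sl_apply, e, map_add, map_smul, map_add,
      map_smul, ← Module.End.mul_apply (mT (S0 hD) a) (mT (S0 hD) a ^ (s + 1)), ← pow_succ',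
      m_pow_l_pow hD h6 h7, smul_zero, zero_add, h5,
      ← Module.End.mul_apply (mT (S0 hD) a) (mT (S0 hD) a ^ (s + 1)), ← pow_succ',
      ← Module.End.mul_apply (mT (S0 hD) a ^ (s + 1 + 1)) (mT (S0 hD) a), ← pow_succ]

end Pool.Agent.W552.Ws
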