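import Mathlib
import Pool.Agent.W552.WsStar

/-!
# Existence of `Λ` and the star operator
-/

set_option autoImplicit false

namespace Pool.Agent.W552.Ws

open Module Pool.Agent.W522.M Pool.Agent.W552.Wl Pool.Agent.W552.Wd

variable {E : Type} [Field E] [CharZero E] {D : Strata E} {n : ℕ}

/-- the operators `Λ` and `*` -/
noncomputable def S1 (hD : IsReduction D n) : Stars D where
  low := lowOp hD
  star a w v := (LinearMap.proj v).comp ((Su hD a w).comp
    (LinearMap.single E (fun w => D.V a w) w))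

lemma m_S1 (hD : IsReduction D n) (a : ℕ) : mT (S1 hD) a = mT (S0 hD) a := rfl

lemma s_eq (hD : IsReduction D n) {a w v : ℕ} (hwv : w + v = 2 * n) (x : Tt D a)
    (hx : x ∈ Gr D a w) : sT (S1 hD) n a x = Su hD a w x := by
  have h1 := Su_mem hD hwv x hx
  rw [gr_single h1]
  conv_lhs => rw [gr_single hx]
  rw [s_single hD hwv]
  congr 1
  change (Su hD a w (Pi.single w (x w))) v = _
  rw [← gr_single hx]

lemma s_mem (hD : IsReduction D n) {a w v : ℕ} (hwv : w + v = 2 * n) (x : Tt D a)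
    (hx : x ∈ Gr D a w) : sT (S1 hD) n a x ∈ Gr D a v := sT_mem hD a w v x hwv hx

/-- `* L = Λ *` -/
lemma s_l (hD : IsReduction D n) {a w : ℕ} (x : Tt D a) (hx : x ∈ Gr D a w) :
    sT (S1 hD) n a (lT D a x) = mT (S0 hD) a (sT (S1 hD) n a x) := by
  by_cases h0 : 2 * n < w
  · have : x = 0 := gr_zero hx (hD.top a _ _ (by omega))
    rw [this]
    simp
  by_cases h2 : w + 2 ≤ 2 * n
  · rw [s_eq hD (w := w + 2) (v := 2 * n - (w + 2)) (by omega) _ (lT_mem hx),
      s_eq hD (w := w) (v := 2 * n - w) (by omega) x hx]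
    exact Su_l hD x hx h2
  · have h3 : lT D a x = 0 := gr_zero (lT_mem hx) (hD.top a _ _ (by omega))
    have h4 := s_mem hD (v := 2 * n - w) (by omega) x hx
    rw [h3, map_zero, (hl0 hD a).m0 _ _ (by omega) h4]

lemma s_l_pow (hD : IsReduction D n) {a w : ℕ} (x : Tt D a) (hx : x ∈ Gr D a w) (j : ℕ) :
    sT (S1 hD) n a ((lT D a ^ j) x) = (mT (S0 hD) a ^ j) (sT (S1 hD) n a x) := by
  induction j with
  | zero => rfl
  | succ j ih =>
    rw [pow_succ', Module.End.mul_apply, s_l hD _ (lT_pow_mem hx j), ih, pow_succ',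
      Module.End.mul_apply]

lemma s_prim (hD : IsReduction D n) {a w r : ℕ} (h : w + r = n) (x : Tt D a)
    (hx : x ∈ Gr D a w) (h0 : (lT D a ^ (r + 1)) x = 0) :
    sT (S1 hD) n a x = cs E n a w • (lT D a ^ r) x := by
  rw [s_eq hD (v := 2 * n - w) (by omega) x hx, Su_low hD (by omega)]
  exact Sl_prim hD h x hx h0

/-- `* Λ = L *` -/
lemma s_m (hD : IsReduction D n) (a w : ℕ) (x : Tt D a) (hx : x ∈ Gr D a w) :
    sT (S1 hD) n a (mT (S0 hD) a x) = lT D a (sT (S1 hD) n a x) := by
  have key := (hl0 hD a).ind ((sT (S1 hD) n a).comp (mT (S0 hD) a) -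
    (lT D a).comp (sT (S1 hD) n a))
    (fun w x hw hx h0 => by
      obtain ⟨r, hr⟩ : ∃ r, w + r = n := ⟨n - w, by omega⟩
      have hp := (hl0 hD a).prim hr hx h0
      change sT (S1 hD) n a (mT (S0 hD) a x) - lT D a (sT (S1 hD) n a x) = 0
      rw [h0, map_zero, s_prim hD hr x hx hp, map_smul, ← Module.End.mul_apply (lT D a),
        ← pow_succ', hp, smul_zero, sub_zero])
    (fun w x hx h0 => by
      change sT (S1 hD) n a (mT (S0 hD) a x) - lT D a (sT (S1 hD) n a x) = 0 at h0
      change sT (S1 hD) n a (mT (S0 hD) a (lT D a x)) - lT D a (sT (S1 hD) n a (lT D a x)) = 0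
      by_cases hw : 2 * n < w
      · have : x = 0 := gr_zero hx (hD.top a _ _ (by omega))
        rw [this]
        simp
      · obtain ⟨v, hv⟩ : ∃ v, w + v = 2 * n := ⟨2 * n - w, by omega⟩
        have hsx := s_mem hD hv x hx
        have h1 : sT (S1 hD) n a (lT D a (mT (S0 hD) a x)) =
            mT (S0 hD) a (sT (S1 hD) n a (mT (S0 hD) a x)) := by
          by_cases h2 : 2 ≤ w
          · obtain ⟨u, rfl⟩ : ∃ u, w = u + 2 := ⟨w - 2, by omega⟩
            exact s_l hD _ ((hl0 hD a).mG _ _ hx)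
          · rw [(hl0 hD a).m0 _ _ (by omega) hx]
            simp
        rw [(hl0 hD a).rel w x hx, map_add, map_smul, h1, s_l hD x hx, sub_eq_zero.1 h0,
          (hl0 hD a).rel v _ hsx]
        have e : (n : E) - v = - ((n : E) - w) := by
          have : ((w + v : ℕ) : E) = ((2 * n : ℕ) : E) := by rw [hv]
          push_cast at this
          linear_combination (-1 : E) * this
        rw [e]
        module)
  exact sub_eq_zero.1 (key w x hx)

/-- `Λ^j L^r p` -/
lemma m_pow_l (hD : IsReduction D n) {a u r : ℕ} {p : Tt D a} (hr : u + r = n)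
    (hp : p ∈ Gr D a u) (h0 : mT (S0 hD) a p = 0) (j : ℕ) : ∀ i, j + i = r →
    ((i.factorial : ℕ) : E) • (mT (S0 hD) a ^ j) ((lT D a ^ r) p) =
      (((r.factorial : ℕ) : E) * ((j.factorial : ℕ) : E)) • (lT D a ^ i) p := by
  induction j with
  | zero =>
    intro i hi
    obtain rfl : i = r := by omega
    rw [Nat.factorial_zero, Nat.cast_one, mul_one]
    rfl
  | succ j ih =>
    intro i hi
    have h1 := congrArg (mT (S0 hD) a) (ih (i + 1) (by omega))
    rw [map_smul, map_smul, ← Module.End.mul_apply (mT (S0 hD) a), ← pow_succ',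
      (hl0 hD a).comm0 hp h0 i] at h1
    have e : (n : E) - u - i = (j : E) + 1 := by
      have : n = u + (j + 1 + i) := by omega
      rw [this]
      push_cast
      ring
    have hi0 : ((i : E) + 1) ≠ 0 := by exact_mod_cast Nat.succ_ne_zero i
    rw [e] at h1
    apply smul_right_injective _ hi0
    change ((i : E) + 1) • _ = ((i : E) + 1) • _
    rw [smul_smul, smul_smul]
    have e2 : ((i : E) + 1) * ((i.factorial : ℕ) : E) = (((i + 1).factorial : ℕ) : E) := by
      rw [Nat.factorial_succ]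
      push_cast
      ring
    rw [e2, h1, smul_smul]
    congr 1
    rw [Nat.factorial_succ j]
    push_cast
    ring

/-- `* * = 1` -/
lemma s_s (hD : IsReduction D n) (a w : ℕ) (x : Tt D a) (hx : x ∈ Gr D a w) :
    sT (S1 hD) n a (sT (S1 hD) n a x) = x := by
  have key := (hl0 hD a).ind ((sT (S1 hD) n a).comp (sT (S1 hD) n a) - LinearMap.id)
    (fun w x hw hx h0 => by
      obtain ⟨r, hr⟩ : ∃ r, w + r = n := ⟨n - w, by omega⟩
      have hp := (hl0 hD a).prim hr hx h0
      change sT (S1 hD) n a (sT (S1 hD) n a x) - x = 0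
      rw [s_prim hD hr x hx hp, map_smul, s_l_pow hD x hx, s_prim hD hr x hx hp, map_smul]
      have h1 := m_pow_l hD hr hx h0 r 0 (by omega)
      rw [Nat.factorial_zero, Nat.cast_one, one_smul] at h1
      rw [h1]
      have hf : ((r.factorial : ℕ) : E) ≠ 0 := by exact_mod_cast r.factorial_ne_zero
      have hsg : sgn E a w * sgn E a w = 1 := by
        unfold sgn
        rw [← mul_pow]
        norm_num
      have e : n - w = r := by omega
      rw [smul_smul, smul_smul]
      have e2 : cs E n a w * cs E n a w * (((r.factorial : ℕ) : E) * ((r.factorial : ℕ) : E)) =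
          1 := by
        unfold cs
        rw [e]
        field_simp
        linear_combination hsg
      rw [mul_assoc, ← mul_assoc (cs E n a w)] at *
      rw [show cs E n a w * cs E n a w * (((r.factorial : ℕ) : E) * ((r.factorial : ℕ) : E)) = 1
        from e2]
      change (1 : E) • x - x = 0
      rw [one_smul, sub_self])
    (fun w x hx h0 => by
      change sT (S1 hD) n a (sT (S1 hD) n a x) - x = 0 at h0
      change sT (S1 hD) n a (sT (S1 hD) n a (lT D a x)) - lT D a x = 0
      by_cases hw : 2 * n < w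
      · have : x = 0 := gr_zero hx (hD.top a _ _ (by omega))
        rw [this]
        simp
      · obtain ⟨v, hv⟩ : ∃ v, w + v = 2 * n := ⟨2 * n - w, by omega⟩
        rw [s_l hD x hx, s_m hD a v _ (s_mem hD hv x hx), sub_eq_zero.1 h0, sub_self])
  exact sub_eq_zero.1 (key w x hx)

/-- induction on the primitive decomposition, for predicates -/
theorem ind' {W : Type*} [AddCommGroup W] [Module E W] {G : ℕ → Submodule E W} {l m : W →ₗ[E] W}
    (h : HL G n l m) (P : ℕ → W → Prop) (h0 : ∀ w, P w 0)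
    (hadd : ∀ w x y, P w x → P w y → P w (x + y))
    (hp : ∀ w x, w ≤ n → x ∈ G w → m x = 0 → P w x)
    (hs : ∀ w x, x ∈ G w → P w x → P (w + 2) (l x)) : ∀ w x, x ∈ G w → P w x := by
  intro w
  induction w using Nat.strong_induction_on with
  | _ w ih =>
    intro x hx
    by_cases hw : w ≤ n
    · obtain ⟨r, hr⟩ : ∃ r, w + r = n := ⟨n - w, by omega⟩
      by_cases hw2 : w < 2
      · exact hp w x hw hx (h.m0 w x hw2 hx)
      · obtain ⟨u, rfl⟩ : ∃ u, w = u + 2 := ⟨w - 2, by omega⟩
        have h1 := h.pG hx (r + 1)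
        have e : u + 2 + 2 * (r + 1) = u + 2 * (r + 2) := by ring
        rw [e] at h1
        obtain ⟨y, hy, hyx⟩ := h.surj u (r + 2) _ (by omega) h1
        have h2 : x - l y ∈ G (u + 2) := (G _).sub_mem hx (h.lG _ _ hy)
        have h3 : (l ^ (r + 1)) (x - l y) = 0 := by
          rw [map_sub, ← hyx]
          have : (l ^ (r + 1)) (l y) = (l ^ (r + 2)) y := by
            rw [← Module.End.mul_apply, ← pow_succ]
          rw [this, sub_self]
        have h4 := hp _ _ hw h2 (h.prim' hr h2 h3)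
        have h5 := hadd _ _ _ h4 (hs u y hy (ih u (by omega) y hy))
        rwa [sub_add_cancel] at h5
    · by_cases hw2 : 2 * n < w
      · rw [h.top w x hw2 hx]
        exact h0 w
      · obtain ⟨r, hr⟩ : ∃ r, w = n + (r + 1) := ⟨w - n - 1, by omega⟩
        obtain ⟨u, hu⟩ : ∃ u, u + (r + 1) = n := ⟨n - (r + 1), by omega⟩
        obtain rfl : w = u + 2 * (r + 1) := by omega
        obtain ⟨y, hy, rfl⟩ := h.surj u (r + 1) x hu hx
        rw [pow_succ', Module.End.mul_apply]
        exact hs _ _ (h.pG hy r) (ih (u + 2 * r) (by omega) _ (h.pG hy r))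

/-- `Λ` is its own transpose -/
lemma m_adj (hD : IsReduction D n) (a w : ℕ) (x : Tt D a) (hx : x ∈ Gr D a w) :
    ∀ w0 v0 (y : Tt D a), w = w0 + 2 → w0 + v0 + 2 = 2 * n → y ∈ Gr D a (v0 + 2) →
      Bp D a w0 (v0 + 2) (mT (S0 hD) a x) y = Bp D a (w0 + 2) v0 x (mT (S0 hD) a y) := by
  refine ind' (hl0 hD a) (fun w x => ∀ w0 v0 (y : Tt D a), w = w0 + 2 → w0 + v0 + 2 = 2 * n →
    y ∈ Gr D a (v0 + 2) →
      Bp D a w0 (v0 + 2) (mT (S0 hD) a x) y = Bp D a (w0 + 2) v0 x (mT (S0 hD) a y)) ?_ ?_ ?_ ?_ w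
      x hx
  · intro w w0 v0 y _ _ _
    rw [map_zero, Bp_zero_left, Bp_zero_left]
  · intro w x y hx hy w0 v0 z h1 h2 h3
    rw [map_add, Bp_add_left, Bp_add_left, hx w0 v0 z h1 h2 h3, hy w0 v0 z h1 h2 h3]
  · rintro w x hw hx h0 w0 v0 y rfl hwv hy
    rw [h0, Bp_zero_left]
    obtain ⟨r, hr⟩ : ∃ r, w0 + 2 + r = n := ⟨n - (w0 + 2), by omega⟩
    have hp := (hl0 hD a).prim hr hx h0
    have hy' : y ∈ Gr D a (w0 + 2 * (r + 2)) := by
      have e : v0 + 2 = w0 + 2 * (r + 2) := by omega
      rwa [e] at hy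
    obtain ⟨z, hz, rfl⟩ := (hl0 hD a).surj w0 (r + 2) y (by omega) hy'
    have h1 : mT (S0 hD) a ((lT D a ^ (r + 2)) z) = (lT D a ^ (r + 1)) (lT D a (mT (S0 hD) a z) +
        (((r + 1 : ℕ) : E) + 1) • ((n : E) - w0 - (r + 1 : ℕ)) • z) := by
      rw [(hl0 hD a).comm hz (r + 1), map_add, map_smul, map_smul, smul_smul,
        ← Module.End.mul_apply (lT D a ^ (r + 1)) (lT D a), ← pow_succ]
    have hv0 : v0 = w0 + 2 * (r + 1) := by omega
    rw [h1, ← Bp_move hD (a := a) (r + 1) (w0 + 2) w0 (w0 + 2 + 2 * (r + 1)) v0 x _ rfl hv0, hp,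
      Bp_zero_left]
  · rintro w x hx ih w0 v0 y hw hwv hy
    obtain rfl : w = w0 := by omega
    have hmx : mT (S0 hD) a (lT D a x) = lT D a (mT (S0 hD) a x) + ((n : E) - w) • x :=
      (hl0 hD a).rel w x hx
    have hmy : mT (S0 hD) a (lT D a y) = lT D a (mT (S0 hD) a y) + ((n : E) - (v0 + 2 : ℕ)) • y :=
      (hl0 hD a).rel _ y hy
    have hmv1 := Bp_move hD (a := a) 1 w v0 (w + 2) (v0 + 2) x (mT (S0 hD) a y) rfl rfl
    rw [pow_one] at hmv1
    have hly : lT D a (mT (S0 hD) a y) = mT (S0 hD) a (lT D a y) +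
        (-((n : E) - (v0 + 2 : ℕ))) • y := by
      rw [hmy]
      module
    have e : -((n : E) - (v0 + 2 : ℕ)) = (n : E) - w := by
      have : ((w + v0 + 2 : ℕ) : E) = ((2 * n : ℕ) : E) := by rw [hwv]
      push_cast at this ⊢
      linear_combination this
    have hx2 : Bp D a w (v0 + 2) (lT D a (mT (S0 hD) a x)) y =
        Bp D a w (v0 + 2) x (mT (S0 hD) a (lT D a y)) := by
      by_cases h2 : 2 ≤ w
      · obtain ⟨u, rfl⟩ : ∃ u, w = u + 2 := ⟨w - 2, by omega⟩
        have h3 := Bp_move hD (a := a) 1 u (v0 + 2) (u + 2) (v0 + 2 + 2) (mT (S0 hD) a x) y rfl rfl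
        rw [pow_one] at h3
        rw [h3]
        exact ih u (v0 + 2) (lT D a y) rfl (by omega) (lT_mem hy)
      · have h3 : lT D a y = 0 := gr_zero (lT_mem hy) (hD.top a _ _ (by omega))
        rw [(hl0 hD a).m0 _ _ (by omega) hx, h3, map_zero, map_zero, Bp_zero_left, Bp_zero_right]
    have hsl : ∀ (c : E), Bp D a w (v0 + 2) (c • x) y = c * Bp D a w (v0 + 2) x y := by
      intro c
      unfold Bp
      rw [Pi.smul_apply, map_smul, LinearMap.smul_apply, smul_eq_mul]
    rw [hmx, Bp_add_left, hsl, hmv1, hly, Bp_add_right, Bp_smul_right, e, hx2]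

/-- **Existence of `Λ` and `*`.** -/
theorem exists_star (hD : IsReduction D n) : ∃ S : Stars D, S.IsStar n := by
  refine ⟨S1 hD, ?_⟩
  have hlow : ∀ a w (x : D.V a (w + 2)),
      (S1 hD).low a w x = mT (S0 hD) a (Pi.single (w + 2) x) w := by
    intro a w x
    rw [m_single, Pi.single_eq_same]
    rfl
  have hlef : ∀ a w (x : D.V a w), D.lef a w x = lT D a (Pi.single w x) (w + 2) := by
    intro a w x
    rw [l_single, Pi.single_eq_same]
  have hstar : ∀ a w v (x : D.V a w), w + v = 2 * n →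
      (S1 hD).star a w v x = sT (S1 hD) n a (Pi.single w x) v := by
    intro a w v x hwv
    rw [s_single hD hwv, Pi.single_eq_same]
  refine ⟨?_, ?_, ?_, ?_, ?_, ?_⟩
  · intro a w x hw
    change (S1 hD).low a w (D.lef a w x) = ((n : E) - w) • x
    rw [hlow, ← l_single, (hl0 hD a).rel w _ (single_gr x), (hl0 hD a).m0 w _ hw (single_gr x),
      map_zero, zero_add, Pi.smul_apply, Pi.single_eq_same]
  · intro a w x
    change (S1 hD).low a (w + 2) (D.lef a (w + 2) x) =
      D.lef a w ((S1 hD).low a w x) + ((n : E) - (w + 2)) • x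
    rw [hlow, ← l_single, (hl0 hD a).rel _ _ (single_gr x), Pi.add_apply, Pi.smul_apply,
      Pi.single_eq_same, m_single, l_single, Pi.single_eq_same]
    push_cast
    rfl
  · intro a w v x y hwv
    have h1 := m_adj hD a (w + 2) (Pi.single (w + 2) x) (single_gr x) w v (Pi.single (v + 2) y) rfl
      (by omega) (single_gr y)
    unfold Bp at h1
    rw [m_single, m_single, Pi.single_eq_same, Pi.single_eq_same, Pi.single_eq_same,
      Pi.single_eq_same] at h1
    exact h1
  · intro a w v x hwv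
    change (S1 hD).star a v w ((S1 hD).star a w v x) = x
    rw [hstar a v w _ (by omega), ← s_single hD hwv, s_s hD a w _ (single_gr x),
      Pi.single_eq_same]
  · intro a w v x hwv
    change (S1 hD).star a (w + 2) v (D.lef a w x) =
      (S1 hD).low a v ((S1 hD).star a w (v + 2) x)
    rw [hstar a (w + 2) v _ (by omega), ← l_single, s_l hD _ (single_gr x), hlow,
      ← s_single hD (by omega : w + (v + 2) = 2 * n)]
  · intro a w r x hwr h0
    have hwv : w + (w + 2 * r) = 2 * n := by omega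
    have h1 : (lT D a ^ (r + 1)) (Pi.single w x) = 0 := by
      apply gr_zero (lT_pow_mem (single_gr x) (r + 1))
      rw [lT_pow, Pi.single_eq_same]
      exact h0
    have h2 := s_prim hD hwr (Pi.single w x) (single_gr x) h1
    change ((r.factorial : ℕ) : E) • (S1 hD).star a w (w + 2 * r) x = sgn E a w • D.lp a w r x
    rw [hstar a w _ x hwv, h2, Pi.smul_apply, lT_pow, Pi.single_eq_same, smul_smul]
    have e : n - w = r := by omega
    have hf : ((r.factorial : ℕ) : E) ≠ 0 := by exact_mod_cast r.factorial_ne_zero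
    congr 1
    unfold cs
    rw [e]
    field_simp

end Pool.Agent.W552.Ws
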