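import Mathlib
import Pool.Agent.W552.WdDefs

/-!
# Images of the restriction and Gysin maps in even degrees
-/

set_option autoImplicit false

namespace Pool.Agent.W552.Wo

open Pool.Agent.W522.M Pool.Agent.W552.Wl Pool.Agent.W552.Wd

variable {E : Type} [Field E] {D : Strata E}

/-- The images of the restriction and Gysin maps between the cohomology groups of even degree of
the strata are spanned by the classes `L^j x`, `x` the class of a cycle of codimension `0` or
`1`. -/
structure EvenImages (A : D.Cycles) : Prop where
  res : ∀ a w (x : D.V a w), Even (w + a) → rho x ∈ lefSpan A (a + 1) (w + 1)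
  gys : ∀ a w (x : D.V (a + 1) w), Even (w + (a + 1)) → gam x ∈ lefSpan A a (w + 1)

end Pool.Agent.W552.Wo
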