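import Mathlib
import Pool.Agent.W552.WdDefs

/-!
# Strata with cohomology generated in degrees at most two
-/

set_option autoImplicit false

namespace Pool.Agent.W552.Wo

open Pool.Agent.W522.M Pool.Agent.W552.Wl Pool.Agent.W552.Wd

variable {E : Type} [Field E]

/-- A curve `C` (or any smooth projective variety): `T = H^1(C)`, with the form `⟨x, * y⟩`, and the
`ℚ`-spaces `C a` of the maps from `T` to `V a (a + 1) = H^1(Y^(a+1))` that are induced by algebraic
correspondences with rational coefficients. -/
structure Curve (D : Strata E) where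
  /-- `H^1(C)` -/
  T : Type
  [grp : AddCommGroup T]
  [mod : Module E T]
  [fin : FiniteDimensional E T]
  /-- the form `⟨x, * y⟩` -/
  form : T →ₗ[E] T →ₗ[E] E
  /-- correspondences to `Y^(a+1)`, acting on `H^1` -/
  C : ∀ a, AddSubgroup (T →ₗ[E] D.V a (a + 1))

attribute [instance] Curve.grp Curve.mod Curve.fin

variable {D : Strata E}

/-- linear maps from `T` to `T` -/
abbrev Curve.Endo (X : Curve D) := X.T →ₗ[E] X.T

/-- linear maps from `T` to `H^1(Y^(a+1))` -/
abbrev Curve.Map (X : Curve D) (a : ℕ) := X.T →ₗ[E] D.V a (a + 1)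

/-- `f` is induced by a correspondence. -/
def Curve.IsC (X : Curve D) {a : ℕ} (f : X.Map a) : Prop := f ∈ X.C a

/-- the value of the form on `T` -/
def Curve.num (X : Curve D) (x y : X.T) : E := X.form x y

/-- the value of a map -/
def Curve.val (X : Curve D) {a : ℕ} (f : X.Map a) (x : X.T) : D.V a (a + 1) := f x

/-- multiplication by a rational number -/
def Curve.rsmul (X : Curve D) (c : ℚ) {a : ℕ} (f : X.Map a) : X.Map a := (c : E) • f

/-- the composition with the (alternating sum of the) restriction maps -/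
def Curve.restr (X : Curve D) {a : ℕ} (f : X.Map a) : X.Map (a + 1) := (D.res a (a + 1)).comp f

/-- the trace -/
noncomputable def Curve.tr (X : Curve D) (r : X.Endo) : E := LinearMap.trace E X.T r

/-- `r` is the composition of `g` with the transpose of `f`, for the forms `⟨x, * y⟩` on `T` and
`- ⟨x, L^(d-1) y⟩` on `H^1(Y^(a+1))`, `d = n - a`. -/
def Curve.IsProduct (X : Curve D) (n : ℕ) {a : ℕ} (f g : X.Map a) (r : X.Endo) : Prop :=
  ∀ x y, X.num x (r y) = - ip (X.val f x) (pow (n - a - 1) (X.val g y))

/-- The known properties of correspondences in degree `1`. `gys` holds since the inverse of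
`L^(d-1) : H^1 → H^(2d-1)` is algebraic; `rational` and `positive` are Weil's theorem. -/
structure Curve.IsGeometric (X : Curve D) (n : ℕ) : Prop where
  nondeg : ∀ y, (∀ x, X.num x y = 0) → y = 0
  smul : ∀ c a (f : X.Map a), X.IsC f → X.IsC (X.rsmul c f)
  res : ∀ a (f : X.Map a), X.IsC f → X.IsC (X.restr f)
  gys : ∀ a (f : X.Map (a + 1)) (g : X.Map a), a + 2 ≤ n → X.IsC f →
    (∀ t, gam (X.val f t) = lam (X.val g t)) → X.IsC g
  rational : ∀ a (f g : X.Map a) r, a + 1 ≤ n → X.IsC f → X.IsC g → X.IsProduct n f g r →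
    IsRat (X.tr r)
  positive : ∀ a (f : X.Map a) r, a + 1 ≤ n → X.IsC f → f ≠ 0 → X.IsProduct n f f r →
    IsPos (X.tr r)

/-- the classes `L^j x`, `x` in `H^1` in the image of one of the curves `X j` -/
inductive Deg1 {J : Type} (X : J → Curve D) {a : ℕ} : ∀ {w : ℕ}, D.V a w → Prop
  | im (j : J) (f : (X j).Map a) (t : (X j).T) : (X j).IsC f → Deg1 X ((X j).val f t)
  | lam (w : ℕ) (x : D.V a w) : Deg1 X x → Deg1 X (lam x)

/-- the span of the classes `L^j x`, `x` in `H^1` -/
def deg1Span {J : Type} (X : J → Curve D) (a w : ℕ) : Submodule E (D.V a w) :=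
  Submodule.span E {x | Deg1 X x}

/-- The classes in `N a w` are orthogonal to the classes `L^j x`, `x` in `H^1`. -/
def Orthogonal1 {J : Type} (X : J → Curve D) (n : ℕ) (N : Subs D) : Prop :=
  ∀ a w v (x : D.V a w) (y : D.V a v), w + v = 2 * n → x ∈ N a w → Deg1 X y → ip x y = 0

/-- All cohomology of the strata is spanned by the classes `L^j x`, `x` in `H^0`, in `H^1`, or the
class of a divisor, and by the classes in `N`. -/
def GeneratedInLowDegrees {J : Type} (A : D.Cycles) (X : J → Curve D) (N : Subs D) : Prop :=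
  ∀ a w, lefSpan A a w ⊔ deg1Span X a w ⊔ N a w = ⊤

/-- the classes `L^j x`, `x` in `H^0`, in `H^1`, or the class of a divisor -/
inductive Low (A : D.Cycles) {a : ℕ} : ∀ {w : ℕ}, D.V a w → Prop
  | zero (x : D.V a a) : Low A x
  | one (x : D.V a (a + 1)) : Low A x
  | div (x : D.V a (a + 2)) : A.Alg x → Low A x
  | lam (w : ℕ) (x : D.V a w) : Low A x → Low A (lam x)

/-- the span of the classes `L^j x`, `x` in `H^0`, in `H^1`, or the class of a divisor -/
def lowSpan (A : D.Cycles) (a w : ℕ) : Submodule E (D.V a w) :=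
  Submodule.span E {x | Low A x}

/-- The images of the restriction and Gysin maps are spanned by the classes `L^j x`, `x` in `H^0`,
in `H^1`, or the class of a divisor. -/
structure ImagesInLowDegrees (A : D.Cycles) : Prop where
  res : ∀ a w (x : D.V a w), rho x ∈ lowSpan A (a + 1) (w + 1)
  gys : ∀ a w (x : D.V (a + 1) w), gam x ∈ lowSpan A a (w + 1)

/-- `H^1` of all strata is spanned by the images of `H^1` of the curves `X j`. -/
def GenerateH1 {J : Type} (X : J → Curve D) : Prop :=
  ∀ a, Submodule.span E {x : D.V a (a + 1) | ∃ j f t, (X j).IsC f ∧ x = (X j).val f t} = ⊤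

end Pool.Agent.W552.Wo
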