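import Mathlib
import Pool.Agent.W552.WoDefs
import Pool.Agent.W552.WdMain

/-!
# The source given by a curve
-/

set_option autoImplicit false

namespace Pool.Agent.W552.Wo

open Module Pool.Agent.W522.M Pool.Agent.W552.Wl Pool.Agent.W552.Wd

variable {E : Type} [Field E] [CharZero E] {D : Strata E} {S : Stars D} {n : ℕ}

/-- `* L^j p`, uniformly in `p` -/
lemma s_pow' (hD : IsReduction D n) (hS : S.IsStar n) {a u r : ℕ} (hr : u + r = n) (j : ℕ) :
    ∀ i, j + i = r → ∃ q : ℚ, 0 < q ∧ ∀ x : Tt D a, x ∈ Gr D a u → mT S a x = 0 →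
      sT S n a ((lT D a ^ j) x) = (sgn E a u * (q : E)) • (lT D a ^ i) x := by
  induction j with
  | zero =>
    intro i hi
    obtain rfl : i = r := by omega
    have hf : ((i.factorial : ℕ) : E) ≠ 0 := by exact_mod_cast i.factorial_ne_zero
    refine ⟨(i.factorial : ℚ)⁻¹, by positivity, fun x hx h0 => ?_⟩
    have h1 := sT_prim hD hS a u i x hr hx ((hl hD hS a).prim hr hx h0)
    change sT S n a x = _
    have h2 : sT S n a x = ((i.factorial : E))⁻¹ • ((i.factorial : E) • sT S n a x) := by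
      rw [smul_smul, inv_mul_cancel₀ hf, one_smul]
    rw [h2, h1, smul_smul]
    push_cast
    rw [mul_comm]
  | succ j ih =>
    intro i hi
    obtain ⟨q, hq, h⟩ := ih (i + 1) (by omega)
    refine ⟨q * (((i : ℚ) + 1) * ((n : ℚ) - u - i)), ?_, fun x hx h0 => ?_⟩
    · have h1 : (n : ℚ) - u - i = (j : ℚ) + 1 := by
        have : (n : ℚ) = u + (j + 1 + i) := by
          have h2 : n = u + (j + 1 + i) := by omega
          exact_mod_cast h2
        rw [this]
        ring
      rw [h1]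
      positivity
    · have h1 : (lT D a ^ (j + 1)) x = lT D a ((lT D a ^ j) x) := by
        rw [pow_succ', Module.End.mul_apply]
      rw [h1, sT_l hD hS, h x hx h0, map_smul, (hl hD hS a).comm0 hx h0 i, smul_smul]
      congr 1
      push_cast
      ring

/-- `f = L^j g` -/
def IsLp (X : Curve D) {a w : ℕ} (j : ℕ) (g : X.T →ₗ[E] D.V a (a + 1))
    (f : X.T →ₗ[E] D.V a w) : Prop :=
  ∀ t, (Pi.single w (f t) : Tt D a) = (lT D a ^ j) (Pi.single (a + 1) (g t))

/-- the maps `L^j g` -/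
def OC (X : Curve D) (a w : ℕ) : AddSubgroup (X.T →ₗ[E] D.V a w) where
  carrier := {f | f = 0 ∨ ∃ j, w = a + 1 + 2 * j ∧ ∃ g ∈ X.C a, IsLp X j g f}
  zero_mem' := Or.inl rfl
  add_mem' := by
    rintro f f' (rfl | ⟨j, h1, g, hg, h⟩) h'
    · rwa [zero_add]
    · rcases h' with rfl | ⟨j', h1', g', hg', h'⟩
      · rw [add_zero]; exact Or.inr ⟨j, h1, g, hg, h⟩
      · obtain rfl : j' = j := by omega
        refine Or.inr ⟨j', h1, g + g', (X.C a).add_mem hg hg', fun t => ?_⟩
        rw [LinearMap.add_apply, LinearMap.add_apply, Pi.single_add, Pi.single_add, map_add, h t,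
          h' t]
  neg_mem' := by
    rintro f (rfl | ⟨j, h1, g, hg, h⟩)
    · rw [neg_zero]; exact Or.inl rfl
    · refine Or.inr ⟨j, h1, -g, (X.C a).neg_mem hg, fun t => ?_⟩
      rw [LinearMap.neg_apply, LinearMap.neg_apply, Pi.single_neg, Pi.single_neg, map_neg, h t]

/-- the source given by a curve -/
def src (X : Curve D) : Src D where
  T := X.T
  form := X.form
  C := OC X

lemma OC_smul {X : Curve D} (hX : X.IsGeometric n) {a w : ℕ} {f : X.T →ₗ[E] D.V a w}
    (hf : f ∈ OC X a w) (c : ℚ) : (c : E) • f ∈ OC X a w := by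
  rcases hf with rfl | ⟨j, h1, g, hg, h⟩
  · rw [smul_zero]; exact Or.inl rfl
  · refine Or.inr ⟨j, h1, (c : E) • g, hX.smul c a g hg, fun t => ?_⟩
    rw [LinearMap.smul_apply, LinearMap.smul_apply, Pi.single_smul, Pi.single_smul, map_smul, h t]

lemma OC_lef {X : Curve D} {a w : ℕ} {f : X.T →ₗ[E] D.V a w} (hf : f ∈ OC X a w) :
    (D.lef a w).comp f ∈ OC X a (w + 2) := by
  rcases hf with rfl | ⟨j, h1, g, hg, h⟩
  · rw [LinearMap.comp_zero]; exact Or.inl rfl
  · refine Or.inr ⟨j + 1, by omega, g, hg, fun t => ?_⟩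
    rw [LinearMap.comp_apply, ← l_single, h t, pow_succ', Module.End.mul_apply]

lemma OC_res {X : Curve D} (hD : IsReduction D n) (hX : X.IsGeometric n) {a w : ℕ}
    {f : X.T →ₗ[E] D.V a w} (hf : f ∈ OC X a w) :
    (D.res a w).comp f ∈ OC X (a + 1) (w + 1) := by
  rcases hf with rfl | ⟨j, h1, g, hg, h⟩
  · rw [LinearMap.comp_zero]; exact Or.inl rfl
  · refine Or.inr ⟨j, by omega, (D.res a (a + 1)).comp g, hX.res a g hg, fun t => ?_⟩
    rw [LinearMap.comp_apply, ← r_single, h t, rT_pow hD, r_single, LinearMap.comp_apply]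

lemma m_bot1 (hD : IsReduction D n) {a : ℕ} (y : D.V a (a + 1)) :
    mT S a (Pi.single (a + 1) y) = 0 := by
  funext v
  change S.low a v ((Pi.single (a + 1) y : Tt D a) (v + 2)) = 0
  by_cases hv : v + 2 = a + 1
  · exact hD.bounded.neg a v _ (by omega)
  · rw [Pi.single_eq_of_ne hv, map_zero]

lemma OC_low {X : Curve D} (hD : IsReduction D n) (hS : S.IsStar n) (hX : X.IsGeometric n)
    {a w : ℕ} {f : X.T →ₗ[E] D.V a (w + 2)} (hf : f ∈ OC X a (w + 2)) :
    (S.low a w).comp f ∈ OC X a w := by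
  rcases hf with rfl | ⟨j, h1, g, hg, h⟩
  · rw [LinearMap.comp_zero]; exact Or.inl rfl
  · cases j with
    | zero =>
      left
      apply LinearMap.ext
      intro t
      exact hD.bounded.neg a w _ (by omega)
    | succ k =>
      refine Or.inr ⟨k, by omega, (((((k : ℚ) + 1) * ((n : ℚ) - (a + 1 : ℕ) - k) : ℚ) : ℚ) : E) • g,
        hX.smul _ a g hg, fun t => ?_⟩
      rw [LinearMap.comp_apply, ← m_single, h t,
        (hl hD hS a).comm0 (single_gr (g t)) (m_bot1 hD (g t)) k, LinearMap.smul_apply,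
        Pi.single_smul, map_smul]
      push_cast
      rfl

/-- the products -/
lemma prod_key (hD : IsReduction D n) (hS : S.IsStar n) (X : Curve D) {a w v j : ℕ}
    (hw : w = a + 1 + 2 * j) (hwv : w + v = 2 * n) (hle : w + a ≤ 2 * n) :
    ∃ q : ℚ, 0 < q ∧ ∀ (g1 g2 : X.T →ₗ[E] D.V a (a + 1)) (f1 f2 : X.T →ₗ[E] D.V a w),
      IsLp X j g1 f1 → IsLp X j g2 f2 → ∀ x y,
        D.pair a w v (f1 x) (S.star a w v (f2 y)) =
          -(q : E) * D.pair a (a + 1) (a + 1 + 2 * (n - a - 1)) (g1 x)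
            (D.lp a (a + 1) (n - a - 1) (g2 y)) := by
  obtain ⟨i, hi⟩ : ∃ i, j + i = n - a - 1 := ⟨n - a - 1 - j, by omega⟩
  obtain ⟨q, hq, h⟩ := s_pow' hD hS (a := a) (u := a + 1) (r := n - a - 1) (by omega) j i hi
  refine ⟨q, hq, fun g1 g2 f1 f2 h1 h2 x y => ?_⟩
  have e1 : D.pair a w v (f1 x) (S.star a w v (f2 y)) =
      Bp D a w v (Pi.single w (f1 x)) (sT S n a (Pi.single w (f2 y))) := by
    unfold Bp
    rw [s_single hD hwv, Pi.single_eq_same, Pi.single_eq_same]
  have s1 : sgn E a (a + 1) = -1 := by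
    unfold sgn
    rw [Nat.add_sub_cancel_left]
    norm_num
  rw [e1, h1 x, h2 y, h _ (single_gr (g2 y)) (m_bot1 hD (g2 y)), Bp_smul_right, s1,
    Bp_move hD j (a + 1) v w (a + 1 + 2 * (n - a - 1)) _ _ hw (by omega), ← Module.End.mul_apply,
    ← pow_add, hi]
  unfold Bp
  rw [lT_pow, Pi.single_eq_same, Pi.single_eq_same]
  ring

lemma scale_prod (X : Curve D) {a : ℕ} (g1 g2 : X.T →ₗ[E] D.V a (a + 1)) {q : ℚ} (hq : q ≠ 0)
    (r : X.T →ₗ[E] X.T) (hr : ∀ x y, X.form x (r y) = -(q : E) *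
      D.pair a (a + 1) (a + 1 + 2 * (n - a - 1)) (g1 x) (D.lp a (a + 1) (n - a - 1) (g2 y))) :
    X.IsProduct n g1 g2 ((q : E)⁻¹ • r) := by
  have hq0 : (q : E) ≠ 0 := by exact_mod_cast hq
  intro x y
  change X.form x (((q : E)⁻¹ • r) y) = - D.pair a (a + 1) (a + 1 + 2 * (n - a - 1))
    (g1 x) (D.lp a (a + 1) (n - a - 1) (g2 y))
  rw [LinearMap.smul_apply, map_smul, smul_eq_mul, hr x y]
  field_simp

lemma scale_tr (X : Curve D) {q : ℚ} (hq : q ≠ 0) (r : X.T →ₗ[E] X.T) {c : ℚ}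
    (h : X.tr ((q : E)⁻¹ • r) = c) : LinearMap.trace E X.T r = ((q * c : ℚ) : E) := by
  have hq0 : (q : E) ≠ 0 := by exact_mod_cast hq
  have h4 : LinearMap.trace E X.T ((q : E)⁻¹ • r) = (c : E) := h
  rw [map_smul, smul_eq_mul] at h4
  push_cast
  rw [← h4]
  field_simp

lemma zero_tr {X : Curve D} (hX : X.IsGeometric n) (r : X.T →ₗ[E] X.T)
    (h : ∀ x y, X.form x (r y) = 0) : IsRat (LinearMap.trace E X.T r) := by
  have : r = 0 := by
    apply LinearMap.ext
    intro y
    exact hX.nondeg _ (fun x => h x y)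
  refine ⟨0, ?_⟩
  rw [this, map_zero, Rat.cast_zero]

lemma src_rat (hD : IsReduction D n) (hS : S.IsStar n) {X : Curve D} (hX : X.IsGeometric n)
    {a w v : ℕ} (hwv : w + v = 2 * n) (f g : X.T →ₗ[E] D.V a w) (hf : f ∈ OC X a w)
    (hg : g ∈ OC X a w) (r : X.T →ₗ[E] X.T)
    (hr : ∀ x y, X.form x (r y) = D.pair a w v (f x) (S.star a w v (g y))) :
    IsRat (LinearMap.trace E X.T r) := by
  rcases hf with rfl | ⟨j, h1, g1, hg1, h2⟩
  · apply zero_tr hX
    intro x y
    rw [hr x y, LinearMap.zero_apply, map_zero, LinearMap.zero_apply]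
  · rcases hg with rfl | ⟨j', h1', g2, hg2, h2'⟩
    · apply zero_tr hX
      intro x y
      rw [hr x y, LinearMap.zero_apply, map_zero, map_zero]
    · obtain rfl : j' = j := by omega
      by_cases hle : w + a ≤ 2 * n
      · obtain ⟨q, hq, h⟩ := prod_key hD hS X h1 hwv hle
        obtain ⟨c, hc⟩ := hX.rational a g1 g2 ((q : E)⁻¹ • r) (by omega) hg1 hg2
          (scale_prod X g1 g2 hq.ne' r (fun x y => by rw [hr x y, h g1 g2 f g h2 h2' x y]))
        exact ⟨q * c, scale_tr X hq.ne' r hc⟩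
      · apply zero_tr hX
        intro x y
        have h0 : f x = 0 := hD.top a w _ (by omega)
        rw [hr x y, h0, map_zero, LinearMap.zero_apply]

lemma src_ps (hD : IsReduction D n) (hS : S.IsStar n) {X : Curve D} (hX : X.IsGeometric n)
    {a w v : ℕ} (hwv : w + v = 2 * n) (f : X.T →ₗ[E] D.V a w) (hf : f ∈ OC X a w) (h0 : f ≠ 0)
    (r : X.T →ₗ[E] X.T)
    (hr : ∀ x y, X.form x (r y) = D.pair a w v (f x) (S.star a w v (f y))) :
    IsPos (LinearMap.trace E X.T r) := by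
  rcases hf with rfl | ⟨j, h1, g1, hg1, h2⟩
  · exact absurd rfl h0
  · by_cases hle : w + a ≤ 2 * n
    · obtain ⟨q, hq, h⟩ := prod_key hD hS X h1 hwv hle
      have hg0 : g1 ≠ 0 := by
        rintro rfl
        apply h0
        apply LinearMap.ext
        intro t
        have h3 := h2 t
        rw [LinearMap.zero_apply, Pi.single_zero, map_zero] at h3
        have h4 := congrFun h3 w
        rwa [Pi.single_eq_same] at h4
      obtain ⟨c, hc0, hc⟩ := hX.positive a g1 ((q : E)⁻¹ • r) (by omega) hg1 hg0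
        (scale_prod X g1 g1 hq.ne' r (fun x y => by rw [hr x y, h g1 g1 f f h2 h2 x y]))
      exact ⟨q * c, mul_pos hq hc0, scale_tr X hq.ne' r hc⟩
    · exfalso
      apply h0
      apply LinearMap.ext
      intro t
      exact hD.top a w _ (by omega)

lemma src_pos (hD : IsReduction D n) (hS : S.IsStar n) {X : Curve D} (hX : X.IsGeometric n) :
    (src X).IsPositive S n where
  rational a w v f g r hwv hf hg hr := src_rat hD hS hX hwv f g hf hg r hr
  positive a w v f r hwv hf h0 hr := src_ps hD hS hX hwv f hf h0 r hr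

end Pool.Agent.W552.Wo
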