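import Mathlib
import Pool.Agent.W552.WoSrc

/-!
# Strata with cohomology generated in degrees at most two: weight-monodromy, hard Lefschetz
-/

set_option autoImplicit false

namespace Pool.Agent.W552.Wo

open Module Pool.Agent.W522.M Pool.Agent.W552.Wl Pool.Agent.W552.Wd

variable {E : Type} [Field E] [CharZero E] {D : Strata E} {S : Stars D} {n : ℕ} {A : D.Cycles}
  {N : Subs D} {J : Type} {X : J → Curve D}

/-! ### Parity -/

omit [CharZero E] in
lemma Lef_even {a w : ℕ} {x : D.V a w} (h : Lef A x) : ∃ j, w = a + 2 * j := by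
  induction h with
  | comp x h => exact ⟨0, by omega⟩
  | div x h => exact ⟨1, by omega⟩
  | lam w x _ ih =>
    obtain ⟨j, hj⟩ := ih
    exact ⟨j + 1, by omega⟩

omit [CharZero E] in
lemma Deg1_odd {a w : ℕ} {x : D.V a w} (h : Deg1 X x) : ∃ j, w = a + 1 + 2 * j := by
  induction h with
  | im j f t h => exact ⟨0, by omega⟩
  | lam w x _ ih =>
    obtain ⟨j, hj⟩ := ih
    exact ⟨j + 1, by omega⟩

omit [CharZero E] in
lemma lefSpan_zero {a w : ℕ} (h : ∀ j, w ≠ a + 2 * j) {x : D.V a w} (hx : x ∈ lefSpan A a w) :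
    x = 0 := by
  have h1 : lefSpan A a w ≤ ⊥ := by
    unfold lefSpan
    rw [Submodule.span_le]
    intro y hy
    obtain ⟨j, hj⟩ := Lef_even hy
    exact absurd hj (h j)
  exact (Submodule.mem_bot E).1 (h1 hx)

omit [CharZero E] in
lemma deg1Span_zero {a w : ℕ} (h : ∀ j, w ≠ a + 1 + 2 * j) {x : D.V a w}
    (hx : x ∈ deg1Span X a w) : x = 0 := by
  have h1 : deg1Span X a w ≤ ⊥ := by
    unfold deg1Span
    rw [Submodule.span_le]
    intro y hy
    obtain ⟨j, hj⟩ := Deg1_odd hy
    exact absurd hj (h j)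
  exact (Submodule.mem_bot E).1 (h1 hx)

/-! ### Gysin maps on `H^1` -/

lemma Deg1_lam {a w : ℕ} {x : D.V a w} (h : Deg1 X x) : w = a + 1 ∨ ∃ v, w = v + 2 ∧
    ∃ y : D.V a v, (Pi.single w x : Tt D a) = lT D a (Pi.single v y) := by
  cases h with
  | im j f t h => exact Or.inl rfl
  | lam w x h => exact Or.inr ⟨w, rfl, x, (l_single x).symm⟩

lemma deg1_range {a : ℕ} : deg1Span X a (a + 1 + 2) ≤ LinearMap.range (D.lef a (a + 1)) := by
  unfold deg1Span
  rw [Submodule.span_le]
  intro x hx
  rcases Deg1_lam hx with h | ⟨v, hv, y, hy⟩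
  · omega
  · obtain rfl : v = a + 1 := by omega
    rw [l_single] at hy
    exact ⟨y, (Pi.single_injective _ hy).symm⟩

omit [CharZero E] in
lemma ip_N1 (hO : Orthogonal1 X n N) {a w v : ℕ} (hwv : w + v = 2 * n) {x : D.V a w}
    (hx : x ∈ N a w) {y : D.V a v} (hy : y ∈ deg1Span X a v) : D.pair a w v x y = 0 := by
  have h1 : deg1Span X a v ≤ LinearMap.ker (D.pair a w v x) := by
    unfold deg1Span
    rw [Submodule.span_le]
    intro z hz
    exact hO a w v x z hwv hx hz
  exact h1 hy

omit [CharZero E] in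
lemma pair_symm0 (hD : IsReduction D n) {a w v : ℕ} {x : D.V a w} {y : D.V a v}
    (h : D.pair a v w y x = 0) : D.pair a w v x y = 0 := by
  have h1 : D.pair a w v x y = (-1) ^ (w + a) * D.pair a v w y x := hD.duality.symm a w v x y
  rw [h1, h, mul_zero]

/-- Gysin images of classes in `H^1` are multiples of the hyperplane class. -/
lemma gys_div (hD : IsReduction D n) (hN : IsInert S n N)
    (hO : Orthogonal1 X n N) (hgen : GeneratedInLowDegrees A X N) {a : ℕ} (ha : a + 2 ≤ n)
    (y : D.V (a + 1) (a + 1 + 1)) : ∃ z : D.V a (a + 1), D.lef a (a + 1) z =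
      D.gys a (a + 1 + 1) y := by
  obtain ⟨v, hv⟩ : ∃ v, v + (a + 1 + 2) = 2 * n := ⟨2 * n - (a + 1 + 2), by omega⟩
  have hx : D.gys a (a + 1 + 1) y ∈ lefSpan A a (a + 1 + 2) ⊔ deg1Span X a (a + 1 + 2) ⊔
      N a (a + 1 + 2) := by
    rw [hgen a (a + 1 + 2)]
    exact Submodule.mem_top
  obtain ⟨p, hp, ν, hν, hs⟩ := Submodule.mem_sup.1 hx
  obtain ⟨l, hl, o, ho, rfl⟩ := Submodule.mem_sup.1 hp
  obtain rfl : l = 0 := lefSpan_zero (fun j => by omega) hl
  rw [zero_add] at hs
  have key : ∀ z : D.V a v, D.pair a v (a + 1 + 2) z ν = 0 := by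
    intro z
    have hz : z ∈ lefSpan A a v ⊔ deg1Span X a v ⊔ N a v := by
      rw [hgen a v]
      exact Submodule.mem_top
    obtain ⟨p', hp', z3, hz3, rfl⟩ := Submodule.mem_sup.1 hz
    obtain ⟨z1, hz1, z2, hz2, rfl⟩ := Submodule.mem_sup.1 hp'
    obtain rfl : z1 = 0 := lefSpan_zero (fun j => by omega) hz1
    have h2 : D.pair a v (a + 1 + 2) z2 ν = 0 :=
      pair_symm0 hD (ip_N1 hO (by omega) hν hz2)
    have h3 : D.pair a v (a + 1 + 2) z3 ν = 0 := by
      have e : ν = D.gys a (a + 1 + 1) y - o := by rw [← hs, add_sub_cancel_left]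
      have h4 : D.pair a v (a + 1 + 2) z3 o = 0 := ip_N1 hO (by omega) hz3 ho
      have h5 : D.res a v z3 = 0 := hN.res a v z3 hz3
      have h6 : D.pair (a + 1) (v + 1) (a + 1 + 1) (D.res a v z3) y =
          D.pair a v (a + 1 + 2) z3 (D.gys a (a + 1 + 1) y) :=
        hD.duality.adj a v (a + 1 + 1) z3 y
      rw [h5, map_zero, LinearMap.zero_apply] at h6
      rw [e, map_sub, ← h6, h4, sub_zero]
    rw [zero_add, map_add, LinearMap.add_apply, h2, h3, add_zero]
  have hν0 : ν = 0 := pair_zero_of hD hv ν key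
  rw [hν0, add_zero] at hs
  obtain ⟨z, hz⟩ := deg1_range ho
  exact ⟨z, hz.trans hs⟩

lemma lef_inj (hD : IsReduction D n) {a : ℕ} (ha : a + 2 ≤ n) :
    LinearMap.ker (D.lef a (a + 1)) = ⊥ := by
  rw [LinearMap.ker_eq_bot']
  intro x hx
  obtain ⟨r, hr⟩ : ∃ r, a + 1 + (r + 1) = n := ⟨n - (a + 2), by omega⟩
  have h1 : lT D a (Pi.single (a + 1) x) = 0 := by
    rw [l_single, hx, Pi.single_zero]
  have h2 : (lT D a ^ (r + 1)) (Pi.single (a + 1) x) = 0 := by
    rw [pow_succ, Module.End.mul_apply, h1, map_zero]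
  have h3 := lT_pow a (a + 1) (Pi.single (a + 1) x : Tt D a) (r + 1)
  rw [h2, Pi.single_eq_same] at h3
  have h4 : pow (r + 1) x = pow (r + 1) (0 : D.V a (a + 1)) := by
    change D.lp a (a + 1) (r + 1) x = D.lp a (a + 1) (r + 1) 0
    rw [← h3, map_zero]
    rfl
  exact (hD.lefschetz.bij a (a + 1) (r + 1) hr).1 h4

lemma OC_gys (hD : IsReduction D n) (hX : ∀ j, (X j).IsGeometric n)
    (hN : IsInert S n N) (hO : Orthogonal1 X n N) (hgen : GeneratedInLowDegrees A X N) (j : J)
    {a w : ℕ} {f : (X j).T →ₗ[E] D.V (a + 1) w} (hf : f ∈ OC (X j) (a + 1) w) :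
    (D.gys a w).comp f ∈ OC (X j) a (w + 1) := by
  rcases hf with rfl | ⟨i, h1, g, hg, h⟩
  · rw [LinearMap.comp_zero]
    exact Or.inl rfl
  · by_cases ha : a + 2 ≤ n
    · obtain ⟨l, hl⟩ := (D.lef a (a + 1)).exists_leftInverse_of_injective (lef_inj hD ha)
      have hl' : ∀ z, l (D.lef a (a + 1) z) = z := fun z => LinearMap.congr_fun hl z
      have hg' : ∀ t, D.lef a (a + 1) (l (D.gys a (a + 1 + 1) (g t))) =
          D.gys a (a + 1 + 1) (g t) := by
        intro t
        obtain ⟨z, hz⟩ := gys_div (S := S) (A := A) hD hN hO hgen ha (g t)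
        rw [← hz, hl']
      refine Or.inr ⟨i + 1, by omega, l.comp ((D.gys a (a + 1 + 1)).comp g),
        (hX j).gys a g _ ha hg (fun t => (hg' t).symm), fun t => ?_⟩
      have h2 : gT D a (Pi.single (a + 1 + 1) (g t)) =
          lT D a (Pi.single (a + 1) (l (D.gys a (a + 1 + 1) (g t)))) := by
        rw [g_single, l_single, hg']
      rw [LinearMap.comp_apply, ← g_single, h t, gT_pow hD, h2, pow_succ,
        Module.End.mul_apply]
      rfl
    · left
      apply LinearMap.ext
      intro t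
      have h0 : f t = 0 := hD.top (a + 1) w _ (by omega)
      rw [LinearMap.comp_apply, h0, map_zero]
      rfl

lemma src_geom (hD : IsReduction D n) (hS : S.IsStar n) (hX : ∀ j, (X j).IsGeometric n)
    (hN : IsInert S n N) (hO : Orthogonal1 X n N) (hgen : GeneratedInLowDegrees A X N) (j : J) :
    (src (X j)).IsGeometric S where
  nondeg := (hX j).nondeg
  smul c a w f hf := OC_smul (hX j) hf c
  res a w f hf := OC_res hD (hX j) hf
  lower a w f hf := OC_low hD hS (hX j) hf
  gys a w f hf := OC_gys hD hX hN hO hgen j hf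

/-! ### Divisors -/

/-- the inert classes and the odd classes -/
def Np (X : J → Curve D) (N : Subs D) : Subs D := fun a w => N a w ⊔ deg1Span X a w

lemma Np_trans (hT : Transcendental A n N) : Transcendental A n (Np X N) := by
  intro a w v x y hwv hx hy
  obtain ⟨x1, hx1, x2, hx2, rfl⟩ := Submodule.mem_sup.1 hx
  obtain ⟨j, hj⟩ := Lef_even hy
  obtain rfl : x2 = 0 := deg1Span_zero (fun i => by omega) hx2
  rw [add_zero]
  exact hT a w v x1 y hwv hx1 hy

lemma Np_gen (hgen : GeneratedInLowDegrees A X N) : GeneratedByDivisors A (Np X N) := by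
  intro a w
  have h := hgen a w
  unfold Np
  rw [sup_comm (N a w), ← sup_assoc]
  exact h

lemma RV_gys' (hD : IsReduction D n) (hS : S.IsStar n) (hA : A.IsGeometric n)
    (hN : IsInert S n N) (hT : Transcendental A n N) (hgen : GeneratedInLowDegrees A X N) {a w : ℕ}
    {y : D.V (a + 1) w} (hy : y ∈ RV S A (a + 1) w) : D.gys a w y ∈ RV S A a (w + 1) := by
  change (Pi.single (w + 1) (D.gys a w y) : Tt D a) ∈ RW S A a (w + 1)
  rw [← g_single]
  rcases hy with h0 | ⟨j, rfl, c, hc, d, hd, h0⟩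
  · rw [h0, map_zero]
    exact (RW S A _ _).zero_mem
  · rw [h0, map_add, gT_pow hD]
    refine (RW S A _ _).add_mem ?_ ?_
    · have h1 : gT D a c ∈ RW S A a (a + 2) :=
        RW_div hD hS hA (gT_mem a (a + 1) c hc.1) (hA.stable.gys _ _ _ hc.2.1)
      exact RW_pow h1 j _ (by omega)
    · cases j with
      | zero =>
        change gT D a 0 ∈ _
        rw [map_zero]
        exact (RW S A _ _).zero_mem
      | succ k =>
        change gT D a ((lT D (a + 1) ^ k) d) ∈ _
        rw [gT_pow hD]
        have h2 : gT D a d ∈ Gr D a (a + 4) := gT_mem a (a + 1 + 2) d hd.1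
        have h1 : gT D a d ∈ RW S A a (a + 4) := by
          by_cases h4 : 2 * n < a + 4
          · have : gT D a d = 0 := gr_zero h2 (hD.top a _ _ (by omega))
            rw [this]
            exact (RW S A _ _).zero_mem
          · have h3 : gT D a d (a + 4) ∈ RV S A a (a + 4) := by
              apply RV_of hD hS hA (Np_trans hT) (Np_gen hgen) (v := 2 * n - (a + 4)) (by omega) _
                (hA.stable.gys a (a + 3) _ hd.2.1)
              intro z hz
              obtain ⟨z1, hz1, z2, hz2, rfl⟩ := Submodule.mem_sup.1 hz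
              obtain rfl : z2 = 0 := deg1Span_zero (fun i => by omega) hz2
              rw [add_zero]
              have h5 : D.res a (2 * n - (a + 4)) z1 = 0 := hN.res _ _ z1 hz1
              have h6 : D.pair (a + 1) (2 * n - (a + 4) + 1) (a + 3)
                  (D.res a (2 * n - (a + 4)) z1) (d (a + 3)) =
                  D.pair a (2 * n - (a + 4)) (a + 4) z1 (D.gys a (a + 3) (d (a + 3))) :=
                hD.duality.adj a (2 * n - (a + 4)) (a + 3) z1 (d (a + 3))
              rw [h5, map_zero, LinearMap.zero_apply] at h6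
              exact h6.symm
            rw [gr_single h2]
            exact h3
        exact RW_pow h1 k _ (by omega)

lemma pt_geom' (hD : IsReduction D n) (hS : S.IsStar n) (hA : A.IsGeometric n)
    (hN : IsInert S n N) (hT : Transcendental A n N) (hgen : GeneratedInLowDegrees A X N) :
    (pt S A).IsGeometric S where
  nondeg y h := nondeg_E (E := E) y h
  smul c a w f hf := RV_smul hf c
  res a w f hf := RV_res hD hS hA hf
  gys a w f hf := RV_gys' hD hS hA hN hT hgen hf
  lower a w f hf := RV_low hD hS hf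

/-- all sources -/
def allSrc (S : Stars D) (A : D.Cycles) (X : J → Curve D) : Option J → Src D
  | none => pt S A
  | some j => src (X j)

lemma Deg1_image {a w : ℕ} {x : D.V a w} (h : Deg1 X x) :
    ∃ j, ∃ f ∈ OC (X j) a w, ∃ t, x = f t := by
  induction h with
  | im j f t h =>
    refine ⟨j, f, Or.inr ⟨0, rfl, f, h, fun t => ?_⟩, t, rfl⟩
    rw [pow_zero, Module.End.one_apply]
  | lam w x _ ih =>
    obtain ⟨j, f, hf, t, rfl⟩ := ih
    exact ⟨j, (D.lef _ w).comp f, OC_lef hf, t, rfl⟩

theorem all_gen (hD : IsReduction D n) (hS : S.IsStar n) (hA : A.IsGeometric n)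
    (hgen : GeneratedInLowDegrees A X N) (a : ℕ) : GeneratedAt (allSrc S A X) N a := by
  intro w
  rw [← top_le_iff, ← hgen a w]
  refine sup_le_sup_right (sup_le ?_ ?_) _
  · unfold lefSpan imageOf
    apply Submodule.span_mono
    intro x hx
    refine ⟨none, LinearMap.toSpanSingleton E (D.V a w) x, (1 : E), ?_, ?_⟩
    · change LinearMap.toSpanSingleton E (D.V a w) x (1 : E) ∈ RV S A a w
      rw [LinearMap.toSpanSingleton_apply, one_smul]
      exact RV_of_Lef hD hS hA hx
    · change x = LinearMap.toSpanSingleton E (D.V a w) x (1 : E)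
      rw [LinearMap.toSpanSingleton_apply, one_smul]
  · unfold deg1Span imageOf
    apply Submodule.span_mono
    intro x hx
    obtain ⟨j, f, hf, t, h⟩ := Deg1_image hx
    exact ⟨some j, f, t, hf, h⟩

/-- **Strata generated in degrees at most two.** -/
theorem low (hD : IsReduction D n) (hS : S.IsStar n) (hA : A.IsGeometric n)
    (hX : ∀ j, (X j).IsGeometric n) (hN : IsInert S n N) (hT : Transcendental A n N)
    (hO : Orthogonal1 X n N) (hgen : GeneratedInLowDegrees A X N) :
    (∀ w r, 1 ≤ r → D.MonodromyWeight w r) ∧ D.GenericLefschetz n := by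
  have hG : ∀ j, (allSrc S A X j).IsGeometric S := by
    rintro (_ | j)
    · exact pt_geom' hD hS hA hN hT hgen
    · exact src_geom (A := A) hD hS hX hN hO hgen j
  have hP : ∀ j, (allSrc S A X j).IsPositive S n := by
    rintro (_ | j)
    · exact pt_pos hD hS hA
    · exact src_pos hD hS (hX j)
  exact ⟨fun w r hr => main hD hS (allSrc S A X) hG hP N hN
      (fun a => all_gen hD hS hA hgen (a + 1)) w r hr,
    main2 hD hS (allSrc S A X) hG hP N hN (all_gen hD hS hA hgen)⟩

end Pool.Agent.W552.Wo
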