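import Mathlib
import Pool.Agent.W552.WoMain
import Pool.Agent.W552.WsMain

/-!
# Orthogonal complements of the classes generated in low degrees
-/

set_option autoImplicit false

namespace Pool.Agent.W552.Wo

open Module Pool.Agent.W522.M Pool.Agent.W552.Wl Pool.Agent.W552.Wd Pool.Agent.W552.Ws

/-- orthogonal projection to the span of a positive rational space -/
theorem proj_span {E V W : Type*} [Field E] [CharZero E] [AddCommGroup V] [Module E V]
    [FiniteDimensional E V] [AddCommGroup W] [Module E W] (p : V →ₗ[E] W →ₗ[E] E)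
    (L : V →ₗ[E] W) (C : AddSubgroup V) (hsm : ∀ q : ℚ, ∀ x ∈ C, (q : E) • x ∈ C)
    (hrat : ∀ x ∈ C, ∀ y ∈ C, ∃ r : ℚ, p x (L y) = r) (hpos : ∀ x ∈ C, p x (L x) = 0 → x = 0)
    (y : W) : ∃ t ∈ Submodule.span E (C : Set V), ∀ x ∈ C, p x y = p x (L t) := by
  let _ : Module ℚ V := Module.compHom V (algebraMap ℚ E)
  let C' : Submodule ℚ V :=
    { carrier := {x | x ∈ C}
      zero_mem' := C.zero_mem
      add_mem' := fun hx hy => C.add_mem hx hy
      smul_mem' := fun q x hx => hsm q x hx }
  have := fin_of_rat (p.compl₂ L) C' hrat hpos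
  obtain ⟨ρ, hρ⟩ := exists_retr E
  let T : C' →ₗ[ℚ] Module.Dual ℚ C' := LinearMap.mk₂ ℚ (fun t x => ρ (p x (L t)))
    (fun t t' x => by rw [Submodule.coe_add, map_add, map_add, map_add])
    (fun c t x => by
      have h1 : ((c • t : C') : V) = (c : E) • (t : V) := rfl
      rw [h1, map_smul, map_smul, Rat.cast_smul_eq_qsmul, map_smul])
    (fun t x x' => by rw [Submodule.coe_add, map_add, LinearMap.add_apply, map_add])
    (fun c t x => by
      have h1 : ((c • x : C') : V) = (c : E) • (x : V) := rfl
      rw [h1, map_smul, LinearMap.smul_apply, Rat.cast_smul_eq_qsmul, map_smul])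
  have hT : Function.Injective T := by
    rw [← LinearMap.ker_eq_bot, LinearMap.ker_eq_bot']
    intro t ht
    apply Subtype.ext
    apply hpos _ t.2
    obtain ⟨r, hr⟩ := hrat t t.2 t t.2
    have h1 : ρ (p t (L t)) = 0 := congrArg (fun f : Module.Dual ℚ C' => f t) ht
    rw [hr, hρ] at h1
    rw [hr, h1, Rat.cast_zero]
  have hT' : Function.Surjective T := by
    rw [← LinearMap.injective_iff_surjective_of_finrank_eq_finrank]
    · exact hT
    · exact (Subspace.dual_finrank_eq).symm
  let b := Module.finBasis ℚ C'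
  choose t ht using fun i => hT' (b.coord i)
  have h1 : ∀ i (x : C'), p x (L (t i)) = ((b.coord i x : ℚ) : E) := by
    intro i x
    obtain ⟨r, hr⟩ := hrat x x.2 (t i) (t i).2
    have h2 : ρ (p x (L (t i))) = b.coord i x :=
      congrArg (fun f : Module.Dual ℚ C' => f x) (ht i)
    rw [hr, hρ] at h2
    rw [hr, h2]
  refine ⟨∑ i, p (b i) y • (t i : V), Submodule.sum_mem _ (fun i _ =>
    Submodule.smul_mem _ _ (Submodule.subset_span (t i).2)), fun x hx => ?_⟩
  have h3 : (x : V) = ∑ i, ((b.coord i ⟨x, hx⟩ : ℚ) : E) • ((b i : C') : V) := by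
    have h4 := congrArg (fun z : C' => (z : V)) (b.sum_repr ⟨x, hx⟩)
    change ((∑ i, b.repr ⟨x, hx⟩ i • b i : C') : V) = x at h4
    rw [Submodule.coe_sum] at h4
    exact h4.symm
  rw [map_sum, map_sum]
  conv_lhs => rw [h3, map_sum, LinearMap.sum_apply]
  apply Finset.sum_congr rfl
  intro i _
  rw [map_smul, LinearMap.smul_apply, map_smul, map_smul, h1 i ⟨x, hx⟩, smul_eq_mul, smul_eq_mul,
    mul_comm]

variable {E : Type} [Field E] [CharZero E] {D : Strata E} {S : Stars D} {n : ℕ} {A : D.Cycles}
  {J : Type} {X : J → Curve D}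

/-! ### Symmetry of `⟨x, * y⟩` -/

lemma m_adj' (hS : S.IsStar n) {a w v : ℕ} (hwv : w + v + 2 = 2 * n) (x y : Tt D a) :
    Bp D a w (v + 2) (mT S a x) y = Bp D a (w + 2) v x (mT S a y) :=
  hS.adj a w v (x (w + 2)) (y (v + 2)) hwv

lemma s_invol (hD : IsReduction D n) (hS : S.IsStar n) {a w : ℕ} {x : Tt D a}
    (hx : x ∈ Gr D a w) (hw : w ≤ 2 * n) : sT S n a (sT S n a x) = x := by
  obtain ⟨v, hv⟩ : ∃ v, w + v = 2 * n := ⟨2 * n - w, by omega⟩
  rw [gr_single hx, s_single hD hv, s_single hD (by omega : v + w = 2 * n)]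
  congr 1
  exact hS.invol a w v (x w) hv

lemma l_s (hD : IsReduction D n) (hS : S.IsStar n) {a w v : ℕ} (hwv : w + 2 + v = 2 * n)
    {y : Tt D a} (hy : y ∈ Gr D a (w + 2)) :
    lT D a (sT S n a y) = sT S n a (mT S a y) := by
  have h1 : lT D a (sT S n a y) ∈ Gr D a (v + 2) := lT_mem (sT_mem hD a (w + 2) v y hwv hy)
  rw [← s_invol hD hS h1 (by omega), sT_l hD hS, s_invol hD hS hy (by omega)]

lemma ip_symm (hD : IsReduction D n) (a w v : ℕ) (x y : Tt D a) :
    Bp D a w v x y = (-1) ^ (w + a) * Bp D a v w y x := hD.duality.symm a w v (x w) (y v)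

/-- `⟨x, * y⟩` for `x` primitive -/
lemma prim_star (hD : IsReduction D n) (hS : S.IsStar n) {a w r : ℕ} (hr : w + r = n) {q : ℚ}
    (hq : ∀ x : Tt D a, x ∈ Gr D a w → mT S a x = 0 →
      sT S n a x = (sgn E a w * (q : E)) • (lT D a ^ r) x) {x : Tt D a} (hx : x ∈ Gr D a w)
    (h0 : mT S a x = 0) (y : Tt D a) (hy : y ∈ Gr D a w) :
    Bp D a w (w + 2 * r) x (sT S n a y) =
      (sgn E a w * (q : E)) * Bp D a w (w + 2 * r) x ((lT D a ^ r) y) := by
  refine ind' (hl hD hS a) (fun w' y => w' = w → Bp D a w (w + 2 * r) x (sT S n a y) =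
      (sgn E a w * (q : E)) * Bp D a w (w + 2 * r) x ((lT D a ^ r) y)) ?_ ?_ ?_ ?_ w y hy rfl
  · rintro w' rfl
    rw [map_zero, map_zero, Bp_zero_right, mul_zero]
  · rintro w' y y' h h' rfl
    rw [map_add, map_add, Bp_add_right, Bp_add_right, h rfl, h' rfl, mul_add]
  · rintro w' z _ hz hz0 rfl
    rw [hq z hz hz0, Bp_smul_right]
  · rintro w' z hz _ rfl
    have h1 : Bp D a (w' + 2) (w' + 2 + 2 * r) x (sT S n a (lT D a z)) = 0 := by
      rw [sT_l hD hS, ← m_adj' hS (w := w') (v := w' + 2 + 2 * r) (by omega), h0, Bp_zero_left]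
    have h2 : Bp D a (w' + 2) (w' + 2 + 2 * r) x ((lT D a ^ r) (lT D a z)) = 0 := by
      rw [← Module.End.mul_apply, ← pow_succ,
        ← Bp_move hD (r + 1) (w' + 2) w' (w' + 2 + 2 * (r + 1)) (w' + 2 + 2 * r) x z rfl (by omega),
        (hl hD hS a).prim hr hx h0, Bp_zero_left]
    rw [h1, h2, mul_zero]

/-- `⟨x, * y⟩ = ± ⟨y, * x⟩` -/
theorem star_symm (hD : IsReduction D n) (hS : S.IsStar n) {a : ℕ} (w : ℕ) (x : Tt D a)
    (hx : x ∈ Gr D a w) : ∀ v (y : Tt D a), w + v = 2 * n → y ∈ Gr D a w →
      Bp D a w v x (sT S n a y) = (-1) ^ (w + a) * Bp D a w v y (sT S n a x) := by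
  refine ind' (hl hD hS a) (fun w x => ∀ v (y : Tt D a), w + v = 2 * n → y ∈ Gr D a w →
      Bp D a w v x (sT S n a y) = (-1) ^ (w + a) * Bp D a w v y (sT S n a x)) ?_ ?_ ?_ ?_ w x hx
  · intro w v y _ _
    rw [map_zero, Bp_zero_left, Bp_zero_right, mul_zero]
  · intro w x x' h h' v y hwv hy
    rw [map_add, Bp_add_left, Bp_add_right, h v y hwv hy, h' v y hwv hy, mul_add]
  · intro w x hw hx h0 v y hwv hy
    obtain ⟨r, hr⟩ : ∃ r, w + r = n := ⟨n - w, by omega⟩
    obtain rfl : v = w + 2 * r := by omega
    obtain ⟨q, -, hq⟩ := s_pow' hD hS (a := a) hr 0 r (by omega)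
    have hq' : ∀ x : Tt D a, x ∈ Gr D a w → mT S a x = 0 →
      sT S n a x = (sgn E a w * (q : E)) • (lT D a ^ r) x := hq
    rw [prim_star hD hS hr hq' hx h0 y hy, hq' x hx h0, Bp_smul_right,
      ← Bp_move hD r w w (w + 2 * r) (w + 2 * r) y x rfl rfl, ip_symm hD a (w + 2 * r) w]
    have e : ((-1 : E)) ^ (w + a) * (-1) ^ (w + 2 * r + a) = 1 := by
      rw [← pow_add, show w + a + (w + 2 * r + a) = 2 * (w + r + a) by ring, pow_mul]
      norm_num
    linear_combination (-(sgn E a w * (q : E)) *
      Bp D a w (w + 2 * r) x ((lT D a ^ r) y)) * e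
  · intro w x hx ih v y hwv hy
    have hmy : mT S a y ∈ Gr D a w := (hl hD hS a).mG w y hy
    have h1 := Bp_move hD (a := a) 1 w v (w + 2) (v + 2) x (sT S n a y) rfl rfl
    rw [pow_one] at h1
    rw [h1, l_s hD hS hwv hy, ih (v + 2) (mT S a y) (by omega) hmy, m_adj' hS (by omega),
      ← sT_l hD hS]
    have e : ((-1 : E)) ^ (w + 2 + a) = (-1) ^ (w + a) := by
      rw [show w + 2 + a = w + a + 2 by ring, pow_add]
      norm_num
    rw [e]

lemma star_symm' (hD : IsReduction D n) (hS : S.IsStar n) {a w v : ℕ} (hwv : w + v = 2 * n)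
    (x y : D.V a w) : D.pair a w v x (S.star a w v y) =
      (-1) ^ (w + a) * D.pair a w v y (S.star a w v x) := by
  have h := star_symm hD hS w (Pi.single w x : Tt D a) (single_gr x) v (Pi.single w y) hwv
    (single_gr y)
  rw [s_single hD hwv, s_single hD hwv] at h
  unfold Bp at h
  rwa [Pi.single_eq_same, Pi.single_eq_same, Pi.single_eq_same, Pi.single_eq_same] at h

/-! ### The span of the classes generated in low degrees -/

omit [CharZero E] in
lemma lefSpan_lam {a w : ℕ} {x : D.V a w} (hx : x ∈ lefSpan A a w) :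
    D.lef a w x ∈ lefSpan A a (w + 2) := by
  have h : lefSpan A a w ≤ (lefSpan A a (w + 2)).comap (D.lef a w) := by
    unfold lefSpan
    rw [Submodule.span_le]
    intro y hy
    exact Submodule.subset_span (Lef.lam w y hy)
  exact h hx

omit [CharZero E] in
lemma deg1Span_lam {a w : ℕ} {x : D.V a w} (hx : x ∈ deg1Span X a w) :
    D.lef a w x ∈ deg1Span X a (w + 2) := by
  have h : deg1Span X a w ≤ (deg1Span X a (w + 2)).comap (D.lef a w) := by
    unfold deg1Span
    rw [Submodule.span_le]
    intro y hy
    exact Submodule.subset_span (Deg1.lam w y hy)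
  exact h hx

omit [CharZero E] in
lemma deg1_top (hF : GenerateH1 X) {a : ℕ} (x : D.V a (a + 1)) : x ∈ deg1Span X a (a + 1) := by
  have h : (⊤ : Submodule E (D.V a (a + 1))) ≤ deg1Span X a (a + 1) := by
    rw [← hF a]
    unfold deg1Span
    apply Submodule.span_mono
    rintro _ ⟨j, f, t, hf, rfl⟩
    exact Deg1.im j f t hf
  exact h Submodule.mem_top

omit [CharZero E] in
/-- the span of the low classes -/
theorem low_le (hA : A.IsGeometric n) (hF : GenerateH1 X) (a w : ℕ) :
    lowSpan A a w ≤ lefSpan A a w ⊔ deg1Span X a w := by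
  unfold lowSpan
  rw [Submodule.span_le]
  intro x hx
  have hx' : Low A x := hx
  change x ∈ lefSpan A a w ⊔ deg1Span X a w
  clear hx
  induction hx' with
  | zero x =>
    apply Submodule.mem_sup_left
    have h1 : x ∈ A.span _ _ := by
      rw [hA.components.span]
      exact Submodule.mem_top
    have h2 : A.span a a ≤ lefSpan A a a := by
      unfold Strata.Cycles.span lefSpan
      apply Submodule.span_mono
      intro y hy
      exact Lef.comp y hy
    exact h2 h1
  | one x => exact Submodule.mem_sup_right (deg1_top hF x)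
  | div x h => exact Submodule.mem_sup_left (Submodule.subset_span (Lef.div x h))
  | lam w x _ ih =>
    obtain ⟨y, hy, z, hz, rfl⟩ := Submodule.mem_sup.1 ih
    have e : lam (y + z) = D.lef a w y + D.lef a w z := map_add (D.lef a w) y z
    rw [e]
    exact Submodule.add_mem_sup (lefSpan_lam hy) (deg1Span_lam hz)

omit [CharZero E] in
theorem le_low (a w : ℕ) : lefSpan A a w ⊔ deg1Span X a w ≤ lowSpan A a w := by
  refine sup_le ?_ ?_
  · unfold lefSpan lowSpan
    apply Submodule.span_mono
    intro x hx
    have hx' : Lef A x := hx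
    change Low A x
    clear hx
    induction hx' with
    | comp x h => exact Low.zero x
    | div x h => exact Low.div x h
    | lam w x _ ih => exact Low.lam w x ih
  · unfold deg1Span lowSpan
    apply Submodule.span_mono
    intro x hx
    have hx' : Deg1 X x := hx
    change Low A x
    clear hx
    induction hx' with
    | im j f t h => exact Low.one _
    | lam w x _ ih => exact Low.lam w x ih

/-- the orthogonal complements -/
def Pp (A : D.Cycles) (n : ℕ) : Subs D := fun a w =>
  { carrier := {x | ∀ v, w + v = 2 * n → ∀ y ∈ lowSpan A a v, D.pair a w v x y = 0}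
    zero_mem' := fun v _ y _ => by rw [map_zero, LinearMap.zero_apply]
    add_mem' := fun {x x'} hx hx' v hv y hy => by
      rw [map_add, LinearMap.add_apply, hx v hv y hy, hx' v hv y hy, add_zero]
    smul_mem' := fun c x hx v hv y hy => by
      rw [map_smul, LinearMap.smul_apply, hx v hv y hy, smul_zero] }

lemma OC_image (a w : ℕ) {j : J} {f : (X j).T →ₗ[E] D.V a w} (hf : f ∈ OC (X j) a w) (t : (X j).T) :
    f t ∈ deg1Span X a w := by
  rcases hf with rfl | ⟨i, rfl, g, hg, h⟩
  · exact Submodule.zero_mem _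
  · have h1 : ∀ k, Deg1 X (((lT D a ^ k) (Pi.single (a + 1) (g t)) : Tt D a) (a + 1 + 2 * k)) := by
      intro k
      rw [lT_pow, Pi.single_eq_same]
      induction k with
      | zero => exact Deg1.im j g t hg
      | succ k ih => exact Deg1.lam _ _ ih
    have h2 := congrFun (h t) (a + 1 + 2 * i)
    rw [Pi.single_eq_same] at h2
    rw [h2]
    exact Submodule.subset_span (h1 i)

lemma deg1_star (hD : IsReduction D n) (hS : S.IsStar n) {a w v : ℕ} (hwv : w + v = 2 * n)
    {x : D.V a w} (hx : x ∈ deg1Span X a w) : S.star a w v x ∈ deg1Span X a v := by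
  have h : deg1Span X a w ≤ (deg1Span X a v).comap (S.star a w v) := by
    unfold deg1Span
    rw [Submodule.span_le]
    intro y hy
    change S.star a w v y ∈ deg1Span X a v
    obtain ⟨j, f, hf, t, rfl⟩ := Deg1_image hy
    rcases hf with rfl | ⟨i, h1, g, hg, h⟩
    · rw [LinearMap.zero_apply, map_zero]
      exact Submodule.zero_mem _
    · by_cases hle : w + a ≤ 2 * n
      · obtain ⟨k, hk⟩ : ∃ k, i + k = n - a - 1 := ⟨n - a - 1 - i, by omega⟩
        obtain ⟨q, -, hq⟩ := s_pow' hD hS (a := a) (u := a + 1) (r := n - a - 1) (by omega) i k hk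
        have h2 := hq _ (single_gr (g t)) (m_bot1 hD (g t))
        rw [← h t, s_single hD hwv] at h2
        have h3 := congrFun h2 v
        obtain rfl : v = a + 1 + 2 * k := by omega
        rw [Pi.single_eq_same, Pi.smul_apply] at h3
        rw [h3]
        apply Submodule.smul_mem
        have h4 : ∀ k, Deg1 X (((lT D a ^ k) (Pi.single (a + 1) (g t)) : Tt D a)
            (a + 1 + 2 * k)) := by
          intro k
          rw [lT_pow, Pi.single_eq_same]
          induction k with
          | zero => exact Deg1.im j g t hg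
          | succ k ih => exact Deg1.lam _ _ ih
        exact Submodule.subset_span (h4 k)
      · have h0 : f t = 0 := hD.top a w _ (by omega)
        rw [h0, map_zero]
        exact Submodule.zero_mem _
  exact h hx

lemma lef_star (hD : IsReduction D n) (hS : S.IsStar n) (hA : A.IsGeometric n) {a w v : ℕ}
    (hwv : w + v = 2 * n) {x : D.V a w} (hx : x ∈ lefSpan A a w) :
    S.star a w v x ∈ lefSpan A a v := by
  have h : Submodule.span E (RV S A a w : Set (D.V a w)) ≤
      (lefSpan A a v).comap (S.star a w v) := by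
    rw [Submodule.span_le]
    intro y hy
    exact RV_le a v (RV_star hD hS hy hwv)
  exact h (lefSpan_le hD hS hA a w hx)

lemma low_star (hD : IsReduction D n) (hS : S.IsStar n) (hA : A.IsGeometric n)
    (hF : GenerateH1 X) {a w v : ℕ} (hwv : w + v = 2 * n) {x : D.V a w}
    (hx : x ∈ lowSpan A a w) : S.star a w v x ∈ lowSpan A a v := by
  obtain ⟨y, hy, z, hz, rfl⟩ := Submodule.mem_sup.1 (low_le hA hF a w hx)
  rw [map_add]
  exact le_low (X := X) a v (Submodule.add_mem_sup (lef_star hD hS hA hwv hy)
    (deg1_star hD hS hwv hz))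

theorem Pp_inert (hD : IsReduction D n) (hS : S.IsStar n) (hA : A.IsGeometric n)
    (hF : GenerateH1 X) (h : ImagesInLowDegrees A) : IsInert S n (Pp A n) where
  res a w x hx := by
    by_cases hw : w + 1 ≤ 2 * n
    · obtain ⟨v, hv⟩ : ∃ v, w + 1 + v = 2 * n := ⟨2 * n - (w + 1), by omega⟩
      apply hD.duality.nondeg (a + 1) (w + 1) v hv
      intro y
      rw [hD.duality.adj]
      exact hx (v + 1) (by omega) _ (h.gys a v y)
    · exact hD.top (a + 1) (w + 1) _ (by omega)
  gys a w x hx := by
    by_cases hw : w + 1 ≤ 2 * n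
    · obtain ⟨v, hv⟩ : ∃ v, w + 1 + v = 2 * n := ⟨2 * n - (w + 1), by omega⟩
      apply pair_zero_of hD (by omega : v + (w + 1) = 2 * n)
      intro y
      have h1 : D.pair (a + 1) (v + 1) w (D.res a v y) x = D.pair a v (w + 1) y (D.gys a w x) :=
        hD.duality.adj a v w y x
      change D.pair a v (w + 1) y (D.gys a w x) = 0
      rw [← h1]
      exact pair_symm0 hD (hx (v + 1) (by omega) _ (h.res a v y))
    · exact hD.top a (w + 1) _ (by omega)
  star a w v x hwv hx := by
    intro w' hw' y hy
    obtain rfl : w' = w := by omega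
    apply pair_symm0 hD
    change D.pair a w' v y (S.star a w' v x) = 0
    rw [star_symm' hD hS hwv, hx v hwv _ (low_star hD hS hA hF hwv hy), mul_zero]

lemma Pp_trans : Transcendental A n (Pp A n) := by
  intro a w v x y hwv hx hy
  exact hx v hwv y (le_low (X := fun j : Empty => j.elim) a v
    (Submodule.mem_sup_left (Submodule.subset_span hy)))

lemma Pp_orth : Orthogonal1 X n (Pp A n) := by
  intro a w v x y hwv hx hy
  exact hx v hwv y (le_low (X := X) a v (Submodule.mem_sup_right (Submodule.subset_span hy)))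

theorem Pp_gen (hD : IsReduction D n) (hS : S.IsStar n) (hA : A.IsGeometric n)
    (hF : GenerateH1 X) : GeneratedInLowDegrees A X (Pp A n) := by
  intro a w
  rw [eq_top_iff]
  intro x _
  by_cases hw : w ≤ 2 * n
  · obtain ⟨v, hv⟩ : ∃ v, w + v = 2 * n := ⟨2 * n - w, by omega⟩
    have hvw : v + w = 2 * n := by omega
    by_cases hle : w + a ≤ 2 * n
    · by_cases hge : a ≤ w
      · rcases Nat.even_or_odd (w - a) with he | ho
        · -- even degree
          obtain ⟨k, hk⟩ := he
          obtain ⟨t, ht, h1⟩ := proj_span (D.pair a v w) (S.star a v w) (RV S A a v)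
            (fun q x hx => RV_smul hx q)
            (fun x hx x' hx' => hA.rational a v w hvw x _ (RV_alg hA hx)
              (RV_alg hA (RV_star hD hS hx' hvw)))
            (fun x hx h0 => by
              obtain ⟨r, -, h2, h3⟩ := RV_pos hD hS hA hx hvw
              apply h3
              rw [h2] at h0
              exact_mod_cast h0) x
          have ht' : S.star a v w t ∈ lefSpan A a w := by
            have h5 : Submodule.span E (RV S A a v : Set (D.V a v)) ≤ lefSpan A a v := by
              rw [Submodule.span_le]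
              intro y hy
              exact RV_le a v hy
            exact lef_star hD hS hA hvw (h5 ht)
          have h2 : x - S.star a v w t ∈ Pp A n a w := by
            intro v' hv' y hy
            obtain rfl : v' = v := by omega
            obtain ⟨y1, hy1, y2, hy2, rfl⟩ := Submodule.mem_sup.1 (low_le hA hF a v' hy)
            obtain rfl : y2 = 0 := deg1Span_zero (fun i => by omega) hy2
            rw [add_zero]
            apply pair_symm0 hD
            have h3 : Submodule.span E (RV S A a v' : Set (D.V a v')) ≤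
                LinearMap.ker ((D.pair a v' w).flip (x - S.star a v' w t)) := by
              rw [Submodule.span_le]
              intro z hz
              change D.pair a v' w z (x - S.star a v' w t) = 0
              rw [map_sub, h1 z hz, sub_self]
            exact h3 (lefSpan_le hD hS hA a v' hy1)
          have e : x = S.star a v w t + (x - S.star a v w t) := by rw [add_sub_cancel]
          rw [e]
          exact Submodule.add_mem_sup (Submodule.mem_sup_left ht') h2
        · -- odd degree
          obtain ⟨j, hj⟩ := ho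
          obtain ⟨i, hi⟩ : ∃ i, i + j = n - a - 1 := ⟨n - a - 1 - j, by omega⟩
          obtain rfl : w = a + 1 + 2 * j := by omega
          obtain rfl : v = a + 1 + 2 * i := by omega
          have hX : (Pi.single (a + 1 + 2 * j) x : Tt D a) ∈ Gr D a (a + 1 + 2 * j) := single_gr x
          have h1 := lT_pow_mem hX i
          have e1 : a + 1 + 2 * j + 2 * i = a + 1 + 2 * (n - a - 1) := by omega
          rw [e1] at h1
          obtain ⟨Y, hY, hYx⟩ := (hl hD hS a).surj (a + 1) (n - a - 1) _ (by omega) h1
          obtain ⟨Z, hZ⟩ : ∃ Z : Tt D a, Z = (lT D a ^ j) Y := ⟨_, rfl⟩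
          have hZm : Z ∈ Gr D a (a + 1 + 2 * j) := by
            rw [hZ]
            exact lT_pow_mem hY j
          have hdeg : ∀ k (y : D.V a (a + 1)), (lT D a ^ k) (Pi.single (a + 1) y : Tt D a)
              (a + 1 + 2 * k) ∈ deg1Span X a (a + 1 + 2 * k) := by
            intro k y
            rw [lT_pow, Pi.single_eq_same]
            induction k with
            | zero => exact deg1_top hF y
            | succ k ih => exact deg1Span_lam ih
          have hZd : Z (a + 1 + 2 * j) ∈ deg1Span X a (a + 1 + 2 * j) := by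
            rw [hZ, gr_single hY]
            exact hdeg j _
          have h2 : x - Z (a + 1 + 2 * j) ∈ Pp A n a (a + 1 + 2 * j) := by
            intro v' hv' y hy
            obtain rfl : v' = a + 1 + 2 * i := by omega
            obtain ⟨y1, hy1, y2, hy2, rfl⟩ := Submodule.mem_sup.1 (low_le hA hF a _ hy)
            obtain rfl : y1 = 0 := lefSpan_zero (fun i => by omega) hy1
            rw [zero_add]
            have h3 : deg1Span X a (a + 1 + 2 * i) ≤ LinearMap.ker
                (D.pair a (a + 1 + 2 * j) (a + 1 + 2 * i) (x - Z (a + 1 + 2 * j))) := by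
              unfold deg1Span
              rw [Submodule.span_le]
              intro z hz
              change D.pair a (a + 1 + 2 * j) (a + 1 + 2 * i) (x - Z (a + 1 + 2 * j)) z = 0
              obtain ⟨j', f, hf, t, rfl⟩ := Deg1_image hz
              rcases hf with rfl | ⟨i', h1', g, hg, h⟩
              · rw [LinearMap.zero_apply, map_zero]
              · obtain rfl : i' = i := by omega
                have h4 : D.pair a (a + 1 + 2 * j) (a + 1 + 2 * i') (x - Z (a + 1 + 2 * j)) (f t) =
                    Bp D a (a + 1 + 2 * j) (a + 1 + 2 * i') (Pi.single (a + 1 + 2 * j) x - Z)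
                      ((lT D a ^ i') (Pi.single (a + 1) (g t))) := by
                  rw [← h t]
                  unfold Bp
                  rw [Pi.sub_apply, Pi.single_eq_same, Pi.single_eq_same]
                rw [h4, ← Bp_move hD i' (a + 1 + 2 * j) (a + 1) (a + 1 + 2 * (n - a - 1))
                  (a + 1 + 2 * i') _ _ (by omega) rfl, map_sub, hZ, ← Module.End.mul_apply,
                  ← pow_add, hi, hYx, sub_self, Bp_zero_left]
            exact h3 hy2
          have e : x = Z (a + 1 + 2 * j) + (x - Z (a + 1 + 2 * j)) := by rw [add_sub_cancel]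
          rw [e]
          exact Submodule.add_mem_sup (Submodule.mem_sup_right hZd) h2
      · have h0 : x = 0 := hD.bounded.neg a w x (by omega)
        rw [h0]
        exact Submodule.zero_mem _
    · have h0 : x = 0 := hD.top a w x (by omega)
      rw [h0]
      exact Submodule.zero_mem _
  · apply Submodule.mem_sup_right
    intro v hv
    omega

/-- **Weight-monodromy in all degrees and hard Lefschetz, when the images of the restriction and
Gysin maps are generated in degrees at most two.** -/
theorem images (hD : IsReduction D n) (hA : A.IsGeometric n) (hX : ∀ j, (X j).IsGeometric n)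
    (hF : GenerateH1 X) (h : ImagesInLowDegrees A) :
    (∀ w r, 1 ≤ r → D.MonodromyWeight w r) ∧ D.GenericLefschetz n := by
  obtain ⟨S, hS⟩ := exists_star hD
  exact Wo.low hD hS hA hX (Pp_inert hD hS hA hF h) Pp_trans Pp_orth (Pp_gen hD hS hA hF)

end Pool.Agent.W552.Wo
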