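import Mathlib
import Pool.Agent.W552.WoEvenDefs
import Pool.Agent.W552.WoPerp

/-!
# Weight-monodromy in even weights
-/

set_option autoImplicit false

namespace Pool.Agent.W552.Wo

open Module Pool.Agent.W522.M Pool.Agent.W552.Wl Pool.Agent.W552.Wd Pool.Agent.W552.Ws

variable {E : Type} [Field E] [CharZero E] {D : Strata E} {S : Stars D} {n : ℕ} {A : D.Cycles}

/-- weight-monodromy in one degree -/
theorem mw_one {J : Type} (hD : IsReduction D n) (hS : S.IsStar n)
    (X : J → Src D) (hG : ∀ j, (X j).IsGeometric S) (hP : ∀ j, (X j).IsPositive S n)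
    (N : Subs D) (hN : IsInert S n N) (w r : ℕ) (hr : 1 ≤ r)
    (hgen : ∀ a, Even (w + a) → imageOf X a w ⊔ N a w = ⊤) (hwr : Even (w + r)) :
    D.MonodromyWeight w r := by
  classical
  have hA : Adj S n := adj_of_star hD hS
  have hs : ∀ a w v, w + v = 2 * n → ∀ z : D.V a v, ∃ y : D.V a w, S.star a w v y = z :=
    fun a w v hwv z => ⟨S.star a v w z, hS.invol a v w z (by omega)⟩
  cases w with
  | zero => exact mw_zero fun a x ha => hD.bounded.neg a 0 x (by omega)
  | succ w =>
    by_cases hw : w + 2 ≤ 2 * n
    · obtain ⟨v, hv⟩ : ∃ v, w + 2 + v = 2 * n := ⟨2 * n - (w + 2), by omega⟩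
      have hs' := fun a => hs a (w + 1) (v + 1) (by omega)
      let N' : Subs D := fun a u => if u = w + 1 then N a u else ⊤
      have e1 : ∀ a, N' a (w + 1) = N a (w + 1) := fun a => if_pos rfl
      have hge : ∀ p : ℤ, p.natAbs = r → ∀ a, InCol p a → GeneratedAt X N' a := by
        intro p hp a ha u
        by_cases hu : u = w + 1
        · subst hu
          rw [e1]
          apply hgen a
          obtain ⟨k, hk⟩ := hwr
          obtain ⟨l, hl⟩ := ha.2
          rcases Int.natAbs_eq p with h | h
          · rw [h, hp] at hl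
            exact (Nat.even_iff).2 (by omega)
          · rw [h, hp] at hl
            exact (Nat.even_iff).2 (by omega)
        · have e2 : N' a u = ⊤ := if_neg hu
          rw [e2, sup_top_eq]
      have hN1 : ∀ a (x : D.V a (w + 1)), x ∈ N' a (w + 1) → Harm S a w x := by
        intro a x hx
        rw [e1] at hx
        exact inert1 hD hS hN a w x (by omega) hx
      have hN2 : ∀ b (x : D.V (b + 1) (w + 1)), x ∈ N' (b + 1) (w + 1) → Harm' S b w x := by
        intro a x hx
        rw [e1] at hx
        exact inert2 hD hS hN a w x (by omega) hx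
      have hKp := le_Kp hD.complex hD.bounded hA X hG hP N' hN1 hN2
        (hge (r : ℤ) (by simp)) hv
      have hKm := le_Kp hD.complex hD.bounded hA X hG hP N' hN1 hN2
        (hge (-(r : ℤ)) (by simp)) hv
      refine ⟨fun x hx => Z_le r _ hx, fun x hx => B_le r _ hr hx, ?_, ?_⟩
      · intro x hx hx'
        obtain ⟨x0, hx0, h1⟩ := cocycle hD.complex hD.bounded hD.duality hA hs' hv hKm x hx
        have hx0' := Hm_neg x0 hx0
        rw [neg_neg] at hx0'
        have h2 : x0 ∈ D.B r (w + 1) := by
          have h3 : x0 = x - (x - x0) := by abel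
          rw [h3]
          exact Submodule.sub_mem _ hx' (B_le r _ hr h1)
        obtain ⟨y, hy, hy2⟩ := h2
        have h4 : x0 = 0 := by
          rw [← hy2]
          apply exact_harm hD.complex hD.bounded hD.duality hA hs' hv hKp y hy
          rw [hy2]
          exact Hm_del hx0' _
        rw [h4, sub_zero] at h1
        exact h1
      · intro y hy
        obtain ⟨y0, hy0, h1⟩ := cocycle hD.complex hD.bounded hD.duality hA hs' hv hKp y hy
        have hy0' := Hm_neg y0 hy0
        exact ⟨y0, ⟨hy0'.1, Hm_d hy0' _⟩, h1⟩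
    · refine mw_zero fun a x ha => ?_
      exact hD.top a (w + 1) x (by omega)

open Classical in
/-- the orthogonal complements in even degrees, and the value `T` in odd degrees -/
noncomputable def Ev (A : D.Cycles) (n : ℕ) (T : Subs D) : Subs D := fun a w =>
  if Even (w + a) then
    { carrier := {x | ∀ v, w + v = 2 * n → ∀ y ∈ lefSpan A a v, D.pair a w v x y = 0}
      zero_mem' := fun v _ y _ => by rw [map_zero, LinearMap.zero_apply]
      add_mem' := fun {x x'} hx hx' v hv y hy => by
        rw [map_add, LinearMap.add_apply, hx v hv y hy, hx' v hv y hy, add_zero]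
      smul_mem' := fun c x hx v hv y hy => by
        rw [map_smul, LinearMap.smul_apply, hx v hv y hy, smul_zero] }
  else T a w

omit [CharZero E] in
lemma Ev_mem {T : Subs D} {a w : ℕ} (hw : Even (w + a)) {x : D.V a w} :
    x ∈ Ev A n T a w ↔ ∀ v, w + v = 2 * n → ∀ y ∈ lefSpan A a v, D.pair a w v x y = 0 := by
  unfold Ev
  rw [if_pos hw]
  rfl

omit [CharZero E] in
lemma Ev_odd {T : Subs D} {a w : ℕ} (hw : ¬ Even (w + a)) : Ev A n T a w = T a w := if_neg hw

lemma Ev_res (hD : IsReduction D n) (h : EvenImages A) {T : Subs D} {a w : ℕ}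
    (hw : Even (w + a)) {x : D.V a w} (hx : x ∈ Ev A n T a w) : D.res a w x = 0 := by
  rw [Ev_mem hw] at hx
  by_cases hle : w + 1 ≤ 2 * n
  · obtain ⟨v, hv⟩ : ∃ v, w + 1 + v = 2 * n := ⟨2 * n - (w + 1), by omega⟩
    apply hD.duality.nondeg (a + 1) (w + 1) v hv
    intro y
    have h1 : ip (rho x) y = ip x (gam y) := hD.duality.adj a w v x y
    change ip (rho x) y = 0
    rw [h1]
    refine hx (v + 1) (by omega) _ (h.gys a v y ?_)
    rw [Nat.even_iff] at hw ⊢
    omega
  · exact hD.top (a + 1) (w + 1) _ (by omega)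

lemma Ev_gys (hD : IsReduction D n) (h : EvenImages A) {T : Subs D} {a w : ℕ}
    (hw : Even (w + (a + 1))) {x : D.V (a + 1) w} (hx : x ∈ Ev A n T (a + 1) w) :
    D.gys a w x = 0 := by
  rw [Ev_mem hw] at hx
  by_cases hle : w + 1 ≤ 2 * n
  · obtain ⟨v, hv⟩ : ∃ v, w + 1 + v = 2 * n := ⟨2 * n - (w + 1), by omega⟩
    apply pair_zero_of hD (by omega : v + (w + 1) = 2 * n)
    intro y
    have h1 : D.pair (a + 1) (v + 1) w (D.res a v y) x = D.pair a v (w + 1) y (D.gys a w x) :=
      hD.duality.adj a v w y x
    rw [← h1]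
    refine pair_symm0 hD (hx (v + 1) (by omega) _ (h.res a v y ?_))
    rw [Nat.even_iff] at hw ⊢
    omega
  · exact hD.top a (w + 1) _ (by omega)

lemma Ev_inert (hD : IsReduction D n) (hS : S.IsStar n) (hA : A.IsGeometric n)
    (h : EvenImages A) : IsInert S n (Ev A n (fun _ _ => ⊥)) where
  res a w x hx := by
    by_cases hw : Even (w + a)
    · exact Ev_res hD h hw hx
    · rw [Ev_odd hw] at hx
      obtain rfl : x = 0 := (Submodule.mem_bot E).1 hx
      exact map_zero (D.res a w)
  gys a w x hx := by
    by_cases hw : Even (w + (a + 1))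
    · exact Ev_gys hD h hw hx
    · rw [Ev_odd hw] at hx
      obtain rfl : x = 0 := (Submodule.mem_bot E).1 hx
      exact map_zero (D.gys a w)
  star a w v x hwv hx := by
    by_cases hw : Even (w + a)
    · have hv : Even (v + a) := by
        rw [Nat.even_iff] at hw ⊢
        omega
      rw [Ev_mem hw] at hx
      rw [Ev_mem hv]
      intro w' hw' y hy
      obtain rfl : w' = w := by omega
      apply pair_symm0 hD
      change D.pair a w' v y (S.star a w' v x) = 0
      rw [star_symm' hD hS hwv, hx v hwv _ (lef_star hD hS hA hwv hy), mul_zero]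
    · rw [Ev_odd hw] at hx
      obtain rfl : x = 0 := (Submodule.mem_bot E).1 hx
      have e : S.st v (0 : D.V a w) = 0 := map_zero (S.star a w v)
      rw [e]
      exact Submodule.zero_mem _

/-- generation in even degrees -/
lemma Ev_gen (hD : IsReduction D n) (hS : S.IsStar n) (hA : A.IsGeometric n) {T : Subs D}
    {a w : ℕ} (hw : Even (w + a)) : lefSpan A a w ⊔ Ev A n T a w = ⊤ := by
  rw [eq_top_iff]
  intro x _
  by_cases hle : w ≤ 2 * n
  · obtain ⟨v, hv⟩ : ∃ v, w + v = 2 * n := ⟨2 * n - w, by omega⟩
    have hvw : v + w = 2 * n := by omega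
    obtain ⟨t, ht, h1⟩ := proj_span (D.pair a v w) (S.star a v w) (RV S A a v)
      (fun q x hx => RV_smul hx q)
      (fun x hx x' hx' => hA.rational a v w hvw x _ (RV_alg hA hx)
        (RV_alg hA (RV_star hD hS hx' hvw)))
      (fun x hx h0 => by
        obtain ⟨r, -, h2, h3⟩ := RV_pos hD hS hA hx hvw
        apply h3
        rw [h2] at h0
        exact_mod_cast h0) x
    have ht' : S.star a v w t ∈ lefSpan A a w := by
      have h5 : Submodule.span E (RV S A a v : Set (D.V a v)) ≤ lefSpan A a v := by
        rw [Submodule.span_le]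
        intro y hy
        exact RV_le a v hy
      exact lef_star hD hS hA hvw (h5 ht)
    have h2 : x - S.star a v w t ∈ Ev A n T a w := by
      rw [Ev_mem hw]
      intro v' hv' y hy
      obtain rfl : v' = v := by omega
      apply pair_symm0 hD
      have h3 : Submodule.span E (RV S A a v' : Set (D.V a v')) ≤
          LinearMap.ker ((D.pair a v' w).flip (x - S.star a v' w t)) := by
        rw [Submodule.span_le]
        intro z hz
        change D.pair a v' w z (x - S.star a v' w t) = 0
        rw [map_sub, h1 z hz, sub_self]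
      exact h3 (lefSpan_le hD hS hA a v' hy)
    have e : x = S.star a v w t + (x - S.star a v w t) := by rw [add_sub_cancel]
    rw [e]
    exact Submodule.add_mem_sup ht' h2
  · apply Submodule.mem_sup_right
    rw [Ev_mem hw]
    intro v hv
    omega

lemma Ev_trans : Transcendental A n (Ev A n (fun _ _ => ⊤)) := by
  intro a w v x y hwv hx hy
  obtain ⟨j, hj⟩ := Lef_even hy
  have hw : Even (w + a) := by
    rw [Nat.even_iff]
    omega
  rw [Ev_mem hw] at hx
  exact hx v hwv y (Submodule.subset_span hy)

lemma Ev_gen' (hD : IsReduction D n) (hS : S.IsStar n) (hA : A.IsGeometric n) :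
    GeneratedByDivisors A (Ev A n (fun _ _ => ⊤)) := by
  intro a w
  by_cases hw : Even (w + a)
  · exact Ev_gen hD hS hA hw
  · rw [Ev_odd hw, sup_top_eq]

lemma RV_gysE (hD : IsReduction D n) (hS : S.IsStar n) (hA : A.IsGeometric n)
    (h : EvenImages A) {a w : ℕ}
    {y : D.V (a + 1) w} (hy : y ∈ RV S A (a + 1) w) : D.gys a w y ∈ RV S A a (w + 1) := by
  change (Pi.single (w + 1) (D.gys a w y) : Tt D a) ∈ RW S A a (w + 1)
  rw [← g_single]
  rcases hy with h0 | ⟨j, rfl, c, hc, d, hd, h0⟩
  · rw [h0, map_zero]
    exact (RW S A _ _).zero_mem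
  · rw [h0, map_add, gT_pow hD]
    refine (RW S A _ _).add_mem ?_ ?_
    · have h1 : gT D a c ∈ RW S A a (a + 2) :=
        RW_div hD hS hA (gT_mem a (a + 1) c hc.1) (hA.stable.gys _ _ _ hc.2.1)
      exact RW_pow h1 j _ (by omega)
    · cases j with
      | zero =>
        change gT D a 0 ∈ _
        rw [map_zero]
        exact (RW S A _ _).zero_mem
      | succ k =>
        change gT D a ((lT D (a + 1) ^ k) d) ∈ _
        rw [gT_pow hD]
        have h2 : gT D a d ∈ Gr D a (a + 4) := gT_mem a (a + 1 + 2) d hd.1
        have h1 : gT D a d ∈ RW S A a (a + 4) := by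
          by_cases h4 : 2 * n < a + 4
          · have : gT D a d = 0 := gr_zero h2 (hD.top a _ _ (by omega))
            rw [this]
            exact (RW S A _ _).zero_mem
          · have h3 : gT D a d (a + 4) ∈ RV S A a (a + 4) := by
              apply RV_of hD hS hA (Ev_trans (n := n)) (Ev_gen' hD hS hA)
                (v := 2 * n - (a + 4)) (by omega) _ (hA.stable.gys a (a + 3) _ hd.2.1)
              intro z hz
              have he : Even (2 * n - (a + 4) + a) := by
                rw [Nat.even_iff]
                omega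
              have h5 : D.res a (2 * n - (a + 4)) z = 0 := Ev_res hD h he hz
              have h6 : D.pair (a + 1) (2 * n - (a + 4) + 1) (a + 3)
                  (D.res a (2 * n - (a + 4)) z) (d (a + 3)) =
                  D.pair a (2 * n - (a + 4)) (a + 4) z (D.gys a (a + 3) (d (a + 3))) :=
                hD.duality.adj a (2 * n - (a + 4)) (a + 3) z (d (a + 3))
              rw [h5, map_zero, LinearMap.zero_apply] at h6
              exact h6.symm
            rw [gr_single h2]
            exact h3
        exact RW_pow h1 k _ (by omega)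

lemma pt_geomE (hD : IsReduction D n) (hS : S.IsStar n) (hA : A.IsGeometric n)
    (h : EvenImages A) : (pt S A).IsGeometric S where
  nondeg y h := nondeg_E (E := E) y h
  smul c a w f hf := RV_smul hf c
  res a w f hf := RV_res hD hS hA hf
  gys a w f hf := RV_gysE hD hS hA h hf
  lower a w f hf := RV_low hD hS hf

/-- **Weight-monodromy in even weights.** -/
theorem even_images (hD : IsReduction D n) (hA : A.IsGeometric n) (h : EvenImages A) (w r : ℕ)
    (hr : 1 ≤ r) (hwr : Even (w + r)) : D.MonodromyWeight w r := by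
  obtain ⟨S, hS⟩ := exists_star hD
  refine mw_one hD hS (fun _ : Unit => pt S A) (fun _ => pt_geomE hD hS hA h)
    (fun _ => pt_pos hD hS hA) _ (Ev_inert hD hS hA h) w r hr (fun a ha => ?_) hwr
  rw [← top_le_iff, ← Ev_gen (T := fun _ _ => ⊥) hD hS hA ha]
  refine sup_le_sup_right ?_ _
  unfold lefSpan imageOf
  apply Submodule.span_mono
  intro x hx
  refine ⟨(), LinearMap.toSpanSingleton E (D.V a w) x, (1 : E), ?_, ?_⟩
  · change LinearMap.toSpanSingleton E (D.V a w) x (1 : E) ∈ RV S A a w
    rw [LinearMap.toSpanSingleton_apply, one_smul]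
    exact RV_of_Lef hD hS hA hx
  · change x = LinearMap.toSpanSingleton E (D.V a w) x (1 : E)
    rw [LinearMap.toSpanSingleton_apply, one_smul]

end Pool.Agent.W552.Wo
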