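import Pool.Agent.W552.TateB
import Pool.Agent.H281R3.HT.Group

/-!
# The standard conjecture of Hodge type for all products, without exotic relations
-/

open CategoryTheory AlgebraicGeometry

universe u v w

namespace Pool.Agent.W552

open Pool.Agent.H914 Pool.Agent.H914.VarClass Pool.Agent.H914.VarClass.Obj
  Pool.Agent.H914.WeilCohomology Pool.Agent.H281R3.HT

variable {k : Type u} [Field k] {𝒱 : VarClass k} {ops : CycleOps 𝒱}
  {W : WeilCohomology.{u, v} ops}

section One

variable {X : 𝒱.Obj} {D : X.Cycles}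

/-- The value of the form on the fundamental class. -/
lemma Fr.bf_one {f : Module.End W.K (W.H X)} (F : Fr W X D f) :
    bf W X D f 1 1 = (((X.dim.factorial : ℚ)⁻¹ *
      X.V.degCycle (divPow ops D X.dim X.V.fundCycle) : ℚ) : W.K) := by
  have hf : X.IsCyc 0 X.V.fundCycle := X.V.fundCycle_mem
  have hn := divPow_mem (ops := ops) F.hD X.dim hf
  have h1 := F.form_prim (j := 0) (by omega) hf (by
    have h2 := W.cl_mem (divPow_mem (ops := ops) F.hD (X.dim - 2 * 0 + 1) hf)
    rw [W.gr_eq_bot _ _ (by omega)] at h2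
    exact (Submodule.mem_bot _).1 h2)
  rw [W.cl_fund] at h1
  rw [h1]
  congr 1
  rw [pow_zero, one_mul, mul_zero, Nat.sub_zero]
  congr 1
  rw [zero_add] at hn
  have h3 := ops.mul_mem hf hn
  rw [zero_add] at h3
  have h4 : ((X.V.degCycle (ops.mul X.V.fundCycle (divPow ops D X.dim X.V.fundCycle)) : ℚ) :
      W.K) = ((X.V.degCycle (divPow ops D X.dim X.V.fundCycle) : ℚ) : W.K) := by
    rw [← W.tr_cl h3, ← W.tr_cl hn, W.cl_mul, W.cl_fund, one_mul]
  exact_mod_cast h4

/-- The conjecture for the square implies the conjecture. -/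
lemma hodge_of_square (hD : X.IsCyc 1 D) (hdeg : 0 < X.V.degCycle (divPow ops D X.dim
    X.V.fundCycle)) (hHL : HardLefschetz W X D) (hB : LefschetzB W X D)
    (h2 : HodgeType W (X.prod X) (ops.pull (fst X X) D + ops.pull (snd X X) D)) :
    HodgeType W X D := by
  obtain ⟨f, F, -⟩ := exists_fr hD hHL hB
  intro j hj z hz hprim hz0
  refine (F.hodge hz fun hz0 => ?_).1 hj hprim hz0
  have h1 := F.bf_one
  set r : ℚ := (X.dim.factorial : ℚ)⁻¹ * X.V.degCycle (divPow ops D X.dim X.V.fundCycle) with hr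
  have hr0 : 0 < r := mul_pos (inv_pos.2 (by exact_mod_cast Nat.factorial_pos _)) hdeg
  have h3 := F.bf_ext F (W.cl X z) (W.cl X z) 1 1
  have hAS : AS W (X.prod X) (ext W (W.cl X z) (1 : W.H X)) := (AS.of ⟨z, hz, rfl⟩).ext AS.one
  have hne : ext W (W.cl X z) (1 : W.H X) ≠ 0 := by
    intro h0
    apply hz0
    have h4 : W.map (fst X X) (W.cl X z) = 0 := by
      rw [H281R3.HT.ext, map_one, mul_one] at h0
      exact h0
    refine map_fst_inj h4 ?_
    refine ⟨W.cl X (divPow ops D X.dim X.V.fundCycle), ?_⟩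
    have hn := divPow_mem (ops := ops) hD X.dim X.V.fundCycle_mem
    rw [zero_add] at hn
    rw [W.tr_cl hn]
    exact_mod_cast hdeg.ne'
  obtain ⟨s, hs, hs'⟩ := (F.prod F).bf_pos h2 hAS hne
  rw [hs', h1] at h3
  refine ⟨s / r, div_pos hs hr0, ?_⟩
  have hrK : (r : W.K) ≠ 0 := by exact_mod_cast hr0.ne'
  rw [Rat.cast_div, eq_div_iff hrK]
  exact h3.symm

/-- The Tate conjecture for `X × X` implies the Tate conjecture for `X`. -/
lemma tate_of_square (hD : X.IsCyc 1 D) (hdeg : 0 < X.V.degCycle (divPow ops D X.dim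
    X.V.fundCycle)) {f : X ⟶ X} {q : ℕ}
    (hT : TateClassesAlgebraic W (X.prod X) (pairMap f f) q) : TateClassesAlgebraic W X f q := by
  rintro j c hc ⟨m, hm, hcm⟩
  have hn := divPow_mem (ops := ops) hD X.dim X.V.fundCycle_mem
  rw [zero_add] at hn
  set b := W.cl X (divPow ops D X.dim X.V.fundCycle) with hb
  have hb0 : W.tr X b ≠ 0 := by
    rw [hb, W.tr_cl hn]
    exact_mod_cast hdeg.ne'
  have h1 : W.map (snd X X) c ∈ algSpan W (X.prod X) := by
    refine hT j _ (W.map_mem _ hc) ⟨m, hm, ?_⟩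
    have h2 : ∀ m : ℕ, (W.map (pairMap f f))^[m] (W.map (snd X X) c) =
        W.map (snd X X) ((W.map f)^[m] c) := by
      intro m
      induction m with
      | zero => rfl
      | succ m ih =>
        rw [Function.iterate_succ_apply', ih, Function.iterate_succ_apply']
        have h3 := map_pairMap (W := W) f f 1 ((W.map f)^[m] c)
        rw [map_one, one_mul, map_one, map_one, one_mul] at h3
        exact h3
    rw [h2, hcm, map_smul]
  have h4 : ∀ y ∈ algSpan W (X.prod X), W.push (snd X X) (W.map (fst X X) b * y) ∈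
      algSpan W X := by
    intro y hy
    induction hy using Submodule.span_induction with
    | mem y hy =>
      obtain ⟨i, hy⟩ := Set.mem_iUnion.1 hy
      have h5 : AS W X (W.push (snd X X) (W.map (fst X X) b * y)) :=
        (((AS.of ⟨_, hn, rfl⟩).map _).mul (AS.of hy)).push _
      refine AS.ind (p := fun x => x ∈ algSpan W X) ?_ ?_ h5
      · intro j x hx
        exact Submodule.subset_span (Set.mem_iUnion.2 ⟨j, hx⟩)
      · intro x y hx hy
        exact Submodule.add_mem _ hx hy
    | zero => rw [mul_zero, map_zero]; exact Submodule.zero_mem _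
    | add x y _ _ hx hy => rw [mul_add, map_add]; exact Submodule.add_mem _ hx hy
    | smul t x _ hx => rw [mul_smul_comm, map_smul]; exact Submodule.smul_mem _ _ hx
  have h5 := h4 _ h1
  rw [push_snd] at h5
  have h6 := Submodule.smul_mem _ (W.tr X b)⁻¹ h5
  rwa [smul_smul, inv_mul_cancel₀ hb0, one_smul] at h6

end One

lemma isCyc_nest {n : ℕ} {P : Fin (n + 1) → Polarized 𝒱}
    (hD : ∀ a, (P a).X.IsCyc 1 (P a).D) : (nest ops n P).X.IsCyc 1 (nest ops n P).D := by
  induction n with
  | zero => exact hD 0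
  | succ n ih => exact SmVar.IsCyc.add (ops.pull_mem _ (hD 0)) (ops.pull_mem _ (ih fun i => hD _))

lemma covers_refl (P : Polarized 𝒱) : Covers W P P :=
  ⟨rfl, 𝟙 P.X, ⟨1, one_pos, by rw [push_id, Rat.cast_one, one_smul]⟩, (W.map_id _ _).symm⟩

theorem hodge_neat {ι : Type w} {P : ι → Polarized 𝒱} {f : ∀ j, (P j).X ⟶ (P j).X} {q : ℕ}
    (hq : q ≠ 0) (hD : ∀ j, (P j).X.IsCyc 1 (P j).D)
    (hdeg : ∀ j, 0 < (P j).X.V.degCycle (divPow ops (P j).D (P j).X.dim (P j).X.V.fundCycle))
    (hHL : ∀ j, HardLefschetz W (P j).X (P j).D) (hf : ∀ j, Diagonalizable W (f j))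
    (hF : ∀ (n : ℕ) (a : Fin (n + 1) → ι), FrobeniusOnCycles W (nest ops n (fun i => P (a i))).X
      (nestMap ops n (fun i => P (a i)) (fun i => f (a i))) q)
    (hT : ∀ i j, TateClassesAlgebraic W ((P i).X.prod (P j).X) (pairMap (f i) (f j)) q)
    (hN : NoExoticRelations W f q) :
    (∀ i j, HodgeType W ((P i).prod ops (P j)).X ((P i).prod ops (P j)).D) ↔
      ∀ (n : ℕ) (a : Fin (n + 1) → ι) (Y : Polarized 𝒱),
        Covers W (nest ops n (fun i => P (a i))) Y → Y.X.IsCyc 1 Y.D →
        HodgeType W Y.X Y.D ∧ HomEqNum W Y.X := by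
  constructor
  · intro hH2 n a Y hY hYD
    have hB : ∀ j, LefschetzB W (P j).X (P j).D := fun j =>
      lefschetzB_of_tate (hD j) (hHL j) hq (hF 0 (fun _ => j)) (hT j j)
    have hT1 : ∀ j, TateClassesAlgebraic W (P j).X (f j) q := fun j =>
      tate_of_square (hD j) (hdeg j) (hT j j)
    have hH : ∀ j, HodgeType W (P j).X (P j).D := fun j =>
      hodge_of_square (hD j) (hdeg j) (hHL j) (hB j) (hH2 j j)
    have key : ∀ j z, (nest ops n (fun i => P (a i))).X.IsCyc j z →
        W.cl _ z ∈ matchingSpan W (fun i => P (a i)) := by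
      intro j z hz
      obtain ⟨m, hm, hm'⟩ := hF n a j z hz
      refine alg_mem_matching (fun i => hf (a i)) (fun i => hT1 (a i))
        (fun i i' => hT (a i) (a i')) ?_ (W.cl_mem hz) ⟨m, hm, ?_⟩
      · intro s hs hs'
        exact hN s (fun x hx => by
          obtain ⟨i, hi⟩ := hs x hx
          exact ⟨a i, hi⟩) hs'
      · rw [← cl_iterate, hm']
    obtain ⟨h1, h2⟩ := hodge_matching (W := W) (P := fun i => P (a i)) (fun i => hD _)
      (fun i => hHL _) (fun i => hB _) (fun i => hH _) (fun i i' => hH2 _ _)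
    have h3 : HodgeType W (nest ops n (fun i => P (a i))).X (nest ops n (fun i => P (a i))).D :=
      fun j hj z hz => h1 j hj z hz (key j z hz)
    have h4 : HomEqNum W (nest ops n (fun i => P (a i))).X :=
      fun j hj z hz => h2 j hj z hz (key j z hz)
    exact ⟨hodge_of_covers hY (isCyc_nest fun i => hD _) hYD h3, homEqNum_of_covers hY h4⟩
  · intro h i j
    exact (h 1 ![i, j] ((P i).prod ops (P j)) (covers_refl _)
      (SmVar.IsCyc.add (ops.pull_mem _ (hD i)) (ops.pull_mem _ (hD j)))).1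

end Pool.Agent.W552
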