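import Pool.Agent.W552.FrobDefs

/-!
# Irreducible eigenspaces of the Frobenius endomorphism: definitions
-/

open CategoryTheory AlgebraicGeometry

universe u v w

namespace Pool.Agent.W552

open Pool.Agent.H914 Pool.Agent.H914.VarClass Pool.Agent.H914.VarClass.Obj
  Pool.Agent.H914.WeilCohomology Pool.Agent.H281R3.HT

section Abs

variable {K : Type*} [Field K]

/-- The vectors with the property `U` form an irreducible representation (or zero): the only
operators preserving `U` and commuting on `U` with all the operators `ρ g` are the scalars. -/
def IrrOn {V G : Type*} [AddCommGroup V] [Module K V] (U : V → Prop) (ρ : G → V → V) : Prop :=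
  ∀ u : V →ₗ[K] V, (∀ x, U x → U (u x)) → (∀ g x, U x → u (ρ g x) = ρ g (u x)) →
    ∃ c : K, ∀ x, U x → u x = c • x

variable {A : Type*} [Ring A] [Algebra K A]

/-- The element `x` of degree `i` is primitive (with respect to the divisor class `D` on a variety
of dimension `n`) and transcendental (orthogonal to all the classes with the property `Z`). -/
def PrimTr (gr : ℕ → Submodule K A) (n : ℕ) (D : A) (tr : A →ₗ[K] K) (Z : A → Prop) (i : ℕ)
    (x : A) : Prop :=
  i ≤ n ∧ x ∈ gr i ∧ D ^ (n - i + 1) * x = 0 ∧ ∀ z, Z z → tr (x * z) = 0

/-- The element `x` is killed by a power of `F - α`. -/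
def GenEig (F : A →ₐ[K] A) (α : K) (x : A) : Prop :=
  ∃ N : ℕ, ((F.toLinearMap - α • (1 : Module.End K A)) ^ N) x = 0

/-- There is a group `G` acting through `ρ` by automorphisms of the algebra `A` which have the
property `C` and multiply the element `D` by the positive rational numbers `χ g`, such that the
element `φ` of the group acts as `F`, with the multiplier `q`, is central and generates a subgroup
of finite index, and such that, for all `i` and `α`, the vectors with the property `U i` killed by
a power of `F - α` form an irreducible representation (or zero). -/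
def IrrSim (D : A) (F : A →ₐ[K] A) (q : ℕ) (C : (A → A) → Prop) (U : ℕ → A → Prop) : Prop :=
  ∃ (G : Type) (_ : Group G) (ρ : G →* (A ≃ₐ[K] A)) (χ : G →* ℚ) (φ : G),
    (∀ g, 0 < χ g ∧ ρ g D = (χ g : K) • D ∧ C (ρ g)) ∧
    ((∀ a, ρ φ a = F a) ∧ χ φ = q ∧ (∀ g, φ * g = g * φ) ∧
      Finite (G ⧸ Subgroup.zpowers φ)) ∧
    ∀ i α, IrrOn (K := K) (fun x => U i x ∧ GenEig F α x) (fun g x => ρ g x)

/-- The number `α` is an eigenvalue of `F` on the elements with the property `U`. -/
def HasEig (F : A →ₐ[K] A) (U : A → Prop) (α : K) : Prop :=
  ∃ x, U x ∧ x ≠ 0 ∧ F x = α • x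

/-- The Tate conjecture: every class of degree `2 j` on which, for some `m ≥ 1`, `F ^ m` is the
multiplication by `q ^ (m j)` is a linear combination of classes with the property `Z`. -/
def TateFor (gr : ℕ → Submodule K A) (F : A →ₐ[K] A) (q : ℕ) (Z : A → Prop) : Prop :=
  ∀ j, ∀ c ∈ gr (2 * j), (∃ m ≥ 1, F^[m] c = (q : K) ^ (m * j) • c) →
    c ∈ Submodule.span K {z | Z z}

/-- The numbers in the sets `E s i` (of eigenvalues of degree `i` of the member `s`) are different
up to roots of unity and powers of `q`. -/
def Separated {ι : Type w} (E : ι → ℕ → K → Prop) (q : ℕ) : Prop :=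
  ∀ s t i j a b m α β, 1 ≤ m → E s i α → E t j β → i + 2 * a = j + 2 * b →
    α ^ m * (q : K) ^ (m * a) = β ^ m * (q : K) ^ (m * b) → s = t ∧ i = j ∧ α = β

/-- There are no exotic relations: every relation between the numbers in the sets `E s i` is a sum
of relations between one or two numbers. -/
def NoExotic {ι : Type w} (E : ι → ℕ → K → Prop) (q : ℕ) : Prop :=
  ∀ m : Multiset (ℕ × K), (∀ x ∈ m, ∃ s, E s x.1 x.2) → IsTateRel q m → PairGenerated q m

end Abs

variable {k : Type u} [Field k] {𝒱 : VarClass k} {ops : CycleOps 𝒱}

/-- The classes of algebraic cycles on `X`. -/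
def IsAlg (W : WeilCohomology.{u, v} ops) (X : 𝒱.Obj) (z : W.H X) : Prop :=
  ∃ j, z ∈ algClasses W X j

/-- The primitive transcendental cohomology of degree `i`. -/
def PT (W : WeilCohomology.{u, v} ops) (P : Polarized 𝒱) : ℕ → W.H P.X → Prop :=
  PrimTr (W.gr P.X) P.X.dim (W.cl P.X P.D) (W.tr P.X) (IsAlg W P.X)

/-- The operator `u` is the correspondence of an algebraic cycle on `X × X` of codimension
`dim X`. -/
def IsAlgCorr (W : WeilCohomology.{u, v} ops) (X : 𝒱.Obj) (u : W.H X → W.H X) : Prop :=
  ∃ c ∈ algClasses W (X.prod X) X.dim, W.corr c = u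

/-- The generalized eigenspaces of the Frobenius endomorphism `f` of `P` (relative to the field
with `q` elements) on the primitive transcendental cohomology are irreducible representations of a
group acting on the cohomology of `P` by automorphisms of the cohomology algebra, each of
which is induced by an algebraic cycle with rational coefficients on `X × X` and multiplies the
class of the divisor by a positive rational number; it contains `f^*`, with the multiplier `q`, as
a central element, and the cyclic group generated by `f^*` has a finite index. (For example the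
group generated by `f^*` and a finite group of automorphisms of `P` defined over the field with
`q` elements; or, if `P` is defined over a smaller field, this group together with the Frobenius
endomorphism of the smaller field.) -/
def IrrFrob (W : WeilCohomology.{u, v} ops) (P : Polarized 𝒱) (f : P.X ⟶ P.X) (q : ℕ) : Prop :=
  IrrSim (W.cl P.X P.D) (W.map f) q (IsAlgCorr W P.X) (PT W P)

/-- A family of polarized varieties with Frobenius endomorphisms relative to the field with `q`
elements, which satisfy the hard Lefschetz theorem, the Lefschetz standard conjecture and the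
Riemann hypothesis; on the classes of the cycles of codimension `j` on the products of members
some power `m ≥ 1` of the Frobenius endomorphism is the multiplication by `q ^ (m j)`. -/
structure IsFrobFamily (W : WeilCohomology.{u, v} ops) {ι : Type w} (P : ι → Polarized 𝒱)
    (f : ∀ s, (P s).X ⟶ (P s).X) (q : ℕ) : Prop where
  q_ne : q ≠ 0
  div : ∀ s, (P s).X.IsCyc 1 (P s).D
  deg : ∀ s, 0 < (P s).X.V.degCycle (divPow ops (P s).D (P s).X.dim (P s).X.V.fundCycle)
  hardLef : ∀ s, HardLefschetz W (P s).X (P s).D
  lef : ∀ s, LefschetzB W (P s).X (P s).D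
  rh : ∀ s, RiemannHypothesis W (P s).X (f s) q
  frob : ∀ (n : ℕ) (a : Fin (n + 1) → ι), FrobeniusOnCycles W (nest ops n (fun i => P (a i))).X
    (nestMap ops n (fun i => P (a i)) (fun i => f (a i))) q

/-- The eigenvalues on the primitive transcendental cohomology of the members of the family are
different up to roots of unity and powers of `q`. -/
def SeparatedSpectrum (W : WeilCohomology.{u, v} ops) {ι : Type w} (P : ι → Polarized 𝒱)
    (f : ∀ s, (P s).X ⟶ (P s).X) (q : ℕ) : Prop :=
  Separated (fun s i α => HasEig (W.map (f s)) (PT W (P s) i) α) q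

/-- There are no exotic relations between the eigenvalues of the members of the family. -/
def NoExoticSpectrum (W : WeilCohomology.{u, v} ops) {ι : Type w} (P : ι → Polarized 𝒱)
    (f : ∀ s, (P s).X ⟶ (P s).X) (q : ℕ) : Prop :=
  NoExotic (fun s i α => HasEig (W.map (f s)) (fun x => x ∈ W.gr (P s).X i) α) q

/-- The Tate conjecture for the polarized variety `P` with the Frobenius endomorphism `f`. -/
def TateConj (W : WeilCohomology.{u, v} ops) (P : Polarized 𝒱) (f : P.X ⟶ P.X) (q : ℕ) : Prop :=
  TateFor (W.gr P.X) (W.map f) q (IsAlg W P.X)

/-- The standard conjectures of Hodge type and `D` for the polarized variety `P`. -/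
def HodgeAndD (W : WeilCohomology.{u, v} ops) (P : Polarized 𝒱) : Prop :=
  HodgeType W P.X P.D ∧ HomEqNum W P.X

end Pool.Agent.W552
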