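import Pool.Agent.W552.IrrSemi
import Pool.Agent.W552.IrrStmt

/-!
# The theorem on irreducible eigenspaces
-/

open CategoryTheory AlgebraicGeometry

universe u v w

namespace Pool.Agent.W552

open Pool.Agent.H914 Pool.Agent.H914.VarClass Pool.Agent.H914.VarClass.Obj
  Pool.Agent.H914.WeilCohomology Pool.Agent.H281R3.HT

variable {k : Type u} [Field k] {𝒱 : VarClass k} {ops : CycleOps 𝒱}
  {W : WeilCohomology.{u, v} ops}

section One

variable {P : Polarized 𝒱} {fr : P.X ⟶ P.X} {q : ℕ}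

lemma pt_iff {i : ℕ} {x : W.H P.X} : PT W P i x ↔ i ≤ P.X.dim ∧ x ∈ primT W P i := by
  rw [PT, PrimTr, primT, Submodule.mem_inf, Submodule.mem_inf, mem_trans, LinearMap.mem_ker,
    LinearMap.pow_mulLeft, LinearMap.mulLeft_apply]
  constructor
  · rintro ⟨h1, h2, h3, h4⟩
    exact ⟨h1, ⟨fun j b hb => h4 b ⟨j, hb⟩, h2⟩, h3⟩
  · rintro ⟨h1, ⟨h4, h2⟩, h3⟩
    exact ⟨h1, h2, h3, fun z ⟨j, hz⟩ => h4 j z hz⟩

lemma genEig_iff {α : W.K} {x : W.H P.X} : GenEig (W.map fr) α x ↔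
    x ∈ Module.End.maxGenEigenspace (W.map fr).toLinearMap α := by
  rw [Module.End.mem_maxGenEigenspace]
  rfl

lemma irrG_of (h : IrrFrob W P fr q) : ∃ A : SimAction W P fr q, IrrG A := by
  obtain ⟨G, hG, ρ, χ, φ, h1, ⟨h2, h3, h4, h5⟩, h⟩ := h
  refine ⟨{
    G := G
    grp := hG
    ρ := ρ
    χ := χ
    pos := fun g => (h1 g).1
    pol := fun g => (h1 g).2.1
    alg := ?_
    φ := φ
    frob := h2
    frob_χ := h3
    cen := h4
    fin := h5 }, ?_⟩
  · intro g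
    obtain ⟨_, ⟨z, hz, rfl⟩, hc⟩ := (h1 g).2.2
    exact ⟨z, hz, fun a => congrFun hc a⟩
  intro i hi α u hu hc
  have key : ∀ x, x ∈ primT W P i ⊓ Module.End.maxGenEigenspace (W.map fr).toLinearMap α ↔
      PT W P i x ∧ GenEig (W.map fr) α x := by
    intro x
    rw [Submodule.mem_inf, pt_iff, genEig_iff]
    exact ⟨fun h => ⟨⟨hi, h.1⟩, h.2⟩, fun h => ⟨h.1.2, h.2⟩⟩
  obtain ⟨c, hc'⟩ := h i α u (fun x hx => (key _).1 (hu x ((key x).2 hx)))
    (fun g x hx => hc g x ((key x).2 hx))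
  exact ⟨c, fun x hx => hc' x ((key x).1 hx)⟩

lemma eigT_iff {i : ℕ} {α : W.K} : EigT W P fr i α ↔ HasEig (W.map fr) (PT W P i) α := by
  constructor
  · rintro ⟨hi, x, hx, hx0, hα⟩
    exact ⟨x, pt_iff.2 ⟨hi, hx⟩, hx0, hα⟩
  · rintro ⟨x, hx, hx0, hα⟩
    obtain ⟨hi, hx⟩ := pt_iff.1 hx
    exact ⟨hi, x, hx, hx0, hα⟩

lemma tate_of (h : TateConj W P fr q) : TateClassesAlgebraic W P.X fr q := by
  intro j c hc hm
  refine Submodule.span_mono ?_ (h j c hc hm)
  rintro z ⟨j, hz⟩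
  exact Set.mem_iUnion.2 ⟨j, hz⟩

lemma topNe (hD : P.X.IsCyc 1 P.D)
    (hdeg : 0 < P.X.V.degCycle (divPow ops P.D P.X.dim P.X.V.fundCycle)) :
    ∃ b, W.tr P.X b ≠ 0 := by
  have hn := divPow_mem (ops := ops) hD P.X.dim P.X.V.fundCycle_mem
  rw [zero_add] at hn
  refine ⟨W.cl P.X (divPow ops P.D P.X.dim P.X.V.fundCycle), ?_⟩
  rw [W.tr_cl hn]
  exact_mod_cast hdeg.ne'

end One

/-- **Irreducible eigenspaces of the Frobenius endomorphism.** -/
theorem irr_main [IsAlgClosed W.K] {ι : Type w} {P : ι → Polarized 𝒱}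
    {f : ∀ s, (P s).X ⟶ (P s).X} {q : ℕ} (h : IsFrobFamily W P f q)
    (hI : ∀ s, IrrFrob W (P s) (f s) q) (hS : SeparatedSpectrum W P f q) :
    ((∀ s, HodgeType W (P s).X (P s).D) ↔ ∀ s t, HodgeAndD W ((P s).prod ops (P t))) ∧
    ((∀ s, TateConj W (P s) (f s) q) → NoExoticSpectrum W P f q →
      ((∀ s, HodgeType W (P s).X (P s).D) ↔
        ∀ (n : ℕ) (a : Fin (n + 1) → ι), HodgeAndD W (nest ops n (fun i => P (a i))))) := by
  classical
  have hl : ∀ s, ∃ g Φ, Loc W (P s) g Φ := fun s =>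
    exists_loc (h.div s) (h.hardLef s) (h.lef s) (topNe (h.div s) (h.deg s))
  choose g Φ l using hl
  have hA : ∀ s, ∃ A : SimAction W (P s) (f s) q, IrrG A := fun s => irrG_of (hI s)
  choose A hA using hA
  have hF1 : ∀ s, FrobeniusOnCycles W (P s).X (f s) q := fun s => h.frob 0 (fun _ => s)
  have hF2 : ∀ s t, FrobeniusOnCycles W ((P s).X.prod (P t).X) (pairMap (f s) (f t)) q :=
    fun s t => h.frob 1 ![s, t]
  have hsep : SepT W P f q := by
    intro s t j i a b m α β hm h1 h2 h3 h4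
    exact hS s t j i a b m α β hm (eigT_iff.1 h1) (eigT_iff.1 h2) h3 h4
  have hdiag : (∀ s, HodgeType W (P s).X (P s).D) → ∀ s, Diagonalizable W (f s) := by
    intro hH s
    obtain ⟨B⟩ := exists_rb (l s) (hH s)
    exact diag_of (l s) B (hA s) h.q_ne (hF1 s)
  have hirr : (∀ s, HodgeType W (P s).X (P s).D) → ∀ s, IrrT (A s) := by
    intro hH s
    obtain ⟨B⟩ := exists_rb (l s) (hH s)
    exact irrT_of (l s) B (hA s)
  have hpair : (∀ s, HodgeType W (P s).X (P s).D) →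
      ∀ s t, HodgeAndD W ((P s).prod ops (P t)) := fun hH s t =>
    hodge_pair l A (hdiag hH) h.rh (hirr hH) hsep hF2 hH s t
  have hback : (∀ s t, HodgeAndD W ((P s).prod ops (P t))) →
      ∀ s, HodgeType W (P s).X (P s).D := fun hH s =>
    hodge_of_square (h.div s) (h.deg s) (h.hardLef s) (h.lef s) (hH s s).1
  refine ⟨⟨hpair, hback⟩, ?_⟩
  intro hT hN
  constructor
  · intro hH n a
    have hd := hdiag hH
    have hT2 : ∀ s t, TateClassesAlgebraic W ((P s).X.prod (P t).X) (pairMap (f s) (f t)) q :=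
      tate_pair h.q_ne l A hd (hirr hH) hsep hF1 hH
        (fun s => tate_of (hT s))
    have hN' : NoExoticRelations W f q := by
      intro m hm hm'
      refine hN m ?_ hm'
      intro x hx
      obtain ⟨s, c, hc, hc0, hcα⟩ := hm x hx
      exact ⟨s, c, hc, hc0, hcα⟩
    have hDn : (nest ops n (fun i => P (a i))).X.IsCyc 1 (nest ops n (fun i => P (a i))).D :=
      isCyc_nest fun i => h.div _
    exact (hodge_neat h.q_ne h.div h.deg h.hardLef hd h.frob hT2 hN').1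
      (fun s t => (hpair hH s t).1) n a _ (covers_refl _) hDn
  · intro hH s
    exact (hH 0 (fun _ => s)).1

end Pool.Agent.W552
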