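import Pool.Agent.W552.Defs
import Pool.Agent.H281R3.HT.GDefs

/-!
# Varieties over finite fields without exotic relations between the Frobenius eigenvalues
-/

open CategoryTheory AlgebraicGeometry

universe u v w

namespace Pool.Agent.W552

open Pool.Agent.H914 Pool.Agent.H914.VarClass Pool.Agent.H914.VarClass.Obj
  Pool.Agent.H914.WeilCohomology Pool.Agent.H281R3.HT

variable {k : Type u} [Field k] {𝒱 : VarClass k}

/-- The product `f 0 × (f 1 × (⋯ × f n))` of endomorphisms. -/
noncomputable def nestMap (ops : CycleOps 𝒱) : (n : ℕ) → (P : Fin (n + 1) → Polarized 𝒱) →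
    (f : ∀ a, (P a).X ⟶ (P a).X) → ((nest ops n P).X ⟶ (nest ops n P).X)
  | 0, _, f => f 0
  | n + 1, P, f => Obj.lift (fst (P 0).X (nest ops n (fun i => P i.succ)).X ≫ f 0)
      (snd (P 0).X (nest ops n (fun i => P i.succ)).X ≫
        nestMap ops n (fun i => P i.succ) (fun i => f i.succ))

/-- The endomorphism `f × g` of `X × Y`. -/
noncomputable def pairMap {X Y : 𝒱.Obj} (f : X ⟶ X) (g : Y ⟶ Y) : X.prod Y ⟶ X.prod Y :=
  Obj.lift (fst X Y ≫ f) (snd X Y ≫ g)

/-- The Tate conjecture for `X` and its Frobenius endomorphism `f` relative to the field with `q`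
elements: every class of degree `2 j` on which, for some `m ≥ 1`, the `m`-th iterate of `f^*` is
the multiplication by `q ^ (m j)` is a linear combination of classes of algebraic cycles. -/
def TateClassesAlgebraic {ops : CycleOps 𝒱} (W : WeilCohomology.{u, v} ops) (X : 𝒱.Obj)
    (f : X ⟶ X) (q : ℕ) : Prop :=
  ∀ j, ∀ c ∈ W.gr X (2 * j), (∃ m ≥ 1, (W.map f)^[m] c = (q : W.K) ^ (m * j) • c) →
    c ∈ algSpan W X

/-- The number `x.2` is an eigenvalue of `f^*` on the cohomology of degree `x.1`. -/
def IsWeight {ops : CycleOps 𝒱} (W : WeilCohomology.{u, v} ops) {X : 𝒱.Obj} (f : X ⟶ X)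
    (x : ℕ × W.K) : Prop :=
  ∃ c ∈ W.gr X x.1, c ≠ 0 ∧ W.map f c = x.2 • c

section Alg

variable {K : Type v} [Field K]

/-- The product of the numbers in the multiset is, up to a root of unity, `q` to the power
predicted by the degrees, whose sum is even. -/
def IsTateRel (q : ℕ) (s : Multiset (ℕ × K)) : Prop :=
  ∃ j, (s.map Prod.fst).sum = 2 * j ∧
    ∃ m ≥ 1, (s.map Prod.snd).prod ^ m = (q : K) ^ (m * j)

/-- The multiset is a sum of relations between one or two numbers. -/
inductive PairGenerated (q : ℕ) : Multiset (ℕ × K) → Prop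
  | zero : PairGenerated q 0
  | single {x s} : IsTateRel q {x} → PairGenerated q s → PairGenerated q (x ::ₘ s)
  | pair {x y s} : IsTateRel q {x, y} → PairGenerated q s → PairGenerated q (x ::ₘ y ::ₘ s)

end Alg

/-- There are no exotic relations: every relation between the eigenvalues of the Frobenius
endomorphisms on the cohomology of the members of the family is a sum of relations between one or
two eigenvalues. -/
def NoExoticRelations {ops : CycleOps 𝒱} (W : WeilCohomology.{u, v} ops) {ι : Type w}
    {X : ι → 𝒱.Obj} (f : ∀ j, X j ⟶ X j) (q : ℕ) : Prop :=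
  ∀ s : Multiset (ℕ × W.K), (∀ x ∈ s, ∃ j, IsWeight W (f j) x) → IsTateRel q s →
    PairGenerated q s

/-- The operator `f^*` on the cohomology of `X` is diagonalizable over the coefficient field. -/
def Diagonalizable {ops : CycleOps 𝒱} (W : WeilCohomology.{u, v} ops) {X : 𝒱.Obj}
    (f : X ⟶ X) : Prop :=
  ⨆ α, Module.End.eigenspace (W.map f).toLinearMap α = ⊤

end Pool.Agent.W552
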