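import Pool.Agent.W552.Main
import Pool.Agent.W552.FrobDefs

/-!
# Without exotic relations all algebraic classes on products come from pairs of factors
-/

open CategoryTheory AlgebraicGeometry

universe u v w

namespace Pool.Agent.W552

open Pool.Agent.H914 Pool.Agent.H914.VarClass Pool.Agent.H914.VarClass.Obj
  Pool.Agent.H914.WeilCohomology Pool.Agent.H281R3.HT

variable {k : Type u} [Field k] {𝒱 : VarClass k} {ops : CycleOps 𝒱}
  {W : WeilCohomology.{u, v} ops}

section Lin

variable {K : Type*} [Field K] {V : Type*} [AddCommGroup V] [Module K V]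

/-- An eigenvector is a linear combination of the eigenvectors in a spanning set of eigenvectors
which belong to the same eigenvalue. -/
lemma mem_span_eigen {M : Set V} {T : Module.End K V} (hM : ∀ v ∈ M, ∃ ν : K, T v = ν • v)
    (hspan : Submodule.span K M = ⊤) {μ : K} {z : V} (hz : T z = μ • z) :
    z ∈ Submodule.span K {v | v ∈ M ∧ T v = μ • v} := by
  have key : ∀ z : V, ∃ z₁ ∈ Submodule.span K {v | v ∈ M ∧ T v = μ • v},
      ∃ z₂ ∈ ⨆ ν ∈ {ν : K | ν ≠ μ}, T.eigenspace ν, z = z₁ + z₂ := by
    intro z
    have hz : z ∈ Submodule.span K M := by rw [hspan]; exact Submodule.mem_top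
    induction hz using Submodule.span_induction with
    | mem v hv =>
      obtain ⟨ν, hν⟩ := hM v hv
      by_cases h : ν = μ
      · subst h
        exact ⟨v, Submodule.subset_span ⟨hv, hν⟩, 0, Submodule.zero_mem _, (add_zero v).symm⟩
      · refine ⟨0, Submodule.zero_mem _, v, ?_, (zero_add v).symm⟩
        exact (le_iSup₂_of_le (f := fun (ν : K) (_ : ν ∈ {ν : K | ν ≠ μ}) => T.eigenspace ν)
          ν h le_rfl) (Module.End.mem_eigenspace_iff.2 hν)
    | zero => exact ⟨0, Submodule.zero_mem _, 0, Submodule.zero_mem _, (add_zero 0).symm⟩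
    | add x y _ _ hx hy =>
      obtain ⟨a, ha, b, hb, rfl⟩ := hx
      obtain ⟨a', ha', b', hb', rfl⟩ := hy
      exact ⟨a + a', Submodule.add_mem _ ha ha', b + b', Submodule.add_mem _ hb hb',
        by abel⟩
    | smul c x _ hx =>
      obtain ⟨a, ha, b, hb, rfl⟩ := hx
      exact ⟨c • a, Submodule.smul_mem _ _ ha, c • b, Submodule.smul_mem _ _ hb, smul_add _ _ _⟩
  obtain ⟨z₁, h1, z₂, h2, rfl⟩ := key z
  have h3 : T z₁ = μ • z₁ := by
    have : Submodule.span K {v | v ∈ M ∧ T v = μ • v} ≤ T.eigenspace μ := by
      rw [Submodule.span_le]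
      intro v hv
      exact Module.End.mem_eigenspace_iff.2 hv.2
    exact Module.End.mem_eigenspace_iff.1 (this h1)
  have h4 : z₂ ∈ T.eigenspace μ := by
    rw [Module.End.mem_eigenspace_iff]
    rw [map_add, smul_add, h3] at hz
    exact add_left_cancel hz
  have h5 := (Module.End.eigenspaces_iSupIndep T) μ
  rw [Submodule.disjoint_def] at h5
  have h6 : z₂ = 0 := by
    apply h5 z₂ h4
    exact h2
  rw [h6, add_zero]
  exact h1

end Lin

section Basic

variable {X Y : 𝒱.Obj}

lemma cl_iterate (f : X ⟶ X) (m : ℕ) (z : X.Cycles) :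
    W.cl X ((ops.pull f)^[m] z) = (W.map f)^[m] (W.cl X z) := by
  induction m with
  | zero => rfl
  | succ m ih => rw [Function.iterate_succ_apply', Function.iterate_succ_apply', W.cl_pull, ih]

lemma iterate_eigen (f : X ⟶ X) {c : W.H X} {α : W.K} (h : W.map f c = α • c) (m : ℕ) :
    (W.map f)^[m] c = α ^ m • c := by
  induction m with
  | zero => rw [pow_zero, one_smul]; rfl
  | succ m ih => rw [Function.iterate_succ_apply', ih, map_smul, h, smul_smul, pow_succ]

lemma list_prod_eigen (φ : W.H X →ₐ[W.K] W.H X) {Λ : Type} (x : Λ → W.H X) (α : Λ → W.K)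
    (h : ∀ a, φ (x a) = α a • x a) (l : List Λ) :
    φ (l.map x).prod = (l.map α).prod • (l.map x).prod := by
  induction l with
  | nil => simp
  | cons a l ih =>
    rw [List.map_cons, List.prod_cons, map_mul, ih, h, List.map_cons, List.prod_cons,
      smul_mul_smul_comm]

lemma list_prod_mem {Λ : Type} (x : Λ → W.H X) (d : Λ → ℕ) (h : ∀ a, x a ∈ W.gr X (d a))
    (l : List Λ) : (l.map x).prod ∈ W.gr X (l.map d).sum := by
  induction l with
  | nil => exact W.one_mem X
  | cons a l ih =>
    simp only [List.map_cons, List.prod_cons, List.sum_cons]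
    exact W.mul_mem (h a) ih

lemma prod_perm {Λ : Type} (x : Λ → W.H X) (d : Λ → ℕ) (hx : ∀ a, x a ∈ W.gr X (d a))
    {l l' : List Λ} (h : l.Perm l') : ∃ ε : W.K, (l.map x).prod = ε • (l'.map x).prod := by
  induction h with
  | nil => exact ⟨1, by rw [one_smul]⟩
  | cons a _ ih =>
    obtain ⟨ε, hε⟩ := ih
    exact ⟨ε, by rw [List.map_cons, List.prod_cons, hε, List.map_cons, List.prod_cons,
      mul_smul_comm]⟩
  | swap a b l =>
    refine ⟨(-1) ^ (d b * d a), ?_⟩
    rw [List.map_cons, List.prod_cons, List.map_cons, List.prod_cons, List.map_cons,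
      List.prod_cons, List.map_cons, List.prod_cons, ← mul_assoc, W.comm (hx b) (hx a),
      smul_mul_assoc, mul_assoc]
  | trans _ _ h1 h2 =>
    obtain ⟨ε, hε⟩ := h1
    obtain ⟨ε', hε'⟩ := h2
    exact ⟨ε * ε', by rw [hε, hε', smul_smul]⟩

lemma gr_unique {i j : ℕ} {c : W.H X} (hi : c ∈ W.gr X i) (hj : c ∈ W.gr X j) (hc : c ≠ 0) :
    i = j := by
  by_contra h
  apply hc
  rw [← proj_same (W.isInternal X) hj, proj_ne (W.isInternal X) hi h]

/-- The cohomology is spanned by homogeneous eigenvectors. -/
lemma span_eigen {f : X ⟶ X} (hf : Diagonalizable W f) :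
    Submodule.span W.K {x : W.H X | ∃ (d : ℕ) (α : W.K), x ∈ W.gr X d ∧
      W.map f x = α • x} = ⊤ := by
  rw [eq_top_iff]
  intro c _
  have hc : c ∈ ⨆ α, Module.End.eigenspace (W.map f).toLinearMap α := by
    rw [hf]; exact Submodule.mem_top
  induction hc using Submodule.iSup_induction' with
  | mem α y hy =>
    have hy' : W.map f y = α • y := Module.End.mem_eigenspace_iff.1 hy
    have hcomm : ∀ i (y : W.H X), H914.proj (W.isInternal X) i (W.map f y) =
        W.map f (H914.proj (W.isInternal X) i y) := by
      intro i y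
      refine gr_induction (W.isInternal X) (p := fun y =>
        H914.proj (W.isInternal X) i (W.map f y) =
          W.map f (H914.proj (W.isInternal X) i y)) ?_ ?_ y
      · intro j y hy
        by_cases h : j = i
        · subst h
          rw [proj_same _ hy, proj_same _ (W.map_mem f hy)]
        · rw [proj_ne _ hy h, proj_ne _ (W.map_mem f hy) h, map_zero]
      · intro a b ha hb
        rw [map_add, map_add, map_add, ha, hb, map_add]
    have hsum : ∑ i ∈ Finset.range (2 * X.dim + 1), H914.proj (W.isInternal X) i y = y := by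
      have := sum_proj (W.isInternal X) (N := 2 * X.dim + 1)
        (fun i hi => W.gr_eq_bot X i (by omega))
      have h2 := congrArg (fun F => F y) this
      simpa [LinearMap.sum_apply] using h2
    rw [← hsum]
    apply Submodule.sum_mem
    intro i _
    apply Submodule.subset_span
    refine ⟨i, α, proj_mem _ _ _, ?_⟩
    rw [← hcomm, hy', map_smul]
  | zero => exact Submodule.zero_mem _
  | add x y _ _ hx hy => exact Submodule.add_mem _ (hx Submodule.mem_top) (hy Submodule.mem_top)

end Basic

section Match

variable {n : ℕ} {P : Fin (n + 1) → Polarized 𝒱}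

/-- The span of the products of classes on pairs which use exactly the factors in `S`. -/
noncomputable def mspan (W : WeilCohomology.{u, v} ops) (P : Fin (n + 1) → Polarized 𝒱)
    (S : Finset (Fin (n + 1))) : Submodule W.K (W.H (nest ops n P).X) :=
  Submodule.span W.K {c | IsMatching W P S c}

lemma mspan_le (S : Finset (Fin (n + 1))) : mspan W P S ≤ matchingSpan W P :=
  Submodule.span_mono fun _ hc => ⟨S, hc⟩

lemma mspan_one : (1 : W.H (nest ops n P).X) ∈ mspan W P ∅ :=
  Submodule.subset_span IsMatching.one

lemma mspan_single {S : Finset (Fin (n + 1))} {c : W.H (nest ops n P).X} {a : Fin (n + 1)}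
    {x : W.H (P a).X} (hc : c ∈ mspan W P S) (ha : a ∉ S) (hx : x ∈ algSpan W (P a).X) :
    W.map (prj ops n P a) x * c ∈ mspan W P (insert a S) := by
  induction hx using Submodule.span_induction with
  | mem x hx =>
    obtain ⟨j, hx⟩ := Set.mem_iUnion.1 hx
    induction hc using Submodule.span_induction with
    | mem c hc => exact Submodule.subset_span (IsMatching.single hc ha hx)
    | zero => rw [mul_zero]; exact Submodule.zero_mem _
    | add c c' _ _ h h' => rw [mul_add]; exact Submodule.add_mem _ h h'
    | smul t c _ h => rw [mul_smul_comm]; exact Submodule.smul_mem _ _ h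
  | zero => rw [map_zero, zero_mul]; exact Submodule.zero_mem _
  | add x x' _ _ h h' => rw [map_add, add_mul]; exact Submodule.add_mem _ h h'
  | smul t x _ h => rw [map_smul, smul_mul_assoc]; exact Submodule.smul_mem _ _ h

lemma mspan_pair {S : Finset (Fin (n + 1))} {c : W.H (nest ops n P).X} {a b : Fin (n + 1)}
    {x : W.H ((P a).X.prod (P b).X)} (hc : c ∈ mspan W P S) (ha : a ∉ S) (hb : b ∉ S)
    (hab : a ≠ b) (hx : x ∈ algSpan W ((P a).X.prod (P b).X)) :
    W.map (Obj.lift (prj ops n P a) (prj ops n P b)) x * c ∈
      mspan W P (insert a (insert b S)) := by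
  induction hx using Submodule.span_induction with
  | mem x hx =>
    obtain ⟨j, hx⟩ := Set.mem_iUnion.1 hx
    induction hc using Submodule.span_induction with
    | mem c hc => exact Submodule.subset_span (IsMatching.pair hc ha hb hab hx)
    | zero => rw [mul_zero]; exact Submodule.zero_mem _
    | add c c' _ _ h h' => rw [mul_add]; exact Submodule.add_mem _ h h'
    | smul t c _ h => rw [mul_smul_comm]; exact Submodule.smul_mem _ _ h
  | zero => rw [map_zero, zero_mul]; exact Submodule.zero_mem _
  | add x x' _ _ h h' => rw [map_add, add_mul]; exact Submodule.add_mem _ h h'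
  | smul t x _ h => rw [map_smul, smul_mul_assoc]; exact Submodule.smul_mem _ _ h

end Match

section Frob

variable {n : ℕ} {P : Fin (n + 1) → Polarized 𝒱} {f : ∀ a, (P a).X ⟶ (P a).X} {q : ℕ}

lemma map_pairMap {X Y : 𝒱.Obj} (f : X ⟶ X) (g : Y ⟶ Y) (a : W.H X) (b : W.H Y) :
    W.map (pairMap f g) (W.map (fst X Y) a * W.map (snd X Y) b) =
      W.map (fst X Y) (W.map f a) * W.map (snd X Y) (W.map g b) := by
  have e1 : pairMap f g ≫ fst X Y = fst X Y ≫ f := Obj.lift_fst _ _
  have e2 : pairMap f g ≫ snd X Y = snd X Y ≫ g := Obj.lift_snd _ _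
  rw [map_mul, ← W.map_comp, ← W.map_comp, e1, e2, W.map_comp, W.map_comp]

/-- **Products of eigenvectors are linear combinations of products of algebraic classes on pairs
of factors.** -/
theorem prod_mem_mspan (hT : ∀ a, TateClassesAlgebraic W (P a).X (f a) q)
    (hT2 : ∀ a b, TateClassesAlgebraic W ((P a).X.prod (P b).X) (pairMap (f a) (f b)) q)
    (x : ∀ a, W.H (P a).X) (d : Fin (n + 1) → ℕ) (α : Fin (n + 1) → W.K)
    (hd : ∀ a, x a ∈ W.gr (P a).X (d a)) (hα : ∀ a, W.map (f a) (x a) = α a • x a)
    {s : Multiset (ℕ × W.K)} (hs : PairGenerated q s) :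
    ∀ l : List (Fin (n + 1)), l.Nodup → (l : Multiset (Fin (n + 1))).map
      (fun a => (d a, α a)) = s →
      (l.map (fun a => W.map (prj ops n P a) (x a))).prod ∈
        mspan W P l.toFinset := by
  have hx : ∀ a, W.map (prj ops n P a) (x a) ∈
      W.gr (nest ops n P).X (d a) := fun a => W.map_mem _ (hd a)
  have hsing : ∀ a, IsTateRel q {(d a, α a)} → x a ∈ algSpan W (P a).X := by
    rintro a ⟨j, hj, m, hm, hm'⟩
    simp only [Multiset.map_singleton, Multiset.sum_singleton, Multiset.prod_singleton] at hj hm'
    refine hT a j (x a) (hj ▸ hd a) ⟨m, hm, ?_⟩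
    rw [iterate_eigen _ (hα a), hm']
  have hpair : ∀ a b, IsTateRel q {(d a, α a), (d b, α b)} →
      W.map (fst (P a).X (P b).X) (x a) * W.map (snd (P a).X (P b).X) (x b) ∈
        algSpan W ((P a).X.prod (P b).X) := by
    rintro a b ⟨j, hj, m, hm, hm'⟩
    simp only [Multiset.insert_eq_cons, Multiset.map_cons, Multiset.map_singleton,
      Multiset.sum_cons, Multiset.sum_singleton, Multiset.prod_cons,
      Multiset.prod_singleton] at hj hm'
    refine hT2 a b j _ (hj ▸ W.mul_mem (W.map_mem _ (hd a)) (W.map_mem _ (hd b))) ⟨m, hm, ?_⟩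
    have h1 : W.map (pairMap (f a) (f b)) (W.map (fst (P a).X (P b).X) (x a) *
        W.map (snd (P a).X (P b).X) (x b)) = (α a * α b) • (W.map (fst (P a).X (P b).X) (x a) *
        W.map (snd (P a).X (P b).X) (x b)) := by
      rw [map_pairMap, hα, hα, map_smul, map_smul, smul_mul_smul_comm]
    rw [iterate_eigen _ h1, hm']
  induction hs with
  | zero =>
    intro l _ hl
    have : l = [] := by
      rw [Multiset.map_eq_zero] at hl
      exact (Multiset.coe_eq_zero l).1 hl
    subst this
    exact mspan_one
  | @single y s hy _ ih =>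
    intro l hnd hl
    obtain ⟨a, ha, hya, hl'⟩ := (Multiset.map_eq_cons (fun a => (d a, α a)) _ _ _).2 hl
    rw [Multiset.coe_erase] at hl'
    have hperm : l.Perm (a :: l.erase a) := List.perm_cons_erase (Multiset.mem_coe.1 ha)
    obtain ⟨ε, hε⟩ := prod_perm _ d hx hperm
    rw [hε, List.map_cons, List.prod_cons, List.toFinset_eq_of_perm _ _ hperm,
      List.toFinset_cons]
    apply Submodule.smul_mem
    refine mspan_single (ih _ (hnd.erase a) hl') ?_ (hsing a ?_)
    · rw [List.mem_toFinset]
      exact hnd.not_mem_erase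
    · rw [hya]; exact hy
  | @pair y z s hyz _ ih =>
    intro l hnd hl
    obtain ⟨a, ha, hya, hl'⟩ := (Multiset.map_eq_cons (fun a => (d a, α a)) _ _ _).2 hl
    rw [Multiset.coe_erase] at hl'
    obtain ⟨b, hb, hzb, hl''⟩ := (Multiset.map_eq_cons (fun a => (d a, α a)) _ _ _).2 hl'
    rw [Multiset.coe_erase] at hl''
    have hb' : b ∈ l.erase a := Multiset.mem_coe.1 hb
    have hperm' : (l.erase a).Perm (b :: (l.erase a).erase b) := List.perm_cons_erase hb'
    have hperm : l.Perm (a :: b :: (l.erase a).erase b) :=
      (List.perm_cons_erase (Multiset.mem_coe.1 ha)).trans (hperm'.cons a)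
    have hnd' : (a :: b :: (l.erase a).erase b).Nodup := hperm.nodup_iff.1 hnd
    rw [List.nodup_cons, List.nodup_cons, List.mem_cons, not_or] at hnd'
    obtain ⟨ε, hε⟩ := prod_perm _ d hx hperm
    have e1 : prj ops n P a = Obj.lift (prj ops n P a)
        (prj ops n P b) ≫ fst (P a).X (P b).X := (Obj.lift_fst _ _).symm
    have e2 : prj ops n P b = Obj.lift (prj ops n P a)
        (prj ops n P b) ≫ snd (P a).X (P b).X := (Obj.lift_snd _ _).symm
    have e3 : W.map (prj ops n P a) (x a) *
        W.map (prj ops n P b) (x b) =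
        W.map (Obj.lift (prj ops n P a) (prj ops n P b))
          (W.map (fst (P a).X (P b).X) (x a) * W.map (snd (P a).X (P b).X) (x b)) := by
      rw [map_mul, ← W.map_comp, ← W.map_comp, ← e1, ← e2]
    rw [hε, List.map_cons, List.prod_cons, List.map_cons, List.prod_cons, ← mul_assoc, e3,
      List.toFinset_eq_of_perm _ _ hperm, List.toFinset_cons, List.toFinset_cons]
    apply Submodule.smul_mem
    refine mspan_pair (ih _ ((hnd.erase a).erase b) hl'') ?_ ?_
      hnd'.1.1 (hpair a b ?_)
    · rw [List.mem_toFinset]
      exact hnd'.1.2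
    · rw [List.mem_toFinset]
      exact hnd'.2.1
    · rw [hya, hzb]; exact hyz

omit q in
lemma nestMap_prj (a : Fin (n + 1)) :
    nestMap ops n P f ≫ prj ops n P a = prj ops n P a ≫ f a := by
  induction n with
  | zero =>
    obtain rfl : a = 0 := Fin.eq_zero a
    change f 0 ≫ 𝟙 (P 0).X = 𝟙 (P 0).X ≫ f 0
    rw [Category.comp_id, Category.id_comp]
  | succ n ih =>
    refine Fin.cases ?_ (fun i => ?_) a
    · exact Obj.lift_fst _ _
    · have h1 := ih (P := fun i => P i.succ) (f := fun i => f i.succ) i
      have key : ∀ {N : 𝒱.Obj} (φ : N ⟶ N) (g : N ⟶ (P i.succ).X),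
          φ ≫ g = g ≫ f i.succ → Obj.lift (fst (P 0).X N ≫ f 0) (snd (P 0).X N ≫ φ) ≫
            (snd (P 0).X N ≫ g) = (snd (P 0).X N ≫ g) ≫ f i.succ := by
        intro N φ g h
        rw [← Category.assoc, Obj.lift_snd, Category.assoc, Category.assoc, h]
      exact key _ _ h1

lemma map_nestMap (a : Fin (n + 1)) (c : W.H (P a).X) :
    W.map (nestMap ops n P f) (W.map (prj ops n P a) c) =
      W.map (prj ops n P a) (W.map (f a) c) := by
  rw [← W.map_comp, nestMap_prj, W.map_comp]

lemma finRange_one_prod {M : Type*} [Monoid M] (g : Fin 1 → M) :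
    ((List.finRange 1).map g).prod = g 0 := by
  have e : List.finRange 1 = [0] := rfl
  rw [e, List.map_cons, List.map_nil, List.prod_singleton]

lemma finRange_succ_prod {M : Type*} [Monoid M] {n : ℕ} (g : Fin (n + 1) → M) :
    ((List.finRange (n + 1)).map g).prod =
      g 0 * ((List.finRange n).map (fun i => g i.succ)).prod := by
  rw [List.finRange_succ, List.map_cons, List.prod_cons, List.map_map]
  rfl

/-- The products of homogeneous eigenvectors. -/
def EigProd (W : WeilCohomology.{u, v} ops) (P : Fin (n + 1) → Polarized 𝒱)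
    (f : ∀ a, (P a).X ⟶ (P a).X) : Set (W.H (nest ops n P).X) :=
  {v | ∃ (x : ∀ a, W.H (P a).X) (d : Fin (n + 1) → ℕ) (α : Fin (n + 1) → W.K),
    (∀ a, x a ∈ W.gr (P a).X (d a)) ∧ (∀ a, W.map (f a) (x a) = α a • x a) ∧
      v = ((List.finRange (n + 1)).map (fun a => W.map (prj ops n P a) (x a))).prod}

/-- The cohomology of the product is spanned by products of homogeneous eigenvectors. -/
lemma span_eigProd (hf : ∀ a, Diagonalizable W (f a)) :
    Submodule.span W.K (EigProd W P f) = ⊤ := by
  induction n with
  | zero =>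
    rw [eq_top_iff]
    refine (span_eigen (hf 0)).ge.trans (Submodule.span_mono ?_)
    rintro y ⟨d, α, hd, hα⟩
    set x : ∀ a : Fin (0 + 1), W.H (P a).X := Fin.cases y (fun i => i.elim0) with hx
    refine ⟨x, fun _ => d, fun _ => α, fun a => ?_, fun a => ?_, ?_⟩
    · obtain rfl : a = 0 := Fin.eq_zero a
      exact hd
    · obtain rfl : a = 0 := Fin.eq_zero a
      exact hα
    · have h1 := finRange_one_prod (fun a : Fin 1 => W.map (prj ops 0 P a) (x a))
      exact (W.map_id (P 0).X y).symm.trans h1.symm
  | succ n ih =>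
    have h1 := ih (P := fun i => P i.succ) (f := fun i => f i.succ) (fun i => hf i.succ)
    have h0 := span_eigen (hf 0)
    have key : ∀ (a : W.H (P 0).X) (b : W.H (nest ops n (fun i => P i.succ)).X),
        W.map (fst (P 0).X (nest ops n (fun i => P i.succ)).X) a *
          W.map (snd (P 0).X (nest ops n (fun i => P i.succ)).X) b ∈
        Submodule.span W.K (EigProd W P f) := by
      intro a b
      have ha : a ∈ Submodule.span W.K {x : W.H (P 0).X | ∃ (d : ℕ) (α : W.K),
          x ∈ W.gr (P 0).X d ∧ W.map (f 0) x = α • x} := by rw [h0]; exact Submodule.mem_top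
      have hb : b ∈ Submodule.span W.K (EigProd W (fun i => P i.succ) (fun i => f i.succ)) := by
        rw [h1]; exact Submodule.mem_top
      induction ha using Submodule.span_induction with
      | mem a ha =>
        obtain ⟨d, α, hd, hα⟩ := ha
        induction hb using Submodule.span_induction with
        | mem b hb =>
          obtain ⟨x, d', α', hx, hx', rfl⟩ := hb
          apply Submodule.subset_span
          refine ⟨Fin.cases a x, Fin.cases d d', Fin.cases α α', fun i => ?_, fun i => ?_, ?_⟩
          · refine Fin.cases hd (fun i => ?_) i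
            exact hx i
          · refine Fin.cases hα (fun i => ?_) i
            exact hx' i
          · have h2 : W.map (snd (P 0).X (nest ops n (fun i => P i.succ)).X)
                ((List.finRange (n + 1)).map (fun i => W.map (prj ops n (fun i => P i.succ) i)
                  (x i))).prod = ((List.finRange (n + 1)).map (fun i =>
                    W.map (snd (P 0).X (nest ops n (fun i => P i.succ)).X ≫
                      prj ops n (fun i => P i.succ) i) (x i))).prod := by
              rw [map_list_prod, List.map_map]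
              congr 1
              apply List.map_congr_left
              intro i _
              exact (W.map_comp _ _ _).symm
            have h3 := finRange_succ_prod (fun i : Fin (n + 2) =>
              W.map (prj ops (n + 1) P i) (Fin.cases (motive := fun i => W.H (P i).X) a x i))
            exact (congrArg (fun z => W.map (fst (P 0).X
              (nest ops n (fun i => P i.succ)).X) a * z) h2).trans h3.symm
        | zero => rw [map_zero, mul_zero]; exact Submodule.zero_mem _
        | add c c' _ _ h h' => rw [map_add, mul_add]; exact Submodule.add_mem _ h h'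
        | smul t c _ h => rw [map_smul, mul_smul_comm]; exact Submodule.smul_mem _ _ h
      | zero => rw [map_zero, zero_mul]; exact Submodule.zero_mem _
      | add x x' _ _ h h' => rw [map_add, add_mul]; exact Submodule.add_mem _ h h'
      | smul t x _ h => rw [map_smul, smul_mul_assoc]; exact Submodule.smul_mem _ _ h
    rw [eq_top_iff]
    intro z _
    refine W.kunneth_induction (p := fun z => z ∈ Submodule.span W.K (EigProd W P f)) ?_ ?_ z
    · intro a b ha hb
      exact Submodule.add_mem _ ha hb
    · intro i j a _ b _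
      exact key a b

/-- **Without exotic relations all algebraic classes on products are linear combinations of
products of algebraic classes on pairs of factors.** -/
theorem alg_mem_matching (hf : ∀ a, Diagonalizable W (f a))
    (hT : ∀ a, TateClassesAlgebraic W (P a).X (f a) q)
    (hT2 : ∀ a b, TateClassesAlgebraic W ((P a).X.prod (P b).X) (pairMap (f a) (f b)) q)
    (hN : ∀ s : Multiset (ℕ × W.K), (∀ x ∈ s, ∃ a, IsWeight W (f a) x) → IsTateRel q s →
      PairGenerated q s) {j : ℕ} {c : W.H (nest ops n P).X}
    (hc : c ∈ W.gr (nest ops n P).X (2 * j))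
    (hF : ∃ m ≥ 1, (W.map (nestMap ops n P f))^[m] c = (q : W.K) ^ (m * j) • c) :
    c ∈ matchingSpan W P := by
  obtain ⟨m, hm, hcm⟩ := hF
  set T : Module.End W.K (W.H (nest ops n P).X) :=
    (W.map (nestMap ops n P f)).toLinearMap ^ m with hT'
  have hTa : ∀ v, T v = (W.map (nestMap ops n P f))^[m] v := by
    intro v
    rw [hT', Module.End.pow_apply]
    rfl
  have hphi : ∀ (x : ∀ a, W.H (P a).X) (α : Fin (n + 1) → W.K),
      (∀ a, W.map (f a) (x a) = α a • x a) →
      T ((List.finRange (n + 1)).map (fun a => W.map (prj ops n P a) (x a))).prod =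
        (((List.finRange (n + 1)).map α).prod) ^ m •
          ((List.finRange (n + 1)).map (fun a => W.map (prj ops n P a) (x a))).prod := by
    intro x α hα
    rw [hTa]
    apply iterate_eigen
    apply list_prod_eigen
    intro a
    rw [map_nestMap, hα, map_smul]
  have h1 : c ∈ Submodule.span W.K {v | v ∈ EigProd W P f ∧ T v = (q : W.K) ^ (m * j) • v} := by
    refine mem_span_eigen ?_ (span_eigProd hf) ((hTa c).trans hcm)
    rintro v ⟨x, d, α, hd, hα, rfl⟩
    exact ⟨_, hphi x α hα⟩
  have key : ∀ v ∈ Submodule.span W.K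
      {v | v ∈ EigProd W P f ∧ T v = (q : W.K) ^ (m * j) • v},
      H914.proj (W.isInternal (nest ops n P).X) (2 * j) v ∈ matchingSpan W P := by
    intro v hv
    induction hv using Submodule.span_induction with
    | mem v hv =>
      obtain ⟨⟨x, d, α, hd, hα, rfl⟩, hTv⟩ := hv
      have hmem := list_prod_mem (fun a => W.map (prj ops n P a) (x a)) d
        (fun a => W.map_mem _ (hd a)) (List.finRange (n + 1))
      by_cases hv0 : ((List.finRange (n + 1)).map (fun a => W.map (prj ops n P a) (x a))).prod = 0
      · rw [hv0, map_zero]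
        exact Submodule.zero_mem _
      by_cases hj : ((List.finRange (n + 1)).map d).sum = 2 * j
      · rw [hj] at hmem
        rw [proj_same _ hmem]
        rw [hphi x α hα] at hTv
        have hαm := smul_left_injective W.K hv0 hTv
        have hx0 : ∀ a, x a ≠ 0 := by
          intro a ha
          apply hv0
          apply List.prod_eq_zero
          rw [List.mem_map]
          exact ⟨a, List.mem_finRange a, by rw [ha, map_zero]⟩
        have hs := hN (((List.finRange (n + 1) : List (Fin (n + 1))) :
          Multiset (Fin (n + 1))).map (fun a => (d a, α a))) (by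
            intro y hy
            obtain ⟨a, _, rfl⟩ := Multiset.mem_map.1 hy
            exact ⟨a, x a, hd a, hx0 a, hα a⟩) ⟨j, by
              rw [Multiset.map_map, Multiset.map_coe, Multiset.sum_coe]
              exact hj, m, hm, by
              rw [Multiset.map_map, Multiset.map_coe, Multiset.prod_coe]
              exact hαm⟩
        exact mspan_le _ (prod_mem_mspan hT hT2 x d α hd hα hs _ (List.nodup_finRange _) rfl)
      · rw [proj_ne _ hmem hj]
        exact Submodule.zero_mem _
    | zero => rw [map_zero]; exact Submodule.zero_mem _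
    | add x y _ _ hx hy => rw [map_add]; exact Submodule.add_mem _ hx hy
    | smul t x _ hx => rw [map_smul]; exact Submodule.smul_mem _ _ hx
  have h2 := key c h1
  rwa [proj_same _ hc] at h2

end Frob

end Pool.Agent.W552
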