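import Pool.Agent.W552.Core

/-!
# The standard conjecture of Hodge type for the classes generated by pairs of factors
-/

open CategoryTheory AlgebraicGeometry
open scoped ComplexOrder

universe u v w

namespace Pool.Agent.W552

open Pool.Agent.H914 Pool.Agent.H914.VarClass Pool.Agent.H914.VarClass.Obj
  Pool.Agent.H914.WeilCohomology Pool.Agent.H281R3.HT Pool.Agent.H447

variable {k : Type u} [Field k] {𝒱 : VarClass k} {ops : CycleOps 𝒱}
  {W : WeilCohomology.{u, v} ops}

section One

variable {X : 𝒱.Obj} {D : X.Cycles}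

lemma proj_aop (hD : X.IsCyc 1 D) (hHL : HardLefschetz W X D) (hB : LefschetzB W X D) (i : ℕ) :
    AOp W X X (proj (W.isInternal X) i) := by
  obtain ⟨Φ, hΦ, hLam⟩ := lefschetzB_iff_rop.1 hB
  exact AOp.of_rop (rop_opAlg.proj_mem (W.isInternal X) W_hbd (rop_mulLeft hD) hHL hΦ hLam i)

lemma scal_aop (hp : ∀ i, AOp W X X (proj (W.isInternal X) i)) (φ : ℕ → ℤ) :
    AOp W X X (scal (W.isInternal X) (fun i => (φ i : W.K))) := by
  rw [scal_eq_sum (W.isInternal X) (N := 2 * X.dim + 1) W_hbd]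
  apply AOp.ratSub.sum
  intro i _
  have := AOp.smul (φ i : ℚ) (hp i)
  simpa using this

lemma par_aop (hp : ∀ i, AOp W X X (proj (W.isInternal X) i)) :
    AOp W X X (par (W.isInternal X)) := by
  have := scal_aop hp (fun i => (-1) ^ i)
  simpa [H914.par] using this

lemma st_aop {f : Module.End W.K (W.H X)} (F : Fr W X D f)
    (hp : ∀ i, AOp W X X (proj (W.isInternal X) i)) : AOp W X X (st W X D f) :=
  F.wop_aop.mul (scal_aop hp sg)

/-- The consequences for cycles of the positivity of the form. -/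
lemma Fr.hodge {f : Module.End W.K (W.H X)} (F : Fr W X D f) {j : ℕ} {z : X.Cycles}
    (hz : X.IsCyc j z)
    (hpos : W.cl X z ≠ 0 → ∃ q : ℚ, 0 < q ∧ bf W X D f (W.cl X z) (W.cl X z) = q) :
    (2 * j ≤ X.dim → W.cl X (divPow ops D (X.dim - 2 * j + 1) z) = 0 → W.cl X z ≠ 0 →
      0 < (-1 : ℚ) ^ j * X.V.degCycle (ops.mul z (divPow ops D (X.dim - 2 * j) z))) ∧
    (j ≤ X.dim → (∀ w, X.IsCyc (X.dim - j) w → X.V.degCycle (ops.mul z w) = 0) →
      W.cl X z = 0) := by
  constructor
  · intro hj hprim hz0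
    obtain ⟨q, hq, hq'⟩ := hpos hz0
    rw [F.form_prim hj hz hprim] at hq'
    have h1 : (-1 : ℚ) ^ j * (((X.dim - 2 * j).factorial : ℚ)⁻¹ *
        X.V.degCycle (ops.mul z (divPow ops D (X.dim - 2 * j) z))) = q := by exact_mod_cast hq'
    have h2 : (0 : ℚ) < (X.dim - 2 * j).factorial := by exact_mod_cast Nat.factorial_pos _
    have h3 : (-1 : ℚ) ^ j * X.V.degCycle (ops.mul z (divPow ops D (X.dim - 2 * j) z)) =
        (X.dim - 2 * j).factorial * q := by
      rw [← h1]
      field_simp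
    rw [h3]
    exact mul_pos h2 hq
  · intro hj hnum
    by_contra hz0
    obtain ⟨q, hq, hq'⟩ := hpos hz0
    have hzm : W.cl X z ∈ algClasses W X j := ⟨z, hz, rfl⟩
    obtain ⟨w, hw, hw'⟩ := F.w_alg hj hzm
    have h1 : bf W X D f (W.cl X z) (W.cl X z) = 0 := by
      rw [bf_apply, st_apply (alg_gr hzm), ← hw', mul_smul_comm, ← W.cl_mul, map_smul, W.tr_cl,
        hnum w hw]
      · simp
      · have := ops.mul_mem hz hw
        rwa [show j + (X.dim - j) = X.dim by omega] at this
    rw [h1] at hq'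
    have : (q : W.K) = 0 := hq'.symm
    exact hq.ne' (by exact_mod_cast this)

end One

/-- **The standard conjectures of Hodge type and `D` for the classes generated by classes on pairs
of factors.** -/
theorem hodge_matching {n : ℕ} {P : Fin (n + 1) → Polarized 𝒱}
    (hD : ∀ a, (P a).X.IsCyc 1 (P a).D) (hHL : ∀ a, HardLefschetz W (P a).X (P a).D)
    (hB : ∀ a, LefschetzB W (P a).X (P a).D) (hH : ∀ a, HodgeType W (P a).X (P a).D)
    (hH2 : ∀ a b, HodgeType W ((P a).prod ops (P b)).X ((P a).prod ops (P b)).D) :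
    HodgeTypeOn W (nest ops n P).X (nest ops n P).D (matchingSpan W P) ∧
      HomEqNumOn W (nest ops n P).X (matchingSpan W P) := by
  choose f hf hls using fun a => exists_fr (hD a) (hHL a) (hB a)
  have hp : ∀ a i, AOp W (P a).X (P a).X (proj (W.isInternal (P a).X) i) :=
    fun a => proj_aop (hD a) (hHL a) (hB a)
  have S : RSys W (fun a => (P a).X) (fun a => (P a).D) f (fun a b => AS W _) := by
    refine ⟨hf, hls, fun a b => AS.ratSub, fun h => h, fun h h' => h.comp h',
      fun h => h.map _, fun a => AOp.one, fun a => st_aop (hf a) (hp a),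
      fun a => par_aop (hp a), ?_⟩
    intro a b x hx hx0
    exact ((hf a).prod (hf b)).bf_pos (hH2 a b) hx hx0
  by_cases h0 : ∀ a, (1 : W.H (P a).X) ≠ 0
  · obtain ⟨g, hg, hg'⟩ := core S (fun a => AS.one)
      (fun a => (hf a).bf_pos (hH a) AS.one (h0 a))
    have key : ∀ j z, (nest ops n P).X.IsCyc j z → W.cl _ z ∈ matchingSpan W P →
        W.cl _ z ≠ 0 → ∃ q : ℚ, 0 < q ∧ bf W (nest ops n P).X (nest ops n P).D g
          (W.cl _ z) (W.cl _ z) = q := by
      intro j z hz hzs hz0
      refine hg' _ (AS.of ⟨z, hz, rfl⟩) (Submodule.span_mono ?_ hzs) hz0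
      rintro c ⟨T, hc⟩
      refine ⟨T, ?_⟩
      induction hc with
      | one => exact Mch.one
      | single _ ha hx ih => exact Mch.single ih ha ((AS.of hx).map _)
      | pair _ ha hb hab hx ih => exact Mch.pair ih ha hb hab (AS.of hx)
    exact ⟨fun j hj z hz hzs => (hg.hodge hz (key j z hz hzs)).1 hj,
      fun j hj z hz hzs => (hg.hodge hz (key j z hz hzs)).2 hj⟩
  · push Not at h0
    obtain ⟨a, ha⟩ := h0
    have h1 : ∀ x : W.H (nest ops n P).X, x = 0 := by
      intro x
      rw [← one_mul x, ← map_one (W.map (prj ops n P a)), ha, map_zero, zero_mul]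
    exact ⟨fun _ _ _ _ _ _ h => absurd (h1 _) h, fun _ _ _ _ _ _ => h1 _⟩

end Pool.Agent.W552
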