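import Pool.Agent.H281R3.HT.Base
import Pool.Agent.W552.RatBasis

/-!
# Sums of algebraic classes of all codimensions, and the operators they induce
-/

open CategoryTheory AlgebraicGeometry

universe u v w

namespace Pool.Agent.W552

open Pool.Agent.H914 Pool.Agent.H914.VarClass Pool.Agent.H914.VarClass.Obj
  Pool.Agent.H914.WeilCohomology Pool.Agent.H281R3.HT

variable {k : Type u} [Field k] {𝒱 : VarClass k} {ops : CycleOps 𝒱}
  {W : WeilCohomology.{u, v} ops} {X Y Z : 𝒱.Obj}

/-- Sums of algebraic classes. -/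
def AS (W : WeilCohomology.{u, v} ops) (X : 𝒱.Obj) (x : W.H X) : Prop :=
  x ∈ AddSubmonoid.closure (⋃ j, algClasses W X j)

namespace AS

lemma of {j : ℕ} {x : W.H X} (hx : x ∈ algClasses W X j) : AS W X x :=
  AddSubmonoid.subset_closure (Set.mem_iUnion.2 ⟨j, hx⟩)

lemma zero : AS W X 0 := AddSubmonoid.zero_mem _

lemma add {x y : W.H X} (hx : AS W X x) (hy : AS W X y) : AS W X (x + y) :=
  AddSubmonoid.add_mem _ hx hy

@[elab_as_elim]
lemma ind {p : W.H X → Prop} (h1 : ∀ j, ∀ x ∈ algClasses W X j, p x)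
    (h2 : ∀ x y, p x → p y → p (x + y)) {x : W.H X} (hx : AS W X x) : p x := by
  induction hx using AddSubmonoid.closure_induction with
  | mem x hx =>
    obtain ⟨j, hj⟩ := Set.mem_iUnion.1 hx
    exact h1 j x hj
  | zero => exact h1 0 0 (alg_zero 0)
  | add x y _ _ hx hy => exact h2 x y hx hy

lemma smul (q : ℚ) {x : W.H X} (hx : AS W X x) : AS W X ((q : W.K) • x) := by
  refine ind (p := fun x => AS W X ((q : W.K) • x)) ?_ ?_ hx
  · intro j x hx; exact of (alg_smul q hx)
  · intro x y hx hy; rw [smul_add]; exact hx.add hy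

lemma ratSub : RatSub W.K (AS W X) where
  zero := zero
  add := add
  smul q _ hx := smul q hx

lemma one : AS W X 1 := of alg_one

lemma mul {x y : W.H X} (hx : AS W X x) (hy : AS W X y) : AS W X (x * y) := by
  refine ind (p := fun x => AS W X (x * y)) ?_ ?_ hx
  · intro j x hx
    refine ind (p := fun y => AS W X (x * y)) ?_ ?_ hy
    · intro i y hy; exact of (alg_mul hx hy)
    · intro a b ha hb; rw [mul_add]; exact ha.add hb
  · intro a b ha hb; rw [add_mul]; exact ha.add hb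

lemma map (g : X ⟶ Y) {x : W.H Y} (hx : AS W Y x) : AS W X (W.map g x) := by
  refine ind (p := fun x => AS W X (W.map g x)) ?_ ?_ hx
  · intro j x hx; exact of (alg_map g hx)
  · intro a b ha hb; rw [map_add]; exact ha.add hb

lemma push (g : X ⟶ Y) {x : W.H X} (hx : AS W X x) : AS W Y (W.push g x) := by
  refine ind (p := fun x => AS W Y (W.push g x)) ?_ ?_ hx
  · intro j x hx
    by_cases hj : X.dim ≤ j + Y.dim
    · exact of (alg_push g (i := j + Y.dim - X.dim) hx (by omega))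
    · rw [alg_push_zero (g := g) hx (by omega)]; exact zero
  · intro a b ha hb; rw [map_add]; exact ha.add hb

lemma ext {x : W.H X} {y : W.H Y} (hx : AS W X x) (hy : AS W Y y) :
    AS W (X.prod Y) (ext W x y) := (hx.map _).mul (hy.map _)

lemma comm {x : W.H X} (hx : AS W X x) (y : W.H X) : x * y = y * x := by
  refine ind (p := fun x => x * y = y * x) ?_ ?_ hx
  · intro j x hx; exact alg_even_comm hx y
  · intro a b ha hb; rw [add_mul, mul_add, ha, hb]

lemma proj {x : W.H X} (hx : AS W X x) (j : ℕ) :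
    H914.proj (W.isInternal X) (2 * j) x ∈ algClasses W X j := by
  refine ind (p := fun x => H914.proj (W.isInternal X) (2 * j) x ∈ algClasses W X j) ?_ ?_ hx
  · intro i x hx
    by_cases hij : i = j
    · subst hij
      rw [proj_same _ (alg_gr hx)]; exact hx
    · rw [proj_ne _ (alg_gr hx) (by omega)]; exact alg_zero j
  · intro a b ha hb; rw [map_add]; exact alg_add ha hb

lemma alg {x : W.H X} (hx : AS W X x) {j : ℕ} (hj : x ∈ W.gr X (2 * j)) :
    x ∈ algClasses W X j := by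
  rw [← proj_same (W.isInternal X) hj]; exact hx.proj j

lemma tr {x : W.H X} (hx : AS W X x) : ∃ q : ℚ, W.tr X x = q := by
  refine ind (p := fun x => ∃ q : ℚ, W.tr X x = q) ?_ ?_ hx
  · intro j x hx
    have := alg_rat hx (alg_one (W := W) (X := X))
    rwa [bil_apply, mul_one] at this
  · rintro a b ⟨q, hq⟩ ⟨r, hr⟩
    exact ⟨q + r, by rw [map_add, hq, hr, Rat.cast_add]⟩

/-- Composition of correspondences. -/
lemma corr_comp (c : W.H (X.prod Y)) {d : W.H (Y.prod Z)} (hd : AS W (Y.prod Z) d) :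
    W.corr (W.push (p13 X Y Z) (W.map (p12 X Y Z) c * W.map (p23 X Y Z) d)) =
      W.corr d ∘ₗ W.corr c := by
  refine ind (p := fun d => W.corr (W.push (p13 X Y Z) (W.map (p12 X Y Z) c *
    W.map (p23 X Y Z) d)) = W.corr d ∘ₗ W.corr c) ?_ ?_ hd
  · intro j d hd; exact W.corr_comp c (alg_gr hd)
  · intro a b ha hb
    rw [map_add, mul_add, map_add, corr_add, ha, hb, corr_add, LinearMap.add_comp]

lemma comp {c : W.H (X.prod Y)} {d : W.H (Y.prod Z)} (hc : AS W (X.prod Y) c)
    (hd : AS W (Y.prod Z) d) :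
    ∃ e, AS W (X.prod Z) e ∧ W.corr e = W.corr d ∘ₗ W.corr c :=
  ⟨_, ((hc.map _).mul (hd.map _)).push _, corr_comp c hd⟩

/-- The correspondences preserve the sums of algebraic classes. -/
lemma corr {c : W.H (X.prod Y)} (hc : AS W (X.prod Y) c) {x : W.H X} (hx : AS W X x) :
    AS W Y (W.corr c x) := by
  rw [corr_apply]
  exact (hc.mul (hx.map _)).push _

/-- The adjoint. -/
lemma tr_corr {c : W.H (X.prod Y)} (hc : AS W (X.prod Y) c) (a : W.H X) (b : W.H Y) :
    W.tr Y (W.corr c a * b) = W.tr X (a * W.corr (W.map (swap Y X) c) b) := by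
  refine ind (p := fun c => W.tr Y (W.corr c a * b) =
    W.tr X (a * W.corr (W.map (swap Y X) c) b)) ?_ ?_ hc
  · intro j c hc; exact tr_corr_swap (alg_gr hc) a b
  · intro c d hc hd
    rw [corr_add, LinearMap.add_apply, add_mul, map_add, hc, hd, map_add, corr_add,
      LinearMap.add_apply, mul_add, map_add]

end AS

lemma swap_swap (c : W.H (X.prod Y)) : W.map (swap X Y) (W.map (swap Y X) c) = c := by
  refine W.kunneth_induction (p := fun c => W.map (swap X Y) (W.map (swap Y X) c) = c) ?_ ?_ c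
  · intro a b ha hb; rw [map_add, map_add, ha, hb]
  · intro i j a _ b _
    rw [map_mul (W.map (swap Y X)), ← W.map_comp, ← W.map_comp, swap_fst, swap_snd,
      map_mul (W.map (swap X Y)), ← W.map_comp, ← W.map_comp, swap_fst, swap_snd]

/-- The operators given by sums of algebraic classes. -/
def AOp (W : WeilCohomology.{u, v} ops) (X Y : 𝒱.Obj) (u : W.H X →ₗ[W.K] W.H Y) : Prop :=
  ∃ c, AS W (X.prod Y) c ∧ W.corr c = u

namespace AOp

lemma add {u u' : W.H X →ₗ[W.K] W.H Y} (h : AOp W X Y u) (h' : AOp W X Y u') :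
    AOp W X Y (u + u') := by
  obtain ⟨c, hc, rfl⟩ := h
  obtain ⟨d, hd, rfl⟩ := h'
  exact ⟨c + d, hc.add hd, corr_add W c d⟩

lemma zero : AOp W X Y (0 : W.H X →ₗ[W.K] W.H Y) := ⟨0, AS.zero, corr_zero W⟩

lemma smul (q : ℚ) {u : W.H X →ₗ[W.K] W.H Y} (h : AOp W X Y u) :
    AOp W X Y ((q : W.K) • u) := by
  obtain ⟨c, hc, rfl⟩ := h
  exact ⟨(q : W.K) • c, hc.smul q, corr_smul W _ c⟩

lemma ratSub : RatSub W.K (AOp W X Y) where
  zero := zero
  add := add
  smul q _ h := smul q h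

lemma comp {u : W.H X →ₗ[W.K] W.H Y} {u' : W.H Y →ₗ[W.K] W.H Z} (h' : AOp W Y Z u')
    (h : AOp W X Y u) : AOp W X Z (u' ∘ₗ u) := by
  obtain ⟨c, hc, rfl⟩ := h
  obtain ⟨d, hd, rfl⟩ := h'
  exact hc.comp hd

lemma mul {u u' : Module.End W.K (W.H X)} (h : AOp W X X u) (h' : AOp W X X u') :
    AOp W X X (u * u') := h.comp h'

lemma of_rop {d : ℤ} {u : Module.End W.K (W.H X)} (h : ROp W X d u) : AOp W X X u := by
  obtain ⟨Y, ⟨r, hr, z, hz, hY⟩ | ⟨hd', hY⟩, rfl⟩ := h
  · exact ⟨W.cl _ z, AS.of ⟨z, hz, rfl⟩, (hY W).symm⟩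
  · rw [hY]; exact zero

lemma one : AOp W X X (1 : Module.End W.K (W.H X)) := of_rop rop_opAlg.one

lemma pow {u : Module.End W.K (W.H X)} (h : AOp W X X u) (m : ℕ) : AOp W X X (u ^ m) := by
  induction m with
  | zero => simpa using one
  | succ m ih => rw [pow_succ]; exact ih.mul h

lemma apply {u : W.H X →ₗ[W.K] W.H Y} (h : AOp W X Y u) {x : W.H X} (hx : AS W X x) :
    AS W Y (u x) := by
  obtain ⟨c, hc, rfl⟩ := h
  exact hc.corr hx

/-- The adjoint. -/
lemma adj {u : W.H X →ₗ[W.K] W.H Y} (h : AOp W X Y u) :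
    ∃ u', AOp W Y X u' ∧ ∀ a b, W.tr Y (u a * b) = W.tr X (a * u' b) := by
  obtain ⟨c, hc, rfl⟩ := h
  exact ⟨_, ⟨_, hc.map _, rfl⟩, hc.tr_corr⟩

/-- The external product. -/
lemma ext {u : Module.End W.K (W.H X)} {u' : Module.End W.K (W.H Y)} (h : AOp W X X u)
    (h' : AOp W Y Y u') : AOp W (X.prod Y) (X.prod Y) (extOp W u u') := by
  obtain ⟨c, hc, rfl⟩ := h
  obtain ⟨d, hd, rfl⟩ := h'
  refine ⟨W.map (q1 X Y) c * W.map (q2 X Y) d, (hc.map _).mul (hd.map _), ?_⟩
  apply ext_kunneth_lin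
  intro a b
  rw [extOp_tmul]
  refine AS.ind (p := fun d => W.corr (W.map (q1 X Y) c * W.map (q2 X Y) d)
    (W.map (fst X Y) a * W.map (snd X Y) b) =
      W.map (fst X Y) (W.corr c a) * W.map (snd X Y) (W.corr d b)) ?_ ?_ hd
  · intro j d hd
    exact corr_ext c (alg_gr hd) a b
  · intro d d' hd hd'
    rw [map_add, mul_add, corr_add, LinearMap.add_apply, hd, hd', corr_add,
      LinearMap.add_apply, map_add, mul_add]

/-- The exponential of a nilpotent algebraic operator, and the Weyl operator. -/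
lemma wey {e f : Module.End W.K (W.H X)} (he : AOp W X X e) (hf : AOp W X X f)
    (hne : IsNilpotent e) (hnf : IsNilpotent f) : AOp W X X (H914.wey e f) := by
  let _ : Module ℚ (Module.End W.K (W.H X)) :=
    Module.compHom (Module.End W.K (W.H X)) (algebraMap ℚ W.K)
  have hexp : ∀ {g : Module.End W.K (W.H X)}, AOp W X X g → IsNilpotent g →
      AOp W X X (IsNilpotent.exp g) := by
    intro g hg hng
    obtain ⟨N, hN⟩ := hng
    rw [IsNilpotent.exp_eq_sum hN]
    apply ratSub.sum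
    intro i _
    have h1 : ((i.factorial : ℚ)⁻¹ • g ^ i) = (((i.factorial : ℚ)⁻¹ : ℚ) : W.K) • g ^ i := rfl
    rw [h1]
    exact (hg.pow i).smul _
  change AOp W X X (weyl e f)
  rw [weyl]
  have hf' : AOp W X X (-f) := ratSub.neg hf
  exact ((hexp he hne).mul (hexp hf' hnf.neg)).mul (hexp he hne)

end AOp

end Pool.Agent.W552
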