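import Pool.Agent.W552.AvExt

/-!
# Monomials in anticommuting elements and the Fock form
-/

open Module

namespace Pool.Agent.W552

variable {K : Type*} [Field K] [CharZero K] {H : Type*} [Ring H] [Algebra K H] {N : ℕ}

/-- The monomial attached to a list. -/
def mono (e : Fin N → H) (l : List (Fin N)) : H := (l.map e).prod

@[simp] lemma mono_nil (e : Fin N → H) : mono e [] = 1 := rfl

@[simp] lemma mono_cons (e : Fin N → H) (i : Fin N) (l : List (Fin N)) :
    mono e (i :: l) = e i * mono e l := by
  simp [mono]

lemma e_sq (K : Type*) [Field K] [CharZero K] {H : Type*} [Ring H] [Algebra K H] {e : Fin N → H}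
    (h : ∀ i j, e i * e j = - (e j * e i)) (i : Fin N) : e i * e i = 0 := by
  have h1 : (2 : K) • (e i * e i) = 0 := by
    rw [two_smul]
    nth_rewrite 1 [h i i]
    exact neg_add_cancel _
  exact (smul_eq_zero.1 h1).resolve_left two_ne_zero

lemma mul_mono {e : Fin N → H} (h : ∀ i j, e i * e j = - (e j * e i)) (l : List (Fin N)) :
    l.Pairwise (· < ·) → ∀ i, ∃ (c : K) (l' : List (Fin N)), l'.Pairwise (· < ·) ∧
      (∀ a ∈ l', a = i ∨ a ∈ l) ∧ e i * mono e l = c • mono e l' := by
  induction l with
  | nil =>
    intro _ i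
    exact ⟨1, [i], by simp, by simp, by simp⟩
  | cons j l ih =>
    intro hl i
    rw [List.pairwise_cons] at hl
    rcases lt_trichotomy i j with hij | hij | hij
    · refine ⟨1, i :: j :: l, ?_, ?_, by simp⟩
      · rw [List.pairwise_cons, List.pairwise_cons]
        refine ⟨?_, hl⟩
        intro a ha
        rcases List.mem_cons.1 ha with rfl | ha
        · exact hij
        · exact hij.trans (hl.1 a ha)
      · intro a ha
        exact List.mem_cons.1 ha
    · subst hij
      refine ⟨0, [], by simp, by simp, ?_⟩
      rw [mono_cons, ← mul_assoc, e_sq K h, zero_mul, zero_smul]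
    · obtain ⟨c, l', h1, h2, h3⟩ := ih hl.2 i
      refine ⟨-c, j :: l', ?_, ?_, ?_⟩
      · rw [List.pairwise_cons]
        refine ⟨?_, h1⟩
        intro a ha
        rcases h2 a ha with rfl | ha
        · exact hij
        · exact hl.1 a ha
      · intro a ha
        rcases List.mem_cons.1 ha with rfl | ha
        · exact Or.inr (List.mem_cons_self)
        · rcases h2 a ha with rfl | ha
          · exact Or.inl rfl
          · exact Or.inr (List.mem_cons_of_mem _ ha)
      · rw [mono_cons, ← mul_assoc, h i j, neg_mul, mul_assoc, h3, mul_smul_comm, mono_cons,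
          neg_smul]

/-- The monomials of increasing lists span. -/
lemma ExtGen.span {e : Fin N → H} (G : ExtGen K e) (x : H) :
    x ∈ Submodule.span K {y | ∃ l : List (Fin N), l.Pairwise (· < ·) ∧ mono e l = y} := by
  refine G.ind (p := fun x => x ∈ Submodule.span K
    {y | ∃ l : List (Fin N), l.Pairwise (· < ·) ∧ mono e l = y}) ?_ ?_ ?_ ?_ x
  · exact Submodule.subset_span ⟨[], by simp, rfl⟩
  · intro x y hx hy; exact Submodule.add_mem _ hx hy
  · intro c x hx; exact Submodule.smul_mem _ _ hx
  · intro i x hx
    induction hx using Submodule.span_induction with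
    | mem x hx =>
      obtain ⟨l, hl, rfl⟩ := hx
      obtain ⟨c, l', h1, _, h3⟩ := mul_mono (K := K) G.anti l hl i
      rw [h3]
      exact Submodule.smul_mem _ _ (Submodule.subset_span ⟨l', h1, rfl⟩)
    | zero => rw [mul_zero]; exact Submodule.zero_mem _
    | add x y _ _ hx hy => rw [mul_add]; exact Submodule.add_mem _ hx hy
    | smul c x _ hx => rw [mul_smul_comm]; exact Submodule.smul_mem _ _ hx

section Fock

variable {e : Fin N → H} {d : Fin N → H →ₗ[K] H} (hd1 : ∀ i, d i 1 = 0)
  (hd : ∀ i j x, d i (e j * x) = (if i = j then x else 0) - e j * d i x)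

include hd1 hd

omit [CharZero K] in
lemma d_mono_not {l : List (Fin N)} {i : Fin N} (h : i ∉ l) : d i (mono e l) = 0 := by
  induction l with
  | nil => exact hd1 i
  | cons j l ih =>
    rw [List.mem_cons, not_or] at h
    rw [mono_cons, hd, if_neg h.1, ih h.2, mul_zero, sub_zero]

omit [CharZero K] in
lemma d_mono_head {l : List (Fin N)} {i : Fin N} (h : (i :: l).Pairwise (· < ·)) :
    d i (mono e (i :: l)) = mono e l := by
  rw [List.pairwise_cons] at h
  rw [mono_cons, hd, if_pos rfl, d_mono_not hd1 hd, mul_zero, sub_zero]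
  intro hi
  exact lt_irrefl _ (h.1 i hi)

omit [CharZero K] in
lemma d_mono_mem {l : List (Fin N)} (hl : l.Pairwise (· < ·)) {i : Fin N} (h : i ∈ l) :
    ∃ c : K, d i (mono e l) = c • mono e (l.erase i) := by
  induction l with
  | nil => simp at h
  | cons j l ih =>
    by_cases hij : i = j
    · subst hij
      refine ⟨1, ?_⟩
      rw [d_mono_head hd1 hd hl, List.erase_cons_head, one_smul]
    · rw [List.mem_cons, or_iff_right hij] at h
      obtain ⟨c, hc⟩ := ih (List.pairwise_cons.1 hl).2 h
      refine ⟨-c, ?_⟩
      rw [mono_cons, hd, if_neg hij, hc, List.erase_cons_tail (by simpa using Ne.symm hij),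
        mono_cons, zero_sub, mul_smul_comm, neg_smul]

omit [CharZero K] in
/-- **The Fock form.** -/
theorem fock {C : H → H} {B : H →ₗ[K] H →ₗ[K] K} {r : Fin N → K} {v₀ : K}
    (hC0 : C 0 = 0) (κ : K → K) (hCs : ∀ c x, C (c • x) = κ c • C x)
    (hadj : ∀ i x y, B (e i * x) (C y) = r i * B x (C (d i y)))
    (h0 : B 1 (C 1) = v₀) (hdeg : ∀ i l, B 1 (C (mono e (i :: l))) = 0) (l : List (Fin N)) :
    l.Pairwise (· < ·) → ∀ l' : List (Fin N), l'.Pairwise (· < ·) →
      B (mono e l) (C (mono e l')) = if l = l' then v₀ * (l.map r).prod else 0 := by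
  induction l with
  | nil =>
    intro _ l' _
    cases l' with
    | nil => simp [h0]
    | cons i l' => rw [if_neg (by simp), mono_nil, hdeg]
  | cons i l ih =>
    intro hl l' hl'
    have hl2 := (List.pairwise_cons.1 hl)
    rw [mono_cons, hadj]
    by_cases hi : i ∈ l'
    swap
    · rw [d_mono_not hd1 hd hi, hC0, map_zero, mul_zero, if_neg]
      rintro rfl
      exact hi (List.mem_cons_self)
    by_cases hhead : l' = i :: l
    · subst hhead
      rw [d_mono_head hd1 hd hl, ih hl2.2 l hl2.2, if_pos rfl, if_pos rfl, List.map_cons,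
        List.prod_cons]
      ring
    · obtain ⟨c, hc⟩ := d_mono_mem hd1 hd hl' hi
      have hsub : (l'.erase i).Pairwise (· < ·) := hl'.sublist (List.erase_sublist)
      rw [hc, hCs, map_smul, ih hl2.2 _ hsub, if_neg, smul_zero, mul_zero, if_neg (Ne.symm hhead)]
      intro heq
      apply hhead
      cases l' with
      | nil => simp at hi
      | cons j l'' =>
        by_cases hij : j = i
        · subst hij
          rw [heq, List.erase_cons_head]
        · exfalso
          rw [List.erase_cons_tail (by simpa using hij)] at heq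
          have hj : j ∈ l := by rw [heq]; exact List.mem_cons_self
          have hi' : i ∈ l'' := (List.mem_cons.1 hi).resolve_left (Ne.symm hij)
          exact lt_asymm (hl2.1 j hj) ((List.pairwise_cons.1 hl').1 i hi')

end Fock

end Pool.Agent.W552
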