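import Pool.Agent.W552.Main
import Pool.Agent.W552.AvFock

/-!
# The adjoint of the multiplication by a class of degree one
-/

open CategoryTheory AlgebraicGeometry

universe u v w

namespace Pool.Agent.W552

open Pool.Agent.H914 Pool.Agent.H914.VarClass Pool.Agent.H914.VarClass.Obj
  Pool.Agent.H914.WeilCohomology Pool.Agent.H281R3.HT Pool.Agent.H447

section Ring

variable {A : Type*} [Ring A]

lemma comm_pow_add {a b x : A} (h1 : a * x = x * a + b) (h2 : b * x = x * b) (n : ℕ) :
    a * x ^ (n + 1) = x ^ (n + 1) * a + (n + 1) • (x ^ n * b) := by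
  induction n with
  | zero => simpa using h1
  | succ n ih =>
    have h3 : x ^ n * b * x = x ^ (n + 1) * b := by rw [mul_assoc, h2, ← mul_assoc, ← pow_succ]
    have e2 : (n + 1 + 1) • (x ^ (n + 1) * b) = (n + 1) • (x ^ (n + 1) * b) + x ^ (n + 1) * b := by
      rw [succ_nsmul]
    calc a * x ^ (n + 1 + 1) = (a * x ^ (n + 1)) * x := by rw [pow_succ x (n + 1), mul_assoc]
      _ = x ^ (n + 1) * (a * x) + (n + 1) • (x ^ n * b * x) := by
        rw [ih, add_mul, smul_mul_assoc, mul_assoc]
      _ = (x ^ (n + 1) * x) * a + x ^ (n + 1) * b + (n + 1) • (x ^ (n + 1) * b) := by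
        rw [h1, h3, mul_add, mul_assoc]
      _ = _ := by rw [← pow_succ, e2]; abel

lemma ring_aux1 {L f a w : A} (h1 : L * a = a * L) (hw : L * f - f * L = w)
    (h2 : w * a - a * w = a) : L * (f * a - a * f) - (f * a - a * f) * L = a := by
  have h3 : L * (f * a - a * f) - (f * a - a * f) * L =
      (L * f - f * L) * a - a * (L * f - f * L) - (L * a - a * L) * f + f * (L * a - a * L) := by
    noncomm_ring
  rw [h3, hw, h2, h1]
  noncomm_ring

lemma ring_aux2 {f a w : A} (h3 : w * f - f * w = -(2 * f)) (h2 : w * a - a * w = a) :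
    w * (f * a - a * f) - (f * a - a * f) * w = -(f * a - a * f) := by
  have h4 : w * (f * a - a * f) - (f * a - a * f) * w = (w * f - f * w) * a -
      a * (w * f - f * w) + f * (w * a - a * w) - (w * a - a * w) * f := by noncomm_ring
  rw [h4, h3, h2]
  noncomm_ring

lemma ring_aux3 {L f a b w : A} (h4 : L * f - f * L = w) (h1 : L * b - b * L = a)
    (h2 : w * b - b * w = -b) (hb : b = f * a - a * f) :
    (f * b - b * f) * L = L * (f * b - b * f) := by
  rw [← sub_eq_zero]
  have e1 : (f * b - b * f) * L - L * (f * b - b * f) =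
        -((L * f - f * L) * b - b * (L * f - f * L)) - (f * (L * b - b * L) -
          (L * b - b * L) * f) := by noncomm_ring
  rw [e1, h4, h1, h2, ← hb]
  noncomm_ring

lemma ring_aux4 {f b w : A} (h3 : w * f - f * w = -(2 * f)) (h2 : w * b - b * w = -b) :
    w * (f * b - b * f) - (f * b - b * f) * w = -(3 * (f * b - b * f)) := by
  have e1 : w * (f * b - b * f) - (f * b - b * f) * w = (w * f - f * w) * b -
        b * (w * f - f * w) + f * (w * b - b * w) - (w * b - b * w) * f := by noncomm_ring
  rw [e1, h3, h2]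
  noncomm_ring

variable [Module ℚ A]

/-- Commutation with an exponential. -/
lemma comm_exp {a b x : A} (hx : IsNilpotent x) (h1 : a * x = x * a + b) (h2 : b * x = x * b) :
    a * IsNilpotent.exp x = IsNilpotent.exp x * (a + b) := by
  obtain ⟨N, hN⟩ := hx
  have hN1 : x ^ (N + 1) = 0 := by rw [pow_succ, hN, zero_mul]
  have e1 : a * IsNilpotent.exp x = ∑ k ∈ Finset.range (N + 1),
      ((k.factorial : ℚ)⁻¹) • (a * x ^ k) := by
    rw [IsNilpotent.exp_eq_sum hN1, Finset.mul_sum]
    exact Finset.sum_congr rfl (fun k _ => mul_smul_comm _ _ _)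
  have e2 : IsNilpotent.exp x * a = ∑ k ∈ Finset.range (N + 1),
      ((k.factorial : ℚ)⁻¹) • (x ^ k * a) := by
    rw [IsNilpotent.exp_eq_sum hN1, Finset.sum_mul]
    exact Finset.sum_congr rfl (fun k _ => smul_mul_assoc _ _ _)
  have e3 : IsNilpotent.exp x * b = ∑ k ∈ Finset.range N,
      ((k.factorial : ℚ)⁻¹) • (x ^ k * b) := by
    rw [IsNilpotent.exp_eq_sum hN, Finset.sum_mul]
    exact Finset.sum_congr rfl (fun k _ => smul_mul_assoc _ _ _)
  rw [mul_add, e1, e2, e3, Finset.sum_range_succ', Finset.sum_range_succ' (fun k =>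
    ((k.factorial : ℚ)⁻¹) • (x ^ k * a))]
  have e4 : ∀ k ∈ Finset.range N, (((k + 1).factorial : ℚ)⁻¹) • (a * x ^ (k + 1)) =
      (((k + 1).factorial : ℚ)⁻¹) • (x ^ (k + 1) * a) + ((k.factorial : ℚ)⁻¹) • (x ^ k * b) := by
    intro k _
    rw [comm_pow_add h1 h2, smul_add, ← Nat.cast_smul_eq_nsmul ℚ (k + 1), smul_smul,
      Nat.factorial_succ]
    congr 2
    push_cast
    have h3 : (k : ℚ) + 1 ≠ 0 := by positivity
    have h4 : (k.factorial : ℚ) ≠ 0 := by positivity
    field_simp
  rw [Finset.sum_congr rfl e4, Finset.sum_add_distrib]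
  simp only [Nat.factorial_zero, Nat.cast_one, inv_one, pow_zero, mul_one, one_mul, one_smul]
  abel

/-- Conjugation of an element of weight one by the Weyl element. -/
lemma weyl_comm {e f a : A} (he : IsNilpotent e) (hf : IsNilpotent f) (h1 : e * a = a * e)
    (h2 : e * (f * a - a * f) - (f * a - a * f) * e = a)
    (h3 : f * (f * a - a * f) = (f * a - a * f) * f) :
    a * weyl e f = weyl e f * (f * a - a * f) := by
  set b := f * a - a * f with hb
  have k1 : a * IsNilpotent.exp e = IsNilpotent.exp e * a := by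
    have := comm_exp (b := 0) he (by rw [add_zero, h1]) (by simp)
    rwa [add_zero] at this
  have k2 : a * IsNilpotent.exp (-f) = IsNilpotent.exp (-f) * (a + b) := by
    apply comm_exp hf.neg
    · rw [hb]; noncomm_ring
    · rw [mul_neg, neg_mul, h3]
  have k3 : b * IsNilpotent.exp e = IsNilpotent.exp e * (b + -a) := by
    apply comm_exp he
    · rw [← h2]; noncomm_ring
    · rw [neg_mul, mul_neg, h1]
  unfold weyl
  calc a * (IsNilpotent.exp e * IsNilpotent.exp (-f) * IsNilpotent.exp e) =
      (a * IsNilpotent.exp e) * IsNilpotent.exp (-f) * IsNilpotent.exp e := by noncomm_ring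
    _ = IsNilpotent.exp e * (a * IsNilpotent.exp (-f)) * IsNilpotent.exp e := by
      rw [k1]; noncomm_ring
    _ = IsNilpotent.exp e * IsNilpotent.exp (-f) * (a * IsNilpotent.exp e +
        b * IsNilpotent.exp e) := by rw [k2]; noncomm_ring
    _ = _ := by rw [k1, k3]; noncomm_ring

end Ring

section Lef

variable {K : Type*} [Field K] [CharZero K] {V : Type*} [AddCommGroup V] [Module K V]
  [Module.Finite K V] {gr : ℕ → Submodule K V} {n : ℕ} {L Lam : Module.End K V}
  {h : DirectSum.IsInternal gr}

omit [Module.Finite K V] in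
/-- An operator of negative weight which commutes with the Lefschetz operator vanishes. -/
lemma LefStr.comm_zero (t : LefStr h n L Lam) {T : Module.End K V} {s : ℕ} (hs : 1 ≤ s)
    (hT : T * L = L * T) (hw : wt h n * T - T * wt h n = -((s : K) • T)) : T = 0 := by
  have hTp : ∀ (m : ℕ) (u : V), T ((L ^ m) u) = (L ^ m) (T u) := by
    intro m
    induction m with
    | zero => intro u; simp
    | succ m ih =>
      intro u
      have h1 := congrArg (fun F => F ((L ^ m) u)) hT
      simp only [Module.End.mul_apply] at h1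
      rw [pow_succ', Module.End.mul_apply, h1, ih, Module.End.mul_apply]
  have hwt : ∀ {i : ℕ} {a : V}, a ∈ gr i → wt h n (T a) = ((i : K) - n - s) • T a := by
    intro i a ha
    have h1 := congrArg (fun F => F a) hw
    have h2 : wt h n a = ((i : K) - n) • a := by
      rw [wt, scal_apply _ _ ha, node]; push_cast; rfl
    simp only [LinearMap.sub_apply, Module.End.mul_apply, LinearMap.neg_apply,
      LinearMap.smul_apply, h2, map_smul] at h1
    rw [sub_eq_iff_eq_add] at h1
    rw [h1, ← neg_smul, ← add_smul]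
    congr 1
    ring
  apply LinearMap.ext
  intro x
  refine lef_induction' (n := n) h t.hL t.hbd t.hHL (p := fun a => T a = 0) ?_ ?_ x
  · intro a b ha hb; rw [map_add, ha, hb, add_zero]
  · intro i hi u hu hp j
    have hz : T u = 0 := by
      have h1 := mem_gr_of_wt h t.hbd (hwt hu)
      by_cases his : s ≤ i
      · have h2 : T u ∈ gr (i - s) := by
          apply h1.1
          rw [Nat.cast_sub his]
          ring
        apply (t.hHL (i - s) (by omega)).1 _ h2
        rw [show n - (i - s) = (s - 1) + (n - i + 1) by omega, pow_add, Module.End.mul_apply,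
          ← hTp, hp, map_zero, map_zero]
      · apply h1.2
        intro j' h0
        have h3 : (i : K) = (j' + s : ℕ) := by push_cast; linear_combination h0
        have : i = j' + s := by exact_mod_cast h3
        omega
    rw [hTp, hz, map_zero]

end Lef

variable {k : Type u} [Field k] {𝒱 : VarClass k} {ops : CycleOps 𝒱}
  {W : WeilCohomology.{u, v} ops} {X : 𝒱.Obj} {D : X.Cycles} {f : Module.End W.K (W.H X)}

/-- The commutator of the lowering operator and the multiplication by `v`. -/
noncomputable def io (f : Module.End W.K (W.H X)) (v : W.H X) : Module.End W.K (W.H X) :=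
  f * LinearMap.mulLeft W.K v - LinearMap.mulLeft W.K v * f

section

variable (F : Fr W X D f)
  (t : LefStr (W.isInternal X) X.dim (LinearMap.mulLeft W.K (W.cl X D)) f)

lemma wt_mulLeft {v : W.H X} (hv : v ∈ W.gr X 1) :
    wt (W.isInternal X) X.dim * LinearMap.mulLeft W.K v - LinearMap.mulLeft W.K v *
      wt (W.isInternal X) X.dim = LinearMap.mulLeft W.K v := by
  apply gr_ext (W.isInternal X)
  intro i a ha
  simp only [LinearMap.sub_apply, Module.End.mul_apply, LinearMap.mulLeft_apply]
  rw [Fr.wt_gr (W.mul_mem hv ha), Fr.wt_gr ha, mul_smul_comm, ← sub_smul]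
  push_cast
  rw [show (1 + (i : W.K) - X.dim - (i - X.dim)) = 1 by ring, one_smul]

include F

lemma L_mulLeft (v : W.H X) : LinearMap.mulLeft W.K (W.cl X D) * LinearMap.mulLeft W.K v =
    LinearMap.mulLeft W.K v * LinearMap.mulLeft W.K (W.cl X D) := by
  apply LinearMap.ext
  intro a
  simp only [Module.End.mul_apply, LinearMap.mulLeft_apply]
  rw [← mul_assoc, ← mul_assoc, alg_even_comm (W := W) ⟨D, F.hD, rfl⟩ v]

lemma io_e {v : W.H X} (hv : v ∈ W.gr X 1) : LinearMap.mulLeft W.K (W.cl X D) * io f v -
    io f v * LinearMap.mulLeft W.K (W.cl X D) = LinearMap.mulLeft W.K v :=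
  ring_aux1 (A := Module.End W.K (W.H X)) (L_mulLeft F v) F.sl2.ef (wt_mulLeft hv)

lemma io_wt {v : W.H X} (hv : v ∈ W.gr X 1) : wt (W.isInternal X) X.dim * io f v -
    io f v * wt (W.isInternal X) X.dim = -(io f v) :=
  ring_aux2 (A := Module.End W.K (W.H X)) F.sl2.hf (wt_mulLeft hv)

include t

lemma io_f {v : W.H X} (hv : v ∈ W.gr X 1) : f * io f v = io f v * f := by
  rw [← sub_eq_zero]
  apply t.comm_zero (s := 3) (by norm_num)
  · exact ring_aux3 (A := Module.End W.K (W.H X)) F.sl2.ef (io_e F hv) (io_wt F hv) rfl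
  · refine (ring_aux4 (A := Module.End W.K (W.H X)) F.sl2.hf (io_wt F hv)).trans ?_
    congr 1
    rw [Nat.cast_smul_eq_nsmul, nsmul_eq_mul]
    rfl

lemma w_io {v : W.H X} (hv : v ∈ W.gr X 1) : LinearMap.mulLeft W.K v * wop W X D f =
    wop W X D f * io f v := by
  let _ : Module ℚ (Module.End W.K (W.H X)) :=
    Module.compHom (Module.End W.K (W.H X)) (algebraMap ℚ W.K)
  exact weyl_comm (e := LinearMap.mulLeft W.K (W.cl X D)) (f := f)
    (a := LinearMap.mulLeft W.K v) F.sl2.nil_e F.sl2.nil_f (L_mulLeft F v) (io_e F hv)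
    (io_f F t hv)

omit t in
lemma io_gr {v : W.H X} (hv : v ∈ W.gr X 1) {i : ℕ} {a : W.H X} (ha : a ∈ W.gr X i) :
    (∀ j, j + 1 = i → io f v a ∈ W.gr X j) ∧ (i = 0 → io f v a = 0) := by
  have h1 := congrArg (fun G => G a) (io_wt F hv)
  simp only [LinearMap.sub_apply, Module.End.mul_apply, LinearMap.neg_apply, Fr.wt_gr ha,
    map_smul] at h1
  have h3 : wt (W.isInternal X) X.dim (io f v a) = ((i : W.K) - X.dim - 1) • io f v a := by
    rw [sub_eq_iff_eq_add] at h1
    rw [h1, sub_smul _ (1 : W.K), one_smul]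
    abel
  have h4 := mem_gr_of_wt (W.isInternal X) W_hbd h3
  constructor
  · intro j hj
    apply h4.1
    rw [← hj]
    push_cast
    ring
  · intro hi
    apply h4.2
    intro j h0
    have : (i : W.K) = (j + 1 : ℕ) := by push_cast; linear_combination h0
    have : i = j + 1 := by exact_mod_cast this
    omega

/-- **The adjoint of the multiplication by a class of degree one.** -/
theorem bf_mul {v : W.H X} (hv : v ∈ W.gr X 1) (x y : W.H X) :
    bf W X D f (v * x) y = bf W X D f x (io f v y) := by
  refine gr_induction (W.isInternal X) (p := fun x => bf W X D f (v * x) y =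
    bf W X D f x (io f v y)) ?_ ?_ x
  swap
  · intro a b ha hb
    rw [mul_add, map_add, LinearMap.add_apply, ha, hb, map_add, LinearMap.add_apply]
  intro i x hx
  refine gr_induction (W.isInternal X) (p := fun y => bf W X D f (v * x) y =
    bf W X D f x (io f v y)) ?_ ?_ y
  swap
  · intro a b ha hb
    rw [map_add, ha, hb, map_add, map_add]
  intro j y hy
  have hvx : v * x ∈ W.gr X (i + 1) := by rw [add_comm]; exact W.mul_mem hv hx
  by_cases hij : j = i + 1
  · subst hij
    have hio : io f v y ∈ W.gr X i := (io_gr F hv hy).1 i rfl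
    have h1 := congrArg (fun G => G y) (w_io F t hv)
    simp only [Module.End.mul_apply, LinearMap.mulLeft_apply] at h1
    rw [bf_apply, st_apply hy, bf_apply, st_apply hio, ← h1, W.comm hv hx, mul_smul_comm,
      map_smul, mul_smul_comm, map_smul, smul_mul_assoc, map_smul, mul_assoc, sg_add]
    simp only [smul_eq_mul, one_mul, mul_one]
    have h2 : sg 1 = 1 := by simp [sg]
    rw [h2]
    push_cast
    have h3 : (-1 : W.K) ^ i * (-1) ^ i = 1 := by rw [← mul_pow]; simp
    linear_combination ((sg i : W.K) * W.tr X (x * (v * wop W X D f y))) * h3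
  · rw [F.bf_deg hvx hy (by omega)]
    rcases Nat.eq_zero_or_pos j with h0 | h0
    · rw [(io_gr F hv hy).2 h0, map_zero]
    · rw [F.bf_deg hx ((io_gr F hv hy).1 (j - 1) (by omega)) (by omega)]

end

end Pool.Agent.W552
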