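import Pool.Agent.W552.AvSys

/-!
# The antilinear structure on the cohomology of varieties of abelian type
-/

open CategoryTheory AlgebraicGeometry
open scoped ComplexOrder

universe u v w

namespace Pool.Agent.W552

open Pool.Agent.H914 Pool.Agent.H914.VarClass Pool.Agent.H914.VarClass.Obj
  Pool.Agent.H914.WeilCohomology Pool.Agent.H281R3.HT Pool.Agent.H447

section Kap

variable {K : Type v} [Field K]

/-- The transported complex conjugation. -/
noncomputable def kap (σ : K ≃+* ℂ) : K →+* K :=
  (σ.symm : ℂ →+* K).comp ((starRingEnd ℂ).comp (σ : K →+* ℂ))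

lemma kap_apply (σ : K ≃+* ℂ) (x : K) : kap σ x = σ.symm (starRingEnd ℂ (σ x)) := rfl

lemma σ_kap (σ : K ≃+* ℂ) (x : K) : σ (kap σ x) = starRingEnd ℂ (σ x) := by
  rw [kap_apply, RingEquiv.apply_symm_apply]

lemma kap_kap (σ : K ≃+* ℂ) (x : K) : kap σ (kap σ x) = x := by
  apply σ.injective
  rw [σ_kap, σ_kap, Complex.conj_conj]

end Kap

variable {k : Type u} [Field k] {𝒱 : VarClass k} {ops : CycleOps 𝒱}
  {W : WeilCohomology.{u, v} ops}

section Sys

variable {Λ : Type} [Fintype Λ] [DecidableEq Λ] {P : Λ → Polarized 𝒱} {N : Λ → ℕ}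
  {f Φ : ∀ a, Module.End W.K (W.H (P a).X)}
  {e : ∀ a, Fin (N a) → W.H (P a).X} {ξ : ∀ a, Fin (N a) → (W.H (P a).X →ₗ[W.K] W.K)}

/-- The matrix of an operator concentrated in degree one. -/
noncomputable def mat1 (e : ∀ a, Fin (N a) → W.H (P a).X)
    (ξ : ∀ a, Fin (N a) → (W.H (P a).X →ₗ[W.K] W.K)) (a c : Λ)
    (v : W.H (P a).X →ₗ[W.K] W.H (P c).X) :
    Matrix (Σ a, Fin (N a)) (Σ a, Fin (N a)) W.K :=
  Matrix.of fun y x => if hx : x.1 = a then if hy : y.1 = c then
    ξ c (hy ▸ y.2) (v (e a (hx ▸ x.2))) else 0 else 0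

omit [Fintype Λ] in
lemma mat1_same (a c : Λ) (v : W.H (P a).X →ₗ[W.K] W.H (P c).X) (i : Fin (N a))
    (j : Fin (N c)) : mat1 e ξ a c v (⟨c, j⟩ : Σ a, Fin (N a)) (⟨a, i⟩ : Σ a, Fin (N a)) =
      ξ c j (v (e a i)) := by
  simp [mat1]

omit [Fintype Λ] in
lemma mat1_left {a c : Λ} (v : W.H (P a).X →ₗ[W.K] W.H (P c).X) {y : Σ a, Fin (N a)}
    (h : y.1 ≠ c) (x : Σ a, Fin (N a)) : mat1 e ξ a c v y x = 0 := by
  simp [mat1, h]

omit [Fintype Λ] in
lemma mat1_right {a c : Λ} (v : W.H (P a).X →ₗ[W.K] W.H (P c).X) {x : Σ a, Fin (N a)}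
    (h : x.1 ≠ a) (y : Σ a, Fin (N a)) : mat1 e ξ a c v y x = 0 := by
  simp [mat1, h]

omit [Fintype Λ] in
lemma e1_mat1 (B : ∀ a, DB W (P a).X (e a) (ξ a)) {a c : Λ}
    {v : W.H (P a).X →ₗ[W.K] W.H (P c).X} (hv : C1 W (P a).X (P c).X v) :
    E1 W P e (mat1 e ξ a c v) := by
  intro a' c'
  by_cases ha : a' = a
  · subst ha
    by_cases hc : c' = c
    · subst hc
      refine ⟨v, hv, fun i => ?_⟩
      simp only [mat1_same]
      exact (B c').sum _ (hv.2.2 _ ((B a').mem i))
    · refine ⟨0, C1.zero, fun i => ?_⟩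
      rw [LinearMap.zero_apply, Finset.sum_eq_zero]
      intro j _
      rw [mat1_left v (y := ⟨c', j⟩) hc, zero_smul]
  · refine ⟨0, C1.zero, fun i => ?_⟩
    rw [LinearMap.zero_apply, Finset.sum_eq_zero]
    intro j _
    rw [mat1_right v (x := ⟨a', i⟩) ha, zero_smul]

/-- **The antilinear structure in degree one.** -/
theorem exists_w (l : ∀ a, Loc W (P a) (f a) (Φ a)) (B : ∀ a, DB W (P a).X (e a) (ξ a))
    (hI : ∀ a c, HodgeIndex W ((P a).prod ops (P c)).X ((P a).prod ops (P c)).D)
    (σ : W.K ≃+* ℂ) : ∃ w : ∀ a, Fin (N a) → W.H (P a).X, (∀ a i, w a i ∈ W.gr (P a).X 1) ∧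
      (∀ a c v, C1 W (P a).X (P c).X v → ∀ i, v (w a i) =
        ∑ j, kap σ (ξ c j (v (e a i))) • w c j) ∧
      (∀ a i, 0 < σ (bf W (P a).X (P a).D (f a) (e a i) (w a i))) ∧
      ∀ a i j, bf W (P a).X (P a).D (f a) (w a i) (w a j) =
        kap σ (bf W (P a).X (P a).D (f a) (e a i) (e a j)) := by
  obtain ⟨C, hCC, hpd, hcomm⟩ := (posSys1 l B hI).exists_conj' (σ : W.K →+* ℂ)
  -- block diagonality
  have hblk : ∀ {a c : Λ} (i : Fin (N a)) (j : Fin (N c)), c ≠ a →
      C (⟨c, j⟩ : Σ a, Fin (N a)) (⟨a, i⟩ : Σ a, Fin (N a)) = 0 := by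
    intro a c i j hca
    have h1 := hcomm _ (e1_mat1 B (C1.one ((l c).ap 1)))
    have h2 := congrFun (congrFun h1 ⟨c, j⟩) ⟨a, i⟩
    rw [Matrix.mul_apply, Matrix.mul_apply, Fintype.sum_sigma, Finset.sum_eq_single c] at h2
    · rw [Finset.sum_eq_single j, Finset.sum_eq_zero] at h2
      · rw [RingHom.mapMatrix_apply, Matrix.map_apply, mat1_same, proj_same _ ((B c).mem j),
          (B c).dual, if_pos rfl, map_one, one_mul] at h2
        exact h2
      · intro x _
        have h3 : mat1 e ξ c c (proj (W.isInternal (P c).X) 1) x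
            (⟨a, i⟩ : Σ a, Fin (N a)) = 0 := mat1_right _ (x := ⟨a, i⟩) (Ne.symm hca) x
        rw [cj, Matrix.map_apply, RingHom.mapMatrix_apply, Matrix.map_apply, h3, map_zero,
          map_zero, mul_zero]
      · intro j' _ hj
        rw [RingHom.mapMatrix_apply, Matrix.map_apply, mat1_same, proj_same _ ((B c).mem j'),
          (B c).dual, if_neg (Ne.symm hj), map_zero, zero_mul]
      · intro h0; exact absurd (Finset.mem_univ _) h0
    · intro d _ hd
      apply Finset.sum_eq_zero
      intro x _
      rw [RingHom.mapMatrix_apply, Matrix.map_apply, mat1_right _ (x := ⟨d, x⟩) hd, map_zero,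
        zero_mul]
    · intro h0; exact absurd (Finset.mem_univ _) h0
  refine ⟨fun a i => ∑ j, σ.symm (C (⟨a, j⟩ : Σ a, Fin (N a)) (⟨a, i⟩ : Σ a, Fin (N a))) •
    e a j, ?_, ?_, ?_, ?_⟩
  · intro a i
    exact Submodule.sum_mem _ (fun j _ => Submodule.smul_mem _ _ ((B a).mem j))
  · intro a c v hv i
    have h1 := hcomm _ (e1_mat1 B hv)
    have key : ∀ j, ∑ i', ξ c j (v (e a i')) *
        σ.symm (C (⟨a, i'⟩ : Σ a, Fin (N a)) (⟨a, i⟩ : Σ a, Fin (N a))) =
        ∑ j', σ.symm (C (⟨c, j⟩ : Σ a, Fin (N a)) (⟨c, j'⟩ : Σ a, Fin (N a))) *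
          kap σ (ξ c j' (v (e a i))) := by
      intro j
      have h2 := congrFun (congrFun h1 ⟨c, j⟩) ⟨a, i⟩
      rw [Matrix.mul_apply, Matrix.mul_apply, Fintype.sum_sigma, Fintype.sum_sigma,
        Finset.sum_eq_single a, Finset.sum_eq_single c] at h2
      · have h3 := congrArg σ.symm h2
        rw [map_sum, map_sum] at h3
        refine Eq.trans ?_ (h3.trans ?_)
        · apply Finset.sum_congr rfl
          intro i' _
          rw [map_mul, RingHom.mapMatrix_apply, Matrix.map_apply, mat1_same]
          congr 1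
          exact (RingEquiv.symm_apply_apply σ _).symm
        · apply Finset.sum_congr rfl
          intro j' _
          rw [map_mul, cj, Matrix.map_apply, RingHom.mapMatrix_apply, Matrix.map_apply, mat1_same]
          rfl
      · intro d _ hd
        apply Finset.sum_eq_zero
        intro x _
        rw [cj, Matrix.map_apply, RingHom.mapMatrix_apply, Matrix.map_apply,
          mat1_left v (y := ⟨d, x⟩) hd, map_zero, map_zero, mul_zero]
      · intro h0; exact absurd (Finset.mem_univ _) h0
      · intro d _ hd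
        apply Finset.sum_eq_zero
        intro x _
        rw [RingHom.mapMatrix_apply, Matrix.map_apply, mat1_right v (x := ⟨d, x⟩) hd, map_zero,
          zero_mul]
      · intro h0; exact absurd (Finset.mem_univ _) h0
    have hve : ∀ i', v (e a i') = ∑ j, ξ c j (v (e a i')) • e c j := fun i' =>
      (B c).sum _ (hv.2.2 _ ((B a).mem i'))
    calc v (∑ j, σ.symm (C (⟨a, j⟩ : Σ a, Fin (N a)) (⟨a, i⟩ : Σ a, Fin (N a))) • e a j) =
        ∑ i', σ.symm (C (⟨a, i'⟩ : Σ a, Fin (N a)) (⟨a, i⟩ : Σ a, Fin (N a))) •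
          ∑ j, ξ c j (v (e a i')) • e c j := by
          rw [map_sum]
          apply Finset.sum_congr rfl
          intro i' _
          rw [map_smul, ← hve]
      _ = ∑ j, (∑ i', ξ c j (v (e a i')) *
          σ.symm (C (⟨a, i'⟩ : Σ a, Fin (N a)) (⟨a, i⟩ : Σ a, Fin (N a)))) • e c j := by
          simp only [Finset.smul_sum, smul_smul, Finset.sum_smul]
          rw [Finset.sum_comm]
          apply Finset.sum_congr rfl
          intro j _
          apply Finset.sum_congr rfl
          intro i' _
          rw [mul_comm]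
      _ = ∑ j', kap σ (ξ c j' (v (e a i))) • ∑ j, σ.symm (C (⟨c, j⟩ : Σ a, Fin (N a))
          (⟨c, j'⟩ : Σ a, Fin (N a))) • e c j := by
          simp only [key, Finset.smul_sum, smul_smul, Finset.sum_smul]
          rw [Finset.sum_comm]
          apply Finset.sum_congr rfl
          intro j _
          apply Finset.sum_congr rfl
          intro i' _
          rw [mul_comm]
  · intro a i
    have h1 := hpd.diag_pos (i := (⟨a, i⟩ : Σ a, Fin (N a)))
    rw [Matrix.mul_apply, Fintype.sum_sigma, Finset.sum_eq_single a] at h1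
    · rw [map_sum, map_sum]
      refine lt_of_lt_of_eq h1 ?_
      apply Finset.sum_congr rfl
      intro j _
      rw [map_smul, smul_eq_mul, map_mul, RingEquiv.apply_symm_apply, RingHom.mapMatrix_apply,
        Matrix.map_apply, Matrix.blockDiagonal'_apply_eq, mul_comm]
      rfl
    · intro d _ hd
      apply Finset.sum_eq_zero
      intro x _
      rw [RingHom.mapMatrix_apply, Matrix.map_apply,
        Matrix.blockDiagonal'_apply_ne _ _ _ (Ne.symm hd), map_zero, zero_mul]
    · intro h0; exact absurd (Finset.mem_univ _) h0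

  · intro a i j
    set B' := (σ : W.K →+* ℂ).mapMatrix (Matrix.blockDiagonal' (gram1 W P f e)) with hB'
    have hBT : B'.transpose = -B' := by
      have h1 := congrArg (σ : W.K →+* ℂ).mapMatrix (posSys1 l B hI).hBT
      ext x y
      have h2 := congrFun (congrFun h1 x) y
      rw [RingHom.mapMatrix_apply, Matrix.map_apply, RingHom.mapMatrix_apply, Matrix.map_apply,
        Matrix.mul_diagonal] at h2
      rw [Matrix.transpose_apply, Matrix.neg_apply, hB', RingHom.mapMatrix_apply,
        Matrix.map_apply, Matrix.map_apply]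
      rw [Matrix.transpose_apply] at h2
      rw [h2]
      simp
    have hH := hpd.isHermitian
    have h1 : C.transpose * B' * C = cj B' := by
      have h2 : (cj C).transpose * (cj B').transpose = B' * C := by
        have h3 : (B' * C).conjTranspose = B' * C := hH
        rw [Matrix.conjTranspose_mul] at h3
        rw [← h3]
        rfl
      have h4 : (cj B').transpose = -cj B' := by
        have : (cj B').transpose = cj B'.transpose := rfl
        rw [this, hBT]
        ext x y
        simp [cj]
      rw [h4, Matrix.mul_neg] at h2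
      have h5 := congrArg cj h2
      have h6 : cj (-((cj C).transpose * cj B')) = -(C.transpose * B') := by
        have : cj ((cj C).transpose) = C.transpose := by
          ext x y; simp [cj]
        have h7 : cj (-((cj C).transpose * cj B')) = -cj ((cj C).transpose * cj B') := by
          ext x y
          simp only [cj, Matrix.map_apply, Matrix.neg_apply, map_neg]
        rw [h7, cj_mul, this, cj_cj]
      rw [h6, cj_mul] at h5
      have h8 : cj C * C = -1 := by
        have h9 := congrArg cj hCC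
        rw [cj_mul, cj_cj] at h9
        rw [h9]
        ext x y
        by_cases hxy : x = y
        · subst hxy; simp [cj]
        · simp [cj, Matrix.diagonal_apply_ne _ hxy, Matrix.one_apply_ne hxy]
      have h10 : -(C.transpose * B') * C = -cj B' := by
        rw [h5, Matrix.mul_assoc, h8, Matrix.mul_neg, Matrix.mul_one]
      rw [Matrix.neg_mul] at h10
      exact neg_injective h10
    have h2 := congrFun (congrFun h1 ⟨a, i⟩) ⟨a, j⟩
    rw [Matrix.mul_apply, Fintype.sum_sigma, Finset.sum_eq_single a] at h2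
    · apply σ.injective
      rw [σ_kap]
      have h3 : starRingEnd ℂ (σ (bf W (P a).X (P a).D (f a) (e a i) (e a j))) =
          cj B' (⟨a, i⟩ : Σ a, Fin (N a)) (⟨a, j⟩ : Σ a, Fin (N a)) := by
        rw [cj, Matrix.map_apply, hB', RingHom.mapMatrix_apply, Matrix.map_apply,
          Matrix.blockDiagonal'_apply_eq]
        rfl
      rw [h3, ← h2, map_sum, map_sum]
      apply Finset.sum_congr rfl
      intro q _
      rw [map_smul, smul_eq_mul, map_mul, RingEquiv.apply_symm_apply, mul_comm]
      congr 1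
      rw [Matrix.mul_apply, Fintype.sum_sigma, Finset.sum_eq_single a]
      · rw [map_sum, LinearMap.sum_apply, map_sum]
        apply Finset.sum_congr rfl
        intro p _
        rw [map_smul, LinearMap.smul_apply, smul_eq_mul, map_mul, RingEquiv.apply_symm_apply,
          Matrix.transpose_apply, hB', RingHom.mapMatrix_apply, Matrix.map_apply,
          Matrix.blockDiagonal'_apply_eq]
        rfl
      · intro d _ hd
        apply Finset.sum_eq_zero
        intro x _
        rw [Matrix.transpose_apply, hblk i x hd, zero_mul]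
      · intro h0; exact absurd (Finset.mem_univ _) h0
    · intro d _ hd
      apply Finset.sum_eq_zero
      intro x _
      rw [hblk j x hd, mul_zero]
    · intro h0; exact absurd (Finset.mem_univ _) h0

end Sys

end Pool.Agent.W552
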