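import Pool.Agent.W552.AvDiv

/-!
# The antilinear structure on a finite family of varieties of abelian type
-/

open CategoryTheory AlgebraicGeometry
open scoped ComplexOrder

universe u v w

namespace Pool.Agent.W552

open Pool.Agent.H914 Pool.Agent.H914.VarClass Pool.Agent.H914.VarClass.Obj
  Pool.Agent.H914.WeilCohomology Pool.Agent.H281R3.HT Pool.Agent.H447

variable {k : Type u} [Field k] {𝒱 : VarClass k} {ops : CycleOps 𝒱}
  {W : WeilCohomology.{u, v} ops}

/-- The antilinear structure on a family. -/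
structure AVS (σ : W.K ≃+* ℂ) {Λ : Type} (P : Λ → Polarized 𝒱) where
  /-- the lowering operators -/
  f : ∀ a, Module.End W.K (W.H (P a).X)
  /-- the Lefschetz operators -/
  Φ : ∀ a, Module.End W.K (W.H (P a).X)
  l : ∀ a, Loc W (P a) (f a) (Φ a)
  /-- the antilinear endomorphisms -/
  C : ∀ a, W.H (P a).X →+* W.H (P a).X
  /-- the endomorphisms with simple spectrum -/
  g : ∀ a, (P a).X ⟶ (P a).X
  /-- the numbers of eigenvectors -/
  N : Λ → ℕ
  /-- the eigenvectors -/
  m : ∀ a, Finset (Fin (N a)) → W.H (P a).X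
  /-- the eigenvalues -/
  ω : ∀ a, Finset (Fin (N a)) → W.K
  sd : ∀ a, SD σ (W.map (g a)).toLinearMap (C a) (bf W (P a).X (P a).D (f a)) (m a) (ω a)
  map : ∀ a c (φ : (P a).X ⟶ (P c).X) x, C a (W.map φ x) = W.map φ (C c x)
  push : ∀ a c (φ : (P a).X ⟶ (P c).X) x, C c (W.push φ x) = W.push φ (C a x)

lemma IsAbelianFamily.comp {ι : Type w} {P : ι → Polarized 𝒱} (h : IsAbelianFamily W P)
    {ι' : Type*} (a : ι' → ι) : IsAbelianFamily W (fun i => P (a i)) :=
  ⟨fun _ => h.div _, fun _ => h.deg _, fun _ => h.hardLef _, fun _ => h.lef _,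
    fun _ => h.index _, fun _ _ => h.index_prod _ _, fun _ => h.type _⟩

/-- **Existence of the antilinear structure.** -/
theorem exists_avs {Λ : Type} [Fintype Λ] [DecidableEq Λ] {P : Λ → Polarized 𝒱}
    (h : IsAbelianFamily W P) (σ : W.K ≃+* ℂ) : Nonempty (AVS σ P) := by
  choose f Φ l using fun a => exists_loc (h.div a) (h.hardLef a) (h.lef a)
    (exists_top W (h.div a) (h.deg a))
  choose hgen hrank F q e α hF hq hFD hα hev hm using fun a => h.type a
  choose fr hfr using hF
  have hve : ∀ a i, e a i ∈ W.gr (P a).X 1 := fun a i => (hev a i).1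
  have hli : ∀ a, LinearIndependent W.K (e a) := by
    intro a
    apply Module.End.eigenvectors_linearIndependent' (F a).toLinearMap (α a) (hα a) (e a)
    intro i
    refine ⟨?_, (hev a i).2.1⟩
    rw [Module.End.mem_eigenspace_iff]
    exact (hev a i).2.2
  choose ξ B using fun a => exists_db (hve a) (hli a) (hrank a)
  have hadj : ∀ a, Algebra.adjoin W.K (Set.range (e a)) = ⊤ := by
    intro a
    rw [eq_top_iff, ← hgen a]
    apply Algebra.adjoin_le
    intro x hx
    rw [(B a).sum x hx]
    exact Subalgebra.sum_mem _ (fun i _ => Subalgebra.smul_mem _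
      (Algebra.subset_adjoin (Set.mem_range_self i)) _)
  have G : ∀ a, ExtGen W.K (e a) := fun a =>
    extGen_of (hve a) (hadj a) rfl (exists_top W (h.div a) (h.deg a))
  obtain ⟨C, hC, hCe, hmap, horth, hpos, hCC⟩ := exists_CC l B h.index_prod G (fr := fr)
    (α := α) (q := q) hq (fun a => by rw [← hfr]; exact hFD a)
    (fun a i => by rw [← hfr]; exact (hev a i).2.2) hα σ
  choose m₀ hm₀ using fun a => exists_m (hα a)
  choose G' hG' hG'1 using fun a => hm a (m₀ a)
  choose g hg using hG'
  have h11 : ∀ a, 0 < σ (bf W (P a).X (P a).D (f a) 1 1) := by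
    intro a
    obtain ⟨s, hs, hs'⟩ := bf_one_one (l a) (h.deg a)
    rw [hs', map_ratCast, ← Complex.ofReal_ratCast]
    exact_mod_cast hs
  have hge : ∀ a i, W.map (g a) (e a i) = ((m₀ a : W.K) + α a i) • e a i := by
    intro a i
    rw [← hg, hG'1 a _ (hve a i), (hev a i).2.2, ← add_smul]
  have sd : ∀ a, SD σ (W.map (g a)).toLinearMap (C a) (bf W (P a).X (P a).D (f a))
      (fun s : Finset (Fin (2 * (P a).X.dim)) => mono (e a) (s.sort (· ≤ ·)))
      (fun s => ∏ i ∈ s, ((m₀ a : W.K) + α a i)) := fun a =>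
    sd_of (l a) (G a) (B a) (h11 a) (hC a) (hCe a) (horth a) (hpos a) (hmap a a (g a)) (hge a)
      (hm₀ a)
  have htr : ∀ a x, W.tr (P a).X (C a x) = kap σ (W.tr (P a).X x) := by
    intro a
    have hne : bf W (P a).X (P a).D (f a) 1 1 ≠ 0 := by
      intro h0
      have := h11 a
      rw [h0, map_zero] at this
      exact lt_irrefl _ this
    refine tr_C (l a) (G a) (B a) hne (kap_of_pos σ (h11 a).le) (hC a) (hCe a) (hCC a) ?_
      (fun q => map_ratCast _ _)
    intro x hx
    have hne' : ∀ i, bf W (P a).X (P a).D (f a) (e a i) (C a (e a i)) ≠ 0 := by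
      intro i h0
      have := hpos a i
      rw [h0, map_zero] at this
      exact lt_irrefl _ this
    set y := ∑ i, (bf W (P a).X (P a).D (f a) (e a i) x /
      bf W (P a).X (P a).D (f a) (e a i) (C a (e a i))) • C a (e a i) with hy
    have hym : y ∈ Submodule.span W.K (Set.range fun i => C a (e a i)) :=
      Submodule.sum_mem _ (fun i _ => Submodule.smul_mem _ _ (Submodule.subset_span ⟨i, rfl⟩))
    have hy1 : y ∈ W.gr (P a).X 1 :=
      Submodule.sum_mem _ (fun i _ => Submodule.smul_mem _ _ (hCe a i))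
    have h1 : x - y = 0 := by
      apply gram_bf l B (Submodule.sub_mem _ hx hy1)
      intro r
      rw [map_sub, hy, map_sum, Finset.sum_eq_single r]
      · rw [map_smul, smul_eq_mul, div_mul_cancel₀ _ (hne' r), sub_self]
      · intro i _ hi
        rw [map_smul, horth a _ _ (Ne.symm hi), smul_zero]
      · intro h0; exact absurd (Finset.mem_univ _) h0
    rw [sub_eq_zero.1 h1]
    exact hym
  refine ⟨⟨f, Φ, l, C, g, fun a => 2 * (P a).X.dim, _, _, sd, hmap, ?_⟩⟩
  intro a c φ x
  apply W.tr_ext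
  intro y
  obtain ⟨b, hb⟩ := (sd c).C_expand y
  obtain ⟨y', hy'⟩ : ∃ y', C c y' = y := by
    refine ⟨∑ s : Finset (Fin (2 * (P c).X.dim)), kap σ (b s) • mono (e c) (s.sort (· ≤ ·)), ?_⟩
    rw [map_sum, hb]
    apply Finset.sum_congr rfl
    intro i _
    rw [hC, kap_kap]
  rw [← hy', ← map_mul, htr, W.tr_push, ← htr, map_mul, hmap, W.tr_push]

end Pool.Agent.W552
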