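import Pool.Agent.W552.Defs

/-!
# Varieties of abelian type and the classes generated by a set of them: definitions
-/

open CategoryTheory AlgebraicGeometry

universe u v w

namespace Pool.Agent.W552

open Pool.Agent.H914 Pool.Agent.H914.VarClass Pool.Agent.H914.VarClass.Obj
  Pool.Agent.H914.WeilCohomology Pool.Agent.H281R3.HT

section Abs

variable {K : Type*} [Field K] {A : Type*} [Ring A] [Algebra K A]

/-- The algebra `A` is generated by `gr 1`, which is of dimension `2 n`, and some endomorphism `F`
of `A` with the property `C` multiplies `D` by a constant different from zero and has `2 n`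
different eigenvalues on `gr 1`; for every natural number `m` some endomorphism with the property
`C` acts on `gr 1` as `m + F`. -/
def AbelianType (gr : ℕ → Submodule K A) (n : ℕ) (D : A) (C : (A →ₐ[K] A) → Prop) : Prop :=
  Algebra.adjoin K (gr 1 : Set A) = ⊤ ∧ Module.finrank K (gr 1) = 2 * n ∧
    ∃ (F : A →ₐ[K] A) (q : K) (e : Fin (2 * n) → A) (α : Fin (2 * n) → K),
      C F ∧ q ≠ 0 ∧ F D = q • D ∧ Function.Injective α ∧
      (∀ i, e i ∈ gr 1 ∧ e i ≠ 0 ∧ F (e i) = α i • e i) ∧
      ∀ m : ℕ, ∃ G, C G ∧ ∀ x ∈ gr 1, G x = (m : K) • x + F x

variable {ι : Type*} {H : ι → Type*} [∀ s, Ring (H s)]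

/-- The elements of the rings `H s` obtained from those with the property `G` by products and by
applying the maps with the property `R`. -/
inductive GenBy (G : ∀ s, H s → Prop) (R : ∀ s t, (H s → H t) → Prop) : (s : ι) → H s → Prop
  | gen {s x} : G s x → GenBy G R s x
  | mul {s x y} : GenBy G R s x → GenBy G R s y → GenBy G R s (x * y)
  | app {s t x u} : R s t u → GenBy G R s x → GenBy G R t (u x)

end Abs

variable {k : Type u} [Field k] {𝒱 : VarClass k} {ops : CycleOps 𝒱}

/-- The inequality of the Hodge index theorem for the divisors on `X`: if `2 ≤ n = dim X` and the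
class of the divisor `z` is primitive and not zero, then the intersection number
`z · z · D ^ (n - 2)` is negative. -/
def HodgeIndex (W : WeilCohomology.{u, v} ops) (X : 𝒱.Obj) (D : X.Cycles) : Prop :=
  2 ≤ X.dim → ∀ z, X.IsCyc 1 z → W.cl X (divPow ops D (X.dim - 1) z) = 0 → W.cl X z ≠ 0 →
    X.V.degCycle (ops.mul z (divPow ops D (X.dim - 2) z)) < 0

/-- A polarized variety with the properties of abelian varieties over an algebraic closure of a
finite field: it satisfies the hard Lefschetz theorem, the Lefschetz standard conjecture and the
Hodge index theorem for divisors, and the cohomology algebra is generated by the cohomology of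
degree one, which is of dimension `2 g` if the variety is of dimension `g`; some endomorphism `f`
of the variety multiplies the class of the polarization by a constant different from zero and has
`2 g` different eigenvalues on the cohomology of degree one, and for every `m` some endomorphism
acts on the cohomology of degree one as `m + f`. -/
def IsAbelianLike (W : WeilCohomology.{u, v} ops) (P : Polarized 𝒱) : Prop :=
  (P.X.IsCyc 1 P.D ∧ 0 < P.X.V.degCycle (divPow ops P.D P.X.dim P.X.V.fundCycle)) ∧
    (HardLefschetz W P.X P.D ∧ LefschetzB W P.X P.D ∧ HodgeIndex W P.X P.D) ∧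
    AbelianType (W.gr P.X) P.X.dim (W.cl P.X P.D) (fun F => ∃ f : P.X ⟶ P.X, F = W.map f)

/-- The map `u` is the pull-back or the push-forward along a morphism. -/
def PullPush (W : WeilCohomology.{u, v} ops) (X Y : 𝒱.Obj) (u : W.H X → W.H Y) : Prop :=
  (∃ f : Y ⟶ X, u = W.map f) ∨ ∃ f : X ⟶ Y, u = W.push f

/-- The class `x` on `X` is the class of a cycle of codimension `j`, where `j ≤ 1` unless `T`
holds. -/
def Given (W : WeilCohomology.{u, v} ops) (X : 𝒱.Obj) (T : Prop) (x : W.H X) : Prop :=
  ∃ j, (j ≤ 1 ∨ T) ∧ ∃ z, X.IsCyc j z ∧ W.cl X z = x

/-- The class of the cycle `z` on `P s` is a linear combination, with coefficients in the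
coefficient field of the cohomology, of classes which are obtained from the classes of divisors
(and the fundamental classes) on all the members of the family `P` and from all the algebraic
classes on the members `P t`, `t` in `T`, by products, by pull-backs and by push-forwards along
arbitrary morphisms between members of the family. -/
def Generated (W : WeilCohomology.{u, v} ops) {ι : Type w} (P : ι → Polarized 𝒱)
    (T : Set ι) (s : ι) (z : (P s).X.Cycles) : Prop :=
  W.cl (P s).X z ∈ Submodule.span W.K {x | GenBy (fun t => Given W (P t).X (t ∈ T))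
    (fun t t' => PullPush W (P t).X (P t').X) s x}

/-- The cycle `z` of codimension `j` is numerically trivial: its intersection numbers with all
cycles of the complementary codimension vanish. -/
def NumTriv (ops : CycleOps 𝒱) (X : 𝒱.Obj) (j : ℕ) (z : X.Cycles) : Prop :=
  ∀ i, i + j = X.dim → ∀ w, X.IsCyc i w → X.V.degCycle (ops.mul z w) = 0

/-- The standard conjecture of Hodge type for the cycles with the property `Z` modulo numerical
equivalence: for `2 j ≤ n` and every cycle `z` of codimension `j` with the property `Z` which is
not numerically trivial, while `D ^ (n - 2 j + 1) · z` is numerically trivial, the sign of the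
intersection number `z · z · D ^ (n - 2 j)` is `(-1) ^ j`. -/
def NumHodge (ops : CycleOps 𝒱) (P : Polarized 𝒱) (Z : P.X.Cycles → Prop) : Prop :=
  ∀ j, 2 * j ≤ P.X.dim → ∀ z, P.X.IsCyc j z → Z z →
    NumTriv ops P.X (P.X.dim - j + 1) (divPow ops P.D (P.X.dim - 2 * j + 1) z) →
    ¬ NumTriv ops P.X j z →
    0 < (-1 : ℚ) ^ j * P.X.V.degCycle (ops.mul z (divPow ops P.D (P.X.dim - 2 * j) z))

/-- The standard conjecture `D` for the cycles with the property `Z`: the class of a numerically
trivial one is zero. -/
def ConjD (W : WeilCohomology.{u, v} ops) (X : 𝒱.Obj) (Z : X.Cycles → Prop) : Prop :=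
  ∀ j z, X.IsCyc j z → Z z → NumTriv ops X j z → W.cl X z = 0

end Pool.Agent.W552
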