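import Pool.Agent.W552.AvNum

/-!
# Positivity of the form on the classes of divisors
-/

open CategoryTheory AlgebraicGeometry
open scoped ComplexOrder

universe u v w

namespace Pool.Agent.W552

open Pool.Agent.H914 Pool.Agent.H914.VarClass Pool.Agent.H914.VarClass.Obj
  Pool.Agent.H914.WeilCohomology Pool.Agent.H281R3.HT Pool.Agent.H447

variable {k : Type u} [Field k] {𝒱 : VarClass k} {ops : CycleOps 𝒱}
  {W : WeilCohomology.{u, v} ops} {P : Polarized 𝒱} {f Φ : Module.End W.K (W.H P.X)}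

/-- The degree of the polarization in cohomology. -/
lemma tr_deg (W : WeilCohomology.{u, v} ops) {P : Polarized 𝒱} (hD : P.X.IsCyc 1 P.D) :
    W.tr P.X (((LinearMap.mulLeft W.K (W.cl P.X P.D)) ^ P.X.dim) 1) =
      (P.X.V.degCycle (divPow ops P.D P.X.dim P.X.V.fundCycle) : W.K) := by
  have h1 := divPow_mem (ops := ops) hD P.X.dim P.X.V.fundCycle_mem
  rw [Nat.zero_add] at h1
  rw [← W.tr_cl h1, cl_divPow, W.cl_fund]

lemma exists_top (W : WeilCohomology.{u, v} ops) {P : Polarized 𝒱} (hD : P.X.IsCyc 1 P.D)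
    (hdeg : 0 < P.X.V.degCycle (divPow ops P.D P.X.dim P.X.V.fundCycle)) :
    ∃ b, W.tr P.X b ≠ 0 := by
  refine ⟨((LinearMap.mulLeft W.K (W.cl P.X P.D)) ^ P.X.dim) 1, ?_⟩
  rw [tr_deg W hD]
  exact_mod_cast hdeg.ne'

section

variable (l : Loc W P f Φ)
  (hdeg : 0 < P.X.V.degCycle (divPow ops P.D P.X.dim P.X.V.fundCycle))

include l hdeg

lemma bf_one_one : ∃ q : ℚ, 0 < q ∧ bf W P.X P.D f 1 1 = q := by
  have hfund : P.X.IsCyc 0 P.X.V.fundCycle := P.X.V.fundCycle_mem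
  have h0 : W.cl P.X (divPow ops P.D (P.X.dim - 2 * 0 + 1) P.X.V.fundCycle) = 0 := by
    have h1 := W.cl_mem (divPow_mem (ops := ops) l.F.hD (P.X.dim - 2 * 0 + 1) hfund)
    rw [W.gr_eq_bot _ _ (by omega)] at h1
    exact (Submodule.mem_bot _).1 h1
  have h1 := l.F.form_prim (j := 0) (by omega) hfund h0
  rw [W.cl_fund] at h1
  refine ⟨_, ?_, h1⟩
  have h2 : P.X.V.degCycle (ops.mul P.X.V.fundCycle
      (divPow ops P.D (P.X.dim - 2 * 0) P.X.V.fundCycle)) =
      P.X.V.degCycle (divPow ops P.D P.X.dim P.X.V.fundCycle) := by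
    have e1 := divPow_mem (ops := ops) l.F.hD P.X.dim hfund
    rw [Nat.zero_add] at e1
    have e2 := ops.mul_mem hfund e1
    rw [Nat.zero_add] at e2
    have e3 := W.tr_cl e2
    rw [W.cl_mul, W.cl_fund, one_mul, W.tr_cl e1] at e3
    exact_mod_cast e3.symm
  rw [h2]
  have h3 : (0 : ℚ) < ((P.X.dim - 2 * 0).factorial : ℚ)⁻¹ := by positivity
  simp only [pow_zero, one_mul]
  exact mul_pos h3 hdeg

/-- **Positivity of the form on the classes of divisors.** -/
theorem div_pos' (hI : HodgeIndex W P.X P.D) {x : W.H P.X} (hx : x ∈ algClasses W P.X 1)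
    (hx0 : x ≠ 0) : ∃ q : ℚ, 0 < q ∧ bf W P.X P.D f x x = q := by
  set L : Module.End W.K (W.H P.X) := LinearMap.mulLeft W.K (W.cl P.X P.D) with hL
  set n := P.X.dim with hn
  have hn1 : 1 ≤ n := by
    by_contra h0
    apply hx0
    have h1 := alg_gr hx
    rw [W.gr_eq_bot _ _ (by omega)] at h1
    exact (Submodule.mem_bot _).1 h1
  have hDA : W.cl P.X P.D ∈ algClasses W P.X 1 := ⟨P.D, l.F.hD, rfl⟩
  -- the multiple of the polarization
  have h1 : (L ^ (n - 1)) x ∈ W.gr P.X (2 * n - 0) := by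
    have := pow_L_mem l.t.hL (alg_gr hx) (n - 1)
    rwa [show 2 * 1 + 2 * (n - 1) = 2 * n - 0 by omega] at this
  obtain ⟨b, hb, hba⟩ := (l.t.hHL 0 (Nat.zero_le _)).2 _ h1
  rw [W.gr_zero, Submodule.mem_span_singleton] at hb
  obtain ⟨r, rfl⟩ := hb
  rw [Nat.sub_zero, map_smul] at hba
  obtain ⟨r', hr'⟩ : ∃ r' : ℚ, r = r' := by
    obtain ⟨q, hq⟩ : ∃ q : ℚ, W.tr P.X ((L ^ (n - 1)) x) = q :=
      ((l.F.Lop.pow (n - 1)).apply (AS.of hx)).tr
    rw [← hba, map_smul, tr_deg W l.F.hD, smul_eq_mul] at hq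
    have h2 : (P.X.V.degCycle (divPow ops P.D P.X.dim P.X.V.fundCycle) : W.K) ≠ 0 := by
      exact_mod_cast hdeg.ne'
    refine ⟨q / P.X.V.degCycle (divPow ops P.D P.X.dim P.X.V.fundCycle), ?_⟩
    rw [Rat.cast_div, eq_div_iff h2]
    exact hq
  subst hr'
  set x₀ := x - (r' : W.K) • W.cl P.X P.D with hx₀
  have hx₀A : x₀ ∈ algClasses W P.X 1 := by
    have := alg_add hx (alg_smul (-r') hDA)
    rw [Rat.cast_neg, neg_smul, ← sub_eq_add_neg] at this
    exact this
  have hL1 : L 1 = W.cl P.X P.D := by rw [hL, LinearMap.mulLeft_apply, mul_one]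
  have hprim : (L ^ (n - 1)) x₀ = 0 := by
    rw [hx₀, map_sub, map_smul, ← hL1, ← Module.End.mul_apply, ← pow_succ,
      show n - 1 + 1 = n by omega, hba, sub_self]
  have hf1 : f 1 = 0 := (l.F.f_gr (W.one_mem P.X)).2 (by norm_num)
  have hfx : f x₀ = 0 := by
    by_cases h2 : 2 ≤ n
    · exact (l.t.low (i := 2) h2 (alg_gr hx₀A)
        (by rw [show P.X.dim - 2 + 1 = n - 1 by omega]; exact hprim)).1
    · have h3 : n - 1 = 0 := by omega
      rw [h3, pow_zero, Module.End.one_apply] at hprim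
      rw [hprim, map_zero]
  obtain ⟨s, hs, hs'⟩ := bf_one_one l hdeg
  have hDD : bf W P.X P.D f (W.cl P.X P.D) (W.cl P.X P.D) = ((n : ℚ) * s : ℚ) := by
    have h2 : f (L 1) = (n : W.K) • 1 := by
      have h3 := congrArg (fun G => G 1) l.F.sl2.ef
      simp only [LinearMap.sub_apply, Module.End.mul_apply] at h3
      rw [hf1, map_zero, Fr.wt_gr (W.one_mem P.X), zero_sub] at h3
      rw [← neg_neg (f (L 1)), h3, ← neg_smul]
      congr 1
      push_cast
      ring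
    have h3 := bf_L l.F l.t 1 (L 1)
    rw [h2, map_smul, hs', smul_eq_mul] at h3
    rw [← hL1]
    refine h3.trans ?_
    push_cast
    rfl
  have hDx : bf W P.X P.D f (W.cl P.X P.D) x₀ = 0 := by
    rw [← hL1]
    exact (bf_L l.F l.t 1 x₀).trans (by rw [hfx, map_zero])
  have hxD : bf W P.X P.D f x₀ (W.cl P.X P.D) = 0 := by
    rw [bf_as l (AS.of hx₀A), hDx]
  have hxx : x = (r' : W.K) • W.cl P.X P.D + x₀ := by rw [hx₀]; abel
  obtain ⟨t, ht0, ht1, ht⟩ : ∃ t : ℚ, 0 ≤ t ∧ (x₀ ≠ 0 → 0 < t) ∧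
      bf W P.X P.D f x₀ x₀ = t := by
    by_cases h0 : x₀ = 0
    · exact ⟨0, le_rfl, fun h => absurd h0 h, by rw [h0]; simp⟩
    have hn2 : 2 ≤ n := by
      by_contra h2
      apply h0
      rwa [show n - 1 = 0 by omega, pow_zero, Module.End.one_apply] at hprim
    obtain ⟨z, hz, hz'⟩ := hx₀A
    have h2 : W.cl P.X (divPow ops P.D (P.X.dim - 1) z) = 0 := by
      rw [cl_divPow, hz']
      exact hprim
    have h3 := hI hn2 z hz h2 (by rw [hz']; exact h0)
    have h4 := l.F.form_prim (j := 1) (by omega) hz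
      (by rw [show P.X.dim - 2 * 1 + 1 = P.X.dim - 1 by omega]; exact h2)
    rw [hz'] at h4
    have h5 : (0 : ℚ) < ((P.X.dim - 2 * 1).factorial : ℚ)⁻¹ := by positivity
    have h6 : (0 : ℚ) < (-1) ^ 1 * ((((P.X.dim - 2 * 1).factorial : ℚ)⁻¹) *
        P.X.V.degCycle (ops.mul z (divPow ops P.D (P.X.dim - 2 * 1) z))) := by
      have h7 : P.X.V.degCycle (ops.mul z (divPow ops P.D (P.X.dim - 2 * 1) z)) < 0 := h3
      nlinarith
    exact ⟨_, h6.le, fun _ => h6, h4⟩
  refine ⟨r' ^ 2 * (n * s) + t, ?_, ?_⟩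
  · have h2 : (0 : ℚ) < n * s := mul_pos (by exact_mod_cast hn1) hs
    by_cases h0 : x₀ = 0
    · have hr0 : r' ≠ 0 := by
        rintro rfl
        apply hx0
        rw [hxx, h0, Rat.cast_zero, zero_smul, add_zero]
      have h3 : 0 < r' ^ 2 := by positivity
      have := mul_pos h3 h2
      linarith
    · have h3 := ht1 h0
      have h4 : 0 ≤ r' ^ 2 * (n * s) := mul_nonneg (sq_nonneg _) h2.le
      linarith
  · rw [hxx]
    simp only [map_add, map_smul, LinearMap.add_apply, LinearMap.smul_apply, hDx, hxD, hDD, ht]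
    simp only [smul_eq_mul]
    push_cast
    ring

end

end Pool.Agent.W552
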