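import Mathlib

/-!
# Algebras generated by anticommuting elements: contractions and semilinear endomorphisms
-/

open ExteriorAlgebra Module

namespace Pool.Agent.W552

/-- The algebra with the twisted structure. -/
@[nolint unusedArguments]
def Tw {K : Type*} [Field K] (_ : K →+* K) (H : Type*) : Type _ := H

local instance twRing {K : Type*} [Field K] {H : Type*} [Ring H] (κ : K →+* K) :
    Ring (Tw κ H) := inferInstanceAs (Ring H)

noncomputable local instance twAlg {K : Type*} [Field K] {H : Type*} [Ring H] [Algebra K H]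
    (κ : K →+* K) : Algebra K (Tw κ H) :=
  RingHom.toAlgebra' (R := K) (S := Tw κ H) ((algebraMap K H).comp κ : K →+* H)
    (fun c x => Algebra.commutes (A := H) (κ c) x)

/-- The identity. -/
def twOf {K : Type*} [Field K] {H : Type*} (κ : K →+* K) (x : H) : Tw κ H := x

lemma tw_smul {K : Type*} [Field K] {H : Type*} [Ring H] [Algebra K H] (κ : K →+* K) (c : K)
    (x : H) : c • twOf κ x = twOf κ (κ c • x) := by
  have h1 : c • twOf κ x = algebraMap K (Tw κ H) c * twOf κ x := Algebra.smul_def _ _
  rw [h1]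
  exact (Algebra.smul_def (κ c) x).symm

variable {K : Type*} [Field K] [CharZero K] {H : Type*} [Ring H] [Algebra K H] {N : ℕ}

section Lin

/-- The linear map given by a family of elements. -/
noncomputable def lin (K : Type*) [Field K] {H : Type*} [Ring H] [Algebra K H] {N : ℕ}
    (e : Fin N → H) : (Fin N → K) →ₗ[K] H := Fintype.linearCombination K e

omit [CharZero K] in
lemma lin_apply (e : Fin N → H) (v : Fin N → K) : lin K e v = ∑ i, v i • e i := rfl

omit [CharZero K] in
lemma lin_basis (e : Fin N → H) (i : Fin N) : lin K e (Pi.single i 1) = e i := by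
  rw [lin_apply, Finset.sum_eq_single i]
  · simp
  · intro j _ hj
    rw [Pi.single_eq_of_ne hj, zero_smul]
  · intro h; exact absurd (Finset.mem_univ _) h

lemma lin_sq {e : Fin N → H} (h : ∀ i j, e i * e j = - (e j * e i)) (v : Fin N → K) :
    lin K e v * lin K e v = 0 := by
  have h1 : lin K e v * lin K e v = ∑ i, ∑ j, (v i * v j) • (e i * e j) := by
    rw [lin_apply, Finset.sum_mul]
    apply Finset.sum_congr rfl
    intro i _
    rw [Finset.mul_sum]
    apply Finset.sum_congr rfl
    intro j _
    rw [smul_mul_smul_comm]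
  have h2 : lin K e v * lin K e v = - (lin K e v * lin K e v) := by
    conv_lhs => rw [h1]
    rw [h1, ← Finset.sum_neg_distrib, Finset.sum_comm]
    apply Finset.sum_congr rfl
    intro i _
    rw [← Finset.sum_neg_distrib]
    apply Finset.sum_congr rfl
    intro j _
    rw [h j i, smul_neg, mul_comm]
  have h3 : (2 : K) • (lin K e v * lin K e v) = 0 := by
    rw [two_smul]
    nth_rewrite 1 [h2]
    exact neg_add_cancel _
  exact (smul_eq_zero.1 h3).resolve_left two_ne_zero

/-- The homomorphism from the exterior algebra. -/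
noncomputable def extHom {e : Fin N → H} (h : ∀ i j, e i * e j = - (e j * e i)) :
    ExteriorAlgebra K (Fin N → K) →ₐ[K] H :=
  ExteriorAlgebra.lift K ⟨lin K e, lin_sq h⟩

lemma extHom_ι {e : Fin N → H} (h : ∀ i j, e i * e j = - (e j * e i)) (v : Fin N → K) :
    extHom h (ι K v) = lin K e v := by
  rw [extHom, lift_ι_apply]

end Lin

/-- The algebra is the exterior algebra on the elements `e i`. -/
structure ExtGen (K : Type*) [Field K] [CharZero K] {H : Type*} [Ring H] [Algebra K H] {N : ℕ}
    (e : Fin N → H) : Prop where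
  anti : ∀ i j, e i * e j = - (e j * e i)
  bij : Function.Bijective (extHom (K := K) anti)

lemma extHom_surj {e : Fin N → H} (h : ∀ i j, e i * e j = - (e j * e i))
    (hgen : Algebra.adjoin K (Set.range e) = ⊤) : Function.Surjective (extHom (K := K) h) := by
  have h1 : (⊤ : Subalgebra K H) ≤ (extHom (K := K) h).range := by
    rw [← hgen]
    apply Algebra.adjoin_le
    rintro _ ⟨i, rfl⟩
    exact ⟨ι K (Pi.single i 1), by rw [AlgHom.toRingHom_eq_coe, RingHom.coe_coe, extHom_ι, lin_basis]⟩
  intro x
  exact h1 (Algebra.mem_top (x := x))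

/-- The basis of the exterior algebra. -/
noncomputable abbrev extB (K : Type*) [Field K] (N : ℕ) :
    Basis (Finset (Fin N)) K (ExteriorAlgebra K (Fin N → K)) := (Pi.basisFun K (Fin N)).ExteriorAlgebra

omit [CharZero K] in
/-- Every nonzero ideal of the exterior algebra contains the top element. -/
lemma ext_ideal {x : ExteriorAlgebra K (Fin N → K)} (hx : x ≠ 0) :
    ∃ y, ∃ c : K, c ≠ 0 ∧ x * y = c • extB K N Finset.univ := by
  classical
  set B := extB K N with hB
  have hsupp : (B.repr x).support.Nonempty := by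
    rw [Finsupp.support_nonempty_iff]
    intro h
    apply hx
    rwa [EmbeddingLike.map_eq_zero_iff] at h
  obtain ⟨s, hs, hmin⟩ := Finset.exists_min_image _ Finset.card hsupp
  have hdisj : Disjoint s sᶜ := disjoint_compl_right
  have hsum : x = ∑ t ∈ (B.repr x).support, (B.repr x t) • B t := by
    conv_lhs => rw [← B.linearCombination_repr x]
    rfl
  have key : ∀ t : Finset (Fin N), B t * B sᶜ = 0 ∨ Disjoint t sᶜ := by
    intro t
    by_cases h : Disjoint t sᶜ
    · exact Or.inr h
    · left
      have := basis_mul_of_not_disjoint (Pi.basisFun K (Fin N)) ⟨t, (rfl : t.card = t.card)⟩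
        ⟨sᶜ, (rfl : sᶜ.card = sᶜ.card)⟩ h
      exact this
  have key2 : ∃ c : K, c ≠ 0 ∧ B s * B sᶜ = c • B Finset.univ := by
    have h1 := basis_mul_of_disjoint (Pi.basisFun K (Fin N)) ⟨s, (rfl : s.card = s.card)⟩
      ⟨sᶜ, (rfl : sᶜ.card = sᶜ.card)⟩ hdisj
    refine ⟨((Set.powersetCard.permOfDisjoint (s := ⟨s, (rfl : s.card = s.card)⟩)
      (t := ⟨sᶜ, (rfl : sᶜ.card = sᶜ.card)⟩) hdisj).sign : ℤ), ?_, ?_⟩
    · rcases Int.units_eq_one_or (Set.powersetCard.permOfDisjoint
        (s := ⟨s, (rfl : s.card = s.card)⟩) (t := ⟨sᶜ, (rfl : sᶜ.card = sᶜ.card)⟩) hdisj).sign with h | h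
      · rw [h]; simp
      · rw [h]; simp
    · rw [Int.cast_smul_eq_zsmul]
      refine h1.trans ?_
      have h2 : (Set.powersetCard.disjUnion (s := ⟨s, (rfl : s.card = s.card)⟩)
        (t := ⟨sᶜ, (rfl : sᶜ.card = sᶜ.card)⟩) hdisj : Finset (Fin N)) = Finset.univ := by
        ext a
        simp [Set.powersetCard.disjUnion]
      rw [h2]
      rfl
  obtain ⟨c, hc, hc2⟩ := key2
  refine ⟨B sᶜ, B.repr x s * c, mul_ne_zero (Finsupp.mem_support_iff.1 hs) hc, ?_⟩
  conv_lhs => rw [hsum]
  rw [Finset.sum_mul, Finset.sum_eq_single s]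
  · rw [smul_mul_assoc, hc2, smul_smul]
  · intro t ht hts
    rw [smul_mul_assoc]
    rcases key t with h | h
    · rw [h, smul_zero]
    · exfalso
      have h1 : t ⊆ s := by
        intro a ha
        by_contra h2
        exact Finset.disjoint_left.1 h ha (Finset.mem_compl.2 h2)
      exact hts (Finset.eq_of_subset_of_card_le h1 (hmin t ht))
  · intro h; exact absurd hs h

lemma ExtGen.mk' {e : Fin N → H} (h : ∀ i j, e i * e j = - (e j * e i))
    (hgen : Algebra.adjoin K (Set.range e) = ⊤)
    (htop : extHom (K := K) h (extB K N Finset.univ) ≠ 0) : ExtGen K e := by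
  refine ⟨h, ?_, extHom_surj h hgen⟩
  rw [injective_iff_map_eq_zero]
  intro x hx
  by_contra hx0
  obtain ⟨y, c, hc, hy⟩ := ext_ideal hx0
  have h1 := congrArg (extHom (K := K) h) hy
  rw [map_mul, hx, zero_mul, map_smul] at h1
  exact htop ((smul_eq_zero.1 h1.symm).resolve_left hc)

namespace ExtGen

variable {e : Fin N → H} (G : ExtGen K e)

include G

/-- The isomorphism with the exterior algebra. -/
noncomputable def equiv : ExteriorAlgebra K (Fin N → K) ≃ₐ[K] H :=
  AlgEquiv.ofBijective (extHom G.anti) G.bij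

lemma equiv_ι (v : Fin N → K) : G.equiv (ι K v) = lin K e v := extHom_ι G.anti v

lemma equiv_symm (i : Fin N) : G.equiv.symm (e i) = ι K (Pi.single i 1) := by
  rw [AlgEquiv.symm_apply_eq, G.equiv_ι, lin_basis]

/-- Induction. -/
lemma ind {p : H → Prop} (h1 : p 1) (hadd : ∀ x y, p x → p y → p (x + y))
    (hsmul : ∀ (c : K) x, p x → p (c • x)) (hmul : ∀ i x, p x → p (e i * x)) (x : H) : p x := by
  have key : ∀ y : ExteriorAlgebra K (Fin N → K), ∀ z, p (G.equiv z) → p (G.equiv (y * z)) := by
    intro y
    induction y using ExteriorAlgebra.induction with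
    | algebraMap r =>
      intro z hz
      rw [← Algebra.smul_def, map_smul]
      exact hsmul r _ hz
    | ι v =>
      intro z hz
      rw [map_mul, G.equiv_ι, lin_apply, Finset.sum_mul]
      have h0 : p 0 := by
        have := hsmul 0 _ h1
        rwa [zero_smul] at this
      apply Finset.sum_induction _ p hadd h0
      intro i _
      rw [smul_mul_assoc]
      exact hsmul _ _ (hmul i _ hz)
    | mul a b ha hb =>
      intro z hz
      rw [mul_assoc]
      exact ha _ (hb z hz)
    | add a b ha hb =>
      intro z hz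
      rw [add_mul, map_add]
      exact hadd _ _ (ha z hz) (hb z hz)
  have := key (G.equiv.symm x) 1 (by rwa [map_one])
  rwa [mul_one, AlgEquiv.apply_symm_apply] at this

/-- **Contraction.** -/
theorem exists_contr (φ : Fin N → K) : ∃ d : H →ₗ[K] H, d 1 = 0 ∧
    ∀ i x, d (e i * x) = φ i • x - e i * d x := by
  set φ' : Module.Dual K (Fin N → K) := Fintype.linearCombination K φ with hφ'
  refine ⟨G.equiv.toLinearMap ∘ₗ (CliffordAlgebra.contractLeft φ') ∘ₗ
    G.equiv.symm.toLinearMap, ?_, ?_⟩
  · change G.equiv (CliffordAlgebra.contractLeft φ' (G.equiv.symm 1)) = 0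
    rw [map_one, CliffordAlgebra.contractLeft_one, map_zero]
  · intro i x
    change G.equiv (CliffordAlgebra.contractLeft φ' (G.equiv.symm (e i * x))) =
      φ i • x - e i * G.equiv (CliffordAlgebra.contractLeft φ' (G.equiv.symm x))
    rw [map_mul, G.equiv_symm]
    have h1 := CliffordAlgebra.contractLeft_ι_mul (Q := (0 : QuadraticForm K (Fin N → K))) φ'
      (Pi.single i 1) (G.equiv.symm x)
    refine (congrArg G.equiv h1).trans ?_
    rw [map_sub, map_smul, map_mul, AlgEquiv.apply_symm_apply]
    have h2 : φ' (Pi.single i 1) = φ i := by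
      rw [hφ']
      change ∑ j, (Pi.single i 1 : Fin N → K) j • φ j = φ i
      rw [Finset.sum_eq_single i]
      · simp
      · intro j _ hj
        rw [Pi.single_eq_of_ne hj, zero_smul]
      · intro h; exact absurd (Finset.mem_univ _) h
    rw [h2]
    congr 2
    have h3 := G.equiv_ι (Pi.single i 1)
    rw [lin_basis] at h3
    exact h3

end ExtGen

section Semi

/-- **Semilinear endomorphisms.** -/
theorem ExtGen.exists_semi {e : Fin N → H} (G : ExtGen K e) (κ : K →+* K) (w : Fin N → H)
    (hw : ∀ i j, w i * w j = - (w j * w i)) :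
    ∃ C : H →+* H, (∀ (c : K) x, C (c • x) = κ c • C x) ∧ ∀ i, C (e i) = w i := by
  set w' : Fin N → Tw κ H := fun i => twOf κ (w i) with hw'
  have h1 : ∀ i j, w' i * w' j = - (w' j * w' i) := hw
  set Φ : ExteriorAlgebra K (Fin N → K) →ₐ[K] Tw κ H := extHom h1 with hΦ
  set C : H →+* H := ((Φ : _ →+* Tw κ H).comp
    (G.equiv.symm : H →+* ExteriorAlgebra K (Fin N → K)) : H →+* Tw κ H) with hC
  have hCa : ∀ x, twOf κ (C x) = Φ (G.equiv.symm x) := fun x => rfl
  refine ⟨C, ?_, ?_⟩
  · intro c x
    have h2 : twOf κ (C (c • x)) = twOf κ (κ c • C x) := by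
      rw [hCa, map_smul, map_smul, ← hCa, tw_smul]
    exact h2
  · intro i
    have h2 : twOf κ (C (e i)) = twOf κ (w i) := by
      rw [hCa, G.equiv_symm, hΦ, extHom_ι, lin_basis]
    exact h2

end Semi

end Pool.Agent.W552
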