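import Pool.Agent.W552.AvAdj

/-!
# The Fock form on the cohomology of a variety of abelian type
-/

open CategoryTheory AlgebraicGeometry

universe u v w

namespace Pool.Agent.W552

open Pool.Agent.H914 Pool.Agent.H914.VarClass Pool.Agent.H914.VarClass.Obj
  Pool.Agent.H914.WeilCohomology Pool.Agent.H281R3.HT Pool.Agent.H447

variable {k : Type u} [Field k] {𝒱 : VarClass k} {ops : CycleOps 𝒱}
  {W : WeilCohomology.{u, v} ops} {X : 𝒱.Obj} {D : X.Cycles} {f : Module.End W.K (W.H X)}
  {N : ℕ} {e : Fin N → W.H X}

lemma one_anti {a b : W.H X} (ha : a ∈ W.gr X 1) (hb : b ∈ W.gr X 1) : a * b = -(b * a) := by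
  rw [W.comm ha hb]
  simp

lemma par_app {i : ℕ} {a : W.H X} (ha : a ∈ W.gr X i) :
    par (W.isInternal X) a = (-1 : W.K) ^ i • a := scal_apply _ _ ha

lemma mono_gr (he : ∀ i, e i ∈ W.gr X 1) (l : List (Fin N)) : mono e l ∈ W.gr X l.length := by
  induction l with
  | nil => exact W.one_mem X
  | cons i l ih =>
    rw [mono_cons, List.length_cons, add_comm]
    exact W.mul_mem (he i) ih

section Contr

variable (G : ExtGen W.K e) (he : ∀ i, e i ∈ W.gr X 1)

include G he

/-- The contractions have degree `-1`. -/
lemma contr_wt {φ : Fin N → W.K} {d : Module.End W.K (W.H X)} (h1 : d 1 = 0)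
    (hd : ∀ i x, d (e i * x) = φ i • x - e i * d x) :
    wt (W.isInternal X) X.dim * d - d * wt (W.isInternal X) X.dim = -d := by
  apply LinearMap.ext
  intro x
  have hw : ∀ i y, wt (W.isInternal X) X.dim (e i * y) =
      e i * wt (W.isInternal X) X.dim y + e i * y := by
    intro i y
    have := congrArg (fun T => T y) (wt_mulLeft (he i))
    simp only [LinearMap.sub_apply, Module.End.mul_apply, LinearMap.mulLeft_apply] at this
    rw [sub_eq_iff_eq_add] at this
    rw [this]; abel
  refine G.ind (p := fun x => (wt (W.isInternal X) X.dim * d - d * wt (W.isInternal X) X.dim) x =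
    (-d) x) ?_ ?_ ?_ ?_ x
  · simp only [LinearMap.sub_apply, Module.End.mul_apply, LinearMap.neg_apply, h1, map_zero]
    rw [Fr.wt_gr (W.one_mem X), map_smul, h1]
    simp
  · intro x y hx hy; rw [map_add, map_add, hx, hy]
  · intro c x hx; rw [map_smul, map_smul, hx]
  · intro i x hx
    simp only [LinearMap.sub_apply, Module.End.mul_apply, LinearMap.neg_apply] at hx ⊢
    rw [hd, map_sub, map_smul, hw, hw, map_add, hd, hd]
    have h2 : wt (W.isInternal X) X.dim (d x) = d (wt (W.isInternal X) X.dim x) - d x := by
      rw [sub_eq_iff_eq_add] at hx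
      rw [hx]; abel
    rw [h2, mul_sub]
    abel

/-- The derivation property. -/
lemma contr_mul {φ : Fin N → W.K} {d : Module.End W.K (W.H X)} (h1 : d 1 = 0)
    (hd : ∀ i x, d (e i * x) = φ i • x - e i * d x) {y : W.H X} {m : ℕ}
    (hy : y ∈ W.gr X (2 * m)) (x : W.H X) : d (y * x) = d y * x + y * d x := by
  have key : ∀ y, ∀ x, d (y * x) = d y * x + par (W.isInternal X) y * d x := by
    intro y
    refine G.ind (p := fun y => ∀ x, d (y * x) = d y * x + par (W.isInternal X) y * d x)
      ?_ ?_ ?_ ?_ y
    · intro x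
      rw [one_mul, h1, zero_mul, zero_add, par_app (W.one_mem X)]
      simp
    · intro y z hy hz x
      rw [add_mul, map_add, hy, hz, map_add, map_add]
      noncomm_ring
    · intro c y hy x
      rw [smul_mul_assoc, map_smul, hy, map_smul, map_smul, smul_add, smul_mul_assoc,
        smul_mul_assoc]
    · intro i y hy x
      have hp : par (W.isInternal X) (e i * y) = -(e i * par (W.isInternal X) y) := by
        refine gr_induction (W.isInternal X) (p := fun y => par (W.isInternal X) (e i * y) =
          -(e i * par (W.isInternal X) y)) ?_ ?_ y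
        · intro j a ha
          rw [par_app (W.mul_mem (he i) ha), par_app ha, mul_smul_comm, pow_add, pow_one,
            neg_one_mul, neg_smul]
        · intro a b ha hb
          rw [mul_add, map_add, ha, hb, map_add, mul_add, neg_add]
      rw [mul_assoc, hd, hy, hd, hp]
      simp only [sub_mul, mul_add, neg_mul, smul_mul_assoc, mul_assoc]
      abel
  rw [key, par_app hy]
  simp

omit he in
/-- The standard contractions. -/
lemma exists_std : ∃ d : Fin N → Module.End W.K (W.H X), (∀ i, d i 1 = 0) ∧
    ∀ i j x, d i (e j * x) = (if i = j then x else 0) - e j * d i x := by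
  have h1 : ∀ i : Fin N, ∃ d : Module.End W.K (W.H X), d 1 = 0 ∧
      ∀ j x, d (e j * x) = (if i = j then (1 : W.K) else 0) • x - e j * d x := fun i =>
    G.exists_contr (fun j => if i = j then 1 else 0)
  choose d hd1 hd2 using h1
  refine ⟨d, hd1, ?_⟩
  intro i j x
  rw [hd2]
  congr 1
  split_ifs
  · exact one_smul _ _
  · exact zero_smul _ _

end Contr

section Std

variable (G : ExtGen W.K e) (he : ∀ i, e i ∈ W.gr X 1)
  (hspan : ∀ x ∈ W.gr X 1, x ∈ Submodule.span W.K (Set.range e))
  {d : Fin N → Module.End W.K (W.H X)} (hd1 : ∀ i, d i 1 = 0)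
  (hd : ∀ i j x, d i (e j * x) = (if i = j then x else 0) - e j * d i x)

include G he hd1 hd

omit G he in
lemma d_e (i j : Fin N) : d i (e j) = if i = j then 1 else 0 := by
  have h1 := hd i j 1
  rw [hd1, mul_zero, sub_zero, mul_one] at h1
  exact h1

omit G he in
lemma e_indep [Nontrivial (W.H X)] : LinearIndependent W.K e := by
  rw [Fintype.linearIndependent_iff]
  intro c hc i
  have h1 := congrArg (d i) hc
  rw [map_sum, map_zero, Finset.sum_eq_single i] at h1
  · rw [map_smul, d_e hd1 hd, if_pos rfl] at h1
    exact (smul_eq_zero.1 h1).resolve_right one_ne_zero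
  · intro j _ hj
    rw [map_smul, d_e hd1 hd, if_neg (Ne.symm hj), smul_zero]
  · intro h; exact absurd (Finset.mem_univ _) h

lemma comb_wt (c : Fin N → W.K) :
    wt (W.isInternal X) X.dim * (∑ i, c i • d i) - (∑ i, c i • d i) * wt (W.isInternal X) X.dim =
      -(∑ i, c i • d i) := by
  apply contr_wt G he (φ := c)
  · simp [LinearMap.sum_apply, hd1]
  · intro j x
    simp only [LinearMap.sum_apply, LinearMap.smul_apply, hd, smul_sub, Finset.sum_sub_distrib,
      Finset.mul_sum, mul_smul_comm]
    congr 1
    rw [Finset.sum_eq_single j]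
    · rw [if_pos rfl]
    · intro i _ hi; rw [if_neg hi, smul_zero]
    · intro h; exact absurd (Finset.mem_univ _) h

lemma comb_mul (c : Fin N → W.K) {y : W.H X} {m : ℕ} (hy : y ∈ W.gr X (2 * m)) (x : W.H X) :
    (∑ i, c i • d i) (y * x) = (∑ i, c i • d i) y * x + y * (∑ i, c i • d i) x := by
  apply contr_mul G he (φ := c) ?_ ?_ hy
  · simp [LinearMap.sum_apply, hd1]
  · intro j x
    simp only [LinearMap.sum_apply, LinearMap.smul_apply, hd, smul_sub, Finset.sum_sub_distrib,
      Finset.mul_sum, mul_smul_comm]
    congr 1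
    rw [Finset.sum_eq_single j]
    · rw [if_pos rfl]
    · intro i _ hi; rw [if_neg hi, smul_zero]
    · intro h; exact absurd (Finset.mem_univ _) h

variable (F : Fr W X D f)
  (t : LefStr (W.isInternal X) X.dim (LinearMap.mulLeft W.K (W.cl X D)) f)

include F t

/-- The lowering of a contraction: `d D = 0` implies `d = 0`. -/
lemma comb_zero [Nontrivial (W.H X)] (c : Fin N → W.K)
    (h0 : (∑ i, c i • d i) (W.cl X D) = 0) : ∀ i, c i = 0 := by
  have h1 : (∑ i, c i • d i) = 0 := by
    apply t.comm_zero (s := 1) le_rfl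
    · apply LinearMap.ext
      intro x
      simp only [Module.End.mul_apply, LinearMap.mulLeft_apply]
      rw [comb_mul G he hd1 hd c (m := 1) (W.cl_mem F.hD), h0, zero_mul, zero_add]
    · rw [comb_wt G he hd1 hd c]
      simp
  intro i
  have h2 := congrArg (fun T => T (e i)) h1
  simp only [LinearMap.sum_apply, LinearMap.smul_apply, LinearMap.zero_apply, d_e hd1 hd] at h2
  rw [Finset.sum_eq_single i] at h2
  · rw [if_pos rfl] at h2
    exact (smul_eq_zero.1 h2).resolve_right one_ne_zero
  · intro j _ hj
    rw [if_neg hj, smul_zero]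
  · intro h; exact absurd (Finset.mem_univ _) h

include hspan

/-- The operators `io f (e i)` are contractions. -/
theorem io_eq [Nontrivial (W.H X)] {v : W.H X} (hv : v ∈ W.gr X 1) :
    ∃ c : Fin N → W.K, io f v = ∑ i, c i • d i := by
  classical
  -- the vectors `d i D`
  have hvgr : ∀ i, d i (W.cl X D) ∈ W.gr X 1 := by
    intro i
    have h1 := comb_wt G he hd1 hd (Pi.single i 1)
    have h2 : (∑ j, (Pi.single i 1 : Fin N → W.K) j • d j) = d i := by
      rw [Finset.sum_eq_single i]
      · simp
      · intro j _ hj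
        rw [Pi.single_eq_of_ne hj, zero_smul]
      · intro h; exact absurd (Finset.mem_univ _) h
    rw [h2] at h1
    have h3 := congrArg (fun T => T (W.cl X D)) h1
    simp only [LinearMap.sub_apply, Module.End.mul_apply, LinearMap.neg_apply,
      Fr.wt_gr (W.cl_mem F.hD), map_smul] at h3
    refine (mem_gr_of_wt (W.isInternal X) W_hbd (μ := ((2 * 1 : ℕ) : W.K) - X.dim - 1) ?_).1 _ ?_
    · rw [sub_eq_iff_eq_add] at h3
      rw [h3, sub_smul _ (1 : W.K), one_smul]
      abel
    · push_cast; ring
  have hli : LinearIndependent W.K (fun i => d i (W.cl X D)) := by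
    rw [Fintype.linearIndependent_iff]
    intro c hc
    apply comb_zero G he hd1 hd F t c
    simpa [LinearMap.sum_apply] using hc
  have hli2 : LinearIndependent W.K e := e_indep hd1 hd
  have hsp : Submodule.span W.K (Set.range (fun i => d i (W.cl X D))) = W.gr X 1 := by
    apply Submodule.eq_of_le_of_finrank_eq
    · rw [Submodule.span_le]
      rintro _ ⟨i, rfl⟩
      exact hvgr i
    · have h1 : Submodule.span W.K (Set.range e) = W.gr X 1 := by
        apply le_antisymm
        · rw [Submodule.span_le]
          rintro _ ⟨i, rfl⟩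
          exact he i
        · exact hspan
      rw [finrank_span_eq_card hli, ← h1, finrank_span_eq_card hli2]
  have h1 : -v ∈ Submodule.span W.K (Set.range (fun i => d i (W.cl X D))) := by
    rw [hsp]; exact Submodule.neg_mem _ hv
  obtain ⟨c, hc⟩ := (Submodule.mem_span_range_iff_exists_fun W.K).1 h1
  refine ⟨c, ?_⟩
  rw [← sub_eq_zero]
  have hD2 : (∑ i, c i • d i) (W.cl X D) = -v := by
    simpa [LinearMap.sum_apply] using hc
  apply t.comm_zero (s := 1) le_rfl
  · have h2 := io_e F hv
    apply LinearMap.ext
    intro x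
    have h3 := congrArg (fun T => T x) h2
    simp only [LinearMap.sub_apply, Module.End.mul_apply, LinearMap.mulLeft_apply] at h3 ⊢
    rw [comb_mul G he hd1 hd c (m := 1) (W.cl_mem F.hD), hD2, mul_sub]
    rw [sub_eq_iff_eq_add] at h3
    rw [h3, neg_mul]
    abel
  · have h2 := io_wt F hv
    have h3 := comb_wt G he hd1 hd c
    rw [mul_sub, sub_mul]
    have e1 : wt (W.isInternal X) X.dim * io f v - wt (W.isInternal X) X.dim * (∑ i, c i • d i) -
        (io f v * wt (W.isInternal X) X.dim - (∑ i, c i • d i) * wt (W.isInternal X) X.dim) =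
        (wt (W.isInternal X) X.dim * io f v - io f v * wt (W.isInternal X) X.dim) -
        (wt (W.isInternal X) X.dim * (∑ i, c i • d i) - (∑ i, c i • d i) *
          wt (W.isInternal X) X.dim) := by abel
    rw [e1, h2, h3]
    push_cast
    rw [one_smul]
    abel

end Std

end Pool.Agent.W552
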