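import Pool.Agent.W552.AvFr

/-!
# The Fock form on the cohomology of a variety of abelian type: main statement
-/

open CategoryTheory AlgebraicGeometry

universe u v w

namespace Pool.Agent.W552

open Pool.Agent.H914 Pool.Agent.H914.VarClass Pool.Agent.H914.VarClass.Obj
  Pool.Agent.H914.WeilCohomology Pool.Agent.H281R3.HT Pool.Agent.H447

variable {k : Type u} [Field k] {𝒱 : VarClass k} {ops : CycleOps 𝒱}
  {W : WeilCohomology.{u, v} ops} {X : 𝒱.Obj} {D : X.Cycles} {f : Module.End W.K (W.H X)}
  {N : ℕ} {e : Fin N → W.H X}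

/-- A semilinear ring endomorphism which preserves the degree one part preserves degrees. -/
lemma semi_gr (G : ExtGen W.K e) (he : ∀ i, e i ∈ W.gr X 1) {κ : W.K →+* W.K}
    {C : W.H X →+* W.H X} (hC : ∀ (c : W.K) x, C (c • x) = κ c • C x)
    (hCe : ∀ i, C (e i) ∈ W.gr X 1) {i : ℕ} {a : W.H X} (ha : a ∈ W.gr X i) :
    C a ∈ W.gr X i := by
  have hm : ∀ l : List (Fin N), C (mono e l) ∈ W.gr X l.length := by
    intro l
    induction l with
    | nil => rw [mono_nil, map_one]; exact W.one_mem X
    | cons i l ih =>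
      rw [mono_cons, map_mul, List.length_cons, add_comm]
      exact W.mul_mem (hCe i) ih
  have key : ∀ x, C (proj (W.isInternal X) i x) = proj (W.isInternal X) i (C x) := by
    intro x
    refine Submodule.span_induction (p := fun x _ => C (proj (W.isInternal X) i x) =
      proj (W.isInternal X) i (C x)) ?_ ?_ ?_ ?_ (G.span x)
    · rintro _ ⟨l, _, rfl⟩
      by_cases hl : l.length = i
      · subst hl
        rw [proj_same _ (mono_gr he l), proj_same _ (hm l)]
      · rw [proj_ne _ (mono_gr he l) (by omega), proj_ne _ (hm l) (by omega), map_zero]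
    · rw [map_zero, map_zero, map_zero]
    · intro x y _ _ hx hy; rw [map_add, map_add, hx, hy, map_add, map_add]
    · intro c x _ hx; rw [map_smul, hC, hx, hC, map_smul]
  have h1 := key a
  rw [proj_same _ ha] at h1
  rw [h1]
  exact proj_mem _ _ _

/-- **The Fock form.** -/
theorem av_fock (G : ExtGen W.K e) (he : ∀ i, e i ∈ W.gr X 1)
    (hspan : ∀ x ∈ W.gr X 1, x ∈ Submodule.span W.K (Set.range e))
    (F : Fr W X D f)
    (t : LefStr (W.isInternal X) X.dim (LinearMap.mulLeft W.K (W.cl X D)) f)
    {κ : W.K →+* W.K} {C : W.H X →+* W.H X} (hC : ∀ (c : W.K) x, C (c • x) = κ c • C x)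
    (hCe : ∀ i, C (e i) ∈ W.gr X 1) {r : Fin N → W.K} (hr : ∀ i, κ (r i) = r i)
    (hv : bf W X D f 1 1 ≠ 0)
    (hh : ∀ i j, bf W X D f (e i) (C (e j)) = if i = j then r i * bf W X D f 1 1 else 0)
    (l l' : List (Fin N)) (hl : l.Pairwise (· < ·)) (hl' : l'.Pairwise (· < ·)) :
    bf W X D f (mono e l) (C (mono e l')) =
      if l = l' then bf W X D f 1 1 * (l.map r).prod else 0 := by
  have hnt : Nontrivial (W.H X) := by
    refine ⟨⟨1, 0, ?_⟩⟩
    intro h0
    apply hv
    rw [h0]; simp
  obtain ⟨d, hd1, hd⟩ := exists_std G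
  have key : ∀ i x, io f (e i) (C x) = C (r i • d i x) := by
    intro i
    obtain ⟨c, hc⟩ := io_eq G he hspan hd1 hd F t (he i)
    -- the action on elements of degree one
    have hu : ∀ u ∈ W.gr X 1, ∃ s : W.K, ∀ y, io f (e i) (u * y) = s • y - u * io f (e i) y := by
      intro u hu
      obtain ⟨b, hb⟩ := (Submodule.mem_span_range_iff_exists_fun W.K).1 (hspan u hu)
      refine ⟨∑ j, c j * b j, ?_⟩
      intro y
      rw [hc, ← hb]
      simp only [LinearMap.sum_apply, LinearMap.smul_apply, Finset.sum_mul, smul_mul_assoc,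
        map_sum, map_smul, hd, smul_sub, Finset.smul_sum, Finset.sum_sub_distrib, Finset.mul_sum,
        mul_smul_comm, smul_smul, Finset.sum_smul]
      congr 1
      · apply Finset.sum_congr rfl
        intro j _
        rw [Finset.sum_eq_single j]
        · rw [if_pos rfl, mul_comm]
        · intro j' _ hj; rw [if_neg hj, smul_zero]
        · intro h; exact absurd (Finset.mem_univ _) h
      · rw [Finset.sum_comm]
        apply Finset.sum_congr rfl
        intro j _
        apply Finset.sum_congr rfl
        intro j' _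
        rw [mul_comm]
    have h1 : io f (e i) 1 = 0 := (io_gr F (he i) (W.one_mem X)).2 rfl
    have hs : ∀ j y, io f (e i) (C (e j) * y) = (if i = j then r i else 0) • y -
        C (e j) * io f (e i) y := by
      intro j y
      obtain ⟨s, hs⟩ := hu _ (hCe j)
      have h2 := hs 1
      rw [mul_one, h1, mul_zero, sub_zero] at h2
      have h3 := hh i j
      have h4 := bf_mul F t (he i) 1 (C (e j))
      rw [mul_one, h2, map_smul, smul_eq_mul, h3] at h4
      have h5 : s = if i = j then r i else 0 := by
        split_ifs at h4 ⊢ with hij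
        · exact (mul_right_cancel₀ hv h4).symm
        · exact (mul_eq_zero.1 h4.symm).resolve_right hv
      rw [hs, h5]
    intro x
    refine G.ind (p := fun x => io f (e i) (C x) = C (r i • d i x)) ?_ ?_ ?_ ?_ x
    · rw [map_one, h1, hd1, smul_zero, map_zero]
    · intro x y hx hy; rw [map_add, map_add, hx, hy, map_add, smul_add, map_add]
    · intro a x hx
      rw [hC, map_smul (io f (e i)), hx, map_smul (d i), smul_comm (r i) a, hC a]
    · intro j x hx
      rw [map_mul, hs, hx, hd, smul_sub, map_sub, hC, hC, hC, map_mul, hr, mul_smul_comm]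
      congr 1
      by_cases hij : i = j
      · rw [if_pos hij, if_pos hij]
      · rw [if_neg hij, if_neg hij, zero_smul, map_zero, smul_zero]
  have hC0 : C 0 = 0 := map_zero C
  refine fock (C := C) (B := bf W X D f) (r := r) hd1 hd hC0 κ hC ?_ ?_ ?_ l hl l' hl'
  · intro i x y
    rw [bf_mul F t (he i), key, hC, hr, map_smul, smul_eq_mul]
  · rw [map_one C]
  · intro i l
    refine F.bf_deg (W.one_mem X) (semi_gr G he hC hCe (mono_gr he (i :: l))) ?_
    simp

end Pool.Agent.W552
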