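import Pool.Agent.W552.AvSemi

/-!
# The cohomology algebra of a variety of abelian type is an exterior algebra
-/

open CategoryTheory AlgebraicGeometry Module
open scoped ComplexOrder

universe u v w

namespace Pool.Agent.W552

section Alg

variable {K : Type*} [Field K] [CharZero K] {H : Type*} [Ring H] [Algebra K H] {N : ℕ}
  {e : Fin N → H}

lemma mono_span (h : ∀ i j, e i * e j = - (e j * e i))
    (hgen : Algebra.adjoin K (Set.range e) = ⊤) (x : H) :
    x ∈ Submodule.span K {y | ∃ l : List (Fin N), l.Pairwise (· < ·) ∧ mono e l = y} := by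
  set S := Submodule.span K {y | ∃ l : List (Fin N), l.Pairwise (· < ·) ∧ mono e l = y} with hS
  have h1 : (1 : H) ∈ S := Submodule.subset_span ⟨[], by simp, rfl⟩
  have he : ∀ i, ∀ y ∈ S, e i * y ∈ S := by
    intro i y hy
    induction hy using Submodule.span_induction with
    | mem x hx =>
      obtain ⟨l, hl, rfl⟩ := hx
      obtain ⟨c, l', h1, _, h3⟩ := mul_mono (K := K) h l hl i
      rw [h3]
      exact Submodule.smul_mem _ _ (Submodule.subset_span ⟨l', h1, rfl⟩)
    | zero => rw [mul_zero]; exact Submodule.zero_mem _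
    | add x y _ _ hx hy => rw [mul_add]; exact Submodule.add_mem _ hx hy
    | smul c x _ hx => rw [mul_smul_comm]; exact Submodule.smul_mem _ _ hx
  have key : ∀ x ∈ Algebra.adjoin K (Set.range e), ∀ y ∈ S, x * y ∈ S := by
    intro x hx
    induction hx using Algebra.adjoin_induction with
    | mem x hx =>
      obtain ⟨i, rfl⟩ := hx
      exact he i
    | algebraMap r =>
      intro y hy
      rw [← Algebra.smul_def]
      exact Submodule.smul_mem _ _ hy
    | add x y _ _ hx hy =>
      intro z hz
      rw [add_mul]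
      exact Submodule.add_mem _ (hx z hz) (hy z hz)
    | mul x y _ _ hx hy =>
      intro z hz
      rw [mul_assoc]
      exact hx _ (hy z hz)
  rw [← mul_one x]
  exact key x (hgen ▸ Algebra.mem_top) 1 h1

omit [CharZero K] in
lemma mono_comm (h : ∀ i j, e i * e j = - (e j * e i)) (l : List (Fin N)) (i : Fin N) :
    mono e l * e i = (-1 : K) ^ l.length • (e i * mono e l) := by
  induction l with
  | nil => simp
  | cons j l ih =>
    rw [mono_cons, mul_assoc, ih, mul_smul_comm, ← mul_assoc, h j i, List.length_cons, pow_succ,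
      mul_neg_one, neg_smul, neg_mul, smul_neg, mul_assoc]

lemma mono_kill (h : ∀ i j, e i * e j = - (e j * e i)) {l : List (Fin N)} {i : Fin N}
    (hi : i ∈ l) (K : Type*) [Field K] [CharZero K] [Algebra K H] : e i * mono e l = 0 := by
  induction l with
  | nil => simp at hi
  | cons j l ih =>
    rw [mono_cons, ← mul_assoc]
    by_cases hij : i = j
    · subst hij
      rw [e_sq K h, zero_mul]
    · rw [h i j, neg_mul, mul_assoc, ih ((List.mem_cons.1 hi).resolve_left hij), mul_zero,
        neg_zero]

/-- The algebra is the exterior algebra if the top monomial is not zero. -/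
theorem extGen_of_mono (h : ∀ i j, e i * e j = - (e j * e i))
    (hgen : Algebra.adjoin K (Set.range e) = ⊤) {l : List (Fin N)} (hl : l.Pairwise (· < ·))
    (hlN : l.length = N) (hne : mono e l ≠ 0) : ExtGen K e := by
  classical
  apply ExtGen.mk' h hgen
  set ε : Fin N → ExteriorAlgebra K (Fin N → K) :=
    fun i => ExteriorAlgebra.ι K (Pi.single i 1) with hε
  have hεa : ∀ i j, ε i * ε j = -(ε j * ε i) := by
    intro i j
    exact eq_neg_of_add_eq_zero_left (ExteriorAlgebra.ι_add_mul_swap _ _)
  have hΦ : ∀ l, extHom (K := K) h (mono ε l) = mono e l := by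
    intro l
    induction l with
    | nil => simp
    | cons i l ih => rw [mono_cons, mono_cons, map_mul, ih, hε, extHom_ι, lin_basis]
  have hx0 : mono ε l ≠ 0 := by
    intro h0
    apply hne
    rw [← hΦ, h0, map_zero]
  have hmem : ∀ i, i ∈ l := by
    intro i
    have hnd : l.Nodup := hl.imp (fun hab => ne_of_lt hab)
    have h1 : l.toFinset = Finset.univ := by
      apply (Finset.card_eq_iff_eq_univ _).1
      rw [List.toFinset_card_of_nodup hnd, hlN, Fintype.card_fin]
    rw [← List.mem_toFinset, h1]
    exact Finset.mem_univ _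
  have hkill : ∀ v, mono ε l * ExteriorAlgebra.ι K v = 0 := by
    intro v
    have h1 : ExteriorAlgebra.ι K v = ∑ i, v i • ε i := by
      conv_lhs => rw [← (Pi.basisFun K (Fin N)).sum_repr v]
      rw [map_sum]
      apply Finset.sum_congr rfl
      intro i _
      rw [map_smul, Pi.basisFun_repr, Pi.basisFun_apply]
    rw [h1, Finset.mul_sum]
    apply Finset.sum_eq_zero
    intro i _
    rw [mul_smul_comm, mono_comm (K := K) hεa, mono_kill hεa (hmem i) K, smul_zero, smul_zero]
  have hr : ∀ y : ExteriorAlgebra K (Fin N → K), ∃ r : K, mono ε l * y = r • mono ε l := by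
    intro y
    induction y using ExteriorAlgebra.induction with
    | algebraMap r =>
      exact ⟨r, by rw [← Algebra.commutes, ← Algebra.smul_def]⟩
    | ι v => exact ⟨0, by rw [hkill, zero_smul]⟩
    | mul a b ha hb =>
      obtain ⟨r, hr⟩ := ha
      obtain ⟨s, hs⟩ := hb
      exact ⟨r * s, by rw [← mul_assoc, hr, smul_mul_assoc, hs, smul_smul]⟩
    | add a b ha hb =>
      obtain ⟨r, hr⟩ := ha
      obtain ⟨s, hs⟩ := hb
      exact ⟨r + s, by rw [mul_add, hr, hs, add_smul]⟩
  obtain ⟨y, c, hc, hy⟩ := ext_ideal hx0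
  obtain ⟨r, hr⟩ := hr y
  rw [hr] at hy
  have hr0 : r ≠ 0 := by
    rintro rfl
    rw [zero_smul] at hy
    exact (extB K N).ne_zero Finset.univ ((smul_eq_zero.1 hy.symm).resolve_left hc)
  intro h0
  have h1 := congrArg (extHom (K := K) h) hy
  rw [map_smul, map_smul, h0, smul_zero, hΦ] at h1
  exact hne ((smul_eq_zero.1 h1).resolve_left hr0)

end Alg

open Pool.Agent.H914 Pool.Agent.H914.VarClass Pool.Agent.H914.VarClass.Obj
  Pool.Agent.H914.WeilCohomology Pool.Agent.H281R3.HT Pool.Agent.H447

variable {k : Type u} [Field k] {𝒱 : VarClass k} {ops : CycleOps 𝒱}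
  {W : WeilCohomology.{u, v} ops}

/-- The cohomology of a variety of abelian type. -/
theorem extGen_of {X : 𝒱.Obj} {N : ℕ} {e : Fin N → W.H X} (he : ∀ i, e i ∈ W.gr X 1)
    (hgen : Algebra.adjoin W.K (Set.range e) = ⊤) (hN : N = 2 * X.dim)
    (htop : ∃ b, W.tr X b ≠ 0) : ExtGen W.K e := by
  have h : ∀ i j, e i * e j = - (e j * e i) := fun i j => one_anti (he i) (he j)
  obtain ⟨l, hl, hl0⟩ : ∃ l : List (Fin N), l.Pairwise (· < ·) ∧ W.tr X (mono e l) ≠ 0 := by
    by_contra h0
    push Not at h0
    obtain ⟨b, hb⟩ := htop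
    apply hb
    clear hb
    have h1 := mono_span h hgen b
    induction h1 using Submodule.span_induction with
    | mem x hx =>
      obtain ⟨l, hl, rfl⟩ := hx
      exact h0 l hl
    | zero => exact map_zero _
    | add x y _ _ hx hy => rw [map_add, hx, hy, add_zero]
    | smul c x _ hx => rw [map_smul, hx, smul_zero]
  have hlen : l.length = N := by
    by_contra h0
    exact hl0 (W.tr_eq_zero (mono_gr he l) (by omega))
  exact extGen_of_mono h hgen hl hlen (fun h0 => hl0 (by rw [h0, map_zero]))

end Pool.Agent.W552
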