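import Pool.Agent.W552.AvCore

/-!
# The standard conjecture of Hodge type for the classes generated by a set of varieties
-/

open CategoryTheory AlgebraicGeometry
open scoped ComplexOrder

universe u v w

namespace Pool.Agent.W552

open Pool.Agent.H914 Pool.Agent.H914.VarClass Pool.Agent.H914.VarClass.Obj
  Pool.Agent.H914.WeilCohomology Pool.Agent.H281R3.HT Pool.Agent.H447

variable {k : Type u} [Field k] {𝒱 : VarClass k} {ops : CycleOps 𝒱}
  {W : WeilCohomology.{u, v} ops}

section Fin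

variable {σ : W.K ≃+* ℂ} {Λ : Type} {P : Λ → Polarized 𝒱} (S : AVS σ P) {T : Set Λ}
  {Q : W.K → Prop}

/-- The span of the elements which satisfy the conjugation relation. -/
def SG (S : AVS σ P) (Q : W.K → Prop) (s : Λ) : Submodule W.K (W.H (P s).X) :=
  Submodule.span W.K {x | Gq σ (AS W (P s).X) (S.C s) Q x}

lemma SG.mul (hQm : ∀ a b, Q a → Q b → Q (a * b)) {s : Λ} {x y : W.H (P s).X}
    (hx : x ∈ SG S Q s) (hy : y ∈ SG S Q s) : x * y ∈ SG S Q s := by
  refine Submodule.span_induction (p := fun x _ => x * y ∈ SG S Q s) ?_ ?_ ?_ ?_ hx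
  · rintro x ⟨r, hr, hx⟩
    refine Submodule.span_induction (p := fun y _ => x * y ∈ SG S Q s) ?_ ?_ ?_ ?_ hy
    · rintro y ⟨r', hr', hy⟩
      refine Submodule.subset_span ⟨r * r', hQm _ _ hr hr', ?_⟩
      rw [map_mul, ← smul_mul_smul_comm]
      exact hx.mul (fun _ _ => AS.mul) hy
    · rw [mul_zero]; exact Submodule.zero_mem _
    · intro a b _ _ ha hb; rw [mul_add]; exact Submodule.add_mem _ ha hb
    · intro c a _ ha; rw [mul_smul_comm]; exact Submodule.smul_mem _ _ ha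
  · rw [zero_mul]; exact Submodule.zero_mem _
  · intro a b _ _ ha hb; rw [add_mul]; exact Submodule.add_mem _ ha hb
  · intro c a _ ha; rw [smul_mul_assoc]; exact Submodule.smul_mem _ _ ha

lemma SG.map {s t : Λ} (φ : (P s).X ⟶ (P t).X) {x : W.H (P t).X} (hx : x ∈ SG S Q t) :
    W.map φ x ∈ SG S Q s := by
  refine Submodule.span_induction (p := fun x _ => W.map φ x ∈ SG S Q s) ?_ ?_ ?_ ?_ hx
  · rintro x ⟨r, hr, hx⟩
    refine Submodule.subset_span ⟨r, hr, ?_⟩
    rw [S.map]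
    have := hx.map (M' := AS W (P s).X) (W.map φ).toLinearMap (fun z hz => hz.map φ)
    rw [map_smul] at this
    exact this
  · rw [map_zero]; exact Submodule.zero_mem _
  · intro a b _ _ ha hb; rw [map_add]; exact Submodule.add_mem _ ha hb
  · intro c a _ ha; rw [map_smul]; exact Submodule.smul_mem _ _ ha

lemma SG.push {s t : Λ} (φ : (P s).X ⟶ (P t).X) {x : W.H (P s).X} (hx : x ∈ SG S Q s) :
    W.push φ x ∈ SG S Q t := by
  refine Submodule.span_induction (p := fun x _ => W.push φ x ∈ SG S Q t) ?_ ?_ ?_ ?_ hx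
  · rintro x ⟨r, hr, hx⟩
    refine Submodule.subset_span ⟨r, hr, ?_⟩
    rw [S.push]
    have := hx.map (M' := AS W (P t).X) (W.push φ) (fun z hz => hz.push φ)
    rw [map_smul] at this
    exact this
  · rw [map_zero]; exact Submodule.zero_mem _
  · intro a b _ _ ha hb; rw [map_add]; exact Submodule.add_mem _ ha hb
  · intro c a _ ha; rw [map_smul]; exact Submodule.smul_mem _ _ ha

lemma SG.gen (hQ1 : Q 1) (hQm : ∀ a b, Q a → Q b → Q (a * b))
    (hdiv : ∀ s, ∀ x ∈ algClasses W (P s).X 1, x ∈ SG S Q s)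
    (halg : ∀ s ∈ T, ∀ j, ∀ x ∈ algClasses W (P s).X j, x ∈ SG S Q s) {s : Λ}
    {x : W.H (P s).X} (hx : x ∈ genSpan W P T s) : x ∈ SG S Q s := by
  refine Submodule.span_le.2 ?_ hx
  clear hx x
  intro y hy
  induction hy with
  | @one s y h0 =>
    have h1 := alg_gr h0
    rw [mul_zero, W.gr_zero, Submodule.mem_span_singleton] at h1
    obtain ⟨r, rfl⟩ := h1
    refine Submodule.smul_mem _ _ (Submodule.subset_span ⟨1, hQ1, ?_⟩)
    rw [map_one, one_smul]
    exact Rel.self AS.one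
  | div h1 => exact hdiv _ _ h1
  | alg h1 h2 => exact halg _ h1 _ _ h2
  | mul _ _ h1 h2 => exact SG.mul S hQm h1 h2
  | map f _ h1 => exact SG.map S f h1
  | push f _ h1 => exact SG.push S f h1

lemma fix_rat (σ : W.K ≃+* ℂ) {x : W.K} (h : ∃ q : ℚ, x = q) : kap σ x = x := by
  obtain ⟨q, rfl⟩ := h
  exact map_ratCast _ _

lemma rat_of_pos {q : ℚ} (h : 0 < σ (q : W.K)) : 0 < q := by
  rw [map_ratCast, ← Complex.ofReal_ratCast] at h
  exact_mod_cast h

lemma SG.div_mem (hdeg : ∀ s, 0 < (P s).X.V.degCycle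
      (divPow ops (P s).D (P s).X.dim (P s).X.V.fundCycle))
    (hI : ∀ s, HodgeIndex W (P s).X (P s).D) (s : Λ) (x : W.H (P s).X)
    (hx : x ∈ algClasses W (P s).X 1) : x ∈ SG S (fun r => 0 < σ r) s := by
  have h1 := (S.sd s).mem_gq_pos (M := fun z => z ∈ algClasses W (P s).X 1)
    (fun z hz => alg_map _ hz)
    ⟨alg_zero 1, fun h h' => alg_add h h', fun q _ h => alg_smul q h⟩
    (fun _ w hz _ => bf_as (S.l s) (AS.of hz) w)
    (fun _ _ hz hw => (S.l s).F.bf_rat (AS.of hz) (AS.of hw))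
    (fun _ hz hz0 => div_pos' (S.l s) (hdeg s) (hI s) hz hz0) hx
  refine Submodule.span_mono ?_ h1
  rintro y ⟨r, hr, hy⟩
  exact ⟨r, hr, hy.mono (fun z hz => AS.of hz)⟩

lemma SG.alg_mem {s : Λ} (hH : NumHodge ops (P s) (fun _ => True)) {x : W.H (P s).X}
    (hx : AS W (P s).X x) : x ∈ SG S (fun r => 0 ≤ σ r) s :=
  (S.sd s).mem_gq (M := AS W (P s).X) (fun _ hz => hz.map _) AS.ratSub
    (fun _ w hz _ => bf_as (S.l s) hz w) (fun _ _ hz hw => (S.l s).F.bf_rat hz hw)
    (fun _ hz => bf_nonneg (S.l s) hH hz) hx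

lemma SG.alg_mem_pos {s : Λ} (hH : HodgeType W (P s).X (P s).D) {x : W.H (P s).X}
    (hx : AS W (P s).X x) : x ∈ SG S (fun r => 0 < σ r) s :=
  (S.sd s).mem_gq_pos (M := AS W (P s).X) (fun _ hz => hz.map _) AS.ratSub
    (fun _ w hz _ => bf_as (S.l s) hz w) (fun _ _ hz hw => (S.l s).F.bf_rat hz hw)
    (fun _ hz hz0 => (S.l s).F.bf_pos hH hz hz0) hx

lemma SG.mono {Q' : W.K → Prop} (h : ∀ r, Q r → Q' r) (s : Λ) : SG S Q s ≤ SG S Q' s := by
  apply Submodule.span_mono
  rintro x ⟨r, hr, hx⟩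
  exact ⟨r, h r hr, hx⟩

include S in
/-- **Modulo numerical equivalence, finite families.** -/
theorem num_fin (h : IsAbelianFamily W P) (hT : ∀ t ∈ T, NumHodge ops (P t) (fun _ => True))
    (s : Λ) : NumHodge ops (P s) (fun z => W.cl (P s).X z ∈ genSpan W P T s) := by
  intro j hj z hz hzs hprim hnt
  have h1 := SG.gen S (Q := fun r => 0 ≤ σ r) (T := T) (by simp)
    (fun a b ha hb => by rw [map_mul]; exact mul_nonneg ha hb)
    (fun s x hx => SG.mono S (fun r hr => hr.le) s (SG.div_mem S h.deg h.index s x hx))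
    (fun s hs j x hx => SG.alg_mem S (hT s hs) (AS.of hx)) hzs
  have hzA : AS W (P s).X (W.cl (P s).X z) := AS.of ⟨z, hz, rfl⟩
  obtain ⟨h2, h3⟩ := (S.sd s).fin (M := AS W (P s).X) (fun z hz => hz.map _)
    (fun z w hz hw => fix_rat σ ((S.l s).F.bf_rat hz hw)) hzA h1
  obtain ⟨q, hq⟩ := (S.l s).F.bf_rat hzA hzA
  have h4 : bf W (P s).X (P s).D (S.f s) (W.cl (P s).X z) (W.cl (P s).X z) ≠ 0 := by
    intro h0
    exact hnt ((nt_iff (W := W) hz).2 (nt_of_bf (S.l s) (h3 h0)))
  have h5 : 0 < q := by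
    rw [hq] at h2 h4
    refine rat_of_pos (σ := σ) (lt_of_le_of_ne h2 ?_)
    intro h0
    apply h4
    apply σ.injective
    rw [← h0, map_zero]
  exact num_of_pos (S.l s) hj hz hprim h5 hq

include S in
/-- **Modulo homological equivalence, finite families.** -/
theorem hom_fin (h : IsAbelianFamily W P)
    (hT : ∀ t ∈ T, HodgeType W (P t).X (P t).D) (s : Λ) :
    HodgeTypeOn W (P s).X (P s).D (genSpan W P T s) ∧
      HomEqNumOn W (P s).X (genSpan W P T s) := by
  have key : ∀ j z, (P s).X.IsCyc j z → W.cl (P s).X z ∈ genSpan W P T s →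
      W.cl (P s).X z ≠ 0 → ∃ q : ℚ, 0 < q ∧
      bf W (P s).X (P s).D (S.f s) (W.cl (P s).X z) (W.cl (P s).X z) = q := by
    intro j z hz hzs hz0
    have h1 := SG.gen S (Q := fun r => 0 < σ r) (T := T) (by simp)
      (fun a b ha hb => by rw [map_mul]; exact mul_pos ha hb)
      (fun s x hx => SG.div_mem S h.deg h.index s x hx)
      (fun s hs j x hx => SG.alg_mem_pos S (hT s hs) (AS.of hx)) hzs
    have hzA : AS W (P s).X (W.cl (P s).X z) := AS.of ⟨z, hz, rfl⟩
    have h2 := (S.sd s).fin_pos (M := AS W (P s).X) (fun z hz => hz.map _)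
      (fun z w hz hw => fix_rat σ ((S.l s).F.bf_rat hz hw)) hzA h1 hz0
    obtain ⟨q, hq⟩ := (S.l s).F.bf_rat hzA hzA
    rw [hq] at h2
    exact ⟨q, rat_of_pos (σ := σ) h2, hq⟩
  exact ⟨fun j hj z hz hzs => ((S.l s).F.hodge hz (key j z hz hzs)).1 hj,
    fun j hj z hz hzs => ((S.l s).F.hodge hz (key j z hz hzs)).2 hj⟩

end Fin

section Reduce

variable {ι : Type w} {P : ι → Polarized 𝒱} {T : Set ι}

/-- Only finitely many members are needed for a class. -/
lemma gen_fin {s : ι} {x : W.H (P s).X} (hx : GenClass W P T s x) :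
    ∃ J : Finset ι, ∀ (m : ℕ) (a : Fin m → ι), (∀ j ∈ J, ∃ i, a i = j) →
      ∀ i (hi : a i = s), GenClass W (fun i => P (a i)) (a ⁻¹' T) i (hi ▸ x) := by
  classical
  induction hx with
  | one hx =>
    refine ⟨∅, ?_⟩
    intro m a _ i hi
    subst hi
    exact GenClass.one hx
  | div hx =>
    refine ⟨∅, ?_⟩
    intro m a _ i hi
    subst hi
    exact GenClass.div hx
  | alg hs hx =>
    refine ⟨∅, ?_⟩
    intro m a _ i hi
    subst hi
    exact GenClass.alg hs hx
  | mul _ _ hx hy =>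
    obtain ⟨J, hJ⟩ := hx
    obtain ⟨J', hJ'⟩ := hy
    refine ⟨J ∪ J', ?_⟩
    intro m a ha i hi
    have h1 := hJ m a (fun j hj => ha j (Finset.mem_union_left _ hj)) i hi
    have h2 := hJ' m a (fun j hj => ha j (Finset.mem_union_right _ hj)) i hi
    subst hi
    exact GenClass.mul h1 h2
  | @map s t x f _ hx =>
    obtain ⟨J, hJ⟩ := hx
    refine ⟨insert t J, ?_⟩
    intro m a ha i hi
    obtain ⟨i', hi'⟩ := ha t (Finset.mem_insert_self _ _)
    have h1 := hJ m a (fun j hj => ha j (Finset.mem_insert_of_mem hj)) i' hi'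
    subst hi
    subst hi'
    exact GenClass.map (P := fun i => P (a i)) (s := i) (t := i') f h1
  | @push s t x f _ hx =>
    obtain ⟨J, hJ⟩ := hx
    refine ⟨insert s J, ?_⟩
    intro m a ha i hi
    obtain ⟨i', hi'⟩ := ha s (Finset.mem_insert_self _ _)
    have h1 := hJ m a (fun j hj => ha j (Finset.mem_insert_of_mem hj)) i' hi'
    subst hi
    subst hi'
    exact GenClass.push (P := fun i => P (a i)) (s := i') (t := i) f h1

lemma span_fin {s : ι} {x : W.H (P s).X} (hx : x ∈ genSpan W P T s) :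
    ∃ J : Finset ι, ∀ (m : ℕ) (a : Fin m → ι), (∀ j ∈ J, ∃ i, a i = j) →
      ∀ i (hi : a i = s), (hi ▸ x : W.H (P (a i)).X) ∈
        genSpan W (fun i => P (a i)) (a ⁻¹' T) i := by
  classical
  refine Submodule.span_induction (p := fun x _ => ∃ J : Finset ι, ∀ (m : ℕ) (a : Fin m → ι),
    (∀ j ∈ J, ∃ i, a i = j) → ∀ i (hi : a i = s), (hi ▸ x : W.H (P (a i)).X) ∈
        genSpan W (fun i => P (a i)) (a ⁻¹' T) i) ?_ ?_ ?_ ?_ hx
  · intro x hx
    obtain ⟨J, hJ⟩ := gen_fin hx
    exact ⟨J, fun m a ha i hi => Submodule.subset_span (hJ m a ha i hi)⟩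
  · refine ⟨∅, ?_⟩
    intro m a _ i hi
    subst hi
    exact Submodule.zero_mem _
  · rintro x y _ _ ⟨J, hJ⟩ ⟨J', hJ'⟩
    refine ⟨J ∪ J', ?_⟩
    intro m a ha i hi
    have h1 := hJ m a (fun j hj => ha j (Finset.mem_union_left _ hj)) i hi
    have h2 := hJ' m a (fun j hj => ha j (Finset.mem_union_right _ hj)) i hi
    subst hi
    exact Submodule.add_mem _ h1 h2
  · rintro c x _ ⟨J, hJ⟩
    refine ⟨J, ?_⟩
    intro m a ha i hi
    have h1 := hJ m a ha i hi
    subst hi
    exact Submodule.smul_mem _ _ h1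

/-- The reduction to finite families. -/
lemma exists_fin {s : ι} {x : W.H (P s).X} (hx : x ∈ genSpan W P T s) :
    ∃ (m : ℕ) (a : Fin m → ι) (i : Fin m) (hi : a i = s), (hi ▸ x : W.H (P (a i)).X) ∈
        genSpan W (fun i => P (a i)) (a ⁻¹' T) i := by
  classical
  obtain ⟨J, hJ⟩ := span_fin hx
  set J' := insert s J with hJ'
  set a : Fin J'.card → ι := fun i => (J'.equivFin.symm i : ι) with ha
  have hcov : ∀ j ∈ J', ∃ i, a i = j := by
    intro j hj
    refine ⟨J'.equivFin ⟨j, hj⟩, ?_⟩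
    rw [ha]
    simp
  obtain ⟨i, hi⟩ := hcov s (Finset.mem_insert_self _ _)
  exact ⟨_, a, i, hi, hJ _ a (fun j hj => hcov j (Finset.mem_insert_of_mem hj)) i hi⟩

/-- **The standard conjecture of Hodge type for the classes generated by a set of varieties of
abelian type.** -/
theorem av_main (h : IsAbelianFamily W P) (σ : W.K ≃+* ℂ) (T : Set ι) (s : ι) :
    ((∀ t ∈ T, NumHodge ops (P t) (fun _ => True)) →
      NumHodge ops (P s) (fun z => W.cl (P s).X z ∈ genSpan W P T s)) ∧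
    ((∀ t ∈ T, HodgeType W (P t).X (P t).D) →
      HodgeTypeOn W (P s).X (P s).D (genSpan W P T s) ∧
        HomEqNumOn W (P s).X (genSpan W P T s)) := by
  refine ⟨?_, ?_⟩
  · intro hT j hj z hz hzs hprim hnt
    obtain ⟨m, a, i, hi, hx⟩ := exists_fin hzs
    subst hi
    obtain ⟨S⟩ := exists_avs (h.comp a) σ
    exact num_fin S (h.comp a) (T := a ⁻¹' T) (fun t ht => hT _ ht) i j hj z hz hx hprim hnt
  · intro hT
    refine ⟨?_, ?_⟩
    · intro j hj z hz hzs
      obtain ⟨m, a, i, hi, hx⟩ := exists_fin hzs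
      subst hi
      obtain ⟨S⟩ := exists_avs (h.comp a) σ
      exact (hom_fin S (h.comp a) (T := a ⁻¹' T) (fun t ht => hT _ ht) i).1 j hj z hz hx
    · intro j hj z hz hzs
      obtain ⟨m, a, i, hi, hx⟩ := exists_fin hzs
      subst hi
      obtain ⟨S⟩ := exists_avs (h.comp a) σ
      exact (hom_fin S (h.comp a) (T := a ⁻¹' T) (fun t ht => hT _ ht) i).2 j hj z hz hx

end Reduce

section Conv

lemma GenBy.genClass {ι : Type w} {P : ι → Polarized 𝒱} {T : Set ι} {s : ι}
    {x : W.H (P s).X} (h : GenBy (fun t => Given W (P t).X (t ∈ T))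
      (fun t t' => PullPush W (P t).X (P t').X) s x) : GenClass W P T s x := by
  refine GenBy.rec (motive := fun s x _ => GenClass W P T s x) ?_ ?_ ?_ h
  · rintro s x ⟨j, hj, z, hz, rfl⟩
    by_cases h0 : j = 0
    · subst h0
      exact GenClass.one ⟨z, hz, rfl⟩
    by_cases h1 : j = 1
    · subst h1
      exact GenClass.div ⟨z, hz, rfl⟩
    exact GenClass.alg (hj.resolve_left (by omega)) ⟨z, hz, rfl⟩
  · intro s x y _ _ hx hy
    exact GenClass.mul hx hy
  · intro s t x u hu _ hx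
    rcases hu with ⟨f, rfl⟩ | ⟨f, rfl⟩
    · exact GenClass.map f hx
    · exact GenClass.push f hx

/-- Numerical positivity and the conjecture `D` give homological positivity. -/
lemma hodge_of_num (W : WeilCohomology.{u, v} ops) {P : Polarized 𝒱} (hD : P.X.IsCyc 1 P.D)
    (h1 : NumHodge ops P (fun _ => True)) (h2 : ConjD W P.X (fun _ => True)) :
    HodgeType W P.X P.D := by
  intro j hj z hz hprim hz0
  refine h1 j hj z hz trivial ?_ (fun h => hz0 (h2 j z hz trivial h))
  have hcyc : P.X.IsCyc (P.X.dim - j + 1) (divPow ops P.D (P.X.dim - 2 * j + 1) z) := by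
    have := divPow_mem (ops := ops) hD (P.X.dim - 2 * j + 1) hz
    rwa [show j + (P.X.dim - 2 * j + 1) = P.X.dim - j + 1 by omega] at this
  rw [nt_iff (W := W) hcyc, hprim]
  intro w _
  rw [zero_mul, map_zero]

/-- **The standard conjecture of Hodge type for the classes generated by a set of varieties of
abelian type.** -/
theorem av_result (W : WeilCohomology.{u, v} ops) (σ : W.K ≃+* ℂ) {ι : Type w}
    {P : ι → Polarized 𝒱}
    (hP : ∀ s, IsAbelianLike W (P s))
    (hI : ∀ s t, HodgeIndex W ((P s).prod ops (P t)).X ((P s).prod ops (P t)).D) (T : Set ι)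
    (hT : ∀ t ∈ T, NumHodge ops (P t) (fun _ => True)) (s : ι) :
    NumHodge ops (P s) (Generated W P T s) ∧
      ((∀ t ∈ T, ConjD W (P t).X (fun _ => True)) → ConjD W (P s).X (Generated W P T s)) := by
  have h : IsAbelianFamily W P :=
    ⟨fun s => (hP s).1.1, fun s => (hP s).1.2, fun s => (hP s).2.1.1, fun s => (hP s).2.1.2.1,
      fun s => (hP s).2.1.2.2, hI, fun s => (hP s).2.2⟩
  have hgen : ∀ z, Generated W P T s z → W.cl (P s).X z ∈ genSpan W P T s := fun z hz =>
    Submodule.span_mono (fun x hx => GenBy.genClass hx) hz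
  refine ⟨?_, ?_⟩
  · intro j hj z hz hzs
    exact (av_main h σ T s).1 hT j hj z hz (hgen z hzs)
  · intro hTD j z hz hzs hnt
    have h1 := ((av_main h σ T s).2 (fun t ht =>
      hodge_of_num W (h.div t) (hT t ht) (hTD t ht))).2
    by_cases hj : j ≤ (P s).X.dim
    · exact h1 j hj z hz (hgen z hzs) (fun w hw => hnt _ (by omega) w hw)
    · have h2 := W.cl_mem hz
      rw [W.gr_eq_bot _ _ (by omega)] at h2
      exact (Submodule.mem_bot _).1 h2

end Conv

end Pool.Agent.W552
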