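import Pool.Agent.W552.AvGen

/-!
# The antilinear structure and the polarization
-/

open CategoryTheory AlgebraicGeometry
open scoped ComplexOrder

universe u v w

namespace Pool.Agent.W552

open Pool.Agent.H914 Pool.Agent.H914.VarClass Pool.Agent.H914.VarClass.Obj
  Pool.Agent.H914.WeilCohomology Pool.Agent.H281R3.HT Pool.Agent.H447

variable {k : Type u} [Field k] {𝒱 : VarClass k} {ops : CycleOps 𝒱}
  {W : WeilCohomology.{u, v} ops} {P : Polarized 𝒱} {f Φ : Module.End W.K (W.H P.X)}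
  {N : ℕ} {e : Fin N → W.H P.X} {ξ : Fin N → (W.H P.X →ₗ[W.K] W.K)}

section

variable (l : Loc W P f Φ) (G : ExtGen W.K e) (B : DB W P.X e ξ)
  (hv : bf W P.X P.D f 1 1 ≠ 0)

include l G B hv

/-- The contraction formula. -/
lemma io_mul {v y : W.H P.X} (hvm : v ∈ W.gr P.X 1) (hy : y ∈ W.gr P.X 1) (x : W.H P.X) :
    io f v (y * x) = (bf W P.X P.D f v y / bf W P.X P.D f 1 1) • x - y * io f v x := by
  have hnt : Nontrivial (W.H P.X) := by
    refine ⟨⟨1, 0, ?_⟩⟩
    intro h0
    apply hv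
    rw [h0]; simp
  have hspan : ∀ x ∈ W.gr P.X 1, x ∈ Submodule.span W.K (Set.range e) := by
    intro x hx
    rw [B.sum x hx]
    exact Submodule.sum_mem _ (fun i _ => Submodule.smul_mem _ _
      (Submodule.subset_span ⟨i, rfl⟩))
  obtain ⟨d, hd1, hd⟩ := exists_std G
  obtain ⟨c, hc⟩ := io_eq G B.mem hspan hd1 hd l.F l.t hvm
  have hu : ∃ s : W.K, ∀ x, io f v (y * x) = s • x - y * io f v x := by
    obtain ⟨b, hb⟩ := (Submodule.mem_span_range_iff_exists_fun W.K).1 (hspan y hy)
    refine ⟨∑ j, c j * b j, ?_⟩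
    intro y
    rw [hc, ← hb]
    simp only [LinearMap.sum_apply, LinearMap.smul_apply, Finset.sum_mul, smul_mul_assoc,
      map_sum, map_smul, hd, smul_sub, Finset.smul_sum, Finset.sum_sub_distrib, Finset.mul_sum,
      mul_smul_comm, smul_smul, Finset.sum_smul]
    congr 1
    · apply Finset.sum_congr rfl
      intro j _
      rw [Finset.sum_eq_single j]
      · rw [if_pos rfl, mul_comm]
      · intro j' _ hj; rw [if_neg hj, smul_zero]
      · intro h; exact absurd (Finset.mem_univ _) h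
    · rw [Finset.sum_comm]
      apply Finset.sum_congr rfl
      intro j _
      apply Finset.sum_congr rfl
      intro j' _
      rw [mul_comm]
  obtain ⟨s, hs⟩ := hu
  have h1 : io f v 1 = 0 := (io_gr l.F hvm (W.one_mem P.X)).2 rfl
  have h2 := hs 1
  rw [mul_one, h1, mul_zero, sub_zero] at h2
  have h4 := bf_mul l.F l.t hvm 1 y
  rw [mul_one, h2, map_smul, smul_eq_mul] at h4
  rw [hs, h4, mul_div_cancel_right₀ _ hv]

variable {κ : W.K →+* W.K} {C : W.H P.X →+* W.H P.X}
  (hκ : κ (bf W P.X P.D f 1 1) = bf W P.X P.D f 1 1)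
  (hC : ∀ (c : W.K) x, C (c • x) = κ c • C x)
  (hCe : ∀ i, C (e i) ∈ W.gr P.X 1)
  (hCC : ∀ i j, bf W P.X P.D f (C (e i)) (C (e j)) = κ (bf W P.X P.D f (e i) (e j)))

include hκ hC hCe hCC

/-- The contractions commute with the antilinear structure. -/
lemma io_C (i : Fin N) (x : W.H P.X) : io f (C (e i)) (C x) = C (io f (e i) x) := by
  refine G.ind (p := fun x => io f (C (e i)) (C x) = C (io f (e i) x)) ?_ ?_ ?_ ?_ x
  · rw [map_one, (io_gr l.F (hCe i) (W.one_mem P.X)).2 rfl,
      (io_gr l.F (B.mem i) (W.one_mem P.X)).2 rfl, map_zero]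
  · intro x y hx hy; rw [map_add, map_add, hx, hy, map_add, map_add]
  · intro a x hx
    rw [hC, map_smul, hx, map_smul, hC]
  · intro j x hx
    rw [map_mul, io_mul l G B hv (hCe i) (hCe j), hx, io_mul l G B hv (B.mem i) (B.mem j), map_sub,
      hC, map_mul, hCC, map_div₀, hκ]

/-- The antilinear structure fixes the class of the polarization. -/
theorem C_D (hCs : ∀ x ∈ W.gr P.X 1, x ∈ Submodule.span W.K (Set.range fun i => C (e i))) :
    C (W.cl P.X P.D) = W.cl P.X P.D := by
  have hspan : ∀ x ∈ W.gr P.X 1, x ∈ Submodule.span W.K (Set.range e) := by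
    intro x hx
    rw [B.sum x hx]
    exact Submodule.sum_mem _ (fun i _ => Submodule.smul_mem _ _
      (Submodule.subset_span ⟨i, rfl⟩))
  have hDm : W.cl P.X P.D ∈ W.gr P.X 2 := W.cl_mem l.F.hD
  have hCD : C (W.cl P.X P.D) ∈ W.gr P.X 2 := semi_gr G B.mem hC hCe hDm
  have hio : ∀ v ∈ W.gr P.X 1, io f v (W.cl P.X P.D) = -v := by
    intro v hvm
    have h1 := congrArg (fun F => F 1) (io_e l.F hvm)
    simp only [LinearMap.sub_apply, Module.End.mul_apply, LinearMap.mulLeft_apply, mul_one] at h1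
    rw [(io_gr l.F hvm (W.one_mem P.X)).2 rfl, mul_zero, zero_sub] at h1
    exact neg_eq_iff_eq_neg.1 h1
  set z := C (W.cl P.X P.D) - W.cl P.X P.D with hz
  have hzm : z ∈ W.gr P.X 2 := Submodule.sub_mem _ hCD hDm
  have h0 : ∀ i, io f (C (e i)) z = 0 := by
    intro i
    rw [hz, map_sub, io_C l G B hv hκ hC hCe hCC, hio _ (B.mem i), hio _ (hCe i), map_neg,
      sub_self]
  have hlin : ∀ v, io f v z = (f ∘ₗ LinearMap.mulRight W.K z - LinearMap.mulRight W.K (f z)) v := by
    intro v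
    simp [io]
  have h1 : ∀ v ∈ W.gr P.X 1, io f v z = 0 := by
    intro v hvm
    rw [hlin]
    have h2 : Submodule.span W.K (Set.range fun i => C (e i)) ≤ LinearMap.ker
        (f ∘ₗ LinearMap.mulRight W.K z - LinearMap.mulRight W.K (f z)) := by
      rw [Submodule.span_le]
      rintro _ ⟨i, rfl⟩
      rw [SetLike.mem_coe, LinearMap.mem_ker, ← hlin]
      exact h0 i
    exact h2 (hCs v hvm)
  have h2 : z = 0 := by
    apply bf_nondeg' l.F l.t
    intro y
    refine Submodule.span_induction (p := fun y _ => bf W P.X P.D f y z = 0) ?_ ?_ ?_ ?_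
      (G.span y)
    · rintro _ ⟨L, _, rfl⟩
      cases L with
      | nil => exact l.F.bf_deg (mono_gr B.mem []) hzm (by simp)
      | cons i L =>
        rw [mono_cons, bf_mul l.F l.t (B.mem i), h1 _ (B.mem i), map_zero]
    · rw [map_zero, LinearMap.zero_apply]
    · intro x y _ _ hx hy; rw [map_add, LinearMap.add_apply, hx, hy, add_zero]
    · intro c x _ hx; rw [map_smul, LinearMap.smul_apply, hx, smul_zero]
  rwa [hz, sub_eq_zero] at h2

/-- The antilinear structure and the orientation. -/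
theorem tr_C (hCs : ∀ x ∈ W.gr P.X 1, x ∈ Submodule.span W.K (Set.range fun i => C (e i)))
    (hκt : ∀ q : ℚ, κ (q : W.K) = q) (x : W.H P.X) : W.tr P.X (C x) = κ (W.tr P.X x) := by
  have hCD := C_D l G B hv hκ hC hCe hCC hCs
  set L : Module.End W.K (W.H P.X) := LinearMap.mulLeft W.K (W.cl P.X P.D) with hL
  have hLp : ∀ m : ℕ, C ((L ^ m) 1) = (L ^ m) 1 := by
    intro m
    induction m with
    | zero => simp
    | succ m ih => rw [pow_succ', Module.End.mul_apply, hL, LinearMap.mulLeft_apply, map_mul,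
        ← hL, ih, hCD]
  have hrat : ∃ q : ℚ, W.tr P.X ((L ^ P.X.dim) 1) = q := by
    have h1 : AS W P.X ((L ^ P.X.dim) 1) := (l.F.Lop.pow P.X.dim).apply AS.one
    exact h1.tr
  refine gr_induction (W.isInternal P.X) (p := fun x => W.tr P.X (C x) = κ (W.tr P.X x)) ?_ ?_ x
  · intro i a ha
    by_cases hi : i = 2 * P.X.dim
    · subst hi
      obtain ⟨b, hb, hba⟩ := (l.t.hHL 0 (Nat.zero_le _)).2 a (by simpa using ha)
      rw [W.gr_zero, Submodule.mem_span_singleton] at hb
      obtain ⟨r, rfl⟩ := hb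
      rw [Nat.sub_zero, map_smul] at hba
      obtain ⟨q, hq⟩ := hrat
      rw [← hba, hC, hLp, map_smul, map_smul, hq, smul_eq_mul, smul_eq_mul, map_mul, hκt]
    · rw [W.tr_eq_zero (semi_gr G B.mem hC hCe ha) hi, W.tr_eq_zero ha hi, map_zero]
  · intro a b ha hb
    rw [map_add, map_add, ha, hb, map_add, map_add]

end

end Pool.Agent.W552
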