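import Pool.Agent.W552.AvVar
import Pool.Agent.W552.AvWeak

/-!
# The form on the algebraic classes modulo numerical equivalence
-/

open CategoryTheory AlgebraicGeometry
open scoped ComplexOrder

universe u v w

namespace Pool.Agent.W552

open Pool.Agent.H914 Pool.Agent.H914.VarClass Pool.Agent.H914.VarClass.Obj
  Pool.Agent.H914.WeilCohomology Pool.Agent.H281R3.HT Pool.Agent.H447

variable {k : Type u} [Field k] {𝒱 : VarClass k} {ops : CycleOps 𝒱}
  {W : WeilCohomology.{u, v} ops}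

/-- The class `c` is numerically trivial. -/
def NT (W : WeilCohomology.{u, v} ops) (X : 𝒱.Obj) (c : W.H X) : Prop :=
  ∀ w, AS W X w → W.tr X (c * w) = 0

lemma nt_of {X : 𝒱.Obj} {j : ℕ} {z : X.Cycles} (hz : X.IsCyc j z) (h : NumTriv ops X j z) :
    NT W X (W.cl X z) := by
  intro w hw
  refine AS.ind (p := fun w => W.tr X (W.cl X z * w) = 0) ?_ ?_ hw
  · rintro i _ ⟨w, hw, rfl⟩
    by_cases hij : j + i = X.dim
    · rw [← W.cl_mul, W.tr_cl (hij ▸ ops.mul_mem hz hw), h i (by omega) w hw, Rat.cast_zero]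
    · exact W.tr_eq_zero (W.mul_mem (W.cl_mem hz) (W.cl_mem hw)) (by omega)
  · intro a b ha hb; rw [mul_add, map_add, ha, hb, add_zero]

lemma nt_iff {X : 𝒱.Obj} {j : ℕ} {z : X.Cycles} (hz : X.IsCyc j z) :
    NumTriv ops X j z ↔ NT W X (W.cl X z) := by
  refine ⟨nt_of hz, ?_⟩
  intro h i hij w hw
  have h1 := h (W.cl X w) (AS.of ⟨w, hw, rfl⟩)
  rw [← W.cl_mul, W.tr_cl] at h1
  · exact_mod_cast h1
  · have := ops.mul_mem hz hw
    rwa [show j + i = X.dim by omega] at this

lemma NT.mul {X : 𝒱.Obj} {c d : W.H X} (hc : NT W X c) (hd : AS W X d) : NT W X (d * c) := by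
  intro w hw
  rw [hd.comm c, mul_assoc]
  exact hc _ (hd.mul hw)

section Form

variable {P : Polarized 𝒱} {f Φ : Module.End W.K (W.H P.X)} (l : Loc W P f Φ)

include l

lemma nt_bf {c a : W.H P.X} (hc : NT W P.X c) (ha : AS W P.X a) :
    bf W P.X P.D f c a = 0 := by
  rw [bf_apply]
  exact hc _ (l.F.st_AS ha)

lemma nt_of_bf {c : W.H P.X} (h : ∀ w, AS W P.X w → bf W P.X P.D f c w = 0) :
    NT W P.X c := by
  intro w hw
  have h1 := h _ (l.F.st_AS hw)
  rw [bf_apply] at h1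
  have h2 : st W P.X P.D f (st W P.X P.D f w) = w := by
    rw [← Module.End.mul_apply, l.st_st, Module.End.one_apply]
  rwa [h2] at h1

lemma tr_L (a b : W.H P.X) (m : ℕ) :
    W.tr P.X (((LinearMap.mulLeft W.K (W.cl P.X P.D)) ^ m) a * b) =
      W.tr P.X (a * ((LinearMap.mulLeft W.K (W.cl P.X P.D)) ^ m) b) := by
  have h1 : ∀ a b, bil W P.X (LinearMap.mulLeft W.K (W.cl P.X P.D) a) b =
      bil W P.X a (LinearMap.mulLeft W.K (W.cl P.X P.D) b) := fun a b => RSys.bil_self l.F.hD a b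
  have h2 : ∀ m a b, bil W P.X (((LinearMap.mulLeft W.K (W.cl P.X P.D)) ^ m) a) b =
      bil W P.X a (((LinearMap.mulLeft W.K (W.cl P.X P.D)) ^ m) b) := by
    intro m
    induction m with
    | zero => intro a b; simp
    | succ m ih =>
      intro a b
      rw [pow_succ, Module.End.mul_apply, ih, h1, ← Module.End.mul_apply
        (LinearMap.mulLeft W.K (W.cl P.X P.D)), ← pow_succ', ← pow_succ]
  exact h2 m a b

/-- The primitive part modulo numerical equivalence. -/
lemma exists_prim {j : ℕ} (hj : 2 * j ≤ P.X.dim) {c : W.H P.X} (hc : c ∈ algClasses W P.X j)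
    (h : NT W P.X (((LinearMap.mulLeft W.K (W.cl P.X P.D)) ^ (P.X.dim - 2 * j + 1)) c)) :
    ∃ v ∈ algClasses W P.X j, NT W P.X (c - v) ∧
      ((LinearMap.mulLeft W.K (W.cl P.X P.D)) ^ (P.X.dim - 2 * j + 1)) v = 0 := by
  set L : Module.End W.K (W.H P.X) := LinearMap.mulLeft W.K (W.cl P.X P.D) with hL
  have hLp : ∀ (m : ℕ) {i : ℕ} {a : W.H P.X}, a ∈ algClasses W P.X i →
      (L ^ m) a ∈ algClasses W P.X (i + m) := by
    intro m
    induction m with
    | zero => intro i a ha; simpa using ha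
    | succ m ih =>
      intro i a ha
      rw [pow_succ', Module.End.mul_apply, hL, LinearMap.mulLeft_apply,
        show i + (m + 1) = 1 + (i + m) by ring]
      exact alg_mul ⟨P.D, l.F.hD, rfl⟩ (ih ha)
  rcases Nat.eq_zero_or_pos j with h0 | h0
  · subst h0
    refine ⟨c, hc, ?_, ?_⟩
    · rw [sub_self]
      intro w _
      rw [zero_mul, map_zero]
    · have h1 := pow_L_mem l.t.hL (alg_gr hc) (P.X.dim - 2 * 0 + 1)
      rw [W.gr_eq_bot _ _ (by omega)] at h1
      exact (Submodule.mem_bot _).1 h1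
  obtain ⟨i, rfl⟩ : ∃ i, j = i + 1 := ⟨j - 1, by omega⟩
  have h1 : (L ^ (P.X.dim - 2 * (i + 1) + 1)) c ∈ algClasses W P.X (P.X.dim - i) := by
    have := hLp (P.X.dim - 2 * (i + 1) + 1) hc
    rwa [show i + 1 + (P.X.dim - 2 * (i + 1) + 1) = P.X.dim - i by omega] at this
  have hA : ∀ a ∈ algClasses W P.X (P.X.dim - i), ∃ y ∈ algClasses W P.X i,
      (L ^ (P.X.dim - 2 * i)) y = a := by
    rintro _ ⟨z, hz, rfl⟩
    obtain ⟨z', hz', h2⟩ := l.F.lefschetzA i (by omega) z hz
    exact ⟨W.cl P.X z', ⟨z', hz', rfl⟩, by rw [← h2, cl_divPow]⟩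
  obtain ⟨y, hy, hy'⟩ := hA _ h1
  have hyn : NT W P.X y := by
    intro w hw
    have e1 : W.tr P.X (y * w) = W.tr P.X (y * proj (W.isInternal P.X) (2 * (P.X.dim - i)) w) := by
      refine AS.ind (p := fun w => W.tr P.X (y * w) =
        W.tr P.X (y * proj (W.isInternal P.X) (2 * (P.X.dim - i)) w)) ?_ ?_ hw
      · intro m w hw
        by_cases hm : m = P.X.dim - i
        · subst hm
          rw [proj_same _ (alg_gr hw)]
        · rw [proj_ne _ (alg_gr hw) (by omega), mul_zero, map_zero]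
          exact W.tr_eq_zero (W.mul_mem (alg_gr hy) (alg_gr hw)) (by omega)
      · intro a b ha hb; rw [mul_add, map_add, ha, hb, map_add, mul_add, map_add]
    obtain ⟨w', hw', hw''⟩ := hA _ (hw.proj (P.X.dim - i))
    rw [e1, ← hw'', ← tr_L l, hy']
    exact h _ (AS.of hw')
  refine ⟨c - L y, ?_, ?_, ?_⟩
  · have h2 : L y ∈ algClasses W P.X (i + 1) := by
      have := hLp 1 hy
      rwa [pow_one] at this
    have h3 := alg_add hc (alg_smul (-1) h2)
    rw [Rat.cast_neg, Rat.cast_one, neg_one_smul, ← sub_eq_add_neg] at h3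
    exact h3
  · rw [sub_sub_cancel]
    exact hyn.mul (AS.of ⟨P.D, l.F.hD, rfl⟩)
  · rw [map_sub, ← hy', sub_eq_zero, ← Module.End.mul_apply, ← pow_succ]
    congr 2
    omega

/-- **The consequences of the positivity of the form for cycles modulo numerical equivalence.** -/
theorem num_of_pos {j : ℕ} (hj : 2 * j ≤ P.X.dim) {z : P.X.Cycles} (hz : P.X.IsCyc j z)
    (hprim : NumTriv ops P.X (P.X.dim - j + 1) (divPow ops P.D (P.X.dim - 2 * j + 1) z))
    {q : ℚ} (hq : 0 < q) (hq' : bf W P.X P.D f (W.cl P.X z) (W.cl P.X z) = q) :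
    0 < (-1 : ℚ) ^ j * P.X.V.degCycle (ops.mul z (divPow ops P.D (P.X.dim - 2 * j) z)) := by
  set L : Module.End W.K (W.H P.X) := LinearMap.mulLeft W.K (W.cl P.X P.D) with hL
  have hcyc : P.X.IsCyc (P.X.dim - j + 1) (divPow ops P.D (P.X.dim - 2 * j + 1) z) := by
    have := divPow_mem (ops := ops) l.F.hD (P.X.dim - 2 * j + 1) hz
    rwa [show j + (P.X.dim - 2 * j + 1) = P.X.dim - j + 1 by omega] at this
  have h1 := (nt_iff (W := W) hcyc).1 hprim
  rw [cl_divPow] at h1
  obtain ⟨v, ⟨z', hz', rfl⟩, hv, hv'⟩ := exists_prim l hj ⟨z, hz, rfl⟩ h1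
  set c := W.cl P.X z with hc
  set v := W.cl P.X z' with hvdef
  have hcA : AS W P.X c := AS.of ⟨z, hz, rfl⟩
  have hvA : AS W P.X v := AS.of ⟨z', hz', rfl⟩
  have hdA : AS W P.X (c - v) := AS.ratSub.sub hcA hvA
  -- the form
  have e1 : bf W P.X P.D f c c = bf W P.X P.D f v v := by
    have h2 : c = v + (c - v) := by abel
    have h3 := nt_bf l hv hcA
    have h4 := nt_bf l hv hvA
    have h5 : bf W P.X P.D f v (c - v) = 0 := by rw [bf_as l hvA, h4]
    calc bf W P.X P.D f c c = bf W P.X P.D f (v + (c - v)) c := by rw [← h2]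
      _ = bf W P.X P.D f v c := by rw [map_add, LinearMap.add_apply, h3, add_zero]
      _ = bf W P.X P.D f v (v + (c - v)) := by rw [← h2]
      _ = bf W P.X P.D f v v := by rw [map_add, h5, add_zero]
  -- the intersection number
  have hLAS : ∀ (m : ℕ) {a : W.H P.X}, AS W P.X a → AS W P.X ((L ^ m) a) := fun m a ha =>
    (l.F.Lop.pow m).apply ha
  have e2 : W.tr P.X (c * (L ^ (P.X.dim - 2 * j)) c) =
      W.tr P.X (v * (L ^ (P.X.dim - 2 * j)) v) := by
    have h3 : W.tr P.X ((c - v) * (L ^ (P.X.dim - 2 * j)) c) = 0 := hv _ (hLAS _ hcA)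
    have h4 : W.tr P.X (v * (L ^ (P.X.dim - 2 * j)) (c - v)) = 0 := by
      rw [← tr_L l, (hLAS _ hvA).comm]
      exact hv _ (hLAS _ hvA)
    rw [sub_mul, map_sub, sub_eq_zero] at h3
    rw [map_sub, mul_sub, map_sub, sub_eq_zero] at h4
    rw [h3, h4]
  have hmem : P.X.IsCyc P.X.dim (ops.mul z (divPow ops P.D (P.X.dim - 2 * j) z)) := by
    have := ops.mul_mem hz (divPow_mem (ops := ops) l.F.hD (P.X.dim - 2 * j) hz)
    rwa [show j + (j + (P.X.dim - 2 * j)) = P.X.dim by omega] at this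
  have hmem' : P.X.IsCyc P.X.dim (ops.mul z' (divPow ops P.D (P.X.dim - 2 * j) z')) := by
    have := ops.mul_mem hz' (divPow_mem (ops := ops) l.F.hD (P.X.dim - 2 * j) hz')
    rwa [show j + (j + (P.X.dim - 2 * j)) = P.X.dim by omega] at this
  have e3 : P.X.V.degCycle (ops.mul z (divPow ops P.D (P.X.dim - 2 * j) z)) =
      P.X.V.degCycle (ops.mul z' (divPow ops P.D (P.X.dim - 2 * j) z')) := by
    have h3 := W.tr_cl hmem
    have h4 := W.tr_cl hmem'
    rw [W.cl_mul, cl_divPow] at h3 h4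
    rw [h3, h4] at e2
    exact_mod_cast e2
  have h5 := l.F.form_prim hj hz' (by rw [cl_divPow]; exact hv')
  rw [← hvdef, ← e1, hq'] at h5
  have h6 : (-1 : ℚ) ^ j * (((P.X.dim - 2 * j).factorial : ℚ)⁻¹ *
        P.X.V.degCycle (ops.mul z' (divPow ops P.D (P.X.dim - 2 * j) z'))) = q := by
    exact_mod_cast h5.symm
  have h7 : (0 : ℚ) < (P.X.dim - 2 * j).factorial := by exact_mod_cast Nat.factorial_pos _
  have h8 : (-1 : ℚ) ^ j * P.X.V.degCycle (ops.mul z' (divPow ops P.D (P.X.dim - 2 * j) z')) =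
      (P.X.dim - 2 * j).factorial * q := by
    rw [← h6]
    field_simp
  rw [e3, h8]
  exact mul_pos h7 hq

/-- **Semipositivity of the form.** -/
theorem bf_nonneg (hH : NumHodge ops P (fun _ => True)) {x : W.H P.X} (hx : AS W P.X x) :
    ∃ q : ℚ, 0 ≤ q ∧ bf W P.X P.D f x x = q := by
  classical
  have hC : APW (W.gr P.X) P.X.dim (LinearMap.mulLeft W.K (W.cl P.X P.D)) (bil W P.X)
      (algClasses W P.X) := by
    refine ⟨?_, ?_, ?_, ?_, ?_, ?_, ?_, ?_, ?_, ?_, ?_⟩
    · rintro i _ ⟨z, hz, rfl⟩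
      exact W.cl_mem hz
    · exact fun i => ⟨0, SmVar.IsCyc.zero _ _, map_zero _⟩
    · intro i c hc d hd; exact alg_add hc hd
    · intro i q c hc; exact alg_smul q hc
    · intro i c hc
      rw [LinearMap.mulLeft_apply, add_comm]
      exact alg_mul ⟨P.D, l.F.hD, rfl⟩ hc
    · intro i i' c hc d hd; exact alg_rat hc hd
    · rintro i hi _ ⟨z, hz, rfl⟩
      obtain ⟨z', hz', h⟩ := l.F.lefschetzA i hi z hz
      exact ⟨W.cl P.X z', ⟨z', hz', rfl⟩, by rw [← h, cl_divPow]⟩
    · rintro i hi _ ⟨z, hz, rfl⟩ hp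
      have hmem : P.X.IsCyc P.X.dim (ops.mul z (divPow ops P.D (P.X.dim - 2 * i) z)) := by
        have := ops.mul_mem hz (divPow_mem (ops := ops) l.F.hD (P.X.dim - 2 * i) hz)
        rwa [show i + (i + (P.X.dim - 2 * i)) = P.X.dim by omega] at this
      refine ⟨P.X.V.degCycle (ops.mul z (divPow ops P.D (P.X.dim - 2 * i) z)), ?_, ?_⟩
      · rw [bil_apply, ← cl_divPow, ← W.cl_mul, W.tr_cl hmem]
      · by_cases h0 : NumTriv ops P.X i z
        · have h1 : P.X.V.degCycle (ops.mul z (divPow ops P.D (P.X.dim - 2 * i) z)) = 0 := by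
            apply h0 (P.X.dim - i) (by omega)
            have := divPow_mem (ops := ops) l.F.hD (P.X.dim - 2 * i) hz
            rwa [show i + (P.X.dim - 2 * i) = P.X.dim - i by omega] at this
          rw [h1, mul_zero]
        · refine (hH i hi z hz trivial ?_ h0).le
          have hcyc : P.X.IsCyc (P.X.dim - i + 1) (divPow ops P.D (P.X.dim - 2 * i + 1) z) := by
            have := divPow_mem (ops := ops) l.F.hD (P.X.dim - 2 * i + 1) hz
            rwa [show i + (P.X.dim - 2 * i + 1) = P.X.dim - i + 1 by omega] at this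
          rw [nt_iff (W := W) hcyc, cl_divPow, hp]
          intro w _
          rw [zero_mul, map_zero]
    · intro a b; exact RSys.bil_self l.F.hD a b
    · exact fun i j a ha b hb hij => W.tr_eq_zero (W.mul_mem ha hb) hij
    · intro i a ha b
      rw [bil_apply, bil_apply, W.even_comm ha]
  have t := l.F.sl2
  set L : Module.End W.K (W.H P.X) := LinearMap.mulLeft W.K (W.cl P.X P.D) with hL
  have hw1 : wey L f * L = -(f * wey L f) := wey_e t
  have hw3 : ∀ (m : ℕ) (v : W.H P.X), f v = 0 →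
      wt (W.isInternal P.X) P.X.dim v = -(m : W.K) • v →
      wey L f v = ((m.factorial : W.K)⁻¹) • (L ^ m) v := fun m v hv hm => wey_lowest t hv hm
  have hHw : ∀ i, ∀ a ∈ W.gr P.X i, wt (W.isInternal P.X) P.X.dim a =
      ((i : W.K) - P.X.dim) • a := fun i a ha => Fr.wt_gr ha
  have hlow : ∀ i ≤ P.X.dim, ∀ a ∈ W.gr P.X i, (L ^ (P.X.dim - i + 1)) a = 0 → f a = 0 := by
    intro i hi a ha h0
    exact (l.t.low hi ha h0).1
  have key : ∀ j, ∃ q : ℚ, 0 ≤ q ∧
      bf W P.X P.D f (proj (W.isInternal P.X) (2 * j) x) (proj (W.isInternal P.X) (2 * j) x) =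
        q := by
    intro j
    have h1 := hx.proj j
    obtain ⟨s, hs, hs'⟩ := hC.weyl_nonneg t hw1 hw3 hlow hHw (mulLeft_isHom l.F.hD) W_hbd h1
    refine ⟨(-1) ^ j * s, hs', ?_⟩
    rw [bf_apply, st_apply (alg_gr h1), mul_smul_comm, map_smul, ← bil_apply]
    rw [hL] at hs
    rw [hs, sg_two_mul, smul_eq_mul]
    push_cast
    rfl
  choose q hq0 hq2 using key
  refine ⟨∑ j ∈ Finset.range (P.X.dim + 1), q j, Finset.sum_nonneg (fun j _ => hq0 j), ?_⟩
  have h1 : bf W P.X P.D f x x = bf W P.X P.D f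
      (∑ j ∈ Finset.range (P.X.dim + 1), proj (W.isInternal P.X) (2 * j) x)
      (∑ j ∈ Finset.range (P.X.dim + 1), proj (W.isInternal P.X) (2 * j) x) := by
    rw [← Fr.AS_sum hx]
  rw [h1, map_sum (bf W P.X P.D f), LinearMap.sum_apply, Rat.cast_sum]
  apply Finset.sum_congr rfl
  intro j hj
  rw [map_sum, Finset.sum_eq_single j, hq2]
  · intro i _ hi
    exact l.F.bf_deg (proj_mem _ _ _) (proj_mem _ _ _) (by omega)
  · intro h0; exact absurd hj h0

end Form

end Pool.Agent.W552
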