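import Pool.Agent.W552.AvDefs

/-!
# Varieties of abelian type: working definitions
-/

open CategoryTheory AlgebraicGeometry

universe u v w

namespace Pool.Agent.W552

open Pool.Agent.H914 Pool.Agent.H914.VarClass Pool.Agent.H914.VarClass.Obj
  Pool.Agent.H914.WeilCohomology Pool.Agent.H281R3.HT

variable {k : Type u} [Field k] {𝒱 : VarClass k} {ops : CycleOps 𝒱}

/-- A family of polarized varieties of abelian type. -/
structure IsAbelianFamily (W : WeilCohomology.{u, v} ops) {ι : Type w} (P : ι → Polarized 𝒱) :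
    Prop where
  div : ∀ s, (P s).X.IsCyc 1 (P s).D
  deg : ∀ s, 0 < (P s).X.V.degCycle (divPow ops (P s).D (P s).X.dim (P s).X.V.fundCycle)
  hardLef : ∀ s, HardLefschetz W (P s).X (P s).D
  lef : ∀ s, LefschetzB W (P s).X (P s).D
  index : ∀ s, HodgeIndex W (P s).X (P s).D
  index_prod : ∀ s t, HodgeIndex W ((P s).prod ops (P t)).X ((P s).prod ops (P t)).D
  type : ∀ s, AbelianType (W.gr (P s).X) (P s).X.dim (W.cl (P s).X (P s).D)
    (fun F => ∃ f : (P s).X ⟶ (P s).X, F = W.map f)

/-- The classes on the members. -/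
inductive GenClass (W : WeilCohomology.{u, v} ops) {ι : Type w} (P : ι → Polarized 𝒱)
    (T : Set ι) : (s : ι) → W.H (P s).X → Prop
  | one {s x} : x ∈ algClasses W (P s).X 0 → GenClass W P T s x
  | div {s x} : x ∈ algClasses W (P s).X 1 → GenClass W P T s x
  | alg {s j x} : s ∈ T → x ∈ algClasses W (P s).X j → GenClass W P T s x
  | mul {s x y} : GenClass W P T s x → GenClass W P T s y → GenClass W P T s (x * y)
  | map {s t x} (f : (P s).X ⟶ (P t).X) : GenClass W P T t x → GenClass W P T s (W.map f x)
  | push {s t x} (f : (P s).X ⟶ (P t).X) : GenClass W P T s x → GenClass W P T t (W.push f x)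

/-- The linear combinations of these classes. -/
def genSpan (W : WeilCohomology.{u, v} ops) {ι : Type w} (P : ι → Polarized 𝒱) (T : Set ι)
    (s : ι) : Submodule W.K (W.H (P s).X) :=
  Submodule.span W.K {x | GenClass W P T s x}

end Pool.Agent.W552
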