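import Pool.Agent.W552.ConjSys

/-!
# Rational matrix algebras with a positive involution: the antilinear structure for a given
embedding
-/

open Matrix
open scoped ComplexOrder

universe v

namespace Pool.Agent.W552

variable {K : Type v} [Field K] [CharZero K] {I : Type} [Fintype I] [DecidableEq I]

namespace PosSys

variable {B : Matrix I I K} {ε : I → ℤ} {E : Matrix I I K → Prop} (h : PosSys B ε E)

include h

/-- **The antilinear structure.** -/
theorem exists_conj' (σ : K →+* ℂ) :
    ∃ C : Matrix I I ℂ, C * cj C = diagonal (fun i => (ε i : ℂ)) ∧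
    (σ.mapMatrix B * C).PosDef ∧ ∀ A, E A → σ.mapMatrix A * C = C * cj (σ.mapMatrix A) := by
  classical
  obtain ⟨N, e, w, he, hw, horth, hspan⟩ := h.exists_basis
  have hBu : IsUnit B.det := (isUnit_iff_isUnit_det B).1 h.hB
  -- the lift of the elements
  set lift : (Fin N → ℚ) → Matrix I I K := fun r => ∑ k, (r k : K) • e k with hlift
  have hsmulC : ∀ (r : K) (A : Matrix I I K),
      σ.mapMatrix (r • A) = σ r • σ.mapMatrix A := by
    intro r A
    ext i j
    simp
  have hliftσ : ∀ r, σ.mapMatrix (lift r) = ∑ k, (r k : ℂ) • σ.mapMatrix (e k) := by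
    intro r
    rw [hlift]
    beta_reduce
    rw [map_sum]
    apply Finset.sum_congr rfl
    intro k _
    rw [hsmulC, map_ratCast]
  have hEl : ∀ A, E A → ∃ r, lift r = A := by
    intro A hA
    obtain ⟨r, hr⟩ := hspan A hA
    exact ⟨r, hr.symm⟩
  -- the positive definite matrix
  obtain ⟨G, hG, hGA⟩ := exists_G (fun k => σ.mapMatrix (e k)) (fun k => ((w k)⁻¹ : ℝ))
    (fun k => inv_pos.2 (by exact_mod_cast hw k))
    (by
      obtain ⟨r, hr⟩ := hEl 1 h.one
      refine ⟨fun k => (r k : ℂ), ?_⟩
      rw [← hliftσ, hr, map_one])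
  have hepsC : σ.mapMatrix (diagonal (fun i => (ε i : K))) = diagonal (fun i => (ε i : ℂ)) := by
    ext i j
    by_cases hij : i = j
    · subst hij; simp
    · simp [diagonal_apply_ne _ hij]
  -- equivariance
  have key : ∀ A A' : Matrix I I K, E A → E A' →
      B * A' = Aᵀ * B → σ.mapMatrix A * G = G * (σ.mapMatrix A')ᴴ := by
    intro A A' hA hA' hAA'
    have e1 : ∀ k, ∃ r : Fin N → ℚ, A * e k = lift r := by
      intro k
      obtain ⟨r, hr⟩ := hEl (A * e k) (h.mul hA (he k))
      exact ⟨r, hr.symm⟩
    have e2 : ∀ k, ∃ r : Fin N → ℚ, A' * e k = lift r := by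
      intro k
      obtain ⟨r, hr⟩ := hEl (A' * e k) (h.mul hA' (he k))
      exact ⟨r, hr.symm⟩
    choose a ha using e1
    choose a' ha' using e2
    apply hGA _ _ (fun l k => ((a k l : ℚ) : ℝ)) (fun k l => ((a' l k : ℚ) : ℝ))
    · intro k
      rw [← map_mul, ha, hliftσ]
      apply Finset.sum_congr rfl
      intro l _
      push_cast
      rfl
    · intro k
      rw [← map_mul, ha', hliftσ]
      apply Finset.sum_congr rfl
      intro l _
      push_cast
      rfl
    · intro k l
      have hadj : ∀ {A A'}, B * A' = Aᵀ * B → B⁻¹ * Aᵀ * B = A' := by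
        intro A A' h1
        rw [mul_assoc, ← h1, nonsing_inv_mul_cancel_left _ _ hBu]
      -- values of the coefficients
      have hval : ∀ (r : Fin N → ℚ) l, trace (B⁻¹ * (e l)ᵀ * B * lift r) =
          (r l : K) * w l := by
        intro r l
        rw [hlift, Finset.mul_sum, trace_sum, Finset.sum_eq_single l]
        · rw [mul_smul_comm, trace_smul, horth, if_pos rfl, smul_eq_mul]
        · intro l' _ hl
          rw [mul_smul_comm, trace_smul, horth, if_neg (Ne.symm hl), smul_zero]
        · intro h0; exact absurd (Finset.mem_univ _) h0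
      have v1 := hval (a k) l
      have v2 := hval (a' l) k
      rw [← ha] at v1
      rw [← ha'] at v2
      obtain ⟨el, hel, hel'⟩ := h.adj (he l)
      obtain ⟨ek, hek, hek'⟩ := h.adj (he k)
      rw [hadj hel'] at v1
      rw [hadj hek'] at v2
      have h7 : B * (ek * (A' * e l)) = (el * (A * e k))ᵀ * B := by
        rw [← mul_assoc, hek', mul_assoc, ← mul_assoc B, hAA', mul_assoc, h.adj_adj (he l) hel']
        simp only [transpose_mul, mul_assoc]
      have h8 : trace (ek * (A' * e l)) = trace (el * (A * e k)) := by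
        rw [← hadj h7, trace_mul_comm, ← mul_assoc, mul_nonsing_inv _ hBu, one_mul,
          trace_transpose]
      rw [v1, v2] at h8
      have h9 : (a' l k : ℚ) * w k = a k l * w l := by exact_mod_cast h8
      have hk : (w k : ℝ) ≠ 0 := by exact_mod_cast (hw k).ne'
      have hl : (w l : ℝ) ≠ 0 := by exact_mod_cast (hw l).ne'
      have h10 : ((a' l k : ℚ) : ℝ) * w k = a k l * w l := by exact_mod_cast h9
      field_simp
      linarith
  have hDt : (diagonal (fun i => (ε i : K)))ᵀ = diagonal (fun i => (ε i : K)) :=
    diagonal_transpose _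
  have hu : IsUnit (σ.mapMatrix B) := by
    apply IsUnit.map
    exact h.hB
  obtain ⟨C, hC1, hC2, hC3⟩ := exists_C (G := G) (B := σ.mapMatrix B)
    (ε := diagonal (fun i => (ε i : ℂ))) hG hu
    (by
      rw [diagonal_mul_diagonal, ← diagonal_one]
      congr 1
      ext i
      exact_mod_cast h.hε i)
    (by
      ext i j
      by_cases hij : i = j
      · subst hij; simp [cj]
      · simp [cj, diagonal_apply_ne _ hij])
    (by
      have := congrArg σ.mapMatrix h.hBT
      rw [map_mul, hepsC] at this
      rw [← this]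
      rfl)
    (by
      have := congrArg σ.mapMatrix h.hεB
      rwa [map_mul, map_mul, hepsC] at this)
    (by
      have h1 := key (diagonal (fun i => (ε i : K))) (diagonal (fun i => (ε i : K)))
        h.epsE h.epsE (by rw [hDt, h.hεB])
      rw [hepsC] at h1
      rw [h1]
      congr 1
      ext i j
      by_cases hij : i = j
      · subst hij; simp [conjTranspose_apply]
      · rw [conjTranspose_apply, diagonal_apply_ne _ (Ne.symm hij), diagonal_apply_ne _ hij]
        simp)
  refine ⟨C, hC1, hC2, ?_⟩
  intro A hA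
  obtain ⟨A', hA', hAA'⟩ := h.adj hA
  apply hC3 _ (σ.mapMatrix A')
  · exact key _ _ hA hA' hAA'
  · have := congrArg σ.mapMatrix hAA'
    rw [map_mul, map_mul] at this
    rw [this]
    rfl
  · have h1 : A * diagonal (fun i => (ε i : K)) = diagonal (fun i => (ε i : K)) * A := h.epsC hA
    have := congrArg σ.mapMatrix h1
    rwa [map_mul, map_mul, hepsC] at this

end PosSys

end Pool.Agent.W552
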