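import Pool.Agent.W552.TautMain

/-!
# The projector onto the algebraic part of the cohomology
-/

open CategoryTheory AlgebraicGeometry

universe u v w

namespace Pool.Agent.W552

open Pool.Agent.H914 Pool.Agent.H914.VarClass Pool.Agent.H914.VarClass.Obj
  Pool.Agent.H914.WeilCohomology Pool.Agent.H281R3.HT Pool.Agent.H447

variable {k : Type u} [Field k] {𝒱 : VarClass k} {ops : CycleOps 𝒱}
  {W : WeilCohomology.{u, v} ops}

/-- The linear combinations of algebraic classes. -/
def ASp (W : WeilCohomology.{u, v} ops) (X : 𝒱.Obj) : Submodule W.K (W.H X) :=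
  Submodule.span W.K {x | AS W X x}

lemma AOp.apply_span {X Y : 𝒱.Obj} {u : W.H X →ₗ[W.K] W.H Y} (h : AOp W X Y u) {x : W.H X}
    (hx : x ∈ ASp W X) : u x ∈ ASp W Y := by
  induction hx using Submodule.span_induction with
  | mem x hx => exact Submodule.subset_span (h.apply hx)
  | zero => rw [map_zero]; exact Submodule.zero_mem _
  | add a b _ _ ha hb => rw [map_add]; exact Submodule.add_mem _ ha hb
  | smul c a _ ha => rw [map_smul]; exact Submodule.smul_mem _ _ ha

/-- A rational orthogonal basis of the algebraic classes. -/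
structure RB (W : WeilCohomology.{u, v} ops) (P : Polarized 𝒱)
    (f : Module.End W.K (W.H P.X)) where
  /-- the number of elements -/
  N : ℕ
  /-- the basis -/
  ε : Fin N → W.H P.X
  /-- the values of the form -/
  w : Fin N → ℚ
  as : ∀ k, AS W P.X (ε k)
  pos : ∀ k, 0 < w k
  orth : ∀ k l, bf W P.X P.D f (ε k) (ε l) = if k = l then (w k : W.K) else 0
  span : ∀ x, AS W P.X x → ∃ r : Fin N → ℚ, x = ∑ k, (r k : W.K) • ε k

/-- The projector onto the algebraic part. -/
noncomputable def RB.p {P : Polarized 𝒱} {f : Module.End W.K (W.H P.X)} (B : RB W P f) :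
    Module.End W.K (W.H P.X) :=
  ∑ k, ((B.w k : W.K)⁻¹) • (bf W P.X P.D f (B.ε k)).smulRight (B.ε k)

section

variable {P Q : Polarized 𝒱} {f Φ : Module.End W.K (W.H P.X)} {f' Φ' : Module.End W.K (W.H Q.X)}
  (l : Loc W P f Φ) (l' : Loc W Q f' Φ')

lemma par_as {X : 𝒱.Obj} {x : W.H X} (hx : AS W X x) : par (W.isInternal X) x = x := by
  refine AS.ind (p := fun y => par (W.isInternal X) y = y) ?_ ?_ hx
  · intro j y hy
    rw [par, scal_apply _ _ (alg_gr hy), pow_mul]
    simp
  · intro y y' hy hy'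
    rw [map_add, hy, hy']

include l

lemma bf_as {x : W.H P.X} (hx : AS W P.X x) (y : W.H P.X) :
    bf W P.X P.D f x y = bf W P.X P.D f y x := by
  rw [bf_sy l.F l.t y x, par_as hx]

lemma exists_rb (hH : HodgeType W P.X P.D) : Nonempty (RB W P f) := by
  obtain ⟨N, ε, w, hε, hw, horth, hspan⟩ := exists_ratBasis (AS.ratSub (W := W) (X := P.X))
    (bf W P.X P.D f) (fun x y hx hy => l.F.bf_rat hx hy) (fun x y hx _ => bf_as l hx y)
    (fun x hx hx0 => l.F.bf_pos hH hx hx0)
  exact ⟨⟨N, ε, w, hε, hw, horth, fun x hx => hspan x (Submodule.subset_span hx)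
    (fun k => l.F.bf_rat hx (hε k))⟩⟩

lemma bf_nondeg_left {z : W.H P.X} (h : ∀ y, bf W P.X P.D f z y = 0) : z = 0 := by
  apply bf_nondeg' l.F l.t
  intro y
  have h1 := bf_sy l.F l.t z (par (W.isInternal P.X) y)
  have h2 : par (W.isInternal P.X) (par (W.isInternal P.X) y) = y :=
    congrArg (fun G => G y) (par_mul_par (W.isInternal P.X))
  rw [h2, h] at h1
  exact h1.symm

end

namespace RB

variable {P Q : Polarized 𝒱} {f Φ : Module.End W.K (W.H P.X)} {f' Φ' : Module.End W.K (W.H Q.X)}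
  (B : RB W P f)

lemma p_apply (z : W.H P.X) :
    B.p z = ∑ k, ((B.w k : W.K)⁻¹ * bf W P.X P.D f (B.ε k) z) • B.ε k := by
  rw [p, LinearMap.sum_apply]
  apply Finset.sum_congr rfl
  intro k _
  rw [LinearMap.smul_apply, LinearMap.smulRight_apply, smul_smul]

lemma w_ne (k : Fin B.N) : (B.w k : W.K) ≠ 0 := by exact_mod_cast (B.pos k).ne'

lemma p_basis (k : Fin B.N) : B.p (B.ε k) = B.ε k := by
  rw [p_apply, Finset.sum_eq_single k]
  · rw [B.orth, if_pos rfl, inv_mul_cancel₀ (B.w_ne k), one_smul]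
  · intro l _ hl
    rw [B.orth, if_neg hl, mul_zero, zero_smul]
  · intro h0; exact absurd (Finset.mem_univ _) h0

lemma p_as {x : W.H P.X} (hx : AS W P.X x) : B.p x = x := by
  obtain ⟨r, rfl⟩ := B.span x hx
  rw [map_sum]
  apply Finset.sum_congr rfl
  intro k _
  rw [map_smul, p_basis]

lemma p_span {x : W.H P.X} (hx : x ∈ ASp W P.X) : B.p x = x := by
  induction hx using Submodule.span_induction with
  | mem x hx => exact B.p_as hx
  | zero => rw [map_zero]
  | add a b _ _ ha hb => rw [map_add, ha, hb]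
  | smul c a _ ha => rw [map_smul, ha]

lemma p_mem (z : W.H P.X) : B.p z ∈ ASp W P.X := by
  rw [p_apply]
  exact Submodule.sum_mem _ fun k _ => Submodule.smul_mem _ _ (Submodule.subset_span (B.as k))

lemma p_p : B.p * B.p = B.p := by
  apply LinearMap.ext
  intro z
  rw [Module.End.mul_apply, B.p_span (B.p_mem z)]

variable (l : Loc W P f Φ) (l' : Loc W Q f' Φ') (B' : RB W Q f')

include l in
lemma p_adj (a b : W.H P.X) : bf W P.X P.D f (B.p a) b = bf W P.X P.D f a (B.p b) := by
  rw [p_apply, p_apply, map_sum, map_sum, LinearMap.sum_apply]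
  apply Finset.sum_congr rfl
  intro k _
  rw [map_smul, map_smul, LinearMap.smul_apply, smul_eq_mul, smul_eq_mul,
    ← bf_as l (B.as k) a]
  ring

include l in
/-- The rank one operators. -/
lemma th_ext_as {x : W.H P.X} {y : W.H Q.X} (hx : AS W P.X x) (hy : AS W Q.X y) :
    th W P.D f (ext W x y) = (bf W P.X P.D f x).smulRight y := by
  apply LinearMap.ext
  intro z
  rw [LinearMap.smulRight_apply]
  refine AS.ind (p := fun x => th W P.D f (ext W x y) z = bf W P.X P.D f x z • y) ?_ ?_ hx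
  · intro j x hx
    refine AS.ind (p := fun y => th W P.D f (ext W x y) z = bf W P.X P.D f x z • y) ?_ ?_ hy
    · intro i y hy
      exact th_ext l.F (alg_gr hx) (alg_gr hy) ⟨j + i, by ring⟩ z
    · intro a b ha hb
      rw [show ext W x (a + b) = ext W x a + ext W x b by simp only [H281R3.HT.ext, map_add,
        mul_add], th, corr_add, LinearMap.add_comp, LinearMap.add_apply, smul_add, ← ha, ← hb]
      rfl
  · intro a b ha hb
    rw [show ext W (a + b) y = ext W a y + ext W b y by simp only [H281R3.HT.ext, map_add,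
      add_mul], th, corr_add, LinearMap.add_comp, LinearMap.add_apply, map_add,
      LinearMap.add_apply, add_smul, ← ha, ← hb]
    rfl

include l in
lemma th_aop {x : W.H (P.X.prod Q.X)} (hx : AS W _ x) : AOp W P.X Q.X (th W P.D f x) :=
  AOp.comp ⟨x, hx, rfl⟩ ((par_aop l.ap).mul (st_aop l.F l.ap))

include l in
lemma rk_aop {x : W.H P.X} {y : W.H Q.X} (hx : AS W P.X x) (hy : AS W Q.X y) :
    AOp W P.X Q.X ((bf W P.X P.D f x).smulRight y) := by
  rw [← th_ext_as l hx hy]
  exact th_aop l (hx.ext hy)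

include l in
lemma p_aop : AOp W P.X P.X B.p := by
  rw [p]
  apply AOp.ratSub.sum
  intro k _
  have h1 := (rk_aop l (B.as k) (B.as k)).smul ((B.w k)⁻¹)
  rwa [Rat.cast_inv] at h1

include l l' in
/-- Algebraic operators commute with the projectors. -/
lemma p_comm {u : W.H P.X →ₗ[W.K] W.H Q.X} {v : W.H Q.X →ₗ[W.K] W.H P.X} (hu : AOp W P.X Q.X u)
    (hv : AOp W Q.X P.X v) (h : ∀ a b, bf W Q.X Q.D f' (u a) b = bf W P.X P.D f a (v b))
    (a : W.H P.X) : u (B.p a) = B'.p (u a) := by
  rw [← sub_eq_zero]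
  apply bf_nondeg_left l'
  intro b
  have h1 : B'.p (u (B.p a)) = u (B.p a) := B'.p_span (hu.apply_span (B.p_mem a))
  have h2 : B.p (v (B'.p b)) = v (B'.p b) := B.p_span (hv.apply_span (B'.p_mem b))
  rw [map_sub, LinearMap.sub_apply, sub_eq_zero]
  calc bf W Q.X Q.D f' (u (B.p a)) b = bf W Q.X Q.D f' (B'.p (u (B.p a))) b := by rw [h1]
    _ = bf W Q.X Q.D f' (u (B.p a)) (B'.p b) := B'.p_adj l' _ _
    _ = bf W P.X P.D f (B.p a) (v (B'.p b)) := h _ _
    _ = bf W P.X P.D f a (B.p (v (B'.p b))) := B.p_adj l _ _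
    _ = bf W P.X P.D f a (v (B'.p b)) := by rw [h2]
    _ = bf W Q.X Q.D f' (u a) (B'.p b) := (h _ _).symm
    _ = bf W Q.X Q.D f' (B'.p (u a)) b := (B'.p_adj l' _ _).symm

omit B' in
include l l' in
/-- The adjoint of an algebraic operator. -/
lemma exists_adj {u : W.H P.X →ₗ[W.K] W.H Q.X} (hu : AOp W P.X Q.X u) :
    ∃ v, AOp W Q.X P.X v ∧ ∀ a b, bf W Q.X Q.D f' (u a) b = bf W P.X P.D f a (v b) := by
  obtain ⟨c, hc, rfl⟩ := hu
  refine ⟨st W P.X P.D f ∘ₗ W.corr (W.map (swap Q.X P.X) c) ∘ₗ st W Q.X Q.D f',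
    AOp.comp (st_aop l.F l.ap) (AOp.comp ⟨_, hc.map _, rfl⟩ (st_aop l'.F l'.ap)), ?_⟩
  intro a b
  rw [bf_apply, hc.tr_corr, bf_apply]
  congr 2
  simp only [LinearMap.comp_apply]
  rw [← Module.End.mul_apply (st W P.X P.D f), l.st_st, Module.End.one_apply]

include l in
/-- The kernel of the projector is the transcendental cohomology. -/
lemma p_eq_zero {x : W.H P.X} : B.p x = 0 ↔ x ∈ transcendental W P.X := by
  rw [mem_trans]
  constructor
  · intro h j b hb
    have hb' : AS W P.X (st W P.X P.D f b) := l.F.st_AS (AS.of hb)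
    have h1 : bf W P.X P.D f x (st W P.X P.D f b) = 0 := by
      rw [← B.p_as hb', ← B.p_adj l, h, map_zero, LinearMap.zero_apply]
    rw [bf_apply, ← Module.End.mul_apply (st W P.X P.D f), l.st_st, Module.End.one_apply] at h1
    exact h1
  · intro h
    rw [p_apply]
    apply Finset.sum_eq_zero
    intro k _
    have h1 : bf W P.X P.D f (B.ε k) x = 0 := by
      rw [bf_as l (B.as k), bf_apply]
      refine AS.ind (p := fun y => W.tr P.X (x * y) = 0) ?_ ?_ (l.F.st_AS (B.as k))
      · intro j y hy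
        exact h j y hy
      · intro a b ha hb
        rw [mul_add, map_add, ha, hb, add_zero]
    rw [h1, mul_zero, zero_smul]

end RB

end Pool.Agent.W552
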