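import Pool.Agent.W552.AvFr2
import Pool.Agent.W552.ConjIso
import Pool.Agent.W552.IrrProj
import Pool.Agent.W552.AvWork

/-!
# Algebraic operators between the cohomology groups of degree one
-/

open CategoryTheory AlgebraicGeometry
open scoped ComplexOrder

universe u v w

namespace Pool.Agent.W552

open Pool.Agent.H914 Pool.Agent.H914.VarClass Pool.Agent.H914.VarClass.Obj
  Pool.Agent.H914.WeilCohomology Pool.Agent.H281R3.HT Pool.Agent.H447

variable {k : Type u} [Field k] {𝒱 : VarClass k} {ops : CycleOps 𝒱}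
  {W : WeilCohomology.{u, v} ops}

/-- The pull-back along a morphism is an algebraic operator. -/
lemma map_aop {X Y : 𝒱.Obj} (φ : X ⟶ Y) : AOp W Y X (W.map φ).toLinearMap := by
  refine ⟨W.push (Obj.lift φ (𝟙 X)) 1, AS.one.push _, ?_⟩
  apply LinearMap.ext
  intro a
  have e1 : Obj.lift φ (𝟙 X) ≫ snd Y X = 𝟙 X := Obj.lift_snd _ _
  have e2 : Obj.lift φ (𝟙 X) ≫ fst Y X = φ := Obj.lift_fst _ _
  rw [corr_apply, ← W.push_mul, ← W.push_comp, ← W.map_comp, e1, e2, W.push_id, one_mul]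
  rfl

/-- The algebraic operators concentrated in degree one. -/
def C1 (W : WeilCohomology.{u, v} ops) (X Y : 𝒱.Obj) (u : W.H X →ₗ[W.K] W.H Y) : Prop :=
  AOp W X Y u ∧ (∀ i, i ≠ 1 → ∀ a ∈ W.gr X i, u a = 0) ∧ ∀ a ∈ W.gr X 1, u a ∈ W.gr Y 1

namespace C1

variable {X Y Z : 𝒱.Obj}

lemma zero : C1 W X Y 0 := ⟨AOp.zero, fun _ _ _ _ => rfl, fun _ _ => Submodule.zero_mem _⟩

lemma add {u u' : W.H X →ₗ[W.K] W.H Y} (h : C1 W X Y u) (h' : C1 W X Y u') :
    C1 W X Y (u + u') := by
  refine ⟨h.1.add h'.1, fun i hi a ha => ?_, fun a ha => ?_⟩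
  · rw [LinearMap.add_apply, h.2.1 i hi a ha, h'.2.1 i hi a ha, add_zero]
  · exact Submodule.add_mem _ (h.2.2 a ha) (h'.2.2 a ha)

lemma smul (q : ℚ) {u : W.H X →ₗ[W.K] W.H Y} (h : C1 W X Y u) : C1 W X Y ((q : W.K) • u) := by
  refine ⟨h.1.smul q, fun i hi a ha => ?_, fun a ha => ?_⟩
  · rw [LinearMap.smul_apply, h.2.1 i hi a ha, smul_zero]
  · exact Submodule.smul_mem _ _ (h.2.2 a ha)

lemma ratSub : RatSub W.K (C1 W X Y) where
  zero := zero
  add := add
  smul q _ h := smul q h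

lemma comp {u : W.H X →ₗ[W.K] W.H Y} {u' : W.H Y →ₗ[W.K] W.H Z} (h' : C1 W Y Z u')
    (h : C1 W X Y u) : C1 W X Z (u' ∘ₗ u) := by
  refine ⟨h'.1.comp h.1, fun i hi a ha => ?_, fun a ha => h'.2.2 _ (h.2.2 a ha)⟩
  rw [LinearMap.comp_apply, h.2.1 i hi a ha, map_zero]

lemma one (hp : AOp W X X (proj (W.isInternal X) 1)) : C1 W X X (proj (W.isInternal X) 1) :=
  ⟨hp, fun _ hi _ ha => proj_ne _ ha hi, fun _ _ => proj_mem _ _ _⟩

/-- The restriction of an algebraic operator of degree zero to the degree one part. -/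
lemma restr (hp : AOp W X X (proj (W.isInternal X) 1)) {u : W.H X →ₗ[W.K] W.H Y}
    (hu : AOp W X Y u) (h1 : ∀ a ∈ W.gr X 1, u a ∈ W.gr Y 1) :
    C1 W X Y (u ∘ₗ proj (W.isInternal X) 1) := by
  refine ⟨hu.comp hp, fun i hi a ha => ?_, fun a ha => ?_⟩
  · rw [LinearMap.comp_apply, proj_ne _ ha hi, map_zero]
  · exact h1 _ (proj_mem _ _ _)

end C1

section Fr

variable {P Q : Polarized 𝒱} {f Φ : Module.End W.K (W.H P.X)} {f' Φ' : Module.End W.K (W.H Q.X)}

/-- Homogeneity is detected by the form. -/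
lemma mem_gr_of_bf (l : Loc W P f Φ) {i : ℕ} {z : W.H P.X}
    (h : ∀ m, m ≠ i → ∀ x ∈ W.gr P.X m, bf W P.X P.D f x z = 0) : z ∈ W.gr P.X i := by
  have hsum := sum_proj (W.isInternal P.X) (N := 2 * P.X.dim + 1) W_hbd
  have h2 := congrArg (fun G => G z) hsum
  simp only [LinearMap.sum_apply, Module.End.one_apply] at h2
  rw [← h2]
  apply Submodule.sum_mem
  intro m _
  by_cases hm : m = i
  · subst hm; exact proj_mem _ _ _
  · have h3 : proj (W.isInternal P.X) m z = 0 := by
      apply bf_nondeg' l.F l.t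
      intro y
      rw [← bf_proj l.F l.t]
      exact h m hm _ (proj_mem _ _ _)
    rw [h3]
    exact Submodule.zero_mem _

lemma mem_gr_of_bf' (l : Loc W P f Φ) {i : ℕ} {z : W.H P.X}
    (h : ∀ m, m ≠ i → ∀ x ∈ W.gr P.X m, bf W P.X P.D f z x = 0) : z ∈ W.gr P.X i := by
  have hsum := sum_proj (W.isInternal P.X) (N := 2 * P.X.dim + 1) W_hbd
  have h2 := congrArg (fun G => G z) hsum
  simp only [LinearMap.sum_apply, Module.End.one_apply] at h2
  rw [← h2]
  apply Submodule.sum_mem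
  intro m _
  by_cases hm : m = i
  · subst hm; exact proj_mem _ _ _
  · have h3 : proj (W.isInternal P.X) m z = 0 := by
      apply bf_nondeg_left l
      intro y
      rw [bf_proj l.F l.t]
      exact h m hm _ (proj_mem _ _ _)
    rw [h3]
    exact Submodule.zero_mem _

lemma HB.repr_deg {Y : 𝒱.Obj} (bY : HB W Y) {d : ℕ} {y : W.H Y} (hy : y ∈ W.gr Y d)
    {q : Fin bY.N} (hq : bY.dg q ≠ d) : bY.e.repr y q = 0 := by
  classical
  have h1 : y = ∑ p, bY.e.repr y p • proj (W.isInternal Y) d (bY.e p) := by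
    conv_lhs => rw [← proj_same (W.isInternal Y) hy, ← bY.e.sum_repr y]
    rw [map_sum]
    simp only [map_smul]
  have h2 : ∀ p, proj (W.isInternal Y) d (bY.e p) =
      (if bY.dg p = d then (1 : W.K) else 0) • bY.e p := by
    intro p
    by_cases h0 : bY.dg p = d
    · rw [if_pos h0, one_smul]
      exact proj_same _ (h0 ▸ bY.mem p)
    · rw [if_neg h0, zero_smul]
      exact proj_ne _ (bY.mem p) h0
  rw [h1]
  simp only [h2, map_sum, map_smul, Module.Basis.repr_self, smul_smul]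
  rw [Finsupp.finsetSum_apply, Finset.sum_eq_single q]
  · rw [if_neg hq]; simp
  · intro p _ hp
    rw [Finsupp.smul_apply, Finsupp.single_eq_of_ne (Ne.symm hp), smul_zero]
  · intro h0; exact absurd (Finset.mem_univ _) h0

/-- The adjoint of an operator concentrated in degree one. -/
lemma C1.adj (l : Loc W P f Φ) (l' : Loc W Q f' Φ') {u : W.H P.X →ₗ[W.K] W.H Q.X}
    (h : C1 W P.X Q.X u) : ∃ u', C1 W Q.X P.X u' ∧
      ∀ a b, bf W Q.X Q.D f' (u a) b = bf W P.X P.D f a (u' b) := by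
  obtain ⟨v, hv, hv'⟩ := h.1.adj
  have hadj : ∀ a b, bf W Q.X Q.D f' (u a) b =
      bf W P.X P.D f a ((st W P.X P.D f ∘ₗ v ∘ₗ st W Q.X Q.D f') b) := by
    intro a b
    rw [bf_apply, hv', bf_apply]
    congr 2
    simp only [LinearMap.comp_apply]
    rw [← Module.End.mul_apply (st W P.X P.D f), l.st_st, Module.End.one_apply]
  refine ⟨_, ⟨(st_aop l.F l.ap).comp (hv.comp (st_aop l'.F l'.ap)), ?_, ?_⟩, hadj⟩
  · intro i hi b hb
    apply bf_nondeg' l.F l.t
    intro y
    rw [← hadj]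
    refine gr_induction (W.isInternal P.X) (p := fun y => bf W Q.X Q.D f' (u y) b = 0) ?_ ?_ y
    · intro m y hy
      by_cases hm : m = 1
      · subst hm
        exact l'.F.bf_deg (h.2.2 y hy) hb (Ne.symm hi)
      · rw [h.2.1 m hm y hy, map_zero, LinearMap.zero_apply]
    · intro y z hy hz
      rw [map_add, map_add, LinearMap.add_apply, hy, hz, add_zero]
  · intro b hb
    apply mem_gr_of_bf l
    intro m hm x hx
    rw [← hadj, h.2.1 m hm x hx, map_zero, LinearMap.zero_apply]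

lemma ext_add_left {X Y : 𝒱.Obj} (a a' : W.H X) (b : W.H Y) :
    ext W (a + a') b = ext W a b + ext W a' b := by
  simp only [ext, map_add, add_mul]

lemma ext_smul_left {X Y : 𝒱.Obj} (c : W.K) (a : W.H X) (b : W.H Y) :
    ext W (c • a) b = c • ext W a b := by
  simp only [ext, map_smul, smul_mul_assoc]

lemma ext_zero_left {X Y : 𝒱.Obj} (b : W.H Y) : ext W (0 : W.H X) b = 0 := by
  simp only [ext, map_zero, zero_mul]

/-- The class of an operator concentrated in degree one. -/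
lemma C1.class (l : Loc W P f Φ) {c : W.H (P.X.prod Q.X)}
    (hc : AS W _ c) (h : C1 W P.X Q.X (th W P.D f c)) :
    c ∈ Submodule.span W.K {x | ∃ a ∈ W.gr P.X 1, ∃ b ∈ W.gr Q.X 1, x = ext W a b} := by
  classical
  obtain ⟨bX⟩ := exists_HB W P.X
  obtain ⟨bY⟩ := exists_HB W Q.X
  set w : Fin bY.N → W.H P.X := fun q => ∑ p, (bX.ex bY).repr c (p, q) • bX.e p with hw
  have h1 : c = ∑ q, ext W (w q) (bY.e q) := by
    conv_lhs => rw [← (bX.ex bY).sum_repr c]
    rw [Fintype.sum_prod_type, Finset.sum_comm]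
    apply Finset.sum_congr rfl
    intro q _
    have h2 : ∀ s : Finset (Fin bX.N), ext W (∑ p ∈ s, (bX.ex bY).repr c (p, q) • bX.e p) (bY.e q)
        = ∑ p ∈ s, (bX.ex bY).repr c (p, q) • bX.ex bY (p, q) := by
      intro s
      induction s using Finset.induction_on with
      | empty => rw [Finset.sum_empty, Finset.sum_empty, ext_zero_left]
      | insert p s hp ih =>
        rw [Finset.sum_insert hp, Finset.sum_insert hp, ext_add_left, ih, ext_smul_left,
          HB.ex_apply]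
    exact (h2 _).symm
  have h2 : ∀ z q, bY.e.repr (th W P.D f c z) q = bf W P.X P.D f (w q) z := by
    intro z q
    rw [th_coord l.F bX bY hc, map_sum, Finsupp.finsetSum_apply, Fintype.sum_prod_type, hw]
    beta_reduce
    rw [map_sum (bf W P.X P.D f), LinearMap.sum_apply]
    apply Finset.sum_congr rfl
    intro p _
    rw [Finset.sum_eq_single q]
    · rw [map_smul, Module.Basis.repr_self, Finsupp.smul_apply, Finsupp.single_eq_same,
        map_smul, LinearMap.smul_apply, smul_eq_mul, smul_eq_mul, mul_one]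
    · intro q' _ hq
      rw [map_smul, Module.Basis.repr_self, Finsupp.smul_apply,
        Finsupp.single_eq_of_ne (Ne.symm hq), smul_zero]
    · intro h0; exact absurd (Finset.mem_univ _) h0
  -- the vectors `w q` are of degree one
  have h3 : ∀ q, w q ∈ W.gr P.X 1 := by
    intro q
    apply mem_gr_of_bf' l
    intro m hm x hx
    rw [← h2 x q, h.2.1 m hm x hx, map_zero, Finsupp.zero_apply]
  have h4 : ∀ z, th W P.D f c z ∈ W.gr Q.X 1 := by
    intro z
    refine gr_induction (W.isInternal P.X) (p := fun z => th W P.D f c z ∈ W.gr Q.X 1) ?_ ?_ z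
    · intro m y hy
      by_cases hm : m = 1
      · subst hm; exact h.2.2 y hy
      · rw [h.2.1 m hm y hy]; exact Submodule.zero_mem _
    · intro y z hy hz
      rw [map_add]; exact Submodule.add_mem _ hy hz
  rw [h1]
  apply Submodule.sum_mem
  intro q _
  by_cases hq : bY.dg q = 1
  · exact Submodule.subset_span ⟨_, h3 q, _, hq ▸ bY.mem q, rfl⟩
  · have h5 : w q = 0 := by
      apply bf_nondeg_left l
      intro y
      rw [← h2, bY.repr_deg (h4 y) hq]
    rw [h5, ext_zero_left]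
    exact Submodule.zero_mem _

/-- **Positivity of the trace on the operators concentrated in degree one.** -/
theorem C1.pos (l : Loc W P f Φ) (l' : Loc W Q f' Φ')
    (hI : HodgeIndex W (P.prod ops Q).X (P.prod ops Q).D) {u : W.H P.X →ₗ[W.K] W.H Q.X}
    (h : C1 W P.X Q.X u) (hu : u ≠ 0) {u' : W.H Q.X →ₗ[W.K] W.H P.X}
    (hadj : ∀ a b, bf W Q.X Q.D f' (u a) b = bf W P.X P.D f a (u' b)) :
    ∃ q : ℚ, 0 < q ∧ LinearMap.trace W.K (W.H P.X) (u' ∘ₗ u) = q := by
  classical
  obtain ⟨c, hc, hc'⟩ := h.1.comp ((st_aop l.F l.ap).mul (par_aop l.ap))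
  have hth : th W P.D f c = u := by
    rw [th, hc']
    change u ∘ₗ ((st W P.X P.D f * H914.par (W.isInternal P.X)) *
      (H914.par (W.isInternal P.X) * st W P.X P.D f)) = u
    rw [mul_assoc, ← mul_assoc (H914.par (W.isInternal P.X)), par_mul_par, one_mul, l.st_st]
    rfl
  have hc0 : c ≠ 0 := by
    rintro rfl
    apply hu
    rw [← hth, th, corr_zero, LinearMap.zero_comp]
  have hspan := C1.class l hc (by rw [hth]; exact h)
  have hgr : c ∈ W.gr (P.X.prod Q.X) (2 * 1) := by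
    refine Submodule.span_le.2 ?_ hspan
    rintro x ⟨a, ha, b, hb, rfl⟩
    have := W.mul_mem (W.map_mem (fst P.X Q.X) ha) (W.map_mem (snd P.X Q.X) hb)
    exact this
  have hfc : extSum W f f' c = 0 := by
    have : c ∈ LinearMap.ker (extSum W f f') := by
      refine Submodule.span_le.2 ?_ hspan
      rintro x ⟨a, ha, b, hb, rfl⟩
      rw [SetLike.mem_coe, LinearMap.mem_ker, ext, extSum_tmul, (l.F.f_gr ha).2 (by norm_num),
        (l'.F.f_gr hb).2 (by norm_num)]
      simp
    exact this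
  -- the dimensions
  have hdim : ∃ a ∈ W.gr P.X 1, ∃ b ∈ W.gr Q.X 1, ext W a b ≠ 0 := by
    by_contra h0
    push Not at h0
    apply hc0
    have : c ∈ (⊥ : Submodule W.K (W.H (P.X.prod Q.X))) := by
      refine Submodule.span_le.2 ?_ hspan
      rintro x ⟨a, ha, b, hb, rfl⟩
      exact h0 a ha b hb
    exact (Submodule.mem_bot _).1 this
  obtain ⟨a, ha, b, hb, hab⟩ := hdim
  have hd1 : 1 ≤ P.X.dim := by
    by_contra h0
    rw [W.gr_eq_bot _ _ (by omega)] at ha
    apply hab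
    rw [(Submodule.mem_bot _).1 ha, ext_zero_left]
  have hd2 : 1 ≤ Q.X.dim := by
    by_contra h0
    rw [W.gr_eq_bot _ _ (by omega)] at hb
    apply hab
    rw [(Submodule.mem_bot _).1 hb]
    simp [ext]
  have hd : 2 ≤ (P.X.prod Q.X).dim := by rw [dim_prod]; omega
  obtain ⟨z, hz, rfl⟩ := hc.alg hgr
  have G := l.F.prod l'.F
  have hprim : W.cl (P.X.prod Q.X) (divPow ops (ops.pull (fst P.X Q.X) P.D +
      ops.pull (snd P.X Q.X) Q.D) ((P.X.prod Q.X).dim - 2 * 1 + 1) z) = 0 := by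
    rw [cl_divPow]
    have hwt : wt (W.isInternal (P.X.prod Q.X)) (P.X.prod Q.X).dim (W.cl (P.X.prod Q.X) z) =
        -(((P.X.prod Q.X).dim - 2 * 1 : ℕ) : W.K) • W.cl (P.X.prod Q.X) z := by
      rw [Fr.wt_gr hgr]
      congr 1
      rw [Nat.cast_sub (by omega)]
      push_cast
      ring
    exact Sl2.e_pow_zero G.sl2 hfc hwt (Nat.lt_succ_self _)
  have h1 := G.form_prim (j := 1) hd hz hprim
  have h2 := hI hd z hz (by
    rw [show (P.prod ops Q).X.dim - 1 = (P.X.prod Q.X).dim - 2 * 1 + 1 by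
      change (P.X.prod Q.X).dim - 1 = _
      omega]
    exact hprim) hc0
  have h5 : LinearMap.trace W.K (W.H P.X) (u' ∘ₗ u) =
      bf W (P.X.prod Q.X) (ops.pull (fst P.X Q.X) P.D + ops.pull (snd P.X Q.X) Q.D)
        (extSum W f f') (W.cl (P.X.prod Q.X) z) (W.cl (P.X.prod Q.X) z) := by
    rw [← hth]
    exact trace_th l.F l'.F hc (fun a b => by rw [hth]; exact hadj a b)
  rw [h1] at h5
  refine ⟨_, ?_, h5⟩
  have h3 : (0 : ℚ) < (((P.X.prod Q.X).dim - 2 * 1).factorial : ℚ)⁻¹ := by positivity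
  have h4 : ((P.X.prod Q.X).V.degCycle (ops.mul z (divPow ops (ops.pull (fst P.X Q.X) P.D +
    ops.pull (snd P.X Q.X) Q.D) ((P.X.prod Q.X).dim - 2 * 1) z)) : ℚ) < 0 := h2
  nlinarith

end Fr

end Pool.Agent.W552
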