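import Pool.Agent.W552.AvGen

/-!
# Conjugation relations and positivity
-/

open scoped ComplexOrder

universe v

namespace Pool.Agent.W552

section Psd

variable {ι : Type*} [Fintype ι]

/-- A rational positive semidefinite form is positive semidefinite over the real numbers. -/
lemma psd_real {g : ι → ι → ℚ} (hp : ∀ r : ι → ℚ, 0 ≤ ∑ i, ∑ j, r i * r j * g i j)
    (r : ι → ℝ) : 0 ≤ ∑ i, ∑ j, r i * r j * g i j := by
  have hd : DenseRange (fun (r : ι → ℚ) (i : ι) => ((r i : ℚ) : ℝ)) := by
    apply DenseRange.piMap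
    intro i
    exact Rat.denseRange_cast
  have hc : IsClosed {r : ι → ℝ | 0 ≤ ∑ i, ∑ j, r i * r j * (g i j : ℝ)} := by
    apply isClosed_le continuous_const
    fun_prop
  have h1 : ∀ r : ι → ℝ, r ∈ {r : ι → ℝ | 0 ≤ ∑ i, ∑ j, r i * r j * (g i j : ℝ)} := by
    intro r
    refine hd.induction_on (p := fun r => r ∈ {r : ι → ℝ | 0 ≤ ∑ i, ∑ j, r i * r j * (g i j : ℝ)})
      r hc ?_
    intro s
    have := hp s
    change (0 : ℝ) ≤ ∑ i, ∑ j, (s i : ℝ) * (s j : ℝ) * (g i j : ℝ)
    exact_mod_cast this
  exact h1 r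

/-- A rational positive semidefinite form gives a positive semidefinite hermitian form. -/
lemma psd_complex {g : ι → ι → ℚ} (hs : ∀ i j, g i j = g j i)
    (hp : ∀ r : ι → ℚ, 0 ≤ ∑ i, ∑ j, r i * r j * g i j) (c : ι → ℂ) :
    0 ≤ ∑ i, ∑ j, c i * (starRingEnd ℂ (c j)) * (g i j : ℂ) := by
  have h1 := psd_real hp (fun i => (c i).re)
  have h2 := psd_real hp (fun i => (c i).im)
  have h3 : ∑ i, ∑ j, c i * (starRingEnd ℂ (c j)) * (g i j : ℂ) =
      (((∑ i, ∑ j, (c i).re * (c j).re * (g i j : ℝ)) +
        ∑ i, ∑ j, (c i).im * (c j).im * (g i j : ℝ) : ℝ) : ℂ) := by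
    have h4 : ∑ i, ∑ j, c i * (starRingEnd ℂ (c j)) * (g i j : ℂ) =
        ∑ i, ∑ j, ((((c i).re * (c j).re + (c i).im * (c j).im) * (g i j : ℝ) : ℝ) : ℂ) +
        Complex.I * (∑ i, ∑ j, (((c i).im * (c j).re * (g i j : ℝ) : ℝ) : ℂ) -
          ∑ i, ∑ j, (((c j).im * (c i).re * (g i j : ℝ) : ℝ) : ℂ)) := by
      rw [← Finset.sum_sub_distrib, Finset.mul_sum, ← Finset.sum_add_distrib]
      apply Finset.sum_congr rfl
      intro i _
      rw [← Finset.sum_sub_distrib, Finset.mul_sum, ← Finset.sum_add_distrib]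
      apply Finset.sum_congr rfl
      intro j _
      have e1 : ((g i j : ℚ) : ℂ) = ((g i j : ℝ) : ℂ) := by push_cast; rfl
      apply Complex.ext
      · rw [e1]; simp
      · rw [e1]; simp; ring
    have h5 : ∑ i, ∑ j, (((c i).im * (c j).re * (g i j : ℝ) : ℝ) : ℂ) =
          ∑ i, ∑ j, (((c j).im * (c i).re * (g i j : ℝ) : ℝ) : ℂ) := by
      rw [Finset.sum_comm]
      apply Finset.sum_congr rfl
      intro i _
      apply Finset.sum_congr rfl
      intro j _
      rw [hs]
    rw [h4, h5, sub_self, mul_zero, add_zero, Complex.ofReal_add]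
    push_cast
    rw [← Finset.sum_add_distrib]
    apply Finset.sum_congr rfl
    intro i _
    rw [← Finset.sum_add_distrib]
    apply Finset.sum_congr rfl
    intro j _
    ring
  rw [h3]
  exact_mod_cast add_nonneg h1 h2

end Psd

section Rel

variable {K : Type v} [Field K] {V : Type*} [AddCommGroup V] [Module K V]

/-- The pair `(x, y)` is a sum of pairs `(c z, κ(c) z)`, where `z` has the property `M`. -/
inductive Rel (κ : K →+* K) (M : V → Prop) : V → V → Prop
  | of (c : K) {z : V} : M z → Rel κ M (c • z) (κ c • z)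
  | zero : Rel κ M 0 0
  | add {x y x' y' : V} : Rel κ M x y → Rel κ M x' y' → Rel κ M (x + x') (y + y')

namespace Rel

variable {κ : K →+* K} {M : V → Prop} {V' : Type*} [AddCommGroup V'] [Module K V']
  {M' : V' → Prop}

lemma self {z : V} (hz : M z) : Rel κ M z z := by
  have := Rel.of (κ := κ) 1 hz
  rwa [map_one, one_smul] at this

lemma smul (c : K) {x y : V} (h : Rel κ M x y) : Rel κ M (c • x) (κ c • y) := by
  induction h with
  | of c' hz => rw [smul_smul, smul_smul, ← map_mul]; exact Rel.of _ hz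
  | zero => rw [smul_zero, smul_zero]; exact Rel.zero
  | add _ _ h h' => rw [smul_add, smul_add]; exact h.add h'

lemma neg {x y : V} (h : Rel κ M x y) : Rel κ M (-x) (-y) := by
  have := h.smul (-1)
  rwa [map_neg, map_one, neg_one_smul, neg_one_smul] at this

lemma sub {x y x' y' : V} (h : Rel κ M x y) (h' : Rel κ M x' y') :
    Rel κ M (x - x') (y - y') := by
  rw [sub_eq_add_neg, sub_eq_add_neg]
  exact h.add h'.neg

lemma symm (hκ : ∀ c, κ (κ c) = c) {x y : V} (h : Rel κ M x y) : Rel κ M y x := by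
  induction h with
  | of c hz =>
    have := Rel.of (κ := κ) (κ c) hz
    rwa [hκ] at this
  | zero => exact Rel.zero
  | add _ _ h h' => exact h.add h'

lemma map (φ : V →ₗ[K] V') (hφ : ∀ z, M z → M' (φ z)) {x y : V} (h : Rel κ M x y) :
    Rel κ M' (φ x) (φ y) := by
  induction h with
  | of c hz => rw [map_smul, map_smul]; exact Rel.of c (hφ _ hz)
  | zero => rw [map_zero]; exact Rel.zero
  | add _ _ h h' => rw [map_add, map_add]; exact h.add h'

lemma mono {M' : V → Prop} (hM : ∀ z, M z → M' z) {x y : V} (h : Rel κ M x y) :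
    Rel κ M' x y := h.map (M' := M') LinearMap.id hM

lemma sum {ι : Type*} (s : Finset ι) {x y : ι → V} (h : ∀ i ∈ s, Rel κ M (x i) (y i)) :
    Rel κ M (∑ i ∈ s, x i) (∑ i ∈ s, y i) := by
  classical
  induction s using Finset.induction_on with
  | empty => rw [Finset.sum_empty, Finset.sum_empty]; exact Rel.zero
  | insert a s ha ih =>
    rw [Finset.sum_insert ha, Finset.sum_insert ha]
    exact (h a (by simp)).add (ih (fun i hi => h i (by simp [hi])))

lemma span {x y : V} (h : Rel κ M x y) : x ∈ Submodule.span K {z | M z} := by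
  induction h with
  | of c hz => exact Submodule.smul_mem _ _ (Submodule.subset_span hz)
  | zero => exact Submodule.zero_mem _
  | add _ _ h h' => exact Submodule.add_mem _ h h'

lemma poly {T : Module.End K V} (hT : ∀ z, M z → M (T z)) {x y : V} (h : Rel κ M x y)
    (p : Polynomial K) :
    Rel κ M (Polynomial.aeval T p x) (Polynomial.aeval T (p.map κ) y) := by
  induction p using Polynomial.induction_on' with
  | add p q hp hq =>
    rw [map_add, Polynomial.map_add, map_add, LinearMap.add_apply, LinearMap.add_apply]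
    exact hp.add hq
  | monomial m c =>
    rw [Polynomial.map_monomial, Polynomial.aeval_monomial, Polynomial.aeval_monomial,
      Module.End.mul_apply, Module.End.mul_apply, Module.algebraMap_end_apply,
      Module.algebraMap_end_apply]
    apply Rel.smul
    induction m with
    | zero => simpa using h
    | succ m ih =>
      rw [pow_succ', Module.End.mul_apply, Module.End.mul_apply]
      exact ih.map T hT

lemma orth {β : V →ₗ[K] V →ₗ[K] K} {w : V} (hβ : ∀ z, M z → κ (β z w) = β z w) {x y : V}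
    (h : Rel κ M x y) : β y w = κ (β x w) := by
  induction h with
  | of c hz =>
    rw [map_smul, map_smul, LinearMap.smul_apply, LinearMap.smul_apply, smul_eq_mul, smul_eq_mul,
      map_mul, hβ _ hz]
  | zero => simp
  | add _ _ h h' =>
    rw [map_add, map_add, LinearMap.add_apply, LinearMap.add_apply, h, h', map_add]

lemma mul {A : Type*} [Ring A] [Algebra K A] {M : A → Prop}
    (hM : ∀ z z', M z → M z' → M (z * z')) {x y x' y' : A} (h : Rel κ M x y)
    (h' : Rel κ M x' y') : Rel κ M (x * x') (y * y') := by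
  induction h with
  | of c hz =>
    rename_i z
    induction h' with
    | of c' hz' =>
      rw [smul_mul_smul_comm, smul_mul_smul_comm, ← map_mul]
      exact Rel.of _ (hM _ _ hz hz')
    | zero => rw [mul_zero, mul_zero]; exact Rel.zero
    | add _ _ h h' => rw [mul_add, mul_add]; exact h.add h'
  | zero => rw [zero_mul, zero_mul]; exact Rel.zero
  | add _ _ h h' => rw [add_mul, add_mul]; exact h.add h'

/-- A representation of the pair. -/
lemma repr {x y : V} (h : Rel κ M x y) : ∃ (n : ℕ) (c : Fin n → K) (z : Fin n → V),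
    (∀ i, M (z i)) ∧ x = ∑ i, c i • z i ∧ y = ∑ i, κ (c i) • z i := by
  induction h with
  | of c hz =>
    rename_i z
    exact ⟨1, fun _ => c, fun _ => z, fun _ => hz, by simp, by simp⟩
  | zero => exact ⟨0, Fin.elim0, Fin.elim0, fun i => i.elim0, by simp, by simp⟩
  | add _ _ h h' =>
    obtain ⟨n, c, z, h1, h2, h3⟩ := h
    obtain ⟨n', c', z', h1', h2', h3'⟩ := h'
    refine ⟨n + n', Fin.append c c', Fin.append z z', ?_, ?_, ?_⟩
    · intro i
      refine Fin.addCases ?_ ?_ i
      · intro i; rw [Fin.append_left]; exact h1 i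
      · intro i; rw [Fin.append_right]; exact h1' i
    · rw [Fin.sum_univ_add]
      simp only [Fin.append_left, Fin.append_right]
      rw [← h2, ← h2']
    · rw [Fin.sum_univ_add]
      simp only [Fin.append_left, Fin.append_right]
      rw [← h3, ← h3']

/-- **Positivity.** -/
theorem pos [CharZero K] (σ : K ≃+* ℂ) (hκ : ∀ c, σ (κ c) = starRingEnd ℂ (σ c))
    (hM : RatSub K M)
    {β : V →ₗ[K] V →ₗ[K] K} (hsymm : ∀ z w, M z → M w → β z w = β w z)
    (hrat : ∀ z w, M z → M w → ∃ q : ℚ, β z w = q)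
    (hpos : ∀ z, M z → ∃ q : ℚ, 0 ≤ q ∧ β z z = q) {x y : V} (h : Rel κ M x y) :
    0 ≤ σ (β x y) := by
  obtain ⟨n, c, z, h1, rfl, rfl⟩ := h.repr
  choose g hg using fun i j => hrat (z i) (z j) (h1 i) (h1 j)
  have h2 : β (∑ i, c i • z i) (∑ i, κ (c i) • z i) =
      ∑ i, ∑ j, c i * κ (c j) * (g i j : K) := by
    rw [map_sum β, LinearMap.sum_apply]
    apply Finset.sum_congr rfl
    intro i _
    rw [map_sum]
    apply Finset.sum_congr rfl
    intro j _
    rw [map_smul, map_smul, LinearMap.smul_apply, hg]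
    simp only [smul_eq_mul]
    ring
  have h3 : σ (β (∑ i, c i • z i) (∑ i, κ (c i) • z i)) =
      ∑ i, ∑ j, σ (c i) * starRingEnd ℂ (σ (c j)) * (g i j : ℂ) := by
    rw [h2, map_sum]
    apply Finset.sum_congr rfl
    intro i _
    rw [map_sum]
    apply Finset.sum_congr rfl
    intro j _
    rw [map_mul, map_mul, hκ, map_ratCast]
  rw [h3]
  apply psd_complex
  · intro i j
    have h4 := hg i j
    rw [hsymm _ _ (h1 i) (h1 j), hg j i] at h4
    exact (Rat.cast_injective h4).symm
  · intro r
    obtain ⟨q, hq, hq'⟩ := hpos (∑ i, (r i : K) • z i) (hM.sum _ (fun i _ => hM.smul _ (h1 i)))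
    have h4 : β (∑ i, (r i : K) • z i) (∑ i, (r i : K) • z i) =
        ((∑ i, ∑ j, r i * r j * g i j : ℚ) : K) := by
      rw [map_sum β, LinearMap.sum_apply, Rat.cast_sum]
      apply Finset.sum_congr rfl
      intro i _
      rw [map_sum, Rat.cast_sum]
      apply Finset.sum_congr rfl
      intro j _
      rw [map_smul, map_smul, LinearMap.smul_apply, hg]
      simp only [smul_eq_mul]
      push_cast
      ring
    rw [h4] at hq'
    have h5 : (∑ i, ∑ j, r i * r j * g i j : ℚ) = q := Rat.cast_injective hq'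
    rw [h5]
    exact hq

end Rel

end Rel

end Pool.Agent.W552
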