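import Pool.Agent.W552.AvPsd

/-!
# Conjugation relations and the components of a diagonalizable operator
-/

open scoped ComplexOrder
open Polynomial

universe v

namespace Pool.Agent.W552

variable {K : Type v} [Field K] {A : Type*} [Ring A] [Algebra K A]
  {J : Type*} [Fintype J] [DecidableEq J]

/-- A diagonalizable operator with simple spectrum, commuting with a semilinear ring
endomorphism. -/
structure SD (σ : K ≃+* ℂ) (T : Module.End K A) (C : A →+* A) (β : A →ₗ[K] A →ₗ[K] K)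
    (m : J → A) (ω : J → K) : Prop where
  inj : Function.Injective ω
  eig : ∀ j, T (m j) = ω j • m j
  span : ∀ x, x ∈ Submodule.span K (Set.range m)
  semi : ∀ (c : K) x, C (c • x) = kap σ c • C x
  comm : ∀ x, C (T x) = T (C x)
  orth : ∀ i j, i ≠ j → β (m i) (C (m j)) = 0
  pos : ∀ j, 0 < σ (β (m j) (C (m j)))
  nd : ∀ y, (∀ x, β x y = 0) → y = 0

/-- The projection onto an eigenline. -/
noncomputable def Ej (T : Module.End K A) (ω : J → K) (j : J) : Module.End K A :=
  aeval T (Lagrange.basis Finset.univ ω j)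

/-- The conjugate projection. -/
noncomputable def Ek (σ : K ≃+* ℂ) (T : Module.End K A) (ω : J → K) (j : J) : Module.End K A :=
  aeval T ((Lagrange.basis Finset.univ ω j).map (kap σ))

/-- The elements which satisfy the conjugation relation with a constant with the property `Q`. -/
def Gq (σ : K ≃+* ℂ) (M : A → Prop) (C : A →+* A) (Q : K → Prop) (x : A) : Prop :=
  ∃ r, Q r ∧ Rel (kap σ) M x (r • C x)

namespace SD

variable {σ : K ≃+* ℂ} {T : Module.End K A} {C : A →+* A} {β : A →ₗ[K] A →ₗ[K] K}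
  {m : J → A} {ω : J → K} (h : SD σ T C β m ω)

include h

lemma E_m (i j : J) : Ej T ω j (m i) = if i = j then m i else 0 := by
  rw [Ej, aeval_eig (h.eig i)]
  by_cases hij : i = j
  · subst hij
    rw [if_pos rfl, Lagrange.eval_basis_self h.inj.injOn (Finset.mem_univ _), one_smul]
  · rw [if_neg hij, Lagrange.eval_basis_of_ne (Ne.symm hij) (Finset.mem_univ _), zero_smul]

omit [DecidableEq J] in
lemma expand (x : A) : ∃ a : J → K, x = ∑ i, a i • m i := by
  obtain ⟨a, ha⟩ := (Submodule.mem_span_range_iff_exists_fun K).1 (h.span x)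
  exact ⟨a, ha.symm⟩

lemma E_sum' (a : J → K) (j : J) : Ej T ω j (∑ i, a i • m i) = a j • m j := by
  rw [map_sum, Finset.sum_eq_single j]
  · rw [map_smul, h.E_m, if_pos rfl]
  · intro i _ hi
    rw [map_smul, h.E_m, if_neg hi, smul_zero]
  · intro h0; exact absurd (Finset.mem_univ _) h0

lemma E_mem (x : A) (j : J) : ∃ a : K, Ej T ω j x = a • m j := by
  obtain ⟨a, rfl⟩ := h.expand x
  exact ⟨a j, h.E_sum' a j⟩

lemma E_sum (x : A) : ∑ j, Ej T ω j x = x := by
  obtain ⟨a, rfl⟩ := h.expand x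
  exact Finset.sum_congr rfl (fun j _ => h.E_sum' a j)

omit [Fintype J] [DecidableEq J] in
lemma C_aeval (p : K[X]) (x : A) : aeval T (p.map (kap σ)) (C x) = C (aeval T p x) := by
  induction p using Polynomial.induction_on' with
  | add p q hp hq =>
    rw [Polynomial.map_add, map_add, map_add, LinearMap.add_apply, LinearMap.add_apply, hp, hq,
      map_add]
  | monomial m c =>
    rw [Polynomial.map_monomial, Polynomial.aeval_monomial, Polynomial.aeval_monomial,
      Module.End.mul_apply, Module.End.mul_apply, Module.algebraMap_end_apply,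
      Module.algebraMap_end_apply, h.semi]
    congr 1
    induction m with
    | zero => simp
    | succ m ih =>
      rw [pow_succ', Module.End.mul_apply, Module.End.mul_apply, h.comm, ih]

lemma Ek_C (j : J) (x : A) : Ek σ T ω j (C x) = C (Ej T ω j x) := h.C_aeval _ x

omit [DecidableEq J] in
lemma C_expand (y : A) : ∃ b : J → K, y = ∑ i, b i • C (m i) := by
  have hne : ∀ j, β (m j) (C (m j)) ≠ 0 := by
    intro j h0
    have := h.pos j
    rw [h0, map_zero] at this
    exact lt_irrefl _ this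
  refine ⟨fun i => β (m i) y / β (m i) (C (m i)), ?_⟩
  rw [← sub_eq_zero]
  apply h.nd
  intro x
  obtain ⟨a, rfl⟩ := h.expand x
  rw [map_sum, LinearMap.sum_apply]
  apply Finset.sum_eq_zero
  intro i _
  rw [map_smul, LinearMap.smul_apply, map_sub, map_sum, Finset.sum_eq_single i]
  · rw [map_smul]
    beta_reduce
    rw [smul_eq_mul (_ / _), div_mul_cancel₀ _ (hne i), sub_self, smul_zero]
  · intro j _ hj
    rw [map_smul, h.orth _ _ (Ne.symm hj), smul_zero]
  · intro h0; exact absurd (Finset.mem_univ _) h0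

lemma Ek_sum' (b : J → K) (j : J) : Ek σ T ω j (∑ i, b i • C (m i)) = b j • C (m j) := by
  rw [map_sum, Finset.sum_eq_single j]
  · rw [map_smul, h.Ek_C, h.E_m, if_pos rfl]
  · intro i _ hi
    rw [map_smul, h.Ek_C, h.E_m, if_neg hi, map_zero, smul_zero]
  · intro h0; exact absurd (Finset.mem_univ _) h0

lemma Ek_mem (y : A) (j : J) : ∃ b : K, Ek σ T ω j y = b • C (m j) := by
  obtain ⟨b, rfl⟩ := h.C_expand y
  exact ⟨b j, h.Ek_sum' b j⟩

lemma Ek_sum (y : A) : ∑ j, Ek σ T ω j y = y := by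
  obtain ⟨b, rfl⟩ := h.C_expand y
  exact Finset.sum_congr rfl (fun j _ => h.Ek_sum' b j)

omit [Fintype J] [DecidableEq J] in
/-- The hermitian form on an eigenline. -/
lemma herm (a : K) (j : J) : σ (β (a • m j) (C (a • m j))) =
    ((Complex.normSq (σ a) : ℝ) : ℂ) * σ (β (m j) (C (m j))) := by
  have h1 : β (a • m j) (C (a • m j)) = a * kap σ a * β (m j) (C (m j)) := by
    rw [h.semi, map_smul, map_smul, LinearMap.smul_apply]
    simp only [smul_eq_mul]
    ring
  rw [h1, map_mul, map_mul, σ_kap, Complex.mul_conj]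

omit [Fintype J] [DecidableEq J] in
lemma herm_nonneg (a : K) (j : J) : 0 ≤ σ (β (a • m j) (C (a • m j))) := by
  rw [h.herm]
  exact mul_nonneg (by exact_mod_cast Complex.normSq_nonneg _) (h.pos j).le

omit [Fintype J] [DecidableEq J] in
lemma herm_pos {a : K} {j : J} (ha : a • m j ≠ 0) : 0 < σ (β (a • m j) (C (a • m j))) := by
  rw [h.herm]
  refine mul_pos ?_ (h.pos j)
  have h1 : σ a ≠ 0 := by
    intro h0
    apply ha
    rw [map_eq_zero] at h0
    rw [h0, zero_smul]
  exact_mod_cast Complex.normSq_pos.2 h1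

variable {M : A → Prop}

/-- **The conjugation relation for the components.** -/
theorem claim [CharZero K] (hMT : ∀ z, M z → M (T z)) (hM : RatSub K M)
    (hsymm : ∀ z w, M z → M w → β z w = β w z)
    (hrat : ∀ z w, M z → M w → ∃ q : ℚ, β z w = q)
    (hpos : ∀ z, M z → ∃ q : ℚ, 0 ≤ q ∧ β z z = q) {x y : A} (hxy : Rel (kap σ) M x y) (j : J) :
    ∃ r : K, 0 ≤ σ r ∧ Rel (kap σ) M (Ej T ω j x) (r • C (Ej T ω j x)) ∧
      (Ej T ω j x ≠ 0 → r • C (Ej T ω j x) = Ek σ T ω j y) := by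
  by_cases h0 : Ej T ω j x = 0
  · refine ⟨1, by simp, ?_, fun h => absurd h0 h⟩
    rw [h0, map_zero, smul_zero]
    exact Rel.zero
  have h1 : Rel (kap σ) M (Ej T ω j x) (Ek σ T ω j y) := hxy.poly hMT _
  obtain ⟨a, ha⟩ := h.E_mem x j
  obtain ⟨b, hb⟩ := h.Ek_mem y j
  have ha0 : a • m j ≠ 0 := by rw [← ha]; exact h0
  have ha1 : kap σ a ≠ 0 := by
    intro h2
    apply ha0
    rw [map_eq_zero] at h2
    rw [h2, zero_smul]
  have h2 : (b / kap σ a) • C (Ej T ω j x) = Ek σ T ω j y := by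
    rw [ha, h.semi, smul_smul, div_mul_cancel₀ _ ha1, hb]
  refine ⟨b / kap σ a, ?_, ?_, fun _ => h2⟩
  · have h3 := h1.pos σ (fun c => σ_kap σ c) hM hsymm hrat hpos
    rw [← h2, map_smul, smul_eq_mul, map_mul, ha] at h3
    have h4 := h.herm_pos ha0
    by_contra h5
    apply h5
    have h6 : σ (b / kap σ a) = σ (b / kap σ a) * σ (β (a • m j) (C (a • m j))) *
        (σ (β (a • m j) (C (a • m j))))⁻¹ := by
      rw [mul_assoc, mul_inv_cancel₀ h4.ne', mul_one]
    rw [h6]
    exact mul_nonneg h3 (RCLike.inv_pos_of_pos h4).le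
  · rw [h2]; exact h1

/-- The components of an element of the span of `Gq` are in `Gq`. -/
lemma gq_comp {Q : K → Prop} (hQ1 : Q 1) (hMT : ∀ z, M z → M (T z)) {x : A}
    (hx : x ∈ Submodule.span K {x | Gq σ M C Q x}) (j : J) : Gq σ M C Q (Ej T ω j x) := by
  have hsm : ∀ (c : K) y, Gq σ M C Q y → Gq σ M C Q (c • y) := by
    rintro c y ⟨r, hr, hy⟩
    refine ⟨r, hr, ?_⟩
    rw [h.semi, smul_comm]
    exact hy.smul c
  induction hx using Submodule.span_induction with
  | mem y hy =>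
    obtain ⟨r, hr, hy⟩ := hy
    refine ⟨r, hr, ?_⟩
    have h1 := hy.poly hMT (Lagrange.basis Finset.univ ω j)
    rw [map_smul, h.C_aeval] at h1
    exact h1
  | zero => exact ⟨1, hQ1, by rw [map_zero, map_zero, smul_zero]; exact Rel.zero⟩
  | add y z _ _ hy hz =>
    obtain ⟨a, ha⟩ := h.E_mem y j
    obtain ⟨b, hb⟩ := h.E_mem z j
    by_cases h0 : a = 0
    · rw [map_add, ha, h0, zero_smul, zero_add]
      exact hz
    · have h1 : Ej T ω j (y + z) = (1 + b / a) • Ej T ω j y := by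
        rw [map_add, ha, hb, smul_smul, add_mul, one_mul, div_mul_cancel₀ _ h0, add_smul]
      rw [h1]
      exact hsm _ _ hy
  | smul c y _ hy =>
    rw [map_smul]
    exact hsm c _ hy

/-- The expansion of the form. -/
lemma form_expand {Q : K → Prop} (hQ1 : Q 1) (hMT : ∀ z, M z → M (T z))
    (hfix : ∀ z w, M z → M w → kap σ (β z w) = β z w) {z : A} (hz : M z)
    (hzs : z ∈ Submodule.span K {x | Gq σ M C Q x}) : ∃ r : J → K, (∀ j, Q (r j)) ∧
      (∀ w, M w → β z w = β (∑ j, r j • C (Ej T ω j z)) w) ∧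
      (∀ w, M w → β w z = β w (∑ j, r j • C (Ej T ω j z))) ∧
      β z (∑ j, r j • C (Ej T ω j z)) = ∑ j, r j * β (Ej T ω j z) (C (Ej T ω j z)) := by
  choose r hr hrel using fun j => h.gq_comp hQ1 hMT hzs j
  have h1 : ∀ j, Rel (kap σ) M (Ej T ω j z) (Ek σ T ω j z) := fun j =>
    (Rel.self hz).poly hMT _
  have h2 : Rel (kap σ) M 0 (z - ∑ j, r j • C (Ej T ω j z)) := by
    have h3 := Rel.sum Finset.univ (fun j _ => (h1 j).sub (hrel j))
    rw [Finset.sum_sub_distrib, Finset.sum_sub_distrib, sub_self, h.Ek_sum] at h3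
    exact h3
  refine ⟨r, hr, ?_, ?_, ?_⟩
  · intro w hw
    have h3 := h2.orth (β := β) (w := w) (fun z hz => hfix z w hz hw)
    rw [map_zero, LinearMap.zero_apply, map_zero, map_sub, LinearMap.sub_apply, sub_eq_zero] at h3
    exact h3
  · intro w hw
    have h3 := h2.orth (β := β.flip) (w := w) (fun z hz => hfix w z hw hz)
    rw [map_zero, LinearMap.zero_apply, map_zero, LinearMap.flip_apply, map_sub,
      sub_eq_zero] at h3
    exact h3
  · rw [map_sum]
    apply Finset.sum_congr rfl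
    intro j _
    rw [map_smul, smul_eq_mul]
    congr 1
    have h6 : β z (C (Ej T ω j z)) = β (∑ i, Ej T ω i z) (C (Ej T ω j z)) := by rw [h.E_sum]
    rw [h6, map_sum, LinearMap.sum_apply, Finset.sum_eq_single j]
    · intro i _ hi
      obtain ⟨a, ha⟩ := h.E_mem z i
      obtain ⟨b, hb⟩ := h.E_mem z j
      rw [ha, hb, h.semi, map_smul, map_smul, LinearMap.smul_apply, h.orth _ _ hi, smul_zero,
        smul_zero]
    · intro h0; exact absurd (Finset.mem_univ _) h0

/-- **Semipositivity.** -/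
theorem fin (hMT : ∀ z, M z → M (T z))
    (hfix : ∀ z w, M z → M w → kap σ (β z w) = β z w) {z : A} (hz : M z)
    (hzs : z ∈ Submodule.span K {x | Gq σ M C (fun r => 0 ≤ σ r) x}) :
    0 ≤ σ (β z z) ∧ (β z z = 0 → ∀ w, M w → β z w = 0) := by
  obtain ⟨r, hr, h1, h2, h3⟩ := h.form_expand (by simp) hMT hfix hz hzs
  have h4 : ∀ j, 0 ≤ σ (β (Ej T ω j z) (C (Ej T ω j z))) := by
    intro j
    obtain ⟨a, ha⟩ := h.E_mem z j
    rw [ha]
    exact h.herm_nonneg a j
  have h5 : σ (β z z) = ∑ j, σ (r j) * σ (β (Ej T ω j z) (C (Ej T ω j z))) := by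
    rw [h2 z hz, h3, map_sum]
    exact Finset.sum_congr rfl (fun j _ => map_mul σ _ _)
  refine ⟨?_, ?_⟩
  · rw [h5]
    exact Finset.sum_nonneg (fun j _ => mul_nonneg (hr j) (h4 j))
  · intro h0 w hw
    rw [h0, map_zero] at h5
    have h6 := (Finset.sum_eq_zero_iff_of_nonneg (fun j _ => mul_nonneg (hr j) (h4 j))).1 h5.symm
    rw [h1 w hw]
    have h7 : ∑ j, r j • C (Ej T ω j z) = 0 := by
      apply Finset.sum_eq_zero
      intro j _
      rcases mul_eq_zero.1 (h6 j (Finset.mem_univ _)) with h8 | h8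
      · rw [map_eq_zero] at h8
        rw [h8, zero_smul]
      · obtain ⟨a, ha⟩ := h.E_mem z j
        by_cases h9 : a • m j = 0
        · rw [ha, h9, map_zero, smul_zero]
        · exfalso
          rw [ha] at h8
          exact (h.herm_pos h9).ne' h8
    rw [h7, map_zero, LinearMap.zero_apply]

/-- **Positivity.** -/
theorem fin_pos (hMT : ∀ z, M z → M (T z))
    (hfix : ∀ z w, M z → M w → kap σ (β z w) = β z w) {z : A} (hz : M z)
    (hzs : z ∈ Submodule.span K {x | Gq σ M C (fun r => 0 < σ r) x}) (hz0 : z ≠ 0) :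
    0 < σ (β z z) := by
  obtain ⟨r, hr, h1, h2, h3⟩ := h.form_expand (by simp) hMT hfix hz hzs
  have h4 : ∀ j, 0 ≤ σ (β (Ej T ω j z) (C (Ej T ω j z))) := by
    intro j
    obtain ⟨a, ha⟩ := h.E_mem z j
    rw [ha]
    exact h.herm_nonneg a j
  have h5 : σ (β z z) = ∑ j, σ (r j) * σ (β (Ej T ω j z) (C (Ej T ω j z))) := by
    rw [h2 z hz, h3, map_sum]
    exact Finset.sum_congr rfl (fun j _ => map_mul σ _ _)
  obtain ⟨j, hj⟩ : ∃ j, Ej T ω j z ≠ 0 := by
    by_contra h0
    push Not at h0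
    apply hz0
    rw [← h.E_sum z, Finset.sum_eq_zero (fun j _ => h0 j)]
  rw [h5]
  refine Finset.sum_pos' (fun j _ => mul_nonneg (hr j).le (h4 j)) ⟨j, Finset.mem_univ _, ?_⟩
  obtain ⟨a, ha⟩ := h.E_mem z j
  rw [ha] at hj ⊢
  exact mul_pos (hr j) (h.herm_pos hj)

/-- The elements with the property `M` are in the span of `Gq`. -/
theorem mem_gq [CharZero K] (hMT : ∀ z, M z → M (T z)) (hM : RatSub K M)
    (hsymm : ∀ z w, M z → M w → β z w = β w z)
    (hrat : ∀ z w, M z → M w → ∃ q : ℚ, β z w = q)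
    (hpos : ∀ z, M z → ∃ q : ℚ, 0 ≤ q ∧ β z z = q) {z : A} (hz : M z) :
    z ∈ Submodule.span K {x | Gq σ M C (fun r => 0 ≤ σ r) x} := by
  rw [← h.E_sum z]
  apply Submodule.sum_mem
  intro j _
  obtain ⟨r, hr, h1, -⟩ := h.claim hMT hM hsymm hrat hpos (Rel.self hz) j
  exact Submodule.subset_span ⟨r, hr, h1⟩

/-- The same for strict positivity. -/
theorem mem_gq_pos [CharZero K] [Module.Finite K A] (hMT : ∀ z, M z → M (T z))
    (hM : RatSub K M) (hsymm : ∀ z w, M z → M w → β z w = β w z)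
    (hrat : ∀ z w, M z → M w → ∃ q : ℚ, β z w = q)
    (hpos : ∀ z, M z → z ≠ 0 → ∃ q : ℚ, 0 < q ∧ β z z = q) {z : A} (hz : M z) :
    z ∈ Submodule.span K {x | Gq σ M C (fun r => 0 < σ r) x} := by
  have hpos' : ∀ z, M z → ∃ q : ℚ, 0 ≤ q ∧ β z z = q := by
    intro z hz
    by_cases h0 : z = 0
    · exact ⟨0, le_rfl, by rw [h0]; simp⟩
    · obtain ⟨q, hq, hq'⟩ := hpos z hz h0
      exact ⟨q, hq.le, hq'⟩
  have hfix : ∀ q : ℚ, kap σ (q : K) = q := fun q => map_ratCast _ _
  rw [← h.E_sum z]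
  apply Submodule.sum_mem
  intro j _
  obtain ⟨r, hr, h1, h2⟩ := h.claim hMT hM hsymm hrat hpos' (Rel.self hz) j
  by_cases h0 : Ej T ω j z = 0
  · rw [h0]; exact Submodule.zero_mem _
  refine Submodule.subset_span ⟨r, lt_of_le_of_ne hr ?_, h1⟩
  intro hr0
  have hr1 : r = 0 := by
    apply σ.injective
    rw [← hr0, map_zero]
  apply h0
  rw [hr1, zero_smul] at h1
  have h3 := h1.symm (kap_kap σ)
  -- the component is orthogonal to the elements with the property `M`
  have h4 : ∀ w, M w → β (Ej T ω j z) w = 0 := by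
    intro w hw
    have h5 := h3.orth (β := β) (w := w) (fun z hz => by
      obtain ⟨q, hq⟩ := hrat z w hz hw
      rw [hq, hfix])
    rw [h5, map_zero, LinearMap.zero_apply, map_zero]
  obtain ⟨N, e, w, he, hw, horth, hspan⟩ := exists_ratBasis hM β hrat hsymm hpos
  obtain ⟨s, hs⟩ := hspan (Ej T ω j z) h1.span (fun k => ⟨0, by rw [h4 _ (he k)]; simp⟩)
  have hsM : M (Ej T ω j z) := by
    rw [hs]
    exact hM.sum _ (fun k _ => hM.smul _ (he k))
  by_contra h5
  obtain ⟨q, hq, hq'⟩ := hpos _ hsM h5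
  rw [h4 _ hsM] at hq'
  have : q = 0 := by exact_mod_cast hq'.symm
  exact hq.ne' this

end SD

end Pool.Agent.W552
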