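import Pool.Agent.W552.AvConj

/-!
# The antilinear ring endomorphisms of the cohomology of varieties of abelian type
-/

open CategoryTheory AlgebraicGeometry
open scoped ComplexOrder

universe u v w

namespace Pool.Agent.W552

open Pool.Agent.H914 Pool.Agent.H914.VarClass Pool.Agent.H914.VarClass.Obj
  Pool.Agent.H914.WeilCohomology Pool.Agent.H281R3.HT Pool.Agent.H447

variable {k : Type u} [Field k] {𝒱 : VarClass k} {ops : CycleOps 𝒱}
  {W : WeilCohomology.{u, v} ops}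

section Sim

variable {P : Polarized 𝒱} {f Φ : Module.End W.K (W.H P.X)} (l : Loc W P f Φ)

include l

lemma bf_one {a b : W.H P.X} (hb : b ∈ W.gr P.X 1) : bf W P.X P.D f a b =
    (((P.X.dim - 1).factorial : W.K)⁻¹) *
      W.tr P.X (a * ((LinearMap.mulLeft W.K (W.cl P.X P.D)) ^ (P.X.dim - 1)) b) := by
  by_cases hn : 1 ≤ P.X.dim
  swap
  · rw [W.gr_eq_bot _ _ (by omega)] at hb
    rw [(Submodule.mem_bot _).1 hb]
    simp
  have hp : ((LinearMap.mulLeft W.K (W.cl P.X P.D)) ^ (P.X.dim - 1 + 1)) b = 0 := by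
    have h1 := pow_L_mem l.t.hL hb (P.X.dim - 1 + 1)
    rw [W.gr_eq_bot _ _ (by omega)] at h1
    exact (Submodule.mem_bot _).1 h1
  have h1 := l.t.w_L_pow hn hb hp (j := 0) (Nat.zero_le _)
  rw [bf_apply, st_apply hb]
  have h2 : wop W P.X P.D f b = (((P.X.dim - 1).factorial : W.K)⁻¹) •
      ((LinearMap.mulLeft W.K (W.cl P.X P.D)) ^ (P.X.dim - 1)) b := by
    have h3 : wey (LinearMap.mulLeft W.K (W.cl P.X P.D)) f b = wop W P.X P.D f b := rfl
    rw [pow_zero, Module.End.one_apply, h3] at h1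
    rw [h1]
    simp
  have h3 : sg 1 = 1 := by simp [sg]
  rw [h2, h3, Int.cast_one, one_smul, mul_smul_comm, map_smul, smul_eq_mul]

lemma tr_sim {g : W.H P.X →ₐ[W.K] W.H P.X} {c : W.K}
    (hD : g (W.cl P.X P.D) = c • W.cl P.X P.D) {a : W.H P.X} (ha : a ∈ W.gr P.X (2 * P.X.dim)) :
    W.tr P.X (g a) = c ^ P.X.dim * W.tr P.X a := by
  set L : Module.End W.K (W.H P.X) := LinearMap.mulLeft W.K (W.cl P.X P.D) with hL
  have hgL : ∀ (m : ℕ) (a : W.H P.X), g ((L ^ m) a) = c ^ m • (L ^ m) (g a) := by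
    intro m
    induction m with
    | zero => intro a; simp
    | succ m ih =>
      intro a
      rw [pow_succ', Module.End.mul_apply, hL, LinearMap.mulLeft_apply, map_mul, hD, ← hL, ih,
        smul_mul_smul_comm, ← pow_succ']
      rfl
  obtain ⟨b, hb, hba⟩ := (l.t.hHL 0 (Nat.zero_le _)).2 a (by simpa using ha)
  rw [W.gr_zero, Submodule.mem_span_singleton] at hb
  obtain ⟨r, rfl⟩ := hb
  rw [Nat.sub_zero, map_smul] at hba
  rw [← hba, map_smul, hgL, map_one, map_smul, map_smul, map_smul, smul_eq_mul, smul_eq_mul,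
    smul_eq_mul]
  ring

/-- Similitudes in degree one. -/
lemma bf_sim1 {g : W.H P.X →ₐ[W.K] W.H P.X} {c : W.K} (hc : c ≠ 0)
    (hgr : ∀ i, ∀ a ∈ W.gr P.X i, g a ∈ W.gr P.X i)
    (hD : g (W.cl P.X P.D) = c • W.cl P.X P.D) {a b : W.H P.X} (ha : a ∈ W.gr P.X 1)
    (hb : b ∈ W.gr P.X 1) : bf W P.X P.D f (g a) (g b) = c * bf W P.X P.D f a b := by
  set L : Module.End W.K (W.H P.X) := LinearMap.mulLeft W.K (W.cl P.X P.D) with hL
  have hgL : ∀ (m : ℕ) (a : W.H P.X), g ((L ^ m) a) = c ^ m • (L ^ m) (g a) := by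
    intro m
    induction m with
    | zero => intro a; simp
    | succ m ih =>
      intro a
      rw [pow_succ', Module.End.mul_apply, hL, LinearMap.mulLeft_apply, map_mul, hD, ← hL, ih,
        smul_mul_smul_comm, ← pow_succ']
      rfl
  by_cases hn : 1 ≤ P.X.dim
  swap
  · rw [W.gr_eq_bot _ _ (by omega)] at hb
    rw [(Submodule.mem_bot _).1 hb]
    simp
  rw [bf_one l (hgr 1 b hb), bf_one l hb]
  have h1 : a * (L ^ (P.X.dim - 1)) b ∈ W.gr P.X (2 * P.X.dim) := by
    have h2 := W.mul_mem ha (pow_L_mem l.t.hL hb (P.X.dim - 1))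
    rwa [show 1 + (1 + 2 * (P.X.dim - 1)) = 2 * P.X.dim by omega] at h2
  have h2 := tr_sim l hD h1
  rw [map_mul, hgL, mul_smul_comm, map_smul, smul_eq_mul] at h2
  have h3 : c ^ P.X.dim = c ^ (P.X.dim - 1) * c := by
    rw [← pow_succ]
    congr 1
    omega
  rw [h3, mul_assoc] at h2
  have h4 := mul_left_cancel₀ (pow_ne_zero _ hc) h2
  rw [← hL, h4]
  ring

end Sim

section Sys

variable {Λ : Type} [Fintype Λ] [DecidableEq Λ] {P : Λ → Polarized 𝒱} {N : Λ → ℕ}
  {f Φ : ∀ a, Module.End W.K (W.H (P a).X)}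
  {e : ∀ a, Fin (N a) → W.H (P a).X} {ξ : ∀ a, Fin (N a) → (W.H (P a).X →ₗ[W.K] W.K)}

/-- **The antilinear ring endomorphisms.** -/
theorem exists_CC (l : ∀ a, Loc W (P a) (f a) (Φ a)) (B : ∀ a, DB W (P a).X (e a) (ξ a))
    (hI : ∀ a c, HodgeIndex W ((P a).prod ops (P c)).X ((P a).prod ops (P c)).D)
    (G : ∀ a, ExtGen W.K (e a)) {fr : ∀ a, (P a).X ⟶ (P a).X} {α : ∀ a, Fin (N a) → W.K}
    {q : Λ → W.K} (hq : ∀ a, q a ≠ 0)
    (hfr : ∀ a, W.map (fr a) (W.cl (P a).X (P a).D) = q a • W.cl (P a).X (P a).D)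
    (hα : ∀ a i, W.map (fr a) (e a i) = α a i • e a i) (hinj : ∀ a, Function.Injective (α a))
    (σ : W.K ≃+* ℂ) : ∃ C : ∀ a, W.H (P a).X →+* W.H (P a).X,
      (∀ a (c : W.K) x, C a (c • x) = kap σ c • C a x) ∧
      (∀ a i, C a (e a i) ∈ W.gr (P a).X 1) ∧
      (∀ a c (φ : (P a).X ⟶ (P c).X) x, C a (W.map φ x) = W.map φ (C c x)) ∧
      (∀ a i j, i ≠ j → bf W (P a).X (P a).D (f a) (e a i) (C a (e a j)) = 0) ∧
      (∀ a i, 0 < σ (bf W (P a).X (P a).D (f a) (e a i) (C a (e a i)))) ∧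
      ∀ a i j, bf W (P a).X (P a).D (f a) (C a (e a i)) (C a (e a j)) =
        kap σ (bf W (P a).X (P a).D (f a) (e a i) (e a j)) := by
  obtain ⟨w, hw, hwv, hwp, hww⟩ := exists_w l B hI σ
  have hex : ∀ a, ∃ C : W.H (P a).X →+* W.H (P a).X,
      (∀ (c : W.K) x, C (c • x) = kap σ c • C x) ∧ ∀ i, C (e a i) = w a i := fun a =>
    (G a).exists_semi (kap σ) (w a) (fun i j => one_anti (hw a i) (hw a j))
  choose C hC hCe using hex
  have hmap : ∀ a c (φ : (P a).X ⟶ (P c).X) x, C a (W.map φ x) = W.map φ (C c x) := by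
    intro a c φ x
    refine (G c).ind (p := fun x => C a (W.map φ x) = W.map φ (C c x)) ?_ ?_ ?_ ?_ x
    · rw [map_one, map_one, map_one, map_one]
    · intro x y hx hy; rw [map_add, map_add, hx, hy, map_add, map_add]
    · intro r x hx; rw [map_smul, hC, hx, hC, map_smul]
    · intro i x hx
      rw [map_mul, map_mul, hx, map_mul (C c), map_mul (W.map φ)]
      congr 1
      have h1 := C1.restr ((l c).ap 1) (map_aop (W := W) φ) (fun a ha => W.map_mem φ ha)
      have h2 := hwv c a _ h1 i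
      have e1 : ∀ y ∈ W.gr (P c).X 1,
          ((W.map φ).toLinearMap ∘ₗ proj (W.isInternal (P c).X) 1) y = W.map φ y := by
        intro y hy
        rw [LinearMap.comp_apply, proj_same _ hy]
        rfl
      rw [e1 _ (hw c i), e1 _ ((B c).mem i)] at h2
      rw [hCe, h2]
      conv_lhs => rw [(B a).sum _ (W.map_mem φ ((B c).mem i))]
      rw [map_sum]
      apply Finset.sum_congr rfl
      intro j _
      rw [hC, hCe]
  refine ⟨C, hC, fun a i => by rw [hCe]; exact hw a i, hmap, ?_, fun a i => by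
    rw [hCe]; exact hwp a i, fun a i j => by rw [hCe, hCe]; exact hww a i j⟩
  intro a i j hij
  -- the values of the form on eigenvectors
  have h1 : ∀ i j, q a * bf W (P a).X (P a).D (f a) (e a i) (C a (e a j)) =
      α a i * kap σ (α a j) * bf W (P a).X (P a).D (f a) (e a i) (C a (e a j)) := by
    intro i j
    have hCj : C a (e a j) ∈ W.gr (P a).X 1 := by rw [hCe]; exact hw a j
    rw [← bf_sim1 (l a) (g := W.map (fr a)) (hq a) (fun i a ha => W.map_mem _ ha) (hfr a)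
      ((B a).mem i) hCj, ← hmap, hα, hα, hC, map_smul, map_smul, LinearMap.smul_apply,
      smul_eq_mul, smul_eq_mul]
    ring
  have hne : ∀ j, bf W (P a).X (P a).D (f a) (e a j) (C a (e a j)) ≠ 0 := by
    intro j h0
    have := hwp a j
    rw [← hCe, h0, map_zero] at this
    exact lt_irrefl _ this
  have h2 : α a j * kap σ (α a j) = q a := (mul_right_cancel₀ (hne j) (h1 j j)).symm
  by_contra h0
  have h3 : α a i * kap σ (α a j) = q a := (mul_right_cancel₀ h0 (h1 i j)).symm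
  have h4 : kap σ (α a j) ≠ 0 := by
    intro h5
    rw [h5, mul_zero] at h2
    exact hq a h2.symm
  exact hij (hinj a (mul_right_cancel₀ h4 (h3.trans h2.symm)))

end Sys

end Pool.Agent.W552
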