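import Pool.Agent.W552.AvOne

/-!
# The positive involution on the matrices of operators between groups of degree one
-/

open CategoryTheory AlgebraicGeometry
open scoped ComplexOrder

universe u v w

namespace Pool.Agent.W552

open Pool.Agent.H914 Pool.Agent.H914.VarClass Pool.Agent.H914.VarClass.Obj
  Pool.Agent.H914.WeilCohomology Pool.Agent.H281R3.HT Pool.Agent.H447

variable {k : Type u} [Field k] {𝒱 : VarClass k} {ops : CycleOps 𝒱}
  {W : WeilCohomology.{u, v} ops}

/-- A basis of the degree one cohomology with the dual functionals. -/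
structure DB (W : WeilCohomology.{u, v} ops) (X : 𝒱.Obj) {N : ℕ} (e : Fin N → W.H X)
    (ξ : Fin N → (W.H X →ₗ[W.K] W.K)) : Prop where
  mem : ∀ i, e i ∈ W.gr X 1
  dual : ∀ i j, ξ i (e j) = if i = j then 1 else 0
  kill : ∀ i m, m ≠ 1 → ∀ a ∈ W.gr X m, ξ i a = 0
  sum : ∀ a ∈ W.gr X 1, a = ∑ i, ξ i a • e i

lemma exists_db {X : 𝒱.Obj} {N : ℕ} {e : Fin N → W.H X} (he : ∀ i, e i ∈ W.gr X 1)
    (hli : LinearIndependent W.K e) (hN : Module.finrank W.K (W.gr X 1) = N) :
    ∃ ξ, DB W X e ξ := by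
  set e' : Fin N → W.gr X 1 := fun i => ⟨e i, he i⟩ with he'
  have hli' : LinearIndependent W.K e' := by
    apply LinearIndependent.of_comp (W.gr X 1).subtype
    exact hli
  let b : Module.Basis (Fin N) W.K (W.gr X 1) :=
    basisOfLinearIndependentOfCardEqFinrank' (K := W.K) e' hli' (by rw [hN]; simp)
  have hb : ∀ i, b i = e' i := fun i => by simp [b]
  set pr : W.H X →ₗ[W.K] W.gr X 1 := (proj (W.isInternal X) 1).codRestrict (W.gr X 1)
    (fun a => proj_mem _ _ _) with hpr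
  have hpr1 : ∀ a (ha : a ∈ W.gr X 1), pr a = ⟨a, ha⟩ := by
    intro a ha
    apply Subtype.ext
    exact proj_same _ ha
  refine ⟨fun i => b.coord i ∘ₗ pr, he, ?_, ?_, ?_⟩
  · intro i j
    rw [LinearMap.comp_apply, hpr1 _ (he j)]
    have h1 : (⟨e j, he j⟩ : W.gr X 1) = b j := (hb j).symm
    rw [h1, Module.Basis.coord_apply, Module.Basis.repr_self, Finsupp.single_apply]
    by_cases h : i = j
    · rw [if_pos h, if_pos h.symm]
    · rw [if_neg h, if_neg (Ne.symm h)]
  · intro i m hm a ha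
    have h1 : pr a = 0 := by
      apply Subtype.ext
      exact proj_ne _ ha hm
    rw [LinearMap.comp_apply, h1, map_zero]
  · intro a ha
    have h1 := b.sum_repr (⟨a, ha⟩ : W.gr X 1)
    have h2 := congrArg (W.gr X 1).subtype h1
    rw [map_sum] at h2
    refine h2.symm.trans ?_
    apply Finset.sum_congr rfl
    intro i _
    rw [map_smul, hb, LinearMap.comp_apply, hpr1 a ha]
    rfl

namespace DB

variable {X Y : 𝒱.Obj} {N : ℕ} {e : Fin N → W.H X} {ξ : Fin N → (W.H X →ₗ[W.K] W.K)}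
  (B : DB W X e ξ)

include B

lemma zero {v : Fin N → W.K} (h : ∑ i, v i • e i = 0) (i : Fin N) : v i = 0 := by
  have h1 := congrArg (ξ i) h
  rw [map_sum, map_zero, Finset.sum_eq_single i] at h1
  · rw [map_smul, B.dual, if_pos rfl, smul_eq_mul, mul_one] at h1
    exact h1
  · intro j _ hj
    rw [map_smul, B.dual, if_neg (Ne.symm hj), smul_zero]
  · intro h0; exact absurd (Finset.mem_univ _) h0

lemma op_eq {u : W.H X →ₗ[W.K] W.H Y} (h : C1 W X Y u) :
    u = ∑ i, (ξ i).smulRight (u (e i)) := by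
  apply gr_ext (W.isInternal X)
  intro m a ha
  rw [LinearMap.sum_apply]
  by_cases hm : m = 1
  · subst hm
    conv_lhs => rw [B.sum a ha]
    rw [map_sum]
    apply Finset.sum_congr rfl
    intro i _
    rw [map_smul, LinearMap.smulRight_apply]
  · rw [h.2.1 m hm a ha, Finset.sum_eq_zero]
    intro i _
    rw [LinearMap.smulRight_apply, B.kill i m hm a ha, zero_smul]

lemma trace_eq {u : W.H X →ₗ[W.K] W.H X} (h : C1 W X X u) {A : Fin N → Fin N → W.K}
    (hA : ∀ i, u (e i) = ∑ j, A j i • e j) : LinearMap.trace W.K (W.H X) u = ∑ i, A i i := by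
  rw [B.op_eq h, map_sum]
  apply Finset.sum_congr rfl
  intro i _
  rw [LinearMap.trace_smulRight, hA, map_sum, Finset.sum_eq_single i]
  · rw [map_smul, B.dual, if_pos rfl, smul_eq_mul, mul_one]
  · intro j _ hj
    rw [map_smul, B.dual, if_neg (Ne.symm hj), smul_zero]
  · intro h0; exact absurd (Finset.mem_univ _) h0

end DB

lemma C1.trace_rat {X : 𝒱.Obj} {u : W.H X →ₗ[W.K] W.H X} (h : C1 W X X u) :
    ∃ q : ℚ, LinearMap.trace W.K (W.H X) u = q := by
  obtain ⟨c, hc, hc'⟩ := h.1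
  have h1 : (H914.par (W.isInternal X) : Module.End W.K (W.H X)) * W.corr c = -u := by
    rw [hc']
    apply gr_ext (W.isInternal X)
    intro m a ha
    rw [Module.End.mul_apply, LinearMap.neg_apply]
    by_cases hm : m = 1
    · subst hm
      rw [par_app (h.2.2 a ha)]
      simp
    · rw [h.2.1 m hm a ha, map_zero, neg_zero]
  have h2 := trace_par_corr (W := W) c
  rw [h1, map_neg] at h2
  obtain ⟨q, hq⟩ := (hc.map (diag X)).tr
  refine ⟨-q, ?_⟩
  rw [← neg_neg (LinearMap.trace W.K (W.H X) u), h2, hq]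
  push_cast
  rfl

section Sys

variable {Λ : Type} {P : Λ → Polarized 𝒱} {N : Λ → ℕ}

/-- The matrices of the algebraic operators between the groups of degree one. -/
def E1 (W : WeilCohomology.{u, v} ops) (P : Λ → Polarized 𝒱) (e : ∀ a, Fin (N a) → W.H (P a).X)
    (A : Matrix (Σ a, Fin (N a)) (Σ a, Fin (N a)) W.K) : Prop :=
  ∀ a c, ∃ u, C1 W (P a).X (P c).X u ∧
    ∀ i, u (e a i) = ∑ j, A (⟨c, j⟩ : Σ a, Fin (N a)) (⟨a, i⟩ : Σ a, Fin (N a)) • e c j

/-- The Gram matrices in degree one. -/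
noncomputable def gram1 (W : WeilCohomology.{u, v} ops) (P : Λ → Polarized 𝒱)
    (f : ∀ a, Module.End W.K (W.H (P a).X))
    (e : ∀ a, Fin (N a) → W.H (P a).X) (a : Λ) : Matrix (Fin (N a)) (Fin (N a)) W.K :=
  Matrix.of fun p q => bf W (P a).X (P a).D (f a) (e a p) (e a q)

variable [Fintype Λ] [DecidableEq Λ] {f Φ : ∀ a, Module.End W.K (W.H (P a).X)}
  {e : ∀ a, Fin (N a) → W.H (P a).X} {ξ : ∀ a, Fin (N a) → (W.H (P a).X →ₗ[W.K] W.K)}

omit [DecidableEq Λ] in
lemma e1_mul {A A' : Matrix (Σ a, Fin (N a)) (Σ a, Fin (N a)) W.K}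
    {u u' : ∀ a c, W.H (P a).X →ₗ[W.K] W.H (P c).X}
    (hu : ∀ a c i, u a c (e a i) =
      ∑ j, A (⟨c, j⟩ : Σ a, Fin (N a)) (⟨a, i⟩ : Σ a, Fin (N a)) • e c j)
    (hu' : ∀ a c i, u' a c (e a i) =
      ∑ j, A' (⟨c, j⟩ : Σ a, Fin (N a)) (⟨a, i⟩ : Σ a, Fin (N a)) • e c j) (a c : Λ)
    (i : Fin (N a)) : (∑ d, u d c ∘ₗ u' a d) (e a i) =
      ∑ j, (A * A') (⟨c, j⟩ : Σ a, Fin (N a)) (⟨a, i⟩ : Σ a, Fin (N a)) • e c j := by
  rw [LinearMap.sum_apply]
  simp only [LinearMap.comp_apply, hu', map_sum, map_smul, hu, Matrix.mul_apply,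
    Fintype.sum_sigma, Finset.sum_smul, Finset.smul_sum, smul_smul]
  symm
  rw [Finset.sum_comm]
  apply Finset.sum_congr rfl
  intro d _
  rw [Finset.sum_comm]
  apply Finset.sum_congr rfl
  intro s _
  apply Finset.sum_congr rfl
  intro q _
  rw [mul_comm]

omit [Fintype Λ] [DecidableEq Λ] in
lemma gram_bf (l : ∀ a, Loc W (P a) (f a) (Φ a)) (B : ∀ a, DB W (P a).X (e a) (ξ a)) {a : Λ}
    {z : W.H (P a).X} (hz : z ∈ W.gr (P a).X 1)
    (h : ∀ r, bf W (P a).X (P a).D (f a) (e a r) z = 0) : z = 0 := by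
  apply bf_nondeg' (l a).F (l a).t
  intro y
  refine gr_induction (W.isInternal (P a).X) (p := fun y => bf W (P a).X (P a).D (f a) y z = 0)
    ?_ ?_ y
  · intro m y hy
    by_cases hm : m = 1
    · subst hm
      rw [(B a).sum y hy, map_sum, LinearMap.sum_apply]
      apply Finset.sum_eq_zero
      intro r _
      rw [map_smul, LinearMap.smul_apply, h, smul_zero]
    · exact (l a).F.bf_deg hy hz hm
  · intro y y' hy hy'
    rw [map_add, LinearMap.add_apply, hy, hy', add_zero]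

lemma g1_mul {A : Matrix (Σ a, Fin (N a)) (Σ a, Fin (N a)) W.K}
    (a c : Λ) (r : Fin (N a)) (s : Fin (N c)) :
    (Matrix.blockDiagonal' (gram1 W P f e) * A) (⟨a, r⟩ : Σ a, Fin (N a))
      (⟨c, s⟩ : Σ a, Fin (N a)) = bf W (P a).X (P a).D (f a) (e a r)
        (∑ j, A (⟨a, j⟩ : Σ a, Fin (N a)) (⟨c, s⟩ : Σ a, Fin (N a)) • e a j) := by
  rw [Matrix.mul_apply, Fintype.sum_sigma, Finset.sum_eq_single a]
  · rw [map_sum]
    apply Finset.sum_congr rfl
    intro p _
    rw [Matrix.blockDiagonal'_apply_eq, map_smul, smul_eq_mul, mul_comm]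
    rfl
  · intro a' _ ha
    apply Finset.sum_eq_zero
    intro p _
    rw [Matrix.blockDiagonal'_apply_ne _ _ _ (Ne.symm ha), zero_mul]
  · intro h0; exact absurd (Finset.mem_univ _) h0

lemma mul_g1 {A : Matrix (Σ a, Fin (N a)) (Σ a, Fin (N a)) W.K}
    (a c : Λ) (r : Fin (N a)) (s : Fin (N c)) :
    (A.transpose * Matrix.blockDiagonal' (gram1 W P f e)) (⟨a, r⟩ : Σ a, Fin (N a))
      (⟨c, s⟩ : Σ a, Fin (N a)) = bf W (P c).X (P c).D (f c)
        (∑ j, A (⟨c, j⟩ : Σ a, Fin (N a)) (⟨a, r⟩ : Σ a, Fin (N a)) • e c j) (e c s) := by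
  rw [Matrix.mul_apply, Fintype.sum_sigma, Finset.sum_eq_single c]
  · rw [map_sum, LinearMap.sum_apply]
    apply Finset.sum_congr rfl
    intro p _
    rw [Matrix.blockDiagonal'_apply_eq, map_smul, LinearMap.smul_apply, smul_eq_mul,
      Matrix.transpose_apply]
    rfl
  · intro a' _ ha
    apply Finset.sum_eq_zero
    intro p _
    rw [Matrix.blockDiagonal'_apply_ne _ _ _ ha, mul_zero]
  · intro h0; exact absurd (Finset.mem_univ _) h0

lemma g1_unit (l : ∀ a, Loc W (P a) (f a) (Φ a)) (B : ∀ a, DB W (P a).X (e a) (ξ a)) :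
    IsUnit (Matrix.blockDiagonal' (gram1 W P f e)) := by
  have h1 : IsUnit (gram1 W P f e) := by
    rw [Pi.isUnit_iff]
    intro a
    rw [← Matrix.mulVec_injective_iff_isUnit]
    intro v w hvw
    have h2 : ∑ p, (v - w) p • e a p = 0 := by
      apply gram_bf l B
      · exact Submodule.sum_mem _ (fun i _ => Submodule.smul_mem _ _ ((B a).mem i))
      intro r
      have h4 : (Matrix.mulVec (gram1 W P f e a) (v - w)) r = 0 := by
        rw [Matrix.mulVec_sub]
        change Matrix.mulVec _ v = Matrix.mulVec _ w at hvw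
        rw [hvw, sub_self]; rfl
      rw [map_sum, ← h4, Matrix.mulVec, dotProduct]
      apply Finset.sum_congr rfl
      intro p _
      rw [map_smul, smul_eq_mul, mul_comm]
      rfl
    funext p
    exact sub_eq_zero.1 ((B a).zero h2 p)
  exact h1.map (Matrix.blockDiagonal'RingHom (fun a => Fin (N a)) W.K)

/-- The adjoint matrix. -/
lemma e1_adj (l : ∀ a, Loc W (P a) (f a) (Φ a)) (B : ∀ a, DB W (P a).X (e a) (ξ a))
    {A : Matrix (Σ a, Fin (N a)) (Σ a, Fin (N a)) W.K}
    {u : ∀ a c, W.H (P a).X →ₗ[W.K] W.H (P c).X}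
    (hu : ∀ a c i, u a c (e a i) =
      ∑ j, A (⟨c, j⟩ : Σ a, Fin (N a)) (⟨a, i⟩ : Σ a, Fin (N a)) • e c j)
    (h1 : ∀ a c, C1 W (P a).X (P c).X (u a c)) :
    ∃ (A' : Matrix (Σ a, Fin (N a)) (Σ a, Fin (N a)) W.K)
      (u' : ∀ a c, W.H (P a).X →ₗ[W.K] W.H (P c).X),
      (∀ a c, C1 W (P a).X (P c).X (u' a c)) ∧
      (∀ a c i, u' a c (e a i) =
        ∑ j, A' (⟨c, j⟩ : Σ a, Fin (N a)) (⟨a, i⟩ : Σ a, Fin (N a)) • e c j) ∧
      (∀ a c p q, bf W (P c).X (P c).D (f c) (u a c p) q =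
        bf W (P a).X (P a).D (f a) p (u' c a q)) ∧
      Matrix.blockDiagonal' (gram1 W P f e) * A' =
        A.transpose * Matrix.blockDiagonal' (gram1 W P f e) := by
  choose u' hu' hadj using fun (c a : Λ) => (h1 a c).adj (l a) (l c)
  have key : ∀ a c i, u' a c (e a i) = ∑ j, (Matrix.of fun (y x : Σ a, Fin (N a)) =>
      ξ y.1 y.2 (u' x.1 y.1 (e x.1 x.2)) : Matrix (Σ a, Fin (N a)) (Σ a, Fin (N a)) W.K)
        (⟨c, j⟩ : Σ a, Fin (N a)) (⟨a, i⟩ : Σ a, Fin (N a)) • e c j := fun a c i =>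
    (B c).sum _ ((hu' a c).2.2 _ ((B a).mem i))
  refine ⟨_, u', hu', key, fun a c p q => hadj c a p q, ?_⟩
  ext ⟨a, r⟩ ⟨c, s⟩
  rw [g1_mul, mul_g1, ← key, ← hu, hadj]

/-- **The positive involution in degree one.** -/
theorem posSys1 (l : ∀ a, Loc W (P a) (f a) (Φ a)) (B : ∀ a, DB W (P a).X (e a) (ξ a))
    (hI : ∀ a c, HodgeIndex W ((P a).prod ops (P c)).X ((P a).prod ops (P c)).D) :
    PosSys (Matrix.blockDiagonal' (gram1 W P f e)) (fun _ => -1) (E1 W P e) where
  rat := by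
    constructor
    · intro a c
      exact ⟨0, C1.zero, fun i => by simp⟩
    · intro A A' h h' a c
      obtain ⟨u, hu, hu2⟩ := h a c
      obtain ⟨u', hu', hu2'⟩ := h' a c
      refine ⟨u + u', hu.add hu', fun i => ?_⟩
      rw [LinearMap.add_apply, hu2, hu2', ← Finset.sum_add_distrib]
      apply Finset.sum_congr rfl
      intro j _
      rw [Matrix.add_apply, add_smul]
    · intro q A h a c
      obtain ⟨u, hu, hu2⟩ := h a c
      refine ⟨(q : W.K) • u, hu.smul q, fun i => ?_⟩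
      rw [LinearMap.smul_apply, hu2, Finset.smul_sum]
      apply Finset.sum_congr rfl
      intro j _
      rw [Matrix.smul_apply, smul_smul, smul_eq_mul]
  one := by
    intro a c
    by_cases h : a = c
    · subst h
      refine ⟨_, C1.one ((l a).ap 1), fun i => ?_⟩
      rw [proj_same _ ((B a).mem i), Finset.sum_eq_single i]
      · rw [Matrix.one_apply_eq, one_smul]
      · intro j _ hj
        rw [Matrix.one_apply_ne, zero_smul]
        intro h0
        apply hj
        simpa using h0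
      · intro h0; exact absurd (Finset.mem_univ _) h0
    · refine ⟨0, C1.zero, fun i => ?_⟩
      rw [LinearMap.zero_apply, Finset.sum_eq_zero]
      intro j _
      rw [Matrix.one_apply_ne, zero_smul]
      intro h0
      apply h
      exact (congrArg Sigma.fst h0).symm
  mul := by
    intro A A' h h' a c
    choose u hu hu2 using h
    choose u' hu' hu2' using h'
    refine ⟨∑ d, u d c ∘ₗ u' a d, C1.ratSub.sum _ (fun d _ => (hu d c).comp (hu' a d)), ?_⟩
    intro i
    exact e1_mul hu2 hu2' a c i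
  hε := by intro i; norm_num
  hB := g1_unit l B
  hBT := by
    ext ⟨a, r⟩ ⟨c, s⟩
    rw [Matrix.mul_diagonal, Matrix.transpose_apply]
    by_cases h : a = c
    · subst h
      rw [Matrix.blockDiagonal'_apply_eq, Matrix.blockDiagonal'_apply_eq, gram1, Matrix.of_apply,
        Matrix.of_apply, bf_symm' (l a).F (l a).t ((B a).mem r) ((B a).mem s)]
      push_cast; ring
    · rw [Matrix.blockDiagonal'_apply_ne _ _ _ (Ne.symm h), Matrix.blockDiagonal'_apply_ne _ _ _ h,
        zero_mul]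
  hεB := by
    ext ⟨a, r⟩ ⟨c, s⟩
    rw [Matrix.mul_diagonal, Matrix.diagonal_mul, mul_comm]
  adj := by
    intro A h
    choose u hu hu2 using h
    obtain ⟨A', u', h1, h2, h3, h4⟩ := e1_adj l B hu2 hu
    exact ⟨A', fun a c => ⟨u' a c, h1 a c, h2 a c⟩, h4⟩
  epsE := by
    intro a c
    by_cases h : a = c
    · subst h
      refine ⟨_, (C1.one ((l a).ap 1)).smul (-1), fun i => ?_⟩
      rw [LinearMap.smul_apply, proj_same _ ((B a).mem i), Finset.sum_eq_single i]
      · rw [Matrix.diagonal_apply_eq]; push_cast; rfl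
      · intro j _ hj
        rw [Matrix.diagonal_apply_ne, zero_smul]
        intro h0
        apply hj
        simpa using h0
      · intro h0; exact absurd (Finset.mem_univ _) h0
    · refine ⟨0, C1.zero, fun i => ?_⟩
      rw [LinearMap.zero_apply, Finset.sum_eq_zero]
      intro j _
      rw [Matrix.diagonal_apply_ne, zero_smul]
      intro h0
      apply h
      exact (congrArg Sigma.fst h0).symm
  epsC := by
    intro A _
    ext i j
    rw [Matrix.mul_diagonal, Matrix.diagonal_mul, mul_comm]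
  tr := by
    intro A h
    choose u hu hu2 using h
    choose q hq using fun a => (hu a a).trace_rat
    refine ⟨∑ a, q a, ?_⟩
    rw [Matrix.trace, Fintype.sum_sigma, Rat.cast_sum]
    apply Finset.sum_congr rfl
    intro a _
    rw [← hq a, (B a).trace_eq (hu a a) (A := fun j i => A ⟨a, j⟩ ⟨a, i⟩) (hu2 a a)]
    rfl
  pos := by
    intro A A' h hA0 hAA'
    choose u hu hu2 using h
    obtain ⟨A'', u', h1, h2, h3, h4⟩ := e1_adj l B hu2 hu
    have h5 : A' = A'' := by
      have h6 := (Matrix.isUnit_iff_isUnit_det _).1 (g1_unit l B)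
      rw [← Matrix.nonsing_inv_mul_cancel_left _ A' h6, hAA', ← h4,
        Matrix.nonsing_inv_mul_cancel_left _ A'' h6]
    subst h5
    have key : ∀ a c, ∃ q : ℚ, 0 ≤ q ∧ (u a c ≠ 0 → 0 < q) ∧
        LinearMap.trace W.K (W.H (P a).X) (u' c a ∘ₗ u a c) = q := by
      intro a c
      by_cases h0 : u a c = 0
      · exact ⟨0, le_rfl, fun h => absurd h0 h, by rw [h0, LinearMap.comp_zero]; simp⟩
      obtain ⟨q, hq, hq'⟩ := (hu a c).pos (l a) (l c) (hI a c) h0 (h3 a c)
      exact ⟨q, hq.le, fun _ => hq, hq'⟩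
    choose q hq0 hq1 hq2 using key
    refine ⟨∑ a, ∑ c, q a c, ?_, ?_⟩
    · obtain ⟨a, c, hac⟩ : ∃ a c, u a c ≠ 0 := by
        by_contra h0
        push Not at h0
        apply hA0
        ext ⟨c, j⟩ ⟨a, i⟩
        have h6 := hu2 a c i
        rw [h0, LinearMap.zero_apply] at h6
        exact (B c).zero h6.symm j
      exact Finset.sum_pos' (fun a _ => Finset.sum_nonneg (fun c _ => hq0 a c))
        ⟨a, Finset.mem_univ _, Finset.sum_pos' (fun c _ => hq0 a c)
          ⟨c, Finset.mem_univ _, hq1 a c hac⟩⟩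
    · rw [Matrix.trace, Fintype.sum_sigma, Rat.cast_sum]
      apply Finset.sum_congr rfl
      intro a _
      have h6 := (B a).trace_eq (A := fun j i => (A' * A) ⟨a, j⟩ ⟨a, i⟩)
        (C1.ratSub.sum Finset.univ (fun d _ => (h1 d a).comp (hu a d)))
        (fun i => e1_mul h2 hu2 a a i)
      change ∑ i, (A' * A) (⟨a, i⟩ : Σ a, Fin (N a)) (⟨a, i⟩ : Σ a, Fin (N a)) = _
      rw [← h6, map_sum, Rat.cast_sum]
      exact Finset.sum_congr rfl (fun c _ => hq2 a c)

end Sys

end Pool.Agent.W552
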