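import Pool.Agent.W552.AvMul
import Pool.Agent.W552.AvRel

/-!
# The simple spectrum of an endomorphism of a variety of abelian type
-/

open CategoryTheory AlgebraicGeometry
open scoped ComplexOrder

universe u v w

namespace Pool.Agent.W552

open Pool.Agent.H914 Pool.Agent.H914.VarClass Pool.Agent.H914.VarClass.Obj
  Pool.Agent.H914.WeilCohomology Pool.Agent.H281R3.HT Pool.Agent.H447

section Num

variable {K : Type v} [Field K]

lemma kap_of_pos (σ : K ≃+* ℂ) {x : K} (h : 0 ≤ σ x) : kap σ x = x := by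
  apply σ.injective
  rw [σ_kap]
  have h1 := (Complex.nonneg_iff.1 h).2
  exact Complex.conj_eq_iff_im.2 h1.symm

/-- For some natural number `m` the products of the numbers `m + α i` over different sets of
indices are different. -/
lemma exists_m [CharZero K] {N : ℕ} {α : Fin N → K} (hα : Function.Injective α) :
    ∃ m : ℕ, Function.Injective (fun s : Finset (Fin N) => ∏ i ∈ s, ((m : K) + α i)) := by
  classical
  set p : Finset (Fin N) → Polynomial K := fun s => ∏ i ∈ s, (Polynomial.X + Polynomial.C (α i))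
    with hp
  have hpe : ∀ s x, (p s).eval x = ∏ i ∈ s, (x + α i) := by
    intro s x
    rw [hp]
    simp [Polynomial.eval_prod]
  have hne : ∀ s t, s ≠ t → p s - p t ≠ 0 := by
    intro s t hst h0
    apply hst
    have h1 : p s = p t := sub_eq_zero.1 h0
    have hmem : ∀ s j, (p s).eval (-α j) = 0 ↔ j ∈ s := by
      intro s j
      rw [hpe, Finset.prod_eq_zero_iff]
      constructor
      · rintro ⟨i, hi, h2⟩
        have h3 : α i = α j := by linear_combination h2
        rwa [← hα h3]
      · intro hj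
        exact ⟨j, hj, by ring⟩
    ext j
    rw [← hmem s, ← hmem t, h1]
  set Q : Polynomial K := ∏ s : Finset (Fin N), ∏ t ∈ Finset.univ.filter (fun t => s ≠ t),
    (p s - p t) with hQ
  have hQ0 : Q ≠ 0 := by
    rw [hQ]
    apply Finset.prod_ne_zero_iff.2
    intro s _
    apply Finset.prod_ne_zero_iff.2
    intro t ht
    exact hne s t (Finset.mem_filter.1 ht).2
  obtain ⟨m, hm⟩ : ∃ m : ℕ, Q.eval (m : K) ≠ 0 := by
    by_contra h0
    push Not at h0
    apply hQ0
    apply Polynomial.eq_zero_of_infinite_isRoot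
    refine Set.Infinite.mono ?_ (Set.infinite_range_of_injective (Nat.cast_injective (R := K)))
    rintro _ ⟨m, rfl⟩
    exact h0 m
  refine ⟨m, ?_⟩
  intro s t hst
  by_contra h0
  apply hm
  rw [hQ, Polynomial.eval_prod]
  apply Finset.prod_eq_zero (Finset.mem_univ s)
  rw [Polynomial.eval_prod]
  apply Finset.prod_eq_zero (Finset.mem_filter.2 ⟨Finset.mem_univ t, h0⟩)
  rw [Polynomial.eval_sub, hpe, hpe, sub_eq_zero]
  exact hst

end Num

variable {k : Type u} [Field k] {𝒱 : VarClass k} {ops : CycleOps 𝒱}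
  {W : WeilCohomology.{u, v} ops} {P : Polarized 𝒱} {f Φ : Module.End W.K (W.H P.X)}
  {N : ℕ} {e : Fin N → W.H P.X} {ξ : Fin N → (W.H P.X →ₗ[W.K] W.K)}

lemma map_mono {g : P.X ⟶ P.X} {b : Fin N → W.K} (hg : ∀ i, W.map g (e i) = b i • e i)
    (L : List (Fin N)) : W.map g (mono e L) = (L.map b).prod • mono e L := by
  induction L with
  | nil => simp
  | cons i L ih =>
    rw [mono_cons, map_mul, ih, hg, smul_mul_smul_comm, List.map_cons, List.prod_cons]

/-- **The simple spectrum.** -/
theorem sd_of (l : Loc W P f Φ) (G : ExtGen W.K e) (B : DB W P.X e ξ) {σ : W.K ≃+* ℂ}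
    (h11 : 0 < σ (bf W P.X P.D f 1 1)) {C : W.H P.X →+* W.H P.X}
    (hC : ∀ (c : W.K) x, C (c • x) = kap σ c • C x) (hCe : ∀ i, C (e i) ∈ W.gr P.X 1)
    (horth : ∀ i j, i ≠ j → bf W P.X P.D f (e i) (C (e j)) = 0)
    (hpos : ∀ i, 0 < σ (bf W P.X P.D f (e i) (C (e i)))) {g : P.X ⟶ P.X}
    (hCg : ∀ x, C (W.map g x) = W.map g (C x)) {b : Fin N → W.K}
    (hg : ∀ i, W.map g (e i) = b i • e i)
    (hb : Function.Injective (fun s : Finset (Fin N) => ∏ i ∈ s, b i)) :
    SD σ (W.map g).toLinearMap C (bf W P.X P.D f)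
      (fun s : Finset (Fin N) => mono e (s.sort (· ≤ ·))) (fun s => ∏ i ∈ s, b i) := by
  have hv : bf W P.X P.D f 1 1 ≠ 0 := by
    intro h0
    rw [h0, map_zero] at h11
    exact lt_irrefl _ h11
  have hspan : ∀ x ∈ W.gr P.X 1, x ∈ Submodule.span W.K (Set.range e) := by
    intro x hx
    rw [B.sum x hx]
    exact Submodule.sum_mem _ (fun i _ => Submodule.smul_mem _ _
      (Submodule.subset_span ⟨i, rfl⟩))
  set r : Fin N → W.K := fun i => bf W P.X P.D f (e i) (C (e i)) / bf W P.X P.D f 1 1 with hr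
  have hrpos : ∀ i, 0 < σ (r i) := by
    intro i
    rw [hr]
    beta_reduce
    rw [map_div₀, div_eq_mul_inv]
    exact mul_pos (hpos i) (RCLike.inv_pos_of_pos h11)
  have hfock := av_fock G B.mem hspan l.F l.t hC hCe (r := r)
    (fun i => kap_of_pos σ (hrpos i).le) hv
    (by
      intro i j
      by_cases hij : i = j
      · subst hij
        rw [if_pos rfl, hr]
        beta_reduce
        rw [div_mul_cancel₀ _ hv]
      · rw [if_neg hij, horth _ _ hij])
  have hsl : ∀ s : Finset (Fin N), (s.sort (· ≤ ·)).Pairwise (· < ·) := fun s =>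
    (Finset.sortedLT_sort s).pairwise
  refine ⟨hb, ?_, ?_, hC, hCg, ?_, ?_, fun y hy => bf_nondeg' l.F l.t hy⟩
  · intro s
    refine (map_mono hg _).trans ?_
    congr 1
    rw [← Finset.prod_map_toList]
    exact ((Finset.sort_perm_toList s (· ≤ ·)).map b).prod_eq
  · intro x
    refine Submodule.span_mono ?_ (G.span x)
    rintro _ ⟨L, hL, rfl⟩
    refine ⟨L.toFinset, ?_⟩
    beta_reduce
    rw [(List.toFinset_sort (r := (· ≤ ·)) (hL.imp ne_of_lt)).2 (hL.imp le_of_lt)]
  · intro s t hst
    rw [hfock _ _ (hsl s) (hsl t), if_neg]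
    intro h0
    apply hst
    rw [← Finset.sort_toFinset s (· ≤ ·), h0, Finset.sort_toFinset]
  · intro s
    rw [hfock _ _ (hsl s) (hsl s), if_pos rfl, map_mul]
    apply mul_pos h11
    induction (s.sort (· ≤ ·)) with
    | nil => simp
    | cons i L ih =>
      rw [List.map_cons, List.prod_cons, map_mul]
      exact mul_pos (hrpos i) ih

end Pool.Agent.W552
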