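import Pool.Agent.H281R3.HT.GDefs
import Mathlib.LinearAlgebra.Lagrange

/-!
# Irreducible representations of groups which are finite modulo a central cyclic subgroup
-/

open Finset

namespace Pool.Agent.W552

open Pool.Agent.H281R3.HT

set_option linter.unusedSectionVars false

variable {K : Type*} [Field K] [CharZero K] {V : Type*} [AddCommGroup V] [Module K V]
  [Module.Finite K V] {G : Type*} [Group G]

/-- **Burnside's theorem**: on a subspace `U` on which the central element `φ` acts as a scalar and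
on which only the scalars commute with the group, every operator is a linear combination of
operators of the group. -/
theorem burnside {φ : G} (ρ : G →* Module.End K V) (hcen : ∀ g, φ * g = g * φ)
    (hfin : Finite (G ⧸ Subgroup.zpowers φ)) {U : Submodule K V}
    (hU : ∀ g, ∀ x ∈ U, ρ g x ∈ U) {α : K} (hα : ∀ x ∈ U, ρ φ x = α • x)
    (hsc : ScalarCommutant U (fun g a => ρ g a)) {v : Module.End K V} (hv : ∀ x ∈ U, v x ∈ U) :
    ∃ w ∈ Submodule.span K (Set.range ρ), ∀ x ∈ U, w x = v x := by
  classical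
  by_cases hU0 : U = ⊥
  · refine ⟨0, Submodule.zero_mem _, fun x hx => ?_⟩
    rw [hU0, Submodule.mem_bot] at hx
    rw [hx, map_zero, map_zero]
  have : Fintype (G ⧸ Subgroup.zpowers φ) := Fintype.ofFinite _
  have hd : (Module.finrank K U : K) ≠ 0 := by
    have h1 : Nontrivial U := Submodule.nontrivial_iff_ne_bot.2 hU0
    have h2 : Module.finrank K U ≠ 0 := Module.finrank_pos.ne'
    exact_mod_cast h2
  have hN : (Fintype.card (G ⧸ Subgroup.zpowers φ) : K) ≠ 0 := by
    have : Nonempty (G ⧸ Subgroup.zpowers φ) := ⟨QuotientGroup.mk 1⟩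
    exact_mod_cast Fintype.card_ne_zero
  have hzc : ∀ x ∈ Subgroup.zpowers φ, ∀ g, x * g = g * x := by
    intro x hx g
    have h1 : Subgroup.zpowers φ ≤ Subgroup.center G := by
      rw [Subgroup.zpowers_le, Subgroup.mem_center_iff]
      intro g
      exact (hcen g).symm
    exact ((Subgroup.mem_center_iff.1 (h1 hx)) g).symm
  -- the invariance
  have hinv : ∀ (lam : V →ₗ[K] K), ∀ x ∈ U, ∀ y ∈ U, ∀ z ∈ Subgroup.zpowers φ, ∀ g,
      lam (ρ (g * z)⁻¹ x) • ρ (g * z) y = lam (ρ g⁻¹ x) • ρ g y := by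
    intro lam x hx y hy z hz
    have h1 : ∀ g, lam (ρ (g * φ)⁻¹ x) • ρ (g * φ) y = lam (ρ g⁻¹ x) • ρ g y := by
      intro g
      have e1 : α • ρ (g * φ)⁻¹ x = ρ g⁻¹ x := by
        rw [← map_smul, ← hα x hx, ← Module.End.mul_apply, ← map_mul]
        congr 2
        rw [hcen g |>.symm]
        group
      have e2 : ρ (g * φ) y = α • ρ g y := by
        rw [map_mul, Module.End.mul_apply, hα y hy, map_smul]
      rw [e2, smul_comm, ← e1, map_smul, smul_assoc]
    obtain ⟨m, rfl⟩ := hz
    induction m using Int.induction_on with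
    | zero => intro g; simp
    | succ m ih =>
      intro g
      have e : φ ^ ((m : ℤ) + 1) = φ ^ (m : ℤ) * φ := _root_.zpow_add_one φ m
      change lam (ρ (g * φ ^ ((m : ℤ) + 1))⁻¹ x) • ρ (g * φ ^ ((m : ℤ) + 1)) y = _
      rw [e, ← mul_assoc, h1]
      exact ih g
    | pred m ih =>
      intro g
      have e : φ ^ (-(m : ℤ) - 1) * φ = φ ^ (-(m : ℤ)) := by
        rw [← _root_.zpow_add_one, sub_add_cancel]
      change lam (ρ (g * φ ^ (-(m : ℤ) - 1))⁻¹ x) • ρ (g * φ ^ (-(m : ℤ) - 1)) y = _
      rw [← h1, mul_assoc, e]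
      exact ih g
  -- rank one operators
  have key : ∀ (lam : V →ₗ[K] K), ∀ x ∈ U, ∀ y ∈ U,
      (∑ κ : G ⧸ Subgroup.zpowers φ, lam (ρ (κ.out)⁻¹ x) • ρ κ.out) y =
        ((Fintype.card (G ⧸ Subgroup.zpowers φ) : K) * (Module.finrank K U : K)⁻¹ *
          lam y) • x := by
    intro lam x hx y hy
    set C : Module.End K V := ∑ κ : G ⧸ Subgroup.zpowers φ,
      (lam ∘ₗ ρ (κ.out)⁻¹).smulRight (ρ κ.out y) with hC
    have hCa : ∀ z, C z = ∑ κ : G ⧸ Subgroup.zpowers φ, lam (ρ (κ.out)⁻¹ z) • ρ κ.out y := by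
      intro z
      rw [hC, LinearMap.sum_apply]
      rfl
    have hCg : ∀ (g : G), ∀ z ∈ U, C (ρ g z) = ρ g (C z) := by
      intro g z hz
      rw [hCa, hCa, map_sum]
      symm
      set τ : G ⧸ Subgroup.zpowers φ → G ⧸ Subgroup.zpowers φ :=
        fun κ => QuotientGroup.mk (g * κ.out) with hτ
      have hinj : Function.Injective τ := by
        intro κ κ' h
        rw [hτ] at h
        beta_reduce at h
        rw [QuotientGroup.eq] at h
        have h1 : κ.out⁻¹ * κ'.out ∈ Subgroup.zpowers φ := by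
          have h3 : κ.out⁻¹ * κ'.out = (g * κ.out)⁻¹ * (g * κ'.out) := by group
          rw [h3]
          exact h
        rw [← QuotientGroup.eq, QuotientGroup.out_eq', QuotientGroup.out_eq'] at h1
        exact h1
      refine Fintype.sum_bijective τ (Finite.injective_iff_bijective.1 hinj) _ _ (fun κ => ?_)
      have h4 : (g * κ.out)⁻¹ * (τ κ).out ∈ Subgroup.zpowers φ := by
        rw [← QuotientGroup.eq, QuotientGroup.out_eq']
      have h5 : (τ κ).out = (g * κ.out) * ((g * κ.out)⁻¹ * (τ κ).out) := by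
        rw [mul_inv_cancel_left]
      rw [h5, hinv lam _ (hU g z hz) y hy _ h4 (g * κ.out), map_smul]
      congr 1
      · rw [← Module.End.mul_apply, ← map_mul]
        congr 3
        group
      · rw [map_mul]; rfl
    obtain ⟨c, hc⟩ := hsc C (by
      intro z _
      rw [hCa]
      exact Submodule.sum_mem _ (fun κ _ => Submodule.smul_mem _ _ (hU _ y hy))) hCg
    -- the trace
    set C' : Module.End K U := ∑ κ : G ⧸ Subgroup.zpowers φ,
      ((lam ∘ₗ ρ (κ.out)⁻¹) ∘ₗ U.subtype).smulRight ⟨ρ κ.out y, hU _ y hy⟩ with hC'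
    have h1 : C' = c • (1 : Module.End K U) := by
      apply LinearMap.ext
      intro t
      apply Subtype.ext
      have h2 : ((C' t : U) : V) = C t := by
        rw [hCa, hC', LinearMap.sum_apply, Submodule.coe_sum]
        rfl
      rw [h2, hc t t.2]
      rfl
    have h3 : (Fintype.card (G ⧸ Subgroup.zpowers φ) : K) * lam y =
        c * Module.finrank K U := by
      have h4 := congrArg (LinearMap.trace K U) h1
      rw [map_smul, LinearMap.trace_one, hC', map_sum, smul_eq_mul] at h4
      rw [← h4, Finset.sum_congr rfl (fun κ _ => LinearMap.trace_smulRight _ _)]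
      have h5 : ∀ κ : G ⧸ Subgroup.zpowers φ,
          ((lam ∘ₗ ρ (κ.out)⁻¹) ∘ₗ U.subtype) ⟨ρ κ.out y, hU _ y hy⟩ = lam y := by
        intro κ
        change lam (ρ (κ.out)⁻¹ (ρ κ.out y)) = lam y
        rw [← Module.End.mul_apply, ← map_mul, inv_mul_cancel, map_one, Module.End.one_apply]
      rw [Finset.sum_congr rfl (fun κ _ => h5 κ), Finset.sum_const, Finset.card_univ,
        nsmul_eq_mul]
    have h6 : (∑ κ : G ⧸ Subgroup.zpowers φ, lam (ρ (κ.out)⁻¹ x) • ρ κ.out) y = C x := by
      rw [hCa, LinearMap.sum_apply]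
      rfl
    rw [h6, hc x hx]
    congr 1
    rw [mul_right_comm, h3, mul_assoc, mul_inv_cancel₀ hd, mul_one]
  -- a basis
  set b := Module.finBasis K U with hb
  obtain ⟨e, he⟩ := U.subtype.exists_leftInverse_of_injective (Submodule.ker_subtype U)
  have heU : ∀ x (hx : x ∈ U), e x = ⟨x, hx⟩ := fun x hx =>
    congrArg (fun F => F (⟨x, hx⟩ : U)) he
  refine ⟨∑ i, ((Module.finrank K U : K) *
    (Fintype.card (G ⧸ Subgroup.zpowers φ) : K)⁻¹) •
      ∑ κ : G ⧸ Subgroup.zpowers φ, (b.coord i ∘ₗ e) (ρ (κ.out)⁻¹ (v (b i))) • ρ κ.out, ?_, ?_⟩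
  · apply Submodule.sum_mem
    intro i _
    apply Submodule.smul_mem
    apply Submodule.sum_mem
    intro κ _
    exact Submodule.smul_mem _ _ (Submodule.subset_span ⟨_, rfl⟩)
  · intro x hx
    rw [LinearMap.sum_apply]
    have h1 : v x = ∑ i, (b.coord i ∘ₗ e) x • v (b i) := by
      have h2 : x = ∑ i, (b.coord i ∘ₗ e) x • (b i : V) := by
        have h3 := congrArg (fun t : U => (t : V)) (b.sum_repr ⟨x, hx⟩)
        simp only [Submodule.coe_sum, Submodule.coe_smul] at h3
        conv_lhs => rw [← h3]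
        apply Finset.sum_congr rfl
        intro i _
        rw [LinearMap.comp_apply, heU x hx]
        rfl
      conv_lhs => rw [h2]
      rw [map_sum]
      simp only [map_smul]
    rw [h1]
    apply Finset.sum_congr rfl
    intro i _
    rw [LinearMap.smul_apply, key _ _ (hv _ (b i).2) _ hx, smul_smul]
    congr 1
    field_simp

end Pool.Agent.W552
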