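import Mathlib

/-!
# Embedding countable fields of characteristic zero into the complex numbers
-/

open Cardinal

universe v

namespace Pool.Agent.W552

theorem exists_hom_complex (F : Type v) [Field F] [CharZero F] [Countable F] :
    Nonempty (F →+* ℂ) := by
  let P := MvPolynomial ℝ F
  let Q := FractionRing P
  let A := AlgebraicClosure Q
  have : CharZero A := charZero_of_injective_algebraMap (algebraMap Q A).injective
  have hF : Cardinal.lift.{0} #F ≤ Cardinal.lift.{v} 𝔠 := by
    rw [Cardinal.lift_continuum]
    exact (by simpa using mk_le_aleph0 (α := F) : Cardinal.lift.{0} #F ≤ ℵ₀).trans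
      aleph0_le_continuum
  have hP : #P ≤ 𝔠 := by
    refine MvPolynomial.cardinalMk_le_max_lift.trans ?_
    refine max_le (max_le ?_ ?_) aleph0_le_continuum
    · rw [Cardinal.lift_id']
      exact (mk_le_aleph0 (α := F)).trans aleph0_le_continuum
    · rw [Cardinal.mk_real, Cardinal.lift_continuum]
  have hQ : #Q ≤ 𝔠 := by
    refine (IsLocalization.cardinalMk_le (R := P) (L := Q) (nonZeroDivisors P)).trans hP
  have hA : #A ≤ 𝔠 := by
    refine (Algebra.IsAlgebraic.cardinalMk_le_max Q A).trans ?_
    exact max_le hQ aleph0_le_continuum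
  have hA' : 𝔠 ≤ #A := by
    have hinj : Function.Injective (fun r : ULift.{v} ℝ => algebraMap Q A (algebraMap P Q
        (MvPolynomial.X r.down))) := by
      intro r s hrs
      have h1 := (algebraMap Q A).injective hrs
      have h2 := (IsFractionRing.injective P Q) h1
      exact ULift.ext _ _ (MvPolynomial.X_injective h2)
    have := Cardinal.mk_le_of_injective hinj
    rwa [Cardinal.mk_uLift, Cardinal.mk_real, Cardinal.lift_continuum] at this
  have hAc : #A = 𝔠 := le_antisymm hA hA'
  have hun : ℵ₀ < #A := by rw [hAc]; exact aleph0_lt_continuum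
  have hne : Nonempty (A ≃ ℂ) := by
    rw [← Cardinal.lift_mk_eq'.{v, 0}, hAc, Cardinal.mk_complex, Cardinal.lift_continuum,
      Cardinal.lift_continuum]
  obtain ⟨e⟩ := IsAlgClosed.ringEquiv_of_equiv_of_charZero hun hne
  exact ⟨e.toRingHom.comp ((algebraMap Q A).comp ((algebraMap P Q).comp MvPolynomial.C))⟩

theorem exists_subfield_hom {K : Type v} [Field K] [CharZero K] (S : Set K) (hS : S.Countable) :
    ∃ (F : Subfield K) (_ : F →+* ℂ), S ⊆ F := by
  have h1 : #(Subfield.closure S) ≤ ℵ₀ := by
    refine (Subfield.cardinalMk_closure_le_max S).trans ?_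
    exact max_le (Cardinal.le_aleph0_iff_set_countable.2 hS) le_rfl
  have : Countable (Subfield.closure S) := Cardinal.mk_le_aleph0_iff.1 h1
  obtain ⟨σ⟩ := exists_hom_complex (Subfield.closure S)
  exact ⟨Subfield.closure S, σ, Subfield.subset_closure⟩

end Pool.Agent.W552
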