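import Pool.Agent.W552.MatA
import Pool.Agent.W552.Emb
import Pool.Agent.W552.RatBasis

/-!
# Rational matrix algebras with a positive involution: the antilinear structure
-/

open Matrix
open scoped ComplexOrder

universe v

namespace Pool.Agent.W552

variable {K : Type v} [Field K] [CharZero K] {I : Type} [Fintype I] [DecidableEq I]

/-- A rational algebra of matrices with a positive involution with respect to the form `B`. -/
structure PosSys (B : Matrix I I K) (ε : I → ℤ) (E : Matrix I I K → Prop) : Prop where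
  rat : RatSub K E
  one : E 1
  mul : ∀ {A A'}, E A → E A' → E (A * A')
  hε : ∀ i, ε i * ε i = 1
  hB : IsUnit B
  hBT : Bᵀ = B * diagonal (fun i => (ε i : K))
  hεB : diagonal (fun i => (ε i : K)) * B = B * diagonal (fun i => (ε i : K))
  adj : ∀ {A}, E A → ∃ A', E A' ∧ B * A' = Aᵀ * B
  epsE : E (diagonal (fun i => (ε i : K)))
  epsC : ∀ {A}, E A → A * diagonal (fun i => (ε i : K)) = diagonal (fun i => (ε i : K)) * A
  tr : ∀ {A}, E A → ∃ q : ℚ, trace A = (q : K)
  pos : ∀ {A A'}, E A → A ≠ 0 → B * A' = Aᵀ * B → ∃ q : ℚ, 0 < q ∧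
    trace (A' * A) = (q : K)

namespace PosSys

variable {B : Matrix I I K} {ε : I → ℤ} {E : Matrix I I K → Prop} (h : PosSys B ε E)

omit [CharZero K] in
lemma eps_sq (hε : ∀ i, ε i * ε i = 1) : diagonal (fun i => (ε i : K)) *
    diagonal (fun i => (ε i : K)) = 1 := by
  rw [diagonal_mul_diagonal, ← diagonal_one]
  congr 1
  ext i
  have h2 : ((ε i * ε i : ℤ) : K) = 1 := by rw [hε i]; exact Int.cast_one
  rwa [Int.cast_mul] at h2

include h

lemma adj_adj {A A' : Matrix I I K} (hA : E A) (h1 : B * A' = Aᵀ * B) : B * A = A'ᵀ * B := by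
  have h2 := congrArg transpose h1
  rw [transpose_mul, transpose_mul, transpose_transpose, h.hBT, ← h.hεB] at h2
  set D := diagonal (fun i => (ε i : K)) with hD
  have hD2 : D * D = 1 := eps_sq h.hε
  -- `A'ᵀ D B = D B A`
  rw [h.hεB] at h2
  have h3 : A'ᵀ * B = B * (D * A * D) := by
    calc A'ᵀ * B = A'ᵀ * (B * D) * D := by rw [mul_assoc, mul_assoc B, hD2, mul_one]
      _ = B * (D * A * D) := by rw [h2, ← hD]; simp only [mul_assoc]
  rw [h3, ← h.epsC hA, mul_assoc, hD2, mul_one]

/-- The rational form. -/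
theorem exists_basis : ∃ (N : ℕ) (e : Fin N → Matrix I I K) (w : Fin N → ℚ), (∀ k, E (e k)) ∧
    (∀ k, 0 < w k) ∧ (∀ k l, trace (B⁻¹ * (e k)ᵀ * B * e l) = if k = l then (w k : K) else 0) ∧
    ∀ x, E x → ∃ r : Fin N → ℚ, x = ∑ k, (r k : K) • e k := by
  classical
  set β : Matrix I I K →ₗ[K] Matrix I I K →ₗ[K] K :=
    LinearMap.mk₂ K (fun A A' => trace (B⁻¹ * Aᵀ * B * A'))
      (by intro A A' C; rw [transpose_add, mul_add, add_mul, add_mul, trace_add])
      (by intro c A C; rw [transpose_smul, mul_smul_comm, smul_mul_assoc, smul_mul_assoc,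
        trace_smul])
      (by intro A C C'; rw [mul_add, trace_add])
      (by intro c A C; rw [mul_smul_comm, trace_smul]) with hβ
  have hβa : ∀ A A', β A A' = trace (B⁻¹ * Aᵀ * B * A') := fun A A' => rfl
  have hBu : IsUnit B.det := (isUnit_iff_isUnit_det B).1 h.hB
  have hadj : ∀ {A A'}, B * A' = Aᵀ * B → B⁻¹ * Aᵀ * B = A' := by
    intro A A' h1
    rw [mul_assoc, ← h1, nonsing_inv_mul_cancel_left _ _ hBu]
  have htr : ∀ M : Matrix I I K, trace (B⁻¹ * Mᵀ * B) = trace M := by
    intro M
    rw [trace_mul_comm, ← mul_assoc, mul_nonsing_inv _ hBu, one_mul, trace_transpose]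
  have hspec : ∀ A A', E A → E A' → ∃ A'', E A'' ∧ B * A'' = Aᵀ * B ∧
      β A A' = trace (A'' * A') := by
    intro A A' hA hA'
    obtain ⟨A'', h1, h2⟩ := h.adj hA
    exact ⟨A'', h1, h2, by rw [hβa, hadj h2]⟩
  obtain ⟨N, e, w, he, hw, horth, hspan⟩ := exists_ratBasis (K := K) (V := Matrix I I K)
    (M := E) h.rat β
    (by
      intro A A' hA hA'
      obtain ⟨A'', h1, h2, h3⟩ := hspec A A' hA hA'
      rw [h3]
      exact h.tr (h.mul h1 hA'))
    (by
      intro A A' hA hA'
      obtain ⟨A1, h1, h2, h3⟩ := hspec A A' hA hA'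
      obtain ⟨A2, h4, h5, h6⟩ := hspec A' A hA' hA
      rw [h3, h6]
      -- `(A1 A')† = A2 A`
      have h7 : B * (A2 * A) = (A1 * A')ᵀ * B := by
        rw [← mul_assoc, h5, mul_assoc, h.adj_adj hA h2, ← mul_assoc, ← transpose_mul]
      rw [← hadj h7, htr])
    (by
      intro A hA hA0
      obtain ⟨A1, h1, h2, h3⟩ := hspec A A hA hA
      rw [h3]
      exact h.pos hA hA0 h2)
  refine ⟨N, e, w, he, hw, horth, ?_⟩
  intro x hx
  apply hspan x (Submodule.subset_span hx)
  intro k
  obtain ⟨A1, h1, h2, h3⟩ := hspec x (e k) hx (he k)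
  rw [h3]
  exact h.tr (h.mul h1 (he k))

/-- **The antilinear structure.** -/
theorem exists_conj {S' : Set K} (hS' : S'.Countable) :
    ∃ (F : Subfield K) (σ : F →+* ℂ) (C : Matrix I I ℂ) (B₀ : Matrix I I F), S' ⊆ F ∧
    F.subtype.mapMatrix B₀ = B ∧ C * cj C = diagonal (fun i => (ε i : ℂ)) ∧
    (σ.mapMatrix B₀ * C).PosDef ∧ ∀ A, E A → ∃ A₀ : Matrix I I F,
      F.subtype.mapMatrix A₀ = A ∧ σ.mapMatrix A₀ * C = C * cj (σ.mapMatrix A₀) := by
  classical
  obtain ⟨N, e, w, he, hw, horth, hspan⟩ := h.exists_basis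
  have hBu : IsUnit B.det := (isUnit_iff_isUnit_det B).1 h.hB
  -- the field
  set S : Set K := (Set.range fun x : I × I => B x.1 x.2) ∪
    (Set.range fun x : Fin N × I × I => e x.1 x.2.1 x.2.2) with hS
  have hSc : S.Countable := (Set.countable_range _).union (Set.countable_range _)
  obtain ⟨F, σ, hF'⟩ := exists_subfield_hom (S ∪ S') (hSc.union hS')
  have hF : S ⊆ F := Set.subset_union_left.trans hF'
  set ι : F →+* K := F.subtype with hι
  have hιi : Function.Injective (ι.mapMatrix : Matrix I I F → Matrix I I K) := by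
    intro A A' hAA
    ext i j
    have := congrFun (congrFun hAA i) j
    exact this
  set B₀ : Matrix I I F := fun i j => ⟨B i j, hF (Or.inl ⟨(i, j), rfl⟩)⟩ with hB₀
  set e₀ : Fin N → Matrix I I F := fun k i j => ⟨e k i j, hF (Or.inr ⟨(k, i, j), rfl⟩)⟩ with he₀
  have hB₀m : ι.mapMatrix B₀ = B := rfl
  have he₀m : ∀ k, ι.mapMatrix (e₀ k) = e k := fun k => rfl
  -- the lift of the elements
  set lift : (Fin N → ℚ) → Matrix I I F := fun r => ∑ k, (r k : F) • e₀ k with hlift
  have hsmul : ∀ (τ : F →+* K) (r : F) (A : Matrix I I F),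
      τ.mapMatrix (r • A) = τ r • τ.mapMatrix A := by
    intro τ r A
    ext i j
    simp
  have hsmulC : ∀ (τ : F →+* ℂ) (r : F) (A : Matrix I I F),
      τ.mapMatrix (r • A) = τ r • τ.mapMatrix A := by
    intro τ r A
    ext i j
    simp
  have hliftm : ∀ r, ι.mapMatrix (lift r) = ∑ k, (r k : K) • e k := by
    intro r
    rw [hlift]
    beta_reduce
    rw [map_sum]
    apply Finset.sum_congr rfl
    intro k _
    rw [hsmul, he₀m, map_ratCast]
  have hliftσ : ∀ r, σ.mapMatrix (lift r) = ∑ k, (r k : ℂ) • σ.mapMatrix (e₀ k) := by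
    intro r
    rw [hlift]
    beta_reduce
    rw [map_sum]
    apply Finset.sum_congr rfl
    intro k _
    rw [hsmulC, map_ratCast]
  have hEl : ∀ A, E A → ∃ r, ι.mapMatrix (lift r) = A := by
    intro A hA
    obtain ⟨r, hr⟩ := hspan A hA
    exact ⟨r, by rw [hliftm, hr]⟩
  -- the positive definite matrix
  obtain ⟨G, hG, hGA⟩ := exists_G (fun k => σ.mapMatrix (e₀ k)) (fun k => ((w k)⁻¹ : ℝ))
    (fun k => inv_pos.2 (by exact_mod_cast hw k))
    (by
      obtain ⟨r, hr⟩ := hEl 1 h.one
      refine ⟨fun k => (r k : ℂ), ?_⟩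
      rw [← hliftσ]
      have : lift r = 1 := by
        apply hιi
        rw [hr, map_one]
      rw [this, map_one])
  have hepsm : ∀ {L : Type v} [Field L] (τ : F →+* L),
      τ.mapMatrix (diagonal (fun i => (ε i : F))) = diagonal (fun i => (ε i : L)) := by
    intro L _ τ
    ext i j
    by_cases hij : i = j
    · subst hij; simp
    · simp [diagonal_apply_ne _ hij]
  have hepsC : σ.mapMatrix (diagonal (fun i => (ε i : F))) = diagonal (fun i => (ε i : ℂ)) := by
    ext i j
    by_cases hij : i = j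
    · subst hij; simp
    · simp [diagonal_apply_ne _ hij]
  -- equivariance
  have key : ∀ A A' : Matrix I I F, E (ι.mapMatrix A) → E (ι.mapMatrix A') →
      B₀ * A' = Aᵀ * B₀ → σ.mapMatrix A * G = G * (σ.mapMatrix A')ᴴ := by
    intro A A' hA hA' hAA'
    have hAAK : B * ι.mapMatrix A' = (ι.mapMatrix A)ᵀ * B := by
      have := congrArg ι.mapMatrix hAA'
      rw [map_mul, map_mul, hB₀m] at this
      rw [this]
      rfl
    have e1 : ∀ k, ∃ r : Fin N → ℚ, A * e₀ k = lift r := by
      intro k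
      obtain ⟨r, hr⟩ := hEl (ι.mapMatrix A * e k) (h.mul hA (he k))
      refine ⟨r, ?_⟩
      apply hιi
      rw [hr, map_mul, he₀m]
    have e2 : ∀ k, ∃ r : Fin N → ℚ, A' * e₀ k = lift r := by
      intro k
      obtain ⟨r, hr⟩ := hEl (ι.mapMatrix A' * e k) (h.mul hA' (he k))
      refine ⟨r, ?_⟩
      apply hιi
      rw [hr, map_mul, he₀m]
    choose a ha using e1
    choose a' ha' using e2
    apply hGA _ _ (fun l k => ((a k l : ℚ) : ℝ)) (fun k l => ((a' l k : ℚ) : ℝ))
    · intro k
      rw [← map_mul, ha, hliftσ]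
      apply Finset.sum_congr rfl
      intro l _
      push_cast
      rfl
    · intro k
      rw [← map_mul, ha', hliftσ]
      apply Finset.sum_congr rfl
      intro l _
      push_cast
      rfl
    · intro k l
      have hadj : ∀ {A A'}, B * A' = Aᵀ * B → B⁻¹ * Aᵀ * B = A' := by
        intro A A' h1
        rw [mul_assoc, ← h1, nonsing_inv_mul_cancel_left _ _ hBu]
      -- values of the coefficients
      have hval : ∀ (r : Fin N → ℚ) l, trace (B⁻¹ * (e l)ᵀ * B * ι.mapMatrix (lift r)) =
          (r l : K) * w l := by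
        intro r l
        rw [hliftm, Finset.mul_sum, trace_sum, Finset.sum_eq_single l]
        · rw [mul_smul_comm, trace_smul, horth, if_pos rfl, smul_eq_mul]
        · intro l' _ hl
          rw [mul_smul_comm, trace_smul, horth, if_neg (Ne.symm hl), smul_zero]
        · intro h0; exact absurd (Finset.mem_univ _) h0
      have v1 := hval (a k) l
      have v2 := hval (a' l) k
      rw [← ha, map_mul, he₀m] at v1
      rw [← ha', map_mul, he₀m] at v2
      obtain ⟨el, hel, hel'⟩ := h.adj (he l)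
      obtain ⟨ek, hek, hek'⟩ := h.adj (he k)
      rw [hadj hel'] at v1
      rw [hadj hek'] at v2
      have h7 : B * (ek * (ι.mapMatrix A' * e l)) = (el * (ι.mapMatrix A * e k))ᵀ * B := by
        rw [← mul_assoc, hek', mul_assoc, ← mul_assoc B, hAAK, mul_assoc, h.adj_adj (he l) hel']
        simp only [transpose_mul, mul_assoc]
      have h8 : trace (ek * (ι.mapMatrix A' * e l)) = trace (el * (ι.mapMatrix A * e k)) := by
        rw [← hadj h7, trace_mul_comm, ← mul_assoc, mul_nonsing_inv _ hBu, one_mul,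
          trace_transpose]
      rw [v1, v2] at h8
      have h9 : (a' l k : ℚ) * w k = a k l * w l := by exact_mod_cast h8
      have hk : (w k : ℝ) ≠ 0 := by exact_mod_cast (hw k).ne'
      have hl : (w l : ℝ) ≠ 0 := by exact_mod_cast (hw l).ne'
      have h10 : ((a' l k : ℚ) : ℝ) * w k = a k l * w l := by exact_mod_cast h9
      field_simp
      linarith
  have hDt : (diagonal (fun i => (ε i : F)))ᵀ = diagonal (fun i => (ε i : F)) :=
    diagonal_transpose _
  have hDB : diagonal (fun i => (ε i : F)) * B₀ = B₀ * diagonal (fun i => (ε i : F)) := by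
    apply hιi
    rw [map_mul, map_mul, hB₀m, hepsm]
    exact h.hεB
  have hBT₀ : B₀ᵀ = B₀ * diagonal (fun i => (ε i : F)) := by
    apply hιi
    rw [map_mul, hB₀m, hepsm, ← h.hBT]
    rfl
  have hu : IsUnit (σ.mapMatrix B₀) := by
    apply IsUnit.map
    rw [isUnit_iff_isUnit_det, isUnit_iff_ne_zero]
    intro h0
    rw [isUnit_iff_ne_zero] at hBu
    apply hBu
    rw [← hB₀m, ← RingHom.map_det, h0, map_zero]
  obtain ⟨C, hC1, hC2, hC3⟩ := exists_C (G := G) (B := σ.mapMatrix B₀)
    (ε := diagonal (fun i => (ε i : ℂ))) hG hu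
    (by
      rw [diagonal_mul_diagonal, ← diagonal_one]
      congr 1
      ext i
      exact_mod_cast h.hε i)
    (by
      ext i j
      by_cases hij : i = j
      · subst hij; simp [cj]
      · simp [cj, diagonal_apply_ne _ hij])
    (by
      have := congrArg σ.mapMatrix hBT₀
      rw [map_mul, hepsC] at this
      rw [← this]
      rfl)
    (by
      have := congrArg σ.mapMatrix hDB
      rwa [map_mul, map_mul, hepsC] at this)
    (by
      have h1 := key (diagonal (fun i => (ε i : F))) (diagonal (fun i => (ε i : F)))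
        (by rw [hepsm]; exact h.epsE) (by rw [hepsm]; exact h.epsE)
        (by rw [hDt, hDB])
      rw [hepsC] at h1
      rw [h1]
      congr 1
      ext i j
      by_cases hij : i = j
      · subst hij; simp [conjTranspose_apply]
      · rw [conjTranspose_apply, diagonal_apply_ne _ (Ne.symm hij), diagonal_apply_ne _ hij]
        simp)
  refine ⟨F, σ, C, B₀, Set.subset_union_right.trans hF', hB₀m, hC1, hC2, ?_⟩
  intro A hA
  obtain ⟨r, hr⟩ := hEl A hA
  obtain ⟨A', hA', hAA'⟩ := h.adj hA
  obtain ⟨r', hr'⟩ := hEl A' hA'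
  refine ⟨lift r, hr, ?_⟩
  have hAA₀ : B₀ * lift r' = (lift r)ᵀ * B₀ := by
    apply hιi
    rw [map_mul, map_mul, hB₀m, hr', hAA', ← hr]
    rfl
  apply hC3 _ (σ.mapMatrix (lift r'))
  · exact key _ _ (by rw [hr]; exact hA) (by rw [hr']; exact hA') hAA₀
  · have := congrArg σ.mapMatrix hAA₀
    rw [map_mul, map_mul] at this
    rw [this]
    rfl
  · have h1 : lift r * diagonal (fun i => (ε i : F)) = diagonal (fun i => (ε i : F)) * lift r := by
      apply hιi
      rw [map_mul, map_mul, hr, hepsm]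
      exact h.epsC hA
    have := congrArg σ.mapMatrix h1
    rwa [map_mul, map_mul, hepsC] at this

end PosSys

end Pool.Agent.W552
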