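import Pool.Agent.W552.TautFr

/-!
# Positivity on the tautological classes on `X × X`
-/

open CategoryTheory AlgebraicGeometry Polynomial
open scoped ComplexOrder

universe u v w

namespace Pool.Agent.W552

open Pool.Agent.H914 Pool.Agent.H914.VarClass Pool.Agent.H914.VarClass.Obj
  Pool.Agent.H914.WeilCohomology Pool.Agent.H281R3.HT Pool.Agent.H447

variable {k : Type u} [Field k] {𝒱 : VarClass k} {ops : CycleOps 𝒱}
  {W : WeilCohomology.{u, v} ops}

/-- A homogeneous basis of eigenvectors. -/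
lemma exists_eigBasis {X : 𝒱.Obj} {fr : X ⟶ X} (hf : Diagonalizable W fr) :
    ∃ (N : ℕ) (e : Module.Basis (Fin N) W.K (W.H X)) (dg : Fin N → ℕ) (lam : Fin N → W.K),
      (∀ p, e p ∈ W.gr X (dg p)) ∧ ∀ p, W.map fr (e p) = lam p • e p := by
  classical
  have h1 := span_eigen hf
  set s : Set (W.H X) := {x : W.H X | ∃ (d : ℕ) (α : W.K), x ∈ W.gr X d ∧ W.map fr x = α • x}
    with hs
  let b := Module.Basis.ofSpan (K := W.K) (V := W.H X) (s := s) (by rw [h1])
  have hfin : Finite ↑((linearIndepOn_empty W.K (id : W.H X → W.H X)).extend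
    (Set.empty_subset s)) := Module.Finite.finite_basis b
  have := Fintype.ofFinite ↑((linearIndepOn_empty W.K (id : W.H X → W.H X)).extend
    (Set.empty_subset s))
  have hb : ∀ i, b i ∈ s := by
    intro i
    apply Module.Basis.ofSpan_subset (K := W.K) (V := W.H X) (s := s) (by rw [h1])
    exact ⟨i, rfl⟩
  choose d α hd hα using hb
  let ψ := Fintype.equivFin ↑((linearIndepOn_empty W.K (id : W.H X → W.H X)).extend
    (Set.empty_subset s))
  refine ⟨_, b.reindex ψ, fun p => d (ψ.symm p), fun p => α (ψ.symm p), ?_, ?_⟩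
  · intro p
    rw [Module.Basis.reindex_apply]
    exact hd _
  · intro p
    rw [Module.Basis.reindex_apply]
    exact hα _

lemma aeval_eig {K V : Type*} [Field K] [AddCommGroup V] [Module K V] {T : Module.End K V}
    {x : V} {α : K} (h : T x = α • x) (P : K[X]) : aeval T P x = P.eval α • x := by
  induction P using Polynomial.induction_on' with
  | add p q hp hq => rw [map_add, LinearMap.add_apply, hp, hq, Polynomial.eval_add, add_smul]
  | monomial m c =>
    rw [Polynomial.aeval_monomial, Module.End.mul_apply, Module.algebraMap_end_apply,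
      Polynomial.eval_monomial]
    have h1 : ∀ m : ℕ, (T ^ m) x = α ^ m • x := by
      intro m
      induction m with
      | zero => simp
      | succ m ih => rw [pow_succ', Module.End.mul_apply, ih, map_smul, h, smul_smul, pow_succ]
    rw [h1, smul_smul]

/-- The absolute values of the eigenvalues. -/
lemma norm_eig {X : 𝒱.Obj} {fr : X ⟶ X} {q : ℕ} (hRH : RiemannHypothesis W X fr q) {i : ℕ}
    {x : W.H X} (hx : x ∈ W.gr X i) (hx0 : x ≠ 0) {α : W.K} (hα : W.map fr x = α • x)
    (F : Subfield W.K) (σ : F →+* ℂ) (hp : α ∈ F) : ‖σ ⟨α, hp⟩‖ ^ 2 = (q : ℝ) ^ i := by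
  obtain ⟨P, hP0, hPa, hPz⟩ := hRH i
  apply hPz
  have h1 := hPa x hx
  have h2 : (W.map fr).toLinearMap x = α • x := hα
  rw [aeval_eig h2] at h1
  have h3 : (P.map (algebraMap ℚ W.K)).eval α = 0 := (smul_eq_zero.1 h1).resolve_right hx0
  have h4 : (P.map (algebraMap ℚ F)).eval (⟨α, hp⟩ : F) = 0 := by
    apply Subtype.ext
    have h5 : ((((P.map (algebraMap ℚ F)).eval (⟨α, hp⟩ : F)) : F) : W.K) =
        ((P.map (algebraMap ℚ F)).map F.subtype).eval α := by
      rw [Polynomial.eval_map F.subtype]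
      exact (Polynomial.eval₂_at_apply F.subtype (⟨α, hp⟩ : F)).symm
    rw [h5, Polynomial.map_map]
    have h6 : F.subtype.comp (algebraMap ℚ F) = algebraMap ℚ W.K := RingHom.ext_rat _ _
    rw [h6, h3]
    rfl
  have h5 := congrArg σ h4
  rw [map_zero] at h5
  rw [Polynomial.aeval_def, ← h5, Polynomial.eval_map, Polynomial.hom_eval₂]
  congr 1
  exact RingHom.ext_rat _ _

section Loc

variable {P : Polarized 𝒱} {fr : P.X ⟶ P.X} {q : ℕ}

/-- The operators of a group of similitudes. -/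
noncomputable def SimAction.op (A : SimAction W P fr q) : A.G →* Module.End W.K (W.H P.X) where
  toFun g := (A.ρ g).toLinearMap
  map_one' := by rw [map_one]; rfl
  map_mul' g g' := by rw [map_mul]; rfl

lemma SimAction.op_apply (A : SimAction W P fr q) (g : A.G) (a : W.H P.X) :
    A.op g a = A.ρ g a := rfl

lemma SimAction.mem (A : SimAction W P fr q) (g : A.G) (i : ℕ) (a : W.H P.X)
    (ha : a ∈ W.gr P.X i) : A.ρ g a ∈ W.gr P.X i := by
  obtain ⟨z, hz, hz'⟩ := A.alg g
  rw [← hz']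
  have h1 := corr_mem_grZ (W.cl_mem hz) ha
  rwa [show ((2 * P.X.dim : ℕ) : ℤ) + i - 2 * P.X.dim = (i : ℤ) by push_cast; ring,
    grZ_natCast] at h1

lemma SimAction.gRep (A : SimAction W P fr q) :
    GRep (W.gr P.X) (LinearMap.mulLeft W.K (W.cl P.X P.D)) A.op A.χ A.φ where
  pos := A.pos
  mem := A.mem
  hL g a := by
    rw [LinearMap.mulLeft_apply, LinearMap.mulLeft_apply, A.op_apply, map_mul, A.pol,
      smul_mul_assoc]
    rfl
  cen := A.cen
  fin := A.fin

lemma SimAction.aop (A : SimAction W P fr q) (g : A.G) : AOp W P.X P.X (A.op g) := by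
  obtain ⟨z, hz, hz'⟩ := A.alg g
  exact ⟨_, AS.of ⟨z, hz, rfl⟩, LinearMap.ext hz'⟩

/-- A polarized variety with algebraic lowering and Lefschetz operators. -/
structure Loc (W : WeilCohomology.{u, v} ops) (P : Polarized 𝒱)
    (f Φ : Module.End W.K (W.H P.X)) : Prop where
  F : Fr W P.X P.D f
  t : LefStr (W.isInternal P.X) P.X.dim (LinearMap.mulLeft W.K (W.cl P.X P.D)) f
  hΦ : IsLam (W.gr P.X) P.X.dim (LinearMap.mulLeft W.K (W.cl P.X P.D)) Φ
  aΦ : AOp W P.X P.X Φ
  ap : ∀ i, AOp W P.X P.X (proj (W.isInternal P.X) i)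
  top : ∃ b, W.tr P.X b ≠ 0

lemma exists_loc (hD : P.X.IsCyc 1 P.D) (hHL : HardLefschetz W P.X P.D)
    (hB : LefschetzB W P.X P.D) (htop : ∃ b, W.tr P.X b ≠ 0) : ∃ f Φ, Loc W P f Φ := by
  obtain ⟨f, F, t⟩ := exists_fr hD hHL hB
  have hp := proj_aop hD hHL hB
  obtain ⟨Φ, hΦ, hLam⟩ := lefschetzB_iff_rop.1 hB
  exact ⟨f, Φ, F, t, hLam, AOp.of_rop hΦ, hp, htop⟩

/-- The generators of the tautological algebra. -/
def Tg (A : SimAction W P fr q) (f Φ : Module.End W.K (W.H P.X)) :
    Module.End W.K (W.H P.X) → Module.End W.K (W.H P.X) → Prop :=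
  TGen (W.isInternal P.X) (LinearMap.mulLeft W.K (W.cl P.X P.D)) f Φ A.op A.χ

variable {A : SimAction W P fr q} {f Φ : Module.End W.K (W.H P.X)}

namespace Loc

variable (l : Loc W P f Φ)

include l

lemma aprm (i : ℕ) : AOp W P.X P.X
    (prm (W.isInternal P.X) (LinearMap.mulLeft W.K (W.cl P.X P.D)) Φ i) :=
  (AOp.ratSub.sub AOp.one (l.F.Lop.mul l.aΦ)).mul (l.ap i)

/-- The operators of the tautological algebra are algebraic. -/
lemma aop {u : Module.End W.K (W.H P.X)} (h : TA (Tg A f Φ) u) : AOp W P.X P.X u := by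
  obtain ⟨v, h⟩ := h
  refine GD.ind (p := AOp W P.X P.X) ?_ AOp.one AOp.zero (fun _ _ => AOp.add)
    (fun q _ => AOp.smul q) (fun _ _ => AOp.mul) h
  intro u v h
  cases h with
  | L => exact l.F.Lop
  | f => exact l.F.aop
  | proj j => exact l.ap j
  | prm j => exact l.aprm j
  | rho g => exact A.aop g

/-- The adjoints. -/
lemma form {u v : Module.End W.K (W.H P.X)} (h : GD (Tg A f Φ) u v) :
    ∀ a b, bf W P.X P.D f (u a) b = bf W P.X P.D f a (v b) := by
  refine h.form ?_
  intro u v h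
  cases h with
  | L => exact bf_L l.F l.t
  | f => exact bf_f l.F l.t
  | proj j => exact bf_proj l.F l.t j
  | prm j => exact bf_prm l.F l.t l.hΦ j
  | rho g =>
    exact bf_sim l.F l.t l.top (g := (A.ρ g : W.H P.X →ₐ[W.K] W.H P.X))
      (g' := (A.ρ g⁻¹ : W.H P.X →ₐ[W.K] W.H P.X)) (A.pos g).ne'
      (fun a => by
        change (A.ρ g * A.ρ g⁻¹) a = a
        rw [← map_mul, mul_inv_cancel, map_one]; rfl)
      (fun a => by
        change (A.ρ g⁻¹ * A.ρ g) a = a
        rw [← map_mul, inv_mul_cancel, map_one]; rfl)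
      (A.mem g) (A.mem g⁻¹) (A.pol g)

lemma symm {u v : Module.End W.K (W.H P.X)} (h : GD (Tg A f Φ) u v) : GD (Tg A f Φ) v u :=
  gd_symm l.t A.gRep h

lemma ta_st : TA (Tg A f Φ) (st W P.X P.D f) := ta_star l.t

lemma ta_par : TA (Tg A f Φ) (H914.par (W.isInternal P.X)) := W552.ta_par l.t

lemma st_st : st W P.X P.D f * st W P.X P.D f = 1 := l.t.star_star

/-- Positivity on the classes of the operators `t * p`, for `t` in the tautological algebra and a
self-adjoint algebraic idempotent operator `p` commuting with it. -/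
theorem pos (hdiag : Diagonalizable W fr) (hRH : RiemannHypothesis W P.X fr q)
    {p : Module.End W.K (W.H P.X)} (hpp : p * p = p)
    (hpadj : ∀ a b, bf W P.X P.D f (p a) b = bf W P.X P.D f a (p b))
    (hcomm : ∀ u, TA (Tg A f Φ) u → u * p = p * u) {x : W.H (P.X.prod P.X)}
    (hx : AS W _ x) {u : Module.End W.K (W.H P.X)} (hu : TA (Tg A f Φ) u)
    (hxu : W.corr x = u * p) (hx0 : x ≠ 0) : ∃ s : ℚ, 0 < s ∧
      bf W (P.X.prod P.X) (ops.pull (fst P.X P.X) P.D + ops.pull (snd P.X P.X) P.D)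
        (extSum W f f) x x = s := by
  set w : Module.End W.K (W.H P.X) := H914.par (W.isInternal P.X) * st W P.X P.D f with hw
  have hwt : TA (Tg A f Φ) w := l.ta_par.mul l.ta_st
  obtain ⟨v, hv⟩ := hu.mul hwt
  have hvt : TA (Tg A f Φ) v := ⟨_, l.symm hv⟩
  have hth : th W P.D f x = u * w * p := by
    rw [mul_assoc, hcomm _ hwt, ← mul_assoc, ← hxu]
    rfl
  obtain ⟨N, e, dg, lam, he, hlam⟩ := exists_eigBasis hdiag
  obtain ⟨F, σ, S, hS, h1, h2, h3, h4, p', hp'⟩ := exists_S l.t l.hΦ A.gRep e dg lam he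
    (fun i => by rw [A.op_apply, A.frob, hlam]) (by
      intro F σ i hi
      rw [A.frob_χ, norm_eig hRH (he i) (e.ne_zero i) (hlam i) F σ hi]
      push_cast
      rfl) p
  obtain ⟨S', hS', hpS, hcS⟩ := exists_split hS hpp hp'
  have hadj : ∀ u v, GD (Tg A f Φ) u v → AdjS F σ e S' u v := by
    intro u v h
    refine hcS u v ?_ (hcomm u ⟨_, h⟩) (hcomm v ⟨_, l.symm h⟩)
    exact h.adjS (TGen.adjS hS.isHermitian h1 h2 h3 h4)
  have hmain := (hadj _ _ hv).mul hpS
  obtain ⟨s, hs⟩ := (l.F.prod l.F).bf_rat hx hx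
  refine ⟨s, ?_, hs⟩
  refine hmain.pos hS' ?_ ?_
  · intro h0
    apply hx0
    apply corr_inj
    rw [← hth] at h0
    have h5 : W.corr x = th W P.D f x ∘ₗ (st W P.X P.D f * H914.par (W.isInternal P.X)) := by
      rw [th]
      change W.corr x = W.corr x * (H914.par (W.isInternal P.X) * st W P.X P.D f) *
        (st W P.X P.D f * H914.par (W.isInternal P.X))
      rw [mul_assoc, mul_assoc (H914.par (W.isInternal P.X)), ← mul_assoc (st W P.X P.D f),
        l.st_st, one_mul, par_mul_par, mul_one]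
    rw [h5, h0, LinearMap.zero_comp]
  · rw [← hs, ← trace_th l.F l.F hx (u' := p * v)]
    · rw [hth]; rfl
    · intro a b
      rw [hth]
      simp only [Module.End.mul_apply]
      rw [← Module.End.mul_apply u w, l.form hv, hpadj]

end Loc

end Loc

end Pool.Agent.W552
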