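import Pool.Agent.W552.Burn
import Pool.Agent.W552.TautLoc
open Finset Polynomial
namespace Pool.Agent.W552
variable {K : Type*} [Field K] [CharZero K] {V : Type*} [AddCommGroup V] [Module K V]
  [Module.Finite K V]

/-- The projections onto the eigenspaces of a diagonalizable operator. -/
theorem exists_eigProj {T : Module.End K V}
    (hT : Submodule.span K {y : V | ∃ α : K, T y = α • y} = ⊤) :
    ∃ (s : Finset K) (E : K → Module.End K V), (∑ α ∈ s, E α = 1) ∧
      (∀ α ∈ s, ∀ x, T (E α x) = α • E α x) ∧ (∀ α ∈ s, ∀ x, T x = α • x → E α x = x) ∧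
      (∀ α, E α ∈ Submodule.span K (Set.range fun m : ℕ => T ^ m)) ∧
      ∀ α u, u * T = T * u → u * E α = E α * u := by
  classical
  set s : Finset K := (Module.End.finite_hasEigenvalue T).toFinset with hs
  have hmem : ∀ (x : V) (β : K), T x = β • x → x ≠ 0 → β ∈ s := by
    intro x β h h0
    rw [hs, Set.Finite.mem_toFinset]
    exact Module.End.hasEigenvalue_of_hasEigenvector (x := x)
      ⟨Module.End.mem_eigenspace_iff.2 h, h0⟩
  set E : K → Module.End K V := fun α => aeval T (Lagrange.basis s id α) with hE
  have hEx : ∀ α ∈ s, ∀ (x : V) (β : K), T x = β • x → E α x = if β = α then x else 0 := by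
    intro α hα x β h
    by_cases hx : x = 0
    · rw [hx, map_zero]; split_ifs <;> rfl
    have hβ := hmem x β h hx
    rw [hE]
    beta_reduce
    rw [aeval_eig h]
    split_ifs with hβα
    · have h1 := Lagrange.eval_basis_self (v := (id : K → K)) (s := s)
        Function.injective_id.injOn hα
      rw [hβα]
      simp only [id] at h1
      rw [h1, one_smul]
    · have h1 := Lagrange.eval_basis_of_ne (v := (id : K → K)) (s := s) (i := α) (j := β)
        (Ne.symm hβα) hβ
      simp only [id] at h1
      rw [h1, zero_smul]
  have hext : ∀ A B : Module.End K V, (∀ (x : V) (β : K), T x = β • x → A x = B x) → A = B := by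
    intro A B h
    apply LinearMap.ext
    intro x
    have hx : x ∈ Submodule.span K {y : V | ∃ α : K, T y = α • y} := by
      rw [hT]; exact Submodule.mem_top
    induction hx using Submodule.span_induction with
    | mem x hx => obtain ⟨β, hβ⟩ := hx; exact h x β hβ
    | zero => rw [map_zero, map_zero]
    | add x y _ _ hx hy => rw [map_add, map_add, hx, hy]
    | smul c x _ hx => rw [map_smul, map_smul, hx]
  refine ⟨s, E, ?_, ?_, ?_, ?_, ?_⟩
  · apply hext
    intro x β h
    rw [LinearMap.sum_apply, Module.End.one_apply]
    by_cases hx : x = 0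
    · rw [hx]; simp
    have hβ := hmem x β h hx
    rw [Finset.sum_congr rfl (fun α hα => hEx α hα x β h), Finset.sum_ite_eq, if_pos hβ]
  · intro α hα x
    have h1 : T * E α = α • E α := by
      apply hext
      intro x β h
      rw [Module.End.mul_apply, LinearMap.smul_apply, hEx α hα x β h]
      split_ifs with h2
      · rw [h, h2]
      · rw [map_zero, smul_zero]
    exact congrArg (fun F => F x) h1
  · intro α hα x h
    rw [hEx α hα x α h, if_pos rfl]
  · intro α
    rw [hE]
    beta_reduce
    rw [Polynomial.aeval_eq_sum_range]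
    exact Submodule.sum_mem _ fun i _ => Submodule.smul_mem _ _ (Submodule.subset_span ⟨i, rfl⟩)
  · intro α u h
    rw [hE]
    beta_reduce
    rw [Polynomial.aeval_eq_sum_range, Finset.mul_sum, Finset.sum_mul]
    apply Finset.sum_congr rfl
    intro i _
    have h1 : Commute u (T ^ i) := Commute.pow_right h i
    rw [mul_smul_comm, smul_mul_assoc, h1.eq]

end Pool.Agent.W552
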