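import Pool.Agent.H914R2.AProj
import Pool.Agent.H914R2.PProd

/-!
# The star operator of a hard Lefschetz structure
-/

open Finset

namespace Pool.Agent.W552

open Pool.Agent.H914

variable {K : Type*} [Field K] [CharZero K] {V : Type*} [AddCommGroup V] [Module K V]
  [Module.Finite K V] {gr : ℕ → Submodule K V} {n : ℕ} {L Lam : Module.End K V}

/-- The sign `(-1)^(i(i-1)/2)`. -/
def sg (i : ℕ) : ℤ := (-1) ^ (i * (i - 1) / 2)

lemma sg_sq (i : ℕ) : sg i * sg i = 1 := by
  rw [sg, ← pow_add, ← two_mul, pow_mul]; simp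

lemma sg_add (i j : ℕ) : sg (i + j) = sg i * sg j * (-1) ^ (i * j) := by
  rw [sg, sg, sg, ← pow_add, ← pow_add]
  have h : ∀ m : ℕ, m * (m - 1) / 2 = m.choose 2 := fun m => (Nat.choose_two_right m).symm
  rw [h, h, h]
  congr 1
  rw [Nat.add_choose_eq, Finset.Nat.antidiagonal_succ]
  simp [Finset.Nat.antidiagonal_succ]
  ring

lemma sg_two_mul (c : ℕ) : sg (2 * c) = (-1) ^ c := by
  induction c with
  | zero => simp [sg]
  | succ c ih =>
    rw [show 2 * (c + 1) = 2 * c + 2 by ring, sg_add, ih]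
    have : sg 2 = -1 := by simp [sg]
    rw [this, pow_succ]
    have h2 : (-1 : ℤ) ^ (2 * c * 2) = 1 := by rw [mul_comm, pow_mul]; simp
    rw [h2]; ring

lemma sg_compl {n i : ℕ} (hi : i ≤ 2 * n) : sg (2 * n - i) * sg i = (-1) ^ (n + i) := by
  have h1 := sg_add (2 * n - i) i
  rw [show 2 * n - i + i = 2 * n by omega, sg_two_mul] at h1
  have h2 : (-1 : ℤ) ^ ((2 * n - i) * i) = (-1) ^ i := by
    rcases Nat.even_or_odd i with h | h
    · rw [(h.mul_left _).neg_one_pow, h.neg_one_pow]
    · have h3 : Odd (2 * n - i) := Nat.Even.sub_odd hi (even_two_mul _) h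
      rw [(h3.mul h).neg_one_pow, h.neg_one_pow]
  rw [h2] at h1
  have h3 : (-1 : ℤ) ^ i * (-1) ^ i = 1 := by rw [← mul_pow]; simp
  rw [pow_add, h1]
  linear_combination (-(sg (2 * n - i) * sg i)) * h3

/-- The structure needed for the star operator. -/
structure LefStr (h : DirectSum.IsInternal gr) (n : ℕ) (L Lam : Module.End K V) : Prop where
  hL : IsHom gr 2 L
  hbd : ∀ i, 2 * n + 1 ≤ i → gr i = ⊥
  hHL : HardLef gr n L
  sl2 : Sl2 (wt h n) L Lam

namespace LefStr

variable {h : DirectSum.IsInternal gr} (t : LefStr h n L Lam)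

include t

lemma low {i : ℕ} (hi : i ≤ n) {a : V} (ha : a ∈ gr i) (hp : (L ^ (n - i + 1)) a = 0) :
    Lam a = 0 ∧ wt h n a = -((n - i : ℕ) : K) • a := by
  have h1 : wt h n a = -((n - i : ℕ) : K) • a := by
    rw [wt, scal_apply _ _ ha, node, Nat.cast_sub hi]
    congr 1
    push_cast
    ring
  exact ⟨t.sl2.f_eq_zero h1 hp, h1⟩

/-- The Weyl operator on `L ^ j a`, `a` primitive. -/
lemma w_L_pow {i : ℕ} (hi : i ≤ n) {a : V} (ha : a ∈ gr i) (hp : (L ^ (n - i + 1)) a = 0)
    {j : ℕ} (hj : j ≤ n - i) : wey L Lam ((L ^ j) a) =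
      ((-1 : K) ^ j * (j.factorial * ((n - i - j).factorial : K)⁻¹)) • (L ^ (n - i - j)) a := by
  obtain ⟨h1, h2⟩ := t.low hi ha hp
  rw [weyl_pow (wey_e t.sl2), wey_lowest t.sl2 h1 h2, map_smul,
    Sl2.f_pow_e_pow t.sl2 h1 h2 hj, smul_smul, smul_smul]
  congr 1
  have h3 : ((n - i).factorial : K) ≠ 0 := by exact_mod_cast Nat.factorial_ne_zero _
  field_simp

lemma w_sq {i : ℕ} {a : V} (ha : a ∈ gr i) :
    wey L Lam (wey L Lam a) = (-1 : K) ^ (n + i) • a := by
  have key := lef_induction (n := n) t.hL t.hbd t.hHL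
    (p := fun i a => wey L Lam (wey L Lam a) = (-1 : K) ^ (n + i) • a)
    (by intro i a b ha hb; rw [map_add, map_add, ha, hb, smul_add])
    (by
      intro i hi a ha hp j
      by_cases hj : n - i < j
      · rw [L_pow_gt hp hj]; simp
      push Not at hj
      rw [t.w_L_pow hi ha hp hj, map_smul, t.w_L_pow hi ha hp (j := n - i - j) (by omega),
        smul_smul, show n - i - (n - i - j) = j by omega]
      congr 1
      have e1 : (j.factorial : K) ≠ 0 := by exact_mod_cast Nat.factorial_ne_zero _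
      have e2 : ((n - i - j).factorial : K) ≠ 0 := by exact_mod_cast Nat.factorial_ne_zero _
      have e3 : (-1 : K) ^ (n + (i + 2 * j)) = (-1) ^ j * (-1) ^ (n - i - j) := by
        rw [← pow_add, show n + (i + 2 * j) = (j + (n - i - j)) + 2 * (i + j) by omega, pow_add,
          pow_mul (-1 : K) 2]
        simp
      rw [e3]
      field_simp)
  by_cases hi : i ≤ n
  · simpa using key i hi a ha 0
  by_cases hi2 : i ≤ 2 * n
  · obtain ⟨b, hb, hb'⟩ := (t.hHL (2 * n - i) (by omega)).2 a
      (by rw [show 2 * n - (2 * n - i) = i by omega]; exact ha)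
    have := key _ (by omega) b hb (n - (2 * n - i))
    rw [hb', show 2 * n - i + 2 * (n - (2 * n - i)) = i by omega] at this
    exact this
  · rw [t.hbd i (by omega)] at ha
    rw [(Submodule.mem_bot _).1 ha]; simp

lemma w_mem {i : ℕ} (hi2 : i ≤ 2 * n) {a : V} (ha : a ∈ gr i) :
    wey L Lam a ∈ gr (2 * n - i) := by
  have key := lef_induction (n := n) t.hL t.hbd t.hHL
    (p := fun i a => wey L Lam a ∈ gr (2 * n - i))
    (by intro i a b ha hb; rw [map_add]; exact Submodule.add_mem _ ha hb)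
    (by
      intro i hi a ha hp j
      by_cases hj : n - i < j
      · rw [L_pow_gt hp hj, map_zero]; exact Submodule.zero_mem _
      push Not at hj
      rw [t.w_L_pow hi ha hp hj]
      apply Submodule.smul_mem
      have := pow_L_mem t.hL ha (n - i - j)
      rwa [show i + 2 * (n - i - j) = 2 * n - (i + 2 * j) by omega] at this)
  by_cases hi : i ≤ n
  · simpa using key i hi a ha 0
  · obtain ⟨b, hb, hb'⟩ := (t.hHL (2 * n - i) (by omega)).2 a
      (by rw [show 2 * n - (2 * n - i) = i by omega]; exact ha)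
    have := key _ (by omega) b hb (n - (2 * n - i))
    rw [hb', show 2 * n - i + 2 * (n - (2 * n - i)) = i by omega] at this
    exact this

omit t in
/-- The star operator. -/
noncomputable def _root_.Pool.Agent.W552.star' (h : DirectSum.IsInternal gr) (L Lam : Module.End K V) : Module.End K V :=
  wey L Lam * scal h (fun i => (sg i : K))

omit t [CharZero K] [Module.Finite K V] in
lemma scal_sg {i : ℕ} {a : V} (ha : a ∈ gr i) :
    scal h (fun i => (sg i : K)) a = (sg i : K) • a := scal_apply h _ ha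

omit t [Module.Finite K V] in
lemma star_apply {i : ℕ} {a : V} (ha : a ∈ gr i) :
    star' h L Lam a = (sg i : K) • wey L Lam a := by
  rw [star', Module.End.mul_apply, scal_sg ha, map_smul]

lemma star_mem {i : ℕ} (hi2 : i ≤ 2 * n) {a : V} (ha : a ∈ gr i) :
    star' h L Lam a ∈ gr (2 * n - i) := by
  rw [star_apply ha]
  exact Submodule.smul_mem _ _ (t.w_mem hi2 ha)

lemma star_star : star' h L Lam * star' h L Lam = 1 := by
  apply gr_ext h
  intro i a ha
  by_cases hi2 : i ≤ 2 * n
  · rw [Module.End.mul_apply, star_apply ha, map_smul, star_apply (t.w_mem hi2 ha), t.w_sq ha,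
      smul_smul, smul_smul, Module.End.one_apply]
    have h1 := sg_compl hi2
    have h2 : (sg i : K) * ((sg (2 * n - i) : K) * (-1 : K) ^ (n + i)) = 1 := by
      have h3 : sg i * (sg (2 * n - i) * (-1) ^ (n + i)) = 1 := by
        rw [← h1]
        calc sg i * (sg (2 * n - i) * (sg (2 * n - i) * sg i)) =
            (sg i * sg i) * (sg (2 * n - i) * sg (2 * n - i)) := by ring
          _ = 1 := by rw [sg_sq, sg_sq, one_mul]
      exact_mod_cast congrArg (Int.cast (R := K)) h3
    rw [mul_assoc, h2, one_smul]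
  · rw [t.hbd i (by omega)] at ha
    rw [(Submodule.mem_bot _).1 ha]; simp

section Form

variable {B : V →ₗ[K] V →ₗ[K] K} (hself : ∀ a b, B (L a) b = B a (L b))
  (hdeg : ∀ i j, ∀ a ∈ gr i, ∀ b ∈ gr j, i + j ≠ 2 * n → B a b = 0)

include hself hdeg

/-- The Weyl operator is self-adjoint. -/
lemma w_self (a b : V) : B (wey L Lam a) b = B a (wey L Lam b) := by
  have hpow : ∀ (k : ℕ) (a b : V), B ((L ^ k) a) b = B a ((L ^ k) b) := by
    intro k
    induction k with
    | zero => intro a b; simp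
    | succ k ih =>
      intro a b
      rw [pow_succ, Module.End.mul_apply, ih, hself, ← Module.End.mul_apply L, ← pow_succ',
        ← pow_succ]
  refine lef_induction' (n := n) h t.hL t.hbd t.hHL
    (p := fun a => B (wey L Lam a) b = B a (wey L Lam b)) ?_ ?_ a
  · intro a a' ha ha'
    rw [map_add, map_add, LinearMap.add_apply, map_add, LinearMap.add_apply, ha, ha']
  intro i hi u hu hp j
  refine lef_induction' (n := n) h t.hL t.hbd t.hHL
    (p := fun b => B (wey L Lam ((L ^ j) u)) b = B ((L ^ j) u) (wey L Lam b)) ?_ ?_ b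
  · intro b b' hb hb'
    rw [map_add, map_add, map_add, hb, hb']
  intro i' hi' u' hu' hp' j'
  by_cases hj : n - i < j
  · rw [L_pow_gt hp hj, map_zero, map_zero]; simp
  by_cases hj' : n - i' < j'
  · rw [L_pow_gt hp' hj', map_zero, map_zero]; simp
  push Not at hj hj'
  rw [t.w_L_pow hi hu hp hj, t.w_L_pow hi' hu' hp' hj', map_smul,
    LinearMap.smul_apply, map_smul, hpow, hpow, ← Module.End.mul_apply, ← Module.End.mul_apply,
    ← pow_add, ← pow_add]
  by_cases hii : i = i'
  · subst hii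
    by_cases hjj : j = j'
    · subst hjj
      rw [show n - i - j + j = j + (n - i - j) by omega]
    · have e1 : B u ((L ^ (n - i - j + j')) u') = 0 :=
        hdeg _ _ _ hu _ (pow_L_mem t.hL hu' _) (by omega)
      have e2 : B u ((L ^ (j + (n - i - j'))) u') = 0 :=
        hdeg _ _ _ hu _ (pow_L_mem t.hL hu' _) (by omega)
      rw [e1, e2, smul_zero, smul_zero]
  · have key : ∀ m, B u ((L ^ m) u') = 0 := by
      intro m
      by_cases hd : i + (i' + 2 * m) = 2 * n
      · rcases lt_or_gt_of_ne hii with hlt | hlt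
        · rw [L_pow_gt (n := n) hp' (by omega), map_zero]
        · rw [← hpow, L_pow_gt (n := n) hp (by omega), map_zero, LinearMap.zero_apply]
      · exact hdeg _ _ _ hu _ (pow_L_mem t.hL hu' _) hd
    rw [key, key, smul_zero, smul_zero]

/-- The symmetry of the form `B (a, star b)`. -/
lemma form_symm (hcomm : ∀ i j, ∀ a ∈ gr i, ∀ b ∈ gr j, B a b = (-1 : K) ^ (i * j) * B b a)
    {i j : ℕ} {a b : V} (ha : a ∈ gr i) (hb : b ∈ gr j) :
    B b (star' h L Lam a) = (-1 : K) ^ i * B a (star' h L Lam b) := by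
  by_cases hi2 : i ≤ 2 * n
  swap
  · rw [t.hbd i (by omega)] at ha
    rw [(Submodule.mem_bot _).1 ha]; simp
  by_cases hj2 : j ≤ 2 * n
  swap
  · rw [t.hbd j (by omega)] at hb
    rw [(Submodule.mem_bot _).1 hb]; simp
  by_cases hij : i = j
  · subst hij
    rw [star_apply ha, star_apply hb, map_smul, map_smul, ← t.w_self hself hdeg b a,
      hcomm _ _ _ (t.w_mem hi2 hb) _ ha]
    have h1 : (-1 : K) ^ ((2 * n - i) * i) = (-1) ^ i := by
      rcases Nat.even_or_odd i with h | h
      · rw [(h.mul_left _).neg_one_pow, h.neg_one_pow]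
      · have h3 : Odd (2 * n - i) := Nat.Even.sub_odd hi2 (even_two_mul _) h
        rw [(h3.mul h).neg_one_pow, h.neg_one_pow]
    rw [h1, smul_eq_mul, smul_eq_mul]
    ring
  · rw [hdeg _ _ _ hb _ (t.star_mem hi2 ha) (by omega),
      hdeg _ _ _ ha _ (t.star_mem hj2 hb) (by omega), mul_zero]

omit hself in
lemma form_deg {i j : ℕ} {a b : V} (ha : a ∈ gr i) (hb : b ∈ gr j) (hij : i ≠ j) :
    B a (star' h L Lam b) = 0 := by
  by_cases hj2 : j ≤ 2 * n
  swap
  · rw [t.hbd j (by omega)] at hb
    rw [(Submodule.mem_bot _).1 hb]; simp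
  exact hdeg _ _ _ ha _ (t.star_mem hj2 hb) (by omega)

end Form

end LefStr

end Pool.Agent.W552
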