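import Pool.Agent.W552.Frob
import Pool.Agent.H914R2.KLef
import Pool.Agent.H914R2.HLam
import Pool.Agent.H914R2.GConv

/-!
# The Tate conjecture for `X × X` implies the Lefschetz standard conjecture for `X`
-/

open CategoryTheory AlgebraicGeometry

universe u v w

namespace Pool.Agent.W552

open Pool.Agent.H914 Pool.Agent.H914.VarClass Pool.Agent.H914.VarClass.Obj
  Pool.Agent.H914.WeilCohomology Pool.Agent.H281R3.HT

variable {k : Type u} [Field k] {𝒱 : VarClass k} {ops : CycleOps 𝒱}
  {W : WeilCohomology.{u, v} ops} {X : 𝒱.Obj}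

lemma proj_grZ {e : ℤ} {x : W.H X} (hx : x ∈ grZ (W.gr X) e) (r : ℕ) (hr : (r : ℤ) ≠ e) :
    H914.proj (W.isInternal X) r x = 0 := by
  by_cases h0 : 0 ≤ e
  · lift e to ℕ using h0
    rw [grZ_natCast] at hx
    exact proj_ne _ hx (fun h => hr (by exact_mod_cast h.symm))
  · rw [grZ_of_neg (by omega)] at hx
    rw [(Submodule.mem_bot _).1 hx, map_zero]

lemma corr_mem_grZ {l i : ℕ} {c : W.H (X.prod X)} (hc : c ∈ W.gr (X.prod X) l) {a : W.H X}
    (ha : a ∈ W.gr X i) : W.corr c a ∈ grZ (W.gr X) ((l : ℤ) + i - 2 * X.dim) := by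
  have h1 := W.push_mem (snd X X) (W.mul_mem hc (W.map_mem (fst X X) ha))
  rw [corr_apply]
  have e : ((l + i : ℕ) : ℤ) + 2 * ((X.dim : ℤ) - (X.prod X).dim) =
      (l : ℤ) + i - 2 * X.dim := by
    rw [dim_prod]; push_cast; ring
  rwa [e] at h1

lemma gr_of_corr {e : ℕ} {c : W.H (X.prod X)}
    (h : ∀ i, ∀ a ∈ W.gr X i, W.corr c a ∈ grZ (W.gr X) ((e : ℤ) + i - 2 * X.dim)) :
    c ∈ W.gr (X.prod X) e := by
  have hsum : ∑ l ∈ Finset.range (2 * (X.prod X).dim + 1),
      H914.proj (W.isInternal (X.prod X)) l c = c := by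
    have := sum_proj (W.isInternal (X.prod X)) (N := 2 * (X.prod X).dim + 1)
      (fun i hi => W.gr_eq_bot (X.prod X) i (by omega))
    have h2 := congrArg (fun F => F c) this
    simpa [LinearMap.sum_apply] using h2
  have key : ∀ l, l ≠ e → H914.proj (W.isInternal (X.prod X)) l c = 0 := by
    intro l hl
    by_cases hl2 : 2 * (X.prod X).dim < l
    · have := proj_mem (W.isInternal (X.prod X)) l c
      rw [W.gr_eq_bot _ l hl2] at this
      exact (Submodule.mem_bot _).1 this
    apply corr_inj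
    apply gr_ext (W.isInternal X)
    intro i a ha
    rw [LinearMap.zero_apply]
    have h1 := corr_mem_grZ (proj_mem (W.isInternal (X.prod X)) l c) ha
    by_cases h0 : 0 ≤ (l : ℤ) + i - 2 * X.dim
    · obtain ⟨r, hr⟩ : ∃ r : ℕ, (r : ℤ) = (l : ℤ) + i - 2 * X.dim :=
        ⟨_, Int.toNat_of_nonneg h0⟩
      have h2 : W.corr c a = ∑ l ∈ Finset.range (2 * (X.prod X).dim + 1),
          W.corr (H914.proj (W.isInternal (X.prod X)) l c) a := by
        conv_lhs => rw [← hsum]
        have h3 := map_sum (corrEquiv W X) (fun l => H914.proj (W.isInternal (X.prod X)) l c)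
          (Finset.range (2 * (X.prod X).dim + 1))
        have h4 := congrArg (fun F => F a) h3
        beta_reduce at h4
        rw [LinearMap.sum_apply] at h4
        exact h4
      have h3 := congrArg (H914.proj (W.isInternal X) r) h2
      rw [map_sum, Finset.sum_eq_single l, proj_grZ (h i a ha)] at h3
      · rw [← hr, grZ_natCast] at h1
        rw [proj_same _ h1] at h3
        exact h3.symm
      · omega
      · intro l' _ hl'
        exact proj_grZ (corr_mem_grZ (proj_mem _ _ _) ha) _ (by omega)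
      · intro h'
        exact absurd (Finset.mem_range.2 (by omega)) h'
    · rw [grZ_of_neg (by omega)] at h1
      exact (Submodule.mem_bot _).1 h1
  rw [← hsum]
  apply Submodule.sum_mem
  intro l _
  by_cases hl : l = e
  · subst hl; exact proj_mem _ _ _
  · rw [key l hl]; exact Submodule.zero_mem _

lemma algSpan_gr {Y : 𝒱.Obj} {γ : W.H Y} (hγ : γ ∈ algSpan W Y) {p : ℕ}
    (hp : γ ∈ W.gr Y (2 * p)) : γ ∈ spanCycles W Y (p : ℤ) := by
  have key : ∀ γ ∈ algSpan W Y, H914.proj (W.isInternal Y) (2 * p) γ ∈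
      spanCycles W Y (p : ℤ) := by
    intro γ hγ
    induction hγ using Submodule.span_induction with
    | mem x hx =>
      obtain ⟨j, hx⟩ := Set.mem_iUnion.1 hx
      by_cases hj : j = p
      · subst hj
        rw [proj_same _ (alg_gr hx)]
        obtain ⟨z, hz, rfl⟩ := hx
        exact Submodule.subset_span ⟨j, rfl, z, hz, rfl⟩
      · rw [proj_ne _ (alg_gr hx) (by omega)]
        exact Submodule.zero_mem _
    | zero => rw [map_zero]; exact Submodule.zero_mem _
    | add x y _ _ hx hy => rw [map_add]; exact Submodule.add_mem _ hx hy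
    | smul t x _ hx => rw [map_smul]; exact Submodule.smul_mem _ _ hx
  have h1 := key γ hγ
  rwa [proj_same _ hp] at h1

/-- **The Tate conjecture for `X × X` implies the Lefschetz standard conjecture for `X`.** -/
theorem lefschetzB_of_tate {D : X.Cycles} (hD : X.IsCyc 1 D) (hHL : HardLefschetz W X D)
    {f : X ⟶ X} {q : ℕ} (hq : q ≠ 0) (hF : FrobeniusOnCycles W X f q)
    (hT : TateClassesAlgebraic W (X.prod X) (pairMap f f) q) : LefschetzB W X D := by
  by_cases h1 : (1 : W.H X) = 0
  · have h0 : ∀ a : W.H X, a = 0 := fun a => by rw [← one_mul a, h1, zero_mul]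
    exact ⟨0, SmVar.IsCyc.zero _ _, fun i hi a _ _ => ⟨h0 _, fun j _ => (h0 _).trans (h0 _).symm⟩⟩
  set n := X.dim with hn
  set L : Module.End W.K (W.H X) := LinearMap.mulLeft W.K (W.cl X D) with hLdef
  have hL : IsHom (W.gr X) 2 L := by
    simpa using rop_opAlg.hom (rop_mulLeft (W := W) hD)
  obtain ⟨m, hm, hm'⟩ := hF 1 D hD
  rw [cl_pull_iter, ← map_iter, mul_one] at hm'
  set φ := iter f m with hφ
  set Q : W.K := (q : W.K) ^ m with hQ
  have hQ0 : Q ≠ 0 := pow_ne_zero _ (by exact_mod_cast hq)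
  have hLφ : ∀ (i : ℕ) (a : W.H X), W.map φ ((L ^ i) a) = Q ^ i • (L ^ i) (W.map φ a) := by
    intro i a
    induction i with
    | zero => simp
    | succ i ih =>
      rw [pow_succ', Module.End.mul_apply, hLdef, LinearMap.mulLeft_apply, ← hLdef, map_mul, hm',
        ih, smul_mul_smul_comm, ← pow_succ']
      rfl
  -- the degree of the endomorphism
  set b : W.H X := (L ^ n) 1 with hb
  have hbm : b ∈ W.gr X (2 * X.dim) := by
    have := pow_L_mem hL (W.one_mem X) n
    rwa [zero_add] at this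
  have hb0 : W.tr X b ≠ 0 := by
    intro h0
    apply h1
    exact (hHL 0 (Nat.zero_le _)).1 1 (W.one_mem X) (by
      rw [Nat.sub_zero]; exact eq_zero_of_top hbm h0)
  have hφb : W.map φ b = Q ^ n • b := by rw [hb, hLφ, map_one]
  have hδ := tr_map_of_top hbm hb0 hφb
  have hδ0 : Q ^ n ≠ 0 := pow_ne_zero _ hQ0
  -- the Lefschetz operator
  obtain ⟨Φ, hΦh, hΦ⟩ := exists_isLam (W.isInternal X) hL W_hbd hHL
  have hcomm : ∀ y, Φ (W.map φ y) = Q • W.map φ (Φ y) := by
    intro y
    refine lef_induction' (W.isInternal X) hL W_hbd hHL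
      (p := fun y => Φ (W.map φ y) = Q • W.map φ (Φ y)) ?_ ?_ y
    · intro a c ha hc
      rw [map_add, map_add, ha, hc, map_add, map_add, smul_add]
    · intro i hi u hu hpu j
      by_cases hj : n - i < j
      · rw [L_pow_gt hpu hj, map_zero, map_zero, map_zero, smul_zero]
      · have hpu' : (L ^ (n - i + 1)) (W.map φ u) = 0 := by
          have h2 := hLφ (n - i + 1) u
          rw [hpu, map_zero] at h2
          rcases smul_eq_zero.1 h2.symm with h3 | h3
          · exact absurd h3 (pow_ne_zero _ hQ0)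
          · exact h3
        rcases Nat.eq_zero_or_pos j with rfl | h0
        · rw [pow_zero, Module.End.one_apply, (hΦ i hi _ (W.map_mem φ hu) hpu').1,
            (hΦ i hi u hu hpu).1, map_zero, smul_zero]
        · obtain ⟨j, rfl⟩ : ∃ j', j = j' + 1 := ⟨j - 1, by omega⟩
          rw [hLφ, map_smul, (hΦ i hi _ (W.map_mem φ hu) hpu').2 j (by omega),
            (hΦ i hi u hu hpu).2 j (by omega), hLφ, smul_smul, pow_succ']
  -- its class
  set γ : W.H (X.prod X) := (corrEquiv W X).symm Φ with hγ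
  have hcγ : W.corr γ = Φ := (corrEquiv W X).apply_symm_apply Φ
  have hinj : Function.Injective (W.map φ) := by
    intro a c h
    rw [← sub_eq_zero]
    have h2 : W.map φ (a - c) = 0 := by rw [map_sub, h, sub_self]
    have h3 := push_map hδ (a - c)
    rw [h2, map_zero] at h3
    exact (smul_eq_zero.1 h3.symm).resolve_left hδ0
  have hsurj : Function.Surjective (W.map φ) :=
    (LinearMap.injective_iff_surjective (f := (W.map φ).toLinearMap)).1 hinj
  by_cases hn1 : n = 0
  · have hΦ0 : Φ = 0 := by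
      apply gr_ext (W.isInternal X)
      intro i a ha
      have h2 := hΦh i a (by rw [grZ_natCast]; exact ha)
      by_cases hi : i = 0
      · subst hi
        rw [grZ_of_neg (by norm_num)] at h2
        exact (Submodule.mem_bot _).1 h2
      · rw [W.gr_eq_bot X i (by omega)] at ha
        rw [(Submodule.mem_bot _).1 ha, map_zero, LinearMap.zero_apply]
    refine ⟨0, SmVar.IsCyc.zero _ _, ?_⟩
    rw [InducesLambda, map_zero, corr_zero, ← hΦ0]
    exact hΦ
  have hγm : γ ∈ W.gr (X.prod X) (2 * (n - 1)) := by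
    apply gr_of_corr
    intro i a ha
    rw [hcγ]
    have h2 := hΦh i a (by rw [grZ_natCast]; exact ha)
    have e : (i : ℤ) + -2 = ((2 * (n - 1) : ℕ) : ℤ) + i - 2 * X.dim := by omega
    rwa [e] at h2
  have hγφ : W.map (squareMap φ) γ = Q ^ (n - 1) • γ := by
    rw [← sub_eq_zero]
    apply corr_inj
    apply LinearMap.ext
    intro y
    obtain ⟨a, rfl⟩ := hsurj y
    have h2 := corr_squareMap hδ γ a
    rw [hcγ] at h2
    have h3 : W.corr (W.map (squareMap φ) γ - Q ^ (n - 1) • γ) =
        W.corr (W.map (squareMap φ) γ) - Q ^ (n - 1) • W.corr γ := by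
      have e1 := map_sub (corrEquiv W X) (W.map (squareMap φ) γ) (Q ^ (n - 1) • γ)
      rw [map_smul (corrEquiv W X)] at e1
      exact e1
    rw [h3, LinearMap.sub_apply, h2, LinearMap.smul_apply, hcγ, hcomm, smul_smul, ← pow_succ,
      show n - 1 + 1 = n by omega, LinearMap.zero_apply, sub_self]
  have hγs := hT (n - 1) γ hγm ⟨m, hm, by
    have h2 := map_squareMap_pow (W := W) f m γ
    rw [← hφ, hγφ] at h2
    rw [pow_mul, ← hQ, ← h2, Module.End.pow_apply]
    rfl⟩
  have hγs' := algSpan_gr hγs hγm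
  apply ((lefschetzB_tfae hD hHL).out 1 0).1
  refine ⟨γ, ?_, by rw [hcγ]; exact hΦ⟩
  rwa [show ((n - 1 : ℕ) : ℤ) = (X.dim : ℤ) - 1 by omega] at hγs'

end Pool.Agent.W552
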