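import Pool.Agent.W552.IrrSame
import Pool.Agent.W552.TateB

/-!
# The Lefschetz decomposition of equivariant operators
-/

open CategoryTheory AlgebraicGeometry Finset

universe u v w

namespace Pool.Agent.W552

open Pool.Agent.H914 Pool.Agent.H914.VarClass Pool.Agent.H914.VarClass.Obj
  Pool.Agent.H914.WeilCohomology Pool.Agent.H281R3.HT Pool.Agent.H447

variable {k : Type u} [Field k] {𝒱 : VarClass k} {ops : CycleOps 𝒱}
  {W : WeilCohomology.{u, v} ops} {P Q : Polarized 𝒱}
  {fr : P.X ⟶ P.X} {fr' : Q.X ⟶ Q.X} {q : ℕ}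

/-- A homogeneous operator which is compatible with the Frobenius endomorphisms and with the
projectors onto the algebraic parts. -/
structure HomOp (A : SimAction W P fr q) (A' : SimAction W Q fr' q)
    {f : Module.End W.K (W.H P.X)} {f' : Module.End W.K (W.H Q.X)} (B : RB W P f)
    (B' : RB W Q f') (l₀ m : ℕ) (v : W.H P.X →ₗ[W.K] W.H Q.X) : Prop where
  pos : 1 ≤ m
  deg : ∀ (r : ℕ), ∀ a ∈ W.gr P.X r, v a ∈ grZ (W.gr Q.X) (((2 * l₀ : ℕ) : ℤ) + r - 2 * P.X.dim)
  frob : ∀ a, (q : W.K) ^ (m * l₀) • v (A.op (A.φ ^ m) a) =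
      (q : W.K) ^ (m * P.X.dim) • A'.op (A'.φ ^ m) (v a)
  com : ∀ a, B'.p (v a) = v (B.p a)

namespace SimAction

lemma op_pow_L (A : SimAction W P fr q) (m c : ℕ) (a : W.H P.X) :
    A.op (A.φ ^ m) (((LO W P) ^ c) a) = (q : W.K) ^ (m * c) • ((LO W P) ^ c) (A.op (A.φ ^ m) a) := by
  induction c with
  | zero => simp
  | succ c ih =>
    have h1 := A.gRep.hL (A.φ ^ m) (((LO W P) ^ c) a)
    have h2 : ((A.χ (A.φ ^ m) : ℚ) : W.K) = (q : W.K) ^ m := by
      rw [map_pow, A.frob_χ]; push_cast; rfl
    rw [h2] at h1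
    rw [pow_succ', Module.End.mul_apply, h1, ih, map_smul, smul_smul, Module.End.mul_apply,
      ← pow_add, mul_add, mul_one, add_comm]

lemma rib_op (A : SimAction W P fr q) {f Φ : Module.End W.K (W.H P.X)} (l : Loc W P f Φ)
    (m i b : ℕ) (a : W.H P.X) :
    rib (W.isInternal P.X) (LO W P) Φ i b (A.op (A.φ ^ m) a) =
      (q : W.K) ^ (m * b) • A.op (A.φ ^ m) (rib (W.isInternal P.X) (LO W P) Φ i b a) := by
  have h2 : ((A.χ (A.φ ^ m) : ℚ) : W.K) = (q : W.K) ^ m := by
    rw [map_pow, A.frob_χ]; push_cast; rfl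
  have h1 := rib_comm (h := W.isInternal P.X) l.t l.hΦ (A.mem (A.φ ^ m))
    (g := A.op (A.φ ^ m)) (A.gRep.ne (A.φ ^ m)) (A.gRep.hL (A.φ ^ m)) i b
  rw [h2, ← pow_mul] at h1
  exact congrArg (fun G => G a) h1

end SimAction

section Two

variable {A : SimAction W P fr q} {A' : SimAction W Q fr' q}
  {f Φ : Module.End W.K (W.H P.X)} {f' Φ' : Module.End W.K (W.H Q.X)}
  (l : Loc W P f Φ) (l' : Loc W Q f' Φ') {B : RB W P f} {B' : RB W Q f'} {l₀ m : ℕ}
  {v : W.H P.X →ₗ[W.K] W.H Q.X} (hv : HomOp A A' B B' l₀ m v)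

include l l' hv in
/-- The degrees. -/
lemma HomOp.rib_zero {j i c b : ℕ} (hd : j + 2 * (l₀ + c) ≠ i + 2 * (P.X.dim + b))
    {x : W.H P.X} (hx : x ∈ W.gr P.X j) :
    rib (W.isInternal Q.X) (LO W Q) Φ' i b (v (((LO W P) ^ c) x)) = 0 := by
  have h1 : ((LO W P) ^ c) x ∈ W.gr P.X (j + 2 * c) := pow_L_mem l.t.hL hx c
  have h2 := hv.deg _ _ h1
  have h3 := rib_proj (h := W.isInternal Q.X) l'.t l'.hΦ i b (i + 2 * b)
  rw [if_pos rfl] at h3
  rw [← h3, Module.End.mul_apply, proj_grZ h2 _ (by push_cast; omega), map_zero]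

include l l' hv in
/-- The components. -/
lemma HomOp.eqOp {j i c b : ℕ} (hj : j ≤ P.X.dim) (hi : i ≤ Q.X.dim) (hd : j + 2 * (l₀ + c) = i + 2 * (P.X.dim + b)) :
    EqOp A A' j i m (l₀ + c) (P.X.dim + b)
      ((rib (W.isInternal Q.X) (LO W Q) Φ' i b ∘ₗ v) ∘ₗ ((LO W P) ^ c)) := by
  refine ⟨hv.pos, hj, hi, hd, ?_, ?_⟩
  · intro x hx
    simp only [LinearMap.comp_apply]
    refine rib_primT l' B' A' i b ?_
    have h1 : B.p x = 0 := ((mem_primT l B).1 hx).1
    have h2 : B.p (((LO W P) ^ c) x) = 0 := by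
      have h3 := congrArg (fun G => G x) (ta_comm l B (A := A) (TA.pow ⟨_, GD.of TGen.L⟩ c))
      simp only [Module.End.mul_apply] at h3
      rw [h1, map_zero] at h3
      exact h3.symm
    rw [hv.com, h2, map_zero]
  · intro x hx
    simp only [LinearMap.comp_apply]
    have h1 := A.op_pow_L m c x
    have h2 := hv.frob (((LO W P) ^ c) x)
    have h3 := A'.rib_op l' m i b (v (((LO W P) ^ c) x))
    have h4 := congrArg (rib (W.isInternal Q.X) (LO W Q) Φ' i b) h2
    rw [map_smul, map_smul, h1, map_smul, map_smul, h3, smul_smul, smul_smul, ← pow_add,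
      ← pow_add, ← mul_add, ← mul_add] at h4
    exact h4

end Two

section One

variable {A : SimAction W P fr q} {f Φ : Module.End W.K (W.H P.X)} (l : Loc W P f Φ)
  {B : RB W P f} {l₀ m : ℕ} {v : Module.End W.K (W.H P.X)} (hv : HomOp A A B B l₀ m v)

include l in
lemma prm_of_mem {j : ℕ} (hj : j ≤ P.X.dim) {x : W.H P.X} (hx : x ∈ primT W P j) :
    prm (W.isInternal P.X) (LO W P) Φ j x = x := by
  rw [primT, Submodule.mem_inf, Submodule.mem_inf] at hx
  have h1 := prm_apply l.t l.hΦ (h := W.isInternal P.X) hj hx.1.2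
    (LinearMap.mem_ker.1 hx.2) (j := 0) (Nat.zero_le _) j
  rwa [pow_zero, Module.End.one_apply, if_pos ⟨rfl, rfl⟩] at h1

include l hv in
/-- Equivariant operators of a variety with irreducible eigenspaces are tautological on the
transcendental part. -/
theorem HomOp.same (hdiag : Diagonalizable W fr) (hI : IrrT A)
    (hsep : ∀ j i a b α β, EigT W P fr j α → EigT W P fr i β → j + 2 * a = i + 2 * b →
      α ^ m * (q : W.K) ^ (m * a) = β ^ m * (q : W.K) ^ (m * b) → j = i ∧ α = β) :
    v * (1 - B.p) ∈ KTT A f Φ (1 - B.p) := by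
  set n := P.X.dim with hn
  set R : ℕ → ℕ → Module.End W.K (W.H P.X) := rib (W.isInternal P.X) (LO W P) Φ with hR
  set T : ℕ → Module.End W.K (W.H P.X) := prm (W.isInternal P.X) (LO W P) Φ with hT
  set p' : Module.End W.K (W.H P.X) := 1 - B.p with hp'
  have hpp : p' * p' = p' := by
    rw [hp', mul_sub, mul_one, sub_mul, one_mul, B.p_p, sub_self, sub_zero]
  have hTt : ∀ j, TA (Tg A f Φ) (T j) := fun j => ⟨_, GD.of (TGen.prm j)⟩
  have hRt : ∀ j c, TA (Tg A f Φ) (R j c) := fun j c => ta_rib l.t l.hΦ j c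
  have hsum : ∑ i ∈ range (n + 1), ∑ b ∈ range (n + 1), (LO W P) ^ b * R i b = 1 :=
    sum_rib l.t l.hΦ
  have hTR : ∀ j c, T j * R j c = R j c := fun j c => prm_rib l j c
  have hTT : ∀ j, T j * T j = T j := fun j => prm_prm l j
  have key : ∀ i b j c, i ≤ n → j ≤ n →
      (LO W P) ^ b * (R i b * (v * ((LO W P) ^ c * (T j * p')))) * R j c ∈ KTT A f Φ p' := by
    intro i b j c hi hj
    have h1 : R i b * (v * ((LO W P) ^ c * (T j * p'))) ∈ KTT A f Φ p' := by
      by_cases hd : j + 2 * (l₀ + c) = i + 2 * (P.X.dim + b)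
      · have e := hv.eqOp l l hj hi hd
        refine EqOp.same (m := m) (j := j) (i := i) (a := l₀ + c) (b := P.X.dim + b) l B
          ⟨e.pos, hj, hi, e.deg, ?_, ?_⟩ hdiag hI
          (fun α β h h' h'' => hsep j i _ _ α β h h' hd h'') ?_
        · intro x hx
          have hx1 : p' x = x := by
            rw [hp', LinearMap.sub_apply, ((mem_primT l B).1 hx).1, sub_zero,
              Module.End.one_apply]
          have h2 := e.mem x hx
          simp only [Module.End.mul_apply]
          rw [hx1, hT, prm_of_mem l hj hx]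
          exact h2
        · intro x hx
          have hx1 : ∀ x ∈ primT W P j, p' x = x := by
            intro x hx
            rw [hp', LinearMap.sub_apply, ((mem_primT l B).1 hx).1, sub_zero,
              Module.End.one_apply]
          have hx2 : A.op (A.φ ^ m) x ∈ primT W P j := primT_rho l B _ hx
          have h2 := e.frob x hx
          simp only [Module.End.mul_apply]
          rw [hx1 x hx, hx1 _ hx2, hT, prm_of_mem l hj hx, prm_of_mem l hj hx2]
          exact h2
        · intro x
          have h2 : T j * p' * (T j * p') = T j * p' := by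
            rw [mul_assoc, ← mul_assoc p', ← ta_comm' l B (hTt j), mul_assoc (T j) p', hpp,
              ← mul_assoc, hTT]
          have h3 : R i b * (v * ((LO W P) ^ c * (T j * p'))) =
              R i b * (v * ((LO W P) ^ c * (T j * p'))) * (T j * p') := by
            simp only [mul_assoc] at h2 ⊢
            rw [h2]
          exact congrArg (fun G => G x) h3
      · have h2 : R i b * (v * ((LO W P) ^ c * (T j * p'))) = 0 := by
          apply LinearMap.ext
          intro x
          simp only [Module.End.mul_apply]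
          have h3 : T j (p' x) ∈ W.gr P.X j := by
            have h4 : T j * p' = proj (W.isInternal P.X) j * (T j * p') := by
              rw [← mul_assoc]
              congr 1
              have h5 := proj_rib (h := W.isInternal P.X) l.t l.hΦ j 0
              rw [rib, pow_zero, mul_one] at h5
              exact h5.symm
            have h5 := congrArg (fun G => G x) h4
            simp only [Module.End.mul_apply] at h5
            rw [h5]
            exact proj_mem _ _ _
          rw [LinearMap.zero_apply]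
          exact hv.rib_zero l l hd h3
        rw [h2]
        exact Submodule.zero_mem _
    refine KTT.mul_right ?_ (hRt j c) (ta_comm' l B (hRt j c))
    exact KTT.mul_left (KTA.of (TA.pow ⟨_, GD.of TGen.L⟩ b)) h1
  have h2 : v * p' = (∑ i ∈ range (n + 1), ∑ b ∈ range (n + 1), (LO W P) ^ b * R i b) *
      (v * ((∑ j ∈ range (n + 1), ∑ c ∈ range (n + 1), (LO W P) ^ c * R j c) * p')) := by
    rw [hsum, one_mul, one_mul]
  rw [h2]
  simp only [Finset.sum_mul, Finset.mul_sum]
  refine Submodule.sum_mem _ fun j hj => Submodule.sum_mem _ fun c _ => Submodule.sum_mem _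
    fun i hi => Submodule.sum_mem _ fun b _ => ?_
  have h3 := key i b j c (by have := mem_range.1 hi; omega) (by have := mem_range.1 hj; omega)
  have h4 : (LO W P) ^ b * R i b * (v * ((LO W P) ^ c * R j c * p')) =
      (LO W P) ^ b * (R i b * (v * ((LO W P) ^ c * (T j * p')))) * R j c := by
    have h5 : p' * R j c = R j c * p' := (ta_comm' l B (hRt j c)).symm
    simp only [mul_assoc]
    rw [h5, ← mul_assoc (T j), hTR]
  rw [h4]
  exact h3

end One

section Diff

variable {A : SimAction W P fr q} {A' : SimAction W Q fr' q}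
  {f Φ : Module.End W.K (W.H P.X)} {f' Φ' : Module.End W.K (W.H Q.X)}
  (l : Loc W P f Φ) (l' : Loc W Q f' Φ') {B : RB W P f} {B' : RB W Q f'} {l₀ m : ℕ}
  {v : W.H P.X →ₗ[W.K] W.H Q.X} (hv : HomOp A A' B B' l₀ m v)

include l l' hv in
/-- Equivariant operators between the transcendental parts of varieties without common eigenvalues
are zero. -/
theorem HomOp.diff (hdiag : Diagonalizable W fr) (hdiag' : Diagonalizable W fr')
    (hsep : ∀ j i a b α β, EigT W P fr j α → EigT W Q fr' i β → j + 2 * a = i + 2 * b →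
      α ^ m * (q : W.K) ^ (m * a) ≠ β ^ m * (q : W.K) ^ (m * b)) :
    v ∘ₗ (1 - B.p) = 0 := by
  have hppp : ∀ x, B.p ((1 - B.p) x) = 0 := by
    intro x
    have h1 : B.p * (1 - B.p) = 0 := by rw [mul_sub, mul_one, B.p_p, sub_self]
    exact congrArg (fun G => G x) h1
  have hsum : ∑ j ∈ range (P.X.dim + 1), ∑ c ∈ range (P.X.dim + 1),
      (LO W P) ^ c * rib (W.isInternal P.X) (LO W P) Φ j c = 1 := sum_rib l.t l.hΦ
  have hsum' : ∑ i ∈ range (Q.X.dim + 1), ∑ b ∈ range (Q.X.dim + 1),
      (LO W Q) ^ b * rib (W.isInternal Q.X) (LO W Q) Φ' i b = 1 := sum_rib l'.t l'.hΦ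
  apply LinearMap.ext
  intro x
  rw [LinearMap.comp_apply, LinearMap.zero_apply]
  set y := (1 - B.p) x with hy
  have h1 : y = ∑ j ∈ range (P.X.dim + 1), ∑ c ∈ range (P.X.dim + 1),
      ((LO W P) ^ c) (rib (W.isInternal P.X) (LO W P) Φ j c y) := by
    have h2 := congrArg (fun G => G y) hsum
    simp only [LinearMap.sum_apply, Module.End.mul_apply, Module.End.one_apply] at h2
    exact h2.symm
  rw [h1]
  simp only [map_sum]
  refine Finset.sum_eq_zero fun j hj => Finset.sum_eq_zero fun c _ => ?_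
  set z := rib (W.isInternal P.X) (LO W P) Φ j c y with hz
  have hzp : z ∈ primT W P j := rib_primT l B A j c (hppp x)
  have h2 := congrArg (fun G => G (v (((LO W P) ^ c) z))) hsum'
  simp only [LinearMap.sum_apply, Module.End.mul_apply, Module.End.one_apply] at h2
  rw [← h2]
  refine Finset.sum_eq_zero fun i hi => Finset.sum_eq_zero fun b _ => ?_
  have h3 : rib (W.isInternal Q.X) (LO W Q) Φ' i b (v (((LO W P) ^ c) z)) = 0 := by
    by_cases hd : j + 2 * (l₀ + c) = i + 2 * (P.X.dim + b)
    · have h4 := (hv.eqOp l l' (by have := mem_range.1 hj; omega)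
        (by have := mem_range.1 hi; omega) hd).zero l l' B B' hdiag hdiag'
        (fun α β h h' => hsep j i _ _ α β h h' hd) hzp
      exact h4
    · exact hv.rib_zero l l' hd ((mem_primT l B).1 hzp).2.1
  rw [h3, map_zero]

end Diff

end Pool.Agent.W552
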