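import Pool.Agent.W552.IrrDec

/-!
# Algebraic correspondences are compatible with the Frobenius endomorphisms
-/

open CategoryTheory AlgebraicGeometry Finset

universe u v w

namespace Pool.Agent.W552

open Pool.Agent.H914 Pool.Agent.H914.VarClass Pool.Agent.H914.VarClass.Obj
  Pool.Agent.H914.WeilCohomology Pool.Agent.H281R3.HT Pool.Agent.H447

variable {k : Type u} [Field k] {𝒱 : VarClass k} {ops : CycleOps 𝒱}
  {W : WeilCohomology.{u, v} ops} {P Q : Polarized 𝒱}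
  {fr : P.X ⟶ P.X} {fr' : Q.X ⟶ Q.X} {q : ℕ}

lemma corr_mem_grZ' {X Y : 𝒱.Obj} {l i : ℕ} {c : W.H (X.prod Y)} (hc : c ∈ W.gr (X.prod Y) l)
    {a : W.H X} (ha : a ∈ W.gr X i) : W.corr c a ∈ grZ (W.gr Y) ((l : ℤ) + i - 2 * X.dim) := by
  have h1 := W.push_mem (snd X Y) (W.mul_mem hc (W.map_mem (fst X Y) ha))
  rw [corr_apply]
  have e : ((l + i : ℕ) : ℤ) + 2 * ((Y.dim : ℤ) - (X.prod Y).dim) =
      (l : ℤ) + i - 2 * X.dim := by
    rw [dim_prod]; push_cast; ring
  rwa [e] at h1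

/-- The top class. -/
noncomputable def topc (W : WeilCohomology.{u, v} ops) (P : Polarized 𝒱) : W.H P.X :=
  ((LO W P) ^ P.X.dim) 1

section One

variable {f Φ : Module.End W.K (W.H P.X)} (l : Loc W P f Φ)

include l

lemma topc_mem : topc W P ∈ W.gr P.X (2 * P.X.dim) := by
  have := pow_L_mem l.t.hL (W.one_mem P.X) P.X.dim
  rwa [zero_add] at this

lemma tr_topc : W.tr P.X (topc W P) ≠ 0 := by
  obtain ⟨b₀, hb₀⟩ := l.top
  have h1 : (1 : W.H P.X) ≠ 0 := by
    intro h0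
    apply hb₀
    rw [← one_mul b₀, h0, zero_mul, map_zero]
  intro h0
  apply h1
  exact (l.t.hHL 0 (Nat.zero_le _)).1 1 (W.one_mem P.X) (by
    rw [Nat.sub_zero]; exact eq_zero_of_top (topc_mem l) h0)

omit l in
lemma map_topc (A : SimAction W P fr q) :
    W.map fr (topc W P) = (q : W.K) ^ P.X.dim • topc W P := by
  have h1 := A.op_pow_L 1 P.X.dim 1
  rw [one_mul, pow_one, A.op_apply, A.op_apply, map_one (A.ρ A.φ), A.frob] at h1
  exact h1

lemma tr_frob (A : SimAction W P fr q) (a : W.H P.X) :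
    W.tr P.X (W.map fr a) = (q : W.K) ^ P.X.dim * W.tr P.X a :=
  tr_map_of_top (topc_mem l) (tr_topc l) (map_topc A) a

lemma tr_frob_pow (A : SimAction W P fr q) (m : ℕ) (a : W.H P.X) :
    W.tr P.X (A.op (A.φ ^ m) a) = (q : W.K) ^ (m * P.X.dim) * W.tr P.X a := by
  induction m with
  | zero => simp
  | succ m ih =>
    rw [pow_succ', map_mul, Module.End.mul_apply, A.op_apply, A.frob, tr_frob l A, ih, ← mul_assoc,
      ← pow_add]
    congr 2
    ring

end One

section Two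

variable (A : SimAction W P fr q) (A' : SimAction W Q fr' q)
  {f Φ : Module.End W.K (W.H P.X)} {f' Φ' : Module.End W.K (W.H Q.X)}
  (l : Loc W P f Φ) (l' : Loc W Q f' Φ')

include l l' A A'

lemma tr_pair (z : W.H (P.X.prod Q.X)) : W.tr _ (W.map (pairMap fr fr') z) =
    (q : W.K) ^ (P.X.dim + Q.X.dim) * W.tr _ z := by
  refine tr_map_of_top (b := W.map (fst P.X Q.X) (topc W P) * W.map (snd P.X Q.X) (topc W Q))
    ?_ ?_ ?_ z
  · have h1 := W.mul_mem (W.map_mem (fst P.X Q.X) (topc_mem l))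
      (W.map_mem (snd P.X Q.X) (topc_mem l'))
    rwa [← mul_add, ← dim_prod] at h1
  · rw [W.tr_prod]
    exact mul_ne_zero (tr_topc l) (tr_topc l')
  · rw [map_pairMap, map_topc A, map_topc A', map_smul, map_smul, smul_mul_smul_comm, ← pow_add]

omit A A' l l' in
lemma tr_corr' (x : W.H (P.X.prod Q.X)) (a : W.H P.X) (b : W.H Q.X) :
    W.tr Q.X (W.corr x a * b) =
      W.tr _ (x * (W.map (fst P.X Q.X) a * W.map (snd P.X Q.X) b)) := by
  rw [corr_apply, W.tr_push, mul_assoc]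

lemma tr_pair_pow (m : ℕ) (x : W.H (P.X.prod Q.X)) (a : W.H P.X) (b : W.H Q.X) :
    W.tr Q.X (W.corr ((W.map (pairMap fr fr'))^[m] x) (A.op (A.φ ^ m) a) * A'.op (A'.φ ^ m) b) =
      (q : W.K) ^ (m * (P.X.dim + Q.X.dim)) * W.tr Q.X (W.corr x a * b) := by
  induction m with
  | zero => simp
  | succ m ih =>
    have e1 : A.op (A.φ ^ (m + 1)) a = W.map fr (A.op (A.φ ^ m) a) := by
      rw [pow_succ', map_mul A.op, Module.End.mul_apply, A.op_apply A.φ, A.frob]
    have e2 : A'.op (A'.φ ^ (m + 1)) b = W.map fr' (A'.op (A'.φ ^ m) b) := by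
      rw [pow_succ', map_mul A'.op, Module.End.mul_apply, A'.op_apply A'.φ, A'.frob]
    rw [Function.iterate_succ_apply', e1, e2, tr_corr', ← map_pairMap, ← map_mul,
      tr_pair A A' l l', ← tr_corr', ih, ← mul_assoc, ← pow_add]
    congr 2
    ring

/-- Compatibility of the correspondences with the Frobenius endomorphisms. -/
theorem frob_corr {m l₀ : ℕ} {x : W.H (P.X.prod Q.X)}
    (hx : (W.map (pairMap fr fr'))^[m] x = (q : W.K) ^ (m * l₀) • x) (a : W.H P.X) :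
    (q : W.K) ^ (m * l₀) • W.corr x (A.op (A.φ ^ m) a) =
      (q : W.K) ^ (m * P.X.dim) • A'.op (A'.φ ^ m) (W.corr x a) := by
  rw [← sub_eq_zero]
  apply W.nondeg
  intro b
  have hb : A'.op (A'.φ ^ m) (A'.op (A'.φ ^ m)⁻¹ b) = b := by
    rw [← Module.End.mul_apply, ← map_mul, mul_inv_cancel, map_one, Module.End.one_apply]
  set b' := A'.op (A'.φ ^ m)⁻¹ b with hb'
  rw [← hb, sub_mul, map_sub, sub_eq_zero]
  have h1 := tr_pair_pow A A' l l' m x a b'
  rw [hx, corr_smul, LinearMap.smul_apply] at h1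
  rw [h1, smul_mul_assoc, map_smul, smul_eq_mul]
  have h2 : A'.op (A'.φ ^ m) (W.corr x a) * A'.op (A'.φ ^ m) b' =
      A'.op (A'.φ ^ m) (W.corr x a * b') := by
    rw [A'.op_apply, A'.op_apply, A'.op_apply, map_mul]
  rw [h2, tr_frob_pow l' A', ← mul_assoc, ← pow_add, ← mul_add]

/-- The correspondences of algebraic classes. -/
theorem homOp (B : RB W P f) (B' : RB W Q f')
    (hF : FrobeniusOnCycles W (P.X.prod Q.X) (pairMap fr fr') q) {l₀ : ℕ}
    {x : W.H (P.X.prod Q.X)} (hx : x ∈ algClasses W _ l₀) :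
    ∃ m, HomOp A A' B B' l₀ m (W.corr x) := by
  obtain ⟨z, hz, rfl⟩ := hx
  obtain ⟨m, hm, hm'⟩ := hF l₀ z hz
  rw [cl_iterate] at hm'
  have hAS : AS W (P.X.prod Q.X) (W.cl (P.X.prod Q.X) z) := AS.of ⟨z, hz, rfl⟩
  refine ⟨m, hm, ?_, ?_, ?_⟩
  · intro r a ha
    exact corr_mem_grZ' (W.cl_mem hz) ha
  · intro a
    exact frob_corr A A' l l' hm' a
  · intro a
    obtain ⟨v, hv, hv'⟩ := RB.exists_adj l l' ⟨_, hAS, rfl⟩
    exact (B.p_comm l l' B' ⟨_, hAS, rfl⟩ hv hv' a).symm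

end Two

end Pool.Agent.W552
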