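import Pool.Agent.W552.IrrFrob
import Pool.Agent.W552.FrobMain

/-!
# Irreducible eigenspaces: the conjectures for the products of two varieties
-/

open CategoryTheory AlgebraicGeometry Finset

universe u v w

namespace Pool.Agent.W552

open Pool.Agent.H914 Pool.Agent.H914.VarClass Pool.Agent.H914.VarClass.Obj
  Pool.Agent.H914.WeilCohomology Pool.Agent.H281R3.HT Pool.Agent.H447

variable {k : Type u} [Field k] {𝒱 : VarClass k} {ops : CycleOps 𝒱}
  {W : WeilCohomology.{u, v} ops}

/-- The eigenvalues of the Frobenius endomorphisms on the primitive transcendental cohomology of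
the members of the family are different up to roots of unity and powers of `q`. -/
def SepT (W : WeilCohomology.{u, v} ops) {ι : Type w} (P : ι → Polarized 𝒱)
    (fr : ∀ s, (P s).X ⟶ (P s).X) (q : ℕ) : Prop :=
  ∀ s t j i a b m α β, 1 ≤ m → EigT W (P s) (fr s) j α → EigT W (P t) (fr t) i β →
    j + 2 * a = i + 2 * b → α ^ m * (q : W.K) ^ (m * a) = β ^ m * (q : W.K) ^ (m * b) →
    s = t ∧ j = i ∧ α = β

section Hodge

variable {ι : Type w} {P : ι → Polarized 𝒱} {fr : ∀ s, (P s).X ⟶ (P s).X} {q : ℕ}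
  {f Φ : ∀ s, Module.End W.K (W.H (P s).X)}

/-- **The standard conjectures of Hodge type and `D` for products of two varieties.** -/
theorem hodge_pair (l : ∀ s, Loc W (P s) (f s) (Φ s)) (A : ∀ s, SimAction W (P s) (fr s) q)
    (hdiag : ∀ s, Diagonalizable W (fr s)) (hRH : ∀ s, RiemannHypothesis W (P s).X (fr s) q)
    (hI : ∀ s, IrrT (A s)) (hsep : SepT W P fr q)
    (hF : ∀ s t, FrobeniusOnCycles W ((P s).X.prod (P t).X) (pairMap (fr s) (fr t)) q)
    (hH : ∀ s, HodgeType W (P s).X (P s).D) (s t : ι) :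
    HodgeType W ((P s).prod ops (P t)).X ((P s).prod ops (P t)).D ∧
      HomEqNum W ((P s).prod ops (P t)).X := by
  classical
  suffices h : ∀ j z, ((P s).X.prod (P t).X).IsCyc j z → W.cl ((P s).X.prod (P t).X) z ≠ 0 →
      ∃ q : ℚ, 0 < q ∧ bf W ((P s).X.prod (P t).X)
        (ops.pull (fst (P s).X (P t).X) (P s).D + ops.pull (snd (P s).X (P t).X) (P t).D)
        (extSum W (f s) (f t)) (W.cl _ z) (W.cl _ z) = q by
    exact ⟨fun j hj z hz => (((l s).F.prod (l t).F).hodge hz (h j z hz)).1 hj,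
      fun j hj z hz => (((l s).F.prod (l t).F).hodge hz (h j z hz)).2 hj⟩
  intro j z hz hz0
  obtain ⟨B⟩ := exists_rb (l s) (hH s)
  obtain ⟨B'⟩ := exists_rb (l t) (hH t)
  have hx : W.cl ((P s).X.prod (P t).X) z ∈ algClasses W ((P s).X.prod (P t).X) j :=
    ⟨z, hz, rfl⟩
  refine pos_pair (l s) (l t) B (hH t) (AS.of hx) hz0 ?_
  intro y hy hyx
  by_cases hst : s = t
  · subst hst
    obtain ⟨m, hm⟩ := homOp (A s) (A s) (l s) (l s) B B (hF s s) hx
    refine pos_trans (l s) (hdiag s) (hRH s) (A s) B ?_ hy hyx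
    refine hm.same (l s) (hdiag s) (hI s) ?_
    intro j i a b α β h1 h2 h3 h4
    exact (hsep s s j i a b m α β hm.pos h1 h2 h3 h4).2
  · obtain ⟨m, hm⟩ := homOp (A s) (A t) (l s) (l t) B B' (hF s t) hx
    have h1 := hm.diff (l s) (l t) (hdiag s) (hdiag t) (by
      intro j i a b α β h1 h2 h3 h4
      exact hst (hsep s t j i a b m α β hm.pos h1 h2 h3 h4).1)
    have h2 : y = 0 := by
      apply th_inj (l s)
      rw [hyx, th, LinearMap.comp_assoc]
      have h3 : (H914.par (W.isInternal (P s).X) * st W (P s).X (P s).D (f s)) * (1 - B.p) =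
          (1 - B.p) * (H914.par (W.isInternal (P s).X) * st W (P s).X (P s).D (f s)) :=
        ta_comm' (l s) (A := A s) B ((l s).ta_par.mul (l s).ta_st)
      change W.corr (W.cl ((P s).X.prod (P t).X) z) ∘ₗ
        ((H914.par (W.isInternal (P s).X) * st W (P s).X (P s).D (f s)) * (1 - B.p)) = 0
      rw [h3]
      change (W.corr (W.cl ((P s).X.prod (P t).X) z) ∘ₗ (1 - B.p)) ∘ₗ
        (H914.par (W.isInternal (P s).X) * st W (P s).X (P s).D (f s)) = 0
      rw [h1, LinearMap.zero_comp]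
    exact ⟨0, le_rfl, fun h => absurd h2 h, by rw [h2]; simp⟩

end Hodge

section Tate

variable {P Q : Polarized 𝒱} {fr : P.X ⟶ P.X} {fr' : Q.X ⟶ Q.X} {q : ℕ}
  {f Φ : Module.End W.K (W.H P.X)} {f' Φ' : Module.End W.K (W.H Q.X)}

lemma ASp_algSpan {X : 𝒱.Obj} {x : W.H X} (hx : x ∈ ASp W X) : x ∈ algSpan W X := by
  refine Submodule.span_le.2 ?_ hx
  intro x hx
  refine AS.ind (p := fun x => x ∈ algSpan W X) ?_ ?_ hx
  · intro j x hx
    exact Submodule.subset_span (Set.mem_iUnion.2 ⟨j, hx⟩)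
  · intro x y hx hy
    exact Submodule.add_mem _ hx hy

lemma algSpan_ASp {X : 𝒱.Obj} {x : W.H X} (hx : x ∈ algSpan W X) : x ∈ ASp W X := by
  refine Submodule.span_mono ?_ hx
  intro x hx
  obtain ⟨j, hx⟩ := Set.mem_iUnion.1 hx
  exact AS.of hx

lemma op_iterate (A : SimAction W P fr q) (m : ℕ) (a : W.H P.X) :
    A.op (A.φ ^ m) a = (W.map fr)^[m] a := by
  induction m with
  | zero => rw [pow_zero, map_one]; rfl
  | succ m ih =>
    rw [pow_succ', map_mul A.op, Module.End.mul_apply, A.op_apply A.φ, A.frob, ih,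
      Function.iterate_succ_apply']

lemma iterate_mul {X : 𝒱.Obj} (g : X ⟶ X) {m l₀ : ℕ} {c : W.H X}
    (h : (W.map g)^[m] c = (q : W.K) ^ (m * l₀) • c) (e : ℕ) :
    (W.map g)^[m * e] c = (q : W.K) ^ (m * e * l₀) • c := by
  have h1 : ∀ (m : ℕ) (c : W.H X), (W.map g)^[m] c = ((W.map g).toLinearMap ^ m) c := by
    intro m c
    rw [Module.End.pow_apply]
    rfl
  rw [h1] at h ⊢
  exact pow_mul_smul h e

/-- A Tate class on the product maps algebraic classes to algebraic classes. -/
lemma tate_corr (A : SimAction W P fr q) (A' : SimAction W Q fr' q) (l : Loc W P f Φ)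
    (l' : Loc W Q f' Φ') (hq : q ≠ 0) (hF : FrobeniusOnCycles W P.X fr q)
    (hT : TateClassesAlgebraic W Q.X fr' q) {m l₀ : ℕ} (hm : 1 ≤ m)
    {c : W.H (P.X.prod Q.X)} (hc : c ∈ W.gr _ (2 * l₀))
    (hcm : (W.map (pairMap fr fr'))^[m] c = (q : W.K) ^ (m * l₀) • c) {x : W.H P.X}
    (hx : x ∈ ASp W P.X) : W.corr c x ∈ ASp W Q.X := by
  have hq0 : (q : W.K) ≠ 0 := by exact_mod_cast hq
  have key : ∀ j, ∀ x ∈ algClasses W P.X j, W.corr c x ∈ ASp W Q.X := by
    rintro r x ⟨z, hz, rfl⟩
    obtain ⟨m', hm', hm''⟩ := hF r z hz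
    rw [cl_iterate] at hm''
    have h1 := corr_mem_grZ' hc (W.cl_mem hz)
    by_cases hd : l₀ + r < P.X.dim
    · rw [grZ_of_neg (by push_cast; omega)] at h1
      rw [(Submodule.mem_bot _).1 h1]
      exact Submodule.zero_mem _
    push Not at hd
    set e := l₀ + r - P.X.dim with he
    have h2 : ((2 * l₀ : ℕ) : ℤ) + ((2 * r : ℕ) : ℤ) - 2 * P.X.dim = ((2 * e : ℕ) : ℤ) := by
      push_cast; omega
    rw [h2, grZ_natCast] at h1
    apply algSpan_ASp
    refine hT e _ h1 ⟨m * m', Nat.one_le_iff_ne_zero.2 (by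
      have h3 := Nat.mul_le_mul hm hm'
      omega), ?_⟩
    have h3 := frob_corr A A' l l' (iterate_mul _ hcm m') (W.cl P.X z)
    have h4 := iterate_mul (W := W) fr hm'' m
    rw [op_iterate, op_iterate, mul_comm m m', h4, map_smul, smul_smul, ← pow_add, ← mul_add,
      show l₀ + r = P.X.dim + e by omega, mul_add, pow_add, mul_smul] at h3
    rw [mul_comm m m']
    exact (smul_right_injective _ (pow_ne_zero _ hq0) h3).symm
  induction hx using Submodule.span_induction with
  | mem x hx =>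
    refine AS.ind (p := fun x => W.corr c x ∈ ASp W Q.X) key ?_ hx
    intro x y hx hy
    rw [map_add]
    exact Submodule.add_mem _ hx hy
  | zero => rw [map_zero]; exact Submodule.zero_mem _
  | add a b _ _ ha hb => rw [map_add]; exact Submodule.add_mem _ ha hb
  | smul t a _ ha => rw [map_smul]; exact Submodule.smul_mem _ _ ha

lemma iterate_swap {m l₀ : ℕ} {c : W.H (P.X.prod Q.X)}
    (hcm : (W.map (pairMap fr fr'))^[m] c = (q : W.K) ^ (m * l₀) • c) :
    (W.map (pairMap fr' fr))^[m] (W.map (swap Q.X P.X) c) =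
      (q : W.K) ^ (m * l₀) • W.map (swap Q.X P.X) c := by
  have h1 : ∀ y : W.H (P.X.prod Q.X), W.map (pairMap fr' fr) (W.map (swap Q.X P.X) y) =
      W.map (swap Q.X P.X) (W.map (pairMap fr fr') y) := by
    intro y
    refine W.kunneth_induction (p := fun y => W.map (pairMap fr' fr) (W.map (swap Q.X P.X) y) =
      W.map (swap Q.X P.X) (W.map (pairMap fr fr') y)) ?_ ?_ y
    · intro a b ha hb
      simp only [map_add, ha, hb]
    · intro i j a ha b hb
      have e1 : ∀ (a : W.H P.X) (b : W.H Q.X), W.map (swap Q.X P.X)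
          (W.map (fst P.X Q.X) a * W.map (snd P.X Q.X) b) =
          W.map (snd Q.X P.X) a * W.map (fst Q.X P.X) b := by
        intro a b
        rw [map_mul, ← W.map_comp, ← W.map_comp, swap_fst, swap_snd]
      rw [map_pairMap, e1, e1, map_mul]
      have h2 := map_pairMap (W := W) fr' fr 1 a
      have h3 := map_pairMap (W := W) fr' fr b 1
      rw [map_one, map_one, one_mul, map_one, one_mul] at h2
      rw [map_one, map_one, mul_one, map_one, mul_one] at h3
      rw [h2, h3]
  have h2 : ∀ m, (W.map (pairMap fr' fr))^[m] (W.map (swap Q.X P.X) c) =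
      W.map (swap Q.X P.X) ((W.map (pairMap fr fr'))^[m] c) := by
    intro m
    induction m with
    | zero => rfl
    | succ m ih => rw [Function.iterate_succ_apply', ih, h1, Function.iterate_succ_apply']
  rw [h2, hcm, map_smul]

/-- Operators preserving the algebraic parts, together with their adjoints, commute with the
projectors. -/
lemma RB.p_comm' (l : Loc W P f Φ) (l' : Loc W Q f' Φ') (B : RB W P f) (B' : RB W Q f')
    {u : W.H P.X →ₗ[W.K] W.H Q.X} {v : W.H Q.X →ₗ[W.K] W.H P.X}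
    (hu : ∀ x ∈ ASp W P.X, u x ∈ ASp W Q.X) (hv : ∀ x ∈ ASp W Q.X, v x ∈ ASp W P.X)
    (h : ∀ a b, bf W Q.X Q.D f' (u a) b = bf W P.X P.D f a (v b))
    (a : W.H P.X) : u (B.p a) = B'.p (u a) := by
  rw [← sub_eq_zero]
  apply bf_nondeg_left l'
  intro b
  have h1 : B'.p (u (B.p a)) = u (B.p a) := B'.p_span (hu _ (B.p_mem a))
  have h2 : B.p (v (B'.p b)) = v (B'.p b) := B.p_span (hv _ (B'.p_mem b))
  rw [map_sub, LinearMap.sub_apply, sub_eq_zero]
  calc bf W Q.X Q.D f' (u (B.p a)) b = bf W Q.X Q.D f' (B'.p (u (B.p a))) b := by rw [h1]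
    _ = bf W Q.X Q.D f' (u (B.p a)) (B'.p b) := B'.p_adj l' _ _
    _ = bf W P.X P.D f (B.p a) (v (B'.p b)) := h _ _
    _ = bf W P.X P.D f a (B.p (v (B'.p b))) := B.p_adj l _ _
    _ = bf W P.X P.D f a (v (B'.p b)) := by rw [h2]
    _ = bf W Q.X Q.D f' (u a) (B'.p b) := (h _ _).symm
    _ = bf W Q.X Q.D f' (B'.p (u a)) b := (B'.p_adj l' _ _).symm

/-- The homogeneous operator of a Tate class. -/
lemma homOp_tate (A : SimAction W P fr q) (A' : SimAction W Q fr' q) (l : Loc W P f Φ)
    (l' : Loc W Q f' Φ') (B : RB W P f) (B' : RB W Q f') (hq : q ≠ 0)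
    (hF : FrobeniusOnCycles W P.X fr q) (hF' : FrobeniusOnCycles W Q.X fr' q)
    (hT : TateClassesAlgebraic W P.X fr q) (hT' : TateClassesAlgebraic W Q.X fr' q)
    {m l₀ : ℕ} (hm : 1 ≤ m) {c : W.H (P.X.prod Q.X)} (hc : c ∈ W.gr _ (2 * l₀))
    (hcm : (W.map (pairMap fr fr'))^[m] c = (q : W.K) ^ (m * l₀) • c) :
    HomOp A A' B B' l₀ m (W.corr c) := by
  refine ⟨hm, fun r a ha => corr_mem_grZ' hc ha, fun a => frob_corr A A' l l' hcm a, ?_⟩
  intro a
  refine (RB.p_comm' l l' B B' (v := st W P.X P.D f ∘ₗ W.corr (W.map (swap Q.X P.X) c) ∘ₗ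
    st W Q.X Q.D f') ?_ ?_ ?_ a).symm
  · intro x hx
    exact tate_corr A A' l l' hq hF hT' hm hc hcm hx
  · intro x hx
    exact AOp.apply_span (st_aop l.F l.ap) (tate_corr A' A l' l hq hF' hT hm (W.map_mem _ hc)
      (iterate_swap hcm) (AOp.apply_span (st_aop l'.F l'.ap) hx))
  · intro a b
    rw [bf_apply, tr_corr_swap hc, bf_apply]
    congr 2
    simp only [LinearMap.comp_apply]
    rw [← Module.End.mul_apply (st W P.X P.D f), l.st_st, Module.End.one_apply]

/-- A class is algebraic if its operator is algebraic on the transcendental part and preserves the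
algebraic part. -/
lemma mem_algSpan_of (l : Loc W P f Φ) (B : RB W P f) {c : W.H (P.X.prod Q.X)}
    (h1 : W.corr c ∘ₗ (1 - B.p) ∈ Submodule.span W.K {u | AOp W P.X Q.X u})
    (h2 : ∀ x ∈ ASp W P.X, W.corr c x ∈ ASp W Q.X) : c ∈ algSpan W (P.X.prod Q.X) := by
  have h3 : W.corr c ∘ₗ B.p ∈ Submodule.span W.K {u | AOp W P.X Q.X u} := by
    have e1 : W.corr c ∘ₗ B.p = ∑ k, ((B.w k : W.K)⁻¹) •
        (bf W P.X P.D f (B.ε k)).smulRight (W.corr c (B.ε k)) := by
      apply LinearMap.ext
      intro z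
      rw [LinearMap.comp_apply, B.p_apply, map_sum, LinearMap.sum_apply]
      apply Finset.sum_congr rfl
      intro k _
      rw [map_smul, LinearMap.smul_apply, LinearMap.smulRight_apply, smul_smul]
    rw [e1]
    apply Submodule.sum_mem
    intro k _
    apply Submodule.smul_mem
    have e2 : ∀ y ∈ ASp W Q.X, (bf W P.X P.D f (B.ε k)).smulRight y ∈
        Submodule.span W.K {u | AOp W P.X Q.X u} := by
      intro y hy
      induction hy using Submodule.span_induction with
      | mem y hy => exact Submodule.subset_span (RB.rk_aop l (B.as k) hy)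
      | zero =>
        have e : (bf W P.X P.D f (B.ε k)).smulRight (0 : W.H Q.X) = 0 := by
          apply LinearMap.ext; intro z; simp
        rw [e]; exact Submodule.zero_mem _
      | add a b _ _ ha hb =>
        have e : (bf W P.X P.D f (B.ε k)).smulRight (a + b) =
            (bf W P.X P.D f (B.ε k)).smulRight a + (bf W P.X P.D f (B.ε k)).smulRight b := by
          apply LinearMap.ext; intro z; simp
        rw [e]; exact Submodule.add_mem _ ha hb
      | smul t a _ ha =>
        have e : (bf W P.X P.D f (B.ε k)).smulRight (t • a) =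
            t • (bf W P.X P.D f (B.ε k)).smulRight a := by
          apply LinearMap.ext; intro z
          rw [LinearMap.smul_apply, LinearMap.smulRight_apply, LinearMap.smulRight_apply,
            smul_comm]
        rw [e]; exact Submodule.smul_mem _ _ ha
    exact e2 _ (h2 _ (Submodule.subset_span (B.as k)))
  have h4 : W.corr c ∈ Submodule.span W.K {u | AOp W P.X Q.X u} := by
    have e : W.corr c = W.corr c ∘ₗ (1 - B.p) + W.corr c ∘ₗ B.p := by
      rw [← LinearMap.comp_add, sub_add_cancel]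
      rfl
    rw [e]
    exact Submodule.add_mem _ h1 h3
  have key : ∀ u ∈ Submodule.span W.K {u | AOp W P.X Q.X u},
      ∃ y ∈ ASp W (P.X.prod Q.X), W.corr y = u := by
    intro u hu
    induction hu using Submodule.span_induction with
    | mem u hu =>
      obtain ⟨z, hz, hz'⟩ := hu
      exact ⟨z, Submodule.subset_span hz, hz'⟩
    | zero => exact ⟨0, Submodule.zero_mem _, corr_zero W⟩
    | add a b _ _ ha hb =>
      obtain ⟨y, hy, hy'⟩ := ha
      obtain ⟨z, hz, hz'⟩ := hb
      exact ⟨y + z, Submodule.add_mem _ hy hz, by rw [corr_add, hy', hz']⟩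
    | smul c a _ ha =>
      obtain ⟨y, hy, hy'⟩ := ha
      exact ⟨c • y, Submodule.smul_mem _ _ hy, by rw [corr_smul, hy']⟩
  obtain ⟨y, hy, hy'⟩ := key _ h4
  have h5 : c = y := by
    rw [← sub_eq_zero]
    apply corr_inj
    have e1 : c - y = c + (-1 : W.K) • y := by rw [neg_one_smul, sub_eq_add_neg]
    rw [e1, corr_add, corr_smul, hy']
    apply LinearMap.ext
    intro z
    rw [LinearMap.add_apply, LinearMap.smul_apply, neg_one_smul, add_neg_cancel,
      LinearMap.zero_apply]
  rw [h5]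
  exact ASp_algSpan hy

end Tate

section TatePair

variable {ι : Type w} {P : ι → Polarized 𝒱} {fr : ∀ s, (P s).X ⟶ (P s).X} {q : ℕ}
  {f Φ : ∀ s, Module.End W.K (W.H (P s).X)}

/-- **The Tate conjecture for products of two varieties.** -/
theorem tate_pair (hq : q ≠ 0) (l : ∀ s, Loc W (P s) (f s) (Φ s))
    (A : ∀ s, SimAction W (P s) (fr s) q)
    (hdiag : ∀ s, Diagonalizable W (fr s)) (hI : ∀ s, IrrT (A s)) (hsep : SepT W P fr q)
    (hF : ∀ s, FrobeniusOnCycles W (P s).X (fr s) q)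
    (hH : ∀ s, HodgeType W (P s).X (P s).D)
    (hT : ∀ s, TateClassesAlgebraic W (P s).X (fr s) q) (s t : ι) :
    TateClassesAlgebraic W ((P s).X.prod (P t).X) (pairMap (fr s) (fr t)) q := by
  classical
  rintro l₀ c hc ⟨m, hm, hcm⟩
  obtain ⟨B⟩ := exists_rb (l s) (hH s)
  obtain ⟨B'⟩ := exists_rb (l t) (hH t)
  refine mem_algSpan_of (l s) B ?_ (fun x hx =>
    tate_corr (A s) (A t) (l s) (l t) hq (hF s) (hT t) hm hc hcm hx)
  by_cases hst : s = t
  · subst hst
    have hh := homOp_tate (A s) (A s) (l s) (l s) B B hq (hF s) (hF s) (hT s) (hT s) hm hc hcm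
    have h1 := hh.same (l s) (hdiag s) (hI s) (by
      intro j i a b α β h1 h2 h3 h4
      exact (hsep s s j i a b m α β hm h1 h2 h3 h4).2)
    refine Submodule.span_mono ?_ h1
    rintro u ⟨τ, hτ, rfl⟩
    exact ((l s).aop hτ).mul (AOp.ratSub.sub AOp.one (B.p_aop (l s)))
  · have hh := homOp_tate (A s) (A t) (l s) (l t) B B' hq (hF s) (hF t) (hT s) (hT t) hm hc hcm
    rw [hh.diff (l s) (l t) (hdiag s) (hdiag t) (by
      intro j i a b α β h1 h2 h3 h4
      exact hst (hsep s t j i a b m α β hm h1 h2 h3 h4).1)]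
    exact Submodule.zero_mem _

end TatePair

end Pool.Agent.W552
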