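import Pool.Agent.W552.IrrProj

/-!
# Positivity on the algebraic classes on `X × Y`
-/

open CategoryTheory AlgebraicGeometry

universe u v w

namespace Pool.Agent.W552

open Pool.Agent.H914 Pool.Agent.H914.VarClass Pool.Agent.H914.VarClass.Obj
  Pool.Agent.H914.WeilCohomology Pool.Agent.H281R3.HT Pool.Agent.H447

variable {k : Type u} [Field k] {𝒱 : VarClass k} {ops : CycleOps 𝒱}
  {W : WeilCohomology.{u, v} ops} {P Q : Polarized 𝒱}
  {f Φ : Module.End W.K (W.H P.X)} {f' Φ' : Module.End W.K (W.H Q.X)}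
  (l : Loc W P f Φ) (l' : Loc W Q f' Φ')

include l

lemma corr_of_th (x : W.H (P.X.prod Q.X)) : W.corr x =
    th W P.D f x ∘ₗ (st W P.X P.D f * H914.par (W.isInternal P.X)) := by
  rw [th]
  apply LinearMap.ext
  intro a
  simp only [LinearMap.comp_apply, Module.End.mul_apply]
  rw [← Module.End.mul_apply (st W P.X P.D f) (st W P.X P.D f), l.st_st,
    Module.End.one_apply, ← Module.End.mul_apply, par_mul_par, Module.End.one_apply]

lemma th_inj {x : W.H (P.X.prod Q.X)} (h : th W P.D f x = 0) : x = 0 := by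
  apply corr_inj
  rw [corr_of_th l, h, LinearMap.zero_comp]

lemma exists_th {u : W.H P.X →ₗ[W.K] W.H Q.X} (hu : AOp W P.X Q.X u) :
    ∃ x, AS W _ x ∧ th W P.D f x = u := by
  obtain ⟨x, hx, hx'⟩ := AOp.comp hu ((st_aop l.F l.ap).mul (par_aop l.ap))
  refine ⟨x, hx, ?_⟩
  rw [th, hx']
  apply LinearMap.ext
  intro a
  simp only [LinearMap.comp_apply, Module.End.mul_apply]
  rw [← Module.End.mul_apply (H914.par (W.isInternal P.X)) (H914.par (W.isInternal P.X)),
    par_mul_par, Module.End.one_apply, ← Module.End.mul_apply, l.st_st, Module.End.one_apply]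

include l' in
/-- Positivity on a pair, from the positivity on the transcendental part. -/
theorem pos_pair (B : RB W P f) (hH : HodgeType W Q.X Q.D) {x : W.H (P.X.prod Q.X)}
    (hx : AS W _ x) (hx0 : x ≠ 0)
    (hT : ∀ y, AS W _ y → th W P.D f y = th W P.D f x ∘ₗ (1 - B.p) → ∃ s : ℚ, 0 ≤ s ∧
      (y ≠ 0 → 0 < s) ∧ bf W (P.X.prod Q.X)
        (ops.pull (fst P.X Q.X) P.D + ops.pull (snd P.X Q.X) Q.D) (extSum W f f') y y = s) :
    ∃ q : ℚ, 0 < q ∧ bf W (P.X.prod Q.X)
        (ops.pull (fst P.X Q.X) P.D + ops.pull (snd P.X Q.X) Q.D) (extSum W f f') x x = q := by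
  classical
  set u := th W P.D f x with hu
  have hua : AOp W P.X Q.X u := RB.th_aop l hx
  obtain ⟨v, hva, hv⟩ := RB.exists_adj l l' hua
  have hpa : AOp W P.X P.X (1 - B.p) := AOp.ratSub.sub AOp.one (B.p_aop l)
  obtain ⟨y, hy, hy'⟩ := exists_th l (AOp.comp hua hpa)
  obtain ⟨s, hs0, hs1, hs⟩ := hT y hy hy'
  have hpp : (1 - B.p) * (1 - B.p) = 1 - B.p := by
    rw [mul_sub, mul_one, sub_mul, one_mul, B.p_p, sub_self, sub_zero]
  -- the traces
  have t1 : LinearMap.trace W.K (W.H P.X) (v ∘ₗ u) = bf W (P.X.prod Q.X)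
      (ops.pull (fst P.X Q.X) P.D + ops.pull (snd P.X Q.X) Q.D) (extSum W f f') x x :=
    trace_th l.F l'.F hx hv
  have t2 : LinearMap.trace W.K (W.H P.X) ((v ∘ₗ u) * (1 - B.p)) = s := by
    rw [← hs, ← trace_th l.F l'.F hy (u' := (1 - B.p : Module.End W.K (W.H P.X)) ∘ₗ v)]
    · rw [hy']
      have e1 : ((1 - B.p : Module.End W.K (W.H P.X)) ∘ₗ v) ∘ₗ (u ∘ₗ (1 - B.p)) =
          (1 - B.p) * ((v ∘ₗ u) * (1 - B.p)) := rfl
      rw [e1]
      conv_rhs => rw [LinearMap.trace_mul_comm, mul_assoc, hpp]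
    · intro a b
      rw [hy']
      have e1 : bf W P.X P.D f ((1 - B.p : Module.End W.K (W.H P.X)) a) (v b) =
          bf W P.X P.D f a ((1 - B.p : Module.End W.K (W.H P.X)) (v b)) := by
        rw [LinearMap.sub_apply, map_sub, LinearMap.sub_apply, B.p_adj l, LinearMap.sub_apply,
          map_sub]
        rfl
      rw [LinearMap.comp_apply, hv, e1]
      rfl
  have hb : ∀ k, ∃ q : ℚ, 0 ≤ q ∧ (u (B.ε k) ≠ 0 → 0 < q) ∧
      bf W Q.X Q.D f' (u (B.ε k)) (u (B.ε k)) = q := by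
    intro k
    by_cases h0 : u (B.ε k) = 0
    · exact ⟨0, le_rfl, fun h => absurd h0 h, by rw [h0]; simp⟩
    · obtain ⟨q, hq, hq'⟩ := l'.F.bf_pos hH (hua.apply (B.as k)) h0
      exact ⟨q, hq.le, fun _ => hq, hq'⟩
  choose q hq0 hq1 hq using hb
  have t3 : LinearMap.trace W.K (W.H P.X) ((v ∘ₗ u) * B.p) =
      ((∑ k, (B.w k)⁻¹ * q k : ℚ) : W.K) := by
    rw [RB.p, Finset.mul_sum, map_sum, Rat.cast_sum]
    apply Finset.sum_congr rfl
    intro k _
    rw [mul_smul_comm, map_smul, smul_eq_mul, Rat.cast_mul, Rat.cast_inv]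
    congr 1
    have e1 : (v ∘ₗ u) * (bf W P.X P.D f (B.ε k)).smulRight (B.ε k) =
        (bf W P.X P.D f (B.ε k)).smulRight (v (u (B.ε k))) := by
      apply LinearMap.ext
      intro z
      rw [Module.End.mul_apply, LinearMap.smulRight_apply, map_smul,
        LinearMap.smulRight_apply]
      rfl
    rw [e1, LinearMap.trace_smulRight, ← hv, hq]
  refine ⟨∑ k, (B.w k)⁻¹ * q k + s, ?_, ?_⟩
  · have h1 : 0 ≤ ∑ k, (B.w k)⁻¹ * q k :=
      Finset.sum_nonneg fun k _ => mul_nonneg (inv_nonneg.2 (B.pos k).le) (hq0 k)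
    by_cases hall : ∀ k, u (B.ε k) = 0
    · have h2 : y ≠ 0 := by
        rintro rfl
        apply hx0
        apply th_inj l
        rw [← hu]
        have h3 : u ∘ₗ (1 - B.p) = 0 := by
          rw [← hy', th, corr_zero, LinearMap.zero_comp]
        have h4 : u ∘ₗ B.p = 0 := by
          apply LinearMap.ext
          intro z
          rw [LinearMap.comp_apply, B.p_apply, map_sum, LinearMap.zero_apply]
          apply Finset.sum_eq_zero
          intro k _
          rw [map_smul, hall, smul_zero]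
        apply LinearMap.ext
        intro z
        have h5 := congrArg (fun G => G z) h3
        have h6 := congrArg (fun G => G z) h4
        simp only [LinearMap.comp_apply, LinearMap.sub_apply, Module.End.one_apply, map_sub,
          LinearMap.zero_apply] at h5 h6
        rw [h6, sub_zero] at h5
        exact h5
      exact add_pos_of_nonneg_of_pos h1 (hs1 h2)
    · push Not at hall
      obtain ⟨k, hk⟩ := hall
      exact add_pos_of_pos_of_nonneg (Finset.sum_pos' (fun k _ => mul_nonneg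
        (inv_nonneg.2 (B.pos k).le) (hq0 k)) ⟨k, Finset.mem_univ _,
          mul_pos (inv_pos.2 (B.pos k)) (hq1 k hk)⟩) hs0
  · rw [← t1, Rat.cast_add, ← t2, ← t3, ← map_add, ← mul_add, add_sub_cancel, mul_one]

section Same

variable {fr : P.X ⟶ P.X} {q : ℕ} {A : SimAction W P fr q}

/-- The tautological operators commute with the projector onto the algebraic part. -/
lemma ta_comm (B : RB W P f) {u : Module.End W.K (W.H P.X)} (hu : TA (Tg A f Φ) u) :
    u * B.p = B.p * u := by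
  obtain ⟨v, hv⟩ := hu
  apply LinearMap.ext
  intro a
  exact B.p_comm l l B (l.aop ⟨v, hv⟩) (l.aop ⟨u, l.symm hv⟩) (l.form hv) a

lemma ta_comm' (B : RB W P f) {u : Module.End W.K (W.H P.X)} (hu : TA (Tg A f Φ) u) :
    u * (1 - B.p) = (1 - B.p) * u := by
  rw [mul_sub, sub_mul, mul_one, one_mul, ta_comm l B hu]

/-- Positivity on the transcendental part. -/
theorem pos_trans (hdiag : Diagonalizable W fr) (hRH : RiemannHypothesis W P.X fr q)
    (A : SimAction W P fr q) (B : RB W P f)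
    {x : W.H (P.X.prod P.X)}
    (hS : W.corr x * (1 - B.p) ∈ Submodule.span W.K
      {u : Module.End W.K (W.H P.X) | ∃ t, TA (Tg A f Φ) t ∧ u = t * (1 - B.p)})
    {y : W.H (P.X.prod P.X)} (hy : AS W _ y)
    (hyx : th W P.D f y = th W P.D f x ∘ₗ (1 - B.p)) :
    ∃ s : ℚ, 0 ≤ s ∧ (y ≠ 0 → 0 < s) ∧ bf W (P.X.prod P.X)
        (ops.pull (fst P.X P.X) P.D + ops.pull (snd P.X P.X) P.D) (extSum W f f) y y = s := by
  classical
  set M : W.H (P.X.prod P.X) → Prop := fun y => AS W _ y ∧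
    ∃ t, TA (Tg A f Φ) t ∧ W.corr y = t * (1 - B.p) with hM
  have hpp : (1 - B.p) * (1 - B.p) = 1 - B.p := by
    rw [mul_sub, mul_one, sub_mul, one_mul, B.p_p, sub_self, sub_zero]
  have hMr : RatSub W.K M := by
    refine ⟨⟨AS.zero, 0, TA.zero, by rw [corr_zero, zero_mul]⟩, ?_, ?_⟩
    · rintro y z ⟨hy, t, ht, hyt⟩ ⟨hz, t', ht', hzt⟩
      exact ⟨hy.add hz, t + t', ht.add ht', by rw [corr_add, hyt, hzt, add_mul]⟩
    · rintro s y ⟨hy, t, ht, hyt⟩
      exact ⟨hy.smul s, _, ht.smul s, by rw [corr_smul, hyt, smul_mul_assoc]⟩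
  have hMpos : ∀ y, M y → y ≠ 0 → ∃ s : ℚ, 0 < s ∧ bf W (P.X.prod P.X)
        (ops.pull (fst P.X P.X) P.D + ops.pull (snd P.X P.X) P.D) (extSum W f f) y y = s := by
    rintro y ⟨hy, t, ht, hyt⟩ hy0
    refine l.pos hdiag hRH hpp ?_ (fun u hu => ta_comm' l B hu) hy ht hyt hy0
    intro a b
    rw [LinearMap.sub_apply, map_sub, LinearMap.sub_apply, B.p_adj l, LinearMap.sub_apply,
      map_sub]
    rfl
  -- `y` is a combination of such classes
  have hcy : W.corr y = W.corr x * (1 - B.p) := by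
    set w : Module.End W.K (W.H P.X) := st W P.X P.D f * H914.par (W.isInternal P.X) with hw
    have hwt : TA (Tg A f Φ) w := l.ta_st.mul l.ta_par
    have h1 : W.corr y = th W P.D f y * w := corr_of_th l y
    have h2 : W.corr x = th W P.D f x * w := corr_of_th l x
    have h3 : th W P.D f y = th W P.D f x * (1 - B.p) := hyx
    rw [h1, h2, h3, mul_assoc (th W P.D f x), ← ta_comm' l B hwt, ← mul_assoc]
  have key : ∀ u ∈ Submodule.span W.K
      {u : Module.End W.K (W.H P.X) | ∃ t, TA (Tg A f Φ) t ∧ u = t * (1 - B.p)},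
      ∃ y ∈ Submodule.span W.K {y | M y}, W.corr y = u := by
    intro u hu
    induction hu using Submodule.span_induction with
    | mem u hu =>
      obtain ⟨t, ht, rfl⟩ := hu
      have h1 : AOp W P.X P.X (t * (1 - B.p)) :=
        (l.aop ht).mul (AOp.ratSub.sub AOp.one (B.p_aop l))
      obtain ⟨z, hz, hz'⟩ := h1
      exact ⟨z, Submodule.subset_span ⟨hz, t, ht, hz'⟩, hz'⟩
    | zero => exact ⟨0, Submodule.zero_mem _, corr_zero W⟩
    | add a b _ _ ha hb =>
      obtain ⟨y, hy, hy'⟩ := ha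
      obtain ⟨z, hz, hz'⟩ := hb
      exact ⟨y + z, Submodule.add_mem _ hy hz, by rw [corr_add, hy', hz']⟩
    | smul c a _ ha =>
      obtain ⟨y, hy, hy'⟩ := ha
      exact ⟨c • y, Submodule.smul_mem _ _ hy, by rw [corr_smul, hy']⟩
  obtain ⟨z, hz, hz'⟩ := key _ hS
  have hzy : z = y := by
    rw [← sub_eq_zero]
    apply corr_inj
    have e1 : W.corr (z - y) = W.corr z - W.corr y := map_sub (corrEquiv W P.X) z y
    rw [e1, hz', hcy, sub_self]
  rw [hzy] at hz
  have FF := l.F.prod l.F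
  obtain ⟨N, e, w, he, hw, horth, hspan⟩ := exists_ratBasis hMr
    (bf W (P.X.prod P.X) (ops.pull (fst P.X P.X) P.D + ops.pull (snd P.X P.X) P.D)
      (extSum W f f)) (fun a b ha hb => FF.bf_rat ha.1 hb.1)
    (fun a b ha hb => by
      have h1 := Sy.prod l.F l.F (bf_sy l.F l.t) (bf_sy l.F l.t) a b
      rw [par_as hb.1] at h1
      exact h1) hMpos
  obtain ⟨r, hr⟩ := hspan y hz (fun k => FF.bf_rat hy (he k).1)
  have hyM : M y := by
    rw [hr]
    exact hMr.sum _ fun k _ => hMr.smul _ (he k)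
  by_cases h0 : y = 0
  · exact ⟨0, le_rfl, fun h => absurd h0 h, by rw [h0]; simp⟩
  · obtain ⟨s, hs, hs'⟩ := hMpos y hyM h0
    exact ⟨s, hs.le, fun _ => hs, hs'⟩

end Same

end Pool.Agent.W552
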