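import Pool.Agent.W552.IrrSpan

/-!
# Equivariant operators between primitive transcendental parts
-/

open CategoryTheory AlgebraicGeometry Finset

universe u v w

namespace Pool.Agent.W552

open Pool.Agent.H914 Pool.Agent.H914.VarClass Pool.Agent.H914.VarClass.Obj
  Pool.Agent.H914.WeilCohomology Pool.Agent.H281R3.HT Pool.Agent.H447

variable {k : Type u} [Field k] {𝒱 : VarClass k} {ops : CycleOps 𝒱}
  {W : WeilCohomology.{u, v} ops} {P Q : Polarized 𝒱}
  {fr : P.X ⟶ P.X} {fr' : Q.X ⟶ Q.X} {q : ℕ}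

/-- The eigenspaces of the Frobenius endomorphism on the primitive transcendental cohomology are
irreducible. -/
def IrrT (A : SimAction W P fr q) : Prop :=
  ∀ i ≤ P.X.dim, ∀ α, ScalarCommutant (primT W P i ⊓ Module.End.eigenspace (W.map fr).toLinearMap α)
    (fun (g : A.G) a => A.ρ g a)

/-- The projections onto the eigenspaces of the Frobenius endomorphism. -/
lemma exists_eigP (hdiag : Diagonalizable W fr) :
    ∃ (s : Finset W.K) (E : W.K → Module.End W.K (W.H P.X)), (∑ α ∈ s, E α = 1) ∧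
      (∀ α ∈ s, ∀ x, W.map fr (E α x) = α • E α x) ∧
      (∀ α, E α ∈ Submodule.span W.K (Set.range fun m : ℕ => (W.map fr).toLinearMap ^ m)) ∧
      ∀ α u, u * (W.map fr).toLinearMap = (W.map fr).toLinearMap * u → u * E α = E α * u := by
  have hspan : Submodule.span W.K {y : W.H P.X | ∃ α : W.K, (W.map fr).toLinearMap y = α • y} =
      ⊤ := by
    rw [eq_top_iff, ← span_eigen hdiag]
    apply Submodule.span_mono
    rintro x ⟨d, α, _, h⟩
    exact ⟨α, h⟩
  obtain ⟨s, E, hE1, hE2, _, hE4, hE5⟩ := exists_eigProj hspan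
  exact ⟨s, E, hE1, hE2, hE4, hE5⟩

/-- An operator between primitive transcendental parts which is compatible with the Frobenius
endomorphisms. -/
structure EqOp (A : SimAction W P fr q) (A' : SimAction W Q fr' q) (j i m a b : ℕ)
    (v : W.H P.X →ₗ[W.K] W.H Q.X) : Prop where
  pos : 1 ≤ m
  dj : j ≤ P.X.dim
  di : i ≤ Q.X.dim
  deg : j + 2 * a = i + 2 * b
  mem : ∀ x ∈ primT W P j, v x ∈ primT W Q i
  frob : ∀ x ∈ primT W P j, (q : W.K) ^ (m * a) • v (A.op (A.φ ^ m) x) =
      (q : W.K) ^ (m * b) • A'.op (A'.φ ^ m) (v x)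

section Two

variable {A : SimAction W P fr q} {A' : SimAction W Q fr' q}
  {f Φ : Module.End W.K (W.H P.X)} {f' Φ' : Module.End W.K (W.H Q.X)}
  (l : Loc W P f Φ) (l' : Loc W Q f' Φ') (B : RB W P f) (B' : RB W Q f')

include l B l' B' in
/-- If there are no common eigenvalues the operator is zero. -/
lemma EqOp.zero {j i m a b : ℕ} {v : W.H P.X →ₗ[W.K] W.H Q.X} (e : EqOp A A' j i m a b v)
    (hdiag : Diagonalizable W fr) (hdiag' : Diagonalizable W fr')
    (hsep : ∀ α β, EigT W P fr j α → EigT W Q fr' i β →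
      α ^ m * (q : W.K) ^ (m * a) ≠ β ^ m * (q : W.K) ^ (m * b))
    {x : W.H P.X} (hx : x ∈ primT W P j) : v x = 0 := by
  obtain ⟨s, E, hE1, hE2, hE4, hE5⟩ := exists_eigP hdiag
  have h1 : x = ∑ α ∈ s, E α x := by
    have h4 := congrArg (fun G => G x) hE1
    simp only [LinearMap.sum_apply, Module.End.one_apply] at h4
    exact h4.symm
  rw [h1, map_sum]
  apply Finset.sum_eq_zero
  intro α hα
  obtain ⟨z, ⟨s', hs'⟩, hz⟩ := eig_key l' B' e.dj e.di e.mem e.frob hdiag' (C := fun _ _ => False)
    (fun α β h h' h'' => hsep α β h h' h'') (primT_pow l B A (hE4 α) hx) (hE2 α hα x)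
  rw [hs']
  apply Finset.sum_eq_zero
  intro β _
  by_contra h0
  exact (hz β h0).1

end Two

section One

variable {A : SimAction W P fr q} {f Φ : Module.End W.K (W.H P.X)} (l : Loc W P f Φ)
  (B : RB W P f)

include l B

/-- The equivariant operators of a variety with irreducible eigenspaces. -/
lemma EqOp.same {j i m a b : ℕ} {v : Module.End W.K (W.H P.X)} (e : EqOp A A j i m a b v)
    (hdiag : Diagonalizable W fr) (hI : IrrT A)
    (hsep : ∀ α β, EigT W P fr j α → EigT W P fr i β →
      α ^ m * (q : W.K) ^ (m * a) = β ^ m * (q : W.K) ^ (m * b) → j = i ∧ α = β)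
    (hv : ∀ x, v x = v (prm (W.isInternal P.X) (LO W P) Φ j ((1 - B.p) x))) :
    v ∈ KTT A f Φ (1 - B.p) := by
  classical
  have hppp : ∀ x, B.p ((1 - B.p) x) = 0 := by
    intro x
    have h1 : B.p * (1 - B.p) = 0 := by rw [mul_sub, mul_one, B.p_p, sub_self]
    exact congrArg (fun G => G x) h1
  by_cases hji : j = i
  swap
  · have h0 : v = 0 := by
      apply LinearMap.ext
      intro x
      rw [hv]
      exact e.zero l l B B hdiag hdiag (fun α β h h' h'' => hji (hsep α β h h' h'').1)
        (prm_primT l B A j (hppp x))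
    rw [h0]
    exact Submodule.zero_mem _
  subst hji
  obtain ⟨s, E, hE1, hE2, hE4, hE5⟩ := exists_eigP hdiag
  -- the eigenspaces are preserved
  have hU : ∀ α, ∀ x ∈ primT W P j ⊓ Module.End.eigenspace (W.map fr).toLinearMap α,
      v x ∈ primT W P j ⊓ Module.End.eigenspace (W.map fr).toLinearMap α := by
    intro α x hx
    obtain ⟨hx1, hx2⟩ := Submodule.mem_inf.1 hx
    have hx3 : W.map fr x = α • x := Module.End.mem_eigenspace_iff.1 hx2
    refine Submodule.mem_inf.2 ⟨e.mem x hx1, ?_⟩
    obtain ⟨z, ⟨s', hs'⟩, hz⟩ := eig_key l B e.dj e.di e.mem e.frob hdiag (C := fun α β => α = β)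
      (fun α β h h' h'' => (hsep α β h h' h'').2) hx1 hx3
    rw [hs']
    apply Submodule.sum_mem
    intro β _
    by_cases h0 : z β = 0
    · rw [h0]; exact Submodule.zero_mem _
    · obtain ⟨h1, h2⟩ := hz β h0
      rw [Module.End.mem_eigenspace_iff]
      subst h1
      exact h2
  have hbs : ∀ α, ∃ w ∈ Submodule.span W.K (Set.range A.op),
      ∀ x ∈ primT W P j ⊓ Module.End.eigenspace (W.map fr).toLinearMap α, w x = v x := by
    intro α
    refine burnside (φ := A.φ) A.op A.cen A.fin ?_ (α := α) ?_ (hI j e.dj α) (hU α)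
    · intro g x hx
      obtain ⟨hx1, hx2⟩ := Submodule.mem_inf.1 hx
      refine Submodule.mem_inf.2 ⟨primT_rho l B g hx1, ?_⟩
      rw [Module.End.mem_eigenspace_iff] at hx2 ⊢
      have h1 : (W.map fr).toLinearMap = A.op A.φ := LinearMap.ext fun a => (A.frob a).symm
      rw [h1] at hx2 ⊢
      rw [← Module.End.mul_apply, ← map_mul, A.cen, map_mul, Module.End.mul_apply, hx2, map_smul]
    · intro x hx
      rw [A.op_apply, A.frob]
      exact Module.End.mem_eigenspace_iff.1 (Submodule.mem_inf.1 hx).2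
  choose w hw hw' using hbs
  have key : v = ((∑ α ∈ s, w α * E α) * prm (W.isInternal P.X) (LO W P) Φ j) * (1 - B.p) := by
    apply LinearMap.ext
    intro x
    rw [hv, Module.End.mul_apply, Module.End.mul_apply]
    set y := prm (W.isInternal P.X) (LO W P) Φ j ((1 - B.p) x) with hy
    have hyp : y ∈ primT W P j := prm_primT l B A j (hppp x)
    have h1 : y = ∑ α ∈ s, E α y := by
      have h4 := congrArg (fun G => G y) hE1
      simp only [LinearMap.sum_apply, Module.End.one_apply] at h4
      exact h4.symm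
    conv_lhs => rw [h1]
    rw [map_sum, LinearMap.sum_apply]
    apply Finset.sum_congr rfl
    intro α hα
    rw [Module.End.mul_apply]
    refine (hw' α _ (Submodule.mem_inf.2 ⟨primT_pow l B A (hE4 α) hyp, ?_⟩)).symm
    rw [Module.End.mem_eigenspace_iff]
    exact hE2 α hα y
  rw [key]
  apply KTT.of_kta
  apply KTA.mul
  · apply Submodule.sum_mem
    intro α _
    exact KTA.mul (KTA.rho (hw α)) (KTA.pow (hE4 α))
  · exact KTA.of ⟨_, GD.of (TGen.prm j)⟩

end One

end Pool.Agent.W552
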