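import Pool.Agent.W552.IrrMain

/-!
# Semisimplicity from irreducible generalized eigenspaces
-/

open CategoryTheory AlgebraicGeometry Finset Polynomial

universe u v w

namespace Pool.Agent.W552

open Pool.Agent.H914 Pool.Agent.H914.VarClass Pool.Agent.H914.VarClass.Obj
  Pool.Agent.H914.WeilCohomology Pool.Agent.H281R3.HT Pool.Agent.H447

section Abs

variable {K : Type*} [Field K] [CharZero K] [IsAlgClosed K] {V : Type*} [AddCommGroup V]
  [Module K V]

/-- A vector on which a power of an operator acts as a nonzero scalar is a sum of eigenvectors. -/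
lemma eig_of_pow {T : Module.End K V} {z : V} {a : K} {m : ℕ} (hm : 1 ≤ m) (ha : a ≠ 0)
    (h : (T ^ m) z = a • z) : z ∈ Submodule.span K {y : V | ∃ α : K, T y = α • y} := by
  classical
  set p : K[X] := X ^ m - C a with hp
  have hsep : p.Separable := separable_X_pow_sub_C a (by exact_mod_cast (by omega : m ≠ 0)) ha
  have hmon : p.Monic := monic_X_pow_sub_C a (by omega)
  have hspl : p.Splits := IsAlgClosed.splits p
  set s : Finset K := p.roots.toFinset with hs
  have hprod : Lagrange.nodal s id = p := by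
    rw [Lagrange.nodal, Finset.prod_eq_multiset_prod, hs, Multiset.toFinset_val,
      (nodup_roots hsep).dedup]
    simp only [id]
    exact (hspl.eq_prod_roots_of_monic hmon).symm
  have hne : s.Nonempty := by
    rw [Finset.nonempty_iff_ne_empty]
    intro h0
    rw [h0, Lagrange.nodal, Finset.prod_empty] at hprod
    have h1 := congrArg natDegree hprod
    rw [natDegree_one, hp, natDegree_X_pow_sub_C] at h1
    omega
  have h1 := congrArg (fun P => aeval T P z)
    (Lagrange.sum_basis (v := (id : K → K)) (s := s) Function.injective_id.injOn hne)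
  simp only [map_sum, map_one, LinearMap.sum_apply, Module.End.one_apply] at h1
  rw [← h1]
  apply Submodule.sum_mem
  intro α hα
  apply Submodule.subset_span
  refine ⟨α, ?_⟩
  have h2 : (X - C α) * Lagrange.basis s id α = C (Lagrange.nodalWeight s id α) * p := by
    rw [Lagrange.basis_eq_prod_sub_inv_mul_nodal_div hα, ← Lagrange.nodal_erase_eq_nodal_div hα,
      ← hprod, Lagrange.nodal_eq_mul_nodal_erase hα]
    simp only [id]
    ring
  have h3 := congrArg (fun P => aeval T P z) h2
  simp only [map_mul, Module.End.mul_apply, hp, map_sub, aeval_X, aeval_C, map_pow] at h3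
  rw [LinearMap.sub_apply, LinearMap.sub_apply, h] at h3
  simp only [Module.algebraMap_end_apply] at h3
  rw [sub_self, smul_zero, sub_eq_zero] at h3
  exact h3

end Abs

variable {k : Type u} [Field k] {𝒱 : VarClass k} {ops : CycleOps 𝒱}
  {W : WeilCohomology.{u, v} ops} {P : Polarized 𝒱} {fr : P.X ⟶ P.X} {q : ℕ}

/-- The generalized eigenspaces of the Frobenius endomorphism on the primitive transcendental
cohomology are irreducible. -/
def IrrG (A : SimAction W P fr q) : Prop :=
  ∀ i ≤ P.X.dim, ∀ α, ScalarCommutant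
    (primT W P i ⊓ Module.End.maxGenEigenspace (W.map fr).toLinearMap α)
    (fun (g : A.G) a => A.ρ g a)

section

variable {f Φ : Module.End W.K (W.H P.X)} (l : Loc W P f Φ) (B : RB W P f)
  {A : SimAction W P fr q} (hI : IrrG A)

include l B hI

/-- The generalized eigenvectors are eigenvectors. -/
lemma gen_eig {i : ℕ} (hi : i ≤ P.X.dim) {α : W.K} {x : W.H P.X} (hx : x ∈ primT W P i)
    (hα : x ∈ Module.End.maxGenEigenspace (W.map fr).toLinearMap α) : W.map fr x = α • x := by
  by_cases hx0 : x = 0
  · rw [hx0, map_zero, smul_zero]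
  have hfr : (W.map fr).toLinearMap = A.op A.φ := LinearMap.ext fun a => (A.frob a).symm
  obtain ⟨c, hc⟩ := hI i hi α (W.map fr).toLinearMap (by
    intro t ht
    obtain ⟨ht1, ht2⟩ := Submodule.mem_inf.1 ht
    refine Submodule.mem_inf.2 ⟨?_, ?_⟩
    · rw [hfr]
      exact primT_rho l B _ ht1
    · exact Module.End.mapsTo_maxGenEigenspace_of_comm (Commute.refl _) α ht2) (by
    intro g t _
    rw [hfr]
    change (A.op A.φ * A.op g) t = (A.op g * A.op A.φ) t
    rw [← map_mul, ← map_mul, A.cen])
  have h1 : W.map fr x = c • x := hc x (Submodule.mem_inf.2 ⟨hx, hα⟩)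
  rw [Module.End.mem_maxGenEigenspace] at hα
  obtain ⟨N, hN⟩ := hα
  have h2 : ∀ N : ℕ, (((W.map fr).toLinearMap - α • (1 : Module.End W.K (W.H P.X))) ^ N) x =
      (c - α) ^ N • x := by
    intro N
    induction N with
    | zero => simp
    | succ N ih =>
      rw [pow_succ', Module.End.mul_apply, ih, map_smul, LinearMap.sub_apply,
        LinearMap.smul_apply, Module.End.one_apply]
      change (c - α) ^ N • (W.map fr x - α • x) = _
      rw [h1, ← sub_smul, smul_smul, pow_succ]
  rw [h2] at hN
  have h3 : c = α := sub_eq_zero.1 (eq_zero_of_pow_eq_zero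
    ((smul_eq_zero.1 hN).resolve_right hx0))
  rw [h1, h3]

lemma irrT_of : IrrT A := by
  intro i hi α
  have h1 : primT W P i ⊓ Module.End.eigenspace (W.map fr).toLinearMap α =
      primT W P i ⊓ Module.End.maxGenEigenspace (W.map fr).toLinearMap α := by
    apply le_antisymm
    · intro x hx
      obtain ⟨h1, h2⟩ := Submodule.mem_inf.1 hx
      refine Submodule.mem_inf.2 ⟨h1, ?_⟩
      rw [Module.End.mem_maxGenEigenspace]
      rw [Module.End.mem_eigenspace_iff] at h2
      refine ⟨1, ?_⟩
      rw [pow_one, LinearMap.sub_apply, h2, LinearMap.smul_apply, Module.End.one_apply, sub_self]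
    · intro x hx
      obtain ⟨h1, h2⟩ := Submodule.mem_inf.1 hx
      exact Submodule.mem_inf.2 ⟨h1, Module.End.mem_eigenspace_iff.2 (gen_eig l B hI hi h1 h2)⟩
  rw [h1]
  exact hI i hi α

/-- The Frobenius endomorphism is semisimple. -/
theorem diag_of [IsAlgClosed W.K] (hq : q ≠ 0) (hF : FrobeniusOnCycles W P.X fr q) :
    Diagonalizable W fr := by
  classical
  have hq0 : (q : W.K) ≠ 0 := by exact_mod_cast hq
  set T : Module.End W.K (W.H P.X) := (W.map fr).toLinearMap with hT
  have hfr : T = A.op A.φ := LinearMap.ext fun a => (A.frob a).symm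
  set S : Submodule W.K (W.H P.X) := Submodule.span W.K {y | ∃ α : W.K, T y = α • y} with hS
  suffices h : S = ⊤ by
    rw [Diagonalizable, eq_top_iff, ← h]
    apply Submodule.span_le.2
    rintro y ⟨α, hα⟩
    exact Submodule.mem_iSup_of_mem α (Module.End.mem_eigenspace_iff.2 hα)
  rw [eq_top_iff]
  intro x _
  have h1 : ∀ x ∈ ASp W P.X, x ∈ S := by
    intro x hx
    refine Submodule.span_le.2 ?_ hx
    intro x hx
    refine AS.ind (p := fun x => x ∈ S) ?_ (fun a b ha hb => Submodule.add_mem _ ha hb) hx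
    rintro j x ⟨z, hz, rfl⟩
    obtain ⟨m, hm, hm'⟩ := hF j z hz
    rw [cl_iterate] at hm'
    refine eig_of_pow hm (pow_ne_zero (m * j) hq0) ?_
    rw [Module.End.pow_apply]
    exact hm'
  have h2 : ∀ i ≤ P.X.dim, ∀ x ∈ primT W P i, x ∈ S := by
    intro i hi x hx
    have h3 : primT W P i ⊓ ⨆ μ, Module.End.genEigenspace T μ ⊤ =
        ⨆ μ, primT W P i ⊓ Module.End.genEigenspace T μ ⊤ := by
      apply Submodule.inf_iSup_genEigenspace
      intro x hx
      rw [hfr]
      exact primT_rho l B _ hx
    have h4 : x ∈ primT W P i ⊓ ⨆ μ, Module.End.genEigenspace T μ ⊤ := by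
      refine Submodule.mem_inf.2 ⟨hx, ?_⟩
      have h5 := Module.End.iSup_maxGenEigenspace_eq_top T
      have h6 : (⨆ μ, Module.End.genEigenspace T μ ⊤) = ⊤ := h5
      rw [h6]
      exact Submodule.mem_top
    rw [h3] at h4
    refine (iSup_le fun μ => ?_ : (⨆ μ, primT W P i ⊓ Module.End.genEigenspace T μ ⊤) ≤ S) h4
    intro y hy
    obtain ⟨hy1, hy2⟩ := Submodule.mem_inf.1 hy
    exact Submodule.subset_span ⟨μ, gen_eig l B hI hi hy1 hy2⟩
  have h3 : ∀ c : ℕ, ∀ x ∈ S, ((LO W P) ^ c) x ∈ S := by
    intro c x hx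
    induction hx using Submodule.span_induction with
    | mem x hx =>
      obtain ⟨α, hα⟩ := hx
      refine Submodule.subset_span ⟨(q : W.K) ^ c * α, ?_⟩
      have h4 := A.op_pow_L 1 c x
      rw [one_mul, pow_one, ← hfr, hα, map_smul, smul_smul] at h4
      exact h4
    | zero => rw [map_zero]; exact Submodule.zero_mem _
    | add a b _ _ ha hb => rw [map_add]; exact Submodule.add_mem _ ha hb
    | smul t a _ ha => rw [map_smul]; exact Submodule.smul_mem _ _ ha
  have h4 : x = B.p x + (1 - B.p) x := by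
    rw [LinearMap.sub_apply, Module.End.one_apply, add_sub_cancel]
  rw [h4]
  refine Submodule.add_mem _ (h1 _ (B.p_mem x)) ?_
  have hpy : B.p ((1 - B.p) x) = 0 := by
    have h1 : B.p * (1 - B.p) = 0 := by rw [mul_sub, mul_one, B.p_p, sub_self]
    exact congrArg (fun G => G x) h1
  set y := (1 - B.p) x with hy
  have h5 : ∑ i ∈ range (P.X.dim + 1), ∑ b ∈ range (P.X.dim + 1),
      (LO W P) ^ b * rib (W.isInternal P.X) (LO W P) Φ i b = 1 := sum_rib l.t l.hΦ
  have h6 := congrArg (fun G => G y) h5
  simp only [LinearMap.sum_apply, Module.End.mul_apply, Module.End.one_apply] at h6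
  rw [← h6]
  refine Submodule.sum_mem _ fun i hi => Submodule.sum_mem _ fun b _ => ?_
  exact h3 b _ (h2 i (by have := mem_range.1 hi; omega) _ (rib_primT l B A i b hpy))

end

end Pool.Agent.W552
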