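import Pool.Agent.W552.IrrPos
import Pool.Agent.W552.EigProj

/-!
# Equivariant operators on the transcendental part are tautological
-/

open CategoryTheory AlgebraicGeometry Finset

universe u v w

namespace Pool.Agent.W552

open Pool.Agent.H914 Pool.Agent.H914.VarClass Pool.Agent.H914.VarClass.Obj
  Pool.Agent.H914.WeilCohomology Pool.Agent.H281R3.HT Pool.Agent.H447

variable {k : Type u} [Field k] {𝒱 : VarClass k} {ops : CycleOps 𝒱}
  {W : WeilCohomology.{u, v} ops} {P Q : Polarized 𝒱}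
  {fr : P.X ⟶ P.X} {fr' : Q.X ⟶ Q.X} {q : ℕ}

/-- The Lefschetz operator. -/
noncomputable abbrev LO (W : WeilCohomology.{u, v} ops) (P : Polarized 𝒱) :
    Module.End W.K (W.H P.X) := LinearMap.mulLeft W.K (W.cl P.X P.D)

/-- The primitive transcendental cohomology. -/
noncomputable def primT (W : WeilCohomology.{u, v} ops) (P : Polarized 𝒱) (i : ℕ) :
    Submodule W.K (W.H P.X) :=
  transcendental W P.X ⊓ W.gr P.X i ⊓ LinearMap.ker ((LO W P) ^ (P.X.dim - i + 1))

/-- The number `α` is an eigenvalue of the Frobenius endomorphism on the primitive transcendental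
cohomology of degree `i`. -/
def EigT (W : WeilCohomology.{u, v} ops) (P : Polarized 𝒱) (fr : P.X ⟶ P.X) (i : ℕ)
    (α : W.K) : Prop :=
  i ≤ P.X.dim ∧ ∃ x ∈ primT W P i, x ≠ 0 ∧ W.map fr x = α • x

/-- The linear combinations of tautological operators. -/
def KTA (A : SimAction W P fr q) (f Φ : Module.End W.K (W.H P.X)) :
    Submodule W.K (Module.End W.K (W.H P.X)) := Submodule.span W.K {u | TA (Tg A f Φ) u}

/-- The linear combinations of the transcendental parts of tautological operators. -/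
def KTT (A : SimAction W P fr q) (f Φ : Module.End W.K (W.H P.X))
    (p : Module.End W.K (W.H P.X)) : Submodule W.K (Module.End W.K (W.H P.X)) :=
  Submodule.span W.K {u | ∃ t, TA (Tg A f Φ) t ∧ u = t * p}

section Basic

variable {A : SimAction W P fr q} {f Φ : Module.End W.K (W.H P.X)}

lemma KTA.mul {u v : Module.End W.K (W.H P.X)} (hu : u ∈ KTA A f Φ) (hv : v ∈ KTA A f Φ) :
    u * v ∈ KTA A f Φ :=
  span_bil (LinearMap.mul W.K (Module.End W.K (W.H P.X)))
    (fun _ hx _ hy => Submodule.subset_span (TA.mul hx hy)) hu hv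

lemma KTA.of {u : Module.End W.K (W.H P.X)} (hu : TA (Tg A f Φ) u) : u ∈ KTA A f Φ :=
  Submodule.subset_span hu

lemma KTA.rho {u : Module.End W.K (W.H P.X)}
    (hu : u ∈ Submodule.span W.K (Set.range A.op)) : u ∈ KTA A f Φ := by
  refine Submodule.span_mono ?_ hu
  rintro _ ⟨g, rfl⟩
  exact ⟨_, GD.of (TGen.rho g)⟩

lemma KTA.pow {u : Module.End W.K (W.H P.X)}
    (hu : u ∈ Submodule.span W.K (Set.range fun m : ℕ => (W.map fr).toLinearMap ^ m)) :
    u ∈ KTA A f Φ := by
  refine Submodule.span_mono ?_ hu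
  rintro _ ⟨m, rfl⟩
  have h1 : (W.map fr).toLinearMap = A.op A.φ := LinearMap.ext fun a => (A.frob a).symm
  beta_reduce
  rw [h1, ← map_pow]
  exact ⟨_, GD.of (TGen.rho _)⟩

lemma KTT.mul_left {p u v : Module.End W.K (W.H P.X)} (hu : u ∈ KTA A f Φ)
    (hv : v ∈ KTT A f Φ p) : u * v ∈ KTT A f Φ p :=
  span_bil (LinearMap.mul W.K (Module.End W.K (W.H P.X)))
    (fun x hx y hy => by
      obtain ⟨t, ht, rfl⟩ := hy
      exact Submodule.subset_span ⟨x * t, TA.mul hx ht, (mul_assoc x t p).symm⟩) hu hv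

lemma KTT.of_kta {p u : Module.End W.K (W.H P.X)} (hu : u ∈ KTA A f Φ) :
    u * p ∈ KTT A f Φ p := by
  refine span_bil (LinearMap.mul W.K (Module.End W.K (W.H P.X))) (t := {p})
    (fun x hx y hy => ?_) hu (Submodule.subset_span rfl)
  rw [Set.mem_singleton_iff.1 hy]
  exact Submodule.subset_span ⟨x, hx, rfl⟩

lemma KTT.mul_right {p u v : Module.End W.K (W.H P.X)} (hu : u ∈ KTT A f Φ p)
    (hv : TA (Tg A f Φ) v) (hc : v * p = p * v) : u * v ∈ KTT A f Φ p := by
  refine span_bil (LinearMap.mul W.K (Module.End W.K (W.H P.X))) (t := {v})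
    (fun x hx y hy => ?_) hu (Submodule.subset_span rfl)
  rw [Set.mem_singleton_iff.1 hy]
  obtain ⟨t, ht, rfl⟩ := hx
  exact Submodule.subset_span ⟨t * v, ht.mul hv, by
    change t * p * v = _
    rw [mul_assoc, ← hc, mul_assoc]⟩

end Basic

section One

variable {A : SimAction W P fr q} {f Φ : Module.End W.K (W.H P.X)} (l : Loc W P f Φ)
  (B : RB W P f)

include l B

lemma mem_primT {i : ℕ} {x : W.H P.X} : x ∈ primT W P i ↔
    B.p x = 0 ∧ x ∈ W.gr P.X i ∧ ((LO W P) ^ (P.X.dim - i + 1)) x = 0 := by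
  rw [primT, Submodule.mem_inf, Submodule.mem_inf, ← B.p_eq_zero l, LinearMap.mem_ker, and_assoc]

lemma primT_rho (g : A.G) {i : ℕ} {x : W.H P.X} (hx : x ∈ primT W P i) :
    A.ρ g x ∈ primT W P i := by
  rw [mem_primT l B] at hx ⊢
  obtain ⟨h1, h2, h3⟩ := hx
  refine ⟨?_, A.mem g i x h2, ?_⟩
  · have h4 : TA (Tg A f Φ) (A.op g) := ⟨_, GD.of (TGen.rho g)⟩
    have h5 := congrArg (fun G => G x) (ta_comm l B h4)
    simp only [Module.End.mul_apply] at h5
    rw [h1, map_zero] at h5
    exact h5.symm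
  · have h4 : ∀ (m : ℕ) (a : W.H P.X), A.op g (((LO W P) ^ m) a) =
        (A.χ g : W.K) ^ m • ((LO W P) ^ m) (A.op g a) := by
      intro m
      induction m with
      | zero => intro a; simp
      | succ m ih =>
        intro a
        rw [pow_succ', Module.End.mul_apply, A.gRep.hL, ih, map_smul, smul_smul,
          Module.End.mul_apply, pow_succ']
    have h5 := h4 (P.X.dim - i + 1) x
    rw [h3, map_zero] at h5
    exact (smul_eq_zero.1 h5.symm).resolve_left (pow_ne_zero _ (A.gRep.ne g))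

lemma primT_span (A : SimAction W P fr q) {w : Module.End W.K (W.H P.X)}
    (hw : w ∈ Submodule.span W.K (Set.range A.op)) {i : ℕ} {x : W.H P.X}
    (hx : x ∈ primT W P i) : w x ∈ primT W P i := by
  induction hw using Submodule.span_induction with
  | mem u hu => obtain ⟨g, rfl⟩ := hu; exact primT_rho l B g hx
  | zero => exact Submodule.zero_mem _
  | add a b _ _ ha hb => exact Submodule.add_mem _ ha hb
  | smul c a _ ha => exact Submodule.smul_mem _ _ ha

lemma primT_pow (A : SimAction W P fr q) {w : Module.End W.K (W.H P.X)}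
    (hw : w ∈ Submodule.span W.K (Set.range fun m : ℕ => (W.map fr).toLinearMap ^ m)) {i : ℕ}
    {x : W.H P.X} (hx : x ∈ primT W P i) : w x ∈ primT W P i := by
  refine primT_span l B A ?_ hx
  refine Submodule.span_mono ?_ hw
  rintro _ ⟨m, rfl⟩
  have h1 : (W.map fr).toLinearMap = A.op A.φ := LinearMap.ext fun a => (A.frob a).symm
  exact ⟨A.φ ^ m, by beta_reduce; rw [h1, ← map_pow]⟩

omit B in
lemma L_rib (i b : ℕ) : (LO W P) ^ (P.X.dim - i + 1) * rib (W.isInternal P.X) (LO W P) Φ i b =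
    0 := by
  apply ext_lef l.t
  intro i' hi' x hx hp j hj
  rw [Module.End.mul_apply, rib_apply l.t l.hΦ hi' hx hp hj]
  split_ifs with h1
  · rw [h1.1, hp, LinearMap.zero_apply]
  · rw [map_zero, LinearMap.zero_apply]

omit B in
lemma prm_rib (i b : ℕ) : prm (W.isInternal P.X) (LO W P) Φ i *
    rib (W.isInternal P.X) (LO W P) Φ i b = rib (W.isInternal P.X) (LO W P) Φ i b := by
  apply ext_lef l.t
  intro i' hi' x hx hp j hj
  rw [Module.End.mul_apply, rib_apply l.t l.hΦ hi' hx hp hj]
  split_ifs with h1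
  · have h2 := prm_apply l.t l.hΦ hi' hx hp (j := 0) (by omega) i
    rw [pow_zero, Module.End.one_apply, if_pos ⟨h1.1, rfl⟩] at h2
    exact h2
  · rw [map_zero]

omit B in
lemma prm_prm (i : ℕ) : prm (W.isInternal P.X) (LO W P) Φ i *
    prm (W.isInternal P.X) (LO W P) Φ i = prm (W.isInternal P.X) (LO W P) Φ i := by
  have h1 := prm_rib l i 0
  rwa [rib, pow_zero, mul_one] at h1

/-- The images of the components of a transcendental class. -/
lemma rib_primT (A : SimAction W P fr q) (i b : ℕ) {x : W.H P.X} (hx : B.p x = 0) :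
    rib (W.isInternal P.X) (LO W P) Φ i b x ∈ primT W P i := by
  rw [mem_primT l B]
  refine ⟨?_, ?_, congrArg (fun G => G x) (L_rib l i b)⟩
  · have h1 := congrArg (fun G => G x) (ta_comm l B (A := A) (ta_rib l.t l.hΦ i b))
    simp only [Module.End.mul_apply] at h1
    rw [hx, map_zero] at h1
    exact h1.symm
  · have h1 := congrArg (fun G => G x) (proj_rib (h := W.isInternal P.X) l.t l.hΦ i b)
    rw [← h1]
    exact proj_mem _ _ _

lemma prm_primT (A : SimAction W P fr q) (i : ℕ) {x : W.H P.X} (hx : B.p x = 0) :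
    prm (W.isInternal P.X) (LO W P) Φ i x ∈ primT W P i := by
  have h1 := rib_primT l B A i 0 hx
  rwa [rib, pow_zero, mul_one] at h1

end One

section Two

variable {A : SimAction W P fr q} {A' : SimAction W Q fr' q}
  {f Φ : Module.End W.K (W.H P.X)} {f' Φ' : Module.End W.K (W.H Q.X)}
  (l : Loc W P f Φ) (l' : Loc W Q f' Φ') (B : RB W P f) (B' : RB W Q f')

omit l B in
include l' B' in
/-- The image of an eigenvector. -/
lemma eig_key {v : W.H P.X →ₗ[W.K] W.H Q.X} {j i m a' b' : ℕ} (hj : j ≤ P.X.dim)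
    (hi : i ≤ Q.X.dim)
    (h2 : ∀ x ∈ primT W P j, v x ∈ primT W Q i)
    (h3 : ∀ x ∈ primT W P j, (q : W.K) ^ (m * a') • v (A.op (A.φ ^ m) x) =
      (q : W.K) ^ (m * b') • A'.op (A'.φ ^ m) (v x))
    (hdiag' : Diagonalizable W fr') {C : W.K → W.K → Prop}
    (hsep : ∀ α β, EigT W P fr j α → EigT W Q fr' i β →
      α ^ m * (q : W.K) ^ (m * a') = β ^ m * (q : W.K) ^ (m * b') → C α β)
    {y : W.H P.X} (hy : y ∈ primT W P j) {α : W.K} (hα : W.map fr y = α • y) :
    ∃ z : W.K → W.H Q.X, (∃ s : Finset W.K, v y = ∑ β ∈ s, z β) ∧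
      ∀ β, z β ≠ 0 → C α β ∧ W.map fr' (z β) = β • z β := by
  classical
  have hspan : Submodule.span W.K {y : W.H Q.X | ∃ α : W.K, (W.map fr').toLinearMap y = α • y} =
      ⊤ := by
    rw [eq_top_iff, ← span_eigen hdiag']
    apply Submodule.span_mono
    rintro x ⟨d, α, _, h⟩
    exact ⟨α, h⟩
  obtain ⟨s, E, hE1, hE2, hE3, hE4, hE5⟩ := exists_eigProj hspan
  refine ⟨fun β => if β ∈ s then E β (v y) else 0, ⟨s, ?_⟩, ?_⟩
  · have h4 := congrArg (fun G => G (v y)) hE1
    simp only [LinearMap.sum_apply, Module.End.one_apply] at h4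
    refine h4.symm.trans (Finset.sum_congr rfl fun β hβ => ?_)
    beta_reduce
    rw [if_pos hβ]
  · intro β hz
    beta_reduce at hz ⊢
    by_cases hβ : β ∈ s
    swap
    · rw [if_neg hβ] at hz
      exact absurd rfl hz
    rw [if_pos hβ] at hz ⊢
    have hβe : W.map fr' (E β (v y)) = β • E β (v y) := hE2 β hβ _
    refine ⟨?_, hβe⟩
    have hy0 : y ≠ 0 := by
      rintro rfl
      apply hz
      rw [map_zero, map_zero]
    have hmem : E β (v y) ∈ primT W Q i := primT_pow l' B' A' (hE4 β) (h2 y hy)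
    refine hsep α β ⟨hj, y, hy, hy0, hα⟩ ⟨hi, _, hmem, hz, hβe⟩ ?_
    -- the relation
    have hpow : ∀ (m : ℕ), A.op (A.φ ^ m) y = α ^ m • y := by
      intro m
      induction m with
      | zero => simp
      | succ m ih =>
        rw [pow_succ', map_mul, Module.End.mul_apply, ih, map_smul, A.op_apply, A.frob, hα,
          smul_smul, pow_succ]
    have hpow' : ∀ (m : ℕ), A'.op (A'.φ ^ m) (E β (v y)) = β ^ m • E β (v y) := by
      intro m
      induction m with
      | zero => simp
      | succ m ih =>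
        rw [pow_succ', map_mul, Module.End.mul_apply, ih, map_smul, A'.op_apply, A'.frob, hβe,
          smul_smul, pow_succ]
    have hcomm : A'.op (A'.φ ^ m) * E β = E β * A'.op (A'.φ ^ m) := by
      apply hE5
      have h1 : (W.map fr').toLinearMap = A'.op A'.φ := LinearMap.ext fun a => (A'.frob a).symm
      rw [h1, ← map_mul, ← map_mul, pow_mul_comm']
    have h4 := congrArg (E β) (h3 y hy)
    rw [hpow, map_smul, map_smul, map_smul, map_smul, ← Module.End.mul_apply (E β), ← hcomm,
      Module.End.mul_apply, hpow', smul_smul, smul_smul] at h4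
    have h5 : (q : W.K) ^ (m * a') * α ^ m = (q : W.K) ^ (m * b') * β ^ m := by
      have h6 : ((q : W.K) ^ (m * a') * α ^ m - (q : W.K) ^ (m * b') * β ^ m) • E β (v y) = 0 := by
        rw [sub_smul, h4, sub_self]
      exact sub_eq_zero.1 ((smul_eq_zero.1 h6).resolve_right hz)
    rw [mul_comm, h5, mul_comm]

end Two

end Pool.Agent.W552
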