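import Pool.Agent.W552.MatA

/-!
# Lists of indices, monomials and real tensors
-/

open Matrix
open scoped ComplexOrder Kronecker

universe v w

namespace Pool.Agent.W552

section Idx

variable {Λ : Type} (N : Λ → ℕ)

/-- Multi-indices. -/
def Idx : List Λ → Type
  | [] => Unit
  | a :: l => Fin (N a) × Idx l

instance Idx.fintype : ∀ l, Fintype (Idx N l)
  | [] => inferInstanceAs (Fintype Unit)
  | a :: l =>
    have := Idx.fintype l
    inferInstanceAs (Fintype (Fin (N a) × Idx N l))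

instance Idx.decidableEq : ∀ l, DecidableEq (Idx N l)
  | [] => inferInstanceAs (DecidableEq Unit)
  | a :: l =>
    have := Idx.decidableEq l
    inferInstanceAs (DecidableEq (Fin (N a) × Idx N l))

variable {N}

/-- The Kronecker product of matrices along a list. -/
def Kron {R : Type*} [Mul R] [Zero R] [One R] (C : ∀ a, Matrix (Fin (N a)) (Fin (N a)) R) :
    ∀ l, Matrix (Idx N l) (Idx N l) R
  | [] => fun _ _ => 1
  | a :: l => kroneckerMap (· * ·) (C a) (Kron C l)

lemma Kron_cons {R : Type*} [Mul R] [Zero R] [One R] (C : ∀ a, Matrix (Fin (N a)) (Fin (N a)) R)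
    (a : Λ) (l : List Λ) : Kron C (a :: l) = kroneckerMap (· * ·) (C a) (Kron C l) := rfl

lemma Kron_apply {R : Type*} [Mul R] [Zero R] [One R] (C : ∀ a, Matrix (Fin (N a)) (Fin (N a)) R)
    (a : Λ) (l : List Λ) (p q : Fin (N a)) (r u : Idx N l) :
    Kron C (a :: l) (p, r) (q, u) = C a p q * Kron C l r u := rfl

lemma Kron_mul {R : Type*} [CommRing R] (C C' : ∀ a, Matrix (Fin (N a)) (Fin (N a)) R)
    (l : List Λ) : Kron C l * Kron C' l = Kron (fun a => C a * C' a) l := by
  induction l with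
  | nil =>
    ext r u
    rw [Matrix.mul_apply]
    change ∑ _ : Unit, (1 : R) * 1 = 1
    simp
  | cons a l ih =>
    rw [Kron_cons, Kron_cons, Kron_cons, ← ih]
    exact (mul_kronecker_mul (C a) (C' a) (Kron C l) (Kron C' l)).symm

lemma Kron_map {R S : Type*} [CommRing R] [CommRing S] (τ : R →+* S)
    (C : ∀ a, Matrix (Fin (N a)) (Fin (N a)) R) (l : List Λ) (r u : Idx N l) :
    τ (Kron C l r u) = Kron (fun a => (C a).map τ) l r u := by
  induction l with
  | nil => exact map_one τ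
  | cons a l ih =>
    obtain ⟨p, r⟩ := r
    obtain ⟨q, u⟩ := u
    rw [Kron_apply, Kron_apply, map_mul, ih]
    rfl

lemma Kron_posDef {C : ∀ a, Matrix (Fin (N a)) (Fin (N a)) ℂ} (hC : ∀ a, (C a).PosDef)
    (l : List Λ) : (Kron C l).PosDef := by
  induction l with
  | nil =>
    have h1 : Kron C [] = 1 := by
      ext r u
      cases r
      cases u
      rfl
    rw [h1]
    exact PosDef.one
  | cons a l ih => exact PosDef.kronecker (hC a) ih

end Idx

section RC

variable {Λ : Type} {N : Λ → ℕ} {K : Type v} [Field K] [CharZero K] {H : Type w} [Ring H]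
  [Algebra K H] (e : ∀ a, Fin (N a) → H)

/-- The monomials. -/
def mon : ∀ l, Idx N l → H
  | [], _ => 1
  | a :: l, x => e a x.1 * mon l x.2

lemma mon_cons (a : Λ) (l : List Λ) (p : Fin (N a)) (r : Idx N l) :
    mon e (a :: l) (p, r) = e a p * mon e l r := rfl

variable {e}

/-- A monomial for a permuted list. -/
theorem exists_perm {C : ∀ a, Matrix (Fin (N a)) (Fin (N a)) ℂ} {dg : ∀ a, Fin (N a) → ℕ}
    (hcomm : ∀ a b p q, e a p * e b q = (-1 : K) ^ (dg a p * dg b q) • (e b q * e a p))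
    (hC : ∀ a p q, ¬ Even (dg a p + dg a q) → C a p q = 0) {l l' : List Λ} (h : l.Perm l') :
    ∃ (φ : Idx N l' ≃ Idx N l) (ε : Idx N l' → ℤ), (∀ r, ε r * ε r = 1) ∧
      (∀ r, mon e l' r = (ε r : K) • mon e l (φ r)) ∧
      ∀ r u, Kron C l' r u = ((ε r * ε u : ℤ) : ℂ) * Kron C l (φ r) (φ u) := by
  induction h with
  | nil =>
    refine ⟨Equiv.refl _, fun _ => 1, fun _ => by norm_num, fun r => ?_, fun r u => ?_⟩
    · simp
    · simp
  | @cons a l l' h ih =>
    obtain ⟨φ, ε, h1, h2, h3⟩ := ih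
    refine ⟨Equiv.prodCongr (Equiv.refl (Fin (N a))) φ, fun x => ε x.2, fun r => h1 _,
      fun r => ?_, fun r u => ?_⟩
    · obtain ⟨p, r⟩ := r
      change e a p * mon e l' r = (ε r : K) • (e a p * mon e l (φ r))
      rw [h2, mul_smul_comm]
    · obtain ⟨p, r⟩ := r
      obtain ⟨q, u⟩ := u
      change C a p q * Kron C l' r u = ((ε r * ε u : ℤ) : ℂ) * (C a p q * Kron C l (φ r) (φ u))
      rw [h3]
      ring
  | @swap a b l =>
    refine ⟨⟨fun (x : Fin (N a) × Fin (N b) × Idx N l) =>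
        (show Idx N (b :: a :: l) from (x.2.1, x.1, x.2.2)),
        fun (x : Fin (N b) × Fin (N a) × Idx N l) => (x.2.1, x.1, x.2.2), fun _ => rfl,
        fun _ => rfl⟩,
        fun (x : Fin (N a) × Fin (N b) × Idx N l) => (-1) ^ (dg a x.1 * dg b x.2.1), ?_, ?_, ?_⟩
    · intro r
      rw [← mul_pow]; norm_num
    · rintro ⟨p, q, r⟩
      change e a p * (e b q * mon e l r) = (((-1) ^ (dg a p * dg b q) : ℤ) : K) •
        (e b q * (e a p * mon e l r))
      rw [← mul_assoc, hcomm, smul_mul_assoc, mul_assoc]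
      push_cast
      rfl
    · rintro ⟨p, q, r⟩ ⟨p', q', r'⟩
      change C a p p' * (C b q q' * Kron C l r r') =
        (((-1) ^ (dg a p * dg b q) * (-1) ^ (dg a p' * dg b q') : ℤ) : ℂ) *
          (C b q q' * (C a p p' * Kron C l r r'))
      by_cases h1 : Even (dg a p + dg a p')
      swap
      · rw [hC _ _ _ h1]; ring
      by_cases h2 : Even (dg b q + dg b q')
      swap
      · rw [hC _ _ _ h2]; ring
      have h3 : ((-1) ^ (dg a p * dg b q) * (-1) ^ (dg a p' * dg b q') : ℤ) = 1 := by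
        rw [← pow_add]
        apply Even.neg_one_pow
        rw [Nat.even_add, Nat.even_mul, Nat.even_mul]
        rw [Nat.even_add] at h1 h2
        tauto
      rw [h3]
      push_cast
      ring
  | @trans l l' l'' h h' ih ih' =>
    obtain ⟨φ, ε, h1, h2, h3⟩ := ih
    obtain ⟨φ', ε', h1', h2', h3'⟩ := ih'
    refine ⟨φ'.trans φ, fun r => ε' r * ε (φ' r), fun r => ?_, fun r => ?_, fun r u => ?_⟩
    · calc ε' r * ε (φ' r) * (ε' r * ε (φ' r)) = (ε' r * ε' r) * (ε (φ' r) * ε (φ' r)) := by ring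
        _ = 1 := by rw [h1, h1', one_mul]
    · rw [h2', h2, smul_smul]
      push_cast
      rfl
    · rw [h3', h3]
      push_cast
      change _ = _ * Kron C l (φ (φ' r)) (φ (φ' u))
      ring

variable (F : Subfield K) (σ : F →+* ℂ) (C : ∀ a, Matrix (Fin (N a)) (Fin (N a)) ℂ) (e)

/-- The elements with real coordinates. -/
def RC (l : List Λ) (c : H) : Prop :=
  ∃ T : Idx N l → F, c = ∑ r, (T r : K) • mon e l r ∧
    ∀ r, σ (T r) = ∑ u, Kron C l r u * starRingEnd ℂ (σ (T u))

variable {e F σ C}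

lemma RC.add {l : List Λ} {c c' : H} (h : RC e F σ C l c) (h' : RC e F σ C l c') :
    RC e F σ C l (c + c') := by
  obtain ⟨T, h1, h2⟩ := h
  obtain ⟨T', h1', h2'⟩ := h'
  refine ⟨T + T', ?_, fun r => ?_⟩
  · rw [h1, h1', ← Finset.sum_add_distrib]
    apply Finset.sum_congr rfl
    intro r _
    rw [← add_smul]
    rfl
  · rw [Pi.add_apply, map_add, h2, h2', ← Finset.sum_add_distrib]
    apply Finset.sum_congr rfl
    intro u _
    rw [Pi.add_apply, map_add, map_add, mul_add]

lemma RC.zero (l : List Λ) : RC e F σ C l (0 : H) := by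
  refine ⟨0, ?_, fun r => ?_⟩
  · simp
  · simp

lemma RC.smul {l : List Λ} (q : ℚ) {c : H} (h : RC e F σ C l c) :
    RC e F σ C l ((q : K) • c) := by
  obtain ⟨T, h1, h2⟩ := h
  refine ⟨(q : F) • T, ?_, fun r => ?_⟩
  · rw [h1, Finset.smul_sum]
    apply Finset.sum_congr rfl
    intro r _
    rw [smul_smul]
    simp
  · rw [Pi.smul_apply, smul_eq_mul, map_mul, h2, map_ratCast, Finset.mul_sum]
    apply Finset.sum_congr rfl
    intro u _
    rw [Pi.smul_apply, smul_eq_mul, map_mul, map_ratCast, map_mul, map_ratCast]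
    ring

lemma RC.nil : RC e F σ C [] (1 : H) := by
  refine ⟨fun _ => 1, ?_, fun r => ?_⟩
  · change (1 : H) = ∑ _ : Unit, ((1 : F) : K) • (1 : H)
    simp
  · change σ 1 = ∑ _ : Unit, (1 : ℂ) * starRingEnd ℂ (σ 1)
    simp

lemma RC.cons1 {l : List Λ} {c : H} (h : RC e F σ C l c) {a : Λ} {x : H} {t : Fin (N a) → F}
    (hx : x = ∑ p, (t p : K) • e a p)
    (ht : ∀ p, σ (t p) = ∑ q, C a p q * starRingEnd ℂ (σ (t q))) :
    RC e F σ C (a :: l) (x * c) := by
  obtain ⟨T, h1, h2⟩ := h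
  refine ⟨fun (y : Fin (N a) × Idx N l) => t y.1 * T y.2, ?_, ?_⟩
  · change x * c = ∑ y : Fin (N a) × Idx N l, ((t y.1 * T y.2 : F) : K) • (e a y.1 * mon e l y.2)
    rw [Fintype.sum_prod_type, hx, h1, Finset.sum_mul_sum]
    apply Finset.sum_congr rfl
    intro p _
    apply Finset.sum_congr rfl
    intro r _
    rw [smul_mul_smul_comm]
    rfl
  · rintro ⟨p, r⟩
    change σ (t p * T r) = ∑ y : Fin (N a) × Idx N l, (C a p y.1 * Kron C l r y.2) *
      starRingEnd ℂ (σ (t y.1 * T y.2))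
    rw [Fintype.sum_prod_type, map_mul, ht, h2, Finset.sum_mul_sum]
    apply Finset.sum_congr rfl
    intro q _
    apply Finset.sum_congr rfl
    intro u _
    rw [map_mul, map_mul]
    ring

lemma RC.cons2 {l : List Λ} {c : H} (h : RC e F σ C l c) {a b : Λ} {x : H}
    {t : Fin (N a) → Fin (N b) → F}
    (hx : x = ∑ p, ∑ q, (t p q : K) • (e a p * e b q))
    (ht : ∀ p q, σ (t p q) = ∑ p', ∑ q', C a p p' * C b q q' * starRingEnd ℂ (σ (t p' q'))) :
    RC e F σ C (a :: b :: l) (x * c) := by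
  obtain ⟨T, h1, h2⟩ := h
  refine ⟨fun (y : Fin (N a) × Fin (N b) × Idx N l) => t y.1 y.2.1 * T y.2.2, ?_, ?_⟩
  · change x * c = ∑ y : Fin (N a) × Fin (N b) × Idx N l, ((t y.1 y.2.1 * T y.2.2 : F) : K) •
      (e a y.1 * (e b y.2.1 * mon e l y.2.2))
    rw [Fintype.sum_prod_type, hx, h1, Finset.sum_mul]
    apply Finset.sum_congr rfl
    intro p _
    rw [Fintype.sum_prod_type, Finset.sum_mul_sum]
    apply Finset.sum_congr rfl
    intro q _
    apply Finset.sum_congr rfl
    intro r _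
    rw [smul_mul_smul_comm, mul_assoc]
    rfl
  · rintro ⟨p, q, r⟩
    change σ (t p q * T r) = ∑ y : Fin (N a) × Fin (N b) × Idx N l,
      (C a p y.1 * (C b q y.2.1 * Kron C l r y.2.2)) *
      starRingEnd ℂ (σ (t y.1 y.2.1 * T y.2.2))
    rw [Fintype.sum_prod_type, map_mul, ht, h2, Finset.sum_mul]
    apply Finset.sum_congr rfl
    intro p' _
    rw [Fintype.sum_prod_type, Finset.sum_mul_sum]
    apply Finset.sum_congr rfl
    intro q' _
    apply Finset.sum_congr rfl
    intro u _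
    rw [map_mul, map_mul]
    ring

lemma RC.perm {dg : ∀ a, Fin (N a) → ℕ}
    (hcomm : ∀ a b p q, e a p * e b q = (-1 : K) ^ (dg a p * dg b q) • (e b q * e a p))
    (hC : ∀ a p q, ¬ Even (dg a p + dg a q) → C a p q = 0) {l l' : List Λ} (h : l.Perm l')
    {c : H} (hc : RC e F σ C l c) : RC e F σ C l' c := by
  obtain ⟨φ, ε, h1, h2, h3⟩ := exists_perm (e := e) hcomm hC h
  obtain ⟨T, hT, hT'⟩ := hc
  refine ⟨fun r => (ε r : F) * T (φ r), ?_, fun r => ?_⟩
  · rw [hT, ← φ.sum_comp]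
    apply Finset.sum_congr rfl
    intro r _
    rw [h2, smul_smul]
    have h4 : ((ε r * ε r : ℤ) : K) = 1 := by rw [h1]; exact Int.cast_one
    push_cast at h4 ⊢
    rw [mul_right_comm, h4, one_mul]
  · rw [map_mul, hT', map_intCast, ← φ.sum_comp, Finset.mul_sum]
    apply Finset.sum_congr rfl
    intro u _
    rw [h3, map_mul, map_intCast, map_mul, map_intCast]
    have h4 : ((ε u * ε u : ℤ) : ℂ) = 1 := by rw [h1]; exact Int.cast_one
    push_cast at h4 ⊢
    linear_combination (-(ε r : ℂ) * Kron C l (φ r) (φ u) *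
      (starRingEnd ℂ) (σ (T (φ u)))) * h4

/-- **Positivity on the real tensors.** -/
theorem real_pos {B : ∀ a, Matrix (Fin (N a)) (Fin (N a)) F}
    (hBC : ∀ a, ((B a).map σ * C a).PosDef) {l : List Λ} {T : Idx N l → F} (hT0 : T ≠ 0)
    (hT : ∀ r, σ (T r) = ∑ u, Kron C l r u * starRingEnd ℂ (σ (T u))) {q : ℚ}
    (hq : ∑ r, ∑ u, T r * T u * Kron B l r u = (q : F)) : 0 < q := by
  set v : Idx N l → ℂ := fun r => starRingEnd ℂ (σ (T r)) with hv
  have hv0 : v ≠ 0 := by
    intro h0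
    apply hT0
    funext r
    have h1 := congrFun h0 r
    rw [hv] at h1
    have h2 : σ (T r) = 0 := by simpa using h1
    exact (map_eq_zero σ).1 h2
  have h1 := (Kron_posDef hBC l).dotProduct_mulVec_pos hv0
  have h2 : star v ⬝ᵥ (Kron (fun a => (B a).map σ * C a) l *ᵥ v) = (q : ℂ) := by
    have h3 : Kron C l *ᵥ v = fun r => σ (T r) := by
      funext r
      rw [hT]
      rfl
    rw [← Kron_mul, ← Matrix.mulVec_mulVec, h3]
    have h4 := congrArg σ hq
    rw [map_ratCast] at h4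
    rw [← h4, map_sum, dotProduct]
    apply Finset.sum_congr rfl
    intro r _
    rw [map_sum, Matrix.mulVec, dotProduct, Finset.mul_sum]
    apply Finset.sum_congr rfl
    intro u _
    rw [map_mul, map_mul, Kron_map, Pi.star_apply, hv]
    beta_reduce
    rw [← starRingEnd_apply, Complex.conj_conj]
    ring
  rw [h2] at h1
  have h5 : (0 : ℂ) < ((q : ℝ) : ℂ) := by simpa using h1
  have h6 : (0 : ℝ) < (q : ℝ) := Complex.zero_lt_real.1 h5
  exact_mod_cast h6

end RC

end Pool.Agent.W552
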