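import Mathlib

/-!
# Polarized complex matrix algebras: the antilinear structure
-/

open Matrix Polynomial
open scoped ComplexOrder

namespace Pool.Agent.W552

variable {I : Type*} [Fintype I] [DecidableEq I]

/-- The entrywise complex conjugate. -/
noncomputable abbrev cj {I J : Type*} (A : Matrix I J ℂ) : Matrix I J ℂ := A.map (starRingEnd ℂ)

omit [DecidableEq I] in
lemma cj_mul (A B : Matrix I I ℂ) : cj (A * B) = cj A * cj B := Matrix.map_mul

omit [Fintype I] [DecidableEq I] in
lemma cj_cj {J : Type*} (A : Matrix I J ℂ) : cj (cj A) = A := by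
  ext i j
  simp [cj]

omit [Fintype I] [DecidableEq I] in
lemma cj_add (A B : Matrix I I ℂ) : cj (A + B) = cj A + cj B := by
  ext i j
  simp [cj]

omit [Fintype I] [DecidableEq I] in
lemma cj_conjTranspose {J : Type*} (A : Matrix I J ℂ) : cj (Aᴴ) = Aᵀ := by
  ext i j
  simp [cj, Matrix.conjTranspose_apply]

omit [Fintype I] [DecidableEq I] in
lemma transpose_conjTranspose {J : Type*} (A : Matrix I J ℂ) : (Aᵀ)ᴴ = cj A := by
  ext i j
  simp [cj, Matrix.conjTranspose_apply]

omit [Fintype I] in
lemma cj_one : cj (1 : Matrix I I ℂ) = 1 := by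
  ext i j
  simp [cj, Matrix.one_apply, apply_ite]

omit [Fintype I] [DecidableEq I] in
lemma cj_real_smul (r : ℝ) (A : Matrix I I ℂ) : cj (r • A) = r • cj A := by
  ext i j
  simp [cj]

lemma cj_pow (A : Matrix I I ℂ) (n : ℕ) : cj (A ^ n) = cj A ^ n := by
  induction n with
  | zero => simp [cj_one]
  | succ n ih => rw [pow_succ, pow_succ, cj_mul, ih]

/-- If `S C = C (cj T)`, then the same holds for real polynomials in `S` and `T`. -/
lemma aeval_semiconj {S T C : Matrix I I ℂ} (h : C * cj T = S * C) (p : ℝ[X]) :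
    C * cj (aeval T p) = aeval S p * C := by
  have hpow : ∀ n : ℕ, C * (cj T) ^ n = S ^ n * C := by
    intro n
    induction n with
    | zero => simp
    | succ n ih => rw [pow_succ, ← mul_assoc, ih, mul_assoc, h, ← mul_assoc, ← pow_succ]
  induction p using Polynomial.induction_on' with
  | add p q hp hq => rw [map_add, cj_add, mul_add, hp, hq, map_add, add_mul]
  | monomial n a =>
    rw [aeval_monomial, aeval_monomial, ← Algebra.smul_def, ← Algebra.smul_def, cj_real_smul,
      cj_pow, mul_smul_comm, hpow, smul_mul_assoc]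

lemma aeval_comm {S A : Matrix I I ℂ} (h : A * S = S * A) (p : ℝ[X]) :
    A * aeval S p = aeval S p * A := by
  have hpow : ∀ n : ℕ, A * S ^ n = S ^ n * A := by
    intro n
    induction n with
    | zero => simp
    | succ n ih => rw [pow_succ, ← mul_assoc, ih, mul_assoc, h, ← mul_assoc]
  induction p using Polynomial.induction_on' with
  | add p q hp hq => rw [map_add, mul_add, hp, hq, add_mul]
  | monomial n a =>
    rw [aeval_monomial, ← Algebra.smul_def, mul_smul_comm, hpow, smul_mul_assoc]

lemma aeval_conj {S H Q : Matrix I I ℂ} (h : S * Q = Q * H) (p : ℝ[X]) :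
    aeval S p * Q = Q * aeval H p := by
  have hpow : ∀ n : ℕ, S ^ n * Q = Q * H ^ n := by
    intro n
    induction n with
    | zero => simp
    | succ n ih => rw [pow_succ, mul_assoc, h, ← mul_assoc, ih, mul_assoc, ← pow_succ]
  induction p using Polynomial.induction_on' with
  | add p q hp hq => rw [map_add, map_add, mul_add, add_mul, hp, hq]
  | monomial n a =>
    rw [aeval_monomial, aeval_monomial, ← Algebra.smul_def, ← Algebra.smul_def, smul_mul_assoc,
      hpow, mul_smul_comm]

/-- A real polynomial computing the inverse square root of a positive definite matrix. -/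
lemma exists_invSqrt {H : Matrix I I ℂ} (hH : H.PosDef) :
    ∃ p : ℝ[X], (aeval H p).PosDef ∧ aeval H p * aeval H p * H = 1 := by
  classical
  set lam := hH.isHermitian.eigenvalues with hlam
  have hpos : ∀ i, 0 < lam i := fun i => hH.eigenvalues_pos i
  set s : Finset ℝ := Finset.univ.image lam with hs
  set p : ℝ[X] := Lagrange.interpolate s id (fun x => (Real.sqrt x)⁻¹) with hp
  have hpv : ∀ i, p.eval (lam i) = (Real.sqrt (lam i))⁻¹ := by
    intro i
    have := Lagrange.eval_interpolate_at_node (s := s) (v := id) (i := lam i)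
      (fun x => (Real.sqrt x)⁻¹) (Function.injective_id.injOn)
      (by rw [hs]; exact Finset.mem_image_of_mem _ (Finset.mem_univ i))
    exact this
  set U : Matrix I I ℂ := (hH.isHermitian.eigenvectorUnitary : Matrix I I ℂ) with hU
  have hUU : star U * U = 1 := Unitary.coe_star_mul_self _
  have hUU' : U * star U = 1 := Unitary.coe_mul_star_self _
  have hspec : H = U * diagonal (fun i => ((lam i : ℝ) : ℂ)) * star U := by
    have h1 := hH.isHermitian.spectral_theorem
    rw [Unitary.conjStarAlgAut_apply] at h1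
    exact h1
  have hHU : H * U = U * diagonal (fun i => ((lam i : ℝ) : ℂ)) := by
    conv_lhs => rw [hspec]
    rw [mul_assoc, hUU, mul_one]
  have hdiag : ∀ q : ℝ[X], aeval (diagonal (fun i => ((lam i : ℝ) : ℂ))) q =
      diagonal (fun i => ((q.eval (lam i) : ℝ) : ℂ)) := by
    intro q
    induction q using Polynomial.induction_on' with
    | add q r hq hr =>
      rw [map_add, hq, hr, diagonal_add]
      congr 1
      ext i
      simp
    | monomial n a =>
      rw [aeval_monomial, ← Algebra.smul_def, diagonal_pow]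
      ext i j
      by_cases hij : i = j
      · subst hij
        simp
      · simp [diagonal_apply_ne _ hij]
  have hval : aeval H p = U * diagonal (fun i => ((p.eval (lam i) : ℝ) : ℂ)) * star U := by
    have h1 := aeval_conj hHU p
    rw [hdiag] at h1
    calc aeval H p = aeval H p * (U * star U) := by rw [hUU', mul_one]
      _ = _ := by rw [← mul_assoc, h1]
  refine ⟨p, ?_, ?_⟩
  · rw [hval]
    have h1 : (diagonal (fun i => ((p.eval (lam i) : ℝ) : ℂ))).PosDef := by
      rw [posDef_diagonal_iff]
      intro i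
      rw [hpv]
      have : (0 : ℝ) < (Real.sqrt (lam i))⁻¹ := inv_pos.2 (Real.sqrt_pos.2 (hpos i))
      exact_mod_cast this
    have hinj : Function.Injective (star U).mulVec := by
      intro x y hxy
      have := congrArg (U.mulVec) hxy
      simpa [mulVec_mulVec, hUU'] using this
    have h2 := PosDef.conjTranspose_mul_mul_same h1 hinj
    rw [star_eq_conjTranspose, conjTranspose_conjTranspose] at h2
    exact h2
  · conv_lhs => rw [hval, hspec]
    have e1 : ∀ d1 d2 d3 : Matrix I I ℂ, U * d1 * star U * (U * d2 * star U) * (U * d3 * star U) =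
        U * (d1 * d2 * d3) * star U := by
      intro d1 d2 d3
      have : U * d1 * star U * (U * d2 * star U) * (U * d3 * star U) =
          U * d1 * (star U * U) * d2 * (star U * U) * d3 * star U := by
        simp only [mul_assoc]
      rw [this, hUU, mul_one, mul_one]
      simp only [mul_assoc]
    rw [e1, diagonal_mul_diagonal, diagonal_mul_diagonal]
    have h3 : (fun i => ((p.eval (lam i) : ℝ) : ℂ) * ((p.eval (lam i) : ℝ) : ℂ) *
        ((lam i : ℝ) : ℂ)) = fun _ => 1 := by
      ext i
      rw [hpv]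
      have h4 : (Real.sqrt (lam i))⁻¹ * (Real.sqrt (lam i))⁻¹ * lam i = 1 := by
        have h5 := Real.mul_self_sqrt (hpos i).le
        have h6 : Real.sqrt (lam i) ≠ 0 := (Real.sqrt_pos.2 (hpos i)).ne'
        field_simp
        nlinarith [h5]
      exact_mod_cast h4
    rw [h3, diagonal_one, mul_one, hUU']

/-- The antilinear structure attached to a positive definite matrix. -/
theorem exists_C {G B ε : Matrix I I ℂ} (hG : G.PosDef) (hB : IsUnit B) (hε2 : ε * ε = 1)
    (hεr : cj ε = ε) (hBT : Bᵀ = B * ε) (hεB : ε * B = B * ε) (hεG : ε * G = G * ε) :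
    ∃ C : Matrix I I ℂ, C * cj C = ε ∧ (B * C).PosDef ∧
      ∀ A A' : Matrix I I ℂ, A * G = G * A'ᴴ → B * A' = Aᵀ * B → A * ε = ε * A →
        A * C = C * cj A := by
  classical
  -- factorization of `G`
  obtain ⟨Q, hQu, hQ⟩ : ∃ Q : Matrix I I ℂ, IsUnit Q ∧ G = Q * Qᴴ := by
    obtain ⟨p, hp, hpp⟩ := exists_invSqrt hG
    set P := aeval G p with hP
    have hPu : IsUnit P := hp.isUnit
    have hPG : G * P = P * G := aeval_comm (A := G) (S := G) rfl p
    refine ⟨G * P, hG.isUnit.mul hPu, ?_⟩
    rw [conjTranspose_mul, hp.isHermitian.eq, hG.isHermitian.eq]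
    have : G * P * (P * G) = G * (P * P * G) := by simp only [mul_assoc]
    rw [this, hpp, mul_one]
  set C0 := G * Bᴴ with hC0
  set S := ε * C0 * cj C0 with hS
  -- conjugates of the relations
  have hεt : εᵀ = ε := by
    have h1 : B = (B * ε)ᵀ := by rw [← hBT, transpose_transpose]
    rw [transpose_mul, hBT, ← mul_assoc] at h1
    -- `B = εᵀ B ε`
    have h2 : B * ε = εᵀ * B := by
      calc B * ε = εᵀ * B * ε * ε := by rw [← h1]
        _ = _ := by rw [mul_assoc (εᵀ * B), hε2, mul_one]
    rw [← hεB] at h2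
    exact (hB.mul_right_cancel h2).symm
  have hεh : εᴴ = ε := by
    have : εᴴ = cj (εᵀ) := by
      ext i j
      simp [cj, conjTranspose_apply]
    rw [this, hεt, hεr]
  have hεBh : ε * Bᴴ = Bᴴ * ε := by
    have := congrArg conjTranspose hεB
    rw [conjTranspose_mul, conjTranspose_mul, hεh] at this
    exact this.symm
  have hεC0 : ε * C0 = C0 * ε := by
    rw [hC0, ← mul_assoc, hεG, mul_assoc, hεBh, mul_assoc]
  have hεC0' : ε * cj C0 = cj C0 * ε := by
    calc ε * cj C0 = cj ε * cj C0 := by rw [hεr]
      _ = cj (ε * C0) := (cj_mul _ _).symm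
      _ = cj (C0 * ε) := by rw [hεC0]
      _ = cj C0 * cj ε := cj_mul _ _
      _ = _ := by rw [hεr]
  have hεS : ε * S = S * ε := by
    rw [hS]
    calc ε * (ε * C0 * cj C0) = ε * (ε * C0) * cj C0 := by simp only [mul_assoc]
      _ = ε * (C0 * ε) * cj C0 := by rw [hεC0]
      _ = ε * C0 * (ε * cj C0) := by simp only [mul_assoc]
      _ = ε * C0 * (cj C0 * ε) := by rw [hεC0']
      _ = _ := by simp only [mul_assoc]
  have hSC : C0 * cj S = S * C0 := by
    rw [hS, cj_mul, cj_mul, cj_cj, hεr]
    calc C0 * (ε * cj C0 * C0) = (C0 * ε) * cj C0 * C0 := by simp only [mul_assoc]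
      _ = _ := by rw [← hεC0]
  have hCC : C0 * cj C0 = ε * S := by
    rw [hS]
    calc C0 * cj C0 = (ε * ε) * C0 * cj C0 := by rw [hε2, one_mul]
      _ = _ := by simp only [mul_assoc]
  -- `S` is the product of two positive definite matrices
  have hcjG : (cj G).PosDef := by
    have h1 : cj G = Gᵀ := by
      have := cj_conjTranspose G
      rwa [hG.isHermitian.eq] at this
    rw [h1]
    exact hG.transpose
  set N := Bᴴ * cj G * B with hN
  have hNp : N.PosDef := by
    apply hcjG.conjTranspose_mul_mul_same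
    intro x y hxy
    obtain ⟨Bi, hBi⟩ := hB.exists_left_inv
    have := congrArg (Bi.mulVec) hxy
    simpa [mulVec_mulVec, hBi] using this
  have hεGb : ε * cj G = cj G * ε := by
    have := congrArg cj hεG
    rwa [cj_mul, cj_mul, hεr] at this
  have hSN : S = G * N := by
    have h1 : cj C0 = cj G * Bᵀ := by rw [hC0, cj_mul, cj_conjTranspose]
    rw [hS, h1, hC0, hBT, hN]
    calc ε * (G * Bᴴ) * (cj G * (B * ε)) = (ε * G) * Bᴴ * cj G * B * ε := by
          simp only [mul_assoc]
      _ = G * (ε * Bᴴ) * cj G * B * ε := by rw [hεG]; simp only [mul_assoc]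
      _ = G * Bᴴ * (ε * cj G) * B * ε := by rw [hεBh]; simp only [mul_assoc]
      _ = G * Bᴴ * cj G * (ε * B) * ε := by rw [hεGb]; simp only [mul_assoc]
      _ = G * Bᴴ * cj G * B * (ε * ε) := by rw [hεB]; simp only [mul_assoc]
      _ = _ := by rw [hε2, mul_one]; simp only [mul_assoc]
  set H := Qᴴ * N * Q with hH
  have hHp : H.PosDef := by
    apply hNp.conjTranspose_mul_mul_same
    intro x y hxy
    obtain ⟨Bi, hBi⟩ := hQu.exists_left_inv
    have := congrArg (Bi.mulVec) hxy
    simpa [mulVec_mulVec, hBi] using this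
  have hSQ : S * Q = Q * H := by
    rw [hSN, hH, hQ]
    simp only [mul_assoc]
  obtain ⟨p, hp, hpp⟩ := exists_invSqrt hHp
  set P := aeval H p with hP
  set R := aeval S p with hR
  have hRQ : R * Q = Q * P := aeval_conj hSQ p
  have hRRS : R * R * S = 1 := by
    apply hQu.mul_right_cancel
    calc R * R * S * Q = R * R * (S * Q) := by simp only [mul_assoc]
      _ = R * (R * Q) * H := by rw [hSQ]; simp only [mul_assoc]
      _ = R * (Q * P) * H := by rw [hRQ]
      _ = (R * Q) * P * H := by simp only [mul_assoc]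
      _ = (Q * P) * P * H := by rw [hRQ]
      _ = Q * (P * P * H) := by simp only [mul_assoc]
      _ = 1 * Q := by rw [hpp, mul_one, one_mul]
  have hCR : C0 * cj R = R * C0 := aeval_semiconj hSC p
  refine ⟨R * C0, ?_, ?_, ?_⟩
  · calc R * C0 * cj (R * C0) = R * (C0 * cj R) * cj C0 := by
          rw [cj_mul]; simp only [mul_assoc]
      _ = R * R * (C0 * cj C0) := by rw [hCR]; simp only [mul_assoc]
      _ = R * R * S * ε := by rw [hCC, hεS]; simp only [mul_assoc]
      _ = ε := by rw [hRRS, one_mul]
  · have h1 : B * (R * C0) = (B * Q) * P * (B * Q)ᴴ := by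
      rw [hC0, hQ, conjTranspose_mul]
      calc B * (R * (Q * Qᴴ * Bᴴ)) = B * (R * Q) * Qᴴ * Bᴴ := by simp only [mul_assoc]
        _ = _ := by rw [hRQ]; simp only [mul_assoc]
    rw [h1]
    apply hp.mul_mul_conjTranspose_same
    intro x y hxy
    obtain ⟨Bi, hBi⟩ := (hB.mul hQu).exists_right_inv
    have := congrArg (Matrix.vecMul · Bi) hxy
    simpa [vecMul_vecMul, hBi] using this
  · intro A A' hA hA' hAε
    have h1 : A * C0 = C0 * cj A := by
      rw [hC0]
      calc A * (G * Bᴴ) = (A * G) * Bᴴ := by simp only [mul_assoc]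
        _ = G * (B * A')ᴴ := by rw [hA, conjTranspose_mul]; simp only [mul_assoc]
        _ = _ := by rw [hA', conjTranspose_mul, transpose_conjTranspose]; simp only [mul_assoc]
    have h2 : A * S = S * A := by
      have h3 : cj A * cj C0 = cj C0 * A := by
        rw [← cj_mul, h1, cj_mul, cj_cj]
      rw [hS]
      calc A * (ε * C0 * cj C0) = (A * ε) * C0 * cj C0 := by simp only [mul_assoc]
        _ = ε * (A * C0) * cj C0 := by rw [hAε]; simp only [mul_assoc]
        _ = ε * C0 * (cj A * cj C0) := by rw [h1]; simp only [mul_assoc]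
        _ = _ := by rw [h3]; simp only [mul_assoc]
    calc A * (R * C0) = (A * R) * C0 := by simp only [mul_assoc]
      _ = (R * A) * C0 := by rw [hR, aeval_comm h2 p]
      _ = R * (A * C0) := by simp only [mul_assoc]
      _ = _ := by rw [h1]; simp only [mul_assoc]

/-- Positivity and equivariance of the matrix attached to an orthogonal basis. -/
theorem exists_G {N : ℕ} (e : Fin N → Matrix I I ℂ) (w : Fin N → ℝ) (hw : ∀ k, 0 < w k)
    (h1 : ∃ c : Fin N → ℂ, (1 : Matrix I I ℂ) = ∑ k, c k • e k) :
    ∃ G : Matrix I I ℂ, G.PosDef ∧ ∀ (A A' : Matrix I I ℂ) (a a' : Fin N → Fin N → ℝ),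
      (∀ k, A * e k = ∑ l, (a l k : ℂ) • e l) → (∀ l, A' * e l = ∑ k, (a' k l : ℂ) • e k) →
      (∀ k l, w k * a l k = w l * a' k l) → A * G = G * A'ᴴ := by
  classical
  refine ⟨∑ k, (w k : ℂ) • (e k * (e k)ᴴ), ?_, ?_⟩
  · have hps : (∑ k, (w k : ℂ) • (e k * (e k)ᴴ)).PosSemidef := by
      apply posSemidef_sum
      intro k _
      apply PosSemidef.smul (posSemidef_self_mul_conjTranspose (e k))
      exact_mod_cast (hw k).le
    apply PosDef.of_dotProduct_mulVec_pos hps.isHermitian
    intro x hx
    have hval : star x ⬝ᵥ (∑ k, (w k : ℂ) • (e k * (e k)ᴴ)) *ᵥ x =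
        ∑ k, (w k : ℂ) * (star ((e k)ᴴ *ᵥ x) ⬝ᵥ ((e k)ᴴ *ᵥ x)) := by
      rw [sum_mulVec, dotProduct_sum]
      apply Finset.sum_congr rfl
      intro k _
      rw [smul_mulVec, dotProduct_smul, smul_eq_mul, ← mulVec_mulVec, star_mulVec,
        conjTranspose_conjTranspose, dotProduct_mulVec]
    rw [hval]
    have hne : ∃ k, (e k)ᴴ *ᵥ x ≠ 0 := by
      by_contra hcon
      push Not at hcon
      apply hx
      obtain ⟨c, hc⟩ := h1
      have h2 : (1 : Matrix I I ℂ)ᴴ *ᵥ x = 0 := by
        rw [hc, conjTranspose_sum, sum_mulVec]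
        apply Finset.sum_eq_zero
        intro k _
        rw [conjTranspose_smul, smul_mulVec, hcon, smul_zero]
      rwa [conjTranspose_one, one_mulVec] at h2
    obtain ⟨k0, hk0⟩ := hne
    apply Finset.sum_pos'
    · intro k _
      apply mul_nonneg
      · exact_mod_cast (hw k).le
      · exact dotProduct_star_self_nonneg _
    · refine ⟨k0, Finset.mem_univ _, ?_⟩
      apply mul_pos
      · exact_mod_cast hw k0
      · exact dotProduct_star_self_pos_iff.2 hk0
  · intro A A' a a' hA hA' haa
    rw [Finset.mul_sum, Finset.sum_mul]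
    have e1 : ∀ k, A * ((w k : ℂ) • (e k * (e k)ᴴ)) =
        ∑ l, ((w k * a l k : ℝ) : ℂ) • (e l * (e k)ᴴ) := by
      intro k
      rw [mul_smul_comm, ← mul_assoc, hA, Finset.sum_mul, Finset.smul_sum]
      apply Finset.sum_congr rfl
      intro l _
      rw [smul_mul_assoc, smul_smul]
      push_cast
      rfl
    have e2 : ∀ l, (w l : ℂ) • (e l * (e l)ᴴ) * A'ᴴ =
        ∑ k, ((w l * a' k l : ℝ) : ℂ) • (e l * (e k)ᴴ) := by
      intro l
      rw [smul_mul_assoc, mul_assoc, ← conjTranspose_mul, hA', conjTranspose_sum,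
        Finset.mul_sum, Finset.smul_sum]
      apply Finset.sum_congr rfl
      intro k _
      rw [conjTranspose_smul, mul_smul_comm, smul_smul]
      simp
    simp only [e1, e2]
    rw [Finset.sum_comm]
    apply Finset.sum_congr rfl
    intro l _
    apply Finset.sum_congr rfl
    intro k _
    rw [haa]

end Pool.Agent.W552
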