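import Pool.Agent.W552.Real
import Pool.Agent.W552.Defs

/-!
# The form on a product of several varieties in coordinates
-/

open CategoryTheory AlgebraicGeometry
open scoped ComplexOrder

universe u v w

namespace Pool.Agent.W552

section Pull

variable {Λ Λ' : Type} {N : Λ → ℕ}

/-- Multi-indices for the image of a list. -/
def Idx.pull (g : Λ' → Λ) : ∀ l : List Λ', Idx N (l.map g) → Idx (fun a => N (g a)) l
  | [], x => x
  | _ :: l, x => (x.1, Idx.pull g l x.2)

lemma Kron_listMap {R : Type*} [Mul R] [Zero R] [One R]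
    (C : ∀ a, Matrix (Fin (N a)) (Fin (N a)) R) (g : Λ' → Λ) (l : List Λ')
    (r u : Idx N (l.map g)) : Kron C (l.map g) r u =
      Kron (fun a => C (g a)) l (Idx.pull g l r) (Idx.pull g l u) := by
  induction l with
  | nil => rfl
  | cons a l ih =>
    obtain ⟨p, r⟩ := r
    obtain ⟨q, u⟩ := u
    change C (g a) p q * Kron C (l.map g) r u = C (g a) p q * _
    rw [ih]
    rfl

variable {H : Type v} {H' : Type w} [Ring H] [Ring H']

lemma mon_listMap (e : ∀ a, Fin (N a) → H) (g : Λ' → Λ) (l : List Λ')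
    (r : Idx N (l.map g)) : mon e (l.map g) r = mon (fun a => e (g a)) l (Idx.pull g l r) := by
  induction l with
  | nil => rfl
  | cons a l ih =>
    obtain ⟨p, r⟩ := r
    change e (g a) p * mon e (l.map g) r = e (g a) p * _
    rw [ih]
    rfl

lemma mon_hom (e : ∀ a, Fin (N a) → H) (φ : H →+* H') (l : List Λ) (r : Idx N l) :
    mon (fun a p => φ (e a p)) l r = φ (mon e l r) := by
  induction l with
  | nil => exact (map_one φ).symm
  | cons a l ih =>
    obtain ⟨p, r⟩ := r
    change φ (e a p) * mon (fun a p => φ (e a p)) l r = φ (e a p * mon e l r)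
    rw [ih, map_mul]

end Pull

open Pool.Agent.H914 Pool.Agent.H914.VarClass Pool.Agent.H914.VarClass.Obj
  Pool.Agent.H914.WeilCohomology Pool.Agent.H281R3.HT Pool.Agent.H447

variable {k : Type u} [Field k] {𝒱 : VarClass k} {ops : CycleOps 𝒱}
  {W : WeilCohomology.{u, v} ops}

/-- The symmetry of the form, up to the parity. -/
def Sy (W : WeilCohomology.{u, v} ops) (X : 𝒱.Obj) (D : X.Cycles)
    (f : Module.End W.K (W.H X)) : Prop :=
  ∀ a b, bf W X D f a b = bf W X D f (par (W.isInternal X) b) a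

lemma Sy.prod {X Y : 𝒱.Obj} {D : X.Cycles} {f : Module.End W.K (W.H X)} {E : Y.Cycles}
    {g : Module.End W.K (W.H Y)} (F : Fr W X D f) (G : Fr W Y E g) (h : Sy W X D f)
    (h' : Sy W Y E g) :
    Sy W (X.prod Y) (ops.pull (fst X Y) D + ops.pull (snd X Y) E) (extSum W f g) := by
  intro a b
  refine W.kunneth_induction (p := fun b => bf W (X.prod Y)
    (ops.pull (fst X Y) D + ops.pull (snd X Y) E) (extSum W f g) a b = bf W (X.prod Y)
    (ops.pull (fst X Y) D + ops.pull (snd X Y) E) (extSum W f g)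
      (par (W.isInternal (X.prod Y)) b) a) ?_ ?_ b
  · intro b b' hb hb'
    rw [map_add, hb, hb', map_add, map_add, LinearMap.add_apply]
  intro i j b₁ hb₁ b₂ hb₂
  refine W.kunneth_induction (p := fun a => bf W (X.prod Y)
    (ops.pull (fst X Y) D + ops.pull (snd X Y) E) (extSum W f g) a _ = bf W (X.prod Y)
    (ops.pull (fst X Y) D + ops.pull (snd X Y) E) (extSum W f g)
      (par (W.isInternal (X.prod Y)) _) a) ?_ ?_ a
  · intro a a' ha ha'
    rw [map_add, LinearMap.add_apply, ha, ha', map_add]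
  intro i' j' a₁ ha₁ a₂ ha₂
  have hm : W.map (fst X Y) b₁ * W.map (snd X Y) b₂ ∈ W.gr (X.prod Y) (i + j) :=
    W.mul_mem (W.map_mem _ hb₁) (W.map_mem _ hb₂)
  have e1 := F.bf_ext G a₁ b₁ a₂ b₂
  have e2 := F.bf_ext G b₁ a₁ b₂ a₂
  rw [H281R3.HT.ext, H281R3.HT.ext] at e1 e2
  rw [par, scal_apply _ _ hm, map_smul, LinearMap.smul_apply, e1, e2, h a₁ b₁, h' a₂ b₂, par,
    scal_apply _ _ hb₁, par, scal_apply _ _ hb₂, map_smul, map_smul, LinearMap.smul_apply,
    LinearMap.smul_apply]
  simp only [smul_eq_mul]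
  ring

/-- The induction step for the form on a product in coordinates. -/
lemma nest_step {n : ℕ} {X Y : 𝒱.Obj} {N : Fin (n + 2) → ℕ} {D : X.Cycles}
    {f : Module.End W.K (W.H X)} {E : Y.Cycles} {g : Module.End W.K (W.H Y)} (F : Fr W X D f)
    (G : Fr W Y E g) (e : ∀ a : Fin (n + 2), Fin (N a) → W.H (X.prod Y))
    (e₀ : Fin (N 0) → W.H X) (e' : ∀ a : Fin (n + 1), Fin (N a.succ) → W.H Y)
    (h0 : ∀ p, e 0 p = W.map (fst X Y) (e₀ p))
    (h1 : ∀ a p, e a.succ p = W.map (snd X Y) (e' a p)) {l : List (Fin (n + 1))}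
    {C : ∀ a, Matrix (Fin (N a)) (Fin (N a)) W.K}
    (hC : ∀ p q, bf W X D f (e₀ p) (e₀ q) = C 0 p q)
    (hB : ∀ (r u : Idx (fun a => N a.succ) l), bf W Y E g (mon e' l r) (mon e' l u) =
      Kron (fun a => C a.succ) l r u) (r u : Idx N (0 :: l.map Fin.succ)) :
    bf W (X.prod Y) (ops.pull (fst X Y) D + ops.pull (snd X Y) E) (extSum W f g)
      (mon e (0 :: l.map Fin.succ) r) (mon e (0 :: l.map Fin.succ) u) =
      Kron C (0 :: l.map Fin.succ) r u := by
  obtain ⟨p, r⟩ := r
  obtain ⟨q, u⟩ := u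
  have key : ∀ r : Idx N (l.map Fin.succ), mon e (l.map Fin.succ) r = W.map (snd X Y)
      (mon e' l (Idx.pull Fin.succ l r)) := by
    intro r
    rw [mon_listMap]
    have h2 : (fun (a : Fin (n + 1)) (p : Fin (N a.succ)) => e a.succ p) =
        fun a p => (W.map (snd X Y)).toRingHom (e' a p) := by
      funext a p
      exact h1 a p
    exact (congrArg (fun e' => mon e' l (Idx.pull Fin.succ l r)) h2).trans (mon_hom _ _ l _)
  rw [mon_cons, mon_cons, Kron_apply, h0, h0, key, key, Kron_listMap, ← hB, ← hC]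
  exact F.bf_ext G (e₀ p) (e₀ q) (mon e' l (Idx.pull Fin.succ l r))
    (mon e' l (Idx.pull Fin.succ l u))

/-- **The form on a product in coordinates.** -/
theorem exists_nest (n : ℕ) (P : Fin (n + 1) → Polarized 𝒱)
    (f : ∀ a, Module.End W.K (W.H (P a).X)) (hF : ∀ a, Fr W (P a).X (P a).D (f a))
    (hS : ∀ a, Sy W (P a).X (P a).D (f a)) (b : ∀ a, HB W (P a).X) :
    ∃ (g : Module.End W.K (W.H (nest ops n P).X)) (l : List (Fin (n + 1))),
      Fr W (nest ops n P).X (nest ops n P).D g ∧ Sy W (nest ops n P).X (nest ops n P).D g ∧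
      l.Nodup ∧ (∀ a, a ∈ l) ∧ ∀ (r u : Idx (fun a => (b a).N) l),
        bf W (nest ops n P).X (nest ops n P).D g
          (mon (fun a p => W.map (prj ops n P a) ((b a).e p)) l r)
          (mon (fun a p => W.map (prj ops n P a) ((b a).e p)) l u) =
        Kron (fun a => (Matrix.of fun p q => bf W (P a).X (P a).D (f a)
          ((b a).e p) ((b a).e q) : Matrix (Fin (b a).N) (Fin (b a).N) W.K)) l r u := by
  induction n with
  | zero =>
    refine ⟨f 0, [0], hF 0, hS 0, List.nodup_singleton 0, fun a => ?_, ?_⟩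
    · obtain rfl : a = 0 := Fin.eq_zero a
      exact List.mem_singleton_self 0
    · rintro ⟨p, r⟩ ⟨q, u⟩
      change bf W (P 0).X (P 0).D (f 0) (W.map (𝟙 (P 0).X) ((b 0).e p) * 1)
        (W.map (𝟙 (P 0).X) ((b 0).e q) * 1) = bf W (P 0).X (P 0).D (f 0) ((b 0).e p)
          ((b 0).e q) * 1
      rw [W.map_id, W.map_id, mul_one, mul_one, mul_one]
  | succ n ih =>
    obtain ⟨g, l, hG, hGS, hl, hla, hB⟩ := ih (fun i => P i.succ) (fun i => f i.succ)
      (fun i => hF i.succ) (fun i => hS i.succ) (fun i => b i.succ)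
    refine ⟨extSum W (f 0) g, 0 :: l.map Fin.succ, (hF 0).prod hG, (hS 0).prod (hF 0) hG hGS,
      ?_, ?_, ?_⟩
    · rw [List.nodup_cons]
      refine ⟨?_, hl.map (Fin.succ_injective _)⟩
      intro h0
      obtain ⟨i, _, hi⟩ := List.mem_map.1 h0
      exact Fin.succ_ne_zero i hi
    · intro a
      refine Fin.cases ?_ (fun i => ?_) a
      · exact List.mem_cons_self
      · exact List.mem_cons_of_mem _ (List.mem_map_of_mem (hla i))
    · exact nest_step (hF 0) hG
        (fun a p => W.map (prj ops (n + 1) P a) ((b a).e p)) (fun p => (b 0).e p)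
        (fun a p => W.map (prj ops n (fun i => P i.succ) a) ((b a.succ).e p))
        (fun p => rfl) (fun a p => W.map_comp _ _ _) (fun p q => rfl) hB

end Pool.Agent.W552
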