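import Pool.Agent.W552.Emb
import Pool.Agent.W552.MatA

/-!
# Adjoint pairs of operators with respect to a positive definite hermitian form
-/

open Matrix
open scoped ComplexOrder

universe v

set_option linter.unusedSectionVars false

namespace Pool.Agent.W552

variable {K : Type v} [Field K] [CharZero K] {V : Type v} [AddCommGroup V] [Module K V]
  {N : ℕ}

/-- The matrix of the operator `u` has entries in the subfield `F`, and `U` is its image under the
embedding `σ`. -/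
def Lft (F : Subfield K) (σ : F →+* ℂ) (e : Module.Basis (Fin N) K V) (u : Module.End K V)
    (U : Matrix (Fin N) (Fin N) ℂ) : Prop :=
  ∃ A : Matrix (Fin N) (Fin N) F, F.subtype.mapMatrix A = LinearMap.toMatrix e e u ∧
    σ.mapMatrix A = U

namespace Lft

variable {F : Subfield K} {σ : F →+* ℂ} {e : Module.Basis (Fin N) K V} {u u' : Module.End K V}
  {U U' : Matrix (Fin N) (Fin N) ℂ}

lemma sub_inj : Function.Injective (F.subtype.mapMatrix : Matrix (Fin N) (Fin N) F →+* _) := by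
  intro A B h
  ext i j
  exact congrFun (congrFun h i) j

lemma unique (h : Lft F σ e u U) (h' : Lft F σ e u U') : U = U' := by
  obtain ⟨A, hA, rfl⟩ := h
  obtain ⟨A', hA', rfl⟩ := h'
  rw [sub_inj (hA.trans hA'.symm)]

lemma add (h : Lft F σ e u U) (h' : Lft F σ e u' U') : Lft F σ e (u + u') (U + U') := by
  obtain ⟨A, hA, rfl⟩ := h
  obtain ⟨A', hA', rfl⟩ := h'
  exact ⟨A + A', by rw [map_add, hA, hA', map_add], map_add _ _ _⟩

lemma mul (h : Lft F σ e u U) (h' : Lft F σ e u' U') : Lft F σ e (u * u') (U * U') := by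
  obtain ⟨A, hA, rfl⟩ := h
  obtain ⟨A', hA', rfl⟩ := h'
  exact ⟨A * A', by rw [map_mul, hA, hA', LinearMap.toMatrix_mul], map_mul _ _ _⟩

lemma zero : Lft F σ e 0 0 := ⟨0, by rw [map_zero, map_zero], map_zero _⟩

lemma one : Lft F σ e 1 1 := ⟨1, by rw [map_one, LinearMap.toMatrix_one], map_one _⟩

lemma smul (q : ℚ) (h : Lft F σ e u U) : Lft F σ e ((q : K) • u) ((q : ℂ) • U) := by
  obtain ⟨A, hA, rfl⟩ := h
  refine ⟨(q : F) • A, ?_, ?_⟩
  · rw [map_smul (LinearMap.toMatrix e e), ← hA]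
    ext i j
    change (((q : F) * A i j : F) : K) = (q : K) * (A i j : K)
    push_cast
    rfl
  · ext i j
    change σ ((q : F) * A i j) = (q : ℂ) * σ (A i j)
    rw [map_mul, map_ratCast]

lemma sum {ι : Type*} (s : Finset ι) {u : ι → Module.End K V}
    {U : ι → Matrix (Fin N) (Fin N) ℂ} (h : ∀ i ∈ s, Lft F σ e (u i) (U i)) :
    Lft F σ e (∑ i ∈ s, u i) (∑ i ∈ s, U i) := by
  classical
  induction s using Finset.induction_on with
  | empty => rw [Finset.sum_empty, Finset.sum_empty]; exact zero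
  | insert a s ha ih =>
    rw [Finset.sum_insert ha, Finset.sum_insert ha]
    exact (h a (Finset.mem_insert_self a s)).add
      (ih fun i hi => h i (Finset.mem_insert_of_mem hi))

lemma pow (h : Lft F σ e u U) (n : ℕ) : Lft F σ e (u ^ n) (U ^ n) := by
  induction n with
  | zero => rw [pow_zero, pow_zero]; exact one
  | succ n ih => rw [pow_succ, pow_succ]; exact ih.mul h

lemma eq_zero (h : Lft F σ e u U) (h0 : U = 0) : u = 0 := by
  obtain ⟨A, hA, rfl⟩ := h
  have hA0 : A = 0 := by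
    ext i j
    have h1 := congrFun (congrFun h0 i) j
    change σ (A i j) = 0 at h1
    rw [map_eq_zero] at h1
    rw [h1]
    rfl
  rw [hA0, map_zero] at hA
  exact (LinearMap.toMatrix e e).injective (hA.symm.trans (map_zero _).symm)

lemma trace (h : Lft F σ e u U) {q : ℚ} (hq : LinearMap.trace K V u = q) :
    Matrix.trace U = q := by
  obtain ⟨A, hA, rfl⟩ := h
  have h1 : ((Matrix.trace A : F) : K) = ((q : F) : K) := by
    rw [LinearMap.trace_eq_matrix_trace K e, ← hA] at hq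
    rw [show (((q : ℚ) : F) : K) = (q : K) by push_cast; rfl, ← hq, Matrix.trace, Matrix.trace]
    push_cast
    rfl
  have h2 : Matrix.trace A = (q : F) := Subtype.ext h1
  have h3 : Matrix.trace (σ.mapMatrix A) = σ (Matrix.trace A) := by
    rw [Matrix.trace, Matrix.trace, map_sum]
    rfl
  rw [h3, h2, map_ratCast]

lemma exists_of_entries (h : ∀ i j, LinearMap.toMatrix e e u i j ∈ F) :
    ∃ U, Lft F σ e u U :=
  ⟨_, Matrix.of fun i j => ⟨_, h i j⟩, by ext i j; rfl, rfl⟩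

end Lft

/-- The operators `u` and `v` are adjoint with respect to the hermitian form `S`. -/
def AdjS (F : Subfield K) (σ : F →+* ℂ) (e : Module.Basis (Fin N) K V)
    (S : Matrix (Fin N) (Fin N) ℂ) (u v : Module.End K V) : Prop :=
  ∃ U V, Lft F σ e u U ∧ Lft F σ e v V ∧ Uᴴ * S = S * V

namespace AdjS

variable {F : Subfield K} {σ : F →+* ℂ} {e : Module.Basis (Fin N) K V}
  {S : Matrix (Fin N) (Fin N) ℂ} {u u' v v' : Module.End K V}

lemma add (h : AdjS F σ e S u v) (h' : AdjS F σ e S u' v') : AdjS F σ e S (u + u') (v + v') := by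
  obtain ⟨U, V, h1, h2, h3⟩ := h
  obtain ⟨U', V', h1', h2', h3'⟩ := h'
  exact ⟨U + U', V + V', h1.add h1', h2.add h2', by
    rw [conjTranspose_add, add_mul, mul_add, h3, h3']⟩

lemma mul (h : AdjS F σ e S u v) (h' : AdjS F σ e S u' v') : AdjS F σ e S (u * u') (v' * v) := by
  obtain ⟨U, V, h1, h2, h3⟩ := h
  obtain ⟨U', V', h1', h2', h3'⟩ := h'
  exact ⟨U * U', V' * V, h1.mul h1', h2'.mul h2, by
    rw [conjTranspose_mul, Matrix.mul_assoc, h3, ← Matrix.mul_assoc, h3', Matrix.mul_assoc]⟩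

lemma zero : AdjS F σ e S 0 0 :=
  ⟨0, 0, Lft.zero, Lft.zero, by rw [conjTranspose_zero, Matrix.zero_mul, Matrix.mul_zero]⟩

lemma one : AdjS F σ e S 1 1 :=
  ⟨1, 1, Lft.one, Lft.one, by rw [conjTranspose_one, Matrix.one_mul, Matrix.mul_one]⟩

lemma smul (q : ℚ) (h : AdjS F σ e S u v) : AdjS F σ e S ((q : K) • u) ((q : K) • v) := by
  obtain ⟨U, V, h1, h2, h3⟩ := h
  refine ⟨_, _, h1.smul q, h2.smul q, ?_⟩
  rw [conjTranspose_smul, Matrix.smul_mul, h3, Matrix.mul_smul]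
  congr 1
  simp

/-- **Positivity of the trace.** -/
theorem pos (h : AdjS F σ e S u v) (hS : S.PosDef) (hu : u ≠ 0) {q : ℚ}
    (hq : LinearMap.trace K V (v * u) = q) : 0 < q := by
  obtain ⟨U, V', h1, h2, h3⟩ := h
  have h4 := (h2.mul h1).trace hq
  have hU : U ≠ 0 := fun h0 => hu (h1.eq_zero h0)
  have hSu : IsUnit S := hS.isUnit
  have h5 : V' = S⁻¹ * Uᴴ * S := by
    rw [Matrix.mul_assoc, h3, ← Matrix.mul_assoc, Matrix.nonsing_inv_mul _
      ((Matrix.isUnit_iff_isUnit_det S).1 hSu), Matrix.one_mul]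
  have h6 : 0 < Matrix.trace (V' * U) := by
    obtain ⟨B, hB, hSB⟩ : ∃ B : Matrix (Fin N) (Fin N) ℂ, IsUnit B ∧ S = Bᴴ * B := by
      obtain ⟨p, hp, hp'⟩ := exists_invSqrt hS
      set P := Polynomial.aeval S p with hP
      have hPu : IsUnit P := hp.isUnit
      have hPH : Pᴴ = P := hp.isHermitian
      refine ⟨P⁻¹, Matrix.isUnit_nonsing_inv_iff.2 hPu, ?_⟩
      rw [conjTranspose_nonsing_inv, hPH, ← Matrix.mul_inv_rev]
      exact (Matrix.inv_eq_right_inv hp').symm
    have hB' : B * B⁻¹ = 1 := Matrix.mul_nonsing_inv _ ((Matrix.isUnit_iff_isUnit_det B).1 hB)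
    have hB'' : B⁻¹ * B = 1 := Matrix.nonsing_inv_mul _ ((Matrix.isUnit_iff_isUnit_det B).1 hB)
    have hBH : (B⁻¹)ᴴ * Bᴴ = 1 := by rw [← conjTranspose_mul, hB', conjTranspose_one]
    have hBH' : Bᴴ * (B⁻¹)ᴴ = 1 := by rw [← conjTranspose_mul, hB'', conjTranspose_one]
    have hSinv : S⁻¹ = B⁻¹ * (B⁻¹)ᴴ := by
      apply Matrix.inv_eq_left_inv
      rw [hSB]
      calc B⁻¹ * (B⁻¹)ᴴ * (Bᴴ * B) = B⁻¹ * ((B⁻¹)ᴴ * Bᴴ) * B := by
            simp only [Matrix.mul_assoc]
        _ = 1 := by rw [hBH, Matrix.mul_one, hB'']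
    set C : Matrix (Fin N) (Fin N) ℂ := B * U * B⁻¹ with hC
    have h7 : Matrix.trace (V' * U) = Matrix.trace (Cᴴ * C) := by
      rw [h5, hSinv, hSB, hC, conjTranspose_mul, conjTranspose_mul]
      calc Matrix.trace (B⁻¹ * (B⁻¹)ᴴ * Uᴴ * (Bᴴ * B) * U)
          = Matrix.trace (B⁻¹ * ((B⁻¹)ᴴ * Uᴴ * Bᴴ * B * U)) := by
            simp only [Matrix.mul_assoc]
        _ = Matrix.trace (((B⁻¹)ᴴ * Uᴴ * Bᴴ * B * U) * B⁻¹) := Matrix.trace_mul_comm _ _
        _ = _ := by simp only [Matrix.mul_assoc]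
    have hC0 : C ≠ 0 := by
      intro h0
      apply hU
      calc U = B⁻¹ * (B * U * B⁻¹) * B := by
            rw [← Matrix.mul_assoc, ← Matrix.mul_assoc, hB'', Matrix.one_mul, Matrix.mul_assoc,
              hB'', Matrix.mul_one]
        _ = 0 := by rw [← hC, h0, Matrix.mul_zero, Matrix.zero_mul]
    rw [h7]
    exact lt_of_le_of_ne (Matrix.posSemidef_conjTranspose_mul_self C).trace_nonneg
      (fun h0 => hC0 (Matrix.trace_conjTranspose_mul_self_eq_zero_iff.1 h0.symm))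
  rw [h4] at h6
  have h8 : (0 : ℝ) < (q : ℝ) := by
    have := (Complex.lt_def.1 h6).1
    simpa using this
  exact_mod_cast h8

end AdjS

theorem posDef_sum {J : Type*} [Fintype J] (w : J → ℝ) (hw : ∀ k, 0 < w k)
    (U B : J → Matrix (Fin N) (Fin N) ℂ) (h1 : ∑ k, B k * U k = 1) :
    (∑ k, (w k : ℂ) • ((U k)ᴴ * U k)).PosDef := by
  have hps : (∑ k, (w k : ℂ) • ((U k)ᴴ * U k)).PosSemidef := by
    apply posSemidef_sum
    intro k _
    apply PosSemidef.smul (posSemidef_conjTranspose_mul_self (U k))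
    exact_mod_cast (hw k).le
  apply PosDef.of_dotProduct_mulVec_pos hps.isHermitian
  intro x hx
  have hval : star x ⬝ᵥ (∑ k, (w k : ℂ) • ((U k)ᴴ * U k)) *ᵥ x =
      ∑ k, (w k : ℂ) * (star (U k *ᵥ x) ⬝ᵥ (U k *ᵥ x)) := by
    rw [sum_mulVec, dotProduct_sum]
    apply Finset.sum_congr rfl
    intro k _
    rw [smul_mulVec, dotProduct_smul, smul_eq_mul, ← mulVec_mulVec, star_mulVec,
      dotProduct_mulVec]
  rw [hval]
  have hne : ∃ k, U k *ᵥ x ≠ 0 := by
    by_contra hcon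
    push Not at hcon
    apply hx
    have h2 : (1 : Matrix (Fin N) (Fin N) ℂ) *ᵥ x = 0 := by
      rw [← h1, sum_mulVec]
      apply Finset.sum_eq_zero
      intro k _
      rw [← mulVec_mulVec, hcon, mulVec_zero]
    rwa [one_mulVec] at h2
  obtain ⟨k0, hk0⟩ := hne
  apply Finset.sum_pos'
  · intro k _
    apply mul_nonneg
    · exact_mod_cast (hw k).le
    · exact dotProduct_star_self_nonneg _
  · refine ⟨k0, Finset.mem_univ _, ?_⟩
    apply mul_pos
    · exact_mod_cast hw k0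
    · exact dotProduct_star_self_pos_iff.2 hk0

/-- Splitting a hermitian form with an idempotent operator. -/
theorem exists_split {F : Subfield K} {σ : F →+* ℂ} {e : Module.Basis (Fin N) K V}
    {S : Matrix (Fin N) (Fin N) ℂ} (hS : S.PosDef) {p : Module.End K V} (hp : p * p = p)
    {P : Matrix (Fin N) (Fin N) ℂ} (hP : Lft F σ e p P) :
    ∃ S' : Matrix (Fin N) (Fin N) ℂ, S'.PosDef ∧ AdjS F σ e S' p p ∧
      ∀ u v, AdjS F σ e S u v → u * p = p * u → v * p = p * v → AdjS F σ e S' u v := by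
  have hPP : P * P = P := by
    have h1 := hP.mul hP
    rw [hp] at h1
    exact h1.unique hP
  have hPP' : Pᴴ * Pᴴ = Pᴴ := by rw [← conjTranspose_mul, hPP]
  refine ⟨Pᴴ * S * P + (1 - P)ᴴ * S * (1 - P), ?_, ⟨P, P, hP, hP, ?_⟩, ?_⟩
  · have h1 : (Pᴴ * S * P).PosSemidef := hS.posSemidef.conjTranspose_mul_mul_same P
    have h2 : ((1 - P)ᴴ * S * (1 - P)).PosSemidef :=
      hS.posSemidef.conjTranspose_mul_mul_same (1 - P)
    apply PosDef.of_dotProduct_mulVec_pos (h1.add h2).isHermitian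
    intro x hx
    have hval : ∀ Q : Matrix (Fin N) (Fin N) ℂ, star x ⬝ᵥ (Qᴴ * S * Q) *ᵥ x =
        star (Q *ᵥ x) ⬝ᵥ (S *ᵥ (Q *ᵥ x)) := by
      intro Q
      rw [← mulVec_mulVec, ← mulVec_mulVec, star_mulVec, dotProduct_mulVec,
        dotProduct_mulVec, dotProduct_mulVec]
    rw [add_mulVec, dotProduct_add, hval, hval]
    by_cases h0 : P *ᵥ x = 0
    · have h3 : (1 - P) *ᵥ x = x := by rw [sub_mulVec, one_mulVec, h0, sub_zero]
      rw [h0, h3, mulVec_zero, dotProduct_zero, zero_add]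
      exact hS.dotProduct_mulVec_pos hx
    · exact add_pos_of_pos_of_nonneg (hS.dotProduct_mulVec_pos h0)
        (hS.posSemidef.dotProduct_mulVec_nonneg _)
  · have e1 : Pᴴ * (1 - P)ᴴ = 0 := by
      rw [conjTranspose_sub, conjTranspose_one, Matrix.mul_sub, Matrix.mul_one, hPP', sub_self]
    have e2 : (1 - P) * P = 0 := by rw [Matrix.sub_mul, Matrix.one_mul, hPP, sub_self]
    rw [Matrix.mul_add, Matrix.add_mul, ← Matrix.mul_assoc, ← Matrix.mul_assoc, hPP',
      ← Matrix.mul_assoc, ← Matrix.mul_assoc, e1, Matrix.zero_mul, Matrix.zero_mul, add_zero,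
      Matrix.mul_assoc _ P P, hPP, Matrix.mul_assoc _ (1 - P) P, e2, Matrix.mul_zero, add_zero]
  · rintro u v ⟨U, V', h1, h2, h3⟩ hu hv
    refine ⟨U, V', h1, h2, ?_⟩
    have hUP : U * P = P * U := by
      have h4 := h1.mul hP
      rw [hu] at h4
      exact h4.unique (hP.mul h1)
    have hVP : V' * P = P * V' := by
      have h4 := h2.mul hP
      rw [hv] at h4
      exact h4.unique (hP.mul h2)
    have key : ∀ Q : Matrix (Fin N) (Fin N) ℂ, U * Q = Q * U → V' * Q = Q * V' →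
        Uᴴ * (Qᴴ * S * Q) = Qᴴ * S * Q * V' := by
      intro Q hUQ hVQ
      calc Uᴴ * (Qᴴ * S * Q) = (Uᴴ * Qᴴ) * S * Q := by simp only [Matrix.mul_assoc]
        _ = (Qᴴ * Uᴴ) * S * Q := by rw [← conjTranspose_mul, ← hUQ, conjTranspose_mul]
        _ = Qᴴ * (Uᴴ * S) * Q := by simp only [Matrix.mul_assoc]
        _ = Qᴴ * S * (V' * Q) := by rw [h3]; simp only [Matrix.mul_assoc]
        _ = _ := by rw [hVQ]; simp only [Matrix.mul_assoc]
    rw [Matrix.mul_add, Matrix.add_mul, key P hUP hVP, key (1 - P)]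
    · rw [Matrix.mul_sub, Matrix.sub_mul, hUP, Matrix.mul_one, Matrix.one_mul]
    · rw [Matrix.mul_sub, Matrix.sub_mul, hVP, Matrix.mul_one, Matrix.one_mul]

end Pool.Agent.W552
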