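import Pool.Agent.W552.IrrStmt

/-!
# Supersingular varieties: definitions
-/

open CategoryTheory AlgebraicGeometry

universe u v w

namespace Pool.Agent.W552

open Pool.Agent.H914 Pool.Agent.H914.VarClass Pool.Agent.H914.VarClass.Obj
  Pool.Agent.H914.WeilCohomology Pool.Agent.H281R3.HT

variable {k : Type u} [Field k] {𝒱 : VarClass k} {ops : CycleOps 𝒱}

/-- The polarized variety `P` satisfies the hard Lefschetz theorem, the Lefschetz standard
conjecture and the standard conjecture of Hodge type. -/
def Std (W : WeilCohomology.{u, v} ops) (P : Polarized 𝒱) : Prop :=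
  P.X.IsCyc 1 P.D ∧ HardLefschetz W P.X P.D ∧ LefschetzB W P.X P.D ∧ HodgeType W P.X P.D

/-- The polarized variety `Z` is supersingular relative to `E`: every exterior product of
transcendental classes (that is, of classes which are orthogonal to all the algebraic classes) on
`E` and on `Z` is a linear combination of algebraic classes, and `Z` and `E × Z` satisfy the
standard conjecture of Hodge type. -/
def SupersingularFor (W : WeilCohomology.{u, v} ops) (E Z : Polarized 𝒱) : Prop :=
  (Std W Z ∧ HodgeType W (E.prod ops Z).X (E.prod ops Z).D) ∧
    ∀ x ∈ transcendental W E.X, ∀ y ∈ transcendental W Z.X,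
      ext W x y ∈ algSpan W (E.X.prod Z.X)

end Pool.Agent.W552
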