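import Pool.Agent.W552.IrrMain
import Pool.Agent.W552.AvOne

/-!
# Polarized varieties with algebraic star operator, and their products
-/

open CategoryTheory AlgebraicGeometry

universe u v w

namespace Pool.Agent.W552

open Pool.Agent.H914 Pool.Agent.H914.VarClass Pool.Agent.H914.VarClass.Obj
  Pool.Agent.H914.WeilCohomology Pool.Agent.H281R3.HT Pool.Agent.H447

variable {k : Type u} [Field k] {𝒱 : VarClass k} {ops : CycleOps 𝒱}
  {W : WeilCohomology.{u, v} ops}

/-- Multiplication by a sum of algebraic classes is an algebraic operator. -/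
lemma mul_aop {X : 𝒱.Obj} {y : W.H X} (hy : AS W X y) :
    AOp W X X (LinearMap.mulLeft W.K y) := by
  refine ⟨W.push (Obj.lift (𝟙 X) (𝟙 X)) y, hy.push _, ?_⟩
  apply LinearMap.ext
  intro a
  have e1 : Obj.lift (𝟙 X) (𝟙 X) ≫ snd X X = 𝟙 X := Obj.lift_snd _ _
  have e2 : Obj.lift (𝟙 X) (𝟙 X) ≫ fst X X = 𝟙 X := Obj.lift_fst _ _
  rw [corr_apply, ← W.push_mul, ← W.push_comp, ← W.map_comp, e1, e2, W.push_id, W.map_id]
  rfl

/-- A polarized variety with algebraic lowering operator and Künneth projectors. -/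
structure Gd (W : WeilCohomology.{u, v} ops) (P : Polarized 𝒱)
    (f : Module.End W.K (W.H P.X)) : Prop where
  F : Fr W P.X P.D f
  ap : ∀ i, AOp W P.X P.X (proj (W.isInternal P.X) i)
  sq : st W P.X P.D f * st W P.X P.D f = 1
  sy : Sy W P.X P.D f

lemma exists_gd {P : Polarized 𝒱} (hD : P.X.IsCyc 1 P.D) (hHL : HardLefschetz W P.X P.D)
    (hB : LefschetzB W P.X P.D) : ∃ f, Gd W P f := by
  obtain ⟨f, F, t⟩ := exists_fr hD hHL hB
  exact ⟨f, F, proj_aop hD hHL hB, t.star_star, fun a b => bf_sy F t a b⟩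

section Ext

variable {X Y : 𝒱.Obj} {D : X.Cycles} {E : Y.Cycles} {f : Module.End W.K (W.H X)}
  {g : Module.End W.K (W.H Y)}

/-- The star operator on an exterior product. -/
lemma st_ext (F : Fr W X D f) (G : Fr W Y E g) {i j : ℕ} {a : W.H X} (ha : a ∈ W.gr X i)
    {b : W.H Y} (hb : b ∈ W.gr Y j) :
    st W (X.prod Y) (ops.pull (fst X Y) D + ops.pull (snd X Y) E) (extSum W f g) (ext W a b) =
      (-1 : W.K) ^ (i * j) • ext W (st W X D f a) (st W Y E g b) := by
  have hm : ext W a b ∈ W.gr (X.prod Y) (i + j) := W.mul_mem (W.map_mem _ ha) (W.map_mem _ hb)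
  rw [st_apply hm, st_apply ha, st_apply hb, H281R3.HT.ext, wop_prod F.sl2 G.sl2 G.hD,
    H281R3.HT.ext, map_smul, map_smul, smul_mul_smul_comm, smul_smul, sg_add]
  congr 1
  push_cast
  ring

lemma st_mem (F : Fr W X D f) {i : ℕ} (hi : i ≤ 2 * X.dim) {a : W.H X} (ha : a ∈ W.gr X i) :
    st W X D f a ∈ W.gr X (2 * X.dim - i) := by
  rw [st_apply ha]
  exact Submodule.smul_mem _ _ (F.w_mem hi ha)

lemma sq_prod (F : Fr W X D f) (G : Fr W Y E g) (h : st W X D f * st W X D f = 1)
    (h' : st W Y E g * st W Y E g = 1) :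
    st W (X.prod Y) (ops.pull (fst X Y) D + ops.pull (snd X Y) E) (extSum W f g) *
      st W (X.prod Y) (ops.pull (fst X Y) D + ops.pull (snd X Y) E) (extSum W f g) = 1 := by
  apply LinearMap.ext
  intro x
  refine W.kunneth_induction (p := fun x => (st W (X.prod Y) (ops.pull (fst X Y) D +
    ops.pull (snd X Y) E) (extSum W f g) * st W (X.prod Y) (ops.pull (fst X Y) D +
    ops.pull (snd X Y) E) (extSum W f g)) x = (1 : Module.End W.K _) x) ?_ ?_ x
  · intro a b ha hb
    rw [map_add, ha, hb, map_add]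
  intro i j a ha b hb
  have e0 : W.map (fst X Y) a * W.map (snd X Y) b = ext W a b := rfl
  rw [Module.End.mul_apply, Module.End.one_apply, e0]
  by_cases hi : i ≤ 2 * X.dim
  swap
  · rw [W.gr_eq_bot X i (by omega)] at ha
    rw [(Submodule.mem_bot _).1 ha, H281R3.HT.ext, map_zero, zero_mul, map_zero, map_zero]
  by_cases hj : j ≤ 2 * Y.dim
  swap
  · rw [W.gr_eq_bot Y j (by omega)] at hb
    rw [(Submodule.mem_bot _).1 hb, H281R3.HT.ext, map_zero, mul_zero, map_zero, map_zero]
  rw [st_ext F G ha hb, map_smul, st_ext F G (st_mem F hi ha) (st_mem G hj hb),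
    ← Module.End.mul_apply (st W X D f), ← Module.End.mul_apply (st W Y E g), h, h',
    Module.End.one_apply, Module.End.one_apply, smul_smul]
  have h3 : (-1 : W.K) ^ (i * j) * (-1) ^ ((2 * X.dim - i) * (2 * Y.dim - j)) = 1 := by
    rw [← pow_add]
    apply Even.neg_one_pow
    rcases Nat.even_or_odd i with hi' | hi'
    · have : Even (2 * X.dim - i) := (Nat.even_sub hi).2 (by simp [hi'])
      exact (hi'.mul_right _).add (this.mul_right _)
    · have h4 : Odd (2 * X.dim - i) := Nat.Even.sub_odd hi (even_two_mul _) hi'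
      rcases Nat.even_or_odd j with hj' | hj'
      · have : Even (2 * Y.dim - j) := (Nat.even_sub hj).2 (by simp [hj'])
        exact (hj'.mul_left _).add (this.mul_left _)
      · have h5 : Odd (2 * Y.dim - j) := Nat.Even.sub_odd hj (even_two_mul _) hj'
        exact (hi'.mul hj').add_odd (h4.mul h5)
  rw [h3, one_smul]

lemma proj_prod (m : ℕ) : proj (W.isInternal (X.prod Y)) m =
    ∑ i ∈ Finset.range (m + 1), extOp W (proj (W.isInternal X) i)
      (proj (W.isInternal Y) (m - i)) := by
  apply LinearMap.ext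
  intro x
  refine W.kunneth_induction (p := fun x => proj (W.isInternal (X.prod Y)) m x =
    (∑ i ∈ Finset.range (m + 1), extOp W (proj (W.isInternal X) i)
      (proj (W.isInternal Y) (m - i))) x) ?_ ?_ x
  · intro a b ha hb
    rw [map_add, ha, hb, map_add]
  intro i j a ha b hb
  have hm : W.map (fst X Y) a * W.map (snd X Y) b ∈ W.gr (X.prod Y) (i + j) :=
    W.mul_mem (W.map_mem _ ha) (W.map_mem _ hb)
  rw [LinearMap.sum_apply]
  by_cases hij : i + j = m
  · rw [Finset.sum_eq_single i]
    · rw [extOp_tmul, proj_same _ ha, show m - i = j by omega, proj_same _ hb]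
      subst hij
      exact proj_same _ hm
    · intro i' _ hi'
      rw [extOp_tmul, proj_ne _ ha (Ne.symm hi'), map_zero, zero_mul]
    · intro h0
      exact absurd (Finset.mem_range.2 (by omega)) h0
  · rw [proj_ne _ hm hij]
    symm
    apply Finset.sum_eq_zero
    intro i' hi'
    rw [extOp_tmul]
    by_cases h1 : i = i'
    · subst h1
      have := Finset.mem_range.1 hi'
      rw [proj_ne _ hb (show j ≠ m - i by omega), map_zero, mul_zero]
    · rw [proj_ne _ ha h1, map_zero, zero_mul]

end Ext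

/-- The product of two polarized varieties. -/
lemma Gd.prod {P Q : Polarized 𝒱} {f : Module.End W.K (W.H P.X)} {g : Module.End W.K (W.H Q.X)}
    (h : Gd W P f) (h' : Gd W Q g) : Gd W (P.prod ops Q) (extSum W f g) where
  F := h.F.prod h'.F
  ap := by
    intro m
    have h1 := proj_prod (W := W) (X := P.X) (Y := Q.X) m
    change AOp W (P.X.prod Q.X) (P.X.prod Q.X) (proj (W.isInternal (P.X.prod Q.X)) m)
    rw [h1]
    apply AOp.ratSub.sum
    intro i _
    exact (h.ap i).ext (h'.ap _)
  sq := sq_prod h.F h'.F h.sq h'.sq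
  sy := Sy.prod h.F h'.F h.sy h'.sy

end Pool.Agent.W552
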