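import Pool.Agent.W552.SsMul
import Pool.Agent.W552.SsDefs

/-!
# The standard conjecture of Hodge type for products with supersingular varieties
-/

open CategoryTheory AlgebraicGeometry

universe u v w

namespace Pool.Agent.W552

open Pool.Agent.H914 Pool.Agent.H914.VarClass Pool.Agent.H914.VarClass.Obj
  Pool.Agent.H914.WeilCohomology Pool.Agent.H281R3.HT Pool.Agent.H447

variable {k : Type u} [Field k] {𝒱 : VarClass k} {ops : CycleOps 𝒱}
  {W : WeilCohomology.{u, v} ops} {P Q : Polarized 𝒱} {f : Module.End W.K (W.H P.X)}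

lemma PA.of_hodge (hP : Gd W P f) (hH : HodgeType W P.X P.D) : PA W P f :=
  fun _ hx hx0 => hP.F.bf_pos hH hx hx0

lemma PA.hodgeAndD (hP : Gd W P f) (hA : PA W P f) : HodgeAndD W P :=
  ⟨fun _ hj _ hz h1 h2 => (hP.F.hodge hz (fun h0 => hA _ (AS.of ⟨_, hz, rfl⟩) h0)).1 hj h1 h2,
    fun _ hj _ hz h => (hP.F.hodge hz (fun h0 => hA _ (AS.of ⟨_, hz, rfl⟩) h0)).2 hj h⟩

lemma t_eq_iff_trans (hP : Gd W P f) (B : RB W P f) {x : W.H P.X} :
    B.t x = x ↔ x ∈ transcendental W P.X := by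
  rw [hP.t_eq_iff B, mem_trans]
  constructor
  · intro h j b hb
    have h1 := h (st W P.X P.D f b) (hP.F.st_AS (AS.of hb))
    rwa [hP.bf_as (hP.F.st_AS (AS.of hb)), bf_apply, ← Module.End.mul_apply (st W P.X P.D f),
      hP.sq, Module.End.one_apply] at h1
  · intro h a ha
    rw [hP.bf_as ha, bf_apply]
    refine AS.ind (p := fun b => W.tr P.X (x * b) = 0) ?_ ?_ (hP.F.st_AS ha)
    · intro j b hb
      exact h j b hb
    · intro b c hb hc
      rw [mul_add, map_add, hb, hc, add_zero]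

/-- **Products with supersingular varieties.** -/
theorem ss_main {E Y : Polarized 𝒱} {ι : Type w} {Z : ι → Polarized 𝒱} (hE : Std W E)
    (hE0 : transcendental W E.X ≠ ⊥) (hY : Std W Y)
    (hEY : HodgeType W (E.prod ops Y).X (E.prod ops Y).D)
    (hZ : ∀ s, SupersingularFor W E (Z s)) {V : Polarized 𝒱} (hV : IsProduct ops Z V) :
    HodgeAndD W V ∧ HodgeAndD W (Y.prod ops V) := by
  obtain ⟨hE1, hE2, hE3, hE4⟩ := hE
  obtain ⟨e, gE⟩ := exists_gd hE1 hE2 hE3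
  have pE := PA.of_hodge gE hE4
  obtain ⟨B⟩ := gE.exists_rb pE
  have hB : B.t ≠ 0 := by
    intro h0
    apply hE0
    rw [eq_bot_iff]
    intro x hx
    rw [← t_eq_iff_trans gE B, h0, LinearMap.zero_apply] at hx
    rw [Submodule.mem_bot]
    exact hx.symm
  obtain ⟨hY1, hY2, hY3, hY4⟩ := hY
  obtain ⟨y, gY⟩ := exists_gd hY1 hY2 hY3
  have pY := PA.of_hodge gY hY4
  have poY : PO W E e Y y := PO.of_pa gE gY (PA.of_hodge (gE.prod gY) hEY)
  have hss : ∀ s, ∃ f, SS B (Z s) f := by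
    intro s
    obtain ⟨⟨⟨h1, h2, h3, h4⟩, h6⟩, h5⟩ := hZ s
    obtain ⟨f, gZ⟩ := exists_gd h1 h2 h3
    refine ⟨f, gZ, PA.of_hodge gZ h4, PO.of_pa gE gZ (PA.of_hodge (gE.prod gZ) h6), ?_⟩
    intro B' a b ha hb
    rw [t_eq_iff_trans gE B] at ha
    rw [t_eq_iff_trans gZ B'] at hb
    refine Submodule.span_mono ?_ (h5 a ha b hb)
    intro x hx
    obtain ⟨j, hj⟩ := Set.mem_iUnion.1 hx
    exact AS.of hj
  have hssV : ∃ f, SS B V f := by
    induction hV with
    | base i => exact hss i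
    | prod _ _ h1 h2 =>
      obtain ⟨f, hf⟩ := h1
      obtain ⟨g, hg⟩ := h2
      exact ⟨_, SS.prod gE hB pE hf hg⟩
  obtain ⟨v, hv⟩ := hssV
  refine ⟨PA.hodgeAndD hv.gd hv.pa, ?_⟩
  have h1 : PO W V v Y y := po_of_ss gE hB hv gY pY poY
  exact PA.hodgeAndD (gY.prod hv.gd) ((h1.swap hv.gd gY).pa gY hv.gd)

lemma isCyc_product {ι : Type w} {Z : ι → Polarized 𝒱} (h : ∀ s, (Z s).X.IsCyc 1 (Z s).D)
    {V : Polarized 𝒱} (hV : IsProduct ops Z V) : V.X.IsCyc 1 V.D := by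
  induction hV with
  | base i => exact h i
  | prod _ _ h1 h2 => exact SmVar.IsCyc.add (ops.pull_mem _ h1) (ops.pull_mem _ h2)

/-- **Varieties covered by products with supersingular varieties.** -/
theorem ss_covers {E Y : Polarized 𝒱} {ι : Type w} {Z : ι → Polarized 𝒱} (hE : Std W E)
    (hE0 : transcendental W E.X ≠ ⊥) (hY : Std W Y)
    (hEY : HodgeType W (E.prod ops Y).X (E.prod ops Y).D)
    (hZ : ∀ s, SupersingularFor W E (Z s)) {V : Polarized 𝒱} (hV : IsProduct ops Z V)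
    {X : Polarized 𝒱} (hX : Covers W (Y.prod ops V) X) (hXD : X.X.IsCyc 1 X.D) :
    HodgeAndD W X := by
  obtain ⟨-, h1, h2⟩ := ss_main hE hE0 hY hEY hZ hV
  have h3 : (Y.prod ops V).X.IsCyc 1 (Y.prod ops V).D :=
    SmVar.IsCyc.add (ops.pull_mem _ hY.1)
      (ops.pull_mem _ (isCyc_product (fun s => (hZ s).1.1.1) hV))
  exact ⟨hodge_of_covers hX h3 hXD h1, homEqNum_of_covers hX h2⟩

end Pool.Agent.W552
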