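import Pool.Agent.W552.SsProd

/-!
# The product of two supersingular varieties
-/

open CategoryTheory AlgebraicGeometry

universe u v w

namespace Pool.Agent.W552

open Pool.Agent.H914 Pool.Agent.H914.VarClass Pool.Agent.H914.VarClass.Obj
  Pool.Agent.H914.WeilCohomology Pool.Agent.H281R3.HT Pool.Agent.H447

variable {k : Type u} [Field k] {𝒱 : VarClass k} {ops : CycleOps 𝒱}
  {W : WeilCohomology.{u, v} ops} {E P Q R : Polarized 𝒱} {e : Module.End W.K (W.H E.X)}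
  {f : Module.End W.K (W.H P.X)} {g : Module.End W.K (W.H Q.X)}

lemma ASp.comm {X : 𝒱.Obj} {x : W.H X} (hx : x ∈ ASp W X) (y : W.H X) : x * y = y * x := by
  induction hx using Submodule.span_induction with
  | mem x hx => exact AS.comm hx y
  | zero => rw [zero_mul, mul_zero]
  | add a b _ _ ha hb => rw [add_mul, mul_add, ha, hb]
  | smul c a _ ha => rw [smul_mul_assoc, mul_smul_comm, ha]

/-- The map `a ↦ a × b`. -/
noncomputable def inR (W : WeilCohomology.{u, v} ops) (X : 𝒱.Obj) {Y : 𝒱.Obj} (b : W.H Y) :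
    W.H X →ₗ[W.K] W.H (X.prod Y) :=
  LinearMap.mulRight W.K (W.map (snd X Y) b) ∘ₗ (W.map (fst X Y)).toLinearMap

/-- The map `b ↦ a × b`. -/
noncomputable def inL (W : WeilCohomology.{u, v} ops) {X : 𝒱.Obj} (Y : 𝒱.Obj) (a : W.H X) :
    W.H Y →ₗ[W.K] W.H (X.prod Y) :=
  LinearMap.mulLeft W.K (W.map (fst X Y) a) ∘ₗ (W.map (snd X Y)).toLinearMap

lemma inR_apply {X Y : 𝒱.Obj} (a : W.H X) (b : W.H Y) : inR W X b a = ext W a b := rfl

lemma inL_apply {X Y : 𝒱.Obj} (a : W.H X) (b : W.H Y) : inL W Y a b = ext W a b := rfl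

lemma inR_aop {X Y : 𝒱.Obj} {b : W.H Y} (hb : AS W Y b) : AOp W X (X.prod Y) (inR W X b) := by
  have h1 : inR W X b = LinearMap.mulLeft W.K (W.map (snd X Y) b) ∘ₗ
      (W.map (fst X Y)).toLinearMap := by
    apply LinearMap.ext
    intro a
    exact ((hb.map (snd X Y)).comm (W.map (fst X Y) a)).symm
  rw [h1]
  exact AOp.comp (mul_aop (hb.map _)) (map_aop _)

lemma inL_aop {X Y : 𝒱.Obj} {a : W.H X} (ha : AS W X a) : AOp W Y (X.prod Y) (inL W Y a) :=
  AOp.comp (mul_aop (ha.map _)) (map_aop _)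

/-- The projector onto the transcendental part of a product. -/
noncomputable def RB.tp (B₂ : RB W (P.prod ops Q) (extSum W f g)) :
    Module.End W.K (W.H (P.X.prod Q.X)) := B₂.t

section

variable (hP : Gd W P f) (hQ : Gd W Q g) {B : RB W P f} {B' : RB W Q g}

include hP hQ

/-- The projector of a product. -/
lemma t_ext (hT : TTA B B') (B₂ : RB W (P.prod ops Q) (extSum W f g)) (a : W.H P.X)
    (b : W.H Q.X) :
    B₂.tp (ext W a b) = ext W (B.t a) (B'.p b) + ext W (B.p a) (B'.t b) := by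
  have hV : Gd W (P.prod ops Q) (extSum W f g) := hP.prod hQ
  have h0 : ext W a b = (ext W (B.p a) (B'.p b) + ext W (B.t a) (B'.t b)) +
      (ext W (B.t a) (B'.p b) + ext W (B.p a) (B'.t b)) := by
    have e1 : a = B.p a + B.t a := by rw [B.t_apply]; abel
    have e2 : b = B'.p b + B'.t b := by rw [B'.t_apply]; abel
    conv_lhs => rw [e1, e2]
    rw [ext_add_left, ext_add_r, ext_add_r]
    abel
  have h1 : B₂.tp (ext W (B.p a) (B'.p b) + ext W (B.t a) (B'.t b)) = 0 := by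
    apply B₂.t_span
    exact Submodule.add_mem _ (ASp.ext (B.p_mem a) (B'.p_mem b)) (hT _ _ (B.t_t a) (B'.t_t b))
  have h2 : B₂.tp (ext W (B.t a) (B'.p b) + ext W (B.p a) (B'.t b)) =
      ext W (B.t a) (B'.p b) + ext W (B.p a) (B'.t b) := by
    refine (hV.t_eq_iff B₂).2 ?_
    intro c hc
    have e1 : bf W (P.prod ops Q).X (P.prod ops Q).D (extSum W f g) c
        (ext W (B.t a) (B'.p b)) = 0 := by
      have e3 := bf_th hP hQ hc (B.t a) (B'.p b)
      rw [hP.t_comm hQ B B' (hP.th_aop hc), hQ.t_adj B'] at e3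
      rw [B'.t_span (B'.p_mem b), map_zero] at e3
      exact e3
    have e2 : bf W (P.prod ops Q).X (P.prod ops Q).D (extSum W f g) c
        (ext W (B.p a) (B'.t b)) = 0 := by
      have e3 := bf_th hP hQ hc (B.p a) (B'.t b)
      rw [← hQ.t_adj B', ← hP.t_comm hQ B B' (hP.th_aop hc), B.t_span (B.p_mem a), map_zero,
        map_zero, LinearMap.zero_apply] at e3
      exact e3
    exact (map_add (bf W (P.prod ops Q).X (P.prod ops Q).D (extSum W f g) c) _ _).trans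
      ((congrArg₂ (· + ·) e1 e2).trans (add_zero 0))
  conv_lhs => rw [h0]
  rw [map_add, h1, h2, zero_add]

/-- The adjoint of `a ↦ a × b`. -/
lemma adj_inR {b : W.H Q.X} {q : W.H (P.X.prod Q.X) →ₗ[W.K] W.H P.X}
    (hq : Adj W P f (P.prod ops Q) (extSum W f g) (inR W P.X b) q) (a' : W.H P.X)
    (b' : W.H Q.X) : q (ext W a' b') = bf W Q.X Q.D g b b' • a' := by
  rw [← sub_eq_zero]
  apply hP.nondeg
  intro y
  rw [map_sub, sub_eq_zero, map_smul, smul_eq_mul]
  exact (hq y (ext W a' b')).symm.trans ((hP.F.bf_ext hQ.F y a' b b').trans (mul_comm _ _))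

/-- The adjoint of `b ↦ a × b`. -/
lemma adj_inL {a : W.H P.X} {q : W.H (P.X.prod Q.X) →ₗ[W.K] W.H Q.X}
    (hq : Adj W Q g (P.prod ops Q) (extSum W f g) (inL W Q.X a) q) (a' : W.H P.X)
    (b' : W.H Q.X) : q (ext W a' b') = bf W P.X P.D f a a' • b' := by
  rw [← sub_eq_zero]
  apply hQ.nondeg
  intro y
  rw [map_sub, sub_eq_zero, map_smul, smul_eq_mul]
  exact (hq y (ext W a' b')).symm.trans (hP.F.bf_ext hQ.F a a' y b')

end

section

variable {B : RB W E e} (hE : Gd W E e) (hB : B.t ≠ 0)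

include hE hB

/-- The operators from a product of supersingular varieties to `R`. -/
theorem po_prod (hP : SS B P f) (hQ : SS B Q g) {h : Module.End W.K (W.H R.X)} (hA : PA W R h)
    (hPO : PO W P f R h) (hPO' : PO W Q g R h) :
    PO W (P.prod ops Q) (extSum W f g) R h := by
  obtain ⟨B'⟩ := hP.gd.exists_rb hP.pa
  obtain ⟨B''⟩ := hQ.gd.exists_rb hQ.pa
  have hV : Gd W (P.prod ops Q) (extSum W f g) := hP.gd.prod hQ.gd
  have hPQ : PO W P f Q g := po_of_ss hE hB hP hQ.gd hQ.pa hQ.po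
  obtain ⟨B₂⟩ := hV.exists_rb (hPQ.pa hP.gd hQ.gd)
  have hT : TTA B' B'' := tta_of_ss hE hB hP hQ B' B''
  have hq0 : ∀ k, ∃ q : W.H (P.X.prod Q.X) →ₗ[W.K] W.H P.X, AOp W (P.X.prod Q.X) P.X q ∧
      Adj W P f (P.prod ops Q) (extSum W f g) (inR W P.X (B''.ε k)) q :=
    fun k => hP.gd.adj hV (inR_aop (X := P.X) (B''.as k))
  have hr0 : ∀ k, ∃ q : W.H (P.X.prod Q.X) →ₗ[W.K] W.H Q.X, AOp W (P.X.prod Q.X) Q.X q ∧
      Adj W Q g (P.prod ops Q) (extSum W f g) (inL W Q.X (B'.ε k)) q :=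
    fun k => hQ.gd.adj hV (inL_aop (Y := Q.X) (B'.as k))
  choose q hq hq' using hq0
  choose r hr hr' using hr0
  have hdec : B₂.tp = (∑ k, (((B''.w k)⁻¹ : ℚ) : W.K) • ((inR W P.X (B''.ε k) ∘ₗ B'.t) ∘ₗ
      (B'.t ∘ₗ q k))) + ∑ k, (((B'.w k)⁻¹ : ℚ) : W.K) • ((inL W Q.X (B'.ε k) ∘ₗ B''.t) ∘ₗ
      (B''.t ∘ₗ r k)) := by
    apply LinearMap.ext
    intro x
    refine W.kunneth_induction (p := fun x => B₂.tp x = ((∑ k, (((B''.w k)⁻¹ : ℚ) : W.K) •
      ((inR W P.X (B''.ε k) ∘ₗ B'.t) ∘ₗ (B'.t ∘ₗ q k))) + ∑ k, (((B'.w k)⁻¹ : ℚ) : W.K) •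
      ((inL W Q.X (B'.ε k) ∘ₗ B''.t) ∘ₗ (B''.t ∘ₗ r k))) x) ?_ ?_ x
    · intro x y hx hy
      rw [map_add, hx, hy, map_add]
    intro i j a _ b _
    have e0 : W.map (fst P.X Q.X) a * W.map (snd P.X Q.X) b = ext W a b := rfl
    rw [e0, t_ext hP.gd hQ.gd hT B₂ a b, LinearMap.add_apply]
    congr 1
    · rw [LinearMap.sum_apply, B''.p_apply, ext_sum_r]
      apply Finset.sum_congr rfl
      intro k _
      rw [LinearMap.smul_apply]
      simp only [LinearMap.comp_apply]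
      rw [adj_inR hP.gd hQ.gd (hq' k) a b, map_smul, map_smul, B'.t_t, map_smul, inR_apply,
        ext_smul_r, smul_smul]
      push_cast
      rfl
    · rw [LinearMap.sum_apply, B'.p_apply, ext_sum_l]
      apply Finset.sum_congr rfl
      intro k _
      rw [LinearMap.smul_apply]
      simp only [LinearMap.comp_apply]
      rw [adj_inL hP.gd hQ.gd (hr' k) a b, map_smul, map_smul, B''.t_t, map_smul, inL_apply,
        ext_smul_left, smul_smul]
      push_cast
      rfl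
  apply PO.of_t B₂ hA
  intro U Us hU hUs hUUs
  have hdec' : B₂.t = B₂.tp := rfl
  rw [hdec', hdec]
  refine NN.add (NN.sum _ fun k _ => ?_) (NN.sum _ fun k _ => ?_)
  · refine NN.fac hV hP.gd hPO hU hUs hUUs (inv_pos.2 (B''.pos k))
      (AOp.comp (hP.gd.t_aop B') (hq k)) (AOp.comp (inR_aop (B''.as k)) (hP.gd.t_aop B')) ?_
    exact Adj.comp (Adj.symm hP.gd hV (inR_aop (B''.as k)) (hq' k)) (hP.gd.t_adj B')
  · refine NN.fac hV hQ.gd hPO' hU hUs hUUs (inv_pos.2 (B'.pos k))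
      (AOp.comp (hQ.gd.t_aop B'') (hr k)) (AOp.comp (inL_aop (B'.as k)) (hQ.gd.t_aop B'')) ?_
    exact Adj.comp (Adj.symm hQ.gd hV (inL_aop (B'.as k)) (hr' k)) (hQ.gd.t_adj B'')

/-- **The product of two supersingular varieties is supersingular.** -/
theorem SS.prod (hA : PA W E e) (hP : SS B P f) (hQ : SS B Q g) :
    SS B (P.prod ops Q) (extSum W f g) where
  gd := hP.gd.prod hQ.gd
  pa := (po_of_ss hE hB hP hQ.gd hQ.pa hQ.po).pa hP.gd hQ.gd
  po := (po_prod hE hB hP hQ hA (hP.po.swap hE hP.gd) (hQ.po.swap hE hQ.gd)).swap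
    (hP.gd.prod hQ.gd) hE
  tt := by
    intro B₂ x y hx hy
    obtain ⟨B'⟩ := hP.gd.exists_rb hP.pa
    obtain ⟨B''⟩ := hQ.gd.exists_rb hQ.pa
    have hT : TTA B' B'' := tta_of_ss hE hB hP hQ B' B''
    rw [← hy]
    refine W.kunneth_induction (p := fun y => ext W x (B₂.tp y) ∈
      ASp W (E.X.prod (P.X.prod Q.X))) ?_ ?_ y
    · intro a b ha hb
      rw [map_add, ext_add_r]
      exact Submodule.add_mem _ ha hb
    intro i j a _ b _
    have e0 : W.map (fst P.X Q.X) a * W.map (snd P.X Q.X) b = ext W a b := rfl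
    rw [e0, t_ext hP.gd hQ.gd hT B₂ a b, ext_add_r]
    refine Submodule.add_mem _ ?_ ?_
    · have e2 : ext W x (ext W (B'.t a) (B''.p b)) =
          W.map (Obj.lift (fst E.X (P.X.prod Q.X)) (snd E.X (P.X.prod Q.X) ≫ fst P.X Q.X))
            (ext W x (B'.t a)) * W.map (snd E.X (P.X.prod Q.X) ≫ snd P.X Q.X) (B''.p b) := by
        simp only [H281R3.HT.ext, map_mul]
        rw [← W.map_comp, ← W.map_comp, ← W.map_comp, ← W.map_comp, Obj.lift_fst, Obj.lift_snd,
          mul_assoc]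
      rw [e2]
      exact ASp.mul (ASp.map _ (hP.tt B' _ _ hx (B'.t_t a))) (ASp.map _ (B''.p_mem b))
    · have e2 : ext W x (ext W (B'.p a) (B''.t b)) =
          W.map (snd E.X (P.X.prod Q.X) ≫ fst P.X Q.X) (B'.p a) *
          W.map (Obj.lift (fst E.X (P.X.prod Q.X)) (snd E.X (P.X.prod Q.X) ≫ snd P.X Q.X))
            (ext W x (B''.t b)) := by
        have e3 := ASp.comm (ASp.map (W := W) (snd E.X (P.X.prod Q.X) ≫ fst P.X Q.X)
          (B'.p_mem a)) (W.map (fst E.X (P.X.prod Q.X)) x)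
        simp only [H281R3.HT.ext, map_mul]
        rw [← W.map_comp, ← W.map_comp, ← W.map_comp, ← W.map_comp, Obj.lift_fst, Obj.lift_snd,
          ← mul_assoc, ← mul_assoc, ← e3]
      rw [e2]
      exact ASp.mul (ASp.map _ (B'.p_mem a)) (ASp.map _ (hQ.tt B'' _ _ hx (B''.t_t b)))

end

end Pool.Agent.W552
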