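import Pool.Agent.W552.SsPo

/-!
# Positivity from a decomposition of the identity
-/

open CategoryTheory AlgebraicGeometry

universe u v w

namespace Pool.Agent.W552

open Pool.Agent.H914 Pool.Agent.H914.VarClass Pool.Agent.H914.VarClass.Obj
  Pool.Agent.H914.WeilCohomology Pool.Agent.H281R3.HT Pool.Agent.H447

variable {k : Type u} [Field k] {𝒱 : VarClass k} {ops : CycleOps 𝒱}
  {W : WeilCohomology.{u, v} ops} {P Q R : Polarized 𝒱} {f : Module.End W.K (W.H P.X)}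
  {g : Module.End W.K (W.H Q.X)} {h : Module.End W.K (W.H R.X)}

namespace Gd

lemma bf_as (hP : Gd W P f) {x : W.H P.X} (hx : AS W P.X x) (y : W.H P.X) :
    bf W P.X P.D f x y = bf W P.X P.D f y x := by
  rw [hP.sy y x, par_as hx]

lemma exists_rb (hP : Gd W P f) (hA : PA W P f) : Nonempty (RB W P f) := by
  obtain ⟨N, ε, w, hε, hw, horth, hspan⟩ := exists_ratBasis (AS.ratSub (W := W) (X := P.X))
    (bf W P.X P.D f) (fun x y hx hy => hP.F.bf_rat hx hy) (fun x y hx _ => hP.bf_as hx y)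
    (fun x hx hx0 => hA x hx hx0)
  exact ⟨⟨N, ε, w, hε, hw, horth, fun x hx => hspan x (Submodule.subset_span hx)
    (fun k => hP.F.bf_rat hx (hε k))⟩⟩

/-- The rank one operators. -/
lemma th_ext_as (hP : Gd W P f) {x : W.H P.X} {y : W.H Q.X} (hx : AS W P.X x)
    (hy : AS W Q.X y) : th W P.D f (ext W x y) = (bf W P.X P.D f x).smulRight y := by
  apply LinearMap.ext
  intro z
  rw [LinearMap.smulRight_apply]
  refine AS.ind (p := fun x => th W P.D f (ext W x y) z = bf W P.X P.D f x z • y) ?_ ?_ hx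
  · intro j x hx
    refine AS.ind (p := fun y => th W P.D f (ext W x y) z = bf W P.X P.D f x z • y) ?_ ?_ hy
    · intro i y hy
      exact th_ext hP.F (alg_gr hx) (alg_gr hy) ⟨j + i, by ring⟩ z
    · intro a b ha hb
      rw [show ext W x (a + b) = ext W x a + ext W x b by simp only [H281R3.HT.ext, map_add,
        mul_add], th, corr_add, LinearMap.add_comp, LinearMap.add_apply, smul_add, ← ha, ← hb]
      rfl
  · intro a b ha hb
    rw [show ext W (a + b) y = ext W a y + ext W b y by simp only [H281R3.HT.ext, map_add,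
      add_mul], th, corr_add, LinearMap.add_comp, LinearMap.add_apply, map_add,
      LinearMap.add_apply, add_smul, ← ha, ← hb]
    rfl

lemma rk_aop (hP : Gd W P f) {x : W.H P.X} {y : W.H Q.X} (hx : AS W P.X x)
    (hy : AS W Q.X y) : AOp W P.X Q.X ((bf W P.X P.D f x).smulRight y) := by
  rw [← hP.th_ext_as hx hy]
  exact hP.th_aop (hx.ext hy)

lemma p_aop (hP : Gd W P f) (B : RB W P f) : AOp W P.X P.X B.p := by
  rw [RB.p]
  apply AOp.ratSub.sum
  intro k _
  have h1 := (hP.rk_aop (B.as k) (B.as k)).smul ((B.w k)⁻¹)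
  rwa [Rat.cast_inv] at h1

lemma p_adj (hP : Gd W P f) (B : RB W P f) (a b : W.H P.X) :
    bf W P.X P.D f (B.p a) b = bf W P.X P.D f a (B.p b) := by
  rw [B.p_apply, B.p_apply, map_sum, map_sum, LinearMap.sum_apply]
  apply Finset.sum_congr rfl
  intro k _
  rw [map_smul, map_smul, LinearMap.smul_apply, smul_eq_mul, smul_eq_mul,
    ← hP.bf_as (B.as k) a]
  ring

/-- Algebraic operators commute with the projectors. -/
lemma p_comm (hP : Gd W P f) (hQ : Gd W Q g) (B : RB W P f) (B' : RB W Q g)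
    {u : W.H P.X →ₗ[W.K] W.H Q.X} (hu : AOp W P.X Q.X u) (a : W.H P.X) :
    u (B.p a) = B'.p (u a) := by
  obtain ⟨v, hv, huv⟩ := hP.adj hQ hu
  rw [← sub_eq_zero]
  apply hQ.nondeg_left
  intro b
  have h1 : B'.p (u (B.p a)) = u (B.p a) := B'.p_span (hu.apply_span (B.p_mem a))
  have h2 : B.p (v (B'.p b)) = v (B'.p b) := B.p_span (hv.apply_span (B'.p_mem b))
  rw [map_sub, LinearMap.sub_apply, sub_eq_zero]
  calc bf W Q.X Q.D g (u (B.p a)) b = bf W Q.X Q.D g (B'.p (u (B.p a))) b := by rw [h1]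
    _ = bf W Q.X Q.D g (u (B.p a)) (B'.p b) := hQ.p_adj B' _ _
    _ = bf W P.X P.D f (B.p a) (v (B'.p b)) := huv _ _
    _ = bf W P.X P.D f a (B.p (v (B'.p b))) := hP.p_adj B _ _
    _ = bf W P.X P.D f a (v (B'.p b)) := by rw [h2]
    _ = bf W Q.X Q.D g (u a) (B'.p b) := (huv _ _).symm
    _ = bf W Q.X Q.D g (B'.p (u a)) b := (hQ.p_adj B' _ _).symm

/-- The projector onto the transcendental part. -/
noncomputable def _root_.Pool.Agent.W552.RB.t (B : RB W P f) : Module.End W.K (W.H P.X) :=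
  1 - B.p

lemma _root_.Pool.Agent.W552.RB.t_apply (B : RB W P f) (a : W.H P.X) : B.t a = a - B.p a := rfl

lemma _root_.Pool.Agent.W552.RB.t_t (B : RB W P f) (a : W.H P.X) : B.t (B.t a) = B.t a := by
  have h1 : B.p (B.p a) = B.p a := B.p_span (B.p_mem a)
  rw [B.t_apply (B.t a), B.t_apply, map_sub, h1, sub_self, sub_zero]

lemma _root_.Pool.Agent.W552.RB.t_as (B : RB W P f) {a : W.H P.X} (ha : AS W P.X a) :
    B.t a = 0 := by rw [B.t_apply, B.p_as ha, sub_self]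

lemma _root_.Pool.Agent.W552.RB.t_span (B : RB W P f) {a : W.H P.X} (ha : a ∈ ASp W P.X) :
    B.t a = 0 := by rw [B.t_apply, B.p_span ha, sub_self]

lemma t_aop (hP : Gd W P f) (B : RB W P f) : AOp W P.X P.X B.t :=
  AOp.ratSub.sub AOp.one (hP.p_aop B)

lemma t_adj (hP : Gd W P f) (B : RB W P f) : Adj W P f P f B.t B.t := by
  intro a b
  rw [B.t_apply, B.t_apply, map_sub, map_sub, LinearMap.sub_apply, hP.p_adj]

lemma t_comm (hP : Gd W P f) (hQ : Gd W Q g) (B : RB W P f) (B' : RB W Q g)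
    {u : W.H P.X →ₗ[W.K] W.H Q.X} (hu : AOp W P.X Q.X u) (a : W.H P.X) :
    u (B.t a) = B'.t (u a) := by
  rw [B.t_apply, B'.t_apply, map_sub, hP.p_comm hQ B B' hu]

/-- The kernel of the projector. -/
lemma t_eq_iff (hP : Gd W P f) (B : RB W P f) {x : W.H P.X} :
    B.t x = x ↔ ∀ a, AS W P.X a → bf W P.X P.D f a x = 0 := by
  constructor
  · intro h a ha
    rw [← h, ← hP.t_adj B, B.t_as ha, map_zero, LinearMap.zero_apply]
  · intro h
    rw [B.t_apply, sub_eq_self, B.p_apply]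
    apply Finset.sum_eq_zero
    intro k _
    rw [h _ (B.as k), mul_zero, zero_smul]

end Gd

/-- The value of the trace is not negative. -/
def NN (U : W.H P.X →ₗ[W.K] W.H Q.X) (Us : W.H Q.X →ₗ[W.K] W.H P.X)
    (T : Module.End W.K (W.H P.X)) : Prop :=
  ∃ q : ℚ, 0 ≤ q ∧ LinearMap.trace W.K (W.H P.X) ((Us ∘ₗ U) ∘ₗ T) = q ∧ (q = 0 → U ∘ₗ T = 0)

namespace NN

variable {U : W.H P.X →ₗ[W.K] W.H Q.X} {Us : W.H Q.X →ₗ[W.K] W.H P.X}
  {T T' : Module.End W.K (W.H P.X)}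

lemma zero : NN U Us (0 : Module.End W.K (W.H P.X)) :=
  ⟨0, le_rfl, by rw [LinearMap.comp_zero, map_zero, Rat.cast_zero], fun _ => by
    rw [LinearMap.comp_zero]⟩

lemma add (h : NN U Us T) (h' : NN U Us T') : NN U Us (T + T') := by
  obtain ⟨q, h1, h2, h3⟩ := h
  obtain ⟨q', h1', h2', h3'⟩ := h'
  refine ⟨q + q', add_nonneg h1 h1', ?_, ?_⟩
  · rw [LinearMap.comp_add, map_add, h2, h2', Rat.cast_add]
  · intro h0
    have e1 : q = 0 := by linarith
    have e2 : q' = 0 := by linarith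
    rw [LinearMap.comp_add, h3 e1, h3' e2, add_zero]

lemma sum {ι : Type*} (s : Finset ι) {T : ι → Module.End W.K (W.H P.X)}
    (h : ∀ i ∈ s, NN U Us (T i)) : NN U Us (∑ i ∈ s, T i) := by
  classical
  induction s using Finset.induction_on with
  | empty => rw [Finset.sum_empty]; exact zero
  | insert a s ha ih =>
    rw [Finset.sum_insert ha]
    exact (h a (Finset.mem_insert_self a s)).add
      (ih fun i hi => h i (Finset.mem_insert_of_mem hi))

/-- The rank one operators of algebraic classes. -/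
lemma rk (hA : PA W Q g) (hU : AOp W P.X Q.X U) (hUs : Adj W P f Q g U Us) {w : ℚ} (hw : 0 < w)
    {x : W.H P.X} (hx : AS W P.X x) :
    NN U Us (((w : W.K)⁻¹) • (bf W P.X P.D f x).smulRight x) := by
  have e1 : LinearMap.trace W.K (W.H P.X) ((Us ∘ₗ U) ∘ₗ
      (((w : W.K)⁻¹) • (bf W P.X P.D f x).smulRight x)) =
      (w : W.K)⁻¹ * bf W Q.X Q.D g (U x) (U x) := by
    rw [LinearMap.comp_smul, map_smul, smul_eq_mul]
    have e2 : (Us ∘ₗ U) ∘ₗ (bf W P.X P.D f x).smulRight x =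
        (bf W P.X P.D f x).smulRight (Us (U x)) := by
      apply LinearMap.ext
      intro z
      rw [LinearMap.comp_apply, LinearMap.smulRight_apply, map_smul, LinearMap.smulRight_apply]
      rfl
    rw [e2, LinearMap.trace_smulRight, hUs]
  by_cases h0 : U x = 0
  · refine ⟨0, le_rfl, ?_, fun _ => ?_⟩
    · rw [e1, h0]; simp
    · apply LinearMap.ext
      intro z
      rw [LinearMap.comp_apply, LinearMap.smul_apply, LinearMap.smulRight_apply, map_smul,
        map_smul, h0, smul_zero, smul_zero, LinearMap.zero_apply]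
  · obtain ⟨q, hq, hq'⟩ := hA _ (hU.apply hx) h0
    refine ⟨w⁻¹ * q, (mul_pos (inv_pos.2 hw) hq).le, ?_, fun h1 => ?_⟩
    · rw [e1, hq']; push_cast; rfl
    · exact absurd h1 (mul_pos (inv_pos.2 hw) hq).ne'

/-- The operators which factor through `R`. -/
lemma fac (hP : Gd W P f) (hR : Gd W R h) (hPO : PO W R h Q g) (hU : AOp W P.X Q.X U)
    (hUs' : AOp W Q.X P.X Us) (hUs : Adj W P f Q g U Us) {c : ℚ} (hc : 0 < c)
    {a : W.H P.X →ₗ[W.K] W.H R.X} {b : W.H R.X →ₗ[W.K] W.H P.X} (ha : AOp W P.X R.X a)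
    (hb : AOp W R.X P.X b) (hab : Adj W P f R h a b) :
    NN U Us ((c : W.K) • (b ∘ₗ a)) := by
  have e1 : LinearMap.trace W.K (W.H P.X) ((Us ∘ₗ U) ∘ₗ ((c : W.K) • (b ∘ₗ a))) =
      (c : W.K) * LinearMap.trace W.K (W.H R.X) ((a ∘ₗ Us) ∘ₗ (U ∘ₗ b)) := by
    rw [LinearMap.comp_smul, map_smul, smul_eq_mul]
    congr 1
    have e2 : (Us ∘ₗ U) ∘ₗ (b ∘ₗ a) = (Us ∘ₗ (U ∘ₗ b)) ∘ₗ a := rfl
    rw [e2, LinearMap.trace_comp_comm']
    rfl
  by_cases h0 : U ∘ₗ b = 0
  · refine ⟨0, le_rfl, ?_, fun _ => ?_⟩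
    · rw [e1, h0, LinearMap.comp_zero, map_zero, mul_zero, Rat.cast_zero]
    · have e3 : U ∘ₗ ((c : W.K) • (b ∘ₗ a)) = (c : W.K) • ((U ∘ₗ b) ∘ₗ a) := by
        rw [LinearMap.comp_smul]; rfl
      rw [e3, h0, LinearMap.zero_comp, smul_zero]
  · obtain ⟨q, hq, hq'⟩ := hPO (U ∘ₗ b) (a ∘ₗ Us) (AOp.comp hU hb) (AOp.comp ha hUs')
      (Adj.comp (Adj.symm hP hR ha hab) hUs) h0
    refine ⟨c * q, (mul_pos hc hq).le, ?_, fun h1 => ?_⟩
    · rw [e1, hq']; push_cast; rfl
    · exact absurd h1 (mul_pos hc hq).ne'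

/-- The projector onto the algebraic part. -/
lemma p (B : RB W P f) (hA : PA W Q g) (hU : AOp W P.X Q.X U) (hUs : Adj W P f Q g U Us) :
    NN U Us B.p := by
  rw [RB.p]
  exact sum _ fun k _ => rk hA hU hUs (B.pos k) (B.as k)

end NN

/-- Positivity from a decomposition of the identity. -/
lemma PO.of_nn (h : ∀ U Us, AOp W P.X Q.X U → AOp W Q.X P.X Us → Adj W P f Q g U Us →
    NN U Us (1 : Module.End W.K (W.H P.X))) : PO W P f Q g := by
  intro u v hu hv huv hu0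
  obtain ⟨q, h1, h2, h3⟩ := h u v hu hv huv
  have e1 : u ∘ₗ (1 : Module.End W.K (W.H P.X)) = u := rfl
  have e2 : (v ∘ₗ u) ∘ₗ (1 : Module.End W.K (W.H P.X)) = v ∘ₗ u := rfl
  refine ⟨q, lt_of_le_of_ne h1 ?_, by rw [← h2, e2]⟩
  intro h0
  exact hu0 (by rw [← e1]; exact h3 h0.symm)

lemma PO.of_t (B : RB W P f) (hA : PA W Q g)
    (h : ∀ U Us, AOp W P.X Q.X U → AOp W Q.X P.X Us → Adj W P f Q g U Us → NN U Us B.t) :
    PO W P f Q g := by
  apply PO.of_nn
  intro U Us hU hUs hUUs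
  have h1 : (1 : Module.End W.K (W.H P.X)) = B.p + B.t := by
    rw [RB.t]; abel
  rw [h1]
  exact (NN.p B hA hU hUUs).add (h U Us hU hUs hUUs)

end Pool.Agent.W552
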