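import Pool.Agent.W552.SsNn

/-!
# The completeness relation for operators between transcendental parts
-/

open CategoryTheory AlgebraicGeometry

universe u v w

namespace Pool.Agent.W552

open Pool.Agent.H914 Pool.Agent.H914.VarClass Pool.Agent.H914.VarClass.Obj
  Pool.Agent.H914.WeilCohomology Pool.Agent.H281R3.HT Pool.Agent.H447

variable {k : Type u} [Field k] {𝒱 : VarClass k} {ops : CycleOps 𝒱}
  {W : WeilCohomology.{u, v} ops} {P Q R : Polarized 𝒱} {f : Module.End W.K (W.H P.X)}
  {g : Module.End W.K (W.H Q.X)}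

/-- The map `x ↦ th x`. -/
noncomputable def thL (W : WeilCohomology.{u, v} ops) (P Q : Polarized 𝒱)
    (f : Module.End W.K (W.H P.X)) :
    W.H (P.X.prod Q.X) →ₗ[W.K] (W.H P.X →ₗ[W.K] W.H Q.X) where
  toFun x := th W P.D f x
  map_add' c d := by rw [th, corr_add, LinearMap.add_comp]; rfl
  map_smul' r c := by rw [th, corr_smul, LinearMap.smul_comp]; rfl

lemma thL_apply (x : W.H (P.X.prod Q.X)) : thL W P Q f x = th W P.D f x := rfl

lemma ratBasis_exp {K V : Type*} [Field K] [CharZero K] [AddCommGroup V] [Module K V]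
    {M : V → Prop} {β : V →ₗ[K] V →ₗ[K] K} {N : ℕ} {ε : Fin N → V} {w : Fin N → ℚ}
    (hw : ∀ k, 0 < w k) (horth : ∀ k l, β (ε k) (ε l) = if k = l then (w k : K) else 0)
    (hspan : ∀ x, M x → ∃ r : Fin N → ℚ, x = ∑ k, (r k : K) • ε k) :
    ∀ x ∈ Submodule.span K {y | M y}, x = ∑ k, ((w k : K)⁻¹ * β (ε k) x) • ε k := by
  have hw0 : ∀ k, (w k : K) ≠ 0 := fun k => by exact_mod_cast (hw k).ne'
  intro x hx
  induction hx using Submodule.span_induction with
  | mem x hx =>
    obtain ⟨r, hr⟩ := hspan x hx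
    have h1 : ∀ k, β (ε k) x = (r k : K) * w k := by
      intro k
      rw [hr, map_sum, Finset.sum_eq_single k]
      · rw [map_smul, horth, if_pos rfl, smul_eq_mul]
      · intro l _ hl
        rw [map_smul, horth, if_neg (Ne.symm hl), smul_zero]
      · intro h0; exact absurd (Finset.mem_univ _) h0
    conv_lhs => rw [hr]
    apply Finset.sum_congr rfl
    intro k _
    rw [h1, mul_left_comm, inv_mul_cancel₀ (hw0 k), mul_one]
  | zero => simp
  | add a b _ _ ha hb =>
    conv_lhs => rw [ha, hb]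
    rw [← Finset.sum_add_distrib]
    apply Finset.sum_congr rfl
    intro k _
    rw [map_add, mul_add, add_smul]
  | smul c a _ ha =>
    conv_lhs => rw [ha]
    rw [Finset.smul_sum]
    apply Finset.sum_congr rfl
    intro k _
    rw [map_smul, smul_smul, smul_eq_mul]
    congr 1
    ring

lemma bf_th (hP : Gd W P f) (hQ : Gd W Q g) {c : W.H (P.X.prod Q.X)} (hc : AS W _ c)
    (a : W.H P.X) (b : W.H Q.X) :
    bf W (P.X.prod Q.X) (ops.pull (fst P.X Q.X) P.D + ops.pull (snd P.X Q.X) Q.D)
      (extSum W f g) c (ext W a b) = bf W Q.X Q.D g (th W P.D f c a) b := by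
  obtain ⟨bX⟩ := exists_HB W P.X
  obtain ⟨bY⟩ := exists_HB W Q.X
  rw [th_coord hP.F bX bY hc, map_sum, LinearMap.sum_apply]
  conv_lhs => rw [← (bX.ex bY).sum_repr c]
  rw [map_sum, LinearMap.sum_apply]
  apply Finset.sum_congr rfl
  rintro ⟨p, q⟩ _
  rw [map_smul, map_smul, LinearMap.smul_apply, LinearMap.smul_apply, smul_eq_mul, smul_eq_mul,
    HB.ex_apply, hP.F.bf_ext hQ.F]
  ring

lemma par_span {X : 𝒱.Obj} {x : W.H X} (hx : x ∈ ASp W X) : par (W.isInternal X) x = x := by
  induction hx using Submodule.span_induction with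
  | mem x hx => exact par_as hx
  | zero => rw [map_zero]
  | add a b _ _ ha hb => rw [map_add, ha, hb]
  | smul c a _ ha => rw [map_smul, ha]

/-- The transcendental parts of `P` and `Q` have algebraic exterior products. -/
def TTA (B : RB W P f) (B' : RB W Q g) : Prop :=
  ∀ a b, B.t a = a → B'.t b = b → ext W a b ∈ ASp W (P.X.prod Q.X)

lemma t_gr (hP : Gd W P f) (B : RB W P f) {i : ℕ} {a : W.H P.X} (ha : a ∈ W.gr P.X i) :
    B.t a ∈ W.gr P.X i := by
  have h1 := hP.t_comm hP B B (hP.ap i) a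
  rw [proj_same _ ha] at h1
  have h2 := proj_mem (W.isInternal P.X) i (B.t a)
  rwa [h1] at h2

/-- The parity of the transcendental parts. -/
lemma tta_even (hP : Gd W P f) (hQ : Gd W Q g) {B : RB W P f} {B' : RB W Q g} (hT : TTA B B')
    {i j : ℕ} {a : W.H P.X} (ha : a ∈ W.gr P.X i) {b : W.H Q.X} (hb : b ∈ W.gr Q.X j)
    (hta : B.t a = a) (htb : B'.t b = b) (ha0 : a ≠ 0) (hb0 : b ≠ 0) : Even (i + j) := by
  by_contra hij
  have hm : ext W a b ∈ W.gr (P.X.prod Q.X) (i + j) :=
    W.mul_mem (W.map_mem _ ha) (W.map_mem _ hb)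
  have h1 := par_span (hT _ _ hta htb)
  rw [par, scal_apply _ _ hm, (Nat.not_even_iff_odd.1 hij).neg_one_pow] at h1
  have h2 : ext W a b = 0 := by
    have h3 : (2 : W.K) • ext W a b = 0 := by
      rw [two_smul]
      nth_rewrite 2 [← h1]
      rw [neg_one_smul, add_neg_cancel]
    exact (smul_eq_zero.1 h3).resolve_left two_ne_zero
  apply ha0
  apply hP.nondeg
  intro a'
  by_contra h7
  apply hb0
  apply hQ.nondeg
  intro b'
  have h8 := hP.F.bf_ext hQ.F a' a b' b
  rw [h2, map_zero] at h8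
  exact (mul_eq_zero.1 h8.symm).resolve_left h7

/-- The rank one operators between the transcendental parts. -/
lemma rk_eq (hP : Gd W P f) (hQ : Gd W Q g) {B : RB W P f} {B' : RB W Q g} (hT : TTA B B')
    {i j : ℕ} {a : W.H P.X} (ha : a ∈ W.gr P.X i) {b : W.H Q.X} (hb : b ∈ W.gr Q.X j) :
    th W P.D f (ext W (B.t a) (B'.t b)) = (bf W P.X P.D f (B.t a)).smulRight (B'.t b) := by
  have hta := t_gr hP B ha
  have htb := t_gr hQ B' hb
  have h0 : th W P.D f (0 : W.H (P.X.prod Q.X)) = 0 := (thL W P Q f).map_zero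
  by_cases h1 : B.t a = 0
  · rw [h1, H281R3.HT.ext, map_zero, zero_mul, h0]
    apply LinearMap.ext
    intro z
    rw [map_zero, LinearMap.smulRight_apply, LinearMap.zero_apply, LinearMap.zero_apply,
      zero_smul]
  by_cases h2 : B'.t b = 0
  · rw [h2, H281R3.HT.ext, map_zero, mul_zero, h0]
    apply LinearMap.ext
    intro z
    rw [LinearMap.smulRight_apply, smul_zero, LinearMap.zero_apply]
  have hij := tta_even hP hQ hT hta htb (B.t_t a) (B'.t_t b) h1 h2
  apply LinearMap.ext
  intro z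
  rw [th_ext hP.F hta htb hij, LinearMap.smulRight_apply]

lemma smulRight_add_left {K V V' : Type*} [Field K] [AddCommGroup V] [Module K V]
    [AddCommGroup V'] [Module K V'] (φ ψ : V →ₗ[K] K) (x : V') :
    (φ + ψ).smulRight x = φ.smulRight x + ψ.smulRight x := by
  apply LinearMap.ext
  intro z
  simp only [LinearMap.smulRight_apply, LinearMap.add_apply, add_smul]

lemma smulRight_add_right {K V V' : Type*} [Field K] [AddCommGroup V] [Module K V]
    [AddCommGroup V'] [Module K V'] (φ : V →ₗ[K] K) (x y : V') :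
    φ.smulRight (x + y) = φ.smulRight x + φ.smulRight y := by
  apply LinearMap.ext
  intro z
  simp only [LinearMap.smulRight_apply, LinearMap.add_apply, smul_add]

lemma rk_eq' (hP : Gd W P f) (hQ : Gd W Q g) {B : RB W P f} {B' : RB W Q g} (hT : TTA B B')
    (a : W.H P.X) (b : W.H Q.X) :
    th W P.D f (ext W (B.t a) (B'.t b)) = (bf W P.X P.D f (B.t a)).smulRight (B'.t b) := by
  refine gr_induction (W.isInternal P.X) (p := fun a => th W P.D f (ext W (B.t a) (B'.t b)) =
    (bf W P.X P.D f (B.t a)).smulRight (B'.t b)) ?_ ?_ a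
  swap
  · intro a a' h h'
    have e2 : th W P.D f (ext W (B.t a) (B'.t b) + ext W (B.t a') (B'.t b)) =
        th W P.D f (ext W (B.t a) (B'.t b)) + th W P.D f (ext W (B.t a') (B'.t b)) :=
      (thL W P Q f).map_add _ _
    rw [map_add, ext_add_left, e2, h, h', map_add, smulRight_add_left]
  intro i a ha
  refine gr_induction (W.isInternal Q.X) (p := fun b => th W P.D f (ext W (B.t a) (B'.t b)) =
    (bf W P.X P.D f (B.t a)).smulRight (B'.t b)) ?_ ?_ b
  swap
  · intro b b' h h'
    have e1 : ext W (B.t a) (B'.t b + B'.t b') = ext W (B.t a) (B'.t b) +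
        ext W (B.t a) (B'.t b') := by simp only [H281R3.HT.ext, map_add, mul_add]
    have e2 : th W P.D f (ext W (B.t a) (B'.t b) + ext W (B.t a) (B'.t b')) =
        th W P.D f (ext W (B.t a) (B'.t b)) + th W P.D f (ext W (B.t a) (B'.t b')) :=
      (thL W P Q f).map_add _ _
    rw [map_add, e1, e2, h, h', smulRight_add_right]
  intro j b hb
  exact rk_eq hP hQ hT ha hb

/-- The decomposition of the transcendental part of `Q` by operators from `P`. -/
def OD (P : Polarized 𝒱) (f : Module.End W.K (W.H P.X)) (B' : RB W Q g) : Prop :=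
  ∃ (n : ℕ) (c : Fin n → ℚ) (a : Fin n → (W.H Q.X →ₗ[W.K] W.H P.X))
    (b : Fin n → (W.H P.X →ₗ[W.K] W.H Q.X)), (∀ k, 0 < c k) ∧ (∀ k, AOp W Q.X P.X (a k)) ∧
    (∀ k, AOp W P.X Q.X (b k)) ∧ (∀ k, Adj W Q g P f (a k) (b k)) ∧
    B'.t = ∑ k, (c k : W.K) • (b k ∘ₗ a k)

/-- **The completeness relation.** -/
theorem exists_od (hP : Gd W P f) (hQ : Gd W Q g) {B : RB W P f} {B' : RB W Q g}
    (hT : TTA B B') (hPO : PO W P f Q g) (ht : B.t ≠ 0) : OD P f B' := by
  classical
  set M : W.H (P.X.prod Q.X) → Prop := fun x => AS W _ x ∧ th W P.D f x ∘ₗ B.t = th W P.D f x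
    with hM
  have hMr : RatSub W.K M := by
    refine ⟨⟨AS.zero, ?_⟩, ?_, ?_⟩
    · have h0 : th W P.D f (0 : W.H (P.X.prod Q.X)) = 0 := (thL W P Q f).map_zero
      rw [h0, LinearMap.zero_comp]
    · rintro x y ⟨hx, hx'⟩ ⟨hy, hy'⟩
      refine ⟨hx.add hy, ?_⟩
      have h1 : th W P.D f (x + y) = th W P.D f x + th W P.D f y := (thL W P Q f).map_add x y
      rw [h1, LinearMap.add_comp, hx', hy']
    · rintro q x ⟨hx, hx'⟩
      refine ⟨hx.smul q, ?_⟩
      have h1 : th W P.D f ((q : W.K) • x) = (q : W.K) • th W P.D f x :=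
        (thL W P Q f).map_smul _ x
      rw [h1, LinearMap.smul_comp, hx']
  have hPQ := hP.prod hQ
  have hpa := hPO.pa hP hQ
  set β : W.H (P.X.prod Q.X) →ₗ[W.K] W.H (P.X.prod Q.X) →ₗ[W.K] W.K :=
    bf W (P.X.prod Q.X) (ops.pull (fst P.X Q.X) P.D + ops.pull (snd P.X Q.X) Q.D)
      (extSum W f g) with hβ
  obtain ⟨N, ε, w, hε, hw, horth, hspan⟩ := exists_ratBasis hMr β
    (fun x y hx hy => hPQ.F.bf_rat hx.1 hy.1) (fun x y hx _ => hPQ.bf_as hx.1 y)
    (fun x hx hx0 => hpa x hx.1 hx0)
  -- the expansion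
  have hexp : ∀ x ∈ Submodule.span W.K {y | M y}, x = ∑ k, ((w k : W.K)⁻¹ *
      β (ε k) x) • ε k := by
    apply ratBasis_exp hw horth
    intro x hx
    exact hspan x (Submodule.subset_span hx) (fun k => hPQ.F.bf_rat hx.1 (hε k).1)
  -- the combinations of algebraic classes cut down by the projector
  have hcut : ∀ y ∈ ASp W (P.X.prod Q.X), ∃ y' ∈ Submodule.span W.K {y | M y},
      th W P.D f y' = th W P.D f y ∘ₗ B.t := by
    intro y hy
    induction hy using Submodule.span_induction with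
    | mem y hy =>
      obtain ⟨y', hy', h1⟩ := hP.exists_th (AOp.comp (hP.th_aop hy) (hP.t_aop B))
      refine ⟨y', Submodule.subset_span ⟨hy', ?_⟩, h1⟩
      rw [h1]
      apply LinearMap.ext
      intro z
      simp only [LinearMap.comp_apply]
      rw [B.t_t]
    | zero =>
      refine ⟨0, Submodule.zero_mem _, ?_⟩
      have h0 : th W P.D f (0 : W.H (P.X.prod Q.X)) = 0 := (thL W P Q f).map_zero
      rw [h0, LinearMap.zero_comp]
    | add a b _ _ ha hb =>
      obtain ⟨a', ha1, ha2⟩ := ha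
      obtain ⟨b', hb1, hb2⟩ := hb
      refine ⟨a' + b', Submodule.add_mem _ ha1 hb1, ?_⟩
      have h1 : th W P.D f (a' + b') = th W P.D f a' + th W P.D f b' :=
        (thL W P Q f).map_add _ _
      have h2 : th W P.D f (a + b) = th W P.D f a + th W P.D f b := (thL W P Q f).map_add _ _
      rw [h1, h2, LinearMap.add_comp, ha2, hb2]
    | smul c a _ ha =>
      obtain ⟨a', ha1, ha2⟩ := ha
      refine ⟨c • a', Submodule.smul_mem _ _ ha1, ?_⟩
      have h1 : th W P.D f (c • a') = c • th W P.D f a' := (thL W P Q f).map_smul _ _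
      have h2 : th W P.D f (c • a) = c • th W P.D f a := (thL W P Q f).map_smul _ _
      rw [h1, h2, LinearMap.smul_comp, ha2]
  -- the main identity
  have hmain : ∀ (a : W.H P.X) (b : W.H Q.X),
      (bf W P.X P.D f (B.t a)).smulRight (B'.t b) = ∑ k, ((w k : W.K)⁻¹ *
        bf W Q.X Q.D g (th W P.D f (ε k) (B.t a)) (B'.t b)) • th W P.D f (ε k) := by
    intro a b
    refine gr_induction (W.isInternal P.X) (p := fun a =>
      (bf W P.X P.D f (B.t a)).smulRight (B'.t b) = ∑ k, ((w k : W.K)⁻¹ *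
        bf W Q.X Q.D g (th W P.D f (ε k) (B.t a)) (B'.t b)) • th W P.D f (ε k)) ?_ ?_ a
    swap
    · intro a a' h h'
      have e1 : (bf W P.X P.D f (B.t (a + a'))).smulRight (B'.t b) =
          (bf W P.X P.D f (B.t a)).smulRight (B'.t b) +
            (bf W P.X P.D f (B.t a')).smulRight (B'.t b) := by
        apply LinearMap.ext
        intro z
        simp only [LinearMap.smulRight_apply, map_add, LinearMap.add_apply, add_smul]
      rw [e1, h, h', ← Finset.sum_add_distrib]
      apply Finset.sum_congr rfl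
      intro k _
      rw [map_add, map_add, map_add, LinearMap.add_apply, mul_add, add_smul]
    intro i a ha
    refine gr_induction (W.isInternal Q.X) (p := fun b =>
      (bf W P.X P.D f (B.t a)).smulRight (B'.t b) = ∑ k, ((w k : W.K)⁻¹ *
        bf W Q.X Q.D g (th W P.D f (ε k) (B.t a)) (B'.t b)) • th W P.D f (ε k)) ?_ ?_ b
    swap
    · intro b b' h h'
      have e1 : (bf W P.X P.D f (B.t a)).smulRight (B'.t (b + b')) =
          (bf W P.X P.D f (B.t a)).smulRight (B'.t b) +
            (bf W P.X P.D f (B.t a)).smulRight (B'.t b') := by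
        apply LinearMap.ext
        intro z
        simp only [LinearMap.smulRight_apply, map_add, LinearMap.add_apply, smul_add]
      rw [e1, h, h', ← Finset.sum_add_distrib]
      apply Finset.sum_congr rfl
      intro k _
      rw [map_add, map_add, mul_add, add_smul]
    intro j b hb
    have hr := rk_eq hP hQ hT ha hb
    obtain ⟨y', hy', h1⟩ := hcut _ (hT _ _ (B.t_t a) (B'.t_t b))
    have h2 : th W P.D f (ext W (B.t a) (B'.t b)) ∘ₗ B.t =
        th W P.D f (ext W (B.t a) (B'.t b)) := by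
      rw [hr]
      apply LinearMap.ext
      intro z
      rw [LinearMap.comp_apply, LinearMap.smulRight_apply, LinearMap.smulRight_apply,
        ← hP.t_adj B, B.t_t]
    have h3 : y' = ext W (B.t a) (B'.t b) := by
      rw [← sub_eq_zero]
      apply hP.th_inj
      have h4 : th W P.D f (y' - ext W (B.t a) (B'.t b)) =
          th W P.D f y' - th W P.D f (ext W (B.t a) (B'.t b)) := (thL W P Q f).map_sub _ _
      rw [h4, h1, h2, sub_self]
    rw [h3] at hy'
    have h5 := congrArg (thL W P Q f) (hexp _ hy')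
    rw [thL_apply, hr, map_sum] at h5
    rw [h5]
    apply Finset.sum_congr rfl
    intro k _
    rw [map_smul, thL_apply]
    congr 2
    exact bf_th hP hQ (hε k).1 _ _
  -- adjoints
  choose C hC hC' using fun k => hP.adj hQ (hP.th_aop (hε k).1)
  have hCt : ∀ k (b : W.H Q.X), B.t (C k b) = C k b := by
    intro k b
    rw [← sub_eq_zero]
    apply hP.nondeg
    intro a
    have h1 := congrArg (fun G => G a) (hε k).2
    simp only [LinearMap.comp_apply] at h1
    rw [map_sub, sub_eq_zero, ← hP.t_adj B, ← hC' k, ← hC' k, h1]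
  have hCB : ∀ k (b : W.H Q.X), C k (B'.t b) = C k b := by
    intro k b
    rw [hQ.t_comm hP B' B (hC k), hCt]
  -- the trace of the projector
  obtain ⟨d, hd, hd'⟩ : ∃ d : ℚ, 0 < d ∧ LinearMap.trace W.K (W.H P.X) B.t = d := by
    have hproj : LinearMap.IsProj (LinearMap.range B.t) B.t := by
      refine ⟨fun x => ⟨x, rfl⟩, ?_⟩
      rintro _ ⟨x, rfl⟩
      exact B.t_t x
    refine ⟨Module.finrank W.K (LinearMap.range B.t), ?_, ?_⟩
    · have h1 : LinearMap.range B.t ≠ ⊥ := fun h0 => ht (LinearMap.range_eq_bot.1 h0)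
      have h2 : 0 < Module.finrank W.K (LinearMap.range B.t) := by
        rw [Nat.pos_iff_ne_zero]
        intro h3
        exact h1 (Submodule.finrank_eq_zero.1 h3)
      exact_mod_cast h2
    · rw [hproj.trace]; push_cast; rfl
  have hd0 : (d : W.K) ≠ 0 := by exact_mod_cast hd.ne'
  have hfin : ∀ b : W.H Q.X, (d : W.K) • B'.t b =
      ∑ k, (w k : W.K)⁻¹ • th W P.D f (ε k) (C k b) := by
    intro b
    rw [← sub_eq_zero]
    apply hQ.nondeg
    intro b'
    set ψ : W.H Q.X →ₗ[W.K] W.K := bf W Q.X Q.D g b' with hψ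
    have h1 : (ψ (B'.t b)) • (B.t : Module.End W.K (W.H P.X)) =
        ∑ k, (w k : W.K)⁻¹ • (ψ ∘ₗ th W P.D f (ε k)).smulRight (C k b) := by
      apply LinearMap.ext
      intro x
      rw [← sub_eq_zero]
      apply hP.nondeg
      intro a
      have h2 := congrArg (fun G : W.H P.X →ₗ[W.K] W.H Q.X => ψ (G x)) (hmain a b)
      simp only [LinearMap.smulRight_apply, map_smul, LinearMap.sum_apply, map_sum,
        LinearMap.smul_apply, smul_eq_mul] at h2
      rw [map_sub, sub_eq_zero, LinearMap.smul_apply, map_smul, smul_eq_mul, ← hP.t_adj B,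
        mul_comm, h2, LinearMap.sum_apply, map_sum]
      apply Finset.sum_congr rfl
      intro k _
      rw [LinearMap.smul_apply, map_smul, LinearMap.smulRight_apply, map_smul,
        LinearMap.comp_apply, smul_eq_mul, smul_eq_mul, hC' k, hCB, hP.t_adj B, hCt]
      ring
    have h3 := congrArg (LinearMap.trace W.K (W.H P.X)) h1
    rw [map_smul, hd', map_sum, smul_eq_mul] at h3
    rw [map_sub, sub_eq_zero, map_smul, smul_eq_mul, mul_comm, h3, map_sum]
    apply Finset.sum_congr rfl
    intro k _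
    rw [map_smul, LinearMap.trace_smulRight, map_smul, LinearMap.comp_apply]
  refine ⟨N, fun k => (d * w k)⁻¹, C, fun k => th W P.D f (ε k),
    fun k => inv_pos.2 (mul_pos hd (hw k)), hC, fun k => hP.th_aop (hε k).1,
    fun k => Adj.symm hP hQ (hP.th_aop (hε k).1) (hC' k), ?_⟩
  apply LinearMap.ext
  intro b
  have h1 := congrArg (fun x => (d : W.K)⁻¹ • x) (hfin b)
  simp only [smul_smul, inv_mul_cancel₀ hd0, one_smul] at h1
  rw [h1, Finset.smul_sum, LinearMap.sum_apply]
  apply Finset.sum_congr rfl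
  intro k _
  rw [smul_smul, LinearMap.smul_apply, LinearMap.comp_apply]
  congr 1
  push_cast
  rw [mul_inv]

end Pool.Agent.W552
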