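import Pool.Agent.W552.SsGd

/-!
# Positivity of algebraic operators
-/

open CategoryTheory AlgebraicGeometry

universe u v w

namespace Pool.Agent.W552

open Pool.Agent.H914 Pool.Agent.H914.VarClass Pool.Agent.H914.VarClass.Obj
  Pool.Agent.H914.WeilCohomology Pool.Agent.H281R3.HT Pool.Agent.H447

variable {k : Type u} [Field k] {𝒱 : VarClass k} {ops : CycleOps 𝒱}
  {W : WeilCohomology.{u, v} ops} {P Q R : Polarized 𝒱} {f : Module.End W.K (W.H P.X)}
  {g : Module.End W.K (W.H Q.X)} {h : Module.End W.K (W.H R.X)}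

lemma AOp.par_comm {X Y : 𝒱.Obj} {u : W.H X →ₗ[W.K] W.H Y} (hu : AOp W X Y u) (a : W.H X) :
    u (par (W.isInternal X) a) = par (W.isInternal Y) (u a) := by
  obtain ⟨c, hc, rfl⟩ := hu
  exact (congrArg (fun G => G a) (par_corr hc)).symm

/-- The operators `u` and `v` are adjoint. -/
def Adj (W : WeilCohomology.{u, v} ops) (P : Polarized 𝒱) (f : Module.End W.K (W.H P.X))
    (Q : Polarized 𝒱) (g : Module.End W.K (W.H Q.X)) (u : W.H P.X →ₗ[W.K] W.H Q.X)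
    (v : W.H Q.X →ₗ[W.K] W.H P.X) : Prop :=
  ∀ a b, bf W Q.X Q.D g (u a) b = bf W P.X P.D f a (v b)

namespace Gd

lemma nondeg (hP : Gd W P f) {z : W.H P.X} (hz : ∀ y, bf W P.X P.D f y z = 0) : z = 0 := by
  have h1 : st W P.X P.D f z = 0 := nondeg_right (fun b => hz b)
  have h2 := congrArg (st W P.X P.D f) h1
  rwa [← Module.End.mul_apply, hP.sq, Module.End.one_apply, map_zero] at h2

lemma nondeg_left (hP : Gd W P f) {z : W.H P.X} (hz : ∀ y, bf W P.X P.D f z y = 0) : z = 0 := by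
  apply hP.nondeg
  intro y
  have h1 := hP.sy z (par (W.isInternal P.X) y)
  have h2 : par (W.isInternal P.X) (par (W.isInternal P.X) y) = y :=
    congrArg (fun G => G y) (par_mul_par (W.isInternal P.X))
  rw [h2, hz] at h1
  exact h1.symm

lemma th_aop (hP : Gd W P f) {x : W.H (P.X.prod Q.X)} (hx : AS W _ x) :
    AOp W P.X Q.X (th W P.D f x) :=
  AOp.comp ⟨x, hx, rfl⟩ ((W552.par_aop hP.ap).mul (st_aop hP.F hP.ap))

lemma corr_of_th (hP : Gd W P f) (x : W.H (P.X.prod Q.X)) : W.corr x =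
    th W P.D f x ∘ₗ (st W P.X P.D f * H914.par (W.isInternal P.X)) := by
  rw [th]
  apply LinearMap.ext
  intro a
  simp only [LinearMap.comp_apply, Module.End.mul_apply]
  rw [← Module.End.mul_apply (st W P.X P.D f) (st W P.X P.D f), hP.sq,
    Module.End.one_apply, ← Module.End.mul_apply, par_mul_par, Module.End.one_apply]

lemma th_inj (hP : Gd W P f) {x : W.H (P.X.prod Q.X)} (hx : th W P.D f x = 0) : x = 0 := by
  apply corr_inj
  rw [corr_of_th hP, hx, LinearMap.zero_comp]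

lemma exists_th (hP : Gd W P f) {u : W.H P.X →ₗ[W.K] W.H Q.X} (hu : AOp W P.X Q.X u) :
    ∃ x, AS W _ x ∧ th W P.D f x = u := by
  obtain ⟨x, hx, hx'⟩ := AOp.comp hu ((st_aop hP.F hP.ap).mul (W552.par_aop hP.ap))
  refine ⟨x, hx, ?_⟩
  rw [th, hx']
  apply LinearMap.ext
  intro a
  simp only [LinearMap.comp_apply, Module.End.mul_apply]
  rw [← Module.End.mul_apply (H914.par (W.isInternal P.X)) (H914.par (W.isInternal P.X)),
    par_mul_par, Module.End.one_apply, ← Module.End.mul_apply, hP.sq, Module.End.one_apply]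

/-- The adjoint of an algebraic operator. -/
lemma adj (hP : Gd W P f) (hQ : Gd W Q g) {u : W.H P.X →ₗ[W.K] W.H Q.X}
    (hu : AOp W P.X Q.X u) : ∃ v, AOp W Q.X P.X v ∧ Adj W P f Q g u v := by
  obtain ⟨c, hc, rfl⟩ := hu
  refine ⟨st W P.X P.D f ∘ₗ W.corr (W.map (swap Q.X P.X) c) ∘ₗ st W Q.X Q.D g,
    AOp.comp (st_aop hP.F hP.ap) (AOp.comp ⟨_, hc.map _, rfl⟩ (st_aop hQ.F hQ.ap)), ?_⟩
  intro a b
  rw [bf_apply, hc.tr_corr, bf_apply]
  congr 2
  simp only [LinearMap.comp_apply]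
  rw [← Module.End.mul_apply (st W P.X P.D f), hP.sq, Module.End.one_apply]

end Gd

lemma Adj.symm (hP : Gd W P f) (hQ : Gd W Q g) {u : W.H P.X →ₗ[W.K] W.H Q.X}
    {v : W.H Q.X →ₗ[W.K] W.H P.X} (hu : AOp W P.X Q.X u) (huv : Adj W P f Q g u v) :
    Adj W Q g P f v u := by
  intro b a
  rw [hP.sy, ← huv, hu.par_comm, ← hQ.sy]

lemma Adj.comp {u : W.H P.X →ₗ[W.K] W.H Q.X} {v : W.H Q.X →ₗ[W.K] W.H P.X}
    {u' : W.H Q.X →ₗ[W.K] W.H R.X} {v' : W.H R.X →ₗ[W.K] W.H Q.X} (h1 : Adj W P f Q g u v)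
    (h2 : Adj W Q g R h u' v') : Adj W P f R h (u' ∘ₗ u) (v ∘ₗ v') := by
  intro a b
  rw [LinearMap.comp_apply, h2, h1, LinearMap.comp_apply]

lemma Adj.eq_zero (hP : Gd W P f) {u : W.H P.X →ₗ[W.K] W.H Q.X}
    {v : W.H Q.X →ₗ[W.K] W.H P.X} (huv : Adj W P f Q g u v) (hu : u = 0) : v = 0 := by
  apply LinearMap.ext
  intro b
  apply hP.nondeg
  intro a
  rw [← huv, hu, LinearMap.zero_apply, map_zero, LinearMap.zero_apply]

/-- Positivity of the algebraic operators from `H(P)` to `H(Q)`. -/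
def PO (W : WeilCohomology.{u, v} ops) (P : Polarized 𝒱) (f : Module.End W.K (W.H P.X))
    (Q : Polarized 𝒱) (g : Module.End W.K (W.H Q.X)) : Prop :=
  ∀ u v, AOp W P.X Q.X u → AOp W Q.X P.X v → Adj W P f Q g u v → u ≠ 0 →
    ∃ q : ℚ, 0 < q ∧ LinearMap.trace W.K (W.H P.X) (v ∘ₗ u) = q

/-- Positivity of the algebraic classes on `P`. -/
def PA (W : WeilCohomology.{u, v} ops) (P : Polarized 𝒱) (f : Module.End W.K (W.H P.X)) : Prop :=
  ∀ x, AS W P.X x → x ≠ 0 → ∃ q : ℚ, 0 < q ∧ bf W P.X P.D f x x = q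

lemma PO.of_pa (hP : Gd W P f) (hQ : Gd W Q g) (h : PA W (P.prod ops Q) (extSum W f g)) :
    PO W P f Q g := by
  intro u v hu hv huv hu0
  obtain ⟨x, hx, hxu⟩ := hP.exists_th hu
  have hx0 : x ≠ 0 := by
    rintro rfl
    apply hu0
    rw [← hxu, th, corr_zero, LinearMap.zero_comp]
  obtain ⟨q, hq, hq'⟩ := h x hx hx0
  refine ⟨q, hq, ?_⟩
  rw [← hq', ← hxu]
  exact trace_th hP.F hQ.F hx (fun a b => by rw [hxu]; exact huv a b)

lemma PO.pa (hP : Gd W P f) (hQ : Gd W Q g) (h : PO W P f Q g) :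
    PA W (P.prod ops Q) (extSum W f g) := by
  intro x hx hx0
  obtain ⟨v, hv, huv⟩ := hP.adj hQ (hP.th_aop hx)
  obtain ⟨q, hq, hq'⟩ := h _ v (hP.th_aop hx) hv huv (fun h0 => hx0 (hP.th_inj h0))
  refine ⟨q, hq, ?_⟩
  rw [← hq']
  exact (trace_th hP.F hQ.F hx huv).symm

lemma PO.swap (hP : Gd W P f) (hQ : Gd W Q g) (h : PO W P f Q g) : PO W Q g P f := by
  intro v u hv hu hvu hv0
  have huv : Adj W P f Q g u v := Adj.symm hQ hP hv hvu
  obtain ⟨q, hq, hq'⟩ := h u v hu hv huv (fun h0 => hv0 (huv.eq_zero hP h0))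
  refine ⟨q, hq, ?_⟩
  rw [← hq', LinearMap.trace_comp_comm']

end Pool.Agent.W552
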