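import Pool.Agent.W552.SsOd

/-!
# Products of supersingular varieties
-/

open CategoryTheory AlgebraicGeometry

universe u v w

namespace Pool.Agent.W552

open Pool.Agent.H914 Pool.Agent.H914.VarClass Pool.Agent.H914.VarClass.Obj
  Pool.Agent.H914.WeilCohomology Pool.Agent.H281R3.HT Pool.Agent.H447

variable {k : Type u} [Field k] {𝒱 : VarClass k} {ops : CycleOps 𝒱}
  {W : WeilCohomology.{u, v} ops} {E P Q R : Polarized 𝒱} {e : Module.End W.K (W.H E.X)}
  {f : Module.End W.K (W.H P.X)} {g : Module.End W.K (W.H Q.X)}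

lemma ext_add_r {X Y : 𝒱.Obj} (a : W.H X) (b b' : W.H Y) :
    ext W a (b + b') = ext W a b + ext W a b' := by
  simp only [H281R3.HT.ext, map_add, mul_add]

lemma ext_smul_r {X Y : 𝒱.Obj} (c : W.K) (a : W.H X) (b : W.H Y) :
    ext W a (c • b) = c • ext W a b := by
  simp only [H281R3.HT.ext, map_smul, mul_smul_comm]

lemma ext_zero_r {X Y : 𝒱.Obj} (a : W.H X) : ext W a (0 : W.H Y) = 0 := by
  simp only [H281R3.HT.ext, map_zero, mul_zero]

lemma ext_sum_r {X Y : 𝒱.Obj} {ι : Type*} (s : Finset ι) (a : W.H X) (b : ι → W.H Y) :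
    ext W a (∑ i ∈ s, b i) = ∑ i ∈ s, ext W a (b i) := by
  simp only [H281R3.HT.ext, map_sum, Finset.mul_sum]

lemma ext_sum_l {X Y : 𝒱.Obj} {ι : Type*} (s : Finset ι) (a : ι → W.H X) (b : W.H Y) :
    ext W (∑ i ∈ s, a i) b = ∑ i ∈ s, ext W (a i) b := by
  simp only [H281R3.HT.ext, map_sum, Finset.sum_mul]

namespace ASp

variable {X Y : 𝒱.Obj}

lemma of {x : W.H X} (hx : AS W X x) : x ∈ ASp W X := Submodule.subset_span hx

lemma map (φ : X ⟶ Y) {x : W.H Y} (hx : x ∈ ASp W Y) : W.map φ x ∈ ASp W X := by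
  induction hx using Submodule.span_induction with
  | mem x hx => exact of (AS.map φ hx)
  | zero => rw [map_zero]; exact Submodule.zero_mem _
  | add a b _ _ ha hb => rw [map_add]; exact Submodule.add_mem _ ha hb
  | smul c a _ ha => rw [map_smul]; exact Submodule.smul_mem _ _ ha

lemma mul_as {x y : W.H X} (hx : x ∈ ASp W X) (hy : AS W X y) : x * y ∈ ASp W X := by
  induction hx using Submodule.span_induction with
  | mem x hx => exact of (AS.mul hx hy)
  | zero => rw [zero_mul]; exact Submodule.zero_mem _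
  | add a b _ _ ha hb => rw [add_mul]; exact Submodule.add_mem _ ha hb
  | smul c a _ ha => rw [smul_mul_assoc]; exact Submodule.smul_mem _ _ ha

lemma mul {x y : W.H X} (hx : x ∈ ASp W X) (hy : y ∈ ASp W X) : x * y ∈ ASp W X := by
  induction hy using Submodule.span_induction with
  | mem y hy => exact mul_as hx hy
  | zero => rw [mul_zero]; exact Submodule.zero_mem _
  | add a b _ _ ha hb => rw [mul_add]; exact Submodule.add_mem _ ha hb
  | smul c a _ ha => rw [mul_smul_comm]; exact Submodule.smul_mem _ _ ha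

lemma ext {x : W.H X} {y : W.H Y} (hx : x ∈ ASp W X) (hy : y ∈ ASp W Y) :
    H281R3.HT.ext W x y ∈ ASp W (X.prod Y) := mul (map _ hx) (map _ hy)

end ASp

/-- Composition with an algebraic operator. -/
lemma exists_cut {P Q R : Polarized 𝒱} {f : Module.End W.K (W.H P.X)}
    {h : Module.End W.K (W.H R.X)} (hP : Gd W P f) (hR : Gd W R h)
    {a : W.H R.X →ₗ[W.K] W.H P.X} (ha : AOp W R.X P.X a) :
    ∀ y ∈ ASp W (P.X.prod Q.X), ∃ y' ∈ ASp W (R.X.prod Q.X),
      th W R.D h y' = th W P.D f y ∘ₗ a := by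
  intro y hy
  induction hy using Submodule.span_induction with
  | mem y hy =>
    obtain ⟨y', hy', h1⟩ := hR.exists_th (AOp.comp (hP.th_aop hy) ha)
    exact ⟨y', ASp.of hy', h1⟩
  | zero =>
    refine ⟨0, Submodule.zero_mem _, ?_⟩
    have h0 : th W P.D f (0 : W.H (P.X.prod Q.X)) = 0 := (thL W P Q f).map_zero
    have h0' : th W R.D h (0 : W.H (R.X.prod Q.X)) = 0 := (thL W R Q h).map_zero
    rw [h0, h0', LinearMap.zero_comp]
  | add b c _ _ hb hc =>
    obtain ⟨b', hb1, hb2⟩ := hb
    obtain ⟨c', hc1, hc2⟩ := hc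
    refine ⟨b' + c', Submodule.add_mem _ hb1 hc1, ?_⟩
    have h1 : th W R.D h (b' + c') = th W R.D h b' + th W R.D h c' := (thL W R Q h).map_add _ _
    have h2 : th W P.D f (b + c) = th W P.D f b + th W P.D f c := (thL W P Q f).map_add _ _
    rw [h1, h2, LinearMap.add_comp, hb2, hc2]
  | smul r b _ hb =>
    obtain ⟨b', hb1, hb2⟩ := hb
    refine ⟨r • b', Submodule.smul_mem _ _ hb1, ?_⟩
    have h1 : th W R.D h (r • b') = r • th W R.D h b' := (thL W R Q h).map_smul _ _
    have h2 : th W P.D f (r • b) = r • th W P.D f b := (thL W P Q f).map_smul _ _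
    rw [h1, h2, LinearMap.smul_comp, hb2]

/-- A variety whose transcendental part is supersingular relative to `E`. -/
structure SS (B : RB W E e) (P : Polarized 𝒱) (f : Module.End W.K (W.H P.X)) : Prop where
  gd : Gd W P f
  pa : PA W P f
  po : PO W E e P f
  tt : ∀ B' : RB W P f, TTA B B'

section

variable {B : RB W E e} (hE : Gd W E e) (hB : B.t ≠ 0)

include hE hB

/-- Positivity of the operators to `Q`. -/
theorem po_of_ss (hP : SS B P f) (hQ : Gd W Q g) (hA : PA W Q g) (hPO : PO W E e Q g) :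
    PO W P f Q g := by
  obtain ⟨B'⟩ := hP.gd.exists_rb hP.pa
  obtain ⟨n, c, a, b, hc, ha, hb, hab, hsum⟩ := exists_od hE hP.gd (hP.tt B') hP.po hB
  apply PO.of_t B' hA
  intro U Us hU hUs hUUs
  rw [hsum]
  exact NN.sum _ fun k _ => NN.fac hP.gd hE hPO hU hUs hUUs (hc k) (ha k) (hb k) (hab k)

/-- The transcendental parts of two supersingular varieties. -/
theorem tta_of_ss (hP : SS B P f) (hQ : SS B Q g) (B' : RB W P f) (B'' : RB W Q g) :
    TTA B' B'' := by
  classical
  obtain ⟨n, c, a, b, hc, ha, hb, hab, hsum⟩ := exists_od hE hP.gd (hP.tt B') hP.po hB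
  have h0 : ∃ m, ∃ x ∈ W.gr E.X m, B.t x = x ∧ x ≠ 0 := by
    by_contra hcon
    push Not at hcon
    apply hB
    apply gr_ext (W.isInternal E.X)
    intro i x hx
    exact hcon i (B.t x) (t_gr hE B hx) (B.t_t x)
  obtain ⟨m, x, hx, htx, hx0⟩ := h0
  -- homogeneous elements
  have key : ∀ {i j : ℕ} (y : W.H P.X) (z : W.H Q.X), y ∈ W.gr P.X i → z ∈ W.gr Q.X j →
      ext W (B'.t y) (B''.t z) ∈ ASp W (P.X.prod Q.X) := by
    intro i j y z hy hz
    by_cases h1 : B'.t y = 0
    · rw [h1, ext_zero_left]; exact Submodule.zero_mem _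
    by_cases h2 : B''.t z = 0
    · rw [h2, ext_zero_r]; exact Submodule.zero_mem _
    have hy' := t_gr hP.gd B' hy
    have hz' := t_gr hQ.gd B'' hz
    have e1 := tta_even hE hP.gd (hP.tt B') hx hy' htx (B'.t_t y) hx0 h1
    have e2 := tta_even hE hQ.gd (hQ.tt B'') hx hz' htx (B''.t_t z) hx0 h2
    have hij : Even (i + j) := by
      have h3 : Even (m + i + (m + j)) := e1.add e2
      rw [show m + i + (m + j) = (i + j) + 2 * m by ring] at h3
      exact (Nat.even_add.1 h3).2 (even_two_mul m)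
    have hT := hQ.tt B''
    have h3 : ∀ k, ext W (B.t (a k (B'.t y))) (B''.t z) ∈ ASp W (E.X.prod Q.X) := fun k =>
      hT _ _ (B.t_t _) (B''.t_t _)
    choose s hs hs' using fun k => exists_cut (Q := Q) hE hP.gd (ha k) _ (h3 k)
    have h4 : ext W (B'.t y) (B''.t z) = ∑ k, (c k : W.K) • s k := by
      rw [← sub_eq_zero]
      apply hP.gd.th_inj
      have h5 : th W P.D f (ext W (B'.t y) (B''.t z) - ∑ k, (c k : W.K) • s k) =
          th W P.D f (ext W (B'.t y) (B''.t z)) - ∑ k, (c k : W.K) • th W P.D f (s k) := by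
        rw [← thL_apply (Q := Q), ← thL_apply (Q := Q), map_sub, map_sum]
        congr 1
        apply Finset.sum_congr rfl
        intro k _
        rw [map_smul]
        rfl
      rw [h5, sub_eq_zero]
      apply LinearMap.ext
      intro r
      rw [th_ext hP.gd.F hy' hz' hij, LinearMap.sum_apply]
      have h6 : B'.t y = ∑ k, (c k : W.K) • b k (a k (B'.t y)) := by
        have h9 := congrArg (fun G => G (B'.t y)) hsum
        simp only [LinearMap.sum_apply] at h9
        rw [B'.t_t] at h9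
        exact h9
      have h7 : bf W P.X P.D f (B'.t y) r =
          ∑ k, (c k : W.K) * bf W P.X P.D f (b k (a k (B'.t y))) r := by
        conv_lhs => rw [h6]
        rw [map_sum, LinearMap.sum_apply]
        apply Finset.sum_congr rfl
        intro k _
        rw [map_smul, LinearMap.smul_apply, smul_eq_mul]
      rw [h7, Finset.sum_smul]
      apply Finset.sum_congr rfl
      intro k _
      rw [LinearMap.smul_apply, hs', LinearMap.comp_apply, rk_eq' hE hQ.gd hT,
        LinearMap.smulRight_apply, mul_smul]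
      congr 2
      have h8 : B.t (a k (B'.t y)) = a k (B'.t y) := by
        rw [← hP.gd.t_comm hE B' B (ha k), B'.t_t]
      rw [h8]
      exact Adj.symm hP.gd hE (ha k) (hab k) _ _
    rw [h4]
    exact Submodule.sum_mem _ fun k _ => Submodule.smul_mem _ _ (hs k)
  intro y z hy hz
  rw [← hy, ← hz]
  refine gr_induction (W.isInternal P.X) (p := fun y =>
    ext W (B'.t y) (B''.t z) ∈ ASp W (P.X.prod Q.X)) ?_ ?_ y
  swap
  · intro y y' h h'
    rw [map_add, ext_add_left]
    exact Submodule.add_mem _ h h'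
  intro i y hy
  refine gr_induction (W.isInternal Q.X) (p := fun z =>
    ext W (B'.t y) (B''.t z) ∈ ASp W (P.X.prod Q.X)) ?_ ?_ z
  swap
  · intro z z' h h'
    rw [map_add, ext_add_r]
    exact Submodule.add_mem _ h h'
  intro j z hz
  exact key y z hy hz

end

end Pool.Agent.W552
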