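import Pool.Agent.W552.Theta
import Pool.Agent.W552.ConjSys

/-!
# Systems of classes on products of pairs of varieties and the antilinear structure
-/

open CategoryTheory AlgebraicGeometry
open scoped ComplexOrder

universe u v w

namespace Pool.Agent.W552

open Pool.Agent.H914 Pool.Agent.H914.VarClass Pool.Agent.H914.VarClass.Obj
  Pool.Agent.H914.WeilCohomology Pool.Agent.H281R3.HT Pool.Agent.H447

variable {k : Type u} [Field k] {𝒱 : VarClass k} {ops : CycleOps 𝒱}
  {W : WeilCohomology.{u, v} ops}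

/-- A system of algebraic classes on the products of two members of a family of polarized
varieties, closed under composition and transposition, with a positive definite form. -/
structure RSys (W : WeilCohomology.{u, v} ops) {Λ : Type} (X : Λ → 𝒱.Obj)
    (D : ∀ a, (X a).Cycles) (f : ∀ a, Module.End W.K (W.H (X a)))
    (R : ∀ a b, W.H ((X a).prod (X b)) → Prop) : Prop where
  fr : ∀ a, Fr W (X a) (D a) (f a)
  ls : ∀ a, LefStr (W.isInternal (X a)) (X a).dim (LinearMap.mulLeft W.K (W.cl (X a) (D a))) (f a)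
  rat : ∀ a b, RatSub W.K (R a b)
  alg : ∀ {a b x}, R a b x → AS W _ x
  comp : ∀ {a b c x y}, R a b x → R b c y → ∃ z, R a c z ∧ W.corr z = W.corr y ∘ₗ W.corr x
  swp : ∀ {a b x}, R a b x → R b a (W.map (swap (X b) (X a)) x)
  one : ∀ a, ∃ x, R a a x ∧ W.corr x = (1 : Module.End W.K (W.H (X a)))
  star : ∀ a, ∃ x, R a a x ∧ W.corr x = st W (X a) (D a) (f a)
  par : ∀ a, ∃ x, R a a x ∧ W.corr x = par (W.isInternal (X a))
  pos : ∀ {a b x}, R a b x → x ≠ 0 → ∃ q : ℚ, 0 < q ∧
    bf W ((X a).prod (X b)) (ops.pull (fst (X a) (X b)) (D a) + ops.pull (snd (X a) (X b)) (D b))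
      (extSum W (f a) (f b)) x x = q

section Mat

variable {Λ : Type} [Fintype Λ] [DecidableEq Λ] {X : Λ → 𝒱.Obj}
  (b : ∀ a, HB W (X a))

/-- The index type. -/
abbrev Ix := Σ a, Fin (b a).N

/-- The linear map given by a block of a matrix. -/
noncomputable def blk (A : Matrix (Ix b) (Ix b) W.K) (a c : Λ) :
    W.H (X a) →ₗ[W.K] W.H (X c) :=
  Matrix.toLin (b a).e (b c).e (Matrix.of fun (q : Fin (b c).N) (p : Fin (b a).N) =>
    A (⟨c, q⟩ : Ix b) (⟨a, p⟩ : Ix b))

/-- The matrix of a family of linear maps. -/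
noncomputable def mat (U : ∀ a c, W.H (X a) →ₗ[W.K] W.H (X c)) :
    Matrix (Ix b) (Ix b) W.K :=
  Matrix.of fun y x => (b y.1).e.repr (U x.1 y.1 ((b x.1).e x.2)) y.2

variable {b}

omit [Fintype Λ] [DecidableEq Λ] in
lemma blk_apply (A : Matrix (Ix b) (Ix b) W.K) (a c : Λ)
    (r : Fin (b a).N) : blk b A a c ((b a).e r) = ∑ q, A (⟨c, q⟩ : Ix b) (⟨a, r⟩ : Ix b) • (b c).e q := by
  rw [blk, Matrix.toLin_self]
  rfl

omit [Fintype Λ] [DecidableEq Λ] in
lemma entry_eq (A : Matrix (Ix b) (Ix b) W.K) (a c : Λ)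
    (r : Fin (b a).N) (q : Fin (b c).N) :
    A (⟨c, q⟩ : Ix b) (⟨a, r⟩ : Ix b) = (b c).e.repr (blk b A a c ((b a).e r)) q := by
  rw [blk_apply, map_sum, Finsupp.finsetSum_apply, Finset.sum_eq_single q]
  · simp
  · intro q' _ hq
    rw [map_smul, Module.Basis.repr_self, Finsupp.smul_apply,
      Finsupp.single_eq_of_ne (Ne.symm hq), smul_zero]
  · intro h0; exact absurd (Finset.mem_univ _) h0

omit [Fintype Λ] [DecidableEq Λ] in
lemma blk_mat (U : ∀ a c, W.H (X a) →ₗ[W.K] W.H (X c)) (a c : Λ) :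
    blk b (mat b U) a c = U a c := by
  apply (b a).e.ext
  intro r
  rw [blk_apply]
  exact (b c).e.sum_repr (U a c ((b a).e r))

omit [Fintype Λ] [DecidableEq Λ] in
lemma mat_ext {A A' : Matrix (Ix b) (Ix b) W.K}
    (h : ∀ a c, blk b A a c = blk b A' a c) : A = A' := by
  ext ⟨c, q⟩ ⟨a, r⟩
  rw [entry_eq A, h, ← entry_eq A']

omit [DecidableEq Λ] in
lemma blk_mul (A A' : Matrix (Ix b) (Ix b) W.K) (a c : Λ) :
    blk b (A * A') a c = ∑ d, blk b A d c ∘ₗ blk b A' a d := by
  apply (b a).e.ext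
  intro r
  rw [blk_apply, LinearMap.sum_apply]
  simp only [LinearMap.comp_apply, blk_apply, map_sum, map_smul, Matrix.mul_apply,
    Fintype.sum_sigma, Finset.sum_smul, Finset.smul_sum, smul_smul]
  rw [Finset.sum_comm]
  apply Finset.sum_congr rfl
  intro d _
  rw [Finset.sum_comm]
  apply Finset.sum_congr rfl
  intro s _
  apply Finset.sum_congr rfl
  intro q _
  rw [mul_comm]

omit [Fintype Λ] [DecidableEq Λ] in
lemma blk_add (A A' : Matrix (Ix b) (Ix b) W.K) (a c : Λ) :
    blk b (A + A') a c = blk b A a c + blk b A' a c := by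
  rw [blk, blk, blk, ← map_add]; rfl

omit [Fintype Λ] [DecidableEq Λ] in
lemma blk_smul (r : W.K) (A : Matrix (Ix b) (Ix b) W.K) (a c : Λ) :
    blk b (r • A) a c = r • blk b A a c := by
  rw [blk, blk, ← map_smul]; rfl

omit [Fintype Λ] [DecidableEq Λ] in
lemma blk_zero (a c : Λ) : blk b 0 a c = 0 := by
  rw [blk]
  have : (Matrix.of fun (q : Fin (b c).N) (p : Fin (b a).N) =>
    (0 : Matrix (Ix b) (Ix b) W.K) (⟨c, q⟩ : Ix b) (⟨a, p⟩ : Ix b)) = 0 := rfl
  rw [this, map_zero]

omit [Fintype Λ] in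
lemma blk_one (a c : Λ) : blk b 1 a c = if h : a = c then
    (h ▸ (LinearMap.id : W.H (X a) →ₗ[W.K] W.H (X a))) else 0 := by
  apply (b a).e.ext
  intro r
  rw [blk_apply]
  by_cases h : a = c
  · subst h
    rw [dif_pos rfl, LinearMap.id_apply, Finset.sum_eq_single r]
    · rw [Matrix.one_apply_eq, one_smul]
    · intro q _ hq
      rw [Matrix.one_apply_ne, zero_smul]
      intro h0
      apply hq
      simpa using h0
    · intro h0; exact absurd (Finset.mem_univ _) h0
  · rw [dif_neg h, LinearMap.zero_apply, Finset.sum_eq_zero]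
    intro q _
    rw [Matrix.one_apply_ne, zero_smul]
    intro h0
    apply h
    exact (congrArg Sigma.fst h0).symm

variable (b) in
/-- The signs. -/
def eps (x : Ix b) : ℤ := (-1) ^ ((b x.1).dg x.2)

omit [Fintype Λ] in
lemma blk_eps (a c : Λ) : blk b (Matrix.diagonal (fun x => (eps b x : W.K))) a c =
    if h : a = c then (h ▸ (par (W.isInternal (X a)) : W.H (X a) →ₗ[W.K] W.H (X a)))
    else 0 := by
  apply (b a).e.ext
  intro r
  rw [blk_apply]
  by_cases h : a = c
  · subst h
    rw [dif_pos rfl, Finset.sum_eq_single r]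
    · rw [Matrix.diagonal_apply_eq, H914.par, scal_apply _ _ ((b a).mem r), eps]
      push_cast
      rfl
    · intro q _ hq
      rw [Matrix.diagonal_apply_ne, zero_smul]
      intro h0
      apply hq
      simpa using h0
    · intro h0; exact absurd (Finset.mem_univ _) h0
  · rw [dif_neg h, LinearMap.zero_apply, Finset.sum_eq_zero]
    intro q _
    rw [Matrix.diagonal_apply_ne, zero_smul]
    intro h0
    apply h
    exact (congrArg Sigma.fst h0).symm

variable (b) in
/-- The Gram matrix of a single variety. -/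
noncomputable def gram (D : ∀ a, (X a).Cycles) (f : ∀ a, Module.End W.K (W.H (X a))) (a : Λ) :
    Matrix (Fin (b a).N) (Fin (b a).N) W.K :=
  Matrix.of fun p q => bf W (X a) (D a) (f a) ((b a).e p) ((b a).e q)

variable {D : ∀ a, (X a).Cycles} {f : ∀ a, Module.End W.K (W.H (X a))}

lemma gB_mul (A : Matrix (Ix b) (Ix b) W.K) (a c : Λ)
    (r : Fin (b a).N) (s : Fin (b c).N) :
    (Matrix.blockDiagonal' (gram b D f) * A) (⟨a, r⟩ : Ix b) (⟨c, s⟩ : Ix b) =
      bf W (X a) (D a) (f a) ((b a).e r) (blk b A c a ((b c).e s)) := by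
  rw [Matrix.mul_apply, Fintype.sum_sigma, Finset.sum_eq_single a]
  · rw [blk_apply, map_sum]
    apply Finset.sum_congr rfl
    intro p _
    rw [Matrix.blockDiagonal'_apply_eq, map_smul, smul_eq_mul, mul_comm]
    rfl
  · intro a' _ ha
    apply Finset.sum_eq_zero
    intro p _
    rw [Matrix.blockDiagonal'_apply_ne _ _ _ (Ne.symm ha), zero_mul]
  · intro h0; exact absurd (Finset.mem_univ _) h0

lemma mul_gB (A : Matrix (Ix b) (Ix b) W.K) (a c : Λ)
    (r : Fin (b a).N) (s : Fin (b c).N) :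
    (A.transpose * Matrix.blockDiagonal' (gram b D f)) (⟨a, r⟩ : Ix b) (⟨c, s⟩ : Ix b) =
      bf W (X c) (D c) (f c) (blk b A a c ((b a).e r)) ((b c).e s) := by
  rw [Matrix.mul_apply, Fintype.sum_sigma, Finset.sum_eq_single c]
  · rw [blk_apply, map_sum, LinearMap.sum_apply]
    apply Finset.sum_congr rfl
    intro p _
    rw [Matrix.blockDiagonal'_apply_eq, map_smul, LinearMap.smul_apply, smul_eq_mul,
      Matrix.transpose_apply]
    rfl
  · intro a' _ ha
    apply Finset.sum_eq_zero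
    intro p _
    rw [Matrix.blockDiagonal'_apply_ne _ _ _ ha, mul_zero]
  · intro h0; exact absurd (Finset.mem_univ _) h0

end Mat

end Pool.Agent.W552
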