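import Pool.Agent.W552.Sys

/-!
# The positive involution on the matrices of a system of classes
-/

open CategoryTheory AlgebraicGeometry
open scoped ComplexOrder

universe u v w

namespace Pool.Agent.W552

open Pool.Agent.H914 Pool.Agent.H914.VarClass Pool.Agent.H914.VarClass.Obj
  Pool.Agent.H914.WeilCohomology Pool.Agent.H281R3.HT Pool.Agent.H447

variable {k : Type u} [Field k] {𝒱 : VarClass k} {ops : CycleOps 𝒱}
  {W : WeilCohomology.{u, v} ops}

/-- Algebraic correspondences preserve the parity of the degree. -/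
lemma par_corr {X Y : 𝒱.Obj} {x : W.H (X.prod Y)} (hx : AS W _ x) :
    (par (W.isInternal Y) : Module.End W.K (W.H Y)) ∘ₗ W.corr x =
      W.corr x ∘ₗ (par (W.isInternal X) : Module.End W.K (W.H X)) := by
  refine AS.ind (p := fun x => (par (W.isInternal Y) : Module.End W.K (W.H Y)) ∘ₗ W.corr x =
      W.corr x ∘ₗ (par (W.isInternal X) : Module.End W.K (W.H X))) ?_ ?_ hx
  · intro j x hx
    apply gr_ext (W.isInternal X)
    intro i z hz
    have h1 := W.push_mem (snd X Y) (W.mul_mem (alg_gr hx) (W.map_mem (fst X Y) hz))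
    rw [LinearMap.comp_apply, LinearMap.comp_apply, par, par, scal_apply _ _ hz, map_smul]
    rw [← corr_apply] at h1
    have e : ((2 * j + i : ℕ) : ℤ) + 2 * ((Y.dim : ℤ) - (X.prod Y).dim) =
        (i : ℤ) + 2 * ((j : ℤ) - X.dim) := by
      rw [dim_prod]; push_cast; ring
    rw [e] at h1
    by_cases hm : ∃ m : ℕ, (m : ℤ) = (i : ℤ) + 2 * ((j : ℤ) - X.dim)
    · obtain ⟨m, hm⟩ := hm
      rw [← hm, grZ_natCast] at h1
      rw [scal_apply _ _ h1]
      congr 1
      rcases Nat.even_or_odd i with h | h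
      · have h3 : Even m := by
          obtain ⟨r, hr⟩ := h
          have : (m : ℤ) = 2 * (r + ((j : ℤ) - X.dim)) := by rw [hm, hr]; push_cast; ring
          have : Even (m : ℤ) := by rw [this]; exact even_two_mul _
          exact_mod_cast this
        rw [h.neg_one_pow, h3.neg_one_pow]
      · have h3 : Odd m := by
          obtain ⟨r, hr⟩ := h
          have : (m : ℤ) = 2 * (r + ((j : ℤ) - X.dim)) + 1 := by rw [hm, hr]; push_cast; ring
          have : Odd (m : ℤ) := by rw [this]; exact odd_two_mul_add_one _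
          exact_mod_cast this
        rw [h.neg_one_pow, h3.neg_one_pow]
    · push Not at hm
      by_cases hneg : (i : ℤ) + 2 * ((j : ℤ) - X.dim) < 0
      · rw [grZ_of_neg hneg] at h1
        rw [(Submodule.mem_bot _).1 h1]
        simp
      · exact absurd (Int.toNat_of_nonneg (by omega)) (hm _)
  · intro a c ha hc
    rw [corr_add, LinearMap.comp_add, LinearMap.add_comp, ha, hc]

variable {Λ : Type} {X : Λ → 𝒱.Obj} {D : ∀ a, (X a).Cycles}
  {f : ∀ a, Module.End W.K (W.H (X a))} {R : ∀ a b, W.H ((X a).prod (X b)) → Prop}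

/-- The operators of a system. -/
def RO (R : ∀ a b, W.H ((X a).prod (X b)) → Prop) (a b : Λ)
    (u : W.H (X a) →ₗ[W.K] W.H (X b)) : Prop := ∃ x, R a b x ∧ W.corr x = u

namespace RSys

variable (S : RSys W X D f R)

include S

lemma ro_rat (a b : Λ) : RatSub W.K (RO (W := W) (X := X) R a b) where
  zero := ⟨0, (S.rat a b).zero, corr_zero W⟩
  add := by
    rintro _ _ ⟨x, hx, rfl⟩ ⟨y, hy, rfl⟩
    exact ⟨x + y, (S.rat a b).add hx hy, corr_add W _ _⟩
  smul := by
    rintro q _ ⟨x, hx, rfl⟩
    exact ⟨(q : W.K) • x, (S.rat a b).smul q hx, corr_smul W _ _⟩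

lemma ro_comp {a b c : Λ} {u : W.H (X a) →ₗ[W.K] W.H (X b)} {u' : W.H (X b) →ₗ[W.K] W.H (X c)}
    (h : RO R a b u) (h' : RO R b c u') : RO R a c (u' ∘ₗ u) := by
  obtain ⟨x, hx, rfl⟩ := h
  obtain ⟨y, hy, rfl⟩ := h'
  exact S.comp hx hy

lemma ro_trace {a : Λ} {u : Module.End W.K (W.H (X a))} (h : RO R a a u) :
    ∃ q : ℚ, LinearMap.trace W.K (W.H (X a)) u = q := by
  obtain ⟨x, hx, hx'⟩ := S.ro_comp h (S.par a)
  have h1 : H914.par (W.isInternal (X a)) * W.corr x = u := by
    rw [hx']
    change H914.par (W.isInternal (X a)) * (H914.par (W.isInternal (X a)) * u) = u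
    rw [← mul_assoc, H914.par_mul_par, one_mul]
  rw [← h1, trace_par_corr]
  exact ((S.alg hx).map _).tr

lemma st_st (a : Λ) : st W (X a) (D a) (f a) * st W (X a) (D a) (f a) = 1 :=
  (S.ls a).star_star

lemma ro_ex_th {a b : Λ} {u : W.H (X a) →ₗ[W.K] W.H (X b)} (h : RO R a b u) :
    ∃ x, R a b x ∧ th W (D a) (f a) x = u := by
  obtain ⟨x, hx, hx'⟩ := S.ro_comp (S.ro_comp (S.par a) (S.star a)) h
  refine ⟨x, hx, ?_⟩
  rw [th, hx']
  apply LinearMap.ext
  intro z
  have h1 : st W (X a) (D a) (f a) (H914.par (W.isInternal (X a)) (H914.par (W.isInternal (X a))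
      (st W (X a) (D a) (f a) z))) = z := by
    rw [← Module.End.mul_apply (H914.par (W.isInternal (X a))), H914.par_mul_par, Module.End.one_apply,
      ← Module.End.mul_apply, S.st_st, Module.End.one_apply]
  simp only [LinearMap.comp_apply, Module.End.mul_apply]
  rw [h1]

/-- The adjoint of an operator of the system. -/
lemma ro_adj {a b : Λ} {u : W.H (X a) →ₗ[W.K] W.H (X b)} (h : RO R a b u) :
    ∃ u', RO R b a u' ∧ ∀ p q, bf W (X b) (D b) (f b) (u p) q =
      bf W (X a) (D a) (f a) p (u' q) := by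
  obtain ⟨x, hx, rfl⟩ := h
  refine ⟨_, S.ro_comp (S.ro_comp (S.star b) ⟨_, S.swp hx, rfl⟩) (S.star a), ?_⟩
  intro p q
  rw [bf_apply, (S.alg hx).tr_corr, bf_apply]
  congr 2
  simp only [LinearMap.comp_apply]
  rw [← Module.End.mul_apply (st W (X a) (D a) (f a)), S.st_st, Module.End.one_apply]

omit S in
lemma bil_self {Y : 𝒱.Obj} {E : Y.Cycles} (hE : Y.IsCyc 1 E) (p q : W.H Y) :
    bil W Y (LinearMap.mulLeft W.K (W.cl Y E) p) q =
      bil W Y p (LinearMap.mulLeft W.K (W.cl Y E) q) := by
  rw [bil_apply, bil_apply, LinearMap.mulLeft_apply, LinearMap.mulLeft_apply, ← mul_assoc,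
    alg_even_comm (W := W) ⟨E, hE, rfl⟩ p]

lemma bf_symm {a : Λ} {i j : ℕ} {p q : W.H (X a)} (hp : p ∈ W.gr (X a) i)
    (hq : q ∈ W.gr (X a) j) : bf W (X a) (D a) (f a) q p =
      (-1 : W.K) ^ i * bf W (X a) (D a) (f a) p q := by
  exact (S.ls a).form_symm (B := bil W (X a)) (fun p q => bil_self (S.fr a).hD p q)
    (fun i j a ha b hb hij => W.tr_eq_zero (W.mul_mem ha hb) hij)
    (fun i j a ha b hb => by
      rw [bil_apply, bil_apply, W.comm ha hb, map_smul, smul_eq_mul]) hp hq

lemma bf_nondeg {a : Λ} {z : W.H (X a)} (h : ∀ y, bf W (X a) (D a) (f a) y z = 0) : z = 0 := by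
  have h1 : st W (X a) (D a) (f a) z = 0 := nondeg_right (fun b => h b)
  have h2 := congrArg (st W (X a) (D a) (f a)) h1
  rwa [← Module.End.mul_apply, S.st_st, Module.End.one_apply, map_zero] at h2

end RSys

section

variable [Fintype Λ] [DecidableEq Λ] {b : ∀ a, HB W (X a)}

omit [DecidableEq Λ] in
lemma trace_eq_sum (A : Matrix (Ix b) (Ix b) W.K) :
    Matrix.trace A = ∑ a, LinearMap.trace W.K (W.H (X a)) (blk b A a a) := by
  rw [Matrix.trace, Fintype.sum_sigma]
  apply Finset.sum_congr rfl
  intro a _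
  rw [LinearMap.trace_eq_matrix_trace W.K (b a).e, blk, LinearMap.toMatrix_toLin]
  rfl

/-- **The positive involution.** -/
theorem RSys.posSys (S : RSys W X D f R) (b : ∀ a, HB W (X a)) :
    PosSys (Matrix.blockDiagonal' (gram b D f)) (eps b)
      (fun A => ∀ a c, RO R a c (blk b A a c)) where
  rat := by
    constructor
    · intro a c; rw [blk_zero]; exact (S.ro_rat a c).zero
    · intro A A' h h' a c; rw [blk_add]; exact (S.ro_rat a c).add (h a c) (h' a c)
    · intro q A h a c; rw [blk_smul]; exact (S.ro_rat a c).smul q (h a c)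
  one := by
    intro a c
    rw [blk_one]
    split_ifs with h
    · subst h; exact S.one a
    · exact (S.ro_rat a c).zero
  mul := by
    intro A A' h h' a c
    rw [blk_mul]
    exact (S.ro_rat a c).sum _ (fun d _ => S.ro_comp (h' a d) (h d c))
  hε := by
    intro i
    rw [eps, ← mul_pow]
    norm_num
  hB := by
    have h1 : IsUnit (gram b D f) := by
      rw [Pi.isUnit_iff]
      intro a
      rw [← Matrix.mulVec_injective_iff_isUnit]
      intro v w hvw
      have h2 : ∑ p, (v - w) p • (b a).e p = 0 := by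
        apply S.bf_nondeg
        intro y
        have h3 : ∀ r, bf W (X a) (D a) (f a) ((b a).e r) (∑ p, (v - w) p • (b a).e p) = 0 := by
          intro r
          have h4 : (Matrix.mulVec (gram b D f a) (v - w)) r = 0 := by
            rw [Matrix.mulVec_sub]
            change Matrix.mulVec _ v = Matrix.mulVec _ w at hvw
            rw [hvw, sub_self]; rfl
          rw [map_sum, ← h4, Matrix.mulVec, dotProduct]
          apply Finset.sum_congr rfl
          intro p _
          rw [map_smul, smul_eq_mul, mul_comm]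
          rfl
        rw [← (b a).e.sum_repr y, map_sum (bf W (X a) (D a) (f a)), LinearMap.sum_apply]
        apply Finset.sum_eq_zero
        intro r _
        rw [map_smul, LinearMap.smul_apply, h3, smul_zero]
      have h5 := Fintype.linearIndependent_iff.1 (b a).e.linearIndependent _ h2
      funext p
      exact sub_eq_zero.1 (h5 p)
    exact h1.map (Matrix.blockDiagonal'RingHom (fun a => Fin (b a).N) W.K)
  hBT := by
    ext ⟨a, r⟩ ⟨c, s⟩
    rw [Matrix.mul_diagonal, Matrix.transpose_apply]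
    by_cases h : a = c
    · subst h
      rw [Matrix.blockDiagonal'_apply_eq, Matrix.blockDiagonal'_apply_eq, gram, Matrix.of_apply,
        Matrix.of_apply, S.bf_symm ((b a).mem r) ((b a).mem s)]
      by_cases hrs : (b a).dg r = (b a).dg s
      · rw [eps, hrs]; push_cast; ring
      · rw [(S.fr a).bf_deg ((b a).mem r) ((b a).mem s) hrs, mul_zero, zero_mul]
    · rw [Matrix.blockDiagonal'_apply_ne _ _ _ (Ne.symm h), Matrix.blockDiagonal'_apply_ne _ _ _ h,
        zero_mul]
  hεB := by
    ext ⟨a, r⟩ ⟨c, s⟩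
    rw [Matrix.mul_diagonal, Matrix.diagonal_mul]
    by_cases h : a = c
    · subst h
      rw [Matrix.blockDiagonal'_apply_eq, gram, Matrix.of_apply]
      by_cases hrs : (b a).dg r = (b a).dg s
      · rw [eps, eps, hrs]; push_cast; ring
      · rw [(S.fr a).bf_deg ((b a).mem r) ((b a).mem s) hrs, mul_zero, zero_mul]
    · rw [Matrix.blockDiagonal'_apply_ne _ _ _ h, zero_mul, mul_zero]
  adj := by
    intro A hA
    choose u hu hu' using fun (c a : Λ) => S.ro_adj (hA a c)
    refine ⟨mat b u, fun a c => ?_, ?_⟩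
    · rw [blk_mat]; exact hu a c
    · ext ⟨a, r⟩ ⟨c, s⟩
      rw [gB_mul, mul_gB, blk_mat, hu']
  epsE := by
    intro a c
    rw [blk_eps]
    split_ifs with h
    · subst h; exact S.par a
    · exact (S.ro_rat a c).zero
  epsC := by
    intro A hA
    apply mat_ext
    intro a c
    rw [blk_mul, blk_mul, Finset.sum_eq_single a, Finset.sum_eq_single c]
    · obtain ⟨x, hx, hx'⟩ := hA a c
      rw [← hx', blk_eps, blk_eps, dif_pos rfl, dif_pos rfl]
      exact (par_corr (S.alg hx)).symm
    · intro d _ hd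
      rw [blk_eps, dif_neg hd, LinearMap.zero_comp]
    · intro h0; exact absurd (Finset.mem_univ _) h0
    · intro d _ hd
      rw [blk_eps, dif_neg (Ne.symm hd), LinearMap.comp_zero]
    · intro h0; exact absurd (Finset.mem_univ _) h0
  tr := by
    intro A hA
    choose q hq using fun a => S.ro_trace (hA a a)
    refine ⟨∑ a, q a, ?_⟩
    rw [trace_eq_sum, Rat.cast_sum]
    exact Finset.sum_congr rfl (fun a _ => hq a)
  pos := by
    intro A A' hA hA0 hAA'
    have hadj : ∀ a c p q, bf W (X c) (D c) (f c) (blk b A a c p) q =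
        bf W (X a) (D a) (f a) p (blk b A' c a q) := by
      intro a c p q
      have h1 : ∀ r s, bf W (X c) (D c) (f c) (blk b A a c ((b a).e r)) ((b c).e s) =
          bf W (X a) (D a) (f a) ((b a).e r) (blk b A' c a ((b c).e s)) := by
        intro r s
        rw [← gB_mul, hAA', mul_gB]
      rw [← (b a).e.sum_repr p, ← (b c).e.sum_repr q]
      simp only [map_sum, map_smul, LinearMap.sum_apply, LinearMap.smul_apply, h1]
    have key : ∀ a c, ∃ q : ℚ, 0 ≤ q ∧ (blk b A a c ≠ 0 → 0 < q) ∧
        LinearMap.trace W.K (W.H (X a)) (blk b A' c a ∘ₗ blk b A a c) = q := by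
      intro a c
      by_cases h0 : blk b A a c = 0
      · exact ⟨0, le_rfl, fun h => absurd h0 h, by rw [h0, LinearMap.comp_zero]; simp⟩
      obtain ⟨x, hx, hx'⟩ := S.ro_ex_th (hA a c)
      have hx0 : x ≠ 0 := by
        rintro rfl
        apply h0
        rw [← hx', th, corr_zero, LinearMap.zero_comp]
      obtain ⟨q, hq, hq'⟩ := S.pos hx hx0
      refine ⟨q, hq.le, fun _ => hq, ?_⟩
      rw [← hq', ← hx']
      apply trace_th (S.fr a) (S.fr c) (S.alg hx)
      intro p q
      rw [hx', hadj]
    choose q hq0 hq1 hq2 using key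
    refine ⟨∑ a, ∑ c, q a c, ?_, ?_⟩
    · obtain ⟨a, c, hac⟩ : ∃ a c, blk b A a c ≠ 0 := by
        by_contra h0
        push Not at h0
        apply hA0
        apply mat_ext
        intro a c
        rw [h0, blk_zero]
      exact Finset.sum_pos' (fun a _ => Finset.sum_nonneg (fun c _ => hq0 a c))
        ⟨a, Finset.mem_univ _, Finset.sum_pos' (fun c _ => hq0 a c)
          ⟨c, Finset.mem_univ _, hq1 a c hac⟩⟩
    · rw [trace_eq_sum, Rat.cast_sum]
      apply Finset.sum_congr rfl
      intro a _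
      rw [blk_mul, map_sum, Rat.cast_sum]
      exact Finset.sum_congr rfl (fun c _ => hq2 a c)

end

end Pool.Agent.W552
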