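import Pool.Agent.W552.Defs
import Pool.Agent.H914R2.LefDefs

/-!
# Tautological classes: definitions
-/

open CategoryTheory AlgebraicGeometry

universe u v w

namespace Pool.Agent.W552

open Pool.Agent.H914 Pool.Agent.H914.VarClass Pool.Agent.H914.VarClass.Obj
  Pool.Agent.H914.WeilCohomology Pool.Agent.H281R3.HT

section Abs

variable {K : Type*} [Field K] {A : Type*} [Ring A] [Algebra K A] {G : Type} [Group G]

/-- The group `G` acts through `ρ` by automorphisms of the algebra `A` which satisfy `C` and
multiply the element `D` by the positive rational numbers `χ g`; the element `φ` of the group acts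
as `F`, with the multiplier `q`, it is central and generates a subgroup of finite index. -/
structure IsSimAction (ρ : G →* (A ≃ₐ[K] A)) (χ : G →* ℚ) (φ : G) (D : A) (F : A →ₐ[K] A)
    (q : ℕ) (C : (A → A) → Prop) : Prop where
  pos : ∀ g, 0 < χ g
  pol : ∀ g, ρ g D = (χ g : K) • D
  alg : ∀ g, C (ρ g)
  frob : ∀ a, ρ φ a = F a
  frob_χ : χ φ = q
  cen : ∀ g, φ * g = g * φ
  fin : Finite (G ⧸ Subgroup.zpowers φ)

/-- The operator `u` belongs to the algebra of operators on `A` generated over `K` by the
multiplication by `D` (the Lefschetz operator), the inverse Lefschetz operator, the projectors onto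
the degrees and the operators of the group. -/
def InTaut (gr : ℕ → Submodule K A) (n : ℕ) (D : A) (ρ : G →* (A ≃ₐ[K] A)) (u : A →ₗ[K] A) :
    Prop :=
  u ∈ Algebra.adjoin K {u : Module.End K A | u = LinearMap.mulLeft K D ∨
    IsLam gr n (LinearMap.mulLeft K D) u ∨
    (∃ i, ∀ j, ∀ a ∈ gr j, u a = if j = i then a else 0) ∨ ∃ g, u = (ρ g).toLinearMap}

/-- The products of elements of the sets `s a` and `t a b`, `a ≠ b`, where no index is used twice;
`S` is the set of the indices which are used. -/
inductive Matching {Λ : Type} [DecidableEq Λ] (s : Λ → A → Prop) (t : Λ → Λ → A → Prop) :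
    Finset Λ → A → Prop
  | one : Matching s t ∅ 1
  | single {S c a x} : Matching s t S c → a ∉ S → s a x → Matching s t (insert a S) (x * c)
  | pair {S c a b x} : Matching s t S c → a ∉ S → b ∉ S → a ≠ b → t a b x →
      Matching s t (insert a (insert b S)) (x * c)

/-- The element `x` is a linear combination of such products. -/
def InMatchSpan (K : Type*) [Field K] {A : Type*} [Ring A] [Algebra K A] {Λ : Type}
    [DecidableEq Λ] (s : Λ → A → Prop) (t : Λ → Λ → A → Prop) (x : A) : Prop :=
  x ∈ Submodule.span K {c | ∃ S, Matching s t S c}

/-- The image under `g` of the set `s`. -/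
def Img {B : Type*} [Ring B] [Algebra K B] (g : A →ₐ[K] B) (s : A → Prop) (x : B) : Prop :=
  ∃ y, s y ∧ x = g y

/-- The element `x` is a power of `D`. -/
def IsPow (D x : A) : Prop := ∃ j : ℕ, x = D ^ j

/-- The operator is diagonalizable: the space is spanned by its eigenvectors. -/
def EigenSpan {V : Type*} [AddCommGroup V] [Module K V] (T : V →ₗ[K] V) : Prop :=
  Submodule.span K {y | ∃ α : K, T y = α • y} = ⊤

end Abs

variable {k : Type u} [Field k] {𝒱 : VarClass k} {ops : CycleOps 𝒱}

/-- The operator `u` is the correspondence of an algebraic cycle on `X × X` of codimension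
`dim X`. -/
def IsCorr (W : WeilCohomology.{u, v} ops) (X : 𝒱.Obj) (u : W.H X → W.H X) : Prop :=
  ∃ z, (X.prod X).IsCyc X.dim z ∧ W.corr (W.cl (X.prod X) z) = u

/-- A group acting on the cohomology of the polarized variety `P` with a Frobenius endomorphism `f`
(relative to the field with `q` elements) by automorphisms of the cohomology algebra, each of
which is induced by an algebraic cycle with rational coefficients on `X × X` and multiplies the
class of the divisor by a positive rational number; it contains `f^*`, with the multiplier `q`, as
a central element, and the cyclic group generated by `f^*` has a finite index. (For example the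
group generated by `f^*` and a finite group of automorphisms of `P` defined over the field with
`q` elements; or, if `P` is defined over a smaller field, this group together with the Frobenius
endomorphism of the smaller field.) -/
structure FrobSim (W : WeilCohomology.{u, v} ops) (P : Polarized 𝒱) (f : P.X ⟶ P.X)
    (q : ℕ) where
  /-- the group -/
  G : Type
  [grp : Group G]
  /-- the action on the cohomology -/
  ρ : G →* (W.H P.X ≃ₐ[W.K] W.H P.X)
  /-- the multiplier -/
  χ : G →* ℚ
  /-- the Frobenius element -/
  φ : G
  isSim : IsSimAction ρ χ φ (W.cl P.X P.D) (W.map f) q (IsCorr W P.X)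

attribute [instance] FrobSim.grp

/-- The tautological classes on `P × P`: the classes whose correspondence is in the algebra
generated by the Lefschetz operator, the inverse Lefschetz operator, the projectors onto the
degrees and the operators of the group. -/
def FrobSim.IsTaut {W : WeilCohomology.{u, v} ops} {P : Polarized 𝒱} {f : P.X ⟶ P.X}
    {q : ℕ} (A : FrobSim W P f q) (x : W.H (P.X.prod P.X)) : Prop :=
  InTaut (W.gr P.X) P.X.dim (W.cl P.X P.D) A.ρ (W.corr x)

/-- The class `x` on the power `P × (P × (⋯ × P))` of `P` with `n + 1` factors is a linear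
combination of products of pull-backs of powers of the class of the divisor on factors and of
tautological classes on pairs of two different factors, where no factor is used twice. -/
def FrobSim.InTautSpan {W : WeilCohomology.{u, v} ops} {P : Polarized 𝒱} {f : P.X ⟶ P.X} {q : ℕ}
    (A : FrobSim W P f q) (n : ℕ) (x : W.H (nest ops n (fun _ => P)).X) : Prop :=
  InMatchSpan W.K (fun a => Img (W.map (prj ops n (fun _ => P) a)) (IsPow (W.cl P.X P.D)))
    (fun a b => Img (W.map (Obj.lift (prj ops n (fun _ => P) a) (prj ops n (fun _ => P) b)))
      A.IsTaut) x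

/-- The standard conjecture of Hodge type for the cycles on `X` whose class has the property `T`:
for `2 j ≤ n = dim X` and every cycle `z` of codimension `j` whose class has the property `T`, is
primitive and is not zero, the sign of the intersection number `z · z · D ^ (n - 2 j)` is
`(-1) ^ j`. -/
def HodgeTypeFor (W : WeilCohomology.{u, v} ops) (X : 𝒱.Obj) (D : X.Cycles)
    (T : W.H X → Prop) : Prop :=
  ∀ j, 2 * j ≤ X.dim → ∀ z, X.IsCyc j z → T (W.cl X z) →
    W.cl X (divPow ops D (X.dim - 2 * j + 1) z) = 0 → W.cl X z ≠ 0 →
    0 < (-1 : ℚ) ^ j * X.V.degCycle (ops.mul z (divPow ops D (X.dim - 2 * j) z))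

/-- The standard conjecture `D` for the cycles on `X` whose class has the property `T`: if the
intersection numbers of such a cycle with all cycles of the complementary codimension vanish, its
class is zero. -/
def HomEqNumFor (W : WeilCohomology.{u, v} ops) (X : 𝒱.Obj) (T : W.H X → Prop) : Prop :=
  ∀ j ≤ X.dim, ∀ z, X.IsCyc j z → T (W.cl X z) →
    (∀ w, X.IsCyc (X.dim - j) w → X.V.degCycle (ops.mul z w) = 0) → W.cl X z = 0

end Pool.Agent.W552
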