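import Pool.Agent.W552.TautMain
import Pool.Agent.W552.TautStmt

/-!
# The theorem on tautological classes
-/

open CategoryTheory AlgebraicGeometry

universe u v w

namespace Pool.Agent.W552

open Pool.Agent.H914 Pool.Agent.H914.VarClass Pool.Agent.H914.VarClass.Obj
  Pool.Agent.H914.WeilCohomology Pool.Agent.H281R3.HT

variable {k : Type u} [Field k] {𝒱 : VarClass k} {ops : CycleOps 𝒱}
  {W : WeilCohomology.{u, v} ops} {P : Polarized 𝒱} {fr : P.X ⟶ P.X} {q : ℕ}

lemma diag_of_span {X : 𝒱.Obj} {f : X ⟶ X} (h : EigenSpan (W.map f).toLinearMap) :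
    Diagonalizable W f := by
  rw [Diagonalizable, eq_top_iff, ← h]
  apply Submodule.span_le.2
  rintro y ⟨α, hα⟩
  exact Submodule.mem_iSup_of_mem α (Module.End.mem_eigenspace_iff.2 hα)

/-- The group of similitudes. -/
def FrobSim.toSim (A : FrobSim W P fr q) : SimAction W P fr q where
  G := A.G
  grp := A.grp
  ρ := A.ρ
  χ := A.χ
  pos := A.isSim.pos
  pol := A.isSim.pol
  alg g := by
    obtain ⟨z, hz, hz'⟩ := A.isSim.alg g
    exact ⟨z, hz, fun a => congrFun hz' a⟩
  φ := A.φ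
  frob := A.isSim.frob
  frob_χ := A.isSim.frob_χ
  cen := A.isSim.cen
  fin := A.isSim.fin

lemma FrobSim.taut (A : FrobSim W P fr q) {x : W.H (P.X.prod P.X)} (hx : A.IsTaut x) :
    W.corr x ∈ A.toSim.tautAlgebra := by
  refine Algebra.adjoin_mono ?_ hx
  rintro u (hu | hu | ⟨i, hi⟩ | hu)
  · exact Or.inl (Or.inl (Or.inl hu))
  · exact Or.inl (Or.inl (Or.inr hu))
  · refine Or.inl (Or.inr ⟨i, ?_⟩)
    apply gr_ext (W.isInternal P.X)
    intro j a ha
    rw [hi j a ha]
    split_ifs with hij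
    · subst hij; exact (proj_same _ ha).symm
    · exact (proj_ne _ ha hij).symm
  · exact Or.inr hu

theorem hodge_taut' (hD : P.X.IsCyc 1 P.D)
    (hdeg : 0 < P.X.V.degCycle (divPow ops P.D P.X.dim P.X.V.fundCycle))
    (hHL : HardLefschetz W P.X P.D) (hB : LefschetzB W P.X P.D)
    (hf : EigenSpan (W.map fr).toLinearMap) (hRH : RiemannHypothesis W P.X fr q)
    (A : FrobSim W P fr q) (n : ℕ) :
    HodgeTypeFor W (nest ops n (fun _ => P)).X (nest ops n (fun _ => P)).D (A.InTautSpan n) ∧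
      HomEqNumFor W (nest ops n (fun _ => P)).X (A.InTautSpan n) := by
  have h1 := hodge_taut hD hdeg hHL hB (diag_of_span hf) hRH A.toSim n
  have h3 : ∀ c, A.InTautSpan n c → c ∈ A.toSim.tautClasses n := by
    intro c hc
    refine Submodule.span_mono ?_ hc
    rintro c ⟨S, hc⟩
    refine ⟨S, ?_⟩
    induction hc with
    | one => exact IsTautMatching.one
    | single _ ha hx ih =>
      obtain ⟨_, ⟨j, rfl⟩, rfl⟩ := hx
      exact IsTautMatching.divisor j ih ha
    | pair _ ha hb hab hx ih =>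
      obtain ⟨y, hy, rfl⟩ := hx
      exact IsTautMatching.pair ih ha hb hab (A.taut hy)
  exact ⟨fun j hj z hz hzs => h1.1 j hj z hz (h3 _ hzs),
    fun j hj z hz hzs => h1.2 j hj z hz (h3 _ hzs)⟩

end Pool.Agent.W552
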