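import Pool.Agent.W552.FrobDefs

/-!
# Groups of algebraic similitudes of the cohomology of a variety over a finite field
-/

open CategoryTheory AlgebraicGeometry

universe u v w

namespace Pool.Agent.W552

open Pool.Agent.H914 Pool.Agent.H914.VarClass Pool.Agent.H914.VarClass.Obj
  Pool.Agent.H914.WeilCohomology Pool.Agent.H281R3.HT

variable {k : Type u} [Field k] {𝒱 : VarClass k} {ops : CycleOps 𝒱}

/-- A group acting on the cohomology of a polarized variety `P` with a Frobenius endomorphism `f`
(relative to the field with `q` elements) by automorphisms of the cohomology algebra, each of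
which is induced by an algebraic cycle with rational coefficients on `X × X` and multiplies the
class of the divisor by a positive rational number; it contains `f^*` as a central element and
the cyclic group generated by `f^*` has a finite index. (For example the group generated by `f^*`
and by the automorphisms of a finite group of automorphisms of `P` defined over the field with
`q` elements; or, if `P` is defined over a smaller field, this group together with the Frobenius
endomorphism of the smaller field.) -/
structure SimAction (W : WeilCohomology.{u, v} ops) (P : Polarized 𝒱) (f : P.X ⟶ P.X)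
    (q : ℕ) where
  /-- the group -/
  G : Type
  grp : Group G
  /-- the action on the cohomology -/
  ρ : G →* (W.H P.X ≃ₐ[W.K] W.H P.X)
  /-- the multiplier -/
  χ : G →* ℚ
  pos : ∀ g, 0 < χ g
  pol : ∀ g, ρ g (W.cl P.X P.D) = (χ g : W.K) • W.cl P.X P.D
  alg : ∀ g, ∃ z, (P.X.prod P.X).IsCyc P.X.dim z ∧
    ∀ a, W.corr (W.cl (P.X.prod P.X) z) a = ρ g a
  /-- the Frobenius element -/
  φ : G
  frob : ∀ a, ρ φ a = W.map f a
  frob_χ : χ φ = q
  cen : ∀ g, φ * g = g * φ
  fin : Finite (G ⧸ Subgroup.zpowers φ)

attribute [instance] SimAction.grp

section Taut

variable {W : WeilCohomology.{u, v} ops} {P : Polarized 𝒱} {f : P.X ⟶ P.X} {q : ℕ}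

/-- The tautological operators on the cohomology of `P`: the algebra generated over the
coefficient field by the Lefschetz operator, the inverse Lefschetz operator, the projectors onto
the degrees and the operators of the group. -/
noncomputable def SimAction.tautAlgebra (A : SimAction W P f q) :
    Subalgebra W.K (Module.End W.K (W.H P.X)) :=
  Algebra.adjoin W.K ({LinearMap.mulLeft W.K (W.cl P.X P.D)} ∪
    {u | IsLam (W.gr P.X) P.X.dim (LinearMap.mulLeft W.K (W.cl P.X P.D)) u} ∪
    {u | ∃ i, u = proj (W.isInternal P.X) i} ∪ {u | ∃ g, u = (A.ρ g).toLinearMap})

/-- The products, on the power `P × (P × (⋯ × P))` of `P` with `n + 1` factors, of pull-backs of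
powers of the class of the divisor on factors and of tautological classes (classes on `P × P`
whose correspondence is a tautological operator) on pairs of two different factors, where no
factor is used twice; `S` is the set of the factors which are used. -/
inductive IsTautMatching (A : SimAction W P f q) (n : ℕ) :
    Finset (Fin (n + 1)) → W.H (nest ops n (fun _ => P)).X → Prop
  | one : IsTautMatching A n ∅ 1
  | divisor {S c a} (j : ℕ) : IsTautMatching A n S c → a ∉ S →
      IsTautMatching A n (insert a S) (W.map (prj ops n (fun _ => P) a) (W.cl P.X P.D ^ j) * c)
  | pair {S c a b} {x : W.H (P.X.prod P.X)} : IsTautMatching A n S c → a ∉ S → b ∉ S → a ≠ b →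
      W.corr x ∈ A.tautAlgebra →
      IsTautMatching A n (insert a (insert b S))
        (W.map (Obj.lift (prj ops n (fun _ => P) a) (prj ops n (fun _ => P) b)) x * c)

/-- The tautological classes on the power of `P` with `n + 1` factors. -/
noncomputable def SimAction.tautClasses (A : SimAction W P f q) (n : ℕ) :
    Submodule W.K (W.H (nest ops n (fun _ => P)).X) :=
  Submodule.span W.K {c | ∃ S, IsTautMatching A n S c}

end Taut

end Pool.Agent.W552
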