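import Pool.Agent.W552.TautPos
import Pool.Agent.W552.RatBasis

/-!
# The rational algebra generated by pairs of mutually adjoint operators
-/

open Finset Matrix
open scoped ComplexOrder

universe v

namespace Pool.Agent.W552

open Pool.Agent.H914

set_option linter.unusedSectionVars false

variable {K : Type v} [Field K] [CharZero K] {V : Type v} [AddCommGroup V] [Module K V]

/-- The pairs of operators generated by a set of pairs (in the intended use: the pairs
`(u, u')` of an operator of an algebra with rational coefficients and its adjoint). -/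
inductive GD (Gn : Module.End K V → Module.End K V → Prop) :
    Module.End K V → Module.End K V → Prop
  | of {u v} : Gn u v → GD Gn u v
  | one : GD Gn 1 1
  | zero : GD Gn 0 0
  | add {u v u' v'} : GD Gn u v → GD Gn u' v' → GD Gn (u + u') (v + v')
  | smul (q : ℚ) {u v} : GD Gn u v → GD Gn ((q : K) • u) ((q : K) • v)
  | mul {u v u' v'} : GD Gn u v → GD Gn u' v' → GD Gn (u * u') (v' * v)

variable {Gn : Module.End K V → Module.End K V → Prop} {u v : Module.End K V}

namespace GD

lemma adjS {N : ℕ} {F : Subfield K} {σ : F →+* ℂ} {e : Module.Basis (Fin N) K V}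
    {S : Matrix (Fin N) (Fin N) ℂ} (h0 : ∀ u v, Gn u v → AdjS F σ e S u v) (h : GD Gn u v) :
    AdjS F σ e S u v := by
  induction h with
  | of h => exact h0 _ _ h
  | one => exact AdjS.one
  | zero => exact AdjS.zero
  | add _ _ h h' => exact h.add h'
  | smul q _ h => exact h.smul q
  | mul _ _ h h' => exact h.mul h'

lemma form {B : V →ₗ[K] V →ₗ[K] K} (h0 : ∀ u v, Gn u v → ∀ a b, B (u a) b = B a (v b))
    (h : GD Gn u v) : ∀ a b, B (u a) b = B a (v b) := by
  induction h with
  | of h => exact h0 _ _ h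
  | one => intro a b; rfl
  | zero => intro a b; simp
  | add _ _ h h' =>
    intro a b
    rw [LinearMap.add_apply, map_add, LinearMap.add_apply, h, h', LinearMap.add_apply, map_add]
  | smul q _ h =>
    intro a b
    rw [LinearMap.smul_apply, map_smul, LinearMap.smul_apply, h, LinearMap.smul_apply, map_smul]
  | mul _ _ h h' =>
    intro a b
    rw [Module.End.mul_apply, h, h', Module.End.mul_apply]

lemma symm (h0 : ∀ u v, Gn u v → GD Gn v u) (h : GD Gn u v) : GD Gn v u := by
  induction h with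
  | of h => exact h0 _ _ h
  | one => exact one
  | zero => exact zero
  | add _ _ h h' => exact h.add h'
  | smul q _ h => exact h.smul q
  | mul _ _ h h' => exact h'.mul h

lemma ind {p : Module.End K V → Prop} (h0 : ∀ u v, Gn u v → p u) (h1 : p 1) (hz : p 0)
    (ha : ∀ u v, p u → p v → p (u + v)) (hs : ∀ (q : ℚ) u, p u → p ((q : K) • u))
    (hm : ∀ u v, p u → p v → p (u * v)) (h : GD Gn u v) : p u := by
  induction h with
  | of h => exact h0 _ _ h
  | one => exact h1
  | zero => exact hz
  | add _ _ h h' => exact ha _ _ h h'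
  | smul q _ h => exact hs _ _ h
  | mul _ _ h h' => exact hm _ _ h h'

end GD

/-- The rational algebra of the first components. -/
def TA (Gn : Module.End K V → Module.End K V → Prop) (u : Module.End K V) : Prop :=
  ∃ v, GD Gn u v

namespace TA

lemma one : TA Gn 1 := ⟨1, GD.one⟩

lemma zero : TA Gn 0 := ⟨0, GD.zero⟩

lemma add (h : TA Gn u) (h' : TA Gn v) : TA Gn (u + v) := by
  obtain ⟨_, h⟩ := h
  obtain ⟨_, h'⟩ := h'
  exact ⟨_, h.add h'⟩

lemma smul (q : ℚ) (h : TA Gn u) : TA Gn ((q : K) • u) := by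
  obtain ⟨_, h⟩ := h
  exact ⟨_, h.smul q⟩

lemma mul (h : TA Gn u) (h' : TA Gn v) : TA Gn (u * v) := by
  obtain ⟨_, h⟩ := h
  obtain ⟨_, h'⟩ := h'
  exact ⟨_, h.mul h'⟩

lemma ratSub : RatSub K (TA Gn) where
  zero := zero
  add := add
  smul q _ h := smul q h

lemma neg (h : TA Gn u) : TA Gn (-u) := ratSub.neg h

lemma sub (h : TA Gn u) (h' : TA Gn v) : TA Gn (u - v) := ratSub.sub h h'

lemma pow (h : TA Gn u) (m : ℕ) : TA Gn (u ^ m) := by
  induction m with
  | zero => simpa using one
  | succ m ih => rw [pow_succ]; exact ih.mul h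

/-- The Weyl operator. -/
lemma wey {e f : Module.End K V} (he : TA Gn e) (hf : TA Gn f)
    (hne : IsNilpotent e) (hnf : IsNilpotent f) : TA Gn (H914.wey e f) := by
  let _ : Module ℚ (Module.End K V) :=
    Module.compHom (Module.End K V) (algebraMap ℚ K)
  have hexp : ∀ {g : Module.End K V}, TA Gn g → IsNilpotent g →
      TA Gn (IsNilpotent.exp g) := by
    intro g hg hng
    obtain ⟨N, hN⟩ := hng
    rw [IsNilpotent.exp_eq_sum hN]
    apply ratSub.sum
    intro i _
    have h1 : ((i.factorial : ℚ)⁻¹ • g ^ i) = (((i.factorial : ℚ)⁻¹ : ℚ) : K) • g ^ i := rfl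
    rw [h1]
    exact (hg.pow i).smul _
  change TA Gn (weyl e f)
  rw [weyl]
  have hf' : TA Gn (-f) := ratSub.neg hf
  exact ((hexp he hne).mul (hexp hf' hnf.neg)).mul (hexp he hne)

end TA

section Gen

variable [Module.Finite K V] {gr : ℕ → Submodule K V} {n : ℕ} {L f Φ : Module.End K V}
  {h : DirectSum.IsInternal gr} {G : Type} [Group G] {ρ : G →* Module.End K V} {χ : G →* ℚ}
  {φ : G}

/-- The generators: the Lefschetz operator and its adjoint, the projectors onto the degrees, the
projectors onto the primitive parts and the operators of the group. -/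
inductive TGen (h : DirectSum.IsInternal gr) (L f Φ : Module.End K V) (ρ : G →* Module.End K V)
    (χ : G →* ℚ) : Module.End K V → Module.End K V → Prop
  | L : TGen h L f Φ ρ χ L f
  | f : TGen h L f Φ ρ χ f L
  | proj (j) : TGen h L f Φ ρ χ (proj h j) (proj h j)
  | prm (j) : TGen h L f Φ ρ χ (prm h L Φ j) (prm h L Φ j)
  | rho (g) : TGen h L f Φ ρ χ (ρ g) (scal h (fun i => (χ g : K) ^ i) * ρ g⁻¹)

lemma TGen.adjS {N : ℕ} {F : Subfield K} {σ : F →+* ℂ} {e : Module.Basis (Fin N) K V}
    {S : Matrix (Fin N) (Fin N) ℂ} (hS : Sᴴ = S) (h1 : AdjS F σ e S L f)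
    (h2 : ∀ j, AdjS F σ e S (H914.proj h j) (H914.proj h j))
    (h3 : ∀ j, AdjS F σ e S (W552.prm h L Φ j) (W552.prm h L Φ j))
    (h4 : ∀ g, AdjS F σ e S (ρ g) (scal h (fun i => (χ g : K) ^ i) * ρ g⁻¹)) (u v : Module.End K V)
    (hg : TGen h L f Φ ρ χ u v) : AdjS F σ e S u v := by
  cases hg with
  | L => exact h1
  | f => exact h1.symm hS
  | proj j => exact h2 j
  | prm j => exact h3 j
  | rho g => exact h4 g

section

variable (t : LefStr h n L f) (hΦ : IsLam gr n L Φ) (r : GRep gr L ρ χ φ)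

/-- Rational functions of the degree. -/
lemma gd_scal (hbd : ∀ i, 2 * n + 1 ≤ i → gr i = ⊥) (c : ℕ → ℚ) :
    GD (TGen h L f Φ ρ χ) (scal h (fun i => (c i : K))) (scal h (fun i => (c i : K))) := by
  rw [scal_eq_sum h hbd]
  generalize range (2 * n + 1) = s
  induction s using Finset.induction_on with
  | empty => rw [Finset.sum_empty]; exact GD.zero
  | insert a s ha ih =>
    rw [Finset.sum_insert ha]
    exact ((GD.of (TGen.proj a)).smul (c a)).add ih

include t in
lemma ta_wey : TA (TGen h L f Φ ρ χ) (wey L f) :=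
  TA.wey ⟨_, GD.of TGen.L⟩ ⟨_, GD.of TGen.f⟩ t.sl2.nil_e t.sl2.nil_f

include t in
lemma ta_star : TA (TGen h L f Φ ρ χ) (star' h L f) := by
  rw [star']
  refine (ta_wey t).mul ?_
  have h1 : TA (TGen h L f Φ ρ χ) (scal h (fun i => (((sg i : ℤ) : ℚ) : K))) :=
    ⟨_, gd_scal (n := n) t.hbd (fun i => ((sg i : ℤ) : ℚ))⟩
  simpa using h1

include t in
lemma ta_par : TA (TGen h L f Φ ρ χ) (par h) := by
  have h1 : TA (TGen h L f Φ ρ χ) (scal h (fun i => (((-1) ^ i : ℚ) : K))) :=
    ⟨_, gd_scal (n := n) t.hbd (fun i => ((-1) ^ i : ℚ))⟩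
  simpa [H914.par] using h1

include t r in
lemma gd_symm {u v : Module.End K V} (hg : GD (TGen h L f Φ ρ χ) u v) :
    GD (TGen h L f Φ ρ χ) v u := by
  refine hg.symm ?_
  intro u v hg
  cases hg with
  | L => exact GD.of TGen.f
  | f => exact GD.of TGen.L
  | proj j => exact GD.of (TGen.proj j)
  | prm j => exact GD.of (TGen.prm j)
  | rho g =>
    have h1 := gd_scal (L := L) (f := f) (Φ := Φ) (ρ := ρ) (χ := χ) (h := h) (n := n)
      t.hbd (fun i => (χ g) ^ i)
    have h2 := h1.mul (GD.of (TGen.rho (h := h) (L := L) (f := f) (Φ := Φ) (ρ := ρ) (χ := χ) g⁻¹))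
    simp only [Rat.cast_pow] at h2
    convert h2 using 1
    apply gr_ext h
    intro i a ha
    have h3 : χ g * χ g⁻¹ = 1 := by rw [← map_mul, mul_inv_cancel, map_one]
    rw [Module.End.mul_apply, Module.End.mul_apply, scal_apply _ _ ha, map_smul, inv_inv,
      map_smul, scal_apply _ _ (r.mem g i a ha), smul_smul, ← mul_pow, ← Rat.cast_mul, h3,
      Rat.cast_one, one_pow, one_smul]

end

section Rib

variable (t : LefStr h n L f) (hΦ : IsLam gr n L Φ)

include t hΦ in
/-- The maps `L ^ b x ↦ x` are rational polynomials in the generators. -/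
lemma ta_rib (i b : ℕ) : TA (TGen h L f Φ ρ χ) (rib h L Φ i b) := by
  by_cases hb : n - i < b
  · rw [rib_zero t hΦ hb]; exact TA.zero
  induction b with
  | zero =>
    rw [rib, pow_zero, mul_one]
    exact ⟨_, GD.of (TGen.prm i)⟩
  | succ b ih =>
    have h1 := rib_f t hΦ i b
    have h2 : (((b + 1) * (n - i - b) : ℕ) : ℚ) ≠ 0 := by
      have : (b + 1) * (n - i - b) ≠ 0 := Nat.mul_ne_zero (by omega) (by omega)
      exact_mod_cast this
    have h3 : rib h L Φ i (b + 1) =
        (((((b + 1) * (n - i - b) : ℕ) : ℚ)⁻¹ : ℚ) : K) • (rib h L Φ i b * f) := by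
      have h4 : (((((b + 1) * (n - i - b) : ℕ) : ℚ)⁻¹ : ℚ) : K) *
          (((b + 1) * (n - i - b) : ℕ) : K) = 1 := by
        have h5 : ((((b + 1) * (n - i - b) : ℕ) : ℚ) : K) = (((b + 1) * (n - i - b) : ℕ) : K) :=
          Rat.cast_natCast _
        rw [← h5, ← Rat.cast_mul, inv_mul_cancel₀ h2, Rat.cast_one]
      rw [h1, smul_smul, h4, one_smul]
    rw [h3]
    exact ((ih (by omega)).mul ⟨_, GD.of TGen.f⟩).smul _

include t hΦ in
/-- The inverse Lefschetz operator. -/
lemma ta_lam : TA (TGen h L f Φ ρ χ) Φ := by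
  have h1 : Φ = ∑ i ∈ range (n + 1), ∑ b ∈ range (n + 1), L ^ b * rib h L Φ i (b + 1) := by
    apply ext_lef t
    intro i' hi' x hx hp j hj
    rw [LinearMap.sum_apply, Finset.sum_eq_single i']
    · rw [LinearMap.sum_apply]
      rcases Nat.eq_zero_or_pos j with rfl | h0
      · rw [pow_zero, Module.End.one_apply, (hΦ i' hi' x hx hp).1, Finset.sum_eq_zero]
        intro b _
        have h3 := rib_apply t hΦ hi' hx hp (Nat.zero_le _) i' (b + 1)
        rw [pow_zero, Module.End.one_apply] at h3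
        rw [Module.End.mul_apply, h3, if_neg (by omega), map_zero]
      · obtain ⟨j, rfl⟩ : ∃ j', j = j' + 1 := ⟨j - 1, by omega⟩
        rw [(hΦ i' hi' x hx hp).2 j (by omega), Finset.sum_eq_single j]
        · rw [Module.End.mul_apply, rib_apply t hΦ hi' hx hp hj, if_pos ⟨rfl, rfl⟩]
        · intro b _ hb
          rw [Module.End.mul_apply, rib_apply t hΦ hi' hx hp hj, if_neg (by omega), map_zero]
        · intro h'; exact absurd (mem_range.2 (by omega)) h'
    · intro i _ hi
      rw [LinearMap.sum_apply]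
      apply Finset.sum_eq_zero
      intro b _
      rw [Module.End.mul_apply, rib_apply t hΦ hi' hx hp hj, if_neg (by tauto), map_zero]
    · intro h'; exact absurd (mem_range.2 (by omega)) h'
  have h2 : TA (TGen h L f Φ ρ χ)
      (∑ i ∈ range (n + 1), ∑ b ∈ range (n + 1), L ^ b * rib h L Φ i (b + 1)) := by
    refine TA.ratSub.sum _ fun i _ => TA.ratSub.sum _ fun b _ => ?_
    exact (TA.pow ⟨_, GD.of TGen.L⟩ b).mul (ta_rib t hΦ i (b + 1))
  rwa [← h1] at h2

end Rib

end Gen

end Pool.Agent.W552
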