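import Pool.Agent.W552.TautDefs
import Pool.Agent.W552.TautGD
import Pool.Agent.W552.FrobMain

/-!
# Adjoints of the tautological operators
-/

open CategoryTheory AlgebraicGeometry
open scoped ComplexOrder

universe u v w

namespace Pool.Agent.W552

open Pool.Agent.H914 Pool.Agent.H914.VarClass Pool.Agent.H914.VarClass.Obj
  Pool.Agent.H914.WeilCohomology Pool.Agent.H281R3.HT Pool.Agent.H447

variable {k : Type u} [Field k] {𝒱 : VarClass k} {ops : CycleOps 𝒱}
  {W : WeilCohomology.{u, v} ops}

section Adj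

variable {X : 𝒱.Obj} {D : X.Cycles} {f : Module.End W.K (W.H X)} (F : Fr W X D f)
  (t : LefStr (W.isInternal X) X.dim (LinearMap.mulLeft W.K (W.cl X D)) f)

include F t

lemma bf_symm' {i j : ℕ} {p q : W.H X} (hp : p ∈ W.gr X i)
    (hq : q ∈ W.gr X j) : bf W X D f q p = (-1 : W.K) ^ i * bf W X D f p q := by
  exact t.form_symm (B := bil W X) (fun p q => RSys.bil_self F.hD p q)
    (fun i j a ha b hb hij => W.tr_eq_zero (W.mul_mem ha hb) hij)
    (fun i j a ha b hb => by
      rw [bil_apply, bil_apply, W.comm ha hb, map_smul, smul_eq_mul]) hp hq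

lemma bf_sy (x y : W.H X) : bf W X D f x y = bf W X D f (par (W.isInternal X) y) x := by
  refine gr_induction (W.isInternal X) (p := fun y => bf W X D f x y =
    bf W X D f (par (W.isInternal X) y) x) ?_ ?_ y
  swap
  · intro y y' hy hy'
    rw [map_add, hy, hy', map_add, map_add, LinearMap.add_apply]
  intro j y hy
  refine gr_induction (W.isInternal X) (p := fun x => bf W X D f x y =
    bf W X D f (par (W.isInternal X) y) x) ?_ ?_ x
  swap
  · intro x x' hx hx'
    rw [map_add, LinearMap.add_apply, hx, hx', map_add]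
  intro i x hx
  rw [par, scal_apply _ _ hy, map_smul, LinearMap.smul_apply, smul_eq_mul]
  exact bf_symm' F t hy hx

lemma bf_nondeg' {z : W.H X} (h : ∀ y, bf W X D f y z = 0) : z = 0 := by
  have h1 : st W X D f z = 0 := nondeg_right (fun b => h b)
  have h2 := congrArg (st W X D f) h1
  have h3 : st W X D f * st W X D f = 1 := t.star_star
  rwa [← Module.End.mul_apply, h3, Module.End.one_apply, map_zero] at h2

/-- Adjoint operators are determined by the form. -/
lemma adj_unique {Y : 𝒱.Obj} {u v : W.H Y →ₗ[W.K] W.H X}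
    (h : ∀ a b, bf W X D f a (u b) = bf W X D f a (v b)) : u = v := by
  apply LinearMap.ext
  intro b
  rw [← sub_eq_zero]
  apply bf_nondeg' F t
  intro y
  rw [map_sub, h, sub_self]

/-- The relation of being adjoint is symmetric for algebraic operators. -/
lemma adj_swap {u v : Module.End W.K (W.H X)} (hu : AOp W X X u)
    (h : ∀ a b, bf W X D f (u a) b = bf W X D f a (v b)) (a b : W.H X) :
    bf W X D f (v a) b = bf W X D f a (u b) := by
  obtain ⟨c, hc, rfl⟩ := hu
  rw [bf_sy F t, ← h, bf_sy F t a]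
  congr 1
  have := congrArg (fun G => G b) (par_corr hc)
  exact congrArg _ this.symm

lemma st_f : st W X D f * f = LinearMap.mulLeft W.K (W.cl X D) * st W X D f := by
  apply gr_ext (W.isInternal X)
  intro i a ha
  rw [Module.End.mul_apply, Module.End.mul_apply]
  have h1 := F.f_gr ha
  have hw : wop W X D f * f = -(LinearMap.mulLeft W.K (W.cl X D) * wop W X D f) := wey_f F.sl2
  have hw' : wop W X D f (f a) = -(LinearMap.mulLeft W.K (W.cl X D) (wop W X D f a)) :=
    congrArg (fun G => G a) hw
  by_cases hi : i < 2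
  · rw [h1.2 hi, map_zero, st_apply ha, map_smul]
    rw [h1.2 hi, map_zero] at hw'
    rw [neg_eq_zero.1 hw'.symm, smul_zero]
  · obtain ⟨j, rfl⟩ : ∃ j, i = j + 2 := ⟨i - 2, by omega⟩
    rw [st_apply (h1.1 j rfl), st_apply ha, hw', map_smul, smul_neg, ← neg_smul]
    congr 1
    have h2 := sg_add j 2
    have h3 : sg 2 = -1 := by simp [sg]
    have h4 : (-1 : ℤ) ^ (j * 2) = 1 := by rw [mul_comm, pow_mul]; simp
    rw [h3, h4] at h2
    rw [h2]
    push_cast
    ring

/-- The adjoint of the Lefschetz operator. -/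
lemma bf_L (a b : W.H X) : bf W X D f (LinearMap.mulLeft W.K (W.cl X D) a) b =
    bf W X D f a (f b) := by
  have h1 : st W X D f (f b) = LinearMap.mulLeft W.K (W.cl X D) (st W X D f b) :=
    congrArg (fun G => G b) (st_f F t)
  rw [bf_apply, bf_apply, h1]
  exact RSys.bil_self F.hD a _

lemma bf_f (a b : W.H X) : bf W X D f (f a) b =
    bf W X D f a (LinearMap.mulLeft W.K (W.cl X D) b) :=
  adj_swap F t F.Lop (bf_L F t) a b

lemma bf_proj (j : ℕ) (a b : W.H X) : bf W X D f (proj (W.isInternal X) j a) b =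
    bf W X D f a (proj (W.isInternal X) j b) := by
  refine gr_induction (W.isInternal X) (p := fun a =>
    bf W X D f (proj (W.isInternal X) j a) b = bf W X D f a (proj (W.isInternal X) j b)) ?_ ?_ a
  swap
  · intro x y hx hy
    rw [map_add, map_add, LinearMap.add_apply, hx, hy, map_add, LinearMap.add_apply]
  intro i x hx
  refine gr_induction (W.isInternal X) (p := fun b =>
    bf W X D f (proj (W.isInternal X) j x) b = bf W X D f x (proj (W.isInternal X) j b)) ?_ ?_ b
  swap
  · intro y z hy hz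
    rw [map_add, hy, hz, map_add, map_add]
  intro l y hy
  by_cases hi : i = j
  · subst hi
    rw [proj_same _ hx]
    by_cases hl : l = i
    · subst hl
      rw [proj_same _ hy]
    · rw [proj_ne _ hy hl, map_zero, F.bf_deg hx hy (Ne.symm hl)]
  · rw [proj_ne _ hx hi, map_zero, LinearMap.zero_apply]
    by_cases hl : l = j
    · subst hl
      rw [proj_same _ hy, F.bf_deg hx hy hi]
    · rw [proj_ne _ hy hl, map_zero]

/-- The projectors onto the primitive parts are self-adjoint. -/
lemma bf_prm {Φ : Module.End W.K (W.H X)}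
    (hΦ : IsLam (W.gr X) X.dim (LinearMap.mulLeft W.K (W.cl X D)) Φ) (j : ℕ) (a b : W.H X) :
    bf W X D f (prm (W.isInternal X) (LinearMap.mulLeft W.K (W.cl X D)) Φ j a) b =
      bf W X D f a (prm (W.isInternal X) (LinearMap.mulLeft W.K (W.cl X D)) Φ j b) := by
  set L : Module.End W.K (W.H X) := LinearMap.mulLeft W.K (W.cl X D) with hL
  refine lef_induction' (W.isInternal X) t.hL t.hbd t.hHL (p := fun a =>
    bf W X D f (prm (W.isInternal X) L Φ j a) b =
      bf W X D f a (prm (W.isInternal X) L Φ j b)) ?_ ?_ a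
  · intro x y hx hy
    rw [map_add, map_add, LinearMap.add_apply, hx, hy, map_add, LinearMap.add_apply]
  intro i hi x hx hxp c
  by_cases hc : X.dim - i < c
  · rw [L_pow_gt hxp hc, map_zero, map_zero]
    simp
  refine lef_induction' (W.isInternal X) t.hL t.hbd t.hHL (p := fun b =>
    bf W X D f (prm (W.isInternal X) L Φ j ((L ^ c) x)) b =
      bf W X D f ((L ^ c) x) (prm (W.isInternal X) L Φ j b)) ?_ ?_ b
  · intro y z hy hz
    rw [map_add, hy, hz, map_add, map_add]
  intro i' hi' y hy hyp c'
  by_cases hc' : X.dim - i' < c'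
  · rw [L_pow_gt hyp hc', map_zero, map_zero]
    simp
  rw [prm_apply t hΦ hi hx hxp (by omega), prm_apply t hΦ hi' hy hyp (by omega)]
  have hfx := (t.low hi hx hxp).1
  have hfy := (t.low hi' hy hyp).1
  by_cases h0 : c = 0
  · subst h0
    by_cases h0' : c' = 0
    · subst h0'
      simp only [and_true, pow_zero, Module.End.one_apply]
      by_cases e1 : j = i
      · by_cases e2 : j = i'
        · rw [if_pos e1, if_pos e2]
        · rw [if_pos e1, if_neg e2, map_zero, F.bf_deg hx hy (by omega)]
      · by_cases e2 : j = i'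
        · rw [if_neg e1, if_pos e2, map_zero, LinearMap.zero_apply,
            F.bf_deg hx hy (by omega)]
        · rw [if_neg e1, if_neg e2]
          simp
    · obtain ⟨c', rfl⟩ : ∃ d, c' = d + 1 := ⟨c' - 1, by omega⟩
      have h1 : bf W X D f x ((L ^ (c' + 1)) y) = 0 := by
        rw [pow_succ', Module.End.mul_apply, hL, ← bf_f F t, hfx, map_zero,
          LinearMap.zero_apply]
      rw [if_neg (show ¬ (j = i' ∧ c' + 1 = 0) by omega), map_zero]
      split_ifs
      · exact h1
      · simp
  · rw [if_neg (show ¬ (j = i ∧ c = 0) by omega), map_zero, LinearMap.zero_apply]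
    obtain ⟨c, rfl⟩ : ∃ d, c = d + 1 := ⟨c - 1, by omega⟩
    split_ifs
    · rw [pow_succ', Module.End.mul_apply, hL, bf_L F t, hfy, map_zero]
    · rw [map_zero]

/-- The adjoint of a similitude. -/
lemma bf_sim (htop : ∃ b, W.tr X b ≠ 0) {g g' : W.H X →ₐ[W.K] W.H X} {c : ℚ} (hc : c ≠ 0)
    (hgg : ∀ a, g (g' a) = a) (hg'g : ∀ a, g' (g a) = a)
    (hgr : ∀ i, ∀ a ∈ W.gr X i, g a ∈ W.gr X i) (hgr' : ∀ i, ∀ a ∈ W.gr X i, g' a ∈ W.gr X i)
    (hD : g (W.cl X D) = (c : W.K) • W.cl X D) (a b : W.H X) :
    bf W X D f (g a) b =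
      bf W X D f a (scal (W.isInternal X) (fun i => (c : W.K) ^ i) (g' b)) := by
  set L : Module.End W.K (W.H X) := LinearMap.mulLeft W.K (W.cl X D) with hL
  set n := X.dim with hn
  have hcK : (c : W.K) ≠ 0 := by exact_mod_cast hc
  have hgL : ∀ (m : ℕ) (a : W.H X), g ((L ^ m) a) = (c : W.K) ^ m • (L ^ m) (g a) := by
    intro m
    induction m with
    | zero => intro a; simp
    | succ m ih =>
      intro a
      rw [pow_succ', Module.End.mul_apply, hL, LinearMap.mulLeft_apply, map_mul, hD, ← hL, ih,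
        smul_mul_smul_comm, ← pow_succ']
      rfl
  have hgL' : ∀ (m : ℕ) (a : W.H X), (c : W.K) ^ m • g' ((L ^ m) a) = (L ^ m) (g' a) := by
    intro m a
    have h1 := hgL m (g' a)
    rw [hgg] at h1
    have h2 := congrArg g' h1
    rw [hg'g, map_smul] at h2
    exact h2.symm
  -- the trace
  have htr : ∀ a, W.tr X (g a) = (c : W.K) ^ n * W.tr X a := by
    obtain ⟨b₀, hb₀⟩ := htop
    have h1 : (1 : W.H X) ≠ 0 := by
      intro h0
      apply hb₀
      rw [← one_mul b₀, h0, zero_mul, map_zero]
    set b : W.H X := (L ^ n) 1 with hb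
    have hbm : b ∈ W.gr X (2 * X.dim) := by
      have := pow_L_mem t.hL (W.one_mem X) n
      rwa [zero_add] at this
    have hb0 : W.tr X b ≠ 0 := by
      intro h0
      apply h1
      exact (t.hHL 0 (Nat.zero_le _)).1 1 (W.one_mem X) (by
        rw [Nat.sub_zero]; exact eq_zero_of_top hbm h0)
    have hgb : g b = (c : W.K) ^ n • b := by rw [hb, hgL, map_one]
    intro a
    refine gr_induction (W.isInternal X) (p := fun a => W.tr X (g a) =
      (c : W.K) ^ n * W.tr X a) ?_ ?_ a
    swap
    · intro x y hx hy; rw [map_add, map_add, hx, hy, map_add, mul_add]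
    intro i x hx
    by_cases hi : i = 2 * X.dim
    · subst hi
      have h2 : x = (W.tr X x * (W.tr X b)⁻¹) • b := by
        rw [← sub_eq_zero]
        apply eq_zero_of_top (Submodule.sub_mem _ hx (Submodule.smul_mem _ _ hbm))
        rw [map_sub, map_smul, smul_eq_mul, mul_assoc, inv_mul_cancel₀ hb0, mul_one, sub_self]
      have h3 : W.tr X (g x) = (W.tr X x * (W.tr X b)⁻¹) * ((c : W.K) ^ n * W.tr X b) := by
        conv_lhs => rw [h2]
        rw [map_smul, map_smul, hgb, map_smul, smul_eq_mul, smul_eq_mul]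
      rw [h3]
      field_simp
    · rw [W.tr_eq_zero (hgr i x hx) hi, W.tr_eq_zero hx hi, mul_zero]
  have key : ∀ b, st W X D f (scal (W.isInternal X) (fun i => (c : W.K) ^ i) (g' b)) =
      (c : W.K) ^ n • g' (st W X D f b) := by
    intro b
    refine lef_induction' (W.isInternal X) t.hL t.hbd t.hHL (p := fun b =>
      st W X D f (scal (W.isInternal X) (fun i => (c : W.K) ^ i) (g' b)) =
      (c : W.K) ^ n • g' (st W X D f b)) ?_ ?_ b
    · intro x y hx hy
      rw [map_add, map_add, map_add, hx, hy, map_add, map_add, smul_add]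
    intro i hi x hx hp j
    by_cases hj : X.dim - i < j
    · rw [L_pow_gt hp hj]; simp
    have hmem := pow_L_mem t.hL hx j
    have hp' : (L ^ (X.dim - i + 1)) (g' x) = 0 := by
      rw [← hgL', hp, map_zero, smul_zero]
    have hcj : ∀ m : ℕ, (c : W.K) ^ m ≠ 0 := fun m => pow_ne_zero _ hcK
    have hm : ∀ m : ℕ, g' ((L ^ m) x) = ((c : W.K) ^ m)⁻¹ • (L ^ m) (g' x) := by
      intro m
      rw [← hgL', smul_smul, inv_mul_cancel₀ (hcj m), one_smul]
    have e1 : wop W X D f ((L ^ j) x) = ((-1 : W.K) ^ j * (j.factorial *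
        ((X.dim - i - j).factorial : W.K)⁻¹)) • (L ^ (X.dim - i - j)) x :=
      t.w_L_pow hi hx hp (by omega)
    have e2 : wop W X D f ((L ^ j) (g' x)) = ((-1 : W.K) ^ j * (j.factorial *
        ((X.dim - i - j).factorial : W.K)⁻¹)) • (L ^ (X.dim - i - j)) (g' x) :=
      t.w_L_pow hi (hgr' _ _ hx) hp' (by omega)
    rw [st_apply hmem, e1, scal_apply _ _ (hgr' _ _ hmem), map_smul, st_apply (hgr' _ _ hmem),
      hm j, map_smul, e2, map_smul, map_smul, hm (X.dim - i - j)]
    simp only [smul_smul]
    congr 1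
    have h4 := hcj j
    have h5 := hcj (X.dim - i - j)
    have h6 : (c : W.K) ^ n = (c : W.K) ^ (X.dim - i - j) * (c : W.K) ^ (i + j) := by
      rw [← pow_add]; congr 1; omega
    have h7 : (c : W.K) ^ (i + 2 * j) = (c : W.K) ^ (i + j) * (c : W.K) ^ j := by
      rw [← pow_add]; congr 1; omega
    rw [h6, h7]
    field_simp
  rw [bf_apply, bf_apply, key]
  have h1 : g a * st W X D f b = g (a * g' (st W X D f b)) := by rw [map_mul, hgg]
  rw [h1, htr, mul_smul_comm, map_smul, smul_eq_mul]

end Adj

end Pool.Agent.W552
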