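import Pool.Agent.W552.TautLoc

/-!
# The standard conjecture of Hodge type for the tautological classes on the powers of a variety
-/

open CategoryTheory AlgebraicGeometry Polynomial
open scoped ComplexOrder

universe u v w

namespace Pool.Agent.W552

open Pool.Agent.H914 Pool.Agent.H914.VarClass Pool.Agent.H914.VarClass.Obj
  Pool.Agent.H914.WeilCohomology Pool.Agent.H281R3.HT Pool.Agent.H447

variable {k : Type u} [Field k] {𝒱 : VarClass k} {ops : CycleOps 𝒱}
  {W : WeilCohomology.{u, v} ops} {P : Polarized 𝒱} {fr : P.X ⟶ P.X} {q : ℕ}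
  {A : SimAction W P fr q} {f Φ : Module.End W.K (W.H P.X)}

lemma span_bil {K V V' V'' : Type*} [Field K] [AddCommGroup V] [Module K V] [AddCommGroup V']
    [Module K V'] [AddCommGroup V''] [Module K V''] (B : V →ₗ[K] V' →ₗ[K] V'') {s : Set V}
    {t : Set V'} {r : Submodule K V''} (h : ∀ x ∈ s, ∀ y ∈ t, B x y ∈ r) {x : V} {y : V'}
    (hx : x ∈ Submodule.span K s) (hy : y ∈ Submodule.span K t) : B x y ∈ r := by
  have h1 : ∀ x ∈ s, ∀ y ∈ Submodule.span K t, B x y ∈ r := by
    intro x hx y hy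
    induction hy using Submodule.span_induction with
    | mem y hy => exact h x hx y hy
    | zero => rw [map_zero]; exact Submodule.zero_mem _
    | add a b _ _ ha hb => rw [map_add]; exact Submodule.add_mem _ ha hb
    | smul c a _ ha => rw [map_smul]; exact Submodule.smul_mem _ _ ha
  induction hx using Submodule.span_induction with
  | mem x hx => exact h1 x hx y hy
  | zero => rw [map_zero, LinearMap.zero_apply]; exact Submodule.zero_mem _
  | add a b _ _ ha hb => rw [map_add, LinearMap.add_apply]; exact Submodule.add_mem _ ha hb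
  | smul c a _ ha => rw [map_smul, LinearMap.smul_apply]; exact Submodule.smul_mem _ _ ha

/-- The rational tautological classes. -/
def TR (A : SimAction W P fr q) (f Φ : Module.End W.K (W.H P.X)) (x : W.H (P.X.prod P.X)) :
    Prop := AS W _ x ∧ TA (Tg A f Φ) (W.corr x)

namespace Loc

variable (l : Loc W P f Φ)

include l

lemma tr_of {u : Module.End W.K (W.H P.X)} (h : TA (Tg A f Φ) u) :
    ∃ x, TR A f Φ x ∧ W.corr x = u := by
  obtain ⟨x, hx, hx'⟩ := l.aop h
  exact ⟨x, ⟨hx, by rw [hx']; exact h⟩, hx'⟩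

/-- The transpose. -/
lemma tr_swap {x : W.H (P.X.prod P.X)} (h : TR A f Φ x) :
    TR A f Φ (W.map (swap P.X P.X) x) := by
  obtain ⟨hx, v, hv⟩ := h
  refine ⟨hx.map _, ?_⟩
  have h1 : W.corr (W.map (swap P.X P.X) x) = st W P.X P.D f * v * st W P.X P.D f := by
    apply LinearMap.ext
    intro b
    rw [← sub_eq_zero]
    apply nondeg_right
    intro a
    have h2 := hx.tr_corr a b
    have h3 := l.form hv a (st W P.X P.D f b)
    have h4 : st W P.X P.D f (st W P.X P.D f b) = b := congrArg (fun G => G b) l.st_st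
    rw [bf_apply, bf_apply, h4, h2] at h3
    rw [mul_sub, map_sub, h3]
    exact sub_self _
  rw [h1]
  exact (l.ta_st.mul ⟨_, l.symm hv⟩).mul l.ta_st

/-- The class `1`. -/
lemma tr_one : TR A f Φ 1 := by
  refine ⟨AS.one, ?_⟩
  obtain ⟨d, hd⟩ : ∃ d : ℚ, W.tr P.X ((LinearMap.mulLeft W.K (W.cl P.X P.D) ^ P.X.dim) 1) = d := by
    have h1 : AS W P.X ((LinearMap.mulLeft W.K (W.cl P.X P.D) ^ P.X.dim) 1) :=
      (l.F.Lop.pow _).apply AS.one
    exact h1.tr
  have h1 : W.corr (1 : W.H (P.X.prod P.X)) = (d : W.K) •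
      rib (W.isInternal P.X) (LinearMap.mulLeft W.K (W.cl P.X P.D)) Φ 0 P.X.dim := by
    apply ext_lef l.t
    intro i hi x hx hp j hj
    have h2 : W.corr (1 : W.H (P.X.prod P.X)) (((LinearMap.mulLeft W.K (W.cl P.X P.D)) ^ j) x) =
        W.tr P.X (((LinearMap.mulLeft W.K (W.cl P.X P.D)) ^ j) x) • 1 := by
      have h3 := push_snd (W := W) (X := P.X) (Y := P.X)
        (((LinearMap.mulLeft W.K (W.cl P.X P.D)) ^ j) x) 1
      rw [map_one, mul_one] at h3
      rw [corr_apply, one_mul, h3]
    rw [h2, LinearMap.smul_apply, rib_apply l.t l.hΦ hi hx hp hj]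
    by_cases h3 : i = 0
    · subst h3
      by_cases h4 : j = P.X.dim
      · subst h4
        rw [if_pos ⟨rfl, rfl⟩]
        rw [W.gr_zero, Submodule.mem_span_singleton] at hx
        obtain ⟨c, rfl⟩ := hx
        rw [map_smul, map_smul, hd, smul_eq_mul, smul_smul, mul_comm]
      · rw [if_neg (by omega), smul_zero, W.tr_eq_zero (pow_L_mem l.t.hL hx j) (by omega),
          zero_smul]
    · rw [if_neg (by omega), smul_zero, W.tr_eq_zero (pow_L_mem l.t.hL hx j) (by omega),
        zero_smul]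
  rw [h1]
  exact (ta_rib l.t l.hΦ _ _).smul d

/-- The system of the tautological classes. -/
theorem rSys (hdiag : Diagonalizable W fr) (hRH : RiemannHypothesis W P.X fr q) (Λ : Type) :
    RSys W (fun _ : Λ => P.X) (fun _ => P.D) (fun _ => f) (fun _ _ => TR A f Φ) where
  fr _ := l.F
  ls _ := l.t
  rat _ _ := by
    refine ⟨⟨AS.zero, ?_⟩, ?_, ?_⟩
    · rw [corr_zero]; exact TA.zero
    · rintro x y ⟨hx, hx'⟩ ⟨hy, hy'⟩
      refine ⟨hx.add hy, ?_⟩
      rw [corr_add]
      exact hx'.add hy'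
    · rintro s x ⟨hx, hx'⟩
      refine ⟨hx.smul s, ?_⟩
      rw [corr_smul]
      exact hx'.smul s
  alg h := h.1
  comp := by
    rintro _ _ _ x y ⟨hx, hx'⟩ ⟨hy, hy'⟩
    obtain ⟨z, hz, hz'⟩ := hx.comp hy
    refine ⟨z, ⟨hz, ?_⟩, hz'⟩
    rw [hz']
    exact hy'.mul hx'
  swp h := l.tr_swap h
  one _ := l.tr_of TA.one
  star _ := l.tr_of l.ta_st
  par _ := l.tr_of l.ta_par
  pos := by
    rintro _ _ x ⟨hx, hx'⟩ hx0
    exact l.pos hdiag hRH (p := 1) (one_mul 1) (fun _ _ => rfl) (fun u _ => by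
      rw [mul_one, one_mul]) hx hx' (by rw [mul_one]) hx0

/-- The tautological operators are combinations of the rational ones. -/
lemma taut_span {u : Module.End W.K (W.H P.X)} (hu : u ∈ A.tautAlgebra) :
    u ∈ Submodule.span W.K {u | TA (Tg A f Φ) u} := by
  induction hu using Algebra.adjoin_induction with
  | mem u hu =>
    apply Submodule.subset_span
    rcases hu with ((hu | hu) | hu) | hu
    · rw [Set.mem_singleton_iff.1 hu]
      exact ⟨_, GD.of TGen.L⟩
    · have h1 : u = Φ := by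
        have hu' : IsLam (W.gr P.X) P.X.dim (LinearMap.mulLeft W.K (W.cl P.X P.D)) u := hu
        apply ext_lef l.t
        intro i hi x hx hp j hj
        rcases Nat.eq_zero_or_pos j with rfl | h0
        · rw [pow_zero, Module.End.one_apply, (hu' i hi x hx hp).1, (l.hΦ i hi x hx hp).1]
        · obtain ⟨j, rfl⟩ : ∃ j', j = j' + 1 := ⟨j - 1, by omega⟩
          rw [(hu' i hi x hx hp).2 j (by omega), (l.hΦ i hi x hx hp).2 j (by omega)]
      rw [h1]
      exact ta_lam l.t l.hΦ
    · obtain ⟨i, rfl⟩ := hu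
      exact ⟨_, GD.of (TGen.proj i)⟩
    · obtain ⟨g, rfl⟩ := hu
      exact ⟨_, GD.of (TGen.rho g)⟩
  | algebraMap c =>
    rw [Algebra.algebraMap_eq_smul_one]
    exact Submodule.smul_mem _ _ (Submodule.subset_span TA.one)
  | add x y _ _ hx hy => exact Submodule.add_mem _ hx hy
  | mul x y _ _ hx hy =>
    exact span_bil (LinearMap.mul W.K (Module.End W.K (W.H P.X)))
      (fun x hx y hy => Submodule.subset_span (TA.mul hx hy)) hx hy

lemma corr_span {x : W.H (P.X.prod P.X)} (hx : W.corr x ∈ A.tautAlgebra) :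
    x ∈ Submodule.span W.K {x | TR A f Φ x} := by
  have key : ∀ u ∈ Submodule.span W.K {u | TA (Tg A f Φ) u},
      ∃ y ∈ Submodule.span W.K {x | TR A f Φ x}, W.corr y = u := by
    intro u hu
    induction hu using Submodule.span_induction with
    | mem u hu =>
      obtain ⟨x, hx, hx'⟩ := l.tr_of hu
      exact ⟨x, Submodule.subset_span hx, hx'⟩
    | zero => exact ⟨0, Submodule.zero_mem _, corr_zero W⟩
    | add a b _ _ ha hb =>
      obtain ⟨y, hy, hy'⟩ := ha
      obtain ⟨z, hz, hz'⟩ := hb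
      exact ⟨y + z, Submodule.add_mem _ hy hz, by rw [corr_add, hy', hz']⟩
    | smul c a _ ha =>
      obtain ⟨y, hy, hy'⟩ := ha
      exact ⟨c • y, Submodule.smul_mem _ _ hy, by rw [corr_smul, hy']⟩
  obtain ⟨y, hy, hy'⟩ := key _ (l.taut_span hx)
  have h1 : y = x := by
    rw [← sub_eq_zero]
    apply corr_inj
    have e1 : W.corr (y - x) = W.corr y - W.corr x := map_sub (corrEquiv W P.X) y x
    rw [e1, hy', sub_self]
  rwa [h1] at hy

omit l in
/-- The tautological matchings. -/
lemma matching_span (l : Loc W P f Φ) {n : ℕ} {S : Finset (Fin (n + 1))}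
    {c : W.H (nest ops n (fun _ => P)).X} (hc : IsTautMatching A n S c) :
    c ∈ Submodule.span W.K {c | Mch W (fun _ : Fin (n + 1) => P.X) (fun _ _ => TR A f Φ)
      (prj ops n (fun _ => P)) S c} := by
  induction hc with
  | one => exact Submodule.subset_span Mch.one
  | @divisor S c a j _ ha ih =>
    have h1 : TR A f Φ (W.map (fst P.X P.X) (W.cl P.X P.D ^ j)) := by
      have h2 := l.tr_one (A := A)
      have h3 : W.corr (W.map (fst P.X P.X) (W.cl P.X P.D ^ j)) =
          W.corr (1 : W.H (P.X.prod P.X)) * (LinearMap.mulLeft W.K (W.cl P.X P.D)) ^ j := by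
        apply LinearMap.ext
        intro a
        rw [Module.End.mul_apply, corr_apply, corr_apply, one_mul, ← map_mul,
          LinearMap.pow_mulLeft]
        rfl
      have hj : ∀ j, AS W P.X (W.cl P.X P.D ^ j) := by
        intro j
        induction j with
        | zero => rw [pow_zero]; exact AS.one
        | succ j ih =>
          rw [pow_succ]
          exact ih.mul (AS.of ⟨_, l.F.hD, rfl⟩)
      refine ⟨(hj j).map _, ?_⟩
      rw [h3]
      exact h2.2.mul (TA.pow ⟨_, GD.of TGen.L⟩ j)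
    exact span_bil (LinearMap.mul W.K (W.H (nest ops n (fun _ => P)).X))
      (s := {W.map (prj ops n (fun _ => P) a) (W.cl P.X P.D ^ j)})
      (fun x hx y hy => by
        rw [Set.mem_singleton_iff.1 hx]
        exact Submodule.subset_span (Mch.single hy ha h1))
      (Submodule.subset_span rfl) ih
  | @pair S c a b x _ ha hb hab hx ih =>
    exact span_bil ((LinearMap.mul W.K (W.H (nest ops n (fun _ => P)).X)) ∘ₗ
        (W.map (Obj.lift (prj ops n (fun _ => P) a) (prj ops n (fun _ => P) b))).toLinearMap)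
      (fun x hx y hy => Submodule.subset_span (Mch.pair hy ha hb hab hx))
      (l.corr_span hx) ih

end Loc

/-- **The standard conjecture of Hodge type and the conjecture `D` for the tautological classes.** -/
theorem hodge_taut (hD : P.X.IsCyc 1 P.D)
    (hdeg : 0 < P.X.V.degCycle (divPow ops P.D P.X.dim P.X.V.fundCycle))
    (hHL : HardLefschetz W P.X P.D) (hB : LefschetzB W P.X P.D)
    (hdiag : Diagonalizable W fr) (hRH : RiemannHypothesis W P.X fr q)
    (A : SimAction W P fr q) (n : ℕ) :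
    HodgeTypeOn W (nest ops n (fun _ => P)).X (nest ops n (fun _ => P)).D (A.tautClasses n) ∧
      HomEqNumOn W (nest ops n (fun _ => P)).X (A.tautClasses n) := by
  have htop : ∃ b, W.tr P.X b ≠ 0 := by
    have hn := divPow_mem (ops := ops) hD P.X.dim P.X.V.fundCycle_mem
    rw [zero_add] at hn
    refine ⟨W.cl P.X (divPow ops P.D P.X.dim P.X.V.fundCycle), ?_⟩
    rw [W.tr_cl hn]
    exact_mod_cast hdeg.ne'
  obtain ⟨f, Φ, l⟩ := exists_loc hD hHL hB htop
  have h1 : ∃ s : ℚ, 0 < s ∧ bf W P.X P.D f 1 1 = s :=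
    ⟨_, mul_pos (inv_pos.2 (by exact_mod_cast Nat.factorial_pos _)) hdeg, l.F.bf_one⟩
  obtain ⟨g, hg, hg'⟩ := core (P := fun _ : Fin (n + 1) => P) (l.rSys (A := A) hdiag hRH _)
    (fun _ => l.tr_one) (fun _ => h1)
  have key : ∀ j z, (nest ops n (fun _ => P)).X.IsCyc j z → W.cl _ z ∈ A.tautClasses n →
      W.cl _ z ≠ 0 → ∃ q : ℚ, 0 < q ∧ bf W (nest ops n (fun _ => P)).X
        (nest ops n (fun _ => P)).D g (W.cl _ z) (W.cl _ z) = q := by
    intro j z hz hzs hz0
    refine hg' _ (AS.of ⟨z, hz, rfl⟩) ?_ hz0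
    have h1 : A.tautClasses n ≤ Submodule.span W.K {c | ∃ T, Mch W
        (fun _ : Fin (n + 1) => P.X) (fun _ _ => TR A f Φ) (prj ops n (fun _ => P)) T c} := by
      apply Submodule.span_le.2
      rintro c ⟨S, hc⟩
      refine Submodule.span_mono ?_ (Loc.matching_span l hc)
      intro c hc
      exact ⟨S, hc⟩
    exact h1 hzs
  exact ⟨fun j hj z hz hzs => (hg.hodge hz (key j z hz hzs)).1 hj,
    fun j hj z hz hzs => (hg.hodge hz (key j z hz hzs)).2 hj⟩

end Pool.Agent.W552
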