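import Pool.Agent.W552.WOp
import Pool.Agent.H914R2.Word

/-!
# The components of the Lefschetz decomposition as operators
-/

open Finset

namespace Pool.Agent.W552

open Pool.Agent.H914

set_option linter.unusedSectionVars false

variable {K : Type*} [Field K] [CharZero K] {V : Type*} [AddCommGroup V] [Module K V]
  [Module.Finite K V] {gr : ℕ → Submodule K V} {n : ℕ} {L f Φ : Module.End K V}

/-- The projector onto the primitive part of degree `i`. -/
noncomputable def prm (h : DirectSum.IsInternal gr) (L Φ : Module.End K V) (i : ℕ) :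
    Module.End K V := (1 - L * Φ) * proj h i

/-- The map `L ^ b x ↦ x`, `x` primitive of degree `i`. -/
noncomputable def rib (h : DirectSum.IsInternal gr) (L Φ : Module.End K V) (i b : ℕ) :
    Module.End K V := prm h L Φ i * Φ ^ b

variable {h : DirectSum.IsInternal gr} (t : LefStr h n L f) (hΦ : IsLam gr n L Φ)

include t in
lemma ext_lef {A B : Module.End K V} (hAB : ∀ i ≤ n, ∀ x ∈ gr i, (L ^ (n - i + 1)) x = 0 →
    ∀ j ≤ n - i, A ((L ^ j) x) = B ((L ^ j) x)) : A = B := by
  apply LinearMap.ext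
  intro x
  refine lef_induction' h t.hL t.hbd t.hHL (p := fun x => A x = B x) ?_ ?_ x
  · intro a b ha hb; rw [map_add, map_add, ha, hb]
  · intro i hi x hx hp j
    by_cases hj : j ≤ n - i
    · exact hAB i hi x hx hp j hj
    · rw [L_pow_gt hp (by omega), map_zero, map_zero]

include hΦ t in
lemma prm_apply {i' : ℕ} (hi' : i' ≤ n) {x : V} (hx : x ∈ gr i')
    (hp : (L ^ (n - i' + 1)) x = 0) {j : ℕ} (hj : j ≤ n - i') (i : ℕ) :
    prm h L Φ i ((L ^ j) x) = if i = i' ∧ j = 0 then x else 0 := by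
  have hmem := pow_L_mem t.hL hx j
  rw [prm, Module.End.mul_apply]
  by_cases h1 : i = i' + 2 * j
  · rw [h1, proj_same h hmem]
    rcases Nat.eq_zero_or_pos j with rfl | h2
    · rw [pow_zero, Module.End.one_apply, LinearMap.sub_apply, Module.End.mul_apply,
        (hΦ i' hi' x hx hp).1, map_zero, sub_zero, Module.End.one_apply, if_pos ⟨by omega, rfl⟩]
    · have h3 := (hΦ i' hi' x hx hp).2 (j - 1) (by omega)
      rw [show j - 1 + 1 = j by omega] at h3
      rw [LinearMap.sub_apply, Module.End.mul_apply, h3, ← Module.End.mul_apply L,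
        ← pow_succ', show j - 1 + 1 = j by omega, Module.End.one_apply, sub_self,
        if_neg (by omega)]
  · rw [proj_ne h hmem (Ne.symm h1), map_zero, if_neg]
    rintro ⟨rfl, rfl⟩; apply h1; omega

include hΦ t in
lemma rib_apply {i' : ℕ} (hi' : i' ≤ n) {x : V} (hx : x ∈ gr i')
    (hp : (L ^ (n - i' + 1)) x = 0) {j : ℕ} (hj : j ≤ n - i') (i b : ℕ) :
    rib h L Φ i b ((L ^ j) x) = if i = i' ∧ j = b then x else 0 := by
  rw [rib, Module.End.mul_apply]
  by_cases hb : b ≤ j
  · rw [lam_pow hΦ hi' hx hp hj b hb, prm_apply t hΦ hi' hx hp (by omega)]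
    congr 1
    apply propext
    constructor
    · rintro ⟨h1, h2⟩; exact ⟨h1, by omega⟩
    · rintro ⟨h1, h2⟩; exact ⟨h1, by omega⟩
  · rw [lam_pow_gt hΦ hi' hx hp hj (by omega), map_zero, if_neg]
    rintro ⟨_, rfl⟩; omega

include hΦ t in
lemma rib_zero {i b : ℕ} (hb : n - i < b) : rib h L Φ i b = 0 := by
  apply ext_lef t
  intro i' hi' x hx hp j hj
  rw [rib_apply t hΦ hi' hx hp hj, if_neg, LinearMap.zero_apply]
  rintro ⟨rfl, rfl⟩; omega

include hΦ t in
lemma sum_rib : ∑ i ∈ range (n + 1), ∑ b ∈ range (n + 1), L ^ b * rib h L Φ i b = 1 := by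
  apply ext_lef t
  intro i' hi' x hx hp j hj
  rw [LinearMap.sum_apply, Finset.sum_eq_single i']
  · rw [LinearMap.sum_apply, Finset.sum_eq_single j]
    · rw [Module.End.mul_apply, rib_apply t hΦ hi' hx hp hj, if_pos ⟨rfl, rfl⟩,
        Module.End.one_apply]
    · intro b _ hb
      rw [Module.End.mul_apply, rib_apply t hΦ hi' hx hp hj, if_neg (by tauto), map_zero]
    · intro h'; exact absurd (mem_range.2 (by omega)) h'
  · intro i _ hi
    rw [LinearMap.sum_apply]
    apply Finset.sum_eq_zero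
    intro b _
    rw [Module.End.mul_apply, rib_apply t hΦ hi' hx hp hj, if_neg (by tauto), map_zero]
  · intro h'; exact absurd (mem_range.2 (by omega)) h'

include hΦ t in
lemma rib_L_zero (i : ℕ) : rib h L Φ i 0 * L = 0 := by
  apply ext_lef t
  intro i' hi' x hx hp j hj
  rw [Module.End.mul_apply, ← Module.End.mul_apply L, ← pow_succ', LinearMap.zero_apply]
  by_cases hj' : j + 1 ≤ n - i'
  · rw [rib_apply t hΦ hi' hx hp hj', if_neg (by omega)]
  · rw [L_pow_gt hp (by omega), map_zero]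

include hΦ t in
lemma rib_L_succ {i b : ℕ} (hb : b + 1 ≤ n - i) : rib h L Φ i (b + 1) * L = rib h L Φ i b := by
  apply ext_lef t
  intro i' hi' x hx hp j hj
  rw [Module.End.mul_apply, ← Module.End.mul_apply L, ← pow_succ', rib_apply t hΦ hi' hx hp hj]
  by_cases hj' : j + 1 ≤ n - i'
  · rw [rib_apply t hΦ hi' hx hp hj']
    congr 1
    apply propext
    constructor
    · rintro ⟨h1, h2⟩; exact ⟨h1, by omega⟩
    · rintro ⟨h1, h2⟩; exact ⟨h1, by omega⟩
  · rw [L_pow_gt hp (by omega), map_zero, if_neg]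
    rintro ⟨rfl, rfl⟩; omega

include t in
lemma f_L_pow {i : ℕ} (hi : i ≤ n) {x : V} (hx : x ∈ gr i) (hp : (L ^ (n - i + 1)) x = 0)
    {j : ℕ} (hj : j ≤ n - i) :
    f ((L ^ j) x) = ((j * (n - i + 1 - j) : ℕ) : K) • (L ^ (j - 1)) x := by
  obtain ⟨h1, h2⟩ := t.low hi hx hp
  rcases Nat.eq_zero_or_pos j with rfl | h0
  · rw [pow_zero, Module.End.one_apply, h1]; simp
  · obtain ⟨j, rfl⟩ : ∃ j', j = j' + 1 := ⟨j - 1, by omega⟩
    have h3 := t.sl2.f_e_pow h1 (μ := ((n - i : ℕ) : K)) h2 j
    rw [h3, Nat.add_sub_cancel]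
    congr 1
    rw [show n - i + 1 - (j + 1) = n - i - j by omega, Nat.cast_mul,
      Nat.cast_sub (by omega : j ≤ n - i)]
    push_cast
    ring

include hΦ t in
lemma rib_f (i b : ℕ) : rib h L Φ i b * f =
    (((b + 1) * (n - i - b) : ℕ) : K) • rib h L Φ i (b + 1) := by
  apply ext_lef t
  intro i' hi' x hx hp j hj
  rw [Module.End.mul_apply, f_L_pow t hi' hx hp hj, map_smul, LinearMap.smul_apply,
    rib_apply t hΦ hi' hx hp hj, rib_apply t hΦ hi' hx hp (by omega)]
  by_cases h1 : i = i' ∧ j = b + 1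
  · obtain ⟨rfl, rfl⟩ := h1
    rw [if_pos ⟨rfl, rfl⟩, if_pos ⟨rfl, by omega⟩]
    congr 2
    congr 1
    omega
  · rw [if_neg h1, smul_zero]
    by_cases h2 : i = i' ∧ j - 1 = b
    · obtain ⟨rfl, h3⟩ := h2
      have : j = 0 := by
        by_contra h4
        apply h1
        exact ⟨rfl, by omega⟩
      subst this
      simp
    · rw [if_neg h2, smul_zero]

include hΦ t in
lemma rib_proj (i b j : ℕ) : rib h L Φ i b * proj h j =
    if j = i + 2 * b then rib h L Φ i b else 0 := by
  apply ext_lef t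
  intro i' hi' x hx hp j' hj'
  rw [Module.End.mul_apply]
  have hmem := pow_L_mem t.hL hx j'
  by_cases h1 : i' + 2 * j' = j
  · rw [← h1, proj_same h hmem]
    split_ifs with h2
    · rfl
    · rw [rib_apply t hΦ hi' hx hp hj', if_neg, LinearMap.zero_apply]
      rintro ⟨rfl, rfl⟩; exact h2 rfl
  · rw [proj_ne h hmem h1, map_zero]
    split_ifs with h2
    · rw [rib_apply t hΦ hi' hx hp hj', if_neg]
      rintro ⟨rfl, rfl⟩; exact h1 h2.symm
    · rfl

include hΦ t in
lemma rib_scal (i b : ℕ) (c : ℕ → K) : rib h L Φ i b * scal h c =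
    c (i + 2 * b) • rib h L Φ i b := by
  apply ext_lef t
  intro i' hi' x hx hp j' hj'
  rw [Module.End.mul_apply, scal_apply _ _ (pow_L_mem t.hL hx j'), map_smul,
    LinearMap.smul_apply, rib_apply t hΦ hi' hx hp hj']
  split_ifs with h1
  · rw [h1.1, h1.2]
  · rw [smul_zero, smul_zero]

include hΦ t in
lemma rib_prm (i b j : ℕ) : rib h L Φ i b * prm h L Φ j =
    if i = j ∧ b = 0 then rib h L Φ i b else 0 := by
  apply ext_lef t
  intro i' hi' x hx hp j' hj'
  rw [Module.End.mul_apply, prm_apply t hΦ hi' hx hp hj']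
  by_cases h1 : j = i' ∧ j' = 0
  · rw [if_pos h1]
    obtain ⟨rfl, rfl⟩ := h1
    have h3 := rib_apply t hΦ hi' hx hp (Nat.zero_le _) i b
    rw [pow_zero, Module.End.one_apply] at h3 ⊢
    split_ifs with h2
    · rfl
    · rw [h3, if_neg, LinearMap.zero_apply]
      rintro ⟨h4, h5⟩; exact h2 ⟨h4, h5.symm⟩
  · rw [if_neg h1, map_zero]
    split_ifs with h2
    · obtain ⟨rfl, rfl⟩ := h2
      rw [rib_apply t hΦ hi' hx hp hj', if_neg h1]
    · rfl

include hΦ t in
/-- Operators which preserve the degrees and multiply `L` by a number. -/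
lemma rib_comm {g : Module.End K V} {c : K} (hg : ∀ i, ∀ a ∈ gr i, g a ∈ gr i)
    (hc : c ≠ 0) (hgL : ∀ a, g (L a) = c • L (g a)) (i b : ℕ) :
    rib h L Φ i b * g = c ^ b • (g * rib h L Φ i b) := by
  have hgL' : ∀ (j : ℕ) (a : V), g ((L ^ j) a) = c ^ j • (L ^ j) (g a) := by
    intro j
    induction j with
    | zero => intro a; simp
    | succ j ih =>
      intro a
      rw [pow_succ', Module.End.mul_apply, hgL, ih, map_smul, smul_smul, Module.End.mul_apply,
        pow_succ']
  apply ext_lef t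
  intro i' hi' x hx hp j hj
  have hp' : (L ^ (n - i' + 1)) (g x) = 0 := by
    have h1 := hgL' (n - i' + 1) x
    rw [hp, map_zero] at h1
    exact (smul_eq_zero.1 h1.symm).resolve_left (pow_ne_zero _ hc)
  rw [Module.End.mul_apply, hgL', map_smul, rib_apply t hΦ hi' (hg _ _ hx) hp' hj,
    LinearMap.smul_apply, Module.End.mul_apply, rib_apply t hΦ hi' hx hp hj]
  split_ifs with h1
  · rw [h1.2]
  · rw [smul_zero, map_zero, smul_zero]

/-- The weights. -/
def gam (n i b : ℕ) : ℚ := b.factorial * (n - i).factorial / (n - i - b).factorial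

lemma gam_pos (n i b : ℕ) : 0 < gam n i b := by
  unfold gam
  have h1 : (0 : ℚ) < b.factorial := by exact_mod_cast Nat.factorial_pos _
  have h2 : (0 : ℚ) < (n - i).factorial := by exact_mod_cast Nat.factorial_pos _
  have h3 : (0 : ℚ) < (n - i - b).factorial := by exact_mod_cast Nat.factorial_pos _
  positivity

lemma gam_succ {n i b : ℕ} (hb : b + 1 ≤ n - i) :
    gam n i (b + 1) = gam n i b * ((b + 1) * (n - i - b) : ℕ) := by
  unfold gam
  have h3 : ((n - i - b).factorial : ℚ) = (n - i - b : ℕ) * (n - i - (b + 1)).factorial := by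
    rw [show n - i - b = (n - i - (b + 1)) + 1 by omega, Nat.factorial_succ]
    push_cast
    rfl
  have h4 : ((n - i - (b + 1)).factorial : ℚ) ≠ 0 := by
    exact_mod_cast Nat.factorial_ne_zero _
  have h5 : ((n - i - b : ℕ) : ℚ) ≠ 0 := by
    have : n - i - b ≠ 0 := by omega
    exact_mod_cast this
  rw [h3, Nat.factorial_succ]
  push_cast
  field_simp

end Pool.Agent.W552
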