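import Pool.Agent.W552.PosAdj
import Pool.Agent.W552.TautOps

/-!
# A hermitian form adapted to the Lefschetz decomposition and to a group of similitudes
-/

open Finset Matrix
open scoped ComplexOrder

universe v

namespace Pool.Agent.W552

open Pool.Agent.H914

set_option linter.unusedSectionVars false

variable {K : Type v} [Field K] [CharZero K] {V : Type v} [AddCommGroup V] [Module K V]
  {N : ℕ}

section More

variable {F : Subfield K} {σ : F →+* ℂ} {e : Module.Basis (Fin N) K V}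
  {S : Matrix (Fin N) (Fin N) ℂ} {u v : Module.End K V} {U U' : Matrix (Fin N) (Fin N) ℂ}

lemma AdjS.symm (h : AdjS F σ e S u v) (hS : Sᴴ = S) : AdjS F σ e S v u := by
  obtain ⟨U, V', h1, h2, h3⟩ := h
  refine ⟨V', U, h2, h1, ?_⟩
  have h4 := congrArg conjTranspose h3
  rw [conjTranspose_mul, conjTranspose_mul, conjTranspose_conjTranspose, hS] at h4
  exact h4.symm

lemma Lft.sub {u' : Module.End K V} (h : Lft F σ e u U) (h' : Lft F σ e u' U') :
    Lft F σ e (u - u') (U - U') := by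
  have h1 := h.add (h'.smul (-1))
  simp only [Rat.cast_neg, Rat.cast_one, neg_smul, one_smul, ← sub_eq_add_neg] at h1
  exact h1

lemma Lft.diag {u : Module.End K V} {c : Fin N → K} (hc : ∀ p, c p ∈ F)
    (hu : ∀ p, u (e p) = c p • e p) :
    Lft F σ e u (Matrix.diagonal (fun p => σ ⟨c p, hc p⟩)) := by
  refine ⟨Matrix.diagonal (fun p => (⟨c p, hc p⟩ : F)), ?_, ?_⟩
  · ext i j
    rw [LinearMap.toMatrix_apply, hu, map_smul, Finsupp.smul_apply, Module.Basis.repr_self]
    change ((Matrix.diagonal (fun p => (⟨c p, hc p⟩ : F)) i j : F) : K) = _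
    by_cases hij : i = j
    · subst hij
      rw [Matrix.diagonal_apply_eq, Finsupp.single_eq_same]
      simp
    · rw [Matrix.diagonal_apply_ne _ hij, Finsupp.single_eq_of_ne hij]
      simp
  · ext i j
    change σ (Matrix.diagonal (fun p => (⟨c p, hc p⟩ : F)) i j) = _
    by_cases hij : i = j
    · subst hij
      rw [Matrix.diagonal_apply_eq, Matrix.diagonal_apply_eq]
    · rw [Matrix.diagonal_apply_ne _ hij, Matrix.diagonal_apply_ne _ hij, map_zero]

end More

/-- A representation of a group by similitudes of a Lefschetz structure, with a central element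
`φ` which generates a subgroup of finite index. -/
structure GRep {G : Type} [Group G] (gr : ℕ → Submodule K V) (L : Module.End K V)
    (ρ : G →* Module.End K V) (χ : G →* ℚ) (φ : G) : Prop where
  pos : ∀ g, 0 < χ g
  mem : ∀ g i, ∀ a ∈ gr i, ρ g a ∈ gr i
  hL : ∀ g a, ρ g (L a) = (χ g : K) • L (ρ g a)
  cen : ∀ g, φ * g = g * φ
  fin : Finite (G ⧸ Subgroup.zpowers φ)

namespace GRep

variable {G : Type} [Group G] {gr : ℕ → Submodule K V} {L : Module.End K V}
  {ρ : G →* Module.End K V} {χ : G →* ℚ} {φ : G} (r : GRep gr L ρ χ φ)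

include r

lemma zcen {x : G} (hx : x ∈ Subgroup.zpowers φ) (g : G) : x * g = g * x := by
  have h1 : Subgroup.zpowers φ ≤ Subgroup.center G := by
    rw [Subgroup.zpowers_le, Subgroup.mem_center_iff]
    intro g
    exact (r.cen g).symm
  exact ((Subgroup.mem_center_iff.1 (h1 hx)) g).symm

lemma countable : Countable G := by
  have := r.fin
  have : Function.Surjective (fun x : (G ⧸ Subgroup.zpowers φ) × ℤ => x.1.out * φ ^ x.2) := by
    intro g
    have h1 : ((QuotientGroup.mk g : G ⧸ Subgroup.zpowers φ).out)⁻¹ * g ∈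
        Subgroup.zpowers φ := by
      rw [← QuotientGroup.eq, QuotientGroup.out_eq']
    obtain ⟨k, hk⟩ := h1
    refine ⟨((QuotientGroup.mk g : G ⧸ Subgroup.zpowers φ), k), ?_⟩
    change _ * φ ^ k = g
    have hk' : φ ^ k = ((QuotientGroup.mk g : G ⧸ Subgroup.zpowers φ).out)⁻¹ * g := hk
    rw [hk', mul_inv_cancel_left]
  exact this.countable

lemma ne (g : G) : (χ g : K) ≠ 0 := by exact_mod_cast (r.pos g).ne'

end GRep

section Atoms

variable {G : Type} [Group G] {χ : G →* ℚ} {φ : G} {M : G → Matrix (Fin N) (Fin N) ℂ}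
  {P : Matrix (Fin N) (Fin N) ℂ} {i : ℕ}

/-- The building blocks of the form in degree `i`. -/
noncomputable def atm (χ : G →* ℚ) (M : G → Matrix (Fin N) (Fin N) ℂ)
    (P : Matrix (Fin N) (Fin N) ℂ) (i : ℕ) (g : G) : Matrix (Fin N) (Fin N) ℂ :=
  ((((χ g) ^ i)⁻¹ : ℚ) : ℂ) • ((M g * P)ᴴ * (M g * P))

lemma atm_mul (hpos : ∀ g, 0 < χ g) (hM : ∀ g g', M (g * g') = M g * M g')
    (hMP : ∀ g, P * M g = M g * P) (x g : G) :
    (M g)ᴴ * atm χ M P i x * M g = ((χ g ^ i : ℚ) : ℂ) • atm χ M P i (x * g) := by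
  have h1 : (M g)ᴴ * ((M x * P)ᴴ * (M x * P)) * M g = (M (x * g) * P)ᴴ * (M (x * g) * P) := by
    have h2 : M x * P * M g = M (x * g) * P := by
      rw [Matrix.mul_assoc, hMP, ← Matrix.mul_assoc, hM]
    calc (M g)ᴴ * ((M x * P)ᴴ * (M x * P)) * M g = (M x * P * M g)ᴴ * (M x * P * M g) := by
          rw [conjTranspose_mul (M x * P)]; simp only [Matrix.mul_assoc]
      _ = _ := by rw [h2]
  have hx := (hpos x).ne'
  have hg := (hpos g).ne'
  rw [atm, atm, Matrix.mul_smul, Matrix.smul_mul, h1, smul_smul]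
  congr 1
  rw [← Rat.cast_mul]
  congr 1
  rw [map_mul, mul_pow]
  field_simp

lemma atm_phi (hpos : ∀ g, 0 < χ g) (hM : ∀ g g', M (g * g') = M g * M g')
    (hφ : (M φ)ᴴ * M φ * P = ((χ φ ^ i : ℚ) : ℂ) • P) (hPP : P * P = P)
    (hMP : ∀ g, P * M g = M g * P) (g : G) : atm χ M P i (φ * g) = atm χ M P i g := by
  have h1 : (M (φ * g) * P)ᴴ * (M (φ * g) * P) =
      ((χ φ ^ i : ℚ) : ℂ) • ((M g * P)ᴴ * (M g * P)) := by
    have h2 : M g * P = P * (M g * P) := by rw [← Matrix.mul_assoc, hMP, Matrix.mul_assoc, hPP]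
    calc (M (φ * g) * P)ᴴ * (M (φ * g) * P)
        = (M g * P)ᴴ * ((M φ)ᴴ * M φ * (M g * P)) := by
          rw [hM, Matrix.mul_assoc (M φ), conjTranspose_mul (M φ)]
          simp only [Matrix.mul_assoc]
      _ = (M g * P)ᴴ * ((M φ)ᴴ * M φ * P * (M g * P)) := by
          rw [Matrix.mul_assoc ((M φ)ᴴ * M φ) P (M g * P), ← h2]
      _ = _ := by
          rw [hφ, Matrix.smul_mul, ← h2, Matrix.mul_smul]
  have hf := (hpos φ).ne'
  have hg := (hpos g).ne'
  rw [atm, atm, h1, smul_smul]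
  congr 1
  rw [← Rat.cast_mul]
  congr 1
  rw [map_mul, mul_pow]
  field_simp

lemma atm_zpow (hpos : ∀ g, 0 < χ g) (hM : ∀ g g', M (g * g') = M g * M g')
    (hφ : (M φ)ᴴ * M φ * P = ((χ φ ^ i : ℚ) : ℂ) • P) (hPP : P * P = P)
    (hMP : ∀ g, P * M g = M g * P) {x : G} (hx : x ∈ Subgroup.zpowers φ) (g : G) :
    atm χ M P i (x * g) = atm χ M P i g := by
  obtain ⟨k, rfl⟩ := hx
  change atm χ M P i (φ ^ k * g) = _
  induction k using Int.induction_on with
  | zero => rw [zpow_zero, one_mul]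
  | succ k ih =>
    rw [add_comm, _root_.zpow_add, _root_.zpow_one, mul_assoc, atm_phi hpos hM hφ hPP hMP, ih]
  | pred k ih =>
    rw [← ih, ← atm_phi hpos hM hφ hPP hMP (φ ^ (-(k : ℤ) - 1) * g), ← mul_assoc]
    congr 2
    rw [← _root_.zpow_one_add]
    congr 1
    ring

lemma sum_atm {gr : ℕ → Submodule K V} {L : Module.End K V} {ρ : G →* Module.End K V}
    (r : GRep gr L ρ χ φ) [Fintype (G ⧸ Subgroup.zpowers φ)]
    (hM : ∀ g g', M (g * g') = M g * M g')
    (hφ : (M φ)ᴴ * M φ * P = ((χ φ ^ i : ℚ) : ℂ) • P) (hPP : P * P = P)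
    (hMP : ∀ g, P * M g = M g * P) (g : G) :
    (M g)ᴴ * (∑ κ : G ⧸ Subgroup.zpowers φ, atm χ M P i κ.out) * M g =
      ((χ g ^ i : ℚ) : ℂ) • ∑ κ : G ⧸ Subgroup.zpowers φ, atm χ M P i κ.out := by
  rw [Matrix.mul_sum, Matrix.sum_mul, Finset.smul_sum]
  simp only [atm_mul r.pos hM hMP]
  rw [← Finset.smul_sum, ← Finset.smul_sum]
  congr 1
  set τ : G ⧸ Subgroup.zpowers φ → G ⧸ Subgroup.zpowers φ :=
    fun κ => QuotientGroup.mk (κ.out * g) with hτ
  have hinj : Function.Injective τ := by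
    intro κ κ' h
    rw [hτ] at h
    beta_reduce at h
    rw [QuotientGroup.eq] at h
    have h1 : κ.out⁻¹ * κ'.out ∈ Subgroup.zpowers φ := by
      have h2 := r.zcen h g
      have h3 : κ.out⁻¹ * κ'.out = g * ((κ.out * g)⁻¹ * (κ'.out * g)) * g⁻¹ := by group
      rw [h3, ← h2, mul_inv_cancel_right]
      exact h
    rw [← QuotientGroup.eq, QuotientGroup.out_eq', QuotientGroup.out_eq'] at h1
    exact h1
  refine Fintype.sum_bijective τ (Finite.injective_iff_bijective.1 hinj) _ _ (fun κ => ?_)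
  have h4 : (κ.out * g)⁻¹ * (τ κ).out ∈ Subgroup.zpowers φ := by
    rw [← QuotientGroup.eq, QuotientGroup.out_eq']
  have h5 : (τ κ).out = ((κ.out * g)⁻¹ * (τ κ).out) * (κ.out * g) := by
    rw [r.zcen h4, mul_inv_cancel_left]
  rw [h5, atm_zpow r.pos hM hφ hPP hMP h4]

end Atoms

section Main

variable [Module.Finite K V] {gr : ℕ → Submodule K V} {n : ℕ} {L f Φ : Module.End K V}
  {h : DirectSum.IsInternal gr} {G : Type} [Group G] {ρ : G →* Module.End K V} {χ : G →* ℚ}
  {φ : G}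

lemma proj_rib (t : LefStr h n L f) (hΦ : IsLam gr n L Φ) (i b : ℕ) :
    proj h i * rib h L Φ i b = rib h L Φ i b := by
  apply ext_lef t
  intro i' hi' x hx hp j hj
  rw [Module.End.mul_apply, rib_apply t hΦ hi' hx hp hj]
  split_ifs with h1
  · rw [h1.1, proj_same h hx]
  · rw [map_zero]

/-- **The adapted hermitian form.** -/
theorem exists_S (t : LefStr h n L f) (hΦ : IsLam gr n L Φ) (r : GRep gr L ρ χ φ)
    (e : Module.Basis (Fin N) K V) (dg : Fin N → ℕ) (lam : Fin N → K)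
    (he : ∀ p, e p ∈ gr (dg p)) (hlam : ∀ p, ρ φ (e p) = lam p • e p)
    (hrh : ∀ (F : Subfield K) (σ : F →+* ℂ) (p : Fin N) (hp : lam p ∈ F),
      ‖σ ⟨lam p, hp⟩‖ ^ 2 = ((χ φ : ℚ) : ℝ) ^ dg p) (p₀ : Module.End K V) :
    ∃ (F : Subfield K) (σ : F →+* ℂ) (S : Matrix (Fin N) (Fin N) ℂ), S.PosDef ∧
      AdjS F σ e S L f ∧ (∀ j, AdjS F σ e S (proj h j) (proj h j)) ∧
      (∀ j, AdjS F σ e S (prm h L Φ j) (prm h L Φ j)) ∧
      (∀ g, AdjS F σ e S (ρ g) (scal h (fun i => (χ g : K) ^ i) * ρ g⁻¹)) ∧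
      ∃ P, Lft F σ e p₀ P := by
  classical
  have := r.countable
  -- the field
  set C : Set (Module.End K V) := {L, f, Φ, p₀} ∪ Set.range (proj h) ∪ Set.range ρ with hC
  have hCc : C.Countable := by
    rw [hC]
    exact ((Set.countable_insert.2 (Set.countable_insert.2 (Set.countable_insert.2
      (Set.countable_singleton p₀)))).union (Set.countable_range _)).union
      (Set.countable_range _)
  obtain ⟨F, σ, hF⟩ := exists_subfield_hom
    (⋃ u ∈ C, Set.range (fun x : Fin N × Fin N => LinearMap.toMatrix e e u x.1 x.2))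
    (hCc.biUnion fun u _ => Set.countable_range _)
  have hl : ∀ u ∈ C, ∃ U, Lft F σ e u U := by
    intro u hu
    apply Lft.exists_of_entries
    intro i j
    apply hF
    exact Set.mem_biUnion hu ⟨(i, j), rfl⟩
  obtain ⟨ML, hML⟩ := hl L (by rw [hC]; simp)
  obtain ⟨Mf, hMf⟩ := hl f (by rw [hC]; simp)
  obtain ⟨MΦ, hMΦ⟩ := hl Φ (by rw [hC]; simp)
  obtain ⟨Mp, hMp⟩ := hl p₀ (by rw [hC]; simp)
  choose Pj hPj using fun j => hl (proj h j) (by rw [hC]; simp)
  choose M hM using fun g => hl (ρ g) (by rw [hC]; simp)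
  have hMmul : ∀ g g', M (g * g') = M g * M g' := by
    intro g g'
    have h1 := (hM g).mul (hM g')
    rw [← map_mul] at h1
    exact (hM _).unique h1
  have hMone : M 1 = 1 := by
    have h1 := hM 1
    rw [map_one] at h1
    exact h1.unique Lft.one
  have hPP : ∀ i, Pj i * Pj i = Pj i := by
    intro i
    have h1 := (hPj i).mul (hPj i)
    rw [proj_mul_proj] at h1
    exact h1.unique (hPj i)
  have hcomm : ∀ i g, proj h i * ρ g = ρ g * proj h i := by
    intro i g
    apply gr_ext h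
    intro j a ha
    rw [Module.End.mul_apply, Module.End.mul_apply]
    by_cases hij : j = i
    · subst hij
      rw [proj_same h ha, proj_same h (r.mem g j a ha)]
    · rw [proj_ne h ha hij, proj_ne h (r.mem g j a ha) hij, map_zero]
  have hMP : ∀ i g, Pj i * M g = M g * Pj i := by
    intro i g
    have h1 := (hPj i).mul (hM g)
    rw [hcomm] at h1
    exact h1.unique ((hM g).mul (hPj i))
  have hlamF : ∀ p, lam p ∈ F := by
    intro p
    have h1 : lam p = LinearMap.toMatrix e e (ρ φ) p p := by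
      rw [LinearMap.toMatrix_apply, hlam, map_smul, Finsupp.smul_apply,
        Module.Basis.repr_self, Finsupp.single_eq_same, smul_eq_mul, mul_one]
    rw [h1]
    apply hF
    exact Set.mem_biUnion (show ρ φ ∈ C by rw [hC]; simp) ⟨(p, p), rfl⟩
  have hMφ : M φ = Matrix.diagonal (fun p => σ ⟨lam p, hlamF p⟩) :=
    (hM φ).unique (Lft.diag hlamF hlam)
  have hPjd : ∀ i, Pj i = Matrix.diagonal (fun p => if dg p = i then (1 : ℂ) else 0) := by
    intro i
    have h0 : ∀ p, (if dg p = i then (1 : K) else 0) ∈ F := by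
      intro p
      split_ifs
      · exact F.one_mem
      · exact F.zero_mem
    have h1 := (hPj i).unique (Lft.diag h0 (by
      intro p
      split_ifs with h2
      · rw [one_smul]; subst h2; exact proj_same h (he p)
      · rw [zero_smul]; exact proj_ne h (he p) h2))
    rw [h1]
    congr 1
    ext p
    by_cases h2 : dg p = i
    · simp only [h2, if_true]
      exact map_one σ
    · simp only [h2, if_false]
      exact map_zero σ
  have hφP : ∀ i, (M φ)ᴴ * M φ * Pj i = ((χ φ ^ i : ℚ) : ℂ) • Pj i := by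
    intro i
    rw [hMφ, hPjd, diagonal_conjTranspose, diagonal_mul_diagonal, diagonal_mul_diagonal,
      ← diagonal_smul]
    congr 1
    ext p
    simp only [Pi.smul_apply, Pi.star_apply, smul_eq_mul]
    by_cases h2 : dg p = i
    · rw [if_pos h2, mul_one, mul_one]
      have h3 := hrh F σ p (hlamF p)
      rw [h2] at h3
      have h4 : star (σ ⟨lam p, hlamF p⟩) * σ ⟨lam p, hlamF p⟩ =
          ((‖σ ⟨lam p, hlamF p⟩‖ ^ 2 : ℝ) : ℂ) := by
        rw [Complex.star_def, ← Complex.normSq_eq_conj_mul_self, Complex.normSq_eq_norm_sq]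
      rw [h4, h3]
      push_cast
      rfl
    · rw [if_neg h2, mul_zero, mul_zero]
  have hfin := r.fin
  have : Fintype (G ⧸ Subgroup.zpowers φ) := Fintype.ofFinite _
  set Sg : ℕ → Matrix (Fin N) (Fin N) ℂ :=
    fun i => ∑ κ : G ⧸ Subgroup.zpowers φ, atm χ M (Pj i) i κ.out with hSg
  have hSgM : ∀ i g, (M g)ᴴ * Sg i * M g = ((χ g ^ i : ℚ) : ℂ) • Sg i :=
    fun i g => sum_atm r hMmul (hφP i) (hPP i) (hMP i) g
  -- the components
  set Nb : ℕ → ℕ → Matrix (Fin N) (Fin N) ℂ :=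
    fun i b => (1 - ML * MΦ) * Pj i * MΦ ^ b with hNbdef
  have hprm : ∀ j, Lft F σ e (prm h L Φ j) ((1 - ML * MΦ) * Pj j) :=
    fun j => (Lft.one.sub (hML.mul hMΦ)).mul (hPj j)
  have hNb : ∀ i b, Lft F σ e (rib h L Φ i b) (Nb i b) := fun i b => (hprm i).mul (hMΦ.pow b)
  have hNbM : ∀ i b g, Nb i b * M g = ((χ g ^ b : ℚ) : ℂ) • (M g * Nb i b) := by
    intro i b g
    have h1 := (hNb i b).mul (hM g)
    rw [rib_comm t hΦ (r.mem g) (r.ne g) (r.hL g)] at h1
    have h2 := ((hM g).mul (hNb i b)).smul (χ g ^ b)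
    rw [Rat.cast_pow] at h2
    exact h1.unique h2
  have hNbf : ∀ i b, Nb i b * Mf = ((((b + 1) * (n - i - b) : ℕ) : ℚ) : ℂ) • Nb i (b + 1) := by
    intro i b
    have h1 := (hNb i b).mul hMf
    rw [rib_f t hΦ] at h1
    have h2 := (hNb i (b + 1)).smul (((b + 1) * (n - i - b) : ℕ) : ℚ)
    rw [Rat.cast_natCast] at h2
    exact h1.unique h2
  have hNb0 : ∀ i b, n - i < b → Nb i b = 0 := by
    intro i b hb
    have h1 := hNb i b
    rw [rib_zero t hΦ hb] at h1
    exact h1.unique Lft.zero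
  have hNbL0 : ∀ i, Nb i 0 * ML = 0 := by
    intro i
    have h1 := (hNb i 0).mul hML
    rw [rib_L_zero t hΦ] at h1
    exact h1.unique Lft.zero
  have hNbL : ∀ i b, b + 1 ≤ n - i → Nb i (b + 1) * ML = Nb i b := by
    intro i b hb
    have h1 := (hNb i (b + 1)).mul hML
    rw [rib_L_succ t hΦ hb] at h1
    exact h1.unique (hNb i b)
  set T : ℕ → ℕ → Matrix (Fin N) (Fin N) ℂ := fun i b => (Nb i b)ᴴ * Sg i * Nb i b with hT
  set S : Matrix (Fin N) (Fin N) ℂ := ∑ i ∈ range (n + 1), ∑ b ∈ range (n + 1),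
    ((gam n i b : ℚ) : ℂ) • T i b with hS
  have hdiag : ∀ (Q : Matrix (Fin N) (Fin N) ℂ) (c : ℕ → ℕ → ℚ),
      (∀ i b, Nb i b * Q = ((c i b : ℚ) : ℂ) • Nb i b) → Qᴴ * S = S * Q := by
    intro Q c hc
    rw [hS, Matrix.mul_sum, Matrix.sum_mul]
    apply Finset.sum_congr rfl
    intro i _
    rw [Matrix.mul_sum, Matrix.sum_mul]
    apply Finset.sum_congr rfl
    intro b _
    have e1 : Qᴴ * T i b = ((c i b : ℚ) : ℂ) • T i b := by
      have e0 : Qᴴ * T i b = (Nb i b * Q)ᴴ * Sg i * Nb i b := by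
        rw [hT, conjTranspose_mul]
        simp only [Matrix.mul_assoc]
      rw [e0, hc, conjTranspose_smul, hT, Matrix.smul_mul, Matrix.smul_mul]
      congr 1
      simp
    have e2 : T i b * Q = ((c i b : ℚ) : ℂ) • T i b := by
      rw [hT]
      change (Nb i b)ᴴ * Sg i * Nb i b * Q = _
      rw [Matrix.mul_assoc _ (Nb i b) Q, hc, Matrix.mul_smul]
    rw [Matrix.mul_smul, Matrix.smul_mul, e1, e2]
  refine ⟨F, σ, S, ?_, ?_, ?_, ?_, ?_, Mp, hMp⟩
  · -- positivity
    have hPN : ∀ i b, Pj i * Nb i b = Nb i b := by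
      intro i b
      have h1 := (hPj i).mul (hNb i b)
      rw [proj_rib t hΦ] at h1
      exact h1.unique (hNb i b)
    set J := (G ⧸ Subgroup.zpowers φ) × Fin (n + 1) × Fin (n + 1) with hJ
    have hcard : ((Fintype.card (G ⧸ Subgroup.zpowers φ) : ℕ) : ℂ) ≠ 0 := by
      have : Nonempty (G ⧸ Subgroup.zpowers φ) := ⟨QuotientGroup.mk 1⟩
      exact_mod_cast Fintype.card_ne_zero
    have h1 := posDef_sum (J := J)
      (fun k => ((gam n k.2.1 k.2.2 * ((χ k.1.out) ^ (k.2.1 : ℕ))⁻¹ : ℚ) : ℝ))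
      (fun k => by
        have h2 := gam_pos n k.2.1 k.2.2
        have h3 := r.pos k.1.out
        have h4 : 0 < gam n k.2.1 k.2.2 * ((χ k.1.out) ^ (k.2.1 : ℕ))⁻¹ := by positivity
        exact_mod_cast h4)
      (fun k => M k.1.out * Nb k.2.1 k.2.2)
      (fun k => (((Fintype.card (G ⧸ Subgroup.zpowers φ) : ℕ) : ℂ)⁻¹) •
        (ML ^ (k.2.2 : ℕ) * M (k.1.out)⁻¹)) (by
        have hterm : ∀ k : J, (((Fintype.card (G ⧸ Subgroup.zpowers φ) : ℕ) : ℂ)⁻¹ •
            (ML ^ (k.2.2 : ℕ) * M (k.1.out)⁻¹)) * (M k.1.out * Nb k.2.1 k.2.2) =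
            (((Fintype.card (G ⧸ Subgroup.zpowers φ) : ℕ) : ℂ)⁻¹) •
              (ML ^ (k.2.2 : ℕ) * Nb k.2.1 k.2.2) := by
          intro k
          rw [Matrix.smul_mul]
          congr 1
          calc ML ^ (k.2.2 : ℕ) * M (k.1.out)⁻¹ * (M k.1.out * Nb k.2.1 k.2.2)
              = ML ^ (k.2.2 : ℕ) * ((M (k.1.out)⁻¹ * M k.1.out) * Nb k.2.1 k.2.2) := by
                simp only [Matrix.mul_assoc]
            _ = _ := by rw [← hMmul, inv_mul_cancel, hMone, Matrix.one_mul]
        simp only [hterm]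
        rw [Fintype.sum_prod_type]
        simp only
        rw [Finset.sum_const, Finset.card_univ, Fintype.sum_prod_type]
        have h5 : ∑ x : Fin (n + 1), ∑ y : Fin (n + 1),
            (((Fintype.card (G ⧸ Subgroup.zpowers φ) : ℕ) : ℂ)⁻¹) •
              (ML ^ (y : ℕ) * Nb x y) =
            (((Fintype.card (G ⧸ Subgroup.zpowers φ) : ℕ) : ℂ)⁻¹) •
              (1 : Matrix (Fin N) (Fin N) ℂ) := by
          simp only [← Finset.smul_sum]
          congr 1
          have h6 : Lft F σ e (1 : Module.End K V)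
              (∑ x : Fin (n + 1), ∑ y : Fin (n + 1), (ML ^ (y : ℕ) * Nb x y)) := by
            have h7 : (1 : Module.End K V) = ∑ x : Fin (n + 1), ∑ y : Fin (n + 1),
                L ^ (y : ℕ) * rib h L Φ x y := by
              rw [← sum_rib t hΦ, ← Fin.sum_univ_eq_sum_range
                (fun i => ∑ b ∈ range (n + 1), L ^ b * rib h L Φ i b) (n + 1)]
              apply Finset.sum_congr rfl
              intro x _
              rw [← Fin.sum_univ_eq_sum_range (fun b => L ^ b * rib h L Φ x b) (n + 1)]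
            rw [h7]
            exact Lft.sum _ fun x _ => Lft.sum _ fun y _ => (hML.pow _).mul (hNb _ _)
          exact h6.unique Lft.one
        rw [h5, ← Nat.cast_smul_eq_nsmul ℂ, smul_smul, mul_inv_cancel₀ hcard, one_smul])
    have h2 : S = ∑ k : J, (((gam n k.2.1 k.2.2 * ((χ k.1.out) ^ (k.2.1 : ℕ))⁻¹ : ℚ) : ℝ) : ℂ) •
        ((M k.1.out * Nb k.2.1 k.2.2)ᴴ * (M k.1.out * Nb k.2.1 k.2.2)) := by
      rw [hS, Fintype.sum_prod_type_right, Fintype.sum_prod_type, ← Fin.sum_univ_eq_sum_range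
        (fun i => ∑ b ∈ range (n + 1), ((gam n i b : ℚ) : ℂ) • T i b) (n + 1)]
      apply Finset.sum_congr rfl
      intro x _
      rw [← Fin.sum_univ_eq_sum_range (fun b => ((gam n x b : ℚ) : ℂ) • T x b) (n + 1)]
      apply Finset.sum_congr rfl
      intro y _
      simp only
      rw [hT, hSg]
      change ((gam n x y : ℚ) : ℂ) • ((Nb x y)ᴴ * (∑ κ : G ⧸ Subgroup.zpowers φ,
        atm χ M (Pj x) x κ.out) * Nb x y) = _
      rw [Matrix.mul_sum, Matrix.sum_mul, Finset.smul_sum]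
      apply Finset.sum_congr rfl
      intro κ _
      rw [atm, Matrix.mul_smul, Matrix.smul_mul, smul_smul]
      congr 1
      · push_cast
        rfl
      · have h3 : M κ.out * Pj x * Nb x y = M κ.out * Nb x y := by
          rw [Matrix.mul_assoc, hPN]
        rw [← h3, conjTranspose_mul (M κ.out * Pj x)]
        simp only [Matrix.mul_assoc]
    rw [h2]
    exact h1
  · -- `L` and `f`
    refine ⟨ML, Mf, hML, hMf, ?_⟩
    rw [hS, Matrix.mul_sum, Matrix.sum_mul]
    apply Finset.sum_congr rfl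
    intro i _
    rw [Matrix.mul_sum, Matrix.sum_mul]
    have e1 : ∀ b, MLᴴ * (((gam n i b : ℚ) : ℂ) • T i b) =
        ((gam n i b : ℚ) : ℂ) • ((Nb i b * ML)ᴴ * Sg i * Nb i b) := by
      intro b
      rw [Matrix.mul_smul, hT, conjTranspose_mul]
      simp only [Matrix.mul_assoc]
    have e2 : ∀ b, ((gam n i b : ℚ) : ℂ) • T i b * Mf =
        ((gam n i b : ℚ) : ℂ) • ((Nb i b)ᴴ * Sg i * (Nb i b * Mf)) := by
      intro b
      rw [Matrix.smul_mul, hT]
      simp only [Matrix.mul_assoc]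
    simp only [e1, e2]
    rw [Finset.sum_range_succ', Finset.sum_range_succ, hNbL0, conjTranspose_zero,
      Matrix.zero_mul, Matrix.zero_mul, smul_zero, add_zero, hNbf i n,
      hNb0 i (n + 1) (by omega), smul_zero, Matrix.mul_zero, smul_zero, add_zero]
    apply Finset.sum_congr rfl
    intro b _
    by_cases hb : b + 1 ≤ n - i
    · rw [hNbL i b hb, hNbf, Matrix.mul_smul, smul_smul, gam_succ hb]
      congr 1
      push_cast
      rfl
    · rw [hNbf, hNb0 i (b + 1) (by omega)]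
      simp
  · intro j
    refine ⟨Pj j, Pj j, hPj j, hPj j, hdiag _ (fun i b => if j = i + 2 * b then 1 else 0) ?_⟩
    intro i b
    have h1 := (hNb i b).mul (hPj j)
    rw [rib_proj t hΦ] at h1
    split_ifs at h1 ⊢ with h2
    · rw [h1.unique (hNb i b)]; simp
    · rw [h1.unique Lft.zero]; simp
  · intro j
    refine ⟨_, _, hprm j, hprm j, hdiag _ (fun i b => if i = j ∧ b = 0 then 1 else 0) ?_⟩
    intro i b
    have h1 := (hNb i b).mul (hprm j)
    rw [rib_prm t hΦ] at h1
    split_ifs at h1 ⊢ with h2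
    · rw [h1.unique (hNb i b)]; simp
    · rw [h1.unique Lft.zero]; simp
  · intro g
    set Ms : Matrix (Fin N) (Fin N) ℂ :=
      ∑ j ∈ range (2 * n + 1), ((χ g ^ j : ℚ) : ℂ) • Pj j with hMs
    have hsc : Lft F σ e (scal h (fun i => (χ g : K) ^ i)) Ms := by
      rw [scal_eq_sum h t.hbd, hMs]
      apply Lft.sum
      intro j _
      have h1 := (hPj j).smul (χ g ^ j)
      rw [Rat.cast_pow] at h1
      exact h1
    refine ⟨M g, Ms * M g⁻¹, hM g, hsc.mul (hM _), ?_⟩
    have hNbs : ∀ i b, Nb i b * Ms = ((χ g ^ (i + 2 * b) : ℚ) : ℂ) • Nb i b := by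
      intro i b
      have h1 := (hNb i b).mul hsc
      rw [rib_scal t hΦ] at h1
      have h2 := (hNb i b).smul (χ g ^ (i + 2 * b))
      rw [Rat.cast_pow] at h2
      exact h1.unique h2
    have hkey : (M g)ᴴ * S * M g = S * Ms := by
      rw [hS, Matrix.mul_sum, Matrix.sum_mul, Matrix.sum_mul]
      apply Finset.sum_congr rfl
      intro i _
      rw [Matrix.mul_sum, Matrix.sum_mul, Matrix.sum_mul]
      apply Finset.sum_congr rfl
      intro b _
      have e1 : (M g)ᴴ * T i b * M g = ((χ g ^ (i + 2 * b) : ℚ) : ℂ) • T i b := by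
        have e0 : (M g)ᴴ * T i b * M g = (Nb i b * M g)ᴴ * Sg i * (Nb i b * M g) := by
          rw [hT, conjTranspose_mul]
          simp only [Matrix.mul_assoc]
        have e3 : (M g * Nb i b)ᴴ * Sg i * (M g * Nb i b) =
            ((χ g ^ i : ℚ) : ℂ) • T i b := by
          calc (M g * Nb i b)ᴴ * Sg i * (M g * Nb i b)
              = (Nb i b)ᴴ * ((M g)ᴴ * Sg i * M g) * Nb i b := by
                rw [conjTranspose_mul]; simp only [Matrix.mul_assoc]
            _ = _ := by rw [hSgM, Matrix.mul_smul, Matrix.smul_mul]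
        rw [e0, hNbM, conjTranspose_smul, Matrix.smul_mul, Matrix.mul_smul, Matrix.smul_mul,
          e3, smul_smul, smul_smul]
        congr 1
        simp only [Complex.star_def, map_ratCast]
        push_cast
        ring
      have e2 : T i b * Ms = ((χ g ^ (i + 2 * b) : ℚ) : ℂ) • T i b := by
        rw [hT]
        change (Nb i b)ᴴ * Sg i * Nb i b * Ms = _
        rw [Matrix.mul_assoc _ (Nb i b) Ms, hNbs, Matrix.mul_smul]
      rw [Matrix.mul_smul, Matrix.smul_mul, Matrix.smul_mul, e1, e2]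
    calc (M g)ᴴ * S = (M g)ᴴ * S * (M g * M g⁻¹) := by
          rw [← hMmul, mul_inv_cancel, hMone, Matrix.mul_one]
      _ = ((M g)ᴴ * S * M g) * M g⁻¹ := by simp only [Matrix.mul_assoc]
      _ = _ := by rw [hkey, Matrix.mul_assoc]

end Main

end Pool.Agent.W552
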