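import Pool.Agent.W552.Fr

/-!
# Classes on a product of two varieties as operators: coordinates
-/

open CategoryTheory AlgebraicGeometry

universe u v w

namespace Pool.Agent.W552

open Pool.Agent.H914 Pool.Agent.H914.VarClass Pool.Agent.H914.VarClass.Obj
  Pool.Agent.H914.WeilCohomology Pool.Agent.H281R3.HT Pool.Agent.H447

variable {k : Type u} [Field k] {𝒱 : VarClass k} {ops : CycleOps 𝒱}
  {W : WeilCohomology.{u, v} ops} {X Y Z : 𝒱.Obj}

/-- The operator `z ↦ c (star z)` with the correct sign. -/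
noncomputable def th (W : WeilCohomology.{u, v} ops) {X Y : 𝒱.Obj} (D : X.Cycles)
    (f : Module.End W.K (W.H X)) (c : W.H (X.prod Y)) : W.H X →ₗ[W.K] W.H Y :=
  W.corr c ∘ₗ (par (W.isInternal X) * st W X D f)

/-- A homogeneous basis of the cohomology. -/
structure HB (W : WeilCohomology.{u, v} ops) (X : 𝒱.Obj) where
  /-- the number of elements -/
  N : ℕ
  /-- the basis -/
  e : Module.Basis (Fin N) W.K (W.H X)
  /-- the degrees -/
  dg : Fin N → ℕ
  mem : ∀ p, e p ∈ W.gr X (dg p)

lemma exists_HB (W : WeilCohomology.{u, v} ops) (X : 𝒱.Obj) : Nonempty (HB W X) := by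
  classical
  have h := W.isInternal X
  let v : ∀ i, Module.Basis (Fin (Module.finrank W.K (W.gr X i))) W.K (W.gr X i) :=
    fun i => Module.finBasis W.K (W.gr X i)
  let b := h.collectedBasis v
  have : Finite (Σ i, Fin (Module.finrank W.K (W.gr X i))) := Module.Finite.finite_basis b
  have := Fintype.ofFinite (Σ i, Fin (Module.finrank W.K (W.gr X i)))
  let φ := Fintype.equivFin (Σ i, Fin (Module.finrank W.K (W.gr X i)))
  refine ⟨⟨_, b.reindex φ, fun p => (φ.symm p).1, ?_⟩⟩
  intro p
  rw [Module.Basis.reindex_apply]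
  exact h.collectedBasis_mem v _

/-- The basis of external products. -/
noncomputable def HB.ex (bX : HB W X) (bY : HB W Y) :
    Module.Basis (Fin bX.N × Fin bY.N) W.K (W.H (X.prod Y)) :=
  (bX.e.tensorProduct bY.e).map (kappa W X Y)

lemma HB.ex_apply (bX : HB W X) (bY : HB W Y) (p : Fin bX.N) (q : Fin bY.N) :
    bX.ex bY (p, q) = ext W (bX.e p) (bY.e q) := by
  rw [HB.ex, Module.Basis.map_apply, Module.Basis.tensorProduct_apply, kappa_tmul]
  rfl

lemma HB.repr_gr (bX : HB W X) (bY : HB W Y) {d : ℕ} {c : W.H (X.prod Y)}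
    (hc : c ∈ W.gr (X.prod Y) d) {x : Fin bX.N × Fin bY.N} (hx : bX.dg x.1 + bY.dg x.2 ≠ d) :
    (bX.ex bY).repr c x = 0 := by
  classical
  have h1 : c = ∑ y, (bX.ex bY).repr c y • proj (W.isInternal (X.prod Y)) d (bX.ex bY y) := by
    conv_lhs => rw [← proj_same (W.isInternal (X.prod Y)) hc, ← (bX.ex bY).sum_repr c]
    rw [map_sum]
    simp only [map_smul]
  have h2 : ∀ y : Fin bX.N × Fin bY.N, proj (W.isInternal (X.prod Y)) d (bX.ex bY y) =
      (if bX.dg y.1 + bY.dg y.2 = d then (1 : W.K) else 0) • bX.ex bY y := by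
    rintro ⟨p, q⟩
    have hm : bX.ex bY (p, q) ∈ W.gr (X.prod Y) (bX.dg p + bY.dg q) := by
      rw [HB.ex_apply]
      exact W.mul_mem (W.map_mem _ (bX.mem p)) (W.map_mem _ (bY.mem q))
    by_cases h0 : bX.dg p + bY.dg q = d
    · rw [if_pos h0, one_smul]
      exact proj_same _ (h0 ▸ hm)
    · rw [if_neg h0, zero_smul]
      exact proj_ne _ hm h0
  rw [h1]
  simp only [h2, map_sum, map_smul, Module.Basis.repr_self, smul_smul]
  rw [Finsupp.finsetSum_apply, Finset.sum_eq_single x]
  · rw [if_neg hx]; simp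
  · intro y _ hy
    rw [Finsupp.smul_apply, Finsupp.single_eq_of_ne (Ne.symm hy), smul_zero]
  · intro h0; exact absurd (Finset.mem_univ _) h0

lemma HB.repr_odd (bX : HB W X) (bY : HB W Y) {c : W.H (X.prod Y)} (hc : AS W _ c)
    {x : Fin bX.N × Fin bY.N} (hx : ¬ Even (bX.dg x.1 + bY.dg x.2)) :
    (bX.ex bY).repr c x = 0 := by
  refine AS.ind (p := fun c => (bX.ex bY).repr c x = 0) ?_ ?_ hc
  · intro j c hc
    apply bX.repr_gr bY (alg_gr hc)
    intro h0
    apply hx
    rw [h0]
    exact even_two_mul j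
  · intro a b ha hb
    rw [map_add, Finsupp.add_apply, ha, hb, add_zero]

section

variable {D : X.Cycles} {f : Module.End W.K (W.H X)} (F : Fr W X D f)

include F

lemma th_ext {i j : ℕ} {x : W.H X} (hx : x ∈ W.gr X i) {y : W.H Y} (hy : y ∈ W.gr Y j)
    (hij : Even (i + j)) (z : W.H X) : th W D f (ext W x y) z = bf W X D f x z • y := by
  refine gr_induction (W.isInternal X) (p := fun z => th W D f (ext W x y) z =
    bf W X D f x z • y) ?_ ?_ z
  swap
  · intro a b ha hb
    rw [map_add, ha, hb, map_add, add_smul]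
  intro m z hz
  by_cases hm : m ≤ 2 * X.dim
  swap
  · rw [W.gr_eq_bot X m (by omega)] at hz
    rw [(Submodule.mem_bot _).1 hz]; simp
  have hsz : st W X D f z ∈ W.gr X (2 * X.dim - m) := by
    rw [st_apply hz]
    exact Submodule.smul_mem _ _ (F.w_mem hm hz)
  rw [th, LinearMap.comp_apply, Module.End.mul_apply, par, scal_apply _ _ hsz, map_smul,
    corr_apply, ext, mul_assoc, W.comm (W.map_mem (snd X Y) hy) (W.map_mem (fst X Y) hsz),
    mul_smul_comm, ← mul_assoc, ← map_mul, map_smul, push_snd, smul_smul, smul_smul, bf_apply]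
  by_cases hmi : m = i
  · subst hmi
    congr 1
    have h1 : (-1 : W.K) ^ (2 * X.dim - m) * (-1) ^ (j * (2 * X.dim - m)) = 1 := by
      rw [← pow_add, show 2 * X.dim - m + j * (2 * X.dim - m) = (j + 1) * (2 * X.dim - m) by ring]
      apply Even.neg_one_pow
      rcases Nat.even_or_odd m with h | h
      · apply Even.mul_left
        exact (Nat.even_sub hm).2 (by simp [h])
      · apply Even.mul_right
        have : Odd j := by
          by_contra h3
          rw [Nat.not_odd_iff_even] at h3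
          exact (Nat.not_even_iff_odd.2 (h.add_even h3)) hij
        exact this.add_one
    rw [h1, one_mul]
  · rw [W.tr_eq_zero (W.mul_mem hx hsz) (by omega), mul_zero]

/-- The operator in coordinates. -/
lemma th_coord (bX : HB W X) (bY : HB W Y) {c : W.H (X.prod Y)} (hc : AS W _ c) (z : W.H X) :
    th W D f c z = ∑ x, ((bX.ex bY).repr c x * bf W X D f (bX.e x.1) z) • bY.e x.2 := by
  have hlin : ∀ c d : W.H (X.prod Y), th W D f (c + d) = th W D f c + th W D f d := by
    intro c d
    rw [th, corr_add, LinearMap.add_comp]; rfl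
  have hsm : ∀ (r : W.K) (c : W.H (X.prod Y)), th W D f (r • c) = r • th W D f c := by
    intro r c
    rw [th, corr_smul, LinearMap.smul_comp]; rfl
  have hsum : ∀ (s : Finset (Fin bX.N × Fin bY.N)) (g : Fin bX.N × Fin bY.N → W.H (X.prod Y)),
      th W D f (∑ x ∈ s, g x) = ∑ x ∈ s, th W D f (g x) := by
    intro s g
    induction s using Finset.induction_on with
    | empty =>
      rw [Finset.sum_empty, Finset.sum_empty, th, corr_zero, LinearMap.zero_comp]
    | insert a s ha ih => rw [Finset.sum_insert ha, Finset.sum_insert ha, hlin, ih]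
  conv_lhs => rw [← (bX.ex bY).sum_repr c]
  rw [hsum, LinearMap.sum_apply]
  apply Finset.sum_congr rfl
  rintro ⟨p, q⟩ _
  by_cases hpq : Even (bX.dg p + bY.dg q)
  · rw [hsm, LinearMap.smul_apply, HB.ex_apply, th_ext F (bX.mem p) (bY.mem q) hpq, smul_smul]
  · have h0 : th W D f (0 : W.H (X.prod Y)) = 0 := by
      rw [th, corr_zero, LinearMap.zero_comp]
    have h1 := bX.repr_odd bY hc (x := (p, q)) hpq
    rw [h1, zero_smul, h0, LinearMap.zero_apply, zero_mul, zero_smul]

end

section

variable {D : X.Cycles} {f : Module.End W.K (W.H X)} {E : Y.Cycles}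
  {g : Module.End W.K (W.H Y)} (F : Fr W X D f) (G : Fr W Y E g)

include F G

/-- The form on the classes as a trace. -/
theorem trace_th {c : W.H (X.prod Y)} (hc : AS W _ c) {u' : W.H Y →ₗ[W.K] W.H X}
    (hu : ∀ a b, bf W Y E g (th W D f c a) b = bf W X D f a (u' b)) :
    LinearMap.trace W.K (W.H X) (u' ∘ₗ th W D f c) =
      bf W (X.prod Y) (ops.pull (fst X Y) D + ops.pull (snd X Y) E) (extSum W f g) c c := by
  obtain ⟨bX⟩ := exists_HB W X
  obtain ⟨bY⟩ := exists_HB W Y
  have h1 : u' ∘ₗ th W D f c = ∑ x : Fin bX.N × Fin bY.N, ((bX.ex bY).repr c x) •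
      (bf W X D f (bX.e x.1)).smulRight (u' (bY.e x.2)) := by
    apply LinearMap.ext
    intro z
    rw [LinearMap.comp_apply, th_coord F bX bY hc, map_sum, LinearMap.sum_apply]
    apply Finset.sum_congr rfl
    intro x _
    rw [map_smul, LinearMap.smul_apply, LinearMap.smulRight_apply, smul_smul]
  rw [h1, map_sum]
  have h2 : ∀ x : Fin bX.N × Fin bY.N, LinearMap.trace W.K (W.H X) (((bX.ex bY).repr c x) •
      (bf W X D f (bX.e x.1)).smulRight (u' (bY.e x.2))) = ∑ y : Fin bX.N × Fin bY.N,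
      (bX.ex bY).repr c y * (bX.ex bY).repr c x *
        (bf W X D f (bX.e y.1) (bX.e x.1) * bf W Y E g (bY.e y.2) (bY.e x.2)) := by
    intro x
    rw [map_smul, LinearMap.trace_smulRight, ← hu, th_coord F bX bY hc, map_sum,
      LinearMap.sum_apply, smul_eq_mul, Finset.mul_sum]
    apply Finset.sum_congr rfl
    intro y _
    rw [map_smul, LinearMap.smul_apply, smul_eq_mul]
    ring
  rw [Finset.sum_congr rfl (fun x _ => h2 x), Finset.sum_comm]
  conv_rhs => rw [← (bX.ex bY).sum_repr c]
  rw [map_sum (bf W (X.prod Y) (ops.pull (fst X Y) D + ops.pull (snd X Y) E) (extSum W f g)),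
    LinearMap.sum_apply]
  apply Finset.sum_congr rfl
  intro y _
  rw [map_sum]
  apply Finset.sum_congr rfl
  intro x _
  rw [map_smul, map_smul, LinearMap.smul_apply, smul_eq_mul, smul_eq_mul]
  obtain ⟨y1, y2⟩ := y
  obtain ⟨x1, x2⟩ := x
  rw [HB.ex_apply, HB.ex_apply, F.bf_ext G]
  ring

end

end Pool.Agent.W552
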