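import Mathlib
import Pool.Agent.W522.M.Defs

/-!
# Correspondences from a surface to the strata of a semistable degeneration

`D` is the cohomology of the strata of the special fibre of a projective strictly semistable
scheme (or of a projective log scheme with simple normal crossings over a log point) of relative
dimension `s + 3`; `D.V a w` is `H^(w-a)(Y^(a+1))`. So `D.V s (s + 2)` is `H²` of the threefolds
`Y^(s+1)`, and `D.V (s + 1) (s + 3)` is `H²` of the surfaces `Y^(s+2)`.
-/

set_option autoImplicit false

namespace Pool.Agent.W552.Wm

open Pool.Agent.W522.M

variable {E : Type} [Field E]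

/-- The part of the spectral sequence attached to a projective log scheme with simple normal
crossings of dimension `n` over a log point that does not use a generic fibre: the restriction and
Gysin maps form a complex, there are no `(n+2)`-fold intersections, hard Lefschetz and Poincaré
duality hold for the strata. -/
structure IsNormalCrossings (D : Strata E) (n : ℕ) : Prop where
  complex : D.IsComplex
  bounded : D.IsBounded n
  lefschetz : D.IsLefschetz n
  duality : D.IsDuality n

/-- A smooth projective surface `S` (not necessarily connected), seen through the transcendental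
part `T` of `H²(S)`, the orthogonal complement of the classes of divisors, and through the
`ℚ`-spaces of maps induced by algebraic correspondences with rational coefficients: `R` from `T` to
`T`, `C` from `T` to `H²` of the threefolds `Y^(s+1)`, `C'` from `T` to `H²` of the surfaces
`Y^(s+2)`. -/
structure Surface (D : Strata E) (s : ℕ) where
  /-- the transcendental part of `H²(S)` -/
  T : Type
  [grp : AddCommGroup T]
  [mod : Module E T]
  [fin : FiniteDimensional E T]
  /-- the intersection form -/
  form : T →ₗ[E] T →ₗ[E] E
  /-- correspondences from `S` to `S` -/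
  R : AddSubgroup (T →ₗ[E] T)
  /-- correspondences from `S` to `Y^(s+1)` -/
  C : AddSubgroup (T →ₗ[E] D.V s (s + 2))
  /-- correspondences from `S` to `Y^(s+2)` -/
  C' : AddSubgroup (T →ₗ[E] D.V (s + 1) (s + 3))

attribute [instance] Surface.grp Surface.mod Surface.fin

variable {D : Strata E} {s : ℕ}

/-- linear maps from `T` to `T` -/
abbrev Surface.Endo (S : Surface D s) := S.T →ₗ[E] S.T

/-- linear maps from `T` to `H²(Y^(s+1))` -/
abbrev Surface.Map (S : Surface D s) := S.T →ₗ[E] D.V s (s + 2)

/-- linear maps from `T` to `H²(Y^(s+2))` -/
abbrev Surface.Map' (S : Surface D s) := S.T →ₗ[E] D.V (s + 1) (s + 3)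

/-- `r` is induced by a correspondence from `S` to `S`. -/
def Surface.IsR (S : Surface D s) (r : S.Endo) : Prop := r ∈ S.R

/-- `f` is induced by a correspondence from `S` to `Y^(s+1)`. -/
def Surface.IsC (S : Surface D s) (f : S.Map) : Prop := f ∈ S.C

/-- `f` is induced by a correspondence from `S` to `Y^(s+2)`. -/
def Surface.IsC' (S : Surface D s) (f : S.Map') : Prop := f ∈ S.C'

/-- the intersection number of two elements of `T` -/
def Surface.num (S : Surface D s) (x y : S.T) : E := S.form x y

/-- the value of a map from `T` to `H²(Y^(s+1))` -/
def Surface.val (S : Surface D s) (f : S.Map) (x : S.T) : D.V s (s + 2) := f x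

/-- the value of a map from `T` to `H²(Y^(s+2))` -/
def Surface.val' (S : Surface D s) (f : S.Map') (x : S.T) : D.V (s + 1) (s + 3) := f x

/-- the composition with the (alternating sum of the) restriction maps -/
def Surface.restr (S : Surface D s) (f : S.Map) : S.Map' := (D.res s (s + 2)).comp f

/-- composition -/
def Surface.comp (S : Surface D s) (f : S.Map) (r : S.Endo) : S.Map := LinearMap.comp f r

/-- composition -/
def Surface.mul (S : Surface D s) (r r' : S.Endo) : S.Endo := LinearMap.comp r r'

/-- multiplication by a rational number -/
def Surface.rsmul (S : Surface D s) (c : ℚ) (f : S.Map) : S.Map := (c : E) • f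

/-- the trace -/
noncomputable def Surface.tr (S : Surface D s) (r : S.Endo) : E := LinearMap.trace E S.T r

/-- `x` is a rational number. -/
def IsRational (x : E) : Prop := ∃ c : ℚ, x = (c : E)

/-- `x` is a positive rational number. -/
def IsPositive (x : E) : Prop := ∃ c : ℚ, 0 < c ∧ x = (c : E)

/-- `r` is the composition `f^* g`, where `f^*` is the transpose of `f` for the intersection forms
of `S` and of the surfaces `Y^(s+2)`. -/
def Surface.IsProduct (S : Surface D s) (f g : S.Map') (r : S.Endo) : Prop :=
  ∀ x y, S.num x (r y) = ip (S.val' f x) (S.val' g y)

/-- `r'` is the transpose of `r`. -/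
def Surface.IsTranspose (S : Surface D s) (r r' : S.Endo) : Prop :=
  ∀ x y, S.num x (r' y) = S.num (r x) y

/-- The known properties of correspondences. -/
structure Surface.IsGeometric (S : Surface D s) (A : D.Cycles) : Prop where
  /-- the form on `T` is symmetric and nondegenerate -/
  symm : ∀ x y, S.num x y = S.num y x
  nondeg : ∀ x, (∀ y, S.num x y = 0) → x = 0
  /-- rational coefficients -/
  smul : ∀ c f, S.IsC f → S.IsC (S.rsmul c f)
  /-- the composition with the (alternating sum of the) restriction maps is a correspondence -/
  res : ∀ f, S.IsC f → S.IsC' (S.restr f)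
  /-- composition of correspondences -/
  comp : ∀ f r, S.IsC f → S.IsR r → S.IsC (S.comp f r)
  /-- `f^* g` is a correspondence -/
  adj : ∀ f g, S.IsC' f → S.IsC' g → ∃ r, S.IsR r ∧ S.IsProduct f g r
  /-- traces of correspondences are rational -/
  rational : ∀ r, S.IsR r → IsRational (S.tr r)
  /-- correspondences map `T` to classes orthogonal to the classes of divisors -/
  orth : ∀ f x (c : D.V (s + 1) (s + 3)), S.IsC' f → A.Alg c → ip (S.val' f x) c = 0

/-- The standard conjecture of Hodge type for the fourfolds `S × Y^(s+2)` and `S × S`, on the
classes of codimension `2` in the product of the transcendental parts: the self-intersection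
numbers `tr(f^* f)` and `tr(r^* r)` of nonzero classes are positive. -/
structure Surface.HodgeType (S : Surface D s) : Prop where
  strata : ∀ f r, S.IsC' f → f ≠ 0 → S.IsProduct f f r → IsPositive (S.tr r)
  square : ∀ r r', S.IsR r → r ≠ 0 → S.IsTranspose r r' → IsPositive (S.tr (S.mul r' r))

/-- the subspace of `H²(Y^(s+1))` spanned by the images of `T` under correspondences -/
def Surface.image (S : Surface D s) : Submodule E (D.V s (s + 2)) :=
  Submodule.span E {v | ∃ f x, S.IsC f ∧ v = S.val f x}

/-- `H²` of the threefolds `Y^(s+1)` is generated by classes of divisors and by `S`, up to classes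
whose restriction to `Y^(s+2)` vanishes. -/
def Surface.Generates (S : Surface D s) (A : D.Cycles) : Prop :=
  ∀ m : D.V s (s + 2), ∃ c v, c ∈ A.span s (s + 2) ∧ v ∈ S.image ∧ rho m = rho (c + v)

end Pool.Agent.W552.Wm
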