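import Mathlib

/-!
# Positivity for endomorphisms commuting with a Frobenius with simple eigenvalues
-/

set_option autoImplicit false

set_option linter.unusedSectionVars false

namespace Pool.Agent.W552.Wm

open Polynomial Module

/-- the sum of the values of `G` at the roots of `P` -/
noncomputable def rsum (K : Type*) [Field K] [CharZero K] (P G : ℚ[X]) : K :=
  ((P.map (algebraMap ℚ K)).roots.map fun z => (G.map (algebraMap ℚ K)).eval z).sum

lemma rsum_hom {K L : Type*} [Field K] [CharZero K] [Field L] [CharZero L] (ι : L →+* K)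
    (P G : ℚ[X]) (hs : (P.map (algebraMap ℚ L)).Splits) : rsum K P G = ι (rsum L P G) := by
  have e : ∀ F : ℚ[X], F.map (algebraMap ℚ K) = (F.map (algebraMap ℚ L)).map ι := by
    intro F
    rw [Polynomial.map_map]
    congr 1
    exact Subsingleton.elim _ _
  unfold rsum
  rw [e P, e G, hs.roots_map, Multiset.map_map, map_multiset_sum, Multiset.map_map]
  congr 1
  apply Multiset.map_congr rfl
  intro z _
  simp only [Function.comp_apply]
  rw [Polynomial.eval_map, Polynomial.eval₂_hom]

lemma rsum_transfer {K K' : Type*} [Field K] [CharZero K] [IsAlgClosed K] [Field K'] [CharZero K']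
    [IsAlgClosed K'] (P G : ℚ[X]) (c : ℚ) (h : rsum K P G = (c : K)) :
    rsum K' P G = (c : K') := by
  have : Algebra.IsAlgebraic ℚ (AlgebraicClosure ℚ) := by
    have h := AlgebraicClosure.isAlgebraic ℚ
    have e : (DivisionRing.toRatAlgebra : Algebra ℚ (AlgebraicClosure ℚ)) =
      AlgebraicClosure.instAlgebra ℚ := Subsingleton.elim _ _
    rw [e]
    exact h
  obtain ⟨ι⟩ : Nonempty (AlgebraicClosure ℚ →+* K) :=
    ⟨(IsAlgClosed.lift : AlgebraicClosure ℚ →ₐ[ℚ] K).toRingHom⟩
  obtain ⟨ι'⟩ : Nonempty (AlgebraicClosure ℚ →+* K') :=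
    ⟨(IsAlgClosed.lift : AlgebraicClosure ℚ →ₐ[ℚ] K').toRingHom⟩
  have hs : (P.map (algebraMap ℚ (AlgebraicClosure ℚ))).Splits := IsAlgClosed.splits _
  rw [rsum_hom ι P G hs] at h
  rw [rsum_hom ι' P G hs]
  have h1 : rsum (AlgebraicClosure ℚ) P G = (c : AlgebraicClosure ℚ) := by
    apply ι.injective
    rw [h, map_ratCast]
  rw [h1, map_ratCast]

section closed

variable {K V : Type*} [Field K] [CharZero K] [IsAlgClosed K] [AddCommGroup V] [Module K V]
  [FiniteDimensional K V]

/-- the eigenbasis of an endomorphism with separable characteristic polynomial -/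
theorem exists_eigenbasis (φ : Module.End K V) (P : ℚ[X]) (hP : φ.charpoly = P.map (algebraMap ℚ K))
    (hsep : P.Separable) : ∃ (b : Basis (Fin (finrank K V)) K V) (v : Fin (finrank K V) → K),
      Function.Injective v ∧ (∀ i, φ (b i) = v i • b i) ∧
      (P.map (algebraMap ℚ K)).roots = Finset.univ.val.map v := by
  classical
  set R := (P.map (algebraMap ℚ K)).roots with hR
  have hnd : R.Nodup := nodup_roots hsep.map
  have hcard : R.toFinset.card = finrank K V := by
    rw [Multiset.toFinset_card_of_nodup hnd, hR, ← (IsAlgClosed.splits _).natDegree_eq_card_roots,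
      ← hP, LinearMap.charpoly_natDegree]
  let e := (Finset.equivFinOfCardEq hcard).symm
  let v : Fin (finrank K V) → K := fun i => (e i : K)
  have hv : Function.Injective v := Subtype.val_injective.comp e.injective
  have hmem : ∀ i, v i ∈ R := fun i => Multiset.mem_toFinset.1 (e i).2
  have heig : ∀ i, ∃ x, φ.HasEigenvector (v i) x := by
    intro i
    apply Module.End.HasEigenvalue.exists_hasEigenvector
    rw [Module.End.hasEigenvalue_iff_isRoot_charpoly, hP]
    exact (mem_roots'.1 (hmem i)).2
  choose x hx using heig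
  have hli : LinearIndependent K x := Module.End.eigenvectors_linearIndependent' φ v hv x hx
  let b : Basis (Fin (finrank K V)) K V := Basis.mk hli
    (hli.span_eq_top_of_card_eq_finrank' (by rw [Fintype.card_fin])).ge
  refine ⟨b, v, hv, fun i => ?_, ?_⟩
  · rw [Basis.mk_apply]
    exact Module.End.mem_eigenspace_iff.1 (hx i).1
  · have h1 : (Finset.univ.val.map v).Nodup := Multiset.Nodup.map hv Finset.univ.nodup
    apply (Multiset.Nodup.ext hnd h1).2
    intro z
    constructor
    · intro hz
      rw [Multiset.mem_map]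
      refine ⟨e.symm ⟨z, Multiset.mem_toFinset.2 hz⟩, by simp, ?_⟩
      change ((e (e.symm _) : R.toFinset) : K) = z
      rw [Equiv.apply_symm_apply]
    · intro hz
      obtain ⟨i, -, rfl⟩ := Multiset.mem_map.1 hz
      exact hmem i

lemma aeval_eigen {φ : Module.End K V} {x : V} {a : K} (h : φ x = a • x) (G : K[X]) :
    aeval φ G x = G.eval a • x := by
  induction G using Polynomial.induction_on' with
  | add p q hp hq => rw [map_add, LinearMap.add_apply, hp, hq, eval_add, add_smul]
  | monomial n c =>
    rw [aeval_monomial, eval_monomial, Module.End.mul_apply]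
    have h1 : (φ ^ n) x = a ^ n • x := by
      induction n with
      | zero => simp
      | succ n ih => rw [pow_succ', Module.End.mul_apply, ih, map_smul, h, smul_smul, pow_succ]
    rw [h1, Module.algebraMap_end_apply, smul_smul]

lemma trace_of_basis {n : ℕ} (b : Basis (Fin n) K V) (u : Module.End K V) (μ : Fin n → K)
    (h : ∀ i, u (b i) = μ i • b i) : LinearMap.trace K V u = ∑ i, μ i := by
  classical
  rw [LinearMap.trace_eq_matrix_trace K b, Matrix.trace]
  apply Finset.sum_congr rfl
  intro i _
  rw [Matrix.diag_apply, LinearMap.toMatrix_apply, h, map_smul, Finsupp.smul_apply,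
    Basis.repr_self, Finsupp.single_eq_same, smul_eq_mul, mul_one]

end closed

section general

variable {E T : Type*} [Field E] [CharZero E] [AddCommGroup T] [Module E T]
  [FiniteDimensional E T]

/-- the value of a rational polynomial at an endomorphism -/
noncomputable def ev (φ : Module.End E T) (G : ℚ[X]) : Module.End E T :=
  aeval φ (G.map (algebraMap ℚ E))

lemma ev_mul (φ : Module.End E T) (G H : ℚ[X]) : ev φ (G * H) = ev φ G * ev φ H := by
  unfold ev; rw [Polynomial.map_mul, map_mul]

lemma ev_X (φ : Module.End E T) : ev φ X = φ := by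
  unfold ev; rw [Polynomial.map_X, aeval_X]

lemma ev_C (φ : Module.End E T) (c : ℚ) : ev φ (C c) = (c : E) • (1 : Module.End E T) := by
  unfold ev; rw [Polynomial.map_C, aeval_C, eq_ratCast, Algebra.algebraMap_eq_smul_one]

lemma ev_add (φ : Module.End E T) (G H : ℚ[X]) : ev φ (G + H) = ev φ G + ev φ H := by
  unfold ev; rw [Polynomial.map_add, map_add]

lemma ev_sub (φ : Module.End E T) (G H : ℚ[X]) : ev φ (G - H) = ev φ G - ev φ H := by
  unfold ev; rw [Polynomial.map_sub, map_sub]

lemma ev_comp (φ : Module.End E T) (G H : ℚ[X]) : ev φ (G.comp H) = ev (ev φ H) G := by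
  unfold ev
  rw [Polynomial.map_comp, aeval_comp]

variable (K : Type*) [Field K] [Algebra E K]

/-- base change -/
noncomputable abbrev bc (u : Module.End E T) : Module.End K (TensorProduct E K T) := u.baseChange K

lemma bc_mul (u v : Module.End E T) : bc K (u * v) = bc K u * bc K v :=
  LinearMap.baseChange_comp v u

lemma bc_pow (u : Module.End E T) (n : ℕ) : bc K (u ^ n) = bc K u ^ n := by
  induction n with
  | zero =>
    rw [pow_zero, pow_zero]
    exact LinearMap.baseChange_id
  | succ n ih => rw [pow_succ, pow_succ, bc_mul, ih]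

lemma bc_aeval (u : Module.End E T) (G : E[X]) :
    bc K (aeval u G) = aeval (bc K u) (G.map (algebraMap E K)) := by
  induction G using Polynomial.induction_on' with
  | add p q hp hq =>
    rw [map_add, Polynomial.map_add, map_add, ← hp, ← hq]
    exact LinearMap.baseChange_add _ _
  | monomial n c =>
    rw [Polynomial.map_monomial, aeval_monomial, aeval_monomial, Algebra.algebraMap_eq_smul_one,
      Algebra.algebraMap_eq_smul_one, smul_mul_assoc, smul_mul_assoc, one_mul, one_mul, ← bc_pow]
    apply LinearMap.ext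
    intro x
    induction x using TensorProduct.induction_on with
    | zero => simp
    | add x y hx hy => rw [map_add, map_add, hx, hy]
    | tmul a x =>
      simp only [bc, LinearMap.baseChange_tmul, LinearMap.smul_apply]
      rw [TensorProduct.tmul_smul, algebraMap_smul]

lemma bc_inj {u : Module.End E T} (h : bc K u = 0) : u = 0 := by
  apply LinearMap.baseChangeHom_injective E T K
  rw [map_zero]
  exact h

lemma bc_aeval' [CharZero K] (u : Module.End E T) (G : ℚ[X]) :
    bc K (ev u G) = aeval (bc K u) (G.map (algebraMap ℚ K)) := by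
  unfold ev
  rw [bc_aeval, Polynomial.map_map]
  congr 2
  exact Subsingleton.elim _ _

end general

section key

variable {E T : Type*} [Field E] [CharZero E] [AddCommGroup T] [Module E T]
  [FiniteDimensional E T]

/-- the eigenbasis over an algebraic closure -/
theorem exists_bc_basis (K : Type*) [Field K] [CharZero K] [IsAlgClosed K] [Algebra E K]
    (φ : Module.End E T) (P : ℚ[X]) (hP : φ.charpoly = P.map (algebraMap ℚ E))
    (hsep : P.Separable) : ∃ (n : ℕ) (b : Basis (Fin n) K (TensorProduct E K T)) (v : Fin n → K),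
      Function.Injective v ∧ (∀ i, bc K φ (b i) = v i • b i) ∧
      (P.map (algebraMap ℚ K)).roots = Finset.univ.val.map v ∧ n = finrank E T := by
  have h1 : (bc K φ).charpoly = P.map (algebraMap ℚ K) := by
    rw [LinearMap.charpoly_baseChange, hP, Polynomial.map_map]
    congr 1
    exact Subsingleton.elim _ _
  obtain ⟨b, v, hv, hb, hr⟩ := exists_eigenbasis (bc K φ) P h1 hsep
  exact ⟨_, b, v, hv, hb, hr, Module.finrank_baseChange⟩

/-- the trace of a polynomial in `φ` -/
theorem trace_ev (φ : Module.End E T) (P : ℚ[X]) (hP : φ.charpoly = P.map (algebraMap ℚ E))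
    (hsep : P.Separable) (G : ℚ[X]) (c : ℚ) (h : LinearMap.trace E T (ev φ G) = c) :
    rsum ℂ P G = c := by
  let K := AlgebraicClosure E
  have : CharZero K := charZero_of_injective_algebraMap (algebraMap E K).injective
  obtain ⟨n, b, v, hv, hb, hr, -⟩ := exists_bc_basis K φ P hP hsep
  apply rsum_transfer (K := K)
  have h1 : LinearMap.trace K _ (bc K (ev φ G)) = ∑ i, (G.map (algebraMap ℚ K)).eval (v i) := by
    rw [bc_aeval']
    exact trace_of_basis b _ _ fun i => aeval_eigen (hb i) _
  rw [LinearMap.trace_baseChange, h] at h1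
  unfold rsum
  rw [hr, Multiset.map_map]
  change (Multiset.map _ _).sum = _
  have h2 : (∑ i, (G.map (algebraMap ℚ K)).eval (v i)) =
      (Multiset.map ((fun z => (G.map (algebraMap ℚ K)).eval z) ∘ v) Finset.univ.val).sum := rfl
  rw [← h2, ← h1, map_ratCast]

/-- a rational polynomial killing `φ` is divisible by `P` -/
theorem dvd_of_ev (φ : Module.End E T) (P : ℚ[X]) (hP : φ.charpoly = P.map (algebraMap ℚ E))
    (hsep : P.Separable) (G : ℚ[X]) (h : ev φ G = 0) : P ∣ G := by
  classical
  let K := AlgebraicClosure E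
  have : CharZero K := charZero_of_injective_algebraMap (algebraMap E K).injective
  obtain ⟨n, b, v, hv, hb, hr, -⟩ := exists_bc_basis K φ P hP hsep
  by_cases hG : G = 0
  · rw [hG]; exact dvd_zero _
  have hGK : G.map (algebraMap ℚ K) ≠ 0 := Polynomial.map_ne_zero hG
  have h1 : ∀ i, (G.map (algebraMap ℚ K)).eval (v i) = 0 := by
    intro i
    have h2 : bc K (ev φ G) (b i) = 0 := by
      rw [h]
      have : bc K (0 : Module.End E T) = 0 := LinearMap.baseChange_zero
      rw [this]; rfl
    rw [bc_aeval', aeval_eigen (hb i)] at h2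
    exact (smul_eq_zero.1 h2).resolve_right (b.ne_zero i)
  rw [← Polynomial.map_dvd_map' (algebraMap ℚ K)]
  have hs : (P.map (algebraMap ℚ K)).Splits := IsAlgClosed.splits _
  have hle : (P.map (algebraMap ℚ K)).roots ≤ (G.map (algebraMap ℚ K)).roots := by
    rw [Multiset.le_iff_subset (nodup_roots hsep.map)]
    intro z hz
    rw [hr] at hz
    obtain ⟨i, -, rfl⟩ := Multiset.mem_map.1 hz
    exact (mem_roots hGK).2 (h1 i)
  exact hs.dvd_of_roots_le_roots (Polynomial.map_ne_zero hsep.ne_zero) hle

/-- an endomorphism commuting with `φ` and with rational traces is a polynomial in `φ` -/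
theorem exists_ev (φ : Module.End E T) (P : ℚ[X]) (hP : φ.charpoly = P.map (algebraMap ℚ E))
    (hsep : P.Separable) (hφ : ∀ m : ℕ, ∃ c : ℚ, LinearMap.trace E T (φ ^ m) = c)
    (r : Module.End E T) (hc : r * φ = φ * r)
    (hr : ∀ m : ℕ, ∃ c : ℚ, LinearMap.trace E T (r * φ ^ m) = c) : ∃ G : ℚ[X], r = ev φ G := by
  classical
  let K := AlgebraicClosure E
  have : CharZero K := charZero_of_injective_algebraMap (algebraMap E K).injective
  obtain ⟨n, b, v, hv, hb, hroots, -⟩ := exists_bc_basis K φ P hP hsep
  choose c hc' using hφ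
  choose d hd using hr
  have hpow : ∀ (m : ℕ) i, bc K (φ ^ m) (b i) = v i ^ m • b i := by
    intro m i
    rw [bc_pow]
    induction m with
    | zero => simp
    | succ m ih => rw [pow_succ', Module.End.mul_apply, ih, map_smul, hb, smul_smul, pow_succ]
  -- the matrix of traces
  let M : Matrix (Fin n) (Fin n) ℚ := Matrix.of fun j k => c (j + k)
  let V : Matrix (Fin n) (Fin n) K := Matrix.vandermonde v
  have hV : IsUnit V.det := isUnit_iff_ne_zero.2 (Matrix.det_vandermonde_ne_zero_iff.2 hv)
  have hMV : M.map (algebraMap ℚ K) = V.transpose * V := by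
    ext j k
    rw [Matrix.map_apply, Matrix.mul_apply]
    have h1 : LinearMap.trace K _ (bc K (φ ^ (j + k : ℕ))) = ∑ i, v i ^ (j + k : ℕ) :=
      trace_of_basis b _ _ fun i => hpow _ i
    rw [LinearMap.trace_baseChange, hc', map_ratCast] at h1
    change ((c (j + k) : ℚ) : K) = ∑ i, v i ^ (j : ℕ) * v i ^ (k : ℕ)
    rw [h1]
    simp only [pow_add]
  have hM : IsUnit M.det := by
    rw [isUnit_iff_ne_zero]
    intro h0
    have h1 : (M.map (algebraMap ℚ K)).det = 0 := by
      have := RingHom.map_det (algebraMap ℚ K) M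
      rw [h0, map_zero] at this
      exact this.symm
    rw [hMV, Matrix.det_mul, Matrix.det_transpose] at h1
    exact hV.ne_zero (mul_self_eq_zero.1 h1)
  let a : Fin n → ℚ := M⁻¹.mulVec fun j : Fin n => d (j : ℕ)
  have ha : M.mulVec a = fun j : Fin n => d (j : ℕ) := by
    change M.mulVec (M⁻¹.mulVec _) = _
    rw [Matrix.mulVec_mulVec, Matrix.mul_nonsing_inv M hM, Matrix.one_mulVec]
  let G : ℚ[X] := ∑ j : Fin n, C (a j) * X ^ (j : ℕ)
  have hG : ev φ G = ∑ j : Fin n, (a j : E) • φ ^ (j : ℕ) := by
    unfold ev
    rw [Polynomial.map_sum, map_sum]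
    apply Finset.sum_congr rfl
    intro j _
    rw [Polynomial.map_mul, map_mul, Polynomial.map_C, aeval_C, Polynomial.map_pow, map_pow,
      Polynomial.map_X, aeval_X, eq_ratCast, Algebra.algebraMap_eq_smul_one, smul_mul_assoc,
      one_mul]
  refine ⟨G, ?_⟩
  set u : Module.End E T := r - ev φ G with hu
  have hu0 : ∀ k : Fin n, LinearMap.trace E T (u * φ ^ (k : ℕ)) = 0 := by
    intro k
    rw [hu, sub_mul, map_sub, hd, hG, Finset.sum_mul, map_sum]
    have h1 : ∀ j : Fin n, LinearMap.trace E T (((a j : E) • φ ^ (j : ℕ)) * φ ^ (k : ℕ)) =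
        ((a j * c (j + k) : ℚ) : E) := by
      intro j
      rw [smul_mul_assoc, map_smul, ← pow_add, hc', smul_eq_mul, Rat.cast_mul]
    simp only [h1]
    rw [← Rat.cast_sum, ← Rat.cast_sub, Rat.cast_eq_zero]
    have h2 := congrFun ha k
    change ∑ j, M k j * a j = d k at h2
    rw [← h2, sub_eq_zero]
    apply Finset.sum_congr rfl
    intro j _
    change c (k + j) * a j = a j * c (j + k)
    rw [mul_comm, add_comm (k : ℕ)]
  have hcomm : u * φ = φ * u := by
    rw [hu, sub_mul, mul_sub, hc]
    congr 1
    have h1 : ev φ G * ev φ X = ev φ X * ev φ G := by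
      rw [← ev_mul, ← ev_mul, mul_comm]
    rwa [ev_X] at h1
  -- `u` is diagonal
  have hdiag : ∀ i, ∃ μ : K, bc K u (b i) = μ • b i := by
    intro i
    have h1 : bc K φ (bc K u (b i)) = v i • bc K u (b i) := by
      have h2 : bc K u (bc K φ (b i)) = bc K φ (bc K u (b i)) := by
        have := congrArg (bc K) hcomm
        rw [bc_mul, bc_mul] at this
        exact congrArg (fun f : Module.End K (TensorProduct E K T) => f (b i)) this
      rw [← h2, hb, map_smul]
    refine ⟨b.repr (bc K u (b i)) i, ?_⟩
    apply b.repr.injective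
    ext j
    rw [map_smul, Finsupp.smul_apply, Basis.repr_self, Finsupp.single_apply]
    split_ifs with hij
    · rw [hij]; simp
    · have h3 : b.repr (bc K φ (bc K u (b i))) j = v j * b.repr (bc K u (b i)) j := by
        conv_lhs => rw [← b.sum_repr (bc K u (b i)), map_sum, map_sum, Finset.sum_apply']
        rw [Finset.sum_eq_single j]
        · rw [map_smul, hb, map_smul, map_smul, Finsupp.smul_apply, Finsupp.smul_apply,
            Basis.repr_self, Finsupp.single_eq_same, smul_eq_mul, smul_eq_mul, mul_one, mul_comm]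
        · intro l _ hl
          rw [map_smul, hb, map_smul, map_smul, Finsupp.smul_apply, Finsupp.smul_apply,
            Basis.repr_self, Finsupp.single_apply, if_neg hl]
          simp
        · intro h; exact absurd (Finset.mem_univ _) h
      rw [h1, map_smul, Finsupp.smul_apply, smul_eq_mul] at h3
      have h4 : (v i - v j) * b.repr (bc K u (b i)) j = 0 := by rw [sub_mul, h3, sub_self]
      rcases mul_eq_zero.1 h4 with h5 | h5
      · exact absurd (hv (sub_eq_zero.1 h5)) hij
      · rw [h5]; simp
  choose μ hμ using hdiag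
  have hμ0 : V.transpose.mulVec μ = 0 := by
    funext k
    change ∑ i, v i ^ (k : ℕ) * μ i = 0
    have h1 : LinearMap.trace K _ (bc K (u * φ ^ (k : ℕ))) = ∑ i, v i ^ (k : ℕ) * μ i := by
      apply trace_of_basis b
      intro i
      rw [bc_mul, Module.End.mul_apply, hpow, map_smul, hμ, smul_smul]
    rw [← h1, LinearMap.trace_baseChange, hu0, map_zero]
  have hμ1 : μ = 0 := by
    apply Matrix.eq_zero_of_mulVec_eq_zero (M := V.transpose) _ hμ0
    rw [Matrix.det_transpose]
    exact hV.ne_zero
  have hbu : bc K u = 0 := by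
    apply b.ext
    intro i
    rw [hμ, hμ1]
    simp
  rw [← sub_eq_zero]
  exact bc_inj K hbu

end key

end Pool.Agent.W552.Wm
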