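import Mathlib
import Pool.Agent.W552.WmF

/-!
# Positivity for endomorphisms commuting with a Frobenius with simple eigenvalues
-/

set_option autoImplicit false

namespace Pool.Agent.W552.Wm

open Polynomial Module ComplexConjugate

variable {E T : Type*} [Field E] [CharZero E] [AddCommGroup T] [Module E T]
  [FiniteDimensional E T]

lemma ev_adj (t : T →ₗ[E] T →ₗ[E] E) (φ φ' : Module.End E T)
    (h : ∀ x y, t x (φ' y) = t (φ x) y) (G : ℚ[X]) (x y : T) :
    t x (ev φ' G y) = t (ev φ G x) y := by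
  induction G using Polynomial.induction_on' generalizing x y with
  | add p q hp hq =>
    rw [ev_add, ev_add, LinearMap.add_apply, LinearMap.add_apply, map_add, map_add,
      LinearMap.add_apply, hp, hq]
  | monomial n c =>
    have e : ∀ ψ : Module.End E T, ev ψ (monomial n c) = (c : E) • ψ ^ n := by
      intro ψ
      unfold ev
      rw [Polynomial.map_monomial, aeval_monomial, eq_ratCast, Algebra.algebraMap_eq_smul_one,
        smul_mul_assoc, one_mul]
    have h1 : ∀ (n : ℕ) x y, t x ((φ' ^ n) y) = t ((φ ^ n) x) y := by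
      intro n
      induction n with
      | zero => intro x y; rfl
      | succ n ih =>
        intro x y
        rw [pow_succ', Module.End.mul_apply, h, ih, pow_succ, Module.End.mul_apply]
    rw [e, e, LinearMap.smul_apply, LinearMap.smul_apply, map_smul, map_smul,
      LinearMap.smul_apply, h1]

lemma separable_of_roots (P : ℤ[X])
    (h : ∀ z : ℂ, aeval z P = 0 → aeval z (derivative P) ≠ 0) :
    (P.map (Int.castRingHom ℚ)).Separable := by
  rw [Polynomial.separable_def, Polynomial.isCoprime_iff_aeval_ne_zero_of_isAlgClosed ℚ ℂ]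
  intro z
  have e : ∀ F : ℤ[X], aeval z (F.map (Int.castRingHom ℚ)) = aeval z F :=
    fun F => aeval_map_algebraMap ℚ z F
  by_cases hz : aeval z P = 0
  · right
    rw [derivative_map, e]
    exact h z hz
  · left
    rw [e]
    exact hz

/-- **Positivity from Frobenius.** -/
theorem pos_of_frobenius (t : T →ₗ[E] T →ₗ[E] E) (hn : ∀ x, (∀ y, t y x = 0) → x = 0)
    (φ : Module.End E T) (q : ℕ) (hq : q ≠ 0) (P : ℤ[X])
    (hP : φ.charpoly = P.map (Int.castRingHom E))
    (hroots : ∀ z : ℂ, aeval z P = 0 → ‖z‖ = q ∧ aeval z (derivative P) ≠ 0)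
    (hφt : ∀ x y, t (φ x) (φ y) = (q : E) ^ 2 * t x y) (R : Module.End E T → Prop)
    (hone : R 1) (hφR : R φ) (hmul : ∀ r s, R r → R s → R (r * s))
    (hcomm : ∀ r, R r → r * φ = φ * r)
    (hrat : ∀ r, R r → ∃ c : ℚ, LinearMap.trace E T r = c)
    (htr : ∀ r, R r → ∃ r', R r' ∧ ∀ x y, t x (r' y) = t (r x) y)
    (r r' : Module.End E T) (hr : R r) (hr0 : r ≠ 0) (hr' : ∀ x y, t x (r' y) = t (r x) y) :
    ∃ c : ℚ, 0 < c ∧ LinearMap.trace E T (r' ∘ₗ r) = c := by
  classical
  set PQ : ℚ[X] := P.map (Int.castRingHom ℚ) with hPQ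
  have hsep : PQ.Separable := separable_of_roots P fun z hz => (hroots z hz).2
  have hP' : φ.charpoly = PQ.map (algebraMap ℚ E) := by
    rw [hP, hPQ, Polynomial.map_map]
    congr 1
    exact RingHom.ext_int _ _
  have hpow : ∀ m : ℕ, R (φ ^ m) := by
    intro m
    induction m with
    | zero => rw [pow_zero]; exact hone
    | succ m ih => rw [pow_succ]; exact hmul _ _ ih hφR
  have huniq : ∀ a b : Module.End E T, (∀ x y, t x (a y) = t x (b y)) → a = b := by
    intro a b h
    apply LinearMap.ext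
    intro y
    rw [← sub_eq_zero]
    apply hn
    intro x
    rw [map_sub, h, sub_self]
  have hexp : ∀ u, R u → ∃ G : ℚ[X], u = ev φ G := fun u hu =>
    exists_ev φ PQ hP' hsep (fun m => hrat _ (hpow m)) u (hcomm u hu)
      fun m => hrat _ (hmul _ _ hu (hpow m))
  obtain ⟨φ', hφ'R, hφ'⟩ := htr φ hφR
  obtain ⟨h, hh⟩ := hexp φ' hφ'R
  obtain ⟨g, hg⟩ := hexp r hr
  -- the transpose of Frobenius
  have hφφ : φ' * φ = ((q : E) ^ 2) • (1 : Module.End E T) := by
    apply huniq
    intro x y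
    rw [Module.End.mul_apply, hφ', hφt, LinearMap.smul_apply, map_smul, smul_eq_mul,
      Module.End.one_apply]
  have hdvd : PQ ∣ h * X - C ((q : ℚ) ^ 2) := by
    apply dvd_of_ev φ PQ hP' hsep
    rw [ev_sub, ev_mul, ev_X, ← hh, ev_C, hφφ, sub_eq_zero]
    push_cast
    rfl
  have hr'g : r' = ev φ (g.comp h) := by
    rw [ev_comp, ← hh]
    apply huniq
    intro x y
    rw [hr', ev_adj t φ φ' hφ', ← hg]
  obtain ⟨r'', hr''R, hr''⟩ := htr r hr
  have hr'R : R r' := by
    have : r' = r'' := huniq _ _ fun x y => by rw [hr', hr'']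
    rw [this]; exact hr''R
  obtain ⟨c, hc⟩ := hrat _ (hmul _ _ hr'R hr)
  have hc' : LinearMap.trace E T (ev φ (g.comp h * g)) = c := by
    rw [ev_mul, ← hr'g, ← hg, hc]
  have hsum := trace_ev φ PQ hP' hsep _ c hc'
  -- the values at the roots
  set G : ℂ → ℂ := fun z => (g.map (algebraMap ℚ ℂ)).eval z with hG
  have hconj : ∀ z, G (conj z) = conj (G z) := by
    intro z
    rw [hG]
    beta_reduce
    rw [← Polynomial.eval₂_hom, Polynomial.eval₂_map, Polynomial.eval_map]
    congr 1
    exact Subsingleton.elim _ _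
  have hval : ∀ z ∈ (PQ.map (algebraMap ℚ ℂ)).roots,
      ((g.comp h * g).map (algebraMap ℚ ℂ)).eval z = ((‖G z‖ ^ 2 : ℝ) : ℂ) := by
    intro z hz
    have hz0 : aeval z PQ = 0 := by
      rw [mem_roots (Polynomial.map_ne_zero hsep.ne_zero), IsRoot.def, eval_map_algebraMap] at hz
      exact hz
    have hz1 : aeval z P = 0 := by
      have e : aeval z (P.map (Int.castRingHom ℚ)) = aeval z P := aeval_map_algebraMap ℚ z P
      rw [← e]; exact hz0
    have hn := (hroots z hz1).1
    have hz2 : z ≠ 0 := by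
      rintro rfl
      rw [norm_zero] at hn
      exact hq (by exact_mod_cast hn.symm)
    have h1 : aeval z (h * X - C ((q : ℚ) ^ 2)) = 0 := by
      obtain ⟨w, hw⟩ := hdvd
      rw [hw, map_mul, hz0, zero_mul]
    have h2 : (h.map (algebraMap ℚ ℂ)).eval z = conj z := by
      apply mul_right_cancel₀ hz2
      rw [map_sub, map_mul, aeval_X, aeval_C, sub_eq_zero] at h1
      rw [eval_map_algebraMap, h1, ← Complex.normSq_eq_conj_mul_self, Complex.normSq_eq_norm_sq, hn]
      push_cast
      simp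
    rw [Polynomial.map_mul, Polynomial.eval_mul, Polynomial.map_comp, Polynomial.eval_comp, h2]
    change G (conj z) * G z = _
    rw [hconj, ← Complex.normSq_eq_conj_mul_self, Complex.normSq_eq_norm_sq]
  have hsum2 : (c : ℝ) = ((PQ.map (algebraMap ℚ ℂ)).roots.map fun z => ‖G z‖ ^ 2).sum := by
    apply Complex.ofReal_injective
    have h1 : rsum ℂ PQ (g.comp h * g) =
        ((PQ.map (algebraMap ℚ ℂ)).roots.map fun z => ((‖G z‖ ^ 2 : ℝ) : ℂ)).sum := by
      unfold rsum
      congr 1
      exact Multiset.map_congr rfl hval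
    rw [h1] at hsum
    have h2 : ((((PQ.map (algebraMap ℚ ℂ)).roots.map fun z => ‖G z‖ ^ 2).sum : ℝ) : ℂ) =
        ((PQ.map (algebraMap ℚ ℂ)).roots.map fun z => ((‖G z‖ ^ 2 : ℝ) : ℂ)).sum := by
      rw [← Complex.ofRealHom_eq_coe, map_multiset_sum, Multiset.map_map]
      rfl
    rw [h2, hsum]
    push_cast
    rfl
  refine ⟨c, ?_, hc⟩
  by_cases hall : ∀ z ∈ (PQ.map (algebraMap ℚ ℂ)).roots, G z = 0
  · exfalso
    apply hr0
    have hdvd2 : PQ ∣ g := by
      by_cases hg0 : g = 0
      · rw [hg0]; exact dvd_zero _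
      rw [← Polynomial.map_dvd_map' (algebraMap ℚ ℂ)]
      refine (IsAlgClosed.splits _).dvd_of_roots_le_roots
        (Polynomial.map_ne_zero hsep.ne_zero) ?_
      rw [Multiset.le_iff_subset (nodup_roots hsep.map)]
      intro z hz
      exact (mem_roots (Polynomial.map_ne_zero hg0)).2 (hall z hz)
    obtain ⟨w, hw⟩ := hdvd2
    have h0 : ev φ PQ = 0 := by
      unfold ev
      rw [← hP']
      exact LinearMap.aeval_self_charpoly φ
    rw [hg, hw, ev_mul, h0, zero_mul]
  · push Not at hall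
    obtain ⟨z, hz, hz0⟩ := hall
    have h1 : ‖G z‖ ^ 2 ≤ ((PQ.map (algebraMap ℚ ℂ)).roots.map fun z => ‖G z‖ ^ 2).sum := by
      apply Multiset.single_le_sum
      · intro x hx
        obtain ⟨w, -, rfl⟩ := Multiset.mem_map.1 hx
        positivity
      · exact Multiset.mem_map_of_mem _ hz
    have h2 : (0 : ℝ) < ‖G z‖ ^ 2 := by positivity
    have h3 : (0 : ℝ) < (c : ℝ) := by rw [hsum2]; exact lt_of_lt_of_le h2 h1
    exact_mod_cast h3

end Pool.Agent.W552.Wm
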