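import Mathlib
import Pool.Agent.W522.M.M7

/-!
# Removing the strata of large dimension

`N^(s+r)` on the `E_2`-terms in total degree `s + w` only involves the strata `Y^(m)` with `m > s`.
-/

set_option autoImplicit false

namespace Pool.Agent.W552.Wm

open Module Pool.Agent.W522.M

variable {E : Type} [Field E]

/-- the spaces of the strata `Y^(s+1), Y^(s+2), ...` -/
def shSp (D : Strata E) (s : ℕ) : Sp E where
  V a w := D.V (s + a) (s + w)

/-- the strata `Y^(s+1), Y^(s+2), ...` -/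
def sh (D : Strata E) (s : ℕ) : Strata E where
  toSp := shSp D s
  res a w := D.res (s + a) (s + w)
  gys a w := D.gys (s + a) (s + w)
  lef a w := D.lef (s + a) (s + w)
  pair a w v := D.pair (s + a) (s + w) (s + v)
  frob a w := D.frob (s + a) (s + w)

variable {D : Strata E} {s : ℕ}

lemma sh_complex (h : D.IsComplex) : (sh D s).IsComplex where
  res_res a w x := h.res_res (s + a) (s + w) x
  gys_gys a w x := h.gys_gys (s + a) (s + w) x
  gys_res a w x := h.gys_res (s + a) (s + w) x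

lemma sh_bounded {n : ℕ} (h : D.IsBounded (s + n)) : (sh D s).IsBounded n where
  neg a w x hw := h.neg (s + a) (s + w) x (by omega)
  empty a w x hw := h.empty (s + a) (s + w) x (by omega)

lemma sh_lefschetz (h : D.IsLefschetz (s + 3)) : (sh D s).IsLefschetz 3 where
  lef_res a w x := h.lef_res (s + a) (s + w) x
  lef_gys a w x := h.lef_gys (s + a) (s + w) x
  bij a w r hr := by
    have hr3 : r ≤ 3 := by omega
    obtain rfl : w = 3 - r := by omega
    interval_cases r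
    · exact h.bij (s + a) (s + 3) 0 (by omega)
    · exact h.bij (s + a) (s + 2) 1 (by omega)
    · exact h.bij (s + a) (s + 1) 2 (by omega)
    · exact h.bij (s + a) (s + 0) 3 (by omega)

lemma sh_duality (h : D.IsDuality (s + 3)) : (sh D s).IsDuality 3 where
  adj a w v x y := h.adj (s + a) (s + w) (s + v) x y
  lef_adj a w v x y := h.lef_adj (s + a) (s + w) (s + v) x y
  symm a w v x y := by
    have h1 := h.symm (s + a) (s + w) (s + v) x y
    have h2 : ((-1 : E)) ^ (s + w + (s + a)) = (-1) ^ (w + a) := by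
      have : s + w + (s + a) = 2 * s + (w + a) := by ring
      rw [this, pow_add, pow_mul]
      norm_num
    rw [h2] at h1
    exact h1
  nondeg a w v hwv x hx := h.nondeg (s + a) (s + w) (s + v) (by omega) x hx

/-! ### Classes of cycles -/

/-- classes of cycles on the strata `Y^(s+1), Y^(s+2), ...` -/
def shC (A : D.Cycles) (s : ℕ) : (sh D s).Cycles where
  C a w := A.C (s + a) (s + w)
  smul a w r x hx := A.smul (s + a) (s + w) r x hx

variable {A : D.Cycles}

lemma shC_stable (h : A.Stable) : (shC A s).Stable where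
  res a w x hx := h.res (s + a) (s + w) x hx
  gys a w x hx := h.gys (s + a) (s + w) x hx
  lef a w x hx := h.lef (s + a) (s + w) x hx

lemma shC_components (h : A.Components (s + 3)) : (shC A s).Components 3 where
  span a := h.span (s + a)
  finite a := h.finite (s + a)
  pos a ha t ht h0 := by
    obtain ⟨r, hr, hr'⟩ := h.pos (s + a) (by omega) t ht h0
    have e : s + 3 - (s + a) = 3 - a := by omega
    rw [e] at hr'
    refine ⟨r, hr, ?_⟩
    interval_cases a
    · exact hr'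
    · exact hr'
    · exact hr'
    · exact hr'

lemma shC_rational (h : A.Rational (s + 3)) : (shC A s).Rational 3 := by
  intro a w v hwv x y hx hy
  exact h (s + a) (s + w) (s + v) (by omega) x y hx hy

lemma shC_hodge (h : A.HodgeIndex (s + 3)) : (shC A s).HodgeIndex 3 := by
  intro a ha x hx h1 h0
  have e1 : s + 3 - (s + a) - 1 = 3 - a - 1 := by omega
  have e2 : s + 3 - (s + a) - 2 = 3 - a - 2 := by omega
  have h2 := h (s + a) (by omega) x hx
  rw [e1, e2] at h2
  have ha1 : a ≤ 1 := by omega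
  interval_cases a
  · exact h2 h1 h0
  · exact h2 h1 h0

/-! ### The spectral sequence -/

/-- the columns `P` and `P'` correspond to each other -/
def Match (s : ℕ) (P P' : ℤ) : Prop := (∀ a, InCol P (s + a) ↔ InCol P' a) ∧ ∀ b, InCol P b → s ≤ b

lemma match_pos (s p : ℕ) : Match s (s + p) p := by
  refine ⟨fun a => ?_, fun b hb => ?_⟩
  · unfold InCol
    have e : ((s + a : ℕ) : ℤ) - (s + p) = (a : ℤ) - p := by push_cast; ring
    rw [e]
    constructor
    · rintro ⟨h1, h2⟩; exact ⟨by omega, h2⟩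
    · rintro ⟨h1, h2⟩; exact ⟨by omega, h2⟩
  · have := hb.1
    omega

lemma match_neg (s p : ℕ) : Match s (-(s + p : ℤ)) (-(p : ℤ)) := by
  refine ⟨fun a => ?_, fun b hb => ?_⟩
  · unfold InCol
    have e : ((s + a : ℕ) : ℤ) - -(s + p : ℤ) = ((a : ℤ) - -(p : ℤ)) + 2 * s := by
      push_cast; ring
    have e' : Even (((s + a : ℕ) : ℤ) - -(s + p : ℤ)) ↔ Even ((a : ℤ) - -(p : ℤ)) := by
      rw [e, Int.even_add]
      simp
    rw [e']
    constructor
    · rintro ⟨h1, h2⟩; exact ⟨by omega, h2⟩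
    · rintro ⟨h1, h2⟩; exact ⟨by omega, h2⟩
  · have := hb.1
    omega

/-- restriction of families -/
def rst {w : ℕ} (x : D.Ch (s + w)) : (sh D s).Ch w := fun a => x (s + a)

/-- extension of families by zero -/
def ext (D : Strata E) (s : ℕ) {w : ℕ} (x : (sh D s).Ch w) : D.Ch (s + w) := fun b =>
  if h : s ≤ b then
    (Nat.add_sub_cancel' h : s + (b - s) = b) ▸ (x (b - s) : D.V (s + (b - s)) (s + w))
  else 0

lemma rst_ext {w : ℕ} (x : (sh D s).Ch w) : rst (ext D s x) = x := by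
  funext a
  have key : ∀ (b : ℕ) (e : s + a = b), ext D s x b = e ▸ (x a : D.V (s + a) (s + w)) := by
    intro b e
    obtain rfl : a = b - s := by omega
    unfold ext
    rw [dif_pos (by omega)]
  exact key (s + a) rfl

lemma ext_lt {w : ℕ} (x : (sh D s).Ch w) {b : ℕ} (hb : b < s) : ext D s x b = 0 := by
  unfold ext
  rw [dif_neg (by omega)]

lemma tot_rst {w : ℕ} (x : D.Ch (s + w)) (h : ∀ b, b < s → x b = 0) (a : ℕ) :
    (tot (rst x) a : D.V (s + a) (s + w + 1)) = tot x (s + a) := by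
  cases a with
  | succ a => rfl
  | zero =>
    cases s with
    | zero => rfl
    | succ s =>
      change gam (x (s + 2)) = rho (x s) + gam (x (s + 2))
      rw [h s (by omega)]
      change _ = D.res _ _ 0 + _
      rw [map_zero, zero_add]

lemma forall_lt_of_match {P P' : ℤ} (hP : Match s P P') {w : ℕ} {x : D.Ch w}
    (hx : ∀ a, ¬ InCol P a → x a = 0) : ∀ b, b < s → x b = 0 := by
  intro b hb
  apply hx
  intro h
  have := hP.2 b h
  omega

lemma col_iff {P P' : ℤ} (hP : Match s P P') {w : ℕ} (x : D.Ch (s + w))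
    (hx : ∀ b, b < s → x b = 0) :
    (∀ a, ¬ InCol P a → x a = 0) ↔ ∀ a, ¬ InCol P' a → (rst x : (sh D s).Ch w) a = 0 := by
  constructor
  · intro h a ha
    exact h (s + a) fun h' => ha ((hP.1 a).1 h')
  · intro h b hb
    by_cases hbs : b < s
    · exact hx b hbs
    · obtain ⟨a, rfl⟩ : ∃ a, b = s + a := ⟨b - s, by omega⟩
      exact h a fun h' => hb ((hP.1 a).2 h')

lemma Z_iff {P P' : ℤ} (hP : Match s P P') (hP1 : Match s (P + 1) (P' + 1)) {w : ℕ}
    (x : D.Ch (s + w)) (hx : ∀ b, b < s → x b = 0) :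
    x ∈ D.Z P (s + w) ↔ rst x ∈ (sh D s).Z P' w := by
  rw [mem_Z, mem_Z, col_iff hP x hx]
  refine and_congr Iff.rfl ?_
  constructor
  · intro h a ha
    have h1 := tot_rst x hx a
    rw [h (s + a) ((hP1.1 a).2 ha)] at h1
    exact h1
  · intro h b hb
    obtain ⟨a, rfl⟩ : ∃ a, b = s + a := ⟨b - s, by have := hP1.2 b hb; omega⟩
    rw [← tot_rst x hx a]
    exact h a ((hP1.1 a).1 hb)

lemma B_iff {P P' : ℤ} (hP : Match s P P') (hP1 : Match s (P - 1) (P' - 1)) {w : ℕ}
    (x : D.Ch (s + (w + 1))) (hx : ∀ b, b < s → x b = 0) :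
    x ∈ D.B P (s + (w + 1)) ↔ rst x ∈ (sh D s).B P' (w + 1) := by
  have e1 : x ∈ D.B P (s + (w + 1)) ↔ x ∈ D.B P (s + w + 1) := Iff.rfl
  rw [e1, mem_B, mem_B]
  constructor
  · rintro ⟨y, h1, h2, h3⟩
    have hy := forall_lt_of_match hP1 h1
    refine ⟨rst y, (col_iff hP1 y hy).1 h1, fun a ha => ?_, fun a ha => ?_⟩
    · have h4 := h2 (s + a) ((hP.1 a).2 ha)
      rw [← tot_rst y hy a] at h4
      exact h4
    · exact h3 (s + a) fun h' => ha ((hP.1 a).1 h')
  · rintro ⟨y, h1, h2, h3⟩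
    have hy : ∀ b, b < s → ext D s y b = 0 := fun b hb => ext_lt y hb
    refine ⟨ext D s y, (col_iff hP1 _ hy).2 ?_, fun b hb => ?_, fun b hb => ?_⟩
    · rw [rst_ext]; exact h1
    · obtain ⟨a, rfl⟩ : ∃ a, b = s + a := ⟨b - s, by have := hP.2 b hb; omega⟩
      rw [← tot_rst _ hy a, rst_ext]
      exact h2 a ((hP.1 a).1 hb)
    · by_cases hbs : b < s
      · exact hx b hbs
      · obtain ⟨a, rfl⟩ : ∃ a, b = s + a := ⟨b - s, by omega⟩
        exact h3 a fun h' => hb ((hP.1 a).2 h')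

/-- **Removing strata of large dimension.** -/
theorem mw_of_sh {w r : ℕ} (hr : 1 ≤ r) (h : (sh D s).MonodromyWeight (w + 1) r) :
    D.MonodromyWeight (s + (w + 1)) (s + r) := by
  obtain ⟨r, rfl⟩ : ∃ r', r = r' + 1 := ⟨r - 1, by omega⟩
  obtain ⟨h1, h2, h3, h4⟩ := h
  -- the four matches
  have c1 : (((s + (r + 1) : ℕ)) : ℤ) = (s : ℤ) + ((r + 1 : ℕ) : ℤ) := by push_cast; ring
  have m0 : Match s (((s + (r + 1) : ℕ)) : ℤ) ((r + 1 : ℕ) : ℤ) := by
    rw [c1]; exact match_pos s (r + 1)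
  have m1 : Match s ((((s + (r + 1) : ℕ)) : ℤ) + 1) (((r + 1 : ℕ) : ℤ) + 1) := by
    have := match_pos s (r + 2)
    have e1 : (((s + (r + 1) : ℕ)) : ℤ) + 1 = (s : ℤ) + ((r + 2 : ℕ) : ℤ) := by push_cast; ring
    have e2 : ((r + 1 : ℕ) : ℤ) + 1 = ((r + 2 : ℕ) : ℤ) := by push_cast; ring
    rw [e1, e2]
    exact this
  have m2 : Match s ((((s + (r + 1) : ℕ)) : ℤ) - 1) (((r + 1 : ℕ) : ℤ) - 1) := by
    have := match_pos s r
    have e1 : (((s + (r + 1) : ℕ)) : ℤ) - 1 = (s : ℤ) + ((r : ℕ) : ℤ) := by push_cast; ring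
    have e2 : ((r + 1 : ℕ) : ℤ) - 1 = ((r : ℕ) : ℤ) := by push_cast; ring
    rw [e1, e2]
    exact this
  have n0 : Match s (-(((s + (r + 1) : ℕ)) : ℤ)) (-((r + 1 : ℕ) : ℤ)) := by
    rw [c1]; exact match_neg s (r + 1)
  have n1 : Match s (-(((s + (r + 1) : ℕ)) : ℤ) + 1) (-((r + 1 : ℕ) : ℤ) + 1) := by
    have := match_neg s r
    have e1 : -(((s + (r + 1) : ℕ)) : ℤ) + 1 = -((s : ℤ) + ((r : ℕ) : ℤ)) := by push_cast; ring
    have e2 : -((r + 1 : ℕ) : ℤ) + 1 = -((r : ℕ) : ℤ) := by push_cast; ring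
    rw [e1, e2]
    exact this
  have n2 : Match s (-(((s + (r + 1) : ℕ)) : ℤ) - 1) (-((r + 1 : ℕ) : ℤ) - 1) := by
    have := match_neg s (r + 2)
    have e1 : -(((s + (r + 1) : ℕ)) : ℤ) - 1 = -((s : ℤ) + ((r + 2 : ℕ) : ℤ)) := by
      push_cast; ring
    have e2 : -((r + 1 : ℕ) : ℤ) - 1 = -((r + 2 : ℕ) : ℤ) := by push_cast; ring
    rw [e1, e2]
    exact this
  have sZ : ∀ {P P' : ℤ}, Match s P P' → ∀ x ∈ D.Z P (s + (w + 1)), ∀ b, b < s → x b = 0 :=
    fun hP x hx => forall_lt_of_match hP ((mem_Z x).1 hx).1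
  have sB : ∀ {P P' : ℤ}, Match s P P' → ∀ x ∈ D.B P (s + (w + 1)), ∀ b, b < s → x b = 0 := by
    intro P P' hP x hx
    obtain ⟨y, -, -, h5⟩ := (mem_B (w := s + w) x).1 hx
    exact forall_lt_of_match hP h5
  refine ⟨fun x hx => ?_, fun x hx => ?_, fun x hx hx' => ?_, fun y hy => ?_⟩
  · have h5 := sZ n0 x hx
    exact (Z_iff m0 m1 x h5).2 (h1 _ ((Z_iff n0 n1 x h5).1 hx))
  · have h5 := sB n0 x hx
    exact (B_iff m0 m2 x h5).2 (h2 _ ((B_iff n0 n2 x h5).1 hx))
  · have h5 := sZ n0 x hx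
    exact (B_iff n0 n2 x h5).2 (h3 _ ((Z_iff n0 n1 x h5).1 hx) ((B_iff m0 m2 x h5).1 hx'))
  · have h5 := sZ m0 y hy
    obtain ⟨x, hx, hxy⟩ := h4 (rst y) ((Z_iff m0 m1 y h5).1 hy)
    have h6 : ∀ b, b < s → ext D s x b = 0 := fun b hb => ext_lt x hb
    refine ⟨ext D s x, (Z_iff n0 n1 _ h6).2 (by rw [rst_ext]; exact hx), ?_⟩
    have h7 : ∀ b, b < s → (y - ext D s x) b = 0 := by
      intro b hb
      rw [Pi.sub_apply, h5 b hb, h6 b hb, sub_zero]
    refine (B_iff m0 m2 _ h7).2 ?_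
    have h8 : rst (y - ext D s x) = rst y - x := by
      have h9 : rst (y - ext D s x) = rst y - rst (ext D s x) := rfl
      rw [h9, rst_ext]
    rw [h8]
    exact hxy

end Pool.Agent.W552.Wm
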