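import Mathlib
import Pool.Agent.W552.WmT
import Pool.Agent.W552.WmShift
import Pool.Agent.W552.WmDefs

/-!
# Weight-monodromy: the graded pieces of weights `2` and `2n - 2` of `H^n`
-/

set_option autoImplicit false

namespace Pool.Agent.W552.Wm

open Module Pool.Agent.W522.M

variable {E : Type} [Field E] [CharZero E] {D : Strata E} {s : ℕ}

/-- the part generated by the surface -/
theorem rho_eq_zero {A : D.Cycles} (hd : D.IsDuality (s + 3)) (hA : A.Stable)
    (S : Surface D s) (hS : S.IsGeometric A) (hH : S.HodgeType) (c : D.V s (s + 2))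
    (hc : c ∈ A.span s (s + 2)) (v : D.V s (s + 2)) (hv : v ∈ S.image)
    (h0 : gam (rho (c + v)) = 0) : rho v = 0 := by
  let r02 : D.V s (s + 2) →ₗ[E] D.V (s + 1) (s + 3) := D.res s (s + 2)
  let p : D.V (s + 1) (s + 3) →ₗ[E] D.V (s + 1) (s + 3) →ₗ[E] E := D.pair (s + 1) (s + 3) (s + 3)
  have hps : ∀ x y, p x y = p y x := by
    intro x y
    have h1 : p x y = (-1) ^ (s + 3 + (s + 1)) * p y x := hd.symm (s + 1) (s + 3) (s + 3) x y
    rw [h1, Even.neg_one_pow ⟨s + 2, by ring⟩, one_mul]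
  -- orthogonality to divisors
  have horth : ∀ f, S.IsC' f → ∀ x, ∀ z ∈ A.span (s + 1) (s + 3), p (f x) z = 0 := by
    intro f hf x z hz
    have h1 : Submodule.span E (A.C (s + 1) (s + 3) : Set (D.V (s + 1) (s + 3))) ≤
        LinearMap.ker (p (f x)) := by
      rw [Submodule.span_le]
      intro z hz
      exact hS.orth f x z hf hz
    exact h1 hz
  have hcs : r02 c ∈ A.span (s + 1) (s + 3) := by
    have h1 : A.span s (s + 2) ≤ (A.span (s + 1) (s + 3)).comap r02 := by
      unfold Strata.Cycles.span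
      rw [Submodule.span_le]
      intro z hz
      exact Submodule.subset_span (hA.res s (s + 2) z hz)
    exact h1 hc
  refine nondeg_of_pos S.form hS.symm hS.nondeg p hps (fun g => ∃ f, S.IsC f ∧ g = r02 ∘ₗ f) ?_
    (fun r => S.IsR r) ?_ ?_ hS.rational ?_ ?_ (rho v) ?_ ?_
  · refine ⟨⟨0, S.C.zero_mem, by rw [LinearMap.comp_zero]⟩, ?_, ?_⟩
    · rintro _ _ ⟨f, hf, rfl⟩ ⟨g, hg, rfl⟩
      exact ⟨f + g, S.C.add_mem hf hg, by rw [LinearMap.comp_add]⟩
    · rintro c _ ⟨f, hf, rfl⟩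
      exact ⟨(c : E) • f, hS.smul c f hf, by rw [LinearMap.comp_smul]⟩
  · rintro _ _ ⟨f, hf, rfl⟩ ⟨g, hg, rfl⟩
    obtain ⟨r, hr, h⟩ := hS.adj _ _ (hS.res f hf) (hS.res g hg)
    exact ⟨r, hr, h⟩
  · rintro _ r ⟨f, hf, rfl⟩ hr
    exact ⟨f.comp r, hS.comp f r hf hr, rfl⟩
  · rintro _ r ⟨f, hf, rfl⟩ hne h
    exact hH.strata _ r (hS.res f hf) hne h
  · intro r r' hr hne h
    exact hH.square r r' hr hne h
  · have h1 : S.image ≤ (Submodule.span E
        {v | ∃ g : S.T →ₗ[E] D.V (s + 1) (s + 3), (∃ f, S.IsC f ∧ g = r02 ∘ₗ f) ∧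
          ∃ x, v = g x}).comap r02 := by
      unfold Surface.image
      rw [Submodule.span_le]
      rintro _ ⟨f, x, hf, rfl⟩
      exact Submodule.subset_span ⟨r02 ∘ₗ f, ⟨f, hf, rfl⟩, x, rfl⟩
    exact h1 hv
  · rintro _ ⟨f, hf, rfl⟩ x
    have e1 : rho (c + v) = r02 c + r02 v := map_add r02 c v
    have e2 : p (r02 (f x)) (r02 c + r02 v) = 0 := by
      have h1 : ip (rho (f x)) (rho (c + v)) = ip (f x) (gam (rho (c + v))) :=
        hd.adj s (s + 2) (s + 3) (f x) (rho (c + v))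
      rw [h0] at h1
      have h2 : ip (f x) (0 : D.V s (s + 3 + 1)) = 0 := map_zero (D.pair s (s + 2) (s + 3 + 1) (f x))
      rw [h2, e1] at h1
      exact h1
    rw [map_add] at e2
    have e3 : p (r02 (f x)) (r02 c) = 0 := horth _ (hS.res f hf) x _ hcs
    rw [e3, zero_add] at e2
    exact e2

/-- **The graded pieces of weights `2` and `2n - 2` of `H^n`.** -/
theorem main (hD : IsNormalCrossings D (s + 3)) (A : D.Cycles) (hA : A.IsGeometric (s + 3))
    (S : Surface D s) (hS : S.IsGeometric A) (hH : S.HodgeType) (hG : S.Generates A) :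
    D.MonodromyWeight (s + 3) (s + 1) := by
  refine mw_of_sh (w := 2) (r := 1) le_rfl ?_
  refine mw_of_inj (sh_complex hD.complex) (sh_bounded hD.bounded) (sh_duality hD.duality) ?_
  intro m hm
  obtain ⟨c, v, hc, hv, h⟩ := hG m
  have hm' : gam (rho (c + v)) = 0 := by
    rw [← h]
    exact hm
  have h1 : rho v = 0 := rho_eq_zero hD.duality hA.stable S hS hH c hc v hv hm'
  have h2 : rho (c + v) = rho c := by
    have e1 : rho (c + v) = rho c + rho v := map_add (D.res s (s + 2)) c v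
    rw [e1, h1, add_zero]
  rw [h2] at hm' h
  obtain ⟨k, hk1, hk2⟩ := key_tate (sh_complex hD.complex) (sh_lefschetz hD.lefschetz)
    (sh_duality hD.duality) (shC A s) (shC_stable hA.stable) (shC_components hA.components)
    (shC_rational hA.rational) (shC_hodge hA.hodge) (c : D.V s (s + 2)) hc hm'
  exact ⟨k, hk1, Eq.trans h hk2⟩

end Pool.Agent.W552.Wm
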