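import Mathlib
import Pool.Agent.W522.M.Defs

/-!
# Correspondences from a variety to the strata of a semistable degeneration

`D` is the cohomology of the strata of the special fibre of a projective strictly semistable
scheme (or of a projective log scheme with simple normal crossings over a log point) of relative
dimension `s + k + 1`; `D.V a w` is `H^(w-a)(Y^(a+1))`. So `D.V s (s + k)` is `H^k` of the strata
`Y^(s+1)` of dimension `k + 1`, and `D.V (s + 1) (s + k + 1)` is `H^k` of the strata `Y^(s+2)` of
dimension `k`.
-/

set_option autoImplicit false

namespace Pool.Agent.W552.Wm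

open Pool.Agent.W522.M Polynomial

variable {E : Type} [Field E]

/-- The part of the spectral sequence attached to a projective log scheme with simple normal
crossings of dimension `n` over a log point that does not use a generic fibre: the restriction and
Gysin maps form a complex, there are no `(n+2)`-fold intersections, hard Lefschetz and Poincaré
duality hold for the strata. -/
structure IsLog (D : Strata E) (n : ℕ) : Prop where
  complex : D.IsComplex
  bounded : D.IsBounded n
  lefschetz : D.IsLefschetz n
  duality : D.IsDuality n

/-- A source of classes of degree `k`: a summand `T` of `H^k(S)` for a smooth projective variety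
`S` of dimension `k`, not necessarily connected (for `k = 1`: `H¹` of a curve; for `k = 2`: the
transcendental part of `H²` of a surface, the orthogonal complement of the classes of divisors),
with the intersection form, and the `ℚ`-spaces of maps induced by algebraic correspondences with
rational coefficients: `R` from `T` to `T`, `C` from `T` to `H^k(Y^(s+1))`, `C'` from `T` to
`H^k(Y^(s+2))`. -/
structure Source (D : Strata E) (s k : ℕ) where
  /-- the summand of `H^k(S)` -/
  T : Type
  [grp : AddCommGroup T]
  [mod : Module E T]
  [fin : FiniteDimensional E T]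
  /-- the intersection form -/
  form : T →ₗ[E] T →ₗ[E] E
  /-- correspondences from `S` to `S` -/
  R : AddSubgroup (T →ₗ[E] T)
  /-- correspondences from `S` to `Y^(s+1)` -/
  C : AddSubgroup (T →ₗ[E] D.V s (s + k))
  /-- correspondences from `S` to `Y^(s+2)` -/
  C' : AddSubgroup (T →ₗ[E] D.V (s + 1) (s + k + 1))

attribute [instance] Source.grp Source.mod Source.fin

variable {D : Strata E} {s k : ℕ}

/-- linear maps from `T` to `T` -/
abbrev Source.Endo (S : Source D s k) := S.T →ₗ[E] S.T

/-- linear maps from `T` to `H^k(Y^(s+1))` -/
abbrev Source.Map (S : Source D s k) := S.T →ₗ[E] D.V s (s + k)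

/-- linear maps from `T` to `H^k(Y^(s+2))` -/
abbrev Source.Map' (S : Source D s k) := S.T →ₗ[E] D.V (s + 1) (s + k + 1)

/-- `r` is induced by a correspondence from `S` to `S`. -/
def Source.IsR (S : Source D s k) (r : S.Endo) : Prop := r ∈ S.R

/-- `f` is induced by a correspondence from `S` to `Y^(s+1)`. -/
def Source.IsC (S : Source D s k) (f : S.Map) : Prop := f ∈ S.C

/-- `f` is induced by a correspondence from `S` to `Y^(s+2)`. -/
def Source.IsC' (S : Source D s k) (f : S.Map') : Prop := f ∈ S.C'

/-- the intersection number of two elements of `T` -/
def Source.num (S : Source D s k) (x y : S.T) : E := S.form x y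

/-- the value of a map from `T` to `H^k(Y^(s+1))` -/
def Source.val (S : Source D s k) (f : S.Map) (x : S.T) : D.V s (s + k) := f x

/-- the value of a map from `T` to `H^k(Y^(s+2))` -/
def Source.val' (S : Source D s k) (f : S.Map') (x : S.T) : D.V (s + 1) (s + k + 1) := f x

/-- the composition with the (alternating sum of the) restriction maps -/
def Source.restr (S : Source D s k) (f : S.Map) : S.Map' := (D.res s (s + k)).comp f

/-- composition -/
def Source.comp (S : Source D s k) (f : S.Map) (r : S.Endo) : S.Map := LinearMap.comp f r

/-- composition -/
def Source.comp' (S : Source D s k) (f : S.Map') (r : S.Endo) : S.Map' := LinearMap.comp f r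

/-- composition -/
def Source.mul (S : Source D s k) (r r' : S.Endo) : S.Endo := LinearMap.comp r r'

/-- multiplication by a rational number -/
def Source.rsmul (S : Source D s k) (c : ℚ) (f : S.Map) : S.Map := (c : E) • f

/-- multiplication by a rational number -/
def Source.scale (S : Source D s k) (c : ℚ) (r : S.Endo) : S.Endo := (c : E) • r

/-- the trace -/
noncomputable def Source.tr (S : Source D s k) (r : S.Endo) : E := LinearMap.trace E S.T r

/-- the characteristic polynomial -/
noncomputable def Source.cp (S : Source D s k) (r : S.Endo) : E[X] := LinearMap.charpoly r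

/-- `x` is a rational number. -/
def IsRat (x : E) : Prop := ∃ c : ℚ, x = (c : E)

/-- `x` is a positive rational number. -/
def IsPos (x : E) : Prop := ∃ c : ℚ, 0 < c ∧ x = (c : E)

/-- `r` is the composition `f^* g`, where `f^*` is the transpose of `f` for the intersection forms
of `S` and of the strata `Y^(s+2)`. -/
def Source.IsProduct (S : Source D s k) (f g : S.Map') (r : S.Endo) : Prop :=
  ∀ x y, S.num x (r y) = ip (S.val' f x) (S.val' g y)

/-- `r'` is the transpose of `r`. -/
def Source.IsTranspose (S : Source D s k) (r r' : S.Endo) : Prop :=
  ∀ x y, S.num x (r' y) = S.num (r x) y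

/-- The known properties of correspondences. -/
structure Source.IsGeometric (S : Source D s k) : Prop where
  /-- the form on `T` is symmetric or alternating, and nondegenerate -/
  symm : ∀ x y, S.num x y = (-1) ^ k * S.num y x
  nondeg : ∀ x, (∀ y, S.num x y = 0) → x = 0
  /-- rational coefficients -/
  smul : ∀ c f, S.IsC f → S.IsC (S.rsmul c f)
  /-- the composition with the (alternating sum of) restriction maps is a correspondence -/
  res : ∀ f, S.IsC f → S.IsC' (S.restr f)
  /-- composition of correspondences -/
  comp : ∀ f r, S.IsC f → S.IsR r → S.IsC (S.comp f r)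
  /-- `f^* g` is a correspondence -/
  adj : ∀ f g, S.IsC' f → S.IsC' g → ∃ r, S.IsR r ∧ S.IsProduct f g r
  /-- traces of correspondences are rational -/
  rational : ∀ r, S.IsR r → IsRat (S.tr r)

/-- Correspondences map `T` to classes orthogonal to the classes of cycles. -/
def Source.IsOrthogonal (S : Source D s k) (A : D.Cycles) : Prop :=
  ∀ f x (c : D.V (s + 1) (s + k + 1)), S.IsC' f → A.Alg c → ip (S.val' f x) c = 0

/-- Positivity: the traces `tr(f^* f)` and `tr(r^* r)` are positive. For `k = 1` this is Weil's
theorem for correspondences between curves; for `k = 2` it is the standard conjecture of Hodge type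
for the classes of codimension `2` in the products of the transcendental parts on the fourfolds
`S × Y^(s+2)` and `S × S`. -/
structure Source.Positive (S : Source D s k) : Prop where
  strata : ∀ f r, S.IsC' f → f ≠ 0 → S.IsProduct f f r → IsPos (S.tr r)
  square : ∀ r r', S.IsR r → r ≠ 0 → S.IsTranspose r r' → IsPos (S.tr (S.mul r' r))

/-- the subspace of `H^k(Y^(s+1))` spanned by the images of `T` under correspondences -/
def Source.image (S : Source D s k) : Submodule E (D.V s (s + k)) :=
  Submodule.span E {v | ∃ f x, S.IsC f ∧ v = S.val f x}

/-- `H^k(Y^(s+1))` is generated by the source, up to classes whose restriction to `Y^(s+2)`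
vanishes. -/
def Source.Generates (S : Source D s k) : Prop :=
  ∀ m : D.V s (s + k), ∃ v, v ∈ S.image ∧ rho m = rho v

/-- `H^k(Y^(s+1))` is generated by the source and by classes of cycles, up to classes whose
restriction to `Y^(s+2)` vanishes. -/
def Source.GeneratesWith (S : Source D s k) (A : D.Cycles) : Prop :=
  ∀ m : D.V s (s + k), ∃ c v, c ∈ A.span s (s + k) ∧ v ∈ S.image ∧ rho m = rho (c + v)

/-! ### Surfaces with simple eigenvalues of Frobenius -/

/-- `F` is the Frobenius endomorphism of the surface `S` over the field with `q` elements; its
characteristic polynomial on `T` is `P`. Correspondences commute with `F`, are closed under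
composition and transposition, and contain the identity (of `T`) and `F`. -/
structure Source.IsFrobenius (S : Source D s k) (F : S.Endo) (q : ℕ) (P : ℤ[X]) : Prop where
  one : S.IsR LinearMap.id
  frob : S.IsR F
  mul : ∀ r r', S.IsR r → S.IsR r' → S.IsR (S.mul r r')
  comm : ∀ r, S.IsR r → S.mul r F = S.mul F r
  transpose : ∀ r, S.IsR r → ∃ r', S.IsR r' ∧ S.IsTranspose r r'
  form : ∀ x y, S.num (F x) (F y) = (q : E) ^ 2 * S.num x y
  charpoly : S.cp F = P.map (Int.castRingHom E)

/-- The complex roots of `P` have absolute value `q` (Deligne) and are simple. -/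
def IsSimple (P : ℤ[X]) (q : ℕ) : Prop :=
  ∀ z : ℂ, aeval z P = 0 → ‖z‖ = q ∧ aeval z (derivative P) ≠ 0

/-- `f` identifies the summand `e T` of `T` with a summand of `H²(Y^(s+2))` and multiplies the
intersection numbers by the positive rational number `c`. -/
structure Source.IsCopy (S : Source D s k) (f : S.Map') (e : S.Endo) (c : ℚ) : Prop where
  map : S.IsC' f
  endo : S.IsR e
  pos : 0 < c
  supp : S.comp' f e = f
  isom : S.IsProduct f f (S.scale c e)

/-- The transcendental parts of the surfaces `Y^(s+2)` to which `S` has correspondences are copies
of summands of `T`: there are finitely many pairwise orthogonal copies such that every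
correspondence from `T` to `H²(Y^(s+2))` is a combination of them with coefficients in `R`. -/
def Source.HasCopies (S : Source D s k) : Prop :=
  ∃ (m : ℕ) (f : Fin m → S.Map') (e : Fin m → S.Endo) (c : Fin m → ℚ),
    (∀ j, S.IsCopy (f j) (e j) (c j)) ∧ (∀ i j, i ≠ j → S.IsProduct (f i) (f j) 0) ∧
    ∀ g, S.IsC' g → ∃ r : Fin m → S.Endo, (∀ j, S.IsR (r j)) ∧ g = ∑ j, S.comp' (f j) (r j)

end Pool.Agent.W552.Wm
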