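import Mathlib
import Pool.Agent.W552.RatBasis

/-!
# Nondegeneracy on the part generated by correspondences, from positivity (both signs)
-/

set_option autoImplicit false

namespace Pool.Agent.W552.Wm


open Module

section frame

variable {E T : Type*} [Field E] [AddCommGroup T] [Module E T] [FiniteDimensional E T]

/-- dual bases of a nondegenerate symmetric form -/
theorem exists_frame' (t : T →ₗ[E] T →ₗ[E] E) (ε : E) (hε : ε * ε = 1)
    (hs : ∀ x y, t x y = ε * t y x) (hn : ∀ x, (∀ y, t x y = 0) → x = 0) :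
    ∃ (n : ℕ) (b b' : Fin n → T), (∀ x, x = ∑ i, t (b' i) x • b i) ∧
      (∀ x, x = ∑ i, (ε * t (b i) x) • b' i) ∧
      ∀ r : Module.End E T, LinearMap.trace E T r = ∑ i, t (b' i) (r (b i)) := by
  classical
  have hN : LinearMap.BilinForm.Nondegenerate (t : LinearMap.BilinForm E T) := by
    refine ⟨hn, fun y hy => hn y fun x => ?_⟩
    rw [hs]
    have : t x y = 0 := hy x
    rw [this, mul_zero]
  let b := Module.finBasis E T
  let b' := LinearMap.BilinForm.dualBasis (t : LinearMap.BilinForm E T) hN b
  have h0 : ∀ i x, t (b' i) x = b.repr x i := by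
    intro i x
    conv_lhs => rw [← b.sum_repr x, map_sum]
    rw [Finset.sum_eq_single i]
    · rw [map_smul]
      have := LinearMap.BilinForm.apply_dualBasis_left (B := (t : LinearMap.BilinForm E T))
        hN b i i
      rw [if_pos rfl] at this
      change _ • t (b' i) (b i) = _
      rw [show t (b' i) (b i) = 1 from this, smul_eq_mul, mul_one]
    · intro j _ hj
      rw [map_smul]
      have := LinearMap.BilinForm.apply_dualBasis_left (B := (t : LinearMap.BilinForm E T))
        hN b i j
      rw [if_neg hj] at this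
      rw [show t (b' i) (b j) = 0 from this, smul_zero]
    · intro h; exact absurd (Finset.mem_univ _) h
  have h1 : ∀ x, x = ∑ i, t (b' i) x • b i := by
    intro x
    conv_lhs => rw [← b.sum_repr x]
    simp only [h0]
  refine ⟨_, b, b', h1, ?_, ?_⟩
  · intro x
    rw [← sub_eq_zero]
    apply hn
    intro y
    rw [hs, map_sub]
    suffices h : t y x = t y (∑ i, (ε * t (b i) x) • b' i) by rw [h, sub_self, mul_zero]
    conv_lhs => rw [h1 y]
    rw [map_sum, LinearMap.sum_apply, map_sum]
    apply Finset.sum_congr rfl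
    intro i _
    rw [map_smul, LinearMap.smul_apply, map_smul, smul_eq_mul, smul_eq_mul, hs y (b' i)]
    linear_combination (-(t (b' i) y) * t (b i) x) * hε
  · intro r
    rw [LinearMap.trace_eq_matrix_trace E b, Matrix.trace]
    apply Finset.sum_congr rfl
    intro i _
    rw [Matrix.diag_apply, LinearMap.toMatrix_apply, h0]

end frame

section tlemma

variable {E T V : Type*} [Field E] [CharZero E] [AddCommGroup T] [Module E T]
  [FiniteDimensional E T] [AddCommGroup V] [Module E V] [FiniteDimensional E V]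

/-- **Positivity implies nondegeneracy.** `D` is a rational space of maps from `T` to `V`, `R` a
rational space of endomorphisms of `T` containing the products of adjoints of elements of `D` with
elements of `D`. If the traces of `f^* f` and `r^* r` are positive, then the form on `V` is
nondegenerate on the subspace generated by the images of the elements of `D`. -/
theorem nondeg_of_pos' (t : T →ₗ[E] T →ₗ[E] E) (ε : E) (hε : ε * ε = 1)
    (hs : ∀ x y, t x y = ε * t y x)
    (hn : ∀ x, (∀ y, t x y = 0) → x = 0) (p : V →ₗ[E] V →ₗ[E] E) (hp : ∀ x y, p x y = ε * p y x)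
    (D : (T →ₗ[E] V) → Prop) (hD : RatSub E D) (R : (T →ₗ[E] T) → Prop)
    (hadj : ∀ f g, D f → D g → ∃ r, R r ∧ ∀ x y, t x (r y) = p (f x) (g y))
    (hDR : ∀ f r, D f → R r → D (f ∘ₗ r))
    (hrat : ∀ r, R r → ∃ c : ℚ, LinearMap.trace E T r = c)
    (hpos : ∀ f r, D f → f ≠ 0 → (∀ x y, t x (r y) = p (f x) (f y)) →
      ∃ c : ℚ, 0 < c ∧ LinearMap.trace E T r = c)
    (hposR : ∀ r r', R r → r ≠ 0 → (∀ x y, t x (r' y) = t (r x) y) →
      ∃ c : ℚ, 0 < c ∧ LinearMap.trace E T (r' ∘ₗ r) = c)
    (w : V) (hw : w ∈ Submodule.span E {v | ∃ f, D f ∧ ∃ x, v = f x})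
    (h0 : ∀ f, D f → ∀ x, p (f x) w = 0) : w = 0 := by
  classical
  obtain ⟨n, b, b', hb, hb', htr⟩ := exists_frame' t ε hε hs hn
  have hn' : ∀ z, (∀ x, t x z = 0) → z = 0 := by
    intro z hz
    apply hn
    intro y
    rw [hs, hz, mul_zero]
  -- the form on `Hom(T, V)`
  let β : (T →ₗ[E] V) →ₗ[E] (T →ₗ[E] V) →ₗ[E] E := LinearMap.mk₂ E
    (fun f g => ∑ i, p (f (b' i)) (g (b i)))
    (fun f f' g => by
      rw [← Finset.sum_add_distrib]
      apply Finset.sum_congr rfl
      intro i _
      rw [LinearMap.add_apply, map_add, LinearMap.add_apply])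
    (fun c f g => by
      rw [Finset.smul_sum]
      apply Finset.sum_congr rfl
      intro i _
      rw [LinearMap.smul_apply, map_smul, LinearMap.smul_apply])
    (fun f g g' => by
      rw [← Finset.sum_add_distrib]
      apply Finset.sum_congr rfl
      intro i _
      rw [LinearMap.add_apply, map_add])
    (fun c f g => by
      rw [Finset.smul_sum]
      apply Finset.sum_congr rfl
      intro i _
      rw [LinearMap.smul_apply, map_smul])
  have hβ : ∀ f g, β f g = ∑ i, p (f (b' i)) (g (b i)) := fun f g => rfl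
  have hβr : ∀ f g r, (∀ x y, t x (r y) = p (f x) (g y)) → β f g = LinearMap.trace E T r := by
    intro f g r h
    rw [hβ, htr]
    apply Finset.sum_congr rfl
    intro i _
    rw [h]
  have hβs : ∀ f g, β f g = β g f := by
    intro f g
    have e1 : ∀ f g : T →ₗ[E] V, β f g = ∑ i, ∑ j, t (b' j) (b' i) * p (f (b j)) (g (b i)) := by
      intro f g
      rw [hβ]
      apply Finset.sum_congr rfl
      intro i _
      conv_lhs => rw [hb (b' i)]
      rw [map_sum, map_sum, LinearMap.sum_apply]
      apply Finset.sum_congr rfl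
      intro j _
      rw [map_smul, map_smul, LinearMap.smul_apply, smul_eq_mul]
    rw [e1, e1, Finset.sum_comm]
    apply Finset.sum_congr rfl
    intro i _
    apply Finset.sum_congr rfl
    intro j _
    rw [hs (b' i) (b' j), hp (g (b j)) (f (b i))]
    ring
  have hβrat : ∀ f g, D f → D g → ∃ c : ℚ, β f g = c := by
    intro f g hf hg
    obtain ⟨r, hr, h⟩ := hadj f g hf hg
    rw [hβr f g r h]
    exact hrat r hr
  have hβpos : ∀ f, D f → f ≠ 0 → ∃ c : ℚ, 0 < c ∧ β f f = c := by
    intro f hf hf0
    obtain ⟨r, hr, h⟩ := hadj f f hf hf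
    rw [hβr f f r h]
    exact hpos f r hf hf0 h
  obtain ⟨N, e, ω, he, hω, horth, hspan⟩ := exists_ratBasis hD β hβrat
    (fun f g _ _ => hβs f g) hβpos
  have hω0 : ∀ k, (ω k : E) ≠ 0 := fun k => by exact_mod_cast (hω k).ne'
  have hcoord : ∀ f, D f → ∃ c : Fin N → ℚ, f = ∑ k, (c k : E) • e k := fun f hf =>
    hspan f (Submodule.subset_span hf) fun k => hβrat f (e k) hf (he k)
  -- adjoints
  let dag : (T →ₗ[E] V) → (V →ₗ[E] T) := fun f => ∑ i, (p (f (b' i))).smulRight (b i)
  have hdag : ∀ f x v, t x (dag f v) = p (f x) v := by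
    intro f x v
    have e1 : dag f v = ∑ i, p (f (b' i)) v • b i := by
      change (∑ i, (p (f (b' i))).smulRight (b i)) v = _
      rw [LinearMap.sum_apply]
      rfl
    rw [e1, map_sum]
    conv_rhs => rw [hb' x]
    rw [map_sum, map_sum, LinearMap.sum_apply]
    apply Finset.sum_congr rfl
    intro i _
    rw [map_smul, map_smul, map_smul, LinearMap.smul_apply, smul_eq_mul, smul_eq_mul, hs x]
    ring
  have hdagR : ∀ f g, D f → D g → R (dag f ∘ₗ g) := by
    intro f g hf hg
    obtain ⟨r, hr, h⟩ := hadj f g hf hg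
    have e1 : dag f ∘ₗ g = r := by
      apply LinearMap.ext
      intro y
      rw [← sub_eq_zero]
      apply hn'
      intro x
      rw [map_sub, LinearMap.comp_apply, hdag, h, sub_self]
    rw [e1]
    exact hr
  let A : V →ₗ[E] V := ∑ k, (ω k : E)⁻¹ • (e k ∘ₗ dag (e k))
  have hA : ∀ v, A v = ∑ k, (ω k : E)⁻¹ • e k (dag (e k) v) := by
    intro v
    change (∑ k, (ω k : E)⁻¹ • (e k ∘ₗ dag (e k))) v = _
    rw [LinearMap.sum_apply]
    rfl
  have hAD : ∀ f, D f → D (A ∘ₗ f) := by
    intro f hf
    have e1 : A ∘ₗ f = ∑ k, (((ω k)⁻¹ : ℚ) : E) • (e k ∘ₗ (dag (e k) ∘ₗ f)) := by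
      apply LinearMap.ext
      intro x
      rw [LinearMap.comp_apply, hA, LinearMap.sum_apply]
      apply Finset.sum_congr rfl
      intro k _
      rw [LinearMap.smul_apply, Rat.cast_inv]
      rfl
    rw [e1]
    exact hD.sum _ fun k _ => hD.smul _ (hDR _ _ (he k) (hdagR _ _ (he k) hf))
  -- positivity of `A`
  have hApos : ∀ f, D f → A ∘ₗ f = 0 → f = 0 := by
    intro f hf hAf
    by_contra hne
    have e1 : β (A ∘ₗ f) f = ∑ k, (ω k : E)⁻¹ * β (e k ∘ₗ (dag (e k) ∘ₗ f)) f := by
      rw [hβ]
      simp only [hβ, Finset.mul_sum]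
      rw [Finset.sum_comm]
      apply Finset.sum_congr rfl
      intro i _
      rw [LinearMap.comp_apply, hA, map_sum, LinearMap.sum_apply]
      apply Finset.sum_congr rfl
      intro k _
      rw [map_smul, LinearMap.smul_apply, smul_eq_mul]
      rfl
    have e2 : ∀ k, ∃ c : ℚ, 0 ≤ c ∧ β (e k ∘ₗ (dag (e k) ∘ₗ f)) f = c ∧
        (β (e k) f ≠ 0 → 0 < c) := by
      intro k
      set r := dag (e k) ∘ₗ f with hr
      have hrR : R r := hdagR _ _ (he k) hf
      let r' : T →ₗ[E] T := ∑ i, (t (r (b' i))).smulRight (b i)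
      have hr' : ∀ x y, t x (r' y) = t (r x) y := by
        intro x y
        have e1 : r' y = ∑ i, t (r (b' i)) y • b i := by
          change (∑ i, (t (r (b' i))).smulRight (b i)) y = _
          rw [LinearMap.sum_apply]
          rfl
        rw [e1, map_sum]
        conv_rhs => rw [hb' x]
        rw [map_sum, map_sum, LinearMap.sum_apply]
        apply Finset.sum_congr rfl
        intro i _
        rw [map_smul, map_smul, map_smul, LinearMap.smul_apply, smul_eq_mul, smul_eq_mul, hs x]
        ring
      have e3 : β (e k ∘ₗ r) f = LinearMap.trace E T (r' ∘ₗ r) := by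
        apply hβr
        intro x y
        rw [LinearMap.comp_apply, LinearMap.comp_apply, hr', hr, LinearMap.comp_apply,
          LinearMap.comp_apply, hdag]
        rfl
      by_cases hr0 : r = 0
      · refine ⟨0, le_rfl, ?_, ?_⟩
        · rw [e3, hr0, LinearMap.comp_zero, map_zero, Rat.cast_zero]
        · intro hne'
          exfalso
          apply hne'
          rw [hβr (e k) f r (fun x y => by rw [hr, LinearMap.comp_apply, hdag]), hr0, map_zero]
      · obtain ⟨c, hc, hc'⟩ := hposR r r' hrR hr0 hr'
        exact ⟨c, hc.le, by rw [e3, hc'], fun _ => hc⟩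
    choose c hc0 hc hcpos using e2
    have e3 : β (A ∘ₗ f) f = ((∑ k, (ω k)⁻¹ * c k : ℚ) : E) := by
      rw [e1]
      push_cast
      apply Finset.sum_congr rfl
      intro k _
      rw [hc]
    rw [hAf, map_zero, LinearMap.zero_apply] at e3
    have e4 : (∑ k, (ω k)⁻¹ * c k : ℚ) = 0 := by exact_mod_cast e3.symm
    rw [Finset.sum_eq_zero_iff_of_nonneg
      (fun k _ => mul_nonneg (inv_pos.2 (hω k)).le (hc0 k))] at e4
    have e5 : ∀ k, β (e k) f = 0 := by
      intro k
      by_contra hk
      have := e4 k (Finset.mem_univ _)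
      rcases mul_eq_zero.1 this with h | h
      · exact (inv_pos.2 (hω k)).ne' h
      · exact (hcpos k hk).ne' h
    obtain ⟨a, ha⟩ := hcoord f hf
    obtain ⟨d, hd, hd'⟩ := hβpos f hf hne
    have e6 : β f f = 0 := by
      have e7 : β f = ∑ k, (a k : E) • β (e k) := by
        conv_lhs => rw [ha]
        rw [map_sum]
        apply Finset.sum_congr rfl
        intro k _
        rw [map_smul]
      rw [e7, LinearMap.sum_apply]
      apply Finset.sum_eq_zero
      intro k _
      rw [LinearMap.smul_apply, e5, smul_zero]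
    rw [hd'] at e6
    exact hd.ne' (by exact_mod_cast e6)
  -- `A` is surjective on `D`
  choose M hM using fun k => hcoord _ (hAD _ (he k))
  let L : (Fin N → ℚ) →ₗ[ℚ] (Fin N → ℚ) :=
    { toFun := fun a l => ∑ k, a k * M k l
      map_add' := fun a a' => by
        funext l
        rw [Pi.add_apply, ← Finset.sum_add_distrib]
        apply Finset.sum_congr rfl
        intro k _
        rw [Pi.add_apply, add_mul]
      map_smul' := fun c a => by
        funext l
        rw [RingHom.id_apply, Pi.smul_apply, smul_eq_mul, Finset.mul_sum]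
        apply Finset.sum_congr rfl
        intro k _
        rw [Pi.smul_apply, smul_eq_mul, mul_assoc] }
  have hL : ∀ a l, L a l = ∑ k, a k * M k l := fun a l => rfl
  let cc : (Fin N → ℚ) → (T →ₗ[E] V) := fun a => ∑ k, (a k : E) • e k
  have hccD : ∀ a, D (cc a) := fun a => hD.sum _ fun k _ => hD.smul _ (he k)
  have hLcc : ∀ a, A ∘ₗ cc a = cc (L a) := by
    intro a
    apply LinearMap.ext
    intro x
    have e0 : ∀ a : Fin N → ℚ, cc a x = ∑ k, ((a k : E) • e k) x := by
      intro a
      change (∑ k, (a k : E) • e k) x = _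
      rw [LinearMap.sum_apply]
    rw [LinearMap.comp_apply, e0, e0, map_sum]
    have e1 : ∀ k, A (((a k : E) • e k) x) = ∑ l, ((a k : E) * (M k l : E)) • e l x := by
      intro k
      have e2 : A ((e k) x) = ∑ l, (M k l : E) • e l x := by
        have := congrArg (fun f : T →ₗ[E] V => f x) (hM k)
        simp only [LinearMap.comp_apply, LinearMap.sum_apply, LinearMap.smul_apply] at this
        exact this
      rw [LinearMap.smul_apply, map_smul, e2, Finset.smul_sum]
      apply Finset.sum_congr rfl
      intro l _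
      rw [smul_smul]
    simp only [e1]
    rw [Finset.sum_comm]
    apply Finset.sum_congr rfl
    intro l _
    rw [LinearMap.smul_apply, hL, Rat.cast_sum, Finset.sum_smul]
    apply Finset.sum_congr rfl
    intro k _
    rw [Rat.cast_mul]
  have hcc0 : ∀ a, cc a = 0 → a = 0 := by
    intro a ha
    funext k
    have e1 : β (cc a) (e k) = (a k : E) * ω k := by
      change β (∑ l, (a l : E) • e l) (e k) = _
      rw [map_sum, LinearMap.sum_apply, Finset.sum_eq_single k]
      · rw [map_smul, LinearMap.smul_apply, horth, if_pos rfl, smul_eq_mul]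
      · intro l _ hl
        rw [map_smul, LinearMap.smul_apply, horth, if_neg hl, smul_zero]
      · intro h; exact absurd (Finset.mem_univ _) h
    rw [ha, map_zero, LinearMap.zero_apply] at e1
    rcases mul_eq_zero.1 e1.symm with h | h
    · exact_mod_cast h
    · exact absurd h (hω0 k)
  have hLinj : Function.Injective L := by
    rw [← LinearMap.ker_eq_bot, LinearMap.ker_eq_bot']
    intro a ha
    apply hcc0
    apply hApos _ (hccD a)
    rw [hLcc, ha]
    change ∑ k, (((0 : Fin N → ℚ) k : ℚ) : E) • e k = 0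
    simp
  have hLsurj : Function.Surjective L := LinearMap.injective_iff_surjective.1 hLinj
  -- the restriction of `A` to the span
  set W := Submodule.span E {v : V | ∃ f, D f ∧ ∃ x, v = f x} with hW
  have hAW : ∀ v ∈ W, A v ∈ W := by
    intro v hv
    induction hv using Submodule.span_induction with
    | mem v hv =>
      obtain ⟨f, hf, x, rfl⟩ := hv
      exact Submodule.subset_span ⟨A ∘ₗ f, hAD f hf, x, rfl⟩
    | zero => rw [map_zero]; exact Submodule.zero_mem _
    | add u v _ _ hu hv => rw [map_add]; exact Submodule.add_mem _ hu hv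
    | smul c v _ hv => rw [map_smul]; exact Submodule.smul_mem _ _ hv
  have hAsurj : ∀ v ∈ W, ∃ u ∈ W, A u = v := by
    intro v hv
    induction hv using Submodule.span_induction with
    | mem v hv =>
      obtain ⟨f, hf, x, rfl⟩ := hv
      obtain ⟨a, ha⟩ := hcoord f hf
      obtain ⟨a', ha'⟩ := hLsurj a
      refine ⟨cc a' x, Submodule.subset_span ⟨cc a', hccD a', x, rfl⟩, ?_⟩
      have e1 := congrArg (fun f : T →ₗ[E] V => f x) (hLcc a')
      rw [ha'] at e1
      change A (cc a' x) = f x
      rw [ha]
      exact e1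
    | zero => exact ⟨0, Submodule.zero_mem _, map_zero _⟩
    | add u v _ _ hu hv =>
      obtain ⟨u', hu', hu⟩ := hu
      obtain ⟨v', hv', hv⟩ := hv
      exact ⟨u' + v', Submodule.add_mem _ hu' hv', by rw [map_add, hu, hv]⟩
    | smul c v _ hv =>
      obtain ⟨v', hv', hv⟩ := hv
      exact ⟨c • v', Submodule.smul_mem _ _ hv', by rw [map_smul, hv]⟩
  let AW : W →ₗ[E] W := A.restrict hAW
  have hAWs : Function.Surjective AW := by
    rintro ⟨v, hv⟩
    obtain ⟨u, hu, h⟩ := hAsurj v hv
    exact ⟨⟨u, hu⟩, Subtype.ext h⟩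
  have hAWi : Function.Injective AW := LinearMap.injective_iff_surjective.2 hAWs
  have hAw : A w = 0 := by
    rw [hA]
    apply Finset.sum_eq_zero
    intro k _
    have e1 : dag (e k) w = 0 := by
      apply hn'
      intro x
      rw [hdag]
      exact h0 _ (he k) x
    rw [e1, map_zero, smul_zero]
  have h2 : (⟨w, hw⟩ : W) = 0 := by
    apply hAWi
    apply Subtype.ext
    change A w = ((AW 0 : W) : V)
    rw [hAw, map_zero]
    rfl
  exact congrArg Subtype.val h2

end tlemma

end Pool.Agent.W552.Wm
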