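import Mathlib
import Pool.Agent.W552.WmF2
import Pool.Agent.W552.WmT2
import Pool.Agent.W552.WmSrc

/-!
# Positivity for copies of a surface with simple eigenvalues of Frobenius, and the part of the
cohomology of the strata that comes from a source
-/

set_option autoImplicit false

namespace Pool.Agent.W552.Wm

open Module Polynomial Pool.Agent.W522.M

variable {E : Type} [Field E] [CharZero E] {D : Strata E} {s k : ℕ}

/-- The standard conjecture of Hodge type for copies of a surface with simple eigenvalues. -/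
theorem positive_of_copies (S : Source D s 2) (hS : S.IsGeometric) {F : S.Endo} {q : ℕ} {P : ℤ[X]}
    (hF : S.IsFrobenius F q P) (hq : q ≠ 0) (hs : IsSimple P q) (hC : S.HasCopies) :
    S.Positive := by
  have hsymm : ∀ x y, S.form x y = S.form y x := by
    intro x y
    have h := hS.symm x y
    rw [Even.neg_one_pow ⟨1, rfl⟩, one_mul] at h
    exact h
  have hn : ∀ x, (∀ y, S.form y x = 0) → x = 0 := by
    intro x hx
    apply hS.nondeg x
    intro y
    exact (hsymm x y).trans (hx y)
  have hsq : ∀ r r', S.IsR r → r ≠ 0 → S.IsTranspose r r' → IsPos (S.tr (S.mul r' r)) := by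
    intro r r' hr hr0 h
    exact pos_of_frobenius S.form hn F q hq P hF.charpoly hs hF.form (fun r => S.IsR r) hF.one
      hF.frob hF.mul hF.comm hS.rational hF.transpose r r' hr hr0 h
  refine ⟨?_, hsq⟩
  intro f r hf hf0 hr
  obtain ⟨m, g, e, c, h1, h2, h3⟩ := hC
  obtain ⟨u, hu, hfu⟩ := h3 f hf
  have huniq : ∀ a b : S.Endo, (∀ x y, S.form x (a y) = S.form x (b y)) → a = b := by
    intro a b h
    apply LinearMap.ext
    intro y
    rw [← sub_eq_zero]
    apply hn
    intro x
    rw [map_sub, h, sub_self]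
  -- `e j` is idempotent
  have hc0 : ∀ j, ((c j : ℚ) : E) ≠ 0 := fun j => by exact_mod_cast (h1 j).pos.ne'
  have hge : ∀ j y, g j (e j y) = g j y := fun j y => LinearMap.congr_fun (h1 j).supp y
  have hprod : ∀ j x y, (c j : E) * S.form x (e j y) = ip (S.val' (g j) x) (S.val' (g j) y) := by
    intro j x y
    have h := (h1 j).isom x y
    have e1 : S.num x (S.scale (c j) (e j) y) = (c j : E) * S.form x (e j y) := by
      change S.form x ((c j : E) • e j y) = _
      rw [map_smul, smul_eq_mul]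
    rw [← e1]
    exact h
  have hidem : ∀ j, e j * e j = e j := by
    intro j
    apply huniq
    intro x y
    apply mul_left_cancel₀ (hc0 j)
    rw [Module.End.mul_apply, hprod, hprod]
    change ip (g j x) (g j (e j y)) = ip (g j x) (g j y)
    rw [hge]
  let w : Fin m → S.Endo := fun j => S.mul (e j) (u j)
  have hwR : ∀ j, S.IsR (w j) := fun j => hF.mul _ _ (h1 j).endo (hu j)
  have hew : ∀ j y, e j (w j y) = w j y := by
    intro j y
    exact LinearMap.congr_fun (hidem j) (u j y)
  have hfw : ∀ x, f x = ∑ j, g j (w j x) := by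
    intro x
    have e1 : f x = ∑ j, g j (u j x) := by
      rw [hfu]
      rw [LinearMap.sum_apply]
      rfl
    rw [e1]
    apply Finset.sum_congr rfl
    intro j _
    exact (hge j (u j x)).symm
  choose w' hw'R hw' using fun j => hF.transpose (w j) (hwR j)
  have hr' : r = ∑ j, (c j : E) • (w' j * w j) := by
    apply huniq
    intro x y
    have e1 : S.form x (r y) = D.pair (s + 1) (s + 2 + 1) (s + 2 + 1) (f x) (f y) := hr x y
    rw [e1, hfw x, hfw y, map_sum, LinearMap.sum_apply, map_sum, map_sum]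
    apply Finset.sum_congr rfl
    intro j _
    rw [LinearMap.sum_apply, Finset.sum_eq_single j]
    · rw [LinearMap.smul_apply, map_smul, smul_eq_mul, Module.End.mul_apply]
      have e2 : S.form x (w' j (w j y)) = S.form (w j x) (w j y) := hw' j x (w j y)
      rw [e2]
      have e3 := hprod j (w j x) (w j y)
      rw [hew] at e3
      exact e3.symm
    · intro i _ hij
      have e4 := h2 i j hij (w i x) (w j y)
      have e5 : S.num (w i x) ((0 : S.Endo) (w j y)) = 0 := map_zero (S.form (w i x))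
      rw [e5] at e4
      exact e4.symm
    · intro h; exact absurd (Finset.mem_univ _) h
  have hpos : ∀ j, ∃ d : ℚ, 0 ≤ d ∧ LinearMap.trace E S.T (w' j * w j) = d ∧ (w j ≠ 0 → 0 < d) := by
    intro j
    by_cases h0 : w j = 0
    · refine ⟨0, le_rfl, ?_, fun h => absurd h0 h⟩
      rw [h0, mul_zero, map_zero, Rat.cast_zero]
    · obtain ⟨d, hd, hd'⟩ := hsq (w j) (w' j) (hwR j) h0 (hw' j)
      exact ⟨d, hd.le, hd', fun _ => hd⟩
  choose d hd0 hd hdpos using hpos
  refine ⟨∑ j, c j * d j, ?_, ?_⟩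
  · have hnn : ∀ j, 0 ≤ c j * d j := fun j => mul_nonneg (h1 j).pos.le (hd0 j)
    have hex : ∃ j, w j ≠ 0 := by
      by_contra hall
      push Not at hall
      apply hf0
      apply LinearMap.ext
      intro x
      rw [hfw x]
      change _ = (0 : D.V (s + 1) (s + 2 + 1))
      apply Finset.sum_eq_zero
      intro j _
      rw [hall j]
      change g j (0 : S.T) = 0
      exact map_zero (g j)
    obtain ⟨j, hj⟩ := hex
    exact Finset.sum_pos' (fun j _ => hnn j) ⟨j, Finset.mem_univ _, mul_pos (h1 j).pos (hdpos j hj)⟩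
  · change LinearMap.trace E S.T r = _
    rw [hr', map_sum]
    push_cast
    apply Finset.sum_congr rfl
    intro j _
    rw [map_smul, hd, smul_eq_mul]

/-- **The part generated by a source.** -/
theorem src_rho_eq_zero {n : ℕ} (hd : D.IsDuality n) (S : Source D s k) (hS : S.IsGeometric)
    (hH : S.Positive) (c : D.V s (s + k)) (hc : ∀ f x, S.IsC' f → ip (S.val' f x) (rho c) = 0)
    (v : D.V s (s + k)) (hv : v ∈ S.image) (h0 : gam (rho (c + v)) = 0) : rho v = 0 := by
  let r02 : D.V s (s + k) →ₗ[E] D.V (s + 1) (s + k + 1) := D.res s (s + k)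
  let p : D.V (s + 1) (s + k + 1) →ₗ[E] D.V (s + 1) (s + k + 1) →ₗ[E] E :=
    D.pair (s + 1) (s + k + 1) (s + k + 1)
  have hε : ((-1 : E)) ^ k * (-1) ^ k = 1 := by
    rw [← mul_pow]; norm_num
  have hps : ∀ x y, p x y = (-1) ^ k * p y x := by
    intro x y
    have h1 : p x y = (-1) ^ (s + k + 1 + (s + 1)) * p y x :=
      hd.symm (s + 1) (s + k + 1) (s + k + 1) x y
    have h2 : ((-1 : E)) ^ (s + k + 1 + (s + 1)) = (-1) ^ k := by
      have : s + k + 1 + (s + 1) = 2 * (s + 1) + k := by ring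
      rw [this, pow_add, pow_mul]
      norm_num
    rw [h1, h2]
  refine nondeg_of_pos' S.form ((-1) ^ k) hε hS.symm hS.nondeg p hps
    (fun g => ∃ f, S.IsC f ∧ g = r02 ∘ₗ f) ?_
    (fun r => S.IsR r) ?_ ?_ hS.rational ?_ ?_ (rho v) ?_ ?_
  · refine ⟨⟨0, S.C.zero_mem, by rw [LinearMap.comp_zero]⟩, ?_, ?_⟩
    · rintro _ _ ⟨f, hf, rfl⟩ ⟨g, hg, rfl⟩
      exact ⟨f + g, S.C.add_mem hf hg, by rw [LinearMap.comp_add]⟩
    · rintro c _ ⟨f, hf, rfl⟩
      exact ⟨(c : E) • f, hS.smul c f hf, by rw [LinearMap.comp_smul]⟩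
  · rintro _ _ ⟨f, hf, rfl⟩ ⟨g, hg, rfl⟩
    obtain ⟨r, hr, h⟩ := hS.adj _ _ (hS.res f hf) (hS.res g hg)
    exact ⟨r, hr, h⟩
  · rintro _ r ⟨f, hf, rfl⟩ hr
    exact ⟨f.comp r, hS.comp f r hf hr, rfl⟩
  · rintro _ r ⟨f, hf, rfl⟩ hne h
    exact hH.strata _ r (hS.res f hf) hne h
  · intro r r' hr hne h
    exact hH.square r r' hr hne h
  · have h1 : S.image ≤ (Submodule.span E
        {v | ∃ g : S.T →ₗ[E] D.V (s + 1) (s + k + 1), (∃ f, S.IsC f ∧ g = r02 ∘ₗ f) ∧
          ∃ x, v = g x}).comap r02 := by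
      unfold Source.image
      rw [Submodule.span_le]
      rintro _ ⟨f, x, hf, rfl⟩
      exact Submodule.subset_span ⟨r02 ∘ₗ f, ⟨f, hf, rfl⟩, x, rfl⟩
    exact h1 hv
  · rintro _ ⟨f, hf, rfl⟩ x
    have e1 : rho (c + v) = r02 c + r02 v := map_add r02 c v
    have e2 : p (r02 (f x)) (r02 c + r02 v) = 0 := by
      have h1 : ip (rho (f x)) (rho (c + v)) = ip (f x) (gam (rho (c + v))) :=
        hd.adj s (s + k) (s + k + 1) (f x) (rho (c + v))
      rw [h0] at h1
      have h2 : ip (f x) (0 : D.V s (s + k + 1 + 1)) = 0 :=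
        map_zero (D.pair s (s + k) (s + k + 1 + 1) (f x))
      rw [h2, e1] at h1
      exact h1
    rw [map_add] at e2
    have e3 : p (r02 (f x)) (r02 c) = 0 := hc _ x (hS.res f hf)
    rw [e3, zero_add] at e2
    exact e2

end Pool.Agent.W552.Wm
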