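import Mathlib
import Pool.Agent.W552.WmT2
import Pool.Agent.W552.WmShift
import Pool.Agent.W552.WmSrc

/-!
# Weight-monodromy: reduction to injectivity in small dimension, and the part coming from a source
-/

set_option autoImplicit false

namespace Pool.Agent.W552.Wm

open Module Pool.Agent.W522.M

variable {E : Type} [Field E] {D : Strata E}

/-- **Reduction to injectivity**, dimension `k + 1 ≤ 2`. -/
theorem mw_small {k : ℕ} (hk : k ≤ 1) (hb : D.IsBounded (k + 1))
    (hL : D.IsLefschetz (k + 1)) (hd : D.IsDuality (k + 1))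
    (h : ∀ m : D.V 0 k, gam (rho m) = 0 → rho m = 0) : D.MonodromyWeight (k + 1) 1 := by
  -- vanishing
  have v1 : ∀ a (x : D.V a k), 2 ≤ a → x = 0 := fun a x ha => hb.neg a k x (by omega)
  have v2 : ∀ a (x : D.V a (k + 1)), 2 ≤ a → Odd a → x = 0 := by
    intro a x ha ho
    apply hb.neg a (k + 1) x
    have : a ≠ 2 := by rintro rfl; revert ho; decide
    omega
  have v3 : ∀ a (x : D.V a (k + 2)), 2 ≤ a → x = 0 := by
    intro a x ha
    by_cases h1 : k + 1 < a
    · exact hb.empty a (k + 2) x h1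
    · obtain rfl : a = 2 := by omega
      obtain rfl : k = 1 := by omega
      obtain ⟨y, hy⟩ := (hL.bij 2 1 1 (by norm_num)).2 x
      have hy0 : y = 0 := hb.neg 2 1 y (by norm_num)
      rw [← hy, hy0]
      exact map_zero (D.lp 2 1 1)
  have mZm : ∀ x : D.Ch (k + 1), x ∈ D.Z (-1) (k + 1) ↔ (∀ a, ¬ Odd a → x a = 0) ∧
      gam (x 1) = 0 := by
    intro x
    rw [mem_Z]
    constructor
    · rintro ⟨h1, h2⟩
      exact ⟨fun a ha => h1 a (by rwa [inCol_neg_one]),
        h2 0 (by rw [neg_add_cancel, inCol_zero]; decide)⟩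
    · rintro ⟨h1, h2⟩
      refine ⟨fun a ha => h1 a (by rwa [inCol_neg_one] at ha), fun a ha => ?_⟩
      rw [neg_add_cancel, inCol_zero] at ha
      by_cases h0 : a = 0
      · subst h0; exact h2
      · apply v3
        obtain ⟨b, rfl⟩ := ha
        omega
  have mZp : ∀ x : D.Ch (k + 1), x ∈ D.Z 1 (k + 1) ↔ ∀ a, ¬ Odd a → x a = 0 := by
    intro x
    rw [mem_Z]
    constructor
    · rintro ⟨h1, -⟩
      exact fun a ha => h1 a (by rwa [inCol_one])
    · intro h1
      refine ⟨fun a ha => h1 a (by rwa [inCol_one] at ha), fun a ha => ?_⟩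
      have e : (1 : ℤ) + 1 = 2 := by norm_num
      rw [e, inCol_two] at ha
      exact v3 _ _ ha.1
  have odd0 : ∀ x : D.Ch (k + 1), (∀ a, ¬ Odd a → x a = 0) → x 1 = 0 → x = 0 := by
    intro x h0 h1
    funext a
    by_cases ha : Odd a
    · by_cases ha1 : a = 1
      · subst ha1; exact h1
      · exact v2 a (x a) (by have := ha.pos; omega) ha
    · exact h0 a ha
  have mBp : ∀ x : D.Ch (k + 1), x ∈ D.B 1 (k + 1) ↔ (∀ a, ¬ Odd a → x a = 0) ∧
      ∃ m : D.V 0 k, x 1 = rho m := by
    intro x
    rw [mem_B]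
    have e : (1 : ℤ) - 1 = 0 := by norm_num
    constructor
    · rintro ⟨y, hy, h1, h2⟩
      refine ⟨fun a ha => h2 a (by rwa [inCol_one]), y 0, ?_⟩
      have h3 : x 1 = rho (y 0) + gam (y 2) := h1 1 (by rw [inCol_one]; decide)
      rw [h3, v1 2 (y 2) le_rfl]
      change _ + D.gys _ _ 0 = _
      rw [map_zero, add_zero]
    · rintro ⟨h0, m, hm⟩
      let y : D.Ch k := fun a => match a with
        | 0 => m
        | _ + 1 => 0
      have hy0 : y 0 = m := rfl
      have hy1 : ∀ a, y (a + 1) = 0 := fun a => rfl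
      refine ⟨y, fun a ha => ?_, fun a ha => ?_, fun a ha => h0 a (by rwa [inCol_one] at ha)⟩
      · rw [e, inCol_zero] at ha
        cases a with
        | zero => exact absurd (by decide) ha
        | succ a => rfl
      · rw [inCol_one] at ha
        by_cases ha1 : a = 1
        · subst ha1
          change x 1 = rho (y 0) + gam (y 2)
          rw [hm, hy0, hy1]
          change _ = _ + D.gys _ _ 0
          rw [map_zero, add_zero]
        · have h4 : 2 ≤ a := by have := ha.pos; omega
          rw [v2 a (x a) h4 ha, v2 a (tot y a) h4 ha]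
  refine ⟨fun x hx => Z_le 1 _ hx, fun x hx => B_le 1 _ le_rfl hx, ?_, ?_⟩
  · intro x hx hx'
    rw [Nat.cast_one] at hx
    have hx2 := (mZm x).1 hx
    obtain ⟨h0, m, hm⟩ := (mBp x).1 (by simpa using hx')
    have h1 : rho m = 0 := by
      apply h
      rw [← hm]
      exact hx2.2
    rw [odd0 x h0 (by rw [hm, h1])]
    exact Submodule.zero_mem _
  · intro y hy
    have hy0 : ∀ a, ¬ Odd a → y a = 0 := (mZp y).1 (by simpa using hy)
    let p : LinearMap.BilinForm E (D.V 1 (k + 1)) := D.pair 1 (k + 1) (k + 1)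
    have hps : ∀ x z, p x z = (-1) ^ (k + 1 + 1) * p z x := fun x z => hd.symm 1 (k + 1) (k + 1) x z
    have hrefl : p.IsRefl := by
      intro x z hxz
      change p z x = 0
      rw [hps, hxz, mul_zero]
    let g : D.V 1 (k + 1) →ₗ[E] D.V 0 (k + 2) := D.gys 0 (k + 1)
    let ρ : D.V 0 k →ₗ[E] D.V 1 (k + 1) := D.res 0 k
    have hadj : ∀ m z, p (ρ m) z = ip m (g z) := fun m z => hd.adj 0 k (k + 1) m z
    have hperp : p.orthogonal (LinearMap.range ρ) = LinearMap.ker g := by
      ext z
      rw [LinearMap.BilinForm.mem_orthogonal_iff, LinearMap.mem_ker]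
      constructor
      · intro hz
        apply hd.nondeg 0 (k + 2) k (by omega) (g z)
        intro m
        have h1 : p (ρ m) z = 0 := hz _ ⟨m, rfl⟩
        rw [hadj] at h1
        have h2 : ip (g z) m = (-1) ^ (k + 2 + 0) * ip m (g z) := hd.symm 0 (k + 2) k (g z) m
        rw [h2, h1, mul_zero]
      · rintro hz _ ⟨m, rfl⟩
        change p (ρ m) z = 0
        rw [hadj, hz]
        exact map_zero (D.pair 0 k (k + 2) m)
    have hnd : p.Nondegenerate := by
      refine ⟨fun x hx => hd.nondeg 1 (k + 1) (k + 1) (by omega) x hx, fun x hx => ?_⟩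
      apply hd.nondeg 1 (k + 1) (k + 1) (by omega) x
      intro z
      exact hrefl _ _ (hx z)
    have hcompl : IsCompl (LinearMap.range ρ) (p.orthogonal (LinearMap.range ρ)) := by
      rw [LinearMap.BilinForm.isCompl_orthogonal_iff_disjoint hrefl, hperp, Submodule.disjoint_def]
      rintro _ ⟨m, rfl⟩ hm
      exact h m hm
    have hmem : y 1 ∈ LinearMap.range ρ ⊔ p.orthogonal (LinearMap.range ρ) := by
      rw [hcompl.sup_eq_top]
      exact Submodule.mem_top
    obtain ⟨_, ⟨m, rfl⟩, z, hz, hmz⟩ := Submodule.mem_sup.1 hmem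
    rw [hperp, LinearMap.mem_ker] at hz
    let x : D.Ch (k + 1) := fun a => match a with
      | 0 => 0
      | 1 => z
      | _ + 2 => 0
    have hx1 : x 1 = z := rfl
    have hx0 : ∀ a, ¬ Odd a → x a = 0 := by
      intro a ha
      match a with
      | 0 => rfl
      | 1 => exact absurd (by decide) ha
      | _ + 2 => rfl
    refine ⟨x, ?_, ?_⟩
    · rw [Nat.cast_one]
      exact (mZm x).2 ⟨hx0, hz⟩
    · have : y - x ∈ D.B 1 (k + 1) := by
        refine (mBp _).2 ⟨fun a ha => ?_, m, ?_⟩
        · rw [Pi.sub_apply, hy0 a ha, hx0 a ha, sub_zero]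
        · rw [Pi.sub_apply, hx1, ← hmz]
          change ρ m + z - z = ρ m
          rw [add_sub_cancel_right]
      simpa using this

/-- in large columns there is nothing to prove -/
theorem mw_large {n r : ℕ} (hb : D.IsBounded n) (hr : n < r) : D.MonodromyWeight n r := by
  have h0 : ∀ (p : ℤ) (x : D.Ch n), p.natAbs = r → (∀ a, ¬ InCol p a → x a = 0) → x = 0 := by
    intro p x hp hx
    funext a
    by_cases ha : InCol p a
    · exact hb.empty a n (x a) (by have := ha.1; omega)
    · exact hx a ha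
  have hz : ∀ (p : ℤ) (x : D.Ch n), p.natAbs = r → x ∈ D.Z p n → x = 0 := by
    intro p x hp hx
    exact h0 p x hp ((mem_Z x).1 hx).1
  refine ⟨fun x hx => ?_, fun x hx => ?_, fun x hx _ => ?_, fun y hy => ?_⟩
  · rw [hz _ x (by simp) hx]; exact Submodule.zero_mem _
  · have hx0 : x = 0 := by
      cases n with
      | zero => exact (Submodule.mem_bot E).1 hx
      | succ n =>
        obtain ⟨y, -, -, h2⟩ := (mem_B x).1 hx
        exact h0 _ x (by simp) h2
    rw [hx0]; exact Submodule.zero_mem _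
  · rw [hz _ x (by simp) hx]; exact Submodule.zero_mem _
  · rw [hz _ y (by simp) hy]
    refine ⟨0, Submodule.zero_mem _, ?_⟩
    change (0 : D.Ch n) - 0 ∈ D.B r n
    rw [sub_zero]
    exact Submodule.zero_mem _

end Pool.Agent.W552.Wm
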