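import Mathlib
import Pool.Agent.W552.WmPos
import Pool.Agent.W552.WmSmall

/-!
# The monodromy-weight conjecture in middle degree for copies of surfaces
-/

set_option autoImplicit false

namespace Pool.Agent.W552.Wm

open Module Polynomial Pool.Agent.W522.M

variable {E : Type} [Field E] {D : Strata E} {s : ℕ}

lemma sh_lefschetz' {n : ℕ} (hn : n ≤ 2) (h : D.IsLefschetz (s + n)) :
    (sh D s).IsLefschetz n where
  lef_res a w x := h.lef_res (s + a) (s + w) x
  lef_gys a w x := h.lef_gys (s + a) (s + w) x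
  bij a w r hr := by
    obtain rfl : w = n - r := by omega
    have hr3 : r ≤ n := by omega
    interval_cases n <;> interval_cases r
    · exact h.bij (s + a) (s + 0) 0 (by omega)
    · exact h.bij (s + a) (s + 1) 0 (by omega)
    · exact h.bij (s + a) (s + 0) 1 (by omega)
    · exact h.bij (s + a) (s + 2) 0 (by omega)
    · exact h.bij (s + a) (s + 1) 1 (by omega)
    · exact h.bij (s + a) (s + 0) 2 (by omega)

lemma sh_duality' {n : ℕ} (h : D.IsDuality (s + n)) : (sh D s).IsDuality n where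
  adj a w v x y := h.adj (s + a) (s + w) (s + v) x y
  lef_adj a w v x y := h.lef_adj (s + a) (s + w) (s + v) x y
  symm a w v x y := by
    have h1 := h.symm (s + a) (s + w) (s + v) x y
    have h2 : ((-1 : E)) ^ (s + w + (s + a)) = (-1) ^ (w + a) := by
      have : s + w + (s + a) = 2 * s + (w + a) := by ring
      rw [this, pow_add, pow_mul]
      norm_num
    rw [h2] at h1
    exact h1
  nondeg a w v hwv x hx := h.nondeg (s + a) (s + w) (s + v) (by omega) x hx

variable [CharZero E]

lemma curves_inj {n : ℕ} (hd : D.IsDuality n) (C : Source D s 1) (hC : C.IsGeometric)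
    (hH : C.Positive) (hG : C.Generates) (m : D.V s (s + 1)) (hm : gam (rho m) = 0) :
    rho m = 0 := by
  obtain ⟨v, hv, h⟩ := hG m
  have hv0 : gam (rho ((0 : D.V s (s + 1)) + v)) = 0 := by
    rw [zero_add, ← h]
    exact hm
  rw [h]
  refine src_rho_eq_zero hd C hC hH 0 (fun f x _ => ?_) v hv hv0
  have e : rho (0 : D.V s (s + 1)) = 0 := map_zero (D.res s (s + 1))
  rw [e]
  exact map_zero (D.pair (s + 1) (s + 1 + 1) (s + 1 + 1) (C.val' f x))

/-- `N^(n-1)` on `H^n`: curves. -/
theorem mw_curves (hD : IsLog D (s + 2)) (C : Source D s 1) (hC : C.IsGeometric)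
    (hH : C.Positive) (hG : C.Generates) : D.MonodromyWeight (s + 2) (s + 1) := by
  refine mw_of_sh (w := 1) (r := 1) le_rfl ?_
  exact mw_small (k := 1) le_rfl (sh_bounded hD.bounded) (sh_lefschetz' le_rfl hD.lefschetz)
    (sh_duality' hD.duality) fun m hm => curves_inj hD.duality C hC hH hG m hm

lemma points_inj (hD : IsLog D (s + 1)) (A : D.Cycles) (hA : A.IsGeometric (s + 1))
    (m : D.V s s) (hm : gam (rho m) = 0) : rho m = 0 := by
  let r02 : D.V s s →ₗ[E] D.V (s + 1) (s + 1) := D.res s s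
  let p : D.V (s + 1) (s + 1) →ₗ[E] D.V (s + 1) (s + 1) →ₗ[E] E :=
    D.pair (s + 1) (s + 1) (s + 1)
  have hps : ∀ x y, p x y = 1 * p y x := by
    intro x y
    have h1 : p x y = (-1) ^ (s + 1 + (s + 1)) * p y x :=
      hD.duality.symm (s + 1) (s + 1) (s + 1) x y
    rw [h1, Even.neg_one_pow ⟨s + 1, rfl⟩]
  have hpos : ∀ t : D.V (s + 1) (s + 1), A.Alg t → t ≠ 0 → ∃ c : ℚ, 0 < c ∧ p t t = c := by
    intro t ht ht0
    obtain ⟨r, hr, h⟩ := hA.components.pos (s + 1) le_rfl t ht ht0
    rw [Nat.sub_self] at h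
    exact ⟨r, hr, h⟩
  have hrat : ∀ x y : D.V (s + 1) (s + 1), A.Alg x → A.Alg y → ∃ c : ℚ, p x y = c := by
    intro x y hx hy
    exact hA.rational (s + 1) (s + 1) (s + 1) (by ring) x y hx hy
  let mm : E →ₗ[E] E →ₗ[E] E := LinearMap.mul E E
  have hmm : ∀ x y, mm x y = x * y := fun x y => rfl
  have htr : ∀ r : E →ₗ[E] E, LinearMap.trace E E r = r 1 := by
    intro r
    rw [LinearMap.trace_eq_matrix_trace E (Basis.singleton Unit E), Matrix.trace,
      Fintype.sum_unique, Matrix.diag_apply, LinearMap.toMatrix_apply]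
    simp
  refine nondeg_of_pos' mm 1 (by ring) (fun x y => by rw [hmm, hmm]; ring)
    (fun x hx => by have := hx 1; rwa [hmm, mul_one] at this) p hps
    (fun g => ∃ t : D.V s s, A.Alg t ∧ g = LinearMap.toSpanSingleton E _ (r02 t)) ?_
    (fun r => ∃ c : ℚ, r = (c : E) • LinearMap.id) ?_ ?_ ?_ ?_ ?_ (r02 m) ?_ ?_
  · refine ⟨⟨0, (A.C s s).zero_mem, ?_⟩, ?_, ?_⟩
    · rw [map_zero]
      apply LinearMap.ext
      intro x
      rw [LinearMap.toSpanSingleton_apply, smul_zero, LinearMap.zero_apply]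
    · rintro _ _ ⟨f, hf, rfl⟩ ⟨g, hg, rfl⟩
      refine ⟨f + g, (A.C s s).add_mem hf hg, ?_⟩
      apply LinearMap.ext
      intro x
      rw [map_add, LinearMap.add_apply, LinearMap.toSpanSingleton_apply,
        LinearMap.toSpanSingleton_apply, LinearMap.toSpanSingleton_apply, smul_add]
    · rintro c _ ⟨f, hf, rfl⟩
      refine ⟨rmul c f, A.smul s s c f hf, ?_⟩
      apply LinearMap.ext
      intro x
      have e : r02 (rmul c f) = (c : E) • r02 f := map_smul r02 (c : E) f
      rw [e, LinearMap.smul_apply, LinearMap.toSpanSingleton_apply,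
        LinearMap.toSpanSingleton_apply, smul_comm]
  · rintro _ _ ⟨f, hf, rfl⟩ ⟨g, hg, rfl⟩
    obtain ⟨c, hc⟩ := hrat _ _ (hA.stable.res s s f hf) (hA.stable.res s s g hg)
    refine ⟨(c : E) • LinearMap.id, ⟨c, rfl⟩, fun x y => ?_⟩
    have hc' : p (r02 f) (r02 g) = c := hc
    rw [LinearMap.toSpanSingleton_apply, LinearMap.toSpanSingleton_apply, map_smul, map_smul,
      LinearMap.smul_apply, LinearMap.smul_apply, hc', hmm, LinearMap.id_apply, smul_eq_mul,
      smul_eq_mul, smul_eq_mul]
    ring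
  · rintro _ _ ⟨f, hf, rfl⟩ ⟨c, rfl⟩
    refine ⟨rmul c f, A.smul s s c f hf, ?_⟩
    apply LinearMap.ext
    intro x
    have e : r02 (rmul c f) = (c : E) • r02 f := map_smul r02 (c : E) f
    rw [e, LinearMap.comp_apply, LinearMap.smul_apply, LinearMap.id_apply,
      LinearMap.toSpanSingleton_apply, LinearMap.toSpanSingleton_apply, smul_eq_mul, smul_smul,
      mul_comm]
  · rintro _ ⟨c, rfl⟩
    exact ⟨c, by rw [htr, LinearMap.smul_apply, LinearMap.id_apply, smul_eq_mul, mul_one]⟩
  · rintro _ r ⟨f, hf, rfl⟩ hne h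
    have hf0 : rho f ≠ 0 := by
      intro h0
      apply hne
      have h1 : r02 f = 0 := h0
      rw [h1]
      apply LinearMap.ext
      intro x
      rw [LinearMap.toSpanSingleton_apply, smul_zero, LinearMap.zero_apply]
    obtain ⟨c, hc, hc'⟩ := hpos _ (hA.stable.res s s f hf) hf0
    refine ⟨c, hc, ?_⟩
    have h1 := h 1 1
    rw [hmm, one_mul, LinearMap.toSpanSingleton_apply, one_smul] at h1
    rw [htr, h1]
    exact hc'
  · rintro _ r' ⟨c, rfl⟩ hne h
    have hc0 : c ≠ 0 := by
      rintro rfl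
      apply hne
      rw [Rat.cast_zero, zero_smul]
    refine ⟨c * c, mul_self_pos.2 hc0, ?_⟩
    have h1 := h 1 (c : E)
    rw [hmm, hmm, one_mul, LinearMap.smul_apply, LinearMap.id_apply, smul_eq_mul, mul_one] at h1
    rw [htr, LinearMap.comp_apply, LinearMap.smul_apply, LinearMap.id_apply, smul_eq_mul, mul_one,
      h1]
    push_cast
    rfl
  · have h1 : m ∈ A.span s s := by
      rw [hA.components.span s]
      exact Submodule.mem_top
    have h2 : A.span s s ≤ (Submodule.span E {v | ∃ g : E →ₗ[E] D.V (s + 1) (s + 1),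
        (∃ t : D.V s s, A.Alg t ∧ g = LinearMap.toSpanSingleton E _ (r02 t)) ∧
          ∃ x, v = g x}).comap r02 := by
      unfold Strata.Cycles.span
      rw [Submodule.span_le]
      intro t ht
      exact Submodule.subset_span ⟨_, ⟨t, ht, rfl⟩, 1, by
        rw [LinearMap.toSpanSingleton_apply, one_smul]⟩
    exact h2 h1
  · rintro _ ⟨f, hf, rfl⟩ x
    rw [LinearMap.toSpanSingleton_apply, map_smul, LinearMap.smul_apply]
    have h1 : p (r02 f) (r02 m) = D.pair s s (s + 1 + 1) f (gam (rho m)) :=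
      hD.duality.adj s s (s + 1) f (rho m)
    rw [h1, hm, map_zero, smul_zero]

/-- `N^n` on `H^n`: the dual complex. -/
theorem mw_points (hD : IsLog D (s + 1)) (A : D.Cycles) (hA : A.IsGeometric (s + 1)) :
    D.MonodromyWeight (s + 1) (s + 1) := by
  refine mw_of_sh (w := 0) (r := 1) le_rfl ?_
  exact mw_small (k := 0) (by norm_num) (sh_bounded hD.bounded)
    (sh_lefschetz' (by norm_num) hD.lefschetz) (sh_duality' hD.duality)
    fun m hm => points_inj hD A hA m hm

/-- `N^(n-2)` on `H^n`: surfaces. -/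
theorem mw_surfaces (hD : IsLog D (s + 3)) (A : D.Cycles) (hA : A.IsGeometric (s + 3))
    (S : Source D s 2) (hS : S.IsGeometric) (ho : S.IsOrthogonal A) (hH : S.Positive)
    (hG : S.GeneratesWith A) : D.MonodromyWeight (s + 3) (s + 1) := by
  refine mw_of_sh (w := 2) (r := 1) le_rfl ?_
  refine mw_of_inj (sh_complex hD.complex) (sh_bounded hD.bounded) (sh_duality hD.duality) ?_
  intro m hm
  obtain ⟨c, v, hc, hv, h⟩ := hG m
  have hm' : gam (rho (c + v)) = 0 := by
    rw [← h]
    exact hm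
  -- orthogonality
  have hcs : D.res s (s + 2) c ∈ A.span (s + 1) (s + 3) := by
    have h1 : A.span s (s + 2) ≤ (A.span (s + 1) (s + 3)).comap (D.res s (s + 2)) := by
      unfold Strata.Cycles.span
      rw [Submodule.span_le]
      intro z hz
      exact Submodule.subset_span (hA.stable.res s (s + 2) z hz)
    exact h1 hc
  have horth : ∀ f x, S.IsC' f → ip (S.val' f x) (rho c) = 0 := by
    intro f x hf
    have h1 : Submodule.span E (A.C (s + 1) (s + 3) : Set (D.V (s + 1) (s + 3))) ≤
        LinearMap.ker (D.pair (s + 1) (s + 3) (s + 3) (f x)) := by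
      rw [Submodule.span_le]
      intro z hz
      exact ho f x z hf hz
    exact h1 hcs
  have h1 : rho v = 0 := src_rho_eq_zero hD.duality S hS hH c horth v hv hm'
  have h2 : rho (c + v) = rho c := by
    have e1 : rho (c + v) = rho c + rho v := map_add (D.res s (s + 2)) c v
    rw [e1, h1, add_zero]
  rw [h2] at hm' h
  obtain ⟨k, hk1, hk2⟩ := key_tate (sh_complex hD.complex) (sh_lefschetz hD.lefschetz)
    (sh_duality hD.duality) (shC A s) (shC_stable hA.stable) (shC_components hA.components)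
    (shC_rational hA.rational) (shC_hodge hA.hodge) (c : D.V s (s + 2)) hc hm'
  exact ⟨k, hk1, Eq.trans h hk2⟩

/-- **All weights `≥ s + 1`.** -/
theorem copies (hD : IsLog D (s + 3)) (A : D.Cycles) (hA : A.IsGeometric (s + 3))
    (S : Source D s 2) (hS : S.IsGeometric) (ho : S.IsOrthogonal A) {F : S.Endo} {q : ℕ}
    {P : ℤ[X]} (hF : S.IsFrobenius F q P) (hq : q ≠ 0) (hs : IsSimple P q) (hc : S.HasCopies)
    (hG : S.GeneratesWith A) (C : Source D (s + 1) 1) (hC : C.IsGeometric) (hp : C.Positive)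
    (hg : C.Generates) : ∀ r, s + 1 ≤ r → D.MonodromyWeight (s + 3) r := by
  intro r hr
  rcases lt_or_ge (s + 3) r with h | h
  · exact mw_large hD.bounded h
  · obtain rfl | rfl | rfl : r = s + 1 ∨ r = s + 2 ∨ r = s + 3 := by omega
    · exact mw_surfaces hD A hA S hS ho (positive_of_copies S hS hF hq hs hc) hG
    · exact mw_curves (s := s + 1) hD C hC hp hg
    · exact mw_points (s := s + 2) hD A hA

end Pool.Agent.W552.Wm
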